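import Pool.Agent.H28.ZT.Link0

/-!
# BBF (chapter E): the Dirichlet polynomial `BB`

`‖BB A t‖ ≤ ∑_S 1 = |A|` (`‖np n (-1/2-it)‖ = n^(-1/2) ≤ 1`).  `DD (s3 A) (a3 v) c3 t = ∏_k BB A (t + v k)`: expand the product
(`Finset.prod_univ_sum`), `np n (-1/2-it) np n (-iv) = np n (-1/2-i(t+v))`.
-/

set_option autoImplicit false

namespace Pool.Agent.H28.ZT

open Complex

theorem BB_le (A : Finset (Finset ℕ)) (hA : ∀ S ∈ A, ∀ p ∈ S, p.Prime) (t : ℝ) : ‖BB A t‖ ≤ (A.card : ℝ) := by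
  unfold BB
  refine (norm_sum_le _ _).trans ?_
  calc ∑ S ∈ A, ‖(-(1 / 2 : ℂ)) ^ S.card * np (pr S) (-(1 / 2) - I * (t : ℂ))‖ ≤ ∑ S ∈ A, (1 : ℝ) := by
        refine Finset.sum_le_sum fun S hS => ?_
        rw [norm_mul, norm_pow, np_norm]
        have e1 : (-(1 / 2) - I * (t : ℂ)).re = -(1 / 2) := by simp
        rw [e1]
        have h1 : ‖(-(1 / 2 : ℂ))‖ ^ S.card ≤ 1 := by
          apply pow_le_one₀ (norm_nonneg _)
          rw [norm_neg, norm_div, norm_one]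
          norm_num
        have h2 : Real.exp (-(1 / 2) * Real.log (pr S : ℝ)) ≤ 1 := by
          rw [Real.exp_le_one_iff]
          have : (0 : ℝ) ≤ Real.log (pr S : ℝ) := Real.log_natCast_nonneg _
          linarith
        calc ‖(-(1 / 2 : ℂ))‖ ^ S.card * Real.exp (-(1 / 2) * Real.log (pr S : ℝ)) ≤ 1 * 1 :=
              mul_le_mul h1 h2 (Real.exp_pos _).le zero_le_one
          _ = 1 := one_mul 1
    _ = (A.card : ℝ) := by simp

theorem BB_cont (A : Finset (Finset ℕ)) : Continuous (BB A) := by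
  unfold BB np
  fun_prop

theorem DD_s3 (A : Finset (Finset ℕ)) (hA : ∀ S ∈ A, ∀ p ∈ S, p.Prime) (v : Fin 3 → ℝ) (t : ℝ) :
    DD (s3 A) (a3 v) c3 t = ∏ k : Fin 3, BB A (t + v k) := by
  unfold DD BB s3
  rw [Finset.prod_univ_sum]
  refine Finset.sum_congr rfl fun f hf => ?_
  rw [Fintype.mem_piFinset] at hf
  have hpos : ∀ k, 1 ≤ pr (f k) := fun k => Finset.prod_pos fun p hp => (hA _ (hf k) p hp).pos
  have h1 : np (c3 f) (-(1 / 2) - I * (t : ℂ)) = ∏ k : Fin 3, np (pr (f k)) (-(1 / 2) - I * (t : ℂ)) := by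
    unfold c3
    rw [Fin.prod_univ_three, Fin.prod_univ_three,
      np_mul (Nat.mul_pos (hpos 0) (hpos 1)) (hpos 2), np_mul (hpos 0) (hpos 1)]
  rw [h1]
  unfold a3
  rw [← Finset.prod_mul_distrib]
  refine Finset.prod_congr rfl fun k _ => ?_
  have h2 : (-(1 / 2) - I * ((t + v k : ℝ) : ℂ)) = -(I * ((v k : ℝ) : ℂ)) + (-(1 / 2) - I * (t : ℂ)) := by
    push_cast
    ring
  rw [h2, np_add, mul_assoc]

end Pool.Agent.H28.ZT
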