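import Pool.Agent.H28.ZT.Card
import Pool.Agent.H28.ZT.BBf

/-!
# AOK (chapter M): what the mean values need about the set `A`, definitions

`Bs A s = ∑_S (-1/2)^|S| (pr S)^(-s)`, so `BB A t = Bs A (1/2 + i t)` and `conj (BB A t) = Bs A (1/2 - i t)`.
`‖np (pr S) (-s)‖ = (pr S)^(-Re s)`.
-/

set_option autoImplicit false

namespace Pool.Agent.H28.ZT

open Complex

structure AOK (T : ℝ) (A : Finset (Finset ℕ)) : Prop where
  prime : ∀ S ∈ A, ∀ p ∈ S, p.Prime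
  down : ∀ S ∈ A, ∀ S' ⊆ S, S' ∈ A
  card : (A.card : ℝ) ≤ T ^ (1 / 1000 : ℝ)
  len : ∀ S ∈ A, (pr S : ℝ) ≤ T ^ (1 / 1000 : ℝ)

theorem Blk.aok {K kap T : ℝ} {J : ℕ} {P : ℕ → Finset ℕ} {V : ℕ → ℕ} (hT : 1 ≤ T)
    (hB : Blk K kap T J P V) : AOK T (AA J P V) :=
  ⟨fun _ hS => AA_prime hB hS, fun _ hS _ h => AA_down hS h, card_AA hT hB, hB.len⟩

noncomputable def Bs (A : Finset (Finset ℕ)) (s : ℂ) : ℂ :=
  ∑ S ∈ A, (-(1 / 2 : ℂ)) ^ S.card * np (pr S) (-s)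

noncomputable def GM (A : Finset (Finset ℕ)) (v : ℝ) (s : ℂ) : ℂ :=
  riemannZeta (s + I * (v : ℂ)) * Bs A (s + I * (v : ℂ)) ^ 2 * Bs A s * Bs A (1 - s)

theorem Bs_half (A : Finset (Finset ℕ)) (t : ℝ) : Bs A (1 / 2 + I * (t : ℂ)) = BB A t := by
  unfold Bs BB
  refine Finset.sum_congr rfl fun S _ => ?_
  have e : (-(1 / 2 + I * (t : ℂ)) : ℂ) = -(1 / 2) - I * (t : ℂ) := by ring
  rw [e]

theorem Bs_conj (A : Finset (Finset ℕ)) (t : ℝ) :
    Bs A (1 - (1 / 2 + I * (t : ℂ))) = (starRingEnd ℂ) (BB A t) := by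
  unfold Bs BB
  rw [map_sum]
  refine Finset.sum_congr rfl fun S _ => ?_
  rw [map_mul, map_pow]
  congr 1
  · congr 1
    have : (-(1 / 2 : ℂ)) = ((-(1 / 2) : ℝ) : ℂ) := by
      push_cast
      rfl
    rw [this, conj_ofReal]
  · unfold np
    rw [← Complex.exp_conj, map_mul, conj_ofReal]
    congr 2
    have h2 : (starRingEnd ℂ) (1 / 2 : ℂ) = 1 / 2 := by
      have : (1 / 2 : ℂ) = ((1 / 2 : ℝ) : ℂ) := by
        push_cast
        rfl
      rw [this, conj_ofReal]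
    rw [map_sub, map_neg, map_mul, conj_I, conj_ofReal, h2]
    ring

theorem Bs_diff (A : Finset (Finset ℕ)) : Differentiable ℂ (Bs A) := by
  unfold Bs np
  fun_prop

theorem Bs_le {T : ℝ} {A : Finset (Finset ℕ)} (hT : 1 ≤ T) (hA : AOK T A) (s : ℂ) :
    (0 ≤ s.re → ‖Bs A s‖ ≤ T ^ (1 / 1000 : ℝ)) ∧ (-1 ≤ s.re → ‖Bs A s‖ ≤ T ^ (1 / 500 : ℝ)) := by
  have hpr : ∀ S ∈ A, 1 ≤ pr S := fun S hS => Finset.prod_pos fun p hp => (hA.prime S hS p hp).pos
  have hc : ∀ S : Finset ℕ, ‖(-(1 / 2 : ℂ)) ^ S.card‖ ≤ 1 := by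
    intro S
    rw [norm_pow, norm_neg]
    apply pow_le_one₀ (norm_nonneg _)
    rw [norm_div, norm_one]
    norm_num
  have hn : ∀ S ∈ A, ‖np (pr S) (-s)‖ = Real.exp (-s.re * Real.log (pr S : ℝ)) := by
    intro S _
    unfold np
    rw [Complex.norm_exp]
    congr 1
    rw [Complex.re_mul_ofReal, neg_re]
  constructor
  · intro hs
    unfold Bs
    refine (norm_sum_le _ _).trans ?_
    calc ∑ S ∈ A, ‖(-(1 / 2 : ℂ)) ^ S.card * np (pr S) (-s)‖ ≤ ∑ S ∈ A, (1 : ℝ) := by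
          refine Finset.sum_le_sum fun S hS => ?_
          rw [norm_mul, hn S hS]
          have h1 : (0 : ℝ) ≤ Real.log (pr S : ℝ) := Real.log_natCast_nonneg _
          have h2 : Real.exp (-s.re * Real.log (pr S : ℝ)) ≤ 1 := by
            rw [Real.exp_le_one_iff]
            nlinarith
          calc ‖(-(1 / 2 : ℂ)) ^ S.card‖ * Real.exp (-s.re * Real.log (pr S : ℝ)) ≤ 1 * 1 :=
                mul_le_mul (hc S) h2 (Real.exp_pos _).le zero_le_one
            _ = 1 := one_mul 1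
      _ = A.card := by simp
      _ ≤ T ^ (1 / 1000 : ℝ) := hA.card
  · intro hs
    unfold Bs
    refine (norm_sum_le _ _).trans ?_
    have hT0 : 0 < T := by linarith
    have hT1 : (0 : ℝ) ≤ T ^ (1 / 1000 : ℝ) := Real.rpow_nonneg hT0.le _
    calc ∑ S ∈ A, ‖(-(1 / 2 : ℂ)) ^ S.card * np (pr S) (-s)‖ ≤ ∑ S ∈ A, T ^ (1 / 1000 : ℝ) := by
          refine Finset.sum_le_sum fun S hS => ?_
          rw [norm_mul, hn S hS]
          have h0 : (0 : ℝ) < (pr S : ℝ) := by exact_mod_cast hpr S hS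
          have h1 : (0 : ℝ) ≤ Real.log (pr S : ℝ) := Real.log_natCast_nonneg _
          have h2 : Real.exp (-s.re * Real.log (pr S : ℝ)) ≤ (pr S : ℝ) := by
            calc Real.exp (-s.re * Real.log (pr S : ℝ)) ≤ Real.exp (Real.log (pr S : ℝ)) := by
                  rw [Real.exp_le_exp]
                  nlinarith
              _ = (pr S : ℝ) := Real.exp_log h0
          calc ‖(-(1 / 2 : ℂ)) ^ S.card‖ * Real.exp (-s.re * Real.log (pr S : ℝ)) ≤
                1 * T ^ (1 / 1000 : ℝ) :=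
                mul_le_mul (hc S) (h2.trans (hA.len S hS)) (Real.exp_pos _).le zero_le_one
            _ = T ^ (1 / 1000 : ℝ) := one_mul _
      _ = A.card * T ^ (1 / 1000 : ℝ) := by simp
      _ ≤ T ^ (1 / 1000 : ℝ) * T ^ (1 / 1000 : ℝ) := mul_le_mul_of_nonneg_right hA.card hT1
      _ = T ^ (1 / 500 : ℝ) := by
          rw [← Real.rpow_add hT0]
          norm_num

end Pool.Agent.H28.ZT
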