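import Pool.Agent.H28.ZT.Defs
import Pool.Agent.H75.AP.MertensB

/-!
# BLKE (chapter E): existence of the blocks

`L = log T`, `l₂ = log L`, `l₃ = log l₂`.  `J = ⌊2 l₃⌋ + 2`, `y j = exp (kap L e^(j-J))` for `1 ≤ j ≤ J`; blocks (numbered from 0)
`P 0 = {primes ≤ y 1}`, `P j = {primes in (y j, y (j+1)]}` for `1 ≤ j < J`; `V 0 = ⌊(K+1) l₂⌋ + 1`, `V j = V₀ + 2 (J - 1 - j)` for `j ≥ 1`,
where `C₁` is a bound for the sum of `1/p` over a block with `log` ratio `e` (`H75.AP.mertens_ratio` with `R = e`, `ε = 1`, for `y 1`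
large: `C₁ = 2`), `V₀ = ⌈K C₁⌉ + 4`.
eps: `j ≥ 1`: `e j = e^(-V₀-1-2(J-1-j)) e^(K C₁) ≤ e^(-4) e^(-2(J-1-j))`, sum `≤ e^(-4)/(1-e^(-2)) ≤ 1/8`; `j = 0`:
`e^(-(K+1) l₂) e^(K (l₂ + C₂)) = e^(K C₂)/L ≤ 1/8` for `T` large (`mertens_upper`; `log y 1 ≤ L`).
len: `log pr S ≤ ∑_j V j · log y (j+1) = kap L [V 0 e^(1-J) + ∑_{j≥1} (V₀ + 2(J-1-j)) e^(j+1-J)] ≤ kap L (1 + 2 V₀ + 8)`: first term:
`e^(-J) ≤ e^(-2 l₃ - 1) = e^(-1) l₂^(-2)`, so `V 0 e^(1-J) ≤ ((K+1) l₂ + 1)/l₂² ≤ 1` for large `T`.  So `kap0 = 1/(1000 (2 V₀ + 9))`.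
-/

set_option autoImplicit false

namespace Pool.Agent.H28.ZT

open Pool.Agent.H75.AP Filter

/-- end points of the blocks -/
private noncomputable def yy (a : ℝ) (J j : ℕ) : ℝ := Real.exp (a * Real.exp ((j : ℝ) - J))

private noncomputable def lo (a : ℝ) (J j : ℕ) : ℝ := if j = 0 then 0 else yy a J j

private noncomputable def PB (a : ℝ) (J j : ℕ) : Finset ℕ := PI (lo a J j) (yy a J (j + 1))

private theorem yy_mono {a : ℝ} (ha : 0 ≤ a) (J : ℕ) {i j : ℕ} (h : i ≤ j) : yy a J i ≤ yy a J j := by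
  unfold yy
  rw [Real.exp_le_exp]
  have h1 : (i : ℝ) ≤ j := by exact_mod_cast h
  have h2 : Real.exp ((i : ℝ) - J) ≤ Real.exp ((j : ℝ) - J) := Real.exp_le_exp.2 (by linarith)
  exact mul_le_mul_of_nonneg_left h2 ha

private theorem lo_nonneg (a : ℝ) (J j : ℕ) : 0 ≤ lo a J j := by
  unfold lo
  split_ifs
  · exact le_rfl
  · exact (Real.exp_pos _).le

private theorem mem_PB {a : ℝ} {J j p : ℕ} :
    p ∈ PB a J j ↔ p.Prime ∧ lo a J j < (p : ℝ) ∧ (p : ℝ) ≤ yy a J (j + 1) :=
  MertB.mem_PI (lo_nonneg a J j)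

private theorem PB_disj_lt {a : ℝ} (ha : 0 ≤ a) (J : ℕ) {i j : ℕ} (h : i < j) :
    Disjoint (PB a J i) (PB a J j) := by
  rw [Finset.disjoint_left]
  intro p h1 h2
  rw [mem_PB] at h1 h2
  have h3 : lo a J j = yy a J j := by
    unfold lo
    rw [if_neg (by omega)]
  rw [h3] at h2
  have h4 := yy_mono ha J (show i + 1 ≤ j by omega)
  linarith [h1.2.2, h2.2.1]

private theorem PB_un {a : ℝ} (J : ℕ) (hJ : 1 ≤ J) :
    (Finset.range J).biUnion (PB a J) = (Finset.Icc 1 ⌊Real.exp a⌋₊).filter Nat.Prime := by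
  have hyJ : yy a J J = Real.exp a := by
    unfold yy
    simp
  ext p
  rw [Finset.mem_biUnion, Finset.mem_filter, Finset.mem_Icc]
  constructor
  · rintro ⟨j, hj, hp⟩
    rw [mem_PB] at hp
    rw [Finset.mem_range] at hj
    refine ⟨⟨hp.1.pos, Nat.le_floor ?_⟩, hp.1⟩
    refine hp.2.2.trans ?_
    rw [← hyJ]
    rcases le_or_gt 0 a with ha | ha
    · exact yy_mono ha J (by omega)
    · exfalso
      have h1 : yy a J (j + 1) < 1 := by
        unfold yy
        rw [Real.exp_lt_one_iff]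
        exact mul_neg_of_neg_of_pos ha (Real.exp_pos _)
      have h2 : (1 : ℝ) ≤ p := by exact_mod_cast hp.1.pos
      linarith [hp.2.2]
  · rintro ⟨⟨_, h2⟩, h3⟩
    have h4 : (p : ℝ) ≤ Real.exp a := (Nat.le_floor_iff (Real.exp_pos _).le).1 h2
    have hex : ∃ j, (p : ℝ) ≤ yy a J (j + 1) := ⟨J - 1, by
      rw [Nat.sub_add_cancel hJ, hyJ]
      exact h4⟩
    classical
    have hf := Nat.find_spec hex
    have hmin := fun {m : ℕ} => @Nat.find_min (fun j => (p : ℝ) ≤ yy a J (j + 1)) _ hex m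
    set j := Nat.find hex with hj
    have hjJ : j ≤ J - 1 := Nat.find_min' hex (by
      rw [Nat.sub_add_cancel hJ, hyJ]
      exact h4)
    refine ⟨j, Finset.mem_range.2 (by omega), ?_⟩
    rw [mem_PB]
    refine ⟨h3, ?_, hf⟩
    unfold lo
    split_ifs with h0
    · exact_mod_cast h3.pos
    · have h5 := hmin (m := j - 1) (by omega)
      rw [Nat.sub_add_cancel (by omega)] at h5
      exact not_le.1 h5

private theorem geo_sum (V : ℝ) (n : ℕ) :
    ∑ i ∈ Finset.range n, (V + 2 * i) * (1 / 2 : ℝ) ^ i =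
      2 * V + 4 - (2 * V + 4 * n + 4) * (1 / 2 : ℝ) ^ n := by
  induction n with
  | zero => simp
  | succ n ih =>
    rw [Finset.sum_range_succ, ih, pow_succ]
    push_cast
    ring

private theorem exp_half (i : ℕ) : Real.exp (-(i : ℝ)) ≤ (1 / 2 : ℝ) ^ i := by
  have h1 : Real.exp (-(i : ℝ)) = Real.exp (-1) ^ i := by
    rw [← Real.exp_nat_mul]
    ring_nf
  rw [h1]
  refine pow_le_pow_left₀ (Real.exp_pos _).le ?_ i
  rw [Real.exp_neg, ← one_div]
  have h2 := Real.add_one_le_exp (1 : ℝ)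
  exact one_div_le_one_div_of_le (by norm_num) (by linarith)

private theorem exp_geo (n : ℕ) : ∑ i ∈ Finset.range n, Real.exp (-(i : ℝ)) ≤ 2 := by
  have h1 : ∑ i ∈ Finset.range n, Real.exp (-(i : ℝ)) ≤ ∑ i ∈ Finset.range n, (1 / 2 : ℝ) ^ i :=
    Finset.sum_le_sum fun i _ => exp_half i
  refine h1.trans ?_
  have h2 : ∀ n : ℕ, ∑ i ∈ Finset.range n, (1 / 2 : ℝ) ^ i = 2 - 2 * (1 / 2 : ℝ) ^ n := by
    intro n
    induction n with
    | zero => simp
    | succ n ih =>
      rw [Finset.sum_range_succ, ih, pow_succ]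
      ring
  rw [h2]
  have : (0 : ℝ) ≤ 2 * (1 / 2 : ℝ) ^ n := by positivity
  linarith

private theorem ev_exp (a b : ℝ) (ha : 0 < a) : ∀ᶠ l : ℝ in atTop, b * l ^ 2 ≤ a * Real.exp l := by
  have h1 := Real.tendsto_exp_div_pow_atTop 2
  filter_upwards [h1.eventually_ge_atTop (b / a), eventually_gt_atTop 0] with l h2 h3
  have h4 : (0 : ℝ) < l ^ 2 := by positivity
  rw [div_le_div_iff₀ ha h4] at h2
  linarith

theorem blk_exists (K : ℝ) (hK : 0 < K) : ∃ kap0 : ℝ, 0 < kap0 ∧ ∀ kap : ℝ, 0 < kap → kap ≤ kap0 →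
    ∃ T0 : ℝ, 1 < T0 ∧ ∀ T : ℝ, T0 ≤ T → ∃ (J : ℕ) (P : ℕ → Finset ℕ) (V : ℕ → ℕ), Blk K kap T J P V := by
  obtain ⟨u0, hu0, hrat⟩ := mertens_ratio (Real.exp 1) 1 (Real.one_lt_exp_iff.2 one_pos) one_pos
  obtain ⟨C2, hC2, hup⟩ := mertens_upper
  obtain ⟨V0, hV0⟩ := exists_nat_ge (2 * K + 4)
  refine ⟨1 / (1000 * (2 * V0 + 5)), by positivity, fun kap hk hk0 => ?_⟩
  have hV0R : (0 : ℝ) ≤ V0 := Nat.cast_nonneg _
  have hk1 : kap ≤ 1 := by
    refine hk0.trans ?_
    rw [div_le_one (by positivity)]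
    nlinarith
  have hkL : kap * (2 * V0 + 5) ≤ 1 / 1000 := by
    rw [le_div_iff₀ (by positivity)] at hk0
    rw [le_div_iff₀ (by norm_num)]
    linarith
  -- conditions on l = log log T
  have hev : ∀ᶠ l : ℝ in atTop, (max (Real.log u0) (Real.log 3) * Real.exp 1) * l ^ 2 ≤ kap * Real.exp l ∧
      (K + 1) * l + 1 ≤ l ^ 2 ∧ K * C2 + Real.log 8 ≤ l ∧ 1 ≤ l := by
    filter_upwards [ev_exp kap (max (Real.log u0) (Real.log 3) * Real.exp 1) hk,
      eventually_ge_atTop (K + 2), eventually_ge_atTop (K * C2 + Real.log 8), eventually_ge_atTop 1]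
      with l h1 h2 h3 h4
    refine ⟨h1, ?_, h3, h4⟩
    nlinarith
  have hll : Tendsto (fun T : ℝ => Real.log (Real.log T)) atTop atTop :=
    Real.tendsto_log_atTop.comp Real.tendsto_log_atTop
  have hevT := (hll.eventually hev).and (eventually_ge_atTop (Real.exp 1 + 1))
  obtain ⟨T1, hT1⟩ := eventually_atTop.1 hevT
  refine ⟨max T1 2, lt_of_lt_of_le one_lt_two (le_max_right _ _), fun T hT => ?_⟩
  obtain ⟨⟨h1, h2, h3, h4⟩, h5⟩ := hT1 T (le_trans (le_max_left _ _) hT)
  have hT2 : (2 : ℝ) ≤ T := le_trans (le_max_right _ _) hT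
  have hT0 : 0 < T := by linarith
  set L := Real.log T with hL
  set l := Real.log L with hl
  have hL1 : 1 ≤ L := by
    rw [hL, Real.le_log_iff_exp_le hT0]
    linarith
  have hL0 : 0 < L := by linarith
  have hLl : Real.exp l = L := Real.exp_log hL0
  have hl0 : 0 < l := by linarith
  set m : ℕ := ⌊2 * Real.log l⌋₊ with hm
  set J : ℕ := m + 2 with hJ
  have hlogl : 0 ≤ Real.log l := Real.log_nonneg h4
  have hm1 : (m : ℝ) ≤ 2 * Real.log l := Nat.floor_le (by positivity)
  have hm2 : 2 * Real.log l < m + 1 := Nat.lt_floor_add_one _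
  have hJR : (J : ℝ) = m + 2 := by rw [hJ]; push_cast; ring
  have hexpl : Real.exp (2 * Real.log l) = l ^ 2 := by
    rw [mul_comm, Real.exp_mul, Real.exp_log hl0, Real.rpow_two]
  -- e^(1-J) bounds
  have hE1 : Real.exp (((0 + 1 : ℕ) : ℝ) - J) ≤ 1 / l ^ 2 := by
    rw [← hexpl, ← Real.exp_zero, ← Real.exp_sub, Real.exp_le_exp, hJR]
    push_cast
    linarith
  have hE2 : 1 / (Real.exp 1 * l ^ 2) ≤ Real.exp (((0 + 1 : ℕ) : ℝ) - J) := by
    have e0 : 1 / (Real.exp 1 * l ^ 2) = Real.exp (-(1 + 2 * Real.log l)) := by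
      rw [Real.exp_neg, Real.exp_add, hexpl, one_div]
    rw [e0, Real.exp_le_exp, hJR]
    push_cast
    linarith
  set a := kap * L with ha
  have ha0 : 0 < a := by positivity
  have haL : a ≤ L := by
    rw [ha]
    nlinarith
  have hy1 : max (Real.log u0) (Real.log 3) ≤ a * Real.exp (((0 + 1 : ℕ) : ℝ) - J) := by
    have h6 : max (Real.log u0) (Real.log 3) ≤ a * (1 / (Real.exp 1 * l ^ 2)) := by
      rw [mul_one_div, le_div_iff₀ (by positivity), ha, ← hLl]
      linarith
    exact h6.trans (mul_le_mul_of_nonneg_left hE2 ha0.le)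
  have hy1u : u0 ≤ yy a J 1 := by
    have h6 : Real.log u0 ≤ a * Real.exp (((0 + 1 : ℕ) : ℝ) - J) := (le_max_left _ _).trans hy1
    rw [Real.log_le_iff_le_exp (by linarith)] at h6
    exact h6
  have hy13 : 3 ≤ yy a J 1 := by
    have h6 : Real.log 3 ≤ a * Real.exp (((0 + 1 : ℕ) : ℝ) - J) := (le_max_right _ _).trans hy1
    rw [Real.log_le_iff_le_exp (by norm_num)] at h6
    exact h6
  have hlogy : ∀ j, Real.log (yy a J j) = a * Real.exp ((j : ℝ) - J) := fun j => Real.log_exp _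
  set V : ℕ → ℕ := fun j => if j = 0 then ⌊(K + 1) * l⌋₊ + 1 else V0 + 2 * (J - 1 - j) with hV
  have hV00 : V 0 = ⌊(K + 1) * l⌋₊ + 1 := if_pos rfl
  have hVj : ∀ j, V (j + 1) = V0 + 2 * (J - 1 - (j + 1)) := fun j => if_neg (by omega)
  refine ⟨J, PB a J, V, ?_, ?_, ?_, ?_⟩
  · intro i _ j _ hij
    rcases lt_or_gt_of_ne hij with h | h
    · exact PB_disj_lt ha0.le J h
    · exact (PB_disj_lt ha0.le J h).symm
  · exact PB_un J (by omega)
  · refine ⟨fun j => if j = 0 then 1 / 8 else Real.exp (-5) * Real.exp (-((J - 1 - j : ℕ) : ℝ)),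
      ?_, ?_⟩
    · intro j hj
      beta_reduce
      rcases Nat.eq_zero_or_pos j with rfl | hj0
      · rw [if_pos rfl, hV00]
        have h6 : ∑ p ∈ PB a J 0, 1 / (p : ℝ) ≤ l + C2 := by
          have h7 : PB a J 0 = PI 0 (yy a J 1) := by
            unfold PB lo
            rw [if_pos rfl]
          rw [h7]
          have h8 := hup (yy a J 1) hy13
          have h9 : Real.log (Real.log (yy a J 1)) ≤ l := by
            rw [hl]
            have h10 : 0 < Real.log (yy a J 1) := Real.log_pos (by linarith)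
            refine Real.log_le_log h10 ?_
            rw [hlogy]
            have h11 : Real.exp (((1 : ℕ) : ℝ) - J) ≤ 1 := by
              rw [Real.exp_le_one_iff, hJR]
              push_cast
              have : (0 : ℝ) ≤ m := Nat.cast_nonneg _
              linarith
            calc a * Real.exp (((1 : ℕ) : ℝ) - J) ≤ a * 1 := mul_le_mul_of_nonneg_left h11 ha0.le
              _ ≤ L := by linarith
          linarith
        have h7 : (K + 1) * l ≤ ((⌊(K + 1) * l⌋₊ + 1 : ℕ) : ℝ) := by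
          have := (Nat.lt_floor_add_one ((K + 1) * l)).le
          push_cast
          exact this
        rw [← Real.exp_add]
        calc Real.exp (-(((⌊(K + 1) * l⌋₊ + 1 : ℕ) : ℝ) + 1) + K * ∑ p ∈ PB a J 0, 1 / (p : ℝ))
            ≤ Real.exp (-Real.log 8) := by
              rw [Real.exp_le_exp]
              nlinarith
          _ = 1 / 8 := by
              rw [Real.exp_neg, Real.exp_log (by norm_num), one_div]
      · obtain ⟨i, rfl⟩ : ∃ i, j = i + 1 := ⟨j - 1, by omega⟩
        rw [if_neg (by omega), hVj]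
        have h6 : ∑ p ∈ PB a J (i + 1), 1 / (p : ℝ) ≤ 2 := by
          have h7 : PB a J (i + 1) = PI (yy a J (i + 1)) (yy a J (i + 1 + 1)) := by
            unfold PB lo
            rw [if_neg (by omega)]
          rw [h7]
          have h8 := hrat (yy a J (i + 1)) (yy a J (i + 1 + 1))
            (hy1u.trans (yy_mono ha0.le J (by omega))) (by
              have h9 : (((i + 1 + 1 : ℕ) : ℝ) - J) = (((i + 1 : ℕ) : ℝ) - J) + 1 := by
                push_cast
                ring
              have h10 : a * Real.exp (((i + 1 + 1 : ℕ) : ℝ) - J) =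
                  a * Real.exp (((i + 1 : ℕ) : ℝ) - J) * Real.exp 1 := by
                rw [h9, Real.exp_add]
                ring
              unfold yy
              rw [← Real.exp_mul, h10])
          rw [Real.log_exp] at h8
          linarith
        rw [← Real.exp_add, ← Real.exp_add, Real.exp_le_exp]
        push_cast
        have h9 : (0 : ℝ) ≤ ((J - 1 - (i + 1) : ℕ) : ℝ) := Nat.cast_nonneg _
        nlinarith
    · have hJm : J = (m + 1) + 1 := by omega
      have e1 : ∑ j ∈ Finset.range J, (if j = 0 then (1 : ℝ) / 8 else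
          Real.exp (-5) * Real.exp (-((J - 1 - j : ℕ) : ℝ))) =
          ∑ j ∈ Finset.range ((m + 1) + 1), (if j = 0 then (1 : ℝ) / 8 else
          Real.exp (-5) * Real.exp (-((m + 1 - j : ℕ) : ℝ))) := by
        refine Finset.sum_congr (by rw [hJm]) fun j _ => ?_
        have : J - 1 - j = m + 1 - j := by omega
        rw [this]
      rw [e1, Finset.sum_range_succ']
      have e2 : ∑ i ∈ Finset.range (m + 1), (if i + 1 = 0 then (1 : ℝ) / 8 else
          Real.exp (-5) * Real.exp (-((m + 1 - (i + 1) : ℕ) : ℝ))) =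
          ∑ i ∈ Finset.range (m + 1), Real.exp (-5) * Real.exp (-((m + 1 - 1 - i : ℕ) : ℝ)) := by
        refine Finset.sum_congr rfl fun i _ => ?_
        rw [if_neg (by omega)]
        have : m + 1 - (i + 1) = m + 1 - 1 - i := by omega
        rw [this]
      rw [e2, Finset.sum_range_reflect (fun i : ℕ => Real.exp (-5) * Real.exp (-(i : ℝ))) (m + 1),
        ← Finset.mul_sum, if_pos rfl]
      have h6 := exp_geo (m + 1)
      have h7 : Real.exp (-5) ≤ 1 / 16 := by
        have h8 : Real.exp (-5) = Real.exp (-1) ^ 5 := by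
          rw [← Real.exp_nat_mul]
          norm_num
        have h9 : Real.exp (-1) ≤ 1 / 2 := by
          have := exp_half 1
          simpa using this
        rw [h8]
        calc Real.exp (-1) ^ 5 ≤ (1 / 2 : ℝ) ^ 5 := pow_le_pow_left₀ (Real.exp_pos _).le h9 5
          _ ≤ 1 / 16 := by norm_num
      have h8 := Real.exp_pos (-5)
      have h9 : 0 ≤ ∑ i ∈ Finset.range (m + 1), Real.exp (-(i : ℝ)) :=
        Finset.sum_nonneg fun i _ => (Real.exp_pos _).le
      nlinarith
  · intro S hS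
    unfold AA at hS
    rw [Finset.mem_filter, Finset.mem_powerset] at hS
    obtain ⟨hS1, hS2⟩ := hS
    have hpr : ∀ p ∈ S, p.Prime := by
      intro p hp
      have := hS1 hp
      rw [PB_un J (by omega), Finset.mem_filter] at this
      exact this.2
    have hpos : (0 : ℝ) < (pr S : ℝ) := by
      exact_mod_cast (Finset.prod_pos fun p hp => (hpr p hp).pos : 0 < pr S)
    have hlogS : Real.log (pr S : ℝ) = ∑ p ∈ S, Real.log p := by
      unfold pr
      rw [Nat.cast_prod, Real.log_prod]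
      intro p hp
      exact_mod_cast (hpr p hp).ne_zero
    have hsplit : ∑ p ∈ S, Real.log p = ∑ j ∈ Finset.range J, ∑ p ∈ S ∩ PB a J j, Real.log p := by
      have h6 : S = (Finset.range J).biUnion (fun j => S ∩ PB a J j) := by
        ext p
        rw [Finset.mem_biUnion]
        constructor
        · intro hp
          have := hS1 hp
          rw [Finset.mem_biUnion] at this
          obtain ⟨j, hj, hpj⟩ := this
          exact ⟨j, hj, Finset.mem_inter.2 ⟨hp, hpj⟩⟩
        · rintro ⟨j, _, hp⟩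
          exact (Finset.mem_inter.1 hp).1
      conv_lhs => rw [h6]
      rw [Finset.sum_biUnion]
      intro i _ j _ hij
      have h7 : Disjoint (PB a J i) (PB a J j) := by
        rcases lt_or_gt_of_ne hij with h | h
        · exact PB_disj_lt ha0.le J h
        · exact (PB_disj_lt ha0.le J h).symm
      exact h7.mono Finset.inter_subset_right Finset.inter_subset_right
    have hblock : ∀ j ∈ Finset.range J, ∑ p ∈ S ∩ PB a J j, Real.log p ≤
        (V j : ℝ) * (a * Real.exp (((j + 1 : ℕ) : ℝ) - J)) := by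
      intro j hj
      have h7 : 0 ≤ a * Real.exp (((j + 1 : ℕ) : ℝ) - J) := by positivity
      calc ∑ p ∈ S ∩ PB a J j, Real.log p ≤
            ∑ p ∈ S ∩ PB a J j, a * Real.exp (((j + 1 : ℕ) : ℝ) - J) := by
            refine Finset.sum_le_sum fun p hp => ?_
            have h6 := (mem_PB.1 (Finset.mem_inter.1 hp).2)
            rw [← hlogy]
            exact Real.log_le_log (by exact_mod_cast h6.1.pos) h6.2.2
        _ = ((S ∩ PB a J j).card : ℝ) * (a * Real.exp (((j + 1 : ℕ) : ℝ) - J)) := by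
            rw [Finset.sum_const, nsmul_eq_mul]
        _ ≤ (V j : ℝ) * (a * Real.exp (((j + 1 : ℕ) : ℝ) - J)) := by
            have : ((S ∩ PB a J j).card : ℝ) ≤ V j := by exact_mod_cast hS2 j hj
            exact mul_le_mul_of_nonneg_right this h7
    have htot : Real.log (pr S : ℝ) ≤ a * (2 * V0 + 5) := by
      rw [hlogS, hsplit]
      refine (Finset.sum_le_sum hblock).trans ?_
      have hJm : J = (m + 1) + 1 := by omega
      have e1 : ∑ j ∈ Finset.range J, (V j : ℝ) * (a * Real.exp (((j + 1 : ℕ) : ℝ) - J)) =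
          ∑ j ∈ Finset.range ((m + 1) + 1), (V j : ℝ) * (a * Real.exp (((j + 1 : ℕ) : ℝ) - J)) := by
        rw [← hJm]
      rw [e1, Finset.sum_range_succ']
      have h0 : (V 0 : ℝ) * (a * Real.exp (((0 + 1 : ℕ) : ℝ) - J)) ≤ a := by
        rw [hV00]
        have h6 : ((⌊(K + 1) * l⌋₊ + 1 : ℕ) : ℝ) ≤ (K + 1) * l + 1 := by
          push_cast
          have := Nat.floor_le (show 0 ≤ (K + 1) * l by positivity)
          linarith
        have h7 : ((⌊(K + 1) * l⌋₊ + 1 : ℕ) : ℝ) ≤ l ^ 2 := h6.trans h2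
        calc ((⌊(K + 1) * l⌋₊ + 1 : ℕ) : ℝ) * (a * Real.exp (((0 + 1 : ℕ) : ℝ) - J))
            ≤ l ^ 2 * (a * (1 / l ^ 2)) := by gcongr
          _ = a := by field_simp
      have h1' : ∑ i ∈ Finset.range (m + 1), (V (i + 1) : ℝ) *
          (a * Real.exp (((i + 1 + 1 : ℕ) : ℝ) - J)) ≤ a * (2 * V0 + 4) := by
        have e2 : ∀ i ∈ Finset.range (m + 1), (V (i + 1) : ℝ) *
            (a * Real.exp (((i + 1 + 1 : ℕ) : ℝ) - J)) =
            (fun i : ℕ => a * ((V0 + 2 * (i : ℝ)) * Real.exp (-(i : ℝ)))) (m + 1 - 1 - i) := by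
          intro i hi
          rw [Finset.mem_range] at hi
          have e3 : J - 1 - (i + 1) = m + 1 - 1 - i := by omega
          rw [hVj, e3]
          have e4 : (((i + 1 + 1 : ℕ) : ℝ) - J) = -((m + 1 - 1 - i : ℕ) : ℝ) := by
            rw [hJR, Nat.cast_sub (by omega)]
            push_cast
            ring
          rw [e4]
          push_cast
          ring
        rw [Finset.sum_congr rfl e2, Finset.sum_range_reflect
          (fun i : ℕ => a * ((V0 + 2 * (i : ℝ)) * Real.exp (-(i : ℝ)))) (m + 1), ← Finset.mul_sum]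
        refine mul_le_mul_of_nonneg_left ?_ ha0.le
        calc ∑ i ∈ Finset.range (m + 1), ((V0 : ℝ) + 2 * (i : ℝ)) * Real.exp (-(i : ℝ))
            ≤ ∑ i ∈ Finset.range (m + 1), ((V0 : ℝ) + 2 * (i : ℝ)) * (1 / 2 : ℝ) ^ i := by
              refine Finset.sum_le_sum fun i _ => ?_
              have := exp_half i
              gcongr
          _ = 2 * V0 + 4 - (2 * V0 + 4 * ((m + 1 : ℕ) : ℝ) + 4) * (1 / 2 : ℝ) ^ (m + 1) :=
              geo_sum _ _
          _ ≤ 2 * V0 + 4 := by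
              have : (0 : ℝ) ≤ (2 * V0 + 4 * ((m + 1 : ℕ) : ℝ) + 4) * (1 / 2 : ℝ) ^ (m + 1) := by
                positivity
              linarith
      calc _ ≤ a * (2 * V0 + 4) + a := add_le_add h1' h0
        _ = a * (2 * V0 + 5) := by ring
    have h6 : Real.log (pr S : ℝ) ≤ L * (1 / 1000) := by
      refine htot.trans ?_
      rw [ha]
      calc kap * L * (2 * V0 + 5) = L * (kap * (2 * V0 + 5)) := by ring
        _ ≤ L * (1 / 1000) := mul_le_mul_of_nonneg_left hkL hL0.le
    have h7 := Real.exp_le_exp.2 h6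
    rw [Real.exp_log hpos, hL, Real.exp_mul, Real.exp_log hT0] at h7
    exact h7

end Pool.Agent.H28.ZT
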