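import Pool.Agent.H28.ZT.Loc

/-!
# BLKF (chapter E): the sums factor over the blocks

Induction on `J` (or the bijection `S ↔ (S ∩ P j)_j`): `AA (J+1) P V` is in bijection with `AA J P V × {S ⊆ P J, |S| ≤ V J}` by
`S -> (S ∩ ⋃_{j<J} P j, S ∩ P J)`, inverse: union (the blocks are disjoint); the product over `⋃ P j` splits
(`Finset.prod_biUnion` / `prod_union`), and for `p ∈ P j`: `p ∈ f k ↔ p ∈ f k ∩ P j`.
-/

set_option autoImplicit false

namespace Pool.Agent.H28.ZT

open Complex

private theorem SS_mul {κ : Type} [Fintype κ] [DecidableEq κ] {Q1 Q2 : Finset ℕ}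
    (hd : Disjoint Q1 Q2) {A A1 A2 : Finset (Finset ℕ)} (h1 : ∀ S ∈ A1, S ⊆ Q1) (h2 : ∀ S ∈ A2, S ⊆ Q2)
    (hA : ∀ S, S ∈ A ↔ S ⊆ Q1 ∪ Q2 ∧ S ∩ Q1 ∈ A1 ∧ S ∩ Q2 ∈ A2) (φ : ℕ → Finset κ → ℂ) :
    SS A (Q1 ∪ Q2) φ = SS A1 Q1 φ * SS A2 Q2 φ := by
  unfold SS
  rw [Finset.sum_mul_sum, ← Finset.sum_product']
  refine Finset.sum_nbij' (fun f => (fun k => f k ∩ Q1, fun k => f k ∩ Q2))
    (fun g => fun k => g.1 k ∪ g.2 k) ?_ ?_ ?_ ?_ ?_
  · intro f hf
    rw [Fintype.mem_piFinset] at hf
    rw [Finset.mem_product, Fintype.mem_piFinset, Fintype.mem_piFinset]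
    exact ⟨fun k => ((hA _).1 (hf k)).2.1, fun k => ((hA _).1 (hf k)).2.2⟩
  · intro g hg
    rw [Finset.mem_product, Fintype.mem_piFinset, Fintype.mem_piFinset] at hg
    rw [Fintype.mem_piFinset]
    intro k
    have e1 := h1 _ (hg.1 k)
    have e2 := h2 _ (hg.2 k)
    rw [hA]
    refine ⟨Finset.union_subset_union e1 e2, ?_, ?_⟩
    · have : (g.1 k ∪ g.2 k) ∩ Q1 = g.1 k := by
        rw [Finset.union_inter_distrib_right, Finset.inter_eq_left.2 e1,
          Finset.disjoint_iff_inter_eq_empty.1 (hd.symm.mono_left e2), Finset.union_empty]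
      rw [this]
      exact hg.1 k
    · have : (g.1 k ∪ g.2 k) ∩ Q2 = g.2 k := by
        rw [Finset.union_inter_distrib_right, Finset.inter_eq_left.2 e2,
          Finset.disjoint_iff_inter_eq_empty.1 (hd.mono_left e1), Finset.empty_union]
      rw [this]
      exact hg.2 k
  · intro f hf
    rw [Fintype.mem_piFinset] at hf
    funext k
    show f k ∩ Q1 ∪ f k ∩ Q2 = f k
    rw [← Finset.inter_union_distrib_left]
    exact Finset.inter_eq_left.2 ((hA _).1 (hf k)).1
  · intro g hg
    rw [Finset.mem_product, Fintype.mem_piFinset, Fintype.mem_piFinset] at hg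
    refine Prod.ext (funext fun k => ?_) (funext fun k => ?_)
    · have e1 := h1 _ (hg.1 k)
      have e2 := h2 _ (hg.2 k)
      show (g.1 k ∪ g.2 k) ∩ Q1 = g.1 k
      rw [Finset.union_inter_distrib_right, Finset.inter_eq_left.2 e1,
          Finset.disjoint_iff_inter_eq_empty.1 (hd.symm.mono_left e2), Finset.union_empty]
    · have e1 := h1 _ (hg.1 k)
      have e2 := h2 _ (hg.2 k)
      show (g.1 k ∪ g.2 k) ∩ Q2 = g.2 k
      rw [Finset.union_inter_distrib_right, Finset.inter_eq_left.2 e2,
          Finset.disjoint_iff_inter_eq_empty.1 (hd.mono_left e1), Finset.empty_union]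
  · intro f _
    rw [Finset.prod_union hd]
    congr 1
    · refine Finset.prod_congr rfl fun p hp => ?_
      congr 1
      ext k
      simp [hp]
    · refine Finset.prod_congr rfl fun p hp => ?_
      congr 1
      ext k
      simp [hp]

theorem SS_blk {κ : Type} [Fintype κ] [DecidableEq κ] (J : ℕ) (P : ℕ → Finset ℕ) (V : ℕ → ℕ)
    (hd : ∀ i < J, ∀ j < J, i ≠ j → Disjoint (P i) (P j)) (φ : ℕ → Finset κ → ℂ) :
    SS (AA J P V) ((Finset.range J).biUnion P) φ =
      ∏ j ∈ Finset.range J, SS ((P j).powerset.filter (fun S => S.card ≤ V j)) (P j) φ := by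
  induction J with
  | zero =>
    have h0 : AA 0 P V = {∅} := by
      unfold AA
      ext S
      simp
    rw [h0]
    unfold SS
    have h1 : Fintype.piFinset (fun _ : κ => ({∅} : Finset (Finset ℕ))) = {fun _ => ∅} := by
      ext f
      rw [Fintype.mem_piFinset, Finset.mem_singleton]
      constructor
      · intro h
        funext k
        exact Finset.mem_singleton.1 (h k)
      · rintro rfl k
        exact Finset.mem_singleton.2 rfl
    rw [h1]
    simp
  | succ J ih =>
    have ih' := ih (fun i hi j hj h => hd i (by omega) j (by omega) h)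
    rw [Finset.prod_range_succ, ← ih']
    have hU : (Finset.range (J + 1)).biUnion P = (Finset.range J).biUnion P ∪ P J := by
      rw [Finset.range_add_one, Finset.biUnion_insert, Finset.union_comm]
    have hD : Disjoint ((Finset.range J).biUnion P) (P J) := by
      rw [Finset.disjoint_biUnion_left]
      intro j hj
      rw [Finset.mem_range] at hj
      exact hd j (by omega) J (by omega) (by omega)
    rw [hU]
    refine SS_mul hD ?_ ?_ ?_ φ
    · intro S hS
      unfold AA at hS
      rw [Finset.mem_filter, Finset.mem_powerset] at hS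
      exact hS.1
    · intro S hS
      rw [Finset.mem_filter, Finset.mem_powerset] at hS
      exact hS.1
    · intro S
      unfold AA
      rw [Finset.mem_filter, Finset.mem_powerset, Finset.mem_filter, Finset.mem_powerset,
        Finset.mem_filter, Finset.mem_powerset, hU]
      have hsub : ∀ j ∈ Finset.range J, S ∩ (Finset.range J).biUnion P ∩ P j = S ∩ P j := by
        intro j hj
        rw [Finset.inter_assoc]
        congr 1
        exact Finset.inter_eq_right.2 (Finset.subset_biUnion_of_mem P hj)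
      constructor
      · rintro ⟨a, b⟩
        refine ⟨a, ⟨Finset.inter_subset_right, fun j hj => ?_⟩, Finset.inter_subset_right, ?_⟩
        · rw [hsub j hj]
          exact b j (Finset.mem_range.2 (by have := Finset.mem_range.1 hj; omega))
        · exact b J (Finset.mem_range.2 (by omega))
      · rintro ⟨a, ⟨-, b⟩, -, c⟩
        refine ⟨a, fun j hj => ?_⟩
        rw [Finset.mem_range] at hj
        rcases Nat.lt_succ_iff_lt_or_eq.1 hj with h | h
        · rw [← hsub j (Finset.mem_range.2 h)]
          exact b j (Finset.mem_range.2 h)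
        · rw [h]
          exact c

end Pool.Agent.H28.ZT
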