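import Pool.Agent.H28.ZT.AOk
import Pool.Agent.H49.ZM.MZero

/-!
# BRG (chapter M): bridge from sets of primes to numbers (H49/ZM)

`N = A.image pr`; `pr` is injective on `A` (`primeFactors (pr S) = S`).
-/

set_option autoImplicit false

namespace Pool.Agent.H28.ZT

open Complex

theorem pf_pr {S : Finset ℕ} (hS : ∀ p ∈ S, p.Prime) : (pr S).primeFactors = S :=
  Nat.primeFactors_prod hS

theorem pr_pos {S : Finset ℕ} (hS : ∀ p ∈ S, p.Prime) : 0 < pr S :=
  Finset.prod_pos fun p hp => (hS p hp).pos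

theorem pr_inj {A : Finset (Finset ℕ)} (hA : ∀ S ∈ A, ∀ p ∈ S, p.Prime) :
    Set.InjOn pr (A : Set (Finset ℕ)) := by
  intro S hS S' hS' h
  rw [← pf_pr (hA S hS), ← pf_pr (hA S' hS'), h]

theorem bet_pr {S : Finset ℕ} (hS : ∀ p ∈ S, p.Prime) :
    Pool.Agent.H49.ZM.bet (pr S) = (-(1 / 2) : ℝ) ^ S.card := by
  unfold Pool.Agent.H49.ZM.bet
  rw [pf_pr hS]

theorem brg_cl {T : ℝ} {A : Finset (Finset ℕ)} (hA : AOK T A) :
    Pool.Agent.H49.ZM.Cl (A.image pr) ⌊T ^ (1 / 1000 : ℝ)⌋₊ := by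
  constructor
  · intro b hb
    rw [Finset.mem_image] at hb
    obtain ⟨S, hS, rfl⟩ := hb
    refine ⟨?_, Nat.le_floor (hA.len S hS)⟩
    have hp := hA.prime S hS
    unfold pr
    rw [Nat.squarefree_iff_prime_squarefree]
    intro q hq hdiv
    have h1 : q ∣ ∏ p ∈ S, p := (Dvd.intro _ rfl : q ∣ q * q).trans hdiv
    rw [hq.prime.dvd_finsetProd_iff] at h1
    obtain ⟨p, hpS, hqp⟩ := h1
    have hqe : q = p := (Nat.prime_dvd_prime_iff_eq hq (hp p hpS)).1 hqp
    subst hqe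
    rw [← Finset.mul_prod_erase S (fun p => p) hpS] at hdiv
    have h2 : q ∣ ∏ p ∈ S.erase q, p := Nat.dvd_of_mul_dvd_mul_left hq.pos hdiv
    rw [hq.prime.dvd_finsetProd_iff] at h2
    obtain ⟨p, hpS2, hqp2⟩ := h2
    have := (Nat.prime_dvd_prime_iff_eq hq (hp p (Finset.mem_of_mem_erase hpS2))).1 hqp2
    exact (Finset.ne_of_mem_erase hpS2) this.symm
  · intro b hb d hd
    rw [Finset.mem_image] at hb ⊢
    obtain ⟨S, hS, rfl⟩ := hb
    have hp := hA.prime S hS
    have hpos := pr_pos hp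
    refine ⟨d.primeFactors, hA.down S hS _ ?_, ?_⟩
    · have h1 := Nat.primeFactors_mono hd hpos.ne'
      rwa [pf_pr hp] at h1
    · have hsq : Squarefree (pr S) := by
        unfold pr
        rw [Nat.squarefree_iff_prime_squarefree]
        intro q hq hdiv
        have h1 : q ∣ ∏ p ∈ S, p := (Dvd.intro _ rfl : q ∣ q * q).trans hdiv
        rw [hq.prime.dvd_finsetProd_iff] at h1
        obtain ⟨p, hpS, hqp⟩ := h1
        have hqe : q = p := (Nat.prime_dvd_prime_iff_eq hq (hp p hpS)).1 hqp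
        subst hqe
        rw [← Finset.mul_prod_erase S (fun p => p) hpS] at hdiv
        have h2 : q ∣ ∏ p ∈ S.erase q, p := Nat.dvd_of_mul_dvd_mul_left hq.pos hdiv
        rw [hq.prime.dvd_finsetProd_iff] at h2
        obtain ⟨p, hpS2, hqp2⟩ := h2
        have := (Nat.prime_dvd_prime_iff_eq hq (hp p (Finset.mem_of_mem_erase hpS2))).1 hqp2
        exact (Finset.ne_of_mem_erase hpS2) this.symm
      unfold pr
      exact Nat.prod_primeFactors_of_squarefree (hsq.squarefree_of_dvd hd)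

theorem np_eq {n : ℕ} (hn : n ≠ 0) (w : ℂ) : np n w = (n : ℂ) ^ w := by
  unfold np
  have hn' : (n : ℂ) ≠ 0 := by exact_mod_cast hn
  rw [cpow_def_of_ne_zero hn', ← natCast_log, mul_comm]

theorem brg_Bs {T : ℝ} {A : Finset (Finset ℕ)} (hA : AOK T A) (s : ℂ) :
    Bs A s = Pool.Agent.H49.ZM.BB (A.image pr) s := by
  unfold Bs Pool.Agent.H49.ZM.BB
  rw [Finset.sum_image (fun S hS S' hS' h => pr_inj hA.prime hS hS' h)]
  refine Finset.sum_congr rfl fun S hS => ?_
  rw [bet_pr (hA.prime S hS), np_eq (pr_pos (hA.prime S hS)).ne']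
  push_cast
  rfl

theorem brg_EE {T : ℝ} {A : Finset (Finset ℕ)} (hA : AOK T A) :
    ∑ b ∈ A.image pr, Pool.Agent.H49.ZM.bet b ^ 2 / (b : ℝ) = EE A := by
  unfold EE
  rw [Finset.sum_image (fun S hS S' hS' h => pr_inj hA.prime hS hS' h)]
  refine Finset.sum_congr rfl fun S hS => ?_
  rw [bet_pr (hA.prime S hS), ← pow_mul, mul_comm, pow_mul]
  norm_num

end Pool.Agent.H28.ZT
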