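import Pool.Agent.H28.ZT.Loc

/-!
# LINK0 (chapter E): elementary facts

`np (m n) w = np m w · np n w` (`log` of a product), `np` of a product of prime powers; lcm / gcd of `∏ p^(a p)` and
`∏ p^(b p)` over a set of distinct primes is `∏ p^(max)`, `∏ p^(min)` (`Nat.Coprime` and induction on `U`, or factorizations:
`Nat.factorization_lcm`, `Nat.factorization_gcd`).
-/

set_option autoImplicit false

namespace Pool.Agent.H28.ZT

open Complex

theorem np_mul {m n : ℕ} (hm : 1 ≤ m) (hn : 1 ≤ n) (w : ℂ) : np (m * n) w = np m w * np n w := by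
  unfold np
  have h1 : (m : ℝ) ≠ 0 := by exact_mod_cast (by omega : m ≠ 0)
  have h2 : (n : ℝ) ≠ 0 := by exact_mod_cast (by omega : n ≠ 0)
  rw [← Complex.exp_add, Nat.cast_mul, Real.log_mul h1 h2]
  congr 1
  push_cast
  ring

theorem np_add (n : ℕ) (w w' : ℂ) : np n (w + w') = np n w * np n w' := by
  unfold np
  rw [← Complex.exp_add]
  congr 1
  ring

theorem np_norm (n : ℕ) (w : ℂ) : ‖np n w‖ = Real.exp (w.re * Real.log (n : ℝ)) := by
  unfold np
  rw [Complex.norm_exp, Complex.re_mul_ofReal]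

theorem np_conj (n : ℕ) (w : ℂ) : (starRingEnd ℂ) (np n w) = np n ((starRingEnd ℂ) w) := by
  unfold np
  rw [← Complex.exp_conj, map_mul, conj_ofReal]

private theorem np_one (w : ℂ) : np 1 w = 1 := by
  unfold np
  simp

private theorem np_pow {p : ℕ} (hp : 1 ≤ p) (k : ℕ) (w : ℂ) : np (p ^ k) w = np p ((k : ℂ) * w) := by
  unfold np
  rw [Nat.cast_pow, Real.log_pow]
  congr 1
  push_cast
  ring

theorem np_prod_pow (U : Finset ℕ) (hU : ∀ p ∈ U, p.Prime) (a : ℕ → ℕ) (w : ℂ) :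
    np (∏ p ∈ U, p ^ a p) w = ∏ p ∈ U, np p ((a p : ℂ) * w) := by
  classical
  induction U using Finset.induction_on with
  | empty => simp [np_one]
  | insert q U hq ih =>
    have hq1 : 1 ≤ q := (hU q (Finset.mem_insert_self q U)).pos
    have hU' : ∀ p ∈ U, p.Prime := fun p hp => hU p (Finset.mem_insert_of_mem hp)
    rw [Finset.prod_insert hq, Finset.prod_insert hq, np_mul, ih hU', np_pow hq1]
    · exact Nat.one_le_pow _ _ hq1
    · exact Finset.prod_pos fun p hp => pow_pos (hU' p hp).pos _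

private theorem fac (U : Finset ℕ) (hU : ∀ p ∈ U, p.Prime) (a : ℕ → ℕ) (q : ℕ) :
    (∏ p ∈ U, p ^ a p).factorization q = if q ∈ U then a q else 0 := by
  rw [Nat.factorization_prod (fun p hp => (pow_pos (hU p hp).pos _).ne'), Finsupp.finset_sum_apply]
  have h : ∀ p ∈ U, (p ^ a p).factorization q = if p = q then a p else 0 := by
    intro p hp
    rw [(hU p hp).factorization_pow, Finsupp.single_apply]
  rw [Finset.sum_congr rfl h, Finset.sum_ite_eq']

private theorem pos (U : Finset ℕ) (hU : ∀ p ∈ U, p.Prime) (a : ℕ → ℕ) : (∏ p ∈ U, p ^ a p) ≠ 0 :=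
  (Finset.prod_pos fun p hp => pow_pos (hU p hp).pos _).ne'

theorem lcm_prod_pow (U : Finset ℕ) (hU : ∀ p ∈ U, p.Prime) (a b : ℕ → ℕ) :
    Nat.lcm (∏ p ∈ U, p ^ a p) (∏ p ∈ U, p ^ b p) = ∏ p ∈ U, p ^ max (a p) (b p) := by
  have h1 := pos U hU a
  have h2 := pos U hU b
  refine Nat.eq_of_factorization_eq (Nat.lcm_ne_zero h1 h2) (pos U hU _) fun q => ?_
  rw [Nat.factorization_lcm h1 h2, Finsupp.sup_apply, fac U hU, fac U hU, fac U hU]
  split_ifs
  · rfl
  · rfl

theorem gcd_prod_pow (U : Finset ℕ) (hU : ∀ p ∈ U, p.Prime) (a b : ℕ → ℕ) :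
    Nat.gcd (∏ p ∈ U, p ^ a p) (∏ p ∈ U, p ^ b p) = ∏ p ∈ U, p ^ min (a p) (b p) := by
  have h1 := pos U hU a
  have h2 := pos U hU b
  refine Nat.eq_of_factorization_eq (Nat.gcd_ne_zero_left h1) (pos U hU _) fun q => ?_
  rw [Nat.factorization_gcd h1 h2, Finsupp.inf_apply, fac U hU, fac U hU, fac U hU]
  split_ifs
  · rfl
  · rfl

/-- `pr S` as a product over a bigger set -/
theorem pr_eq {S U : Finset ℕ} (h : S ⊆ U) : pr S = ∏ p ∈ U, p ^ (if p ∈ S then 1 else 0) := by
  unfold pr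
  have h1 : ∀ p ∈ U, p ^ (if p ∈ S then 1 else 0) = if p ∈ S then p else 1 := by
    intro p _
    split_ifs <;> simp
  rw [Finset.prod_congr rfl h1, Finset.prod_ite_mem, Finset.inter_eq_right.2 h]

end Pool.Agent.H28.ZT
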