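import Pool.Agent.H28.ZT.Main0
import Pool.Agent.H28.ZT.Link0

/-!
# CBR (chapter D): core bound, `Δ` real, `|Δ| ≥ 1/L`

`Δ ≠ 0`: `∫_a^b e^(iΔx) dx = (e^(iΔb) - e^(iΔa))/(iΔ)`, so with `θ = log τ` the double sum of MAIN0 is
`(1/(iΔ)) (e^(-iΔθ) SA(Δ) - e^(iΔθ) SC(Δ)) + e^(-iΔθ) R(Δ) SA(Δ) + e^(iΔθ) R(-Δ) SC(Δ)` (`lcm^(-1) lcm^(-iΔ) = lcm^(-1-iΔ)`);
`Δ` real: `|e^(iΔθ)| = 1`; `1/|Δ| + C ≤ (1+2C)/|Δ|`; `1/τ ≤ √T` (`sin (1/T) ≥ 1/(2T)`, `τ² ≥ π/T`).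
-/

set_option autoImplicit false

namespace Pool.Agent.H28.ZT

open Complex MeasureTheory

private theorem cbr_tau {T : ℝ} (hT : 1 ≤ T) : 0 < tau (1 / T) ∧ 1 / tau (1 / T) ≤ Real.sqrt T := by
  have hTpos : 0 < T := by linarith
  have hx0 : 0 ≤ 1 / T := by positivity
  have hx1 : 1 / T ≤ 1 := by
    rw [div_le_iff₀ hTpos]
    linarith
  have hpi := Real.pi_gt_three
  have h1 : 2 / Real.pi * (1 / T) ≤ Real.sin (1 / T) := Real.mul_le_sin hx0 (by linarith)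
  have h2 : 1 / T ≤ 2 * Real.pi * Real.sin (1 / T) := by
    calc 1 / T ≤ 4 * (1 / T) := by linarith
      _ = 2 * Real.pi * (2 / Real.pi * (1 / T)) := by
          field_simp
          ring
      _ ≤ 2 * Real.pi * Real.sin (1 / T) := mul_le_mul_of_nonneg_left h1 (by positivity)
  have h3 : Real.sqrt (1 / T) ≤ tau (1 / T) := Real.sqrt_le_sqrt h2
  have h4 : 0 < Real.sqrt (1 / T) := Real.sqrt_pos.2 (by positivity)
  refine ⟨lt_of_lt_of_le h4 h3, ?_⟩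
  calc 1 / tau (1 / T) ≤ 1 / Real.sqrt (1 / T) := one_div_le_one_div_of_le h4 h3
    _ = Real.sqrt T := by
        rw [Real.sqrt_div zero_le_one, Real.sqrt_one, one_div_one_div]

/-- the term of the main formula for `Δ ≠ 0` -/
private theorem cbr_term (Δ r1 r2 : ℂ) (hΔ : Δ ≠ 0) (θ : ℝ) (l g : ℕ) :
    np l (-1) * ((∫ x in (θ - Real.log (g : ℝ))..(-θ - Real.log (l : ℝ)), Complex.exp (I * Δ * (x : ℂ))) +
      Complex.exp (-(I * Δ * (θ : ℂ))) * np l (-(I * Δ)) * r1 +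
      Complex.exp (I * Δ * (θ : ℂ)) * np g (-(I * Δ)) * r2) =
    (1 / (I * Δ) + r1) * Complex.exp (-(I * Δ * (θ : ℂ))) * np l (-1 - I * Δ) +
      (-(1 / (I * Δ)) + r2) * Complex.exp (I * Δ * (θ : ℂ)) * (np l (-1) * np g (-(I * Δ))) := by
  have hI : I * Δ ≠ 0 := mul_ne_zero Complex.I_ne_zero hΔ
  rw [integral_exp_mul_complex hI]
  have e1 : Complex.exp (I * Δ * ((-θ - Real.log (l : ℝ) : ℝ) : ℂ)) =
      Complex.exp (-(I * Δ * (θ : ℂ))) * np l (-(I * Δ)) := by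
    unfold np
    rw [← Complex.exp_add]
    congr 1
    push_cast
    ring
  have e2 : Complex.exp (I * Δ * ((θ - Real.log (g : ℝ) : ℝ) : ℂ)) =
      Complex.exp (I * Δ * (θ : ℂ)) * np g (-(I * Δ)) := by
    unfold np
    rw [← Complex.exp_add]
    congr 1
    push_cast
    ring
  have e3 : np l (-1 - I * Δ) = np l (-1) * np l (-(I * Δ)) := by
    rw [← np_add]
    congr 1
  rw [e1, e2, e3]
  field_simp
  ring

theorem cb_R : ∃ C : ℝ, 0 < C ∧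
    ∀ (ι : Type) (T : ℝ) (w w' : ℂ) (s : Finset ι) (a : ι → ℂ) (c : ι → ℕ), Real.exp 40 ≤ T →
    ‖w‖ ≤ 1 → ‖w'‖ ≤ 1 → |w.im| ≤ 1 / Real.log T → |w'.im| ≤ 1 / Real.log T →
    (∀ i ∈ s, 1 ≤ c i ∧ (c i : ℝ) ≤ T ^ (1 / 100 : ℝ)) →
    (w - (starRingEnd ℂ) w').im = 0 → 1 / Real.log T ≤ ‖w - (starRingEnd ℂ) w'‖ →
    ‖KK (1 / T) w w' s a c‖ ≤
      C * Real.sqrt T * (‖SA w w' s a c (w - (starRingEnd ℂ) w')‖ + ‖SC w w' s a c (w - (starRingEnd ℂ) w')‖) /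
        ‖w - (starRingEnd ℂ) w'‖ + C * (∑ i ∈ s, ‖a i‖) ^ 2 * T ^ (1 / 10 : ℝ) := by
  obtain ⟨C, R, hC, hR, hmain⟩ := KK_main
  have hpi := Real.pi_pos
  set P0 : ℝ := 4 * Real.pi * Real.sqrt Real.pi with hP0
  have hP0pos : 0 < P0 := by positivity
  refine ⟨P0 * (1 + 2 * C) + C, by positivity, fun ι T w w' s a c hT hw hw' hwi hwi' hc him hΔL => ?_⟩
  have hexp : (40 : ℝ) + 1 ≤ Real.exp 40 := Real.add_one_le_exp 40
  have hT1 : (1 : ℝ) ≤ T := by linarith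
  have hTpos : 0 < T := by linarith
  have hL40 : 40 ≤ Real.log T := by
    rw [Real.le_log_iff_exp_le hTpos]
    exact hT
  have hLpos : 0 < Real.log T := by linarith
  have hm := hmain ι T w w' s a c hT hw hw' hwi hwi' hc
  set Δ : ℂ := w - (starRingEnd ℂ) w' with hΔ
  have hΔpos : 0 < ‖Δ‖ := lt_of_lt_of_le (by positivity) hΔL
  have hΔne : Δ ≠ 0 := norm_pos_iff.1 hΔpos
  have hΔ2 : ‖Δ‖ ≤ 2 := by
    calc ‖Δ‖ ≤ ‖w‖ + ‖(starRingEnd ℂ) w'‖ := norm_sub_le _ _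
      _ ≤ 2 := by
          rw [RCLike.norm_conj]
          linarith
  obtain ⟨hτ0, hτ1⟩ := cbr_tau hT1
  set τ : ℝ := tau (1 / T) with hτ
  set θ : ℝ := Real.log τ with hθ
  have hsum : (∑ i ∈ s, ∑ j ∈ s, a i * (starRingEnd ℂ) (a j) * np (c i) (I * w) *
      np (c j) (-(I * (starRingEnd ℂ) w')) * np (Nat.lcm (c i) (c j)) (-1) *
        ((∫ x in (θ - Real.log (Nat.gcd (c i) (c j) : ℝ))..(-θ - Real.log (Nat.lcm (c i) (c j) : ℝ)),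
            Complex.exp (I * Δ * (x : ℂ))) +
          Complex.exp (-(I * Δ * (θ : ℂ))) * np (Nat.lcm (c i) (c j)) (-(I * Δ)) * R Δ +
          Complex.exp (I * Δ * (θ : ℂ)) * np (Nat.gcd (c i) (c j)) (-(I * Δ)) * R (-Δ))) =
      (1 / (I * Δ) + R Δ) * Complex.exp (-(I * Δ * (θ : ℂ))) * SA w w' s a c Δ +
        (-(1 / (I * Δ)) + R (-Δ)) * Complex.exp (I * Δ * (θ : ℂ)) * SC w w' s a c Δ := by
    unfold SA SC
    rw [Finset.mul_sum, Finset.mul_sum, ← Finset.sum_add_distrib]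
    refine Finset.sum_congr rfl fun i _ => ?_
    rw [Finset.mul_sum, Finset.mul_sum, ← Finset.sum_add_distrib]
    refine Finset.sum_congr rfl fun j _ => ?_
    have h1 := cbr_term Δ (R Δ) (R (-Δ)) hΔne θ (Nat.lcm (c i) (c j)) (Nat.gcd (c i) (c j))
    rw [mul_assoc (a i * (starRingEnd ℂ) (a j) * np (c i) (I * w) * np (c j) (-(I * (starRingEnd ℂ) w'))), h1]
    ring
  rw [hsum] at hm
  have hexp1 : ‖Complex.exp (-(I * Δ * (θ : ℂ)))‖ = 1 := by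
    rw [Complex.norm_exp]
    have : (-(I * Δ * (θ : ℂ))).re = 0 := by
      simp [him]
    rw [this, Real.exp_zero]
  have hexp2 : ‖Complex.exp (I * Δ * (θ : ℂ))‖ = 1 := by
    rw [Complex.norm_exp]
    have : (I * Δ * (θ : ℂ)).re = 0 := by
      simp [him]
    rw [this, Real.exp_zero]
  have hRb : ‖R Δ‖ ≤ C := hR Δ hΔ2 (by rw [him, abs_zero]; norm_num)
  have hRb' : ‖R (-Δ)‖ ≤ C := hR (-Δ) (by rw [norm_neg]; exact hΔ2)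
    (by rw [Complex.neg_im, him, neg_zero, abs_zero]; norm_num)
  have hco : 1 / ‖Δ‖ + C ≤ (1 + 2 * C) / ‖Δ‖ := by
    rw [add_div]
    have : C ≤ 2 * C / ‖Δ‖ := by
      rw [le_div_iff₀ hΔpos]
      nlinarith
    linarith
  have hc1 : ‖1 / (I * Δ) + R Δ‖ ≤ (1 + 2 * C) / ‖Δ‖ := by
    calc ‖1 / (I * Δ) + R Δ‖ ≤ ‖1 / (I * Δ)‖ + ‖R Δ‖ := norm_add_le _ _
      _ ≤ 1 / ‖Δ‖ + C := by
          apply add_le_add _ hRb
          rw [norm_div, norm_one, norm_mul, Complex.norm_I, one_mul]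
      _ ≤ _ := hco
  have hc2 : ‖-(1 / (I * Δ)) + R (-Δ)‖ ≤ (1 + 2 * C) / ‖Δ‖ := by
    calc ‖-(1 / (I * Δ)) + R (-Δ)‖ ≤ ‖-(1 / (I * Δ))‖ + ‖R (-Δ)‖ := norm_add_le _ _
      _ ≤ 1 / ‖Δ‖ + C := by
          apply add_le_add _ hRb'
          rw [norm_neg, norm_div, norm_one, norm_mul, Complex.norm_I, one_mul]
      _ ≤ _ := hco
  set X : ℂ := (1 / (I * Δ) + R Δ) * Complex.exp (-(I * Δ * (θ : ℂ))) * SA w w' s a c Δ +
        (-(1 / (I * Δ)) + R (-Δ)) * Complex.exp (I * Δ * (θ : ℂ)) * SC w w' s a c Δ with hX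
  have hXn : ‖X‖ ≤ (1 + 2 * C) / ‖Δ‖ * (‖SA w w' s a c Δ‖ + ‖SC w w' s a c Δ‖) := by
    calc ‖X‖ ≤ ‖(1 / (I * Δ) + R Δ) * Complex.exp (-(I * Δ * (θ : ℂ))) * SA w w' s a c Δ‖ +
          ‖(-(1 / (I * Δ)) + R (-Δ)) * Complex.exp (I * Δ * (θ : ℂ)) * SC w w' s a c Δ‖ := norm_add_le _ _
      _ = ‖1 / (I * Δ) + R Δ‖ * ‖SA w w' s a c Δ‖ + ‖-(1 / (I * Δ)) + R (-Δ)‖ * ‖SC w w' s a c Δ‖ := by
          rw [norm_mul, norm_mul, norm_mul, norm_mul, hexp1, hexp2, mul_one, mul_one]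
      _ ≤ (1 + 2 * C) / ‖Δ‖ * ‖SA w w' s a c Δ‖ + (1 + 2 * C) / ‖Δ‖ * ‖SC w w' s a c Δ‖ :=
          add_le_add (mul_le_mul_of_nonneg_right hc1 (norm_nonneg _))
            (mul_le_mul_of_nonneg_right hc2 (norm_nonneg _))
      _ = _ := by ring
  have hpre : ‖((P0 / τ : ℝ) : ℂ) * X‖ ≤ P0 * (1 + 2 * C) * Real.sqrt T *
      (‖SA w w' s a c Δ‖ + ‖SC w w' s a c Δ‖) / ‖Δ‖ := by
    rw [norm_mul, Complex.norm_real, Real.norm_eq_abs, abs_of_pos (by positivity)]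
    calc P0 / τ * ‖X‖ = P0 * (1 / τ) * ‖X‖ := by ring
      _ ≤ P0 * Real.sqrt T * ((1 + 2 * C) / ‖Δ‖ * (‖SA w w' s a c Δ‖ + ‖SC w w' s a c Δ‖)) := by
          apply mul_le_mul _ hXn (norm_nonneg _) (by positivity)
          exact mul_le_mul_of_nonneg_left hτ1 hP0pos.le
      _ = _ := by ring
  have hS0 : 0 ≤ Real.sqrt T * (‖SA w w' s a c Δ‖ + ‖SC w w' s a c Δ‖) / ‖Δ‖ := by positivity
  have hE0 : 0 ≤ (∑ i ∈ s, ‖a i‖) ^ 2 * T ^ (1 / 10 : ℝ) := by positivity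
  calc ‖KK (1 / T) w w' s a c‖ = ‖(KK (1 / T) w w' s a c - ((P0 / τ : ℝ) : ℂ) * X) + ((P0 / τ : ℝ) : ℂ) * X‖ := by
        congr 1
        ring
    _ ≤ ‖KK (1 / T) w w' s a c - ((P0 / τ : ℝ) : ℂ) * X‖ + ‖((P0 / τ : ℝ) : ℂ) * X‖ := norm_add_le _ _
    _ ≤ C * (∑ i ∈ s, ‖a i‖) ^ 2 * T ^ (1 / 10 : ℝ) + P0 * (1 + 2 * C) * Real.sqrt T *
        (‖SA w w' s a c Δ‖ + ‖SC w w' s a c Δ‖) / ‖Δ‖ := add_le_add hm hpre
    _ ≤ _ := by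
        have h1 : P0 * (1 + 2 * C) * Real.sqrt T * (‖SA w w' s a c Δ‖ + ‖SC w w' s a c Δ‖) / ‖Δ‖ =
            P0 * (1 + 2 * C) * (Real.sqrt T * (‖SA w w' s a c Δ‖ + ‖SC w w' s a c Δ‖) / ‖Δ‖) := by ring
        have h2 : (P0 * (1 + 2 * C) + C) * Real.sqrt T * (‖SA w w' s a c Δ‖ + ‖SC w w' s a c Δ‖) / ‖Δ‖ =
            (P0 * (1 + 2 * C) + C) * (Real.sqrt T * (‖SA w w' s a c Δ‖ + ‖SC w w' s a c Δ‖) / ‖Δ‖) := by ring
        rw [h1, h2]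
        have h3 : C * (∑ i ∈ s, ‖a i‖) ^ 2 * T ^ (1 / 10 : ℝ) =
            C * ((∑ i ∈ s, ‖a i‖) ^ 2 * T ^ (1 / 10 : ℝ)) := by ring
        have h4 : (P0 * (1 + 2 * C) + C) * (∑ i ∈ s, ‖a i‖) ^ 2 * T ^ (1 / 10 : ℝ) =
            (P0 * (1 + 2 * C) + C) * ((∑ i ∈ s, ‖a i‖) ^ 2 * T ^ (1 / 10 : ℝ)) := by ring
        rw [h3, h4]
        have h5 : 0 ≤ P0 * (1 + 2 * C) := by positivity
        nlinarith [mul_nonneg hC.le hS0, mul_nonneg h5 hE0]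

end Pool.Agent.H28.ZT
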