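import Pool.Agent.H28.ZT.Main0

/-!
# CBS (chapter D): core bound, `|Δ| ≤ 4/L`

`Φ(ξ) = ∑∑ (..) lcm^(-1) ∫_{θ-log gcd}^{-θ-log lcm} e^(iξx) dx` (`θ = log τ`; `w, w'` fixed) is entire in `ξ`, and for `ξ ≠ 0`
`Φ(ξ) = (1/(iξ)) (e^(-iξθ) SA(ξ) - e^(iξθ) SC(ξ))`.  For `‖ξ‖ = 8/L`: `|θ| ≤ L/2 + 1 ≤ L` (`τ² = 2π sin (1/T) ≥ π/T`), so
`‖e^(iξθ)‖ ≤ e^8` and `‖Φ(ξ)‖ ≤ (L/8) 2 e^8 M`; maximum principle
(`Complex.norm_le_of_forall_mem_frontier_norm_le` on the ball of radius `8/L`) gives it at `ξ = Δ`.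
The `R` part: `‖e^(∓iΔθ) R(±Δ) SA(Δ)‖ ≤ e^4 C M`.  `1/τ ≤ √T`.
-/

set_option autoImplicit false

namespace Pool.Agent.H28.ZT

open Complex MeasureTheory

/-- `ξ ↦ ∫_a^b e^(iξx) dx` is entire -/
private theorem cb_E (a b : ℝ) :
    Differentiable ℂ (fun ξ : ℂ => ∫ x in a..b, Complex.exp (I * ξ * (x : ℂ))) := by
  have h : (fun ξ : ℂ => ∫ x in a..b, Complex.exp (I * ξ * (x : ℂ))) =
      dslope (fun ξ : ℂ => -I * (Complex.exp (I * ξ * (b : ℂ)) - Complex.exp (I * ξ * (a : ℂ)))) 0 := by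
    funext ξ
    by_cases hξ : ξ = 0
    · subst hξ
      rw [dslope_same]
      have h1 : HasDerivAt (fun ξ : ℂ => -I * (Complex.exp (I * ξ * (b : ℂ)) - Complex.exp (I * ξ * (a : ℂ))))
          (-I * (Complex.exp (I * 0 * (b : ℂ)) * (I * 1 * (b : ℂ)) -
            Complex.exp (I * 0 * (a : ℂ)) * (I * 1 * (a : ℂ)))) 0 := by
        apply HasDerivAt.const_mul
        apply HasDerivAt.sub
        · exact (((hasDerivAt_id (0 : ℂ)).const_mul I).mul_const (b : ℂ)).cexp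
        · exact (((hasDerivAt_id (0 : ℂ)).const_mul I).mul_const (a : ℂ)).cexp
      rw [h1.deriv]
      simp only [mul_zero, zero_mul, Complex.exp_zero, mul_one, one_mul]
      rw [intervalIntegral.integral_const, Complex.real_smul]
      push_cast
      linear_combination ((b : ℂ) - (a : ℂ)) * Complex.I_sq
    · rw [dslope_of_ne _ hξ, slope_def_field, integral_exp_mul_complex (mul_ne_zero Complex.I_ne_zero hξ)]
      simp only [mul_zero, zero_mul, Complex.exp_zero, sub_self, sub_zero]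
      rw [div_eq_div_iff (mul_ne_zero Complex.I_ne_zero hξ) hξ]
      linear_combination ((Complex.exp (I * ξ * (b : ℂ)) - Complex.exp (I * ξ * (a : ℂ))) * ξ) * Complex.I_sq
  rw [h, ← differentiableOn_univ]
  apply (Complex.differentiableOn_dslope Filter.univ_mem).2
  exact Differentiable.differentiableOn (by fun_prop)

private theorem cb_np (n : ℕ) (z : ℂ) : np n (-1 - z) = np n (-1) * np n (-z) := by
  unfold np
  rw [← Complex.exp_add]
  congr 1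
  ring

/-- `Φ` -/
private noncomputable def cbP {ι : Type} (θ : ℝ) (w w' : ℂ) (s : Finset ι) (a : ι → ℂ) (c : ι → ℕ) (ξ : ℂ) : ℂ :=
  ∑ i ∈ s, ∑ j ∈ s, a i * (starRingEnd ℂ) (a j) * np (c i) (I * w) * np (c j) (-(I * (starRingEnd ℂ) w')) *
    np (Nat.lcm (c i) (c j)) (-1) *
    ∫ x in (θ - Real.log (Nat.gcd (c i) (c j) : ℝ))..(-θ - Real.log (Nat.lcm (c i) (c j) : ℝ)),
      Complex.exp (I * ξ * (x : ℂ))

private theorem cb_Pd {ι : Type} (θ : ℝ) (w w' : ℂ) (s : Finset ι) (a : ι → ℂ) (c : ι → ℕ) :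
    Differentiable ℂ (cbP θ w w' s a c) := by
  unfold cbP
  apply Differentiable.fun_sum
  intro i _
  apply Differentiable.fun_sum
  intro j _
  exact (cb_E _ _).const_mul _

private theorem cb_Pne {ι : Type} (θ : ℝ) (w w' : ℂ) (s : Finset ι) (a : ι → ℂ) (c : ι → ℕ) {ξ : ℂ} (hξ : ξ ≠ 0) :
    cbP θ w w' s a c ξ = (I * ξ)⁻¹ * (Complex.exp (-(I * ξ * (θ : ℂ))) * SA w w' s a c ξ -
      Complex.exp (I * ξ * (θ : ℂ)) * SC w w' s a c ξ) := by
  unfold cbP SA SC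
  rw [Finset.mul_sum, Finset.mul_sum, ← Finset.sum_sub_distrib, Finset.mul_sum]
  apply Finset.sum_congr rfl
  intro i _
  rw [Finset.mul_sum, Finset.mul_sum, ← Finset.sum_sub_distrib, Finset.mul_sum]
  apply Finset.sum_congr rfl
  intro j _
  rw [integral_exp_mul_complex (mul_ne_zero Complex.I_ne_zero hξ), cb_np]
  have e1 : Complex.exp (I * ξ * ((-θ - Real.log (Nat.lcm (c i) (c j) : ℝ) : ℝ) : ℂ)) =
      Complex.exp (-(I * ξ * (θ : ℂ))) * np (Nat.lcm (c i) (c j)) (-(I * ξ)) := by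
    unfold np
    rw [← Complex.exp_add]
    congr 1
    push_cast
    ring
  have e2 : Complex.exp (I * ξ * ((θ - Real.log (Nat.gcd (c i) (c j) : ℝ) : ℝ) : ℂ)) =
      Complex.exp (I * ξ * (θ : ℂ)) * np (Nat.gcd (c i) (c j)) (-(I * ξ)) := by
    unfold np
    rw [← Complex.exp_add]
    congr 1
    push_cast
    ring
  rw [e1, e2, div_eq_mul_inv]
  ring

private theorem cb_tau {T : ℝ} (hT : Real.exp 40 ≤ T) :
    0 < tau (1 / T) ∧ 1 / tau (1 / T) ≤ Real.sqrt T ∧ |Real.log (tau (1 / T))| ≤ Real.log T / 2 := by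
  have h40 : (41 : ℝ) ≤ Real.exp 40 := by
    have := Real.add_one_le_exp (40 : ℝ)
    linarith
  have hT1 : 41 ≤ T := h40.trans hT
  have hT0 : 0 < T := by linarith
  have hd0 : 0 < 1 / T := by positivity
  have hd1 : 1 / T ≤ 1 := by rw [div_le_one hT0]; linarith
  have hpi := Real.pi_gt_three
  have hpi4 := Real.pi_lt_four
  have hs1 : Real.sin (1 / T) ≤ 1 / T := Real.sin_le hd0.le
  have hs2 : 2 / Real.pi * (1 / T) ≤ Real.sin (1 / T) :=
    Real.mul_le_sin hd0.le (by linarith)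
  have hlow : 1 / T ≤ 2 * Real.pi * Real.sin (1 / T) := by
    have h1 : 2 * Real.pi * (2 / Real.pi * (1 / T)) = 4 * (1 / T) := by
      field_simp
      norm_num
    have h2 := mul_le_mul_of_nonneg_left hs2 (show 0 ≤ 2 * Real.pi by positivity)
    linarith
  have hup : 2 * Real.pi * Real.sin (1 / T) ≤ 8 / T := by
    have h2 : 2 * Real.pi * Real.sin (1 / T) ≤ 8 * (1 / T) :=
      mul_le_mul (by linarith) hs1 (by
        have : 0 ≤ 2 / Real.pi * (1 / T) := by positivity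
        linarith) (by norm_num)
    linarith [show 8 * (1 / T) = 8 / T by ring]
  have hpos : 0 < 2 * Real.pi * Real.sin (1 / T) := lt_of_lt_of_le hd0 hlow
  have ht : 0 < tau (1 / T) := Real.sqrt_pos.2 hpos
  refine ⟨ht, ?_, ?_⟩
  · have h1 : Real.sqrt (1 / T) ≤ tau (1 / T) := Real.sqrt_le_sqrt hlow
    have h2 : Real.sqrt (1 / T) = 1 / Real.sqrt T := by
      rw [Real.sqrt_div zero_le_one, Real.sqrt_one]
    rw [h2] at h1
    have h3 : 0 < Real.sqrt T := Real.sqrt_pos.2 hT0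
    rw [div_le_iff₀ h3] at h1
    rw [div_le_iff₀ ht]
    linarith
  · have hlog : Real.log (tau (1 / T)) = Real.log (2 * Real.pi * Real.sin (1 / T)) / 2 := by
      unfold tau
      rw [Real.log_sqrt hpos.le]
    have h1 : -Real.log T ≤ Real.log (2 * Real.pi * Real.sin (1 / T)) := by
      rw [← Real.log_inv, ← one_div]
      exact Real.log_le_log hd0 hlow
    have h2 : Real.log (2 * Real.pi * Real.sin (1 / T)) ≤ 0 := by
      apply Real.log_nonpos hpos.le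
      refine hup.trans ?_
      rw [div_le_one hT0]
      linarith
    have h3 : 0 ≤ Real.log T := Real.log_nonneg (by linarith)
    rw [hlog, abs_le]
    constructor
    · linarith
    · linarith

private theorem cb_exp {ξ : ℂ} {θ B : ℝ} (h : ‖ξ‖ * |θ| ≤ B) :
    ‖Complex.exp (I * ξ * (θ : ℂ))‖ ≤ Real.exp B ∧ ‖Complex.exp (-(I * ξ * (θ : ℂ)))‖ ≤ Real.exp B := by
  have hn : ‖I * ξ * (θ : ℂ)‖ ≤ B := by
    rw [norm_mul, norm_mul, Complex.norm_I, one_mul, Complex.norm_real, Real.norm_eq_abs]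
    exact h
  constructor
  · exact (Complex.norm_exp_le_exp_norm _).trans (Real.exp_le_exp.2 hn)
  · refine (Complex.norm_exp_le_exp_norm _).trans (Real.exp_le_exp.2 ?_)
    rw [norm_neg]
    exact hn

theorem cb_S : ∃ C : ℝ, 0 < C ∧
    ∀ (ι : Type) (T : ℝ) (w w' : ℂ) (s : Finset ι) (a : ι → ℂ) (c : ι → ℕ) (M : ℝ), Real.exp 40 ≤ T →
    ‖w‖ ≤ 1 → ‖w'‖ ≤ 1 → |w.im| ≤ 1 / Real.log T → |w'.im| ≤ 1 / Real.log T →
    (∀ i ∈ s, 1 ≤ c i ∧ (c i : ℝ) ≤ T ^ (1 / 100 : ℝ)) →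
    ‖w - (starRingEnd ℂ) w'‖ ≤ 4 / Real.log T →
    (∀ y : ℂ, ‖y‖ ≤ 8 / Real.log T → ‖SA w w' s a c y‖ ≤ M ∧ ‖SC w w' s a c y‖ ≤ M) →
    ‖KK (1 / T) w w' s a c‖ ≤
      C * Real.sqrt T * Real.log T * M + C * (∑ i ∈ s, ‖a i‖) ^ 2 * T ^ (1 / 10 : ℝ) := by
  obtain ⟨C, R, hC, hR, hmain⟩ := KK_main
  obtain ⟨K1, hK1⟩ : ∃ K1 : ℝ, K1 = 4 * Real.pi * Real.sqrt Real.pi := ⟨_, rfl⟩
  have hK1' : 0 ≤ K1 := by rw [hK1]; positivity
  refine ⟨K1 * (Real.exp 4 / 4 + 2 * (Real.exp 2 * C)) + C, by positivity, ?_⟩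
  intro ι T w w' s a c M hT hw1 hw2 hi1 hi2 hc hΔ hM
  obtain ⟨Δ, hΔe⟩ : ∃ Δ : ℂ, Δ = w - (starRingEnd ℂ) w' := ⟨_, rfl⟩
  obtain ⟨θ, hθe⟩ : ∃ θ : ℝ, θ = Real.log (tau (1 / T)) := ⟨_, rfl⟩
  obtain ⟨L, hLe⟩ : ∃ L : ℝ, L = Real.log T := ⟨_, rfl⟩
  obtain ⟨ht0, ht1, ht2⟩ := cb_tau hT
  have hm := hmain ι T w w' s a c hT hw1 hw2 hi1 hi2 hc
  rw [← hΔe, ← hθe] at hm
  rw [← hΔe, ← hLe] at hΔ
  rw [← hθe, ← hLe] at ht2
  rw [← hLe] at hM ⊢
  have hT0 : 0 < T := (Real.exp_pos 40).trans_le hT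
  have hL40 : 40 ≤ L := by
    rw [hLe, Real.le_log_iff_exp_le hT0]
    exact hT
  have hL0 : 0 < L := by linarith
  have hM0 : 0 ≤ M := (norm_nonneg _).trans (hM 0 (by rw [norm_zero]; positivity)).1
  -- the core
  have hΔ8 : ‖Δ‖ ≤ 8 / L := hΔ.trans (by gcongr; norm_num)
  have hPhi : ‖cbP θ w w' s a c Δ‖ ≤ L / 8 * (2 * Real.exp 4 * M) := by
    apply Complex.norm_le_of_forall_mem_frontier_norm_le (U := Metric.ball 0 (8 / L)) Metric.isBounded_ball
      (cb_Pd θ w w' s a c).diffContOnCl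
    · intro ξ hξ
      rw [frontier_ball _ (by positivity), mem_sphere_iff_norm, sub_zero] at hξ
      have hξ0 : ξ ≠ 0 := by
        intro h
        rw [h, norm_zero] at hξ
        have : 0 < 8 / L := by positivity
        linarith
      rw [cb_Pne θ w w' s a c hξ0, norm_mul, norm_inv, norm_mul, Complex.norm_I, one_mul, hξ]
      have h1 : ‖ξ‖ * |θ| ≤ 4 := by
        rw [hξ]
        calc 8 / L * |θ| ≤ 8 / L * (L / 2) := mul_le_mul_of_nonneg_left ht2 (by positivity)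
          _ = 4 := by
            field_simp
            norm_num
      obtain ⟨h2, h3⟩ := cb_exp h1
      obtain ⟨h4, h5⟩ := hM ξ hξ.le
      have h6 : ‖Complex.exp (-(I * ξ * (θ : ℂ))) * SA w w' s a c ξ -
          Complex.exp (I * ξ * (θ : ℂ)) * SC w w' s a c ξ‖ ≤ 2 * Real.exp 4 * M := by
        refine (norm_sub_le _ _).trans ?_
        rw [norm_mul, norm_mul]
        have h7 := mul_le_mul h3 h4 (norm_nonneg _) (Real.exp_pos _).le
        have h8 := mul_le_mul h2 h5 (norm_nonneg _) (Real.exp_pos _).le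
        linarith
      have h9 : (8 / L)⁻¹ = L / 8 := by rw [inv_div]
      rw [h9]
      exact mul_le_mul_of_nonneg_left h6 (by positivity)
    · rw [closure_ball _ (by positivity : 8 / L ≠ 0)]
      rw [mem_closedBall_zero_iff]
      exact hΔ8
  -- the rest
  have hΔ4 : ‖Δ‖ ≤ 1 / 10 := hΔ.trans (by
    rw [div_le_iff₀ hL0]
    linarith)
  have hR1 : ‖R Δ‖ ≤ C := hR Δ (by linarith) ((Complex.abs_im_le_norm Δ).trans (by linarith))
  have hR2 : ‖R (-Δ)‖ ≤ C := hR (-Δ) (by rw [norm_neg]; linarith)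
    ((Complex.abs_im_le_norm (-Δ)).trans (by rw [norm_neg]; linarith))
  have h1 : ‖Δ‖ * |θ| ≤ 2 := by
    calc ‖Δ‖ * |θ| ≤ (4 / L) * (L / 2) := mul_le_mul hΔ ht2 (abs_nonneg _) (by positivity)
      _ = 2 := by
        field_simp
        norm_num
  obtain ⟨h2, h3⟩ := cb_exp h1
  obtain ⟨h4, h5⟩ := hM Δ hΔ8
  have hsum : ∑ i ∈ s, ∑ j ∈ s, a i * (starRingEnd ℂ) (a j) * np (c i) (I * w) *
        np (c j) (-(I * (starRingEnd ℂ) w')) * np (Nat.lcm (c i) (c j)) (-1) *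
        ((∫ x in (θ - Real.log (Nat.gcd (c i) (c j) : ℝ))..(-θ -
            Real.log (Nat.lcm (c i) (c j) : ℝ)), Complex.exp (I * Δ * (x : ℂ))) +
          Complex.exp (-(I * Δ * (θ : ℂ))) *
            np (Nat.lcm (c i) (c j)) (-(I * Δ)) * R Δ +
          Complex.exp (I * Δ * (θ : ℂ)) *
            np (Nat.gcd (c i) (c j)) (-(I * Δ)) * R (-Δ)) =
      cbP θ w w' s a c Δ + Complex.exp (-(I * Δ * (θ : ℂ))) * SA w w' s a c Δ * R Δ +
        Complex.exp (I * Δ * (θ : ℂ)) * SC w w' s a c Δ * R (-Δ) := by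
    unfold cbP SA SC
    simp only [Finset.mul_sum, Finset.sum_mul, ← Finset.sum_add_distrib]
    apply Finset.sum_congr rfl
    intro i _
    apply Finset.sum_congr rfl
    intro j _
    rw [cb_np]
    ring
  rw [hsum] at hm
  have hA : ‖Complex.exp (-(I * Δ * (θ : ℂ))) * SA w w' s a c Δ * R Δ‖ ≤ Real.exp 2 * M * C := by
    rw [norm_mul, norm_mul]
    exact mul_le_mul (mul_le_mul h3 h4 (norm_nonneg _) (Real.exp_pos _).le) hR1 (norm_nonneg _) (by positivity)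
  have hB : ‖Complex.exp (I * Δ * (θ : ℂ)) * SC w w' s a c Δ * R (-Δ)‖ ≤ Real.exp 2 * M * C := by
    rw [norm_mul, norm_mul]
    exact mul_le_mul (mul_le_mul h2 h5 (norm_nonneg _) (Real.exp_pos _).le) hR2 (norm_nonneg _) (by positivity)
  have hS : ‖cbP θ w w' s a c Δ + Complex.exp (-(I * Δ * (θ : ℂ))) * SA w w' s a c Δ * R Δ +
        Complex.exp (I * Δ * (θ : ℂ)) * SC w w' s a c Δ * R (-Δ)‖ ≤
      L * M * (Real.exp 4 / 4 + 2 * (Real.exp 2 * C)) := by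
    have h6 : ‖cbP θ w w' s a c Δ + Complex.exp (-(I * Δ * (θ : ℂ))) * SA w w' s a c Δ * R Δ +
        Complex.exp (I * Δ * (θ : ℂ)) * SC w w' s a c Δ * R (-Δ)‖ ≤
        L / 8 * (2 * Real.exp 4 * M) + Real.exp 2 * M * C + Real.exp 2 * M * C :=
      (norm_add_le _ _).trans (add_le_add ((norm_add_le _ _).trans (add_le_add hPhi hA)) hB)
    refine h6.trans ?_
    have h7 : Real.exp 2 * M * C ≤ L * (Real.exp 2 * M * C) := by
      have h8 : 0 ≤ Real.exp 2 * M * C := by positivity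
      nlinarith
    calc _ ≤ L / 8 * (2 * Real.exp 4 * M) + L * (Real.exp 2 * M * C) + L * (Real.exp 2 * M * C) := by linarith
      _ = _ := by ring
  have hK : ‖((4 * Real.pi * Real.sqrt Real.pi / tau (1 / T) : ℝ) : ℂ)‖ ≤ K1 * Real.sqrt T := by
    rw [Complex.norm_real, Real.norm_eq_abs, abs_of_nonneg (by positivity), ← hK1, div_eq_mul_one_div]
    exact mul_le_mul_of_nonneg_left ht1 hK1'
  have hfin : ‖((4 * Real.pi * Real.sqrt Real.pi / tau (1 / T) : ℝ) : ℂ) *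
      (cbP θ w w' s a c Δ + Complex.exp (-(I * Δ * (θ : ℂ))) * SA w w' s a c Δ * R Δ +
        Complex.exp (I * Δ * (θ : ℂ)) * SC w w' s a c Δ * R (-Δ))‖ ≤
      K1 * (Real.exp 4 / 4 + 2 * (Real.exp 2 * C)) * Real.sqrt T * L * M := by
    rw [norm_mul]
    calc _ ≤ (K1 * Real.sqrt T) * (L * M * (Real.exp 4 / 4 + 2 * (Real.exp 2 * C))) :=
          mul_le_mul hK hS (norm_nonneg _) (by positivity)
      _ = _ := by ring
  have htri := norm_le_norm_sub_add (KK (1 / T) w w' s a c)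
    (((4 * Real.pi * Real.sqrt Real.pi / tau (1 / T) : ℝ) : ℂ) *
      (cbP θ w w' s a c Δ + Complex.exp (-(I * Δ * (θ : ℂ))) * SA w w' s a c Δ * R Δ +
        Complex.exp (I * Δ * (θ : ℂ)) * SC w w' s a c Δ * R (-Δ)))
  have hx1 : 0 ≤ C * Real.sqrt T * L * M := by positivity
  have hx2 : 0 ≤ K1 * (Real.exp 4 / 4 + 2 * (Real.exp 2 * C)) * (∑ i ∈ s, ‖a i‖) ^ 2 * T ^ (1 / 10 : ℝ) := by
    positivity
  calc ‖KK (1 / T) w w' s a c‖ ≤ C * (∑ i ∈ s, ‖a i‖) ^ 2 * T ^ (1 / 10 : ℝ) +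
        K1 * (Real.exp 4 / 4 + 2 * (Real.exp 2 * C)) * Real.sqrt T * L * M :=
        htri.trans (add_le_add hm hfin)
    _ ≤ _ := by linarith

end Pool.Agent.H28.ZT
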