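import Pool.Agent.H28.ZT.Link0

/-!
# CARD (chapter E): sizes

The elements of `S ∈ AA J P V` are primes (`Blk.un`), so `S` is determined by `pr S` (`Nat.primeFactors`), `1 ≤ pr S ≤ T^(1/1000)`:
`|AA| ≤ ⌊T^(1/1000)⌋`.  `c3 f ≤ T^(3/1000)`.  `‖a3 v f‖ ≤ 1` (`‖np n (-i v)‖ = 1`, `(1/2)^k ≤ 1`), `|s3 A| = |A|^3`.
-/

set_option autoImplicit false

namespace Pool.Agent.H28.ZT

open Complex

theorem AA_prime {K kap T : ℝ} {J : ℕ} {P : ℕ → Finset ℕ} {V : ℕ → ℕ} (hB : Blk K kap T J P V)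
    {S : Finset ℕ} (hS : S ∈ AA J P V) : ∀ p ∈ S, p.Prime := by
  intro p hp
  unfold AA at hS
  rw [Finset.mem_filter, Finset.mem_powerset, hB.un] at hS
  exact (Finset.mem_filter.1 (hS.1 hp)).2

theorem AA_down {J : ℕ} {P : ℕ → Finset ℕ} {V : ℕ → ℕ} {S S' : Finset ℕ} (hS : S ∈ AA J P V)
    (h : S' ⊆ S) : S' ∈ AA J P V := by
  unfold AA at hS ⊢
  rw [Finset.mem_filter, Finset.mem_powerset] at hS ⊢
  exact ⟨h.trans hS.1, fun j hj =>
    (Finset.card_le_card (Finset.inter_subset_inter_right h)).trans (hS.2 j hj)⟩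

private theorem pr_pos' {K kap T : ℝ} {J : ℕ} {P : ℕ → Finset ℕ} {V : ℕ → ℕ} (hB : Blk K kap T J P V)
    {S : Finset ℕ} (hS : S ∈ AA J P V) : 1 ≤ pr S :=
  Finset.prod_pos fun p hp => (AA_prime hB hS p hp).pos

theorem card_AA {K kap T : ℝ} {J : ℕ} {P : ℕ → Finset ℕ} {V : ℕ → ℕ} (hT : 1 ≤ T)
    (hB : Blk K kap T J P V) : ((AA J P V).card : ℝ) ≤ T ^ (1 / 1000 : ℝ) := by
  have hT0 : (0 : ℝ) ≤ T ^ (1 / 1000 : ℝ) := Real.rpow_nonneg (by linarith) _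
  have h1 : (AA J P V).card ≤ (Finset.Icc 1 ⌊T ^ (1 / 1000 : ℝ)⌋₊).card := by
    refine Finset.card_le_card_of_injOn pr ?_ ?_
    · intro S hS
      rw [Finset.coe_Icc, Set.mem_Icc]
      exact ⟨pr_pos' hB hS, Nat.le_floor (hB.len S hS)⟩
    · intro S hS S' hS' h
      have e1 : (pr S).primeFactors = S := Nat.primeFactors_prod (AA_prime hB hS)
      have e2 : (pr S').primeFactors = S' := Nat.primeFactors_prod (AA_prime hB hS')
      rw [← e1, ← e2, h]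
  rw [Nat.card_Icc, Nat.add_sub_cancel] at h1
  exact (Nat.cast_le.2 h1).trans (Nat.floor_le hT0)

theorem c3_le {K kap T : ℝ} {J : ℕ} {P : ℕ → Finset ℕ} {V : ℕ → ℕ} (hT : 1 ≤ T)
    (hB : Blk K kap T J P V) : ∀ f ∈ s3 (AA J P V), 1 ≤ c3 f ∧ (c3 f : ℝ) ≤ T ^ (1 / 100 : ℝ) := by
  intro f hf
  unfold s3 at hf
  rw [Fintype.mem_piFinset] at hf
  have hT0 : (0 : ℝ) < T := by linarith
  constructor
  · unfold c3
    exact Nat.one_le_iff_ne_zero.2 (Finset.prod_ne_zero_iff.2 fun k _ =>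
      Nat.one_le_iff_ne_zero.1 (pr_pos' hB (hf k)))
  · unfold c3
    rw [Nat.cast_prod]
    calc ∏ k : Fin 3, (pr (f k) : ℝ) ≤ ∏ _k : Fin 3, T ^ (1 / 1000 : ℝ) :=
          Finset.prod_le_prod (fun k _ => Nat.cast_nonneg _) fun k _ => hB.len _ (hf k)
      _ = T ^ (1 / 1000 * 3 : ℝ) := by
          rw [Finset.prod_const, Finset.card_univ, Fintype.card_fin, ← Real.rpow_natCast,
            ← Real.rpow_mul hT0.le]
          norm_num
      _ ≤ T ^ (1 / 100 : ℝ) := Real.rpow_le_rpow_of_exponent_le hT (by norm_num)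

theorem a3_sum {K kap T : ℝ} {J : ℕ} {P : ℕ → Finset ℕ} {V : ℕ → ℕ} (hT : 1 ≤ T)
    (hB : Blk K kap T J P V) (v : Fin 3 → ℝ) : ∑ f ∈ s3 (AA J P V), ‖a3 v f‖ ≤ T ^ (3 / 1000 : ℝ) := by
  have hT0 : (0 : ℝ) < T := by linarith
  have h1 : ∀ f ∈ s3 (AA J P V), ‖a3 v f‖ ≤ 1 := by
    intro f _
    unfold a3
    rw [norm_prod]
    refine Finset.prod_le_one (fun k _ => norm_nonneg _) fun k _ => ?_
    rw [norm_mul, norm_pow, np_norm]
    have e1 : (-(I * ((v k : ℝ) : ℂ))).re = 0 := by simp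
    rw [e1, zero_mul, Real.exp_zero, mul_one]
    apply pow_le_one₀ (norm_nonneg _)
    rw [norm_neg, norm_div, norm_one]
    norm_num
  calc ∑ f ∈ s3 (AA J P V), ‖a3 v f‖ ≤ ∑ f ∈ s3 (AA J P V), (1 : ℝ) := Finset.sum_le_sum h1
    _ = ((AA J P V).card : ℝ) ^ 3 := by
        unfold s3
        rw [Finset.sum_const, Fintype.card_piFinset, Finset.prod_const, Finset.card_univ,
          Fintype.card_fin]
        simp
    _ ≤ (T ^ (1 / 1000 : ℝ)) ^ 3 := pow_le_pow_left₀ (Nat.cast_nonneg _) (card_AA hT hB) 3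
    _ = T ^ (3 / 1000 : ℝ) := by
        rw [← Real.rpow_natCast, ← Real.rpow_mul hT0.le]
        norm_num

end Pool.Agent.H28.ZT
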