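import Mathlib

/-!
# COVER (chapter Z): covering a set by the intervals `[kh, (k+1)h]`

`R` = the set of `k ≤ ⌈T/h⌉` such that `[kh, (k+1)h]` meets `G` (classical filter of `Finset.range`).  `t ∈ G` lies in `I_k` with
`k = ⌊t/h⌋` (`t ≥ T/2 ≥ 0`).  `∫_G b² ≤ ∑_{k ∈ R} ∫_{I_k} b²` (`b² ≥ 0`: `MeasureTheory.setIntegral_mono_set` into the finite union, the
`I_k` overlap in end points only; use half-open intervals `Ioc`/`Ico` for the disjointness and `intervalIntegral`).  For `k ∈ R`: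
`kh ≤ T`, `(k+1)h ≥ T/2`, so `I_k ⊆ [T/2 - h, T + h] ⊆ [T/2 - 1, T + 1]`.
-/

set_option autoImplicit false

namespace Pool.Agent.H28.ZT

open MeasureTheory

theorem cover (b : ℝ → ℝ) (hb : Continuous b) (h T : ℝ) (hh : 0 < h) (hh1 : h ≤ 1) (hT : 4 ≤ T) (G : Set ℝ)
    (hG : MeasurableSet G) (hG2 : ∀ t ∈ G, T / 2 ≤ t ∧ t ≤ T) :
    ∃ R : Finset ℕ, (∀ k ∈ R, ∃ t ∈ G, (k : ℝ) * h ≤ t ∧ t ≤ ((k : ℝ) + 1) * h) ∧
      ∫ t in G, b t ^ 2 ≤ ∑ k ∈ R, ∫ t in ((k : ℝ) * h)..(((k : ℝ) + 1) * h), b t ^ 2 ∧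
      ∑ k ∈ R, (∫ t in ((k : ℝ) * h)..(((k : ℝ) + 1) * h), b t ^ 2) ≤ ∫ t in (T / 2 - 1)..(T + 1), b t ^ 2 := by
  classical
  set J : ℕ → Set ℝ := fun k => Set.Ico ((k : ℝ) * h) (((k : ℝ) + 1) * h) with hJ
  set N : ℕ := ⌈T / h⌉₊ + 1 with hN
  set R : Finset ℕ := (Finset.range N).filter fun k => ∃ t ∈ G, t ∈ J k with hR
  have hmem : ∀ k ∈ R, ∃ t ∈ G, t ∈ J k := fun k hk => (Finset.mem_filter.1 hk).2
  have hJm : ∀ k, MeasurableSet (J k) := fun k => measurableSet_Ico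
  have hle : ∀ k : ℕ, (k : ℝ) * h ≤ ((k : ℝ) + 1) * h := fun k => by nlinarith
  have hint : ∀ a c : ℝ, IntegrableOn (fun t => b t ^ 2) (Set.Ico a c) := fun a c =>
    ((hb.pow 2).continuousOn.integrableOn_compact (isCompact_Icc (a := a) (b := c))).mono_set
      Set.Ico_subset_Icc_self
  have hdisj : Set.Pairwise (R : Set ℕ) (Function.onFun Disjoint J) := by
    intro k _ l _ hkl
    rw [Function.onFun, Set.disjoint_left]
    rintro t ⟨h1, h2⟩ ⟨h3, h4⟩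
    rcases lt_or_gt_of_ne hkl with h5 | h5
    · have h6 : (k : ℝ) + 1 ≤ l := by exact_mod_cast h5
      nlinarith
    · have h6 : (l : ℝ) + 1 ≤ k := by exact_mod_cast h5
      nlinarith
  have hU : ∑ k ∈ R, ∫ t in J k, b t ^ 2 = ∫ t in ⋃ k ∈ R, J k, b t ^ 2 :=
    (integral_biUnion_finset R (fun k _ => hJm k) hdisj fun k _ => hint _ _).symm
  have hUm : MeasurableSet (⋃ k ∈ R, J k) := R.measurableSet_biUnion fun k _ => hJm k
  have hIk : ∀ k : ℕ, ∫ t in ((k : ℝ) * h)..(((k : ℝ) + 1) * h), b t ^ 2 =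
      ∫ t in J k, b t ^ 2 := fun k => by
    rw [intervalIntegral.integral_of_le (hle k), ← integral_Ico_eq_integral_Ioc]
  have hsub : (⋃ k ∈ R, J k) ⊆ Set.Ico (T / 2 - 1) (T + 1) := by
    intro t ht
    rw [Set.mem_iUnion₂] at ht
    obtain ⟨k, hk, ht1, ht2⟩ := ht
    obtain ⟨s, hs, hs1, hs2⟩ := hmem k hk
    obtain ⟨h1, h2⟩ := hG2 s hs
    constructor
    · nlinarith
    · nlinarith
  have hUi : IntegrableOn (fun t => b t ^ 2) (⋃ k ∈ R, J k) := (hint _ _).mono_set hsub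
  have hnn : ∀ s : Set ℝ, 0 ≤ᵐ[volume.restrict s] fun t => b t ^ 2 := fun s =>
    Filter.Eventually.of_forall fun t => sq_nonneg _
  have hGU : G ⊆ ⋃ k ∈ R, J k := by
    intro t ht
    obtain ⟨h1, h2⟩ := hG2 t ht
    have ht0 : 0 ≤ t / h := div_nonneg (by linarith) hh.le
    rw [Set.mem_iUnion₂]
    have h3 : ((⌊t / h⌋₊ : ℕ) : ℝ) * h ≤ t := by
      rw [← le_div_iff₀ hh]
      exact Nat.floor_le ht0
    have h4 : t < (((⌊t / h⌋₊ : ℕ) : ℝ) + 1) * h := by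
      rw [← div_lt_iff₀ hh]
      exact Nat.lt_floor_add_one _
    refine ⟨⌊t / h⌋₊, ?_, h3, h4⟩
    rw [hR, Finset.mem_filter, Finset.mem_range]
    refine ⟨?_, t, ht, h3, h4⟩
    have h5 : ⌊t / h⌋₊ ≤ ⌈T / h⌉₊ :=
      (Nat.floor_le_floor (div_le_div_of_nonneg_right h2 hh.le)).trans (Nat.floor_le_ceil _)
    omega
  refine ⟨R, fun k hk => ?_, ?_, ?_⟩
  · obtain ⟨t, ht, ht1, ht2⟩ := hmem k hk
    exact ⟨t, ht, ht1, ht2.le⟩
  · rw [Finset.sum_congr rfl fun k _ => hIk k, hU]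
    exact setIntegral_mono_set hUi (hnn _) (Filter.Eventually.of_forall hGU)
  · rw [Finset.sum_congr rfl fun k _ => hIk k, hU,
      intervalIntegral.integral_of_le (by linarith : T / 2 - 1 ≤ T + 1),
      ← integral_Ico_eq_integral_Ioc]
    exact setIntegral_mono_set (hint _ _) (hnn _) (Filter.Eventually.of_forall hsub)

end Pool.Agent.H28.ZT
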