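import Pool.Agent.H28.ZT.Dbl

/-!
# CROSS (chapter D): the cross terms

`∫_1^∞ u^(ix-1) om (ρ u² z0) du = ∑_{m ≥ 1} ∫_1^∞ u^(ix-1) exp (-π m² ρ z0 u²) du`; OSC (`k = 1`) with `w = π m² ρ z0 d`,
`‖w‖ = π m² ρ`: sum `≤ C/ρ`.  The same with `conj (om ..)` (`= om (ρ u² conj z0)`).
-/

set_option autoImplicit false

namespace Pool.Agent.H28.ZT

open Complex MeasureTheory

private theorem cross_gen : ∃ C : ℝ, 0 < C ∧ ∀ (ρ : ℝ) (x ζ : ℂ), 0 < ρ → 0 < ζ.re → ‖ζ‖ = 1 →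
    ‖x‖ ≤ 2 → |x.im| ≤ 1 / 4 →
    IntegrableOn (fun u : ℝ => (u : ℂ) ^ (I * x - 1) * om ((ρ * u ^ 2 : ℝ) * ζ)) (Set.Ioi 1) ∧
    ‖∫ u in Set.Ioi (1 : ℝ), (u : ℂ) ^ (I * x - 1) * om ((ρ * u ^ 2 : ℝ) * ζ)‖ ≤ C / ρ := by
  obtain ⟨C0, hC0, hosc⟩ := osc
  refine ⟨C0 * (∑' m : ℕ, 1 / ((m : ℝ) + 1) ^ 2) + 1, ?_, ?_⟩
  · have : 0 ≤ ∑' m : ℕ, 1 / ((m : ℝ) + 1) ^ 2 := tsum_nonneg (fun m => by positivity)
    positivity
  intro ρ x ζ hρ hζ hζ1 hx hx2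
  have hπ := Real.pi_pos
  let w : ℕ → ℂ := fun m => ((Real.pi * ((m : ℝ) + 1) ^ 2 * ρ : ℝ) : ℂ) * ζ
  have hw : ∀ m, (w m).re = Real.pi * ((m : ℝ) + 1) ^ 2 * ρ * ζ.re := by
    intro m
    simp only [w]
    rw [Complex.re_ofReal_mul]
  have hw0 : ∀ m, 0 < (w m).re := by
    intro m
    rw [hw]
    positivity
  have hwn : ∀ m, ‖w m‖ = Real.pi * ((m : ℝ) + 1) ^ 2 * ρ := by
    intro m
    simp only [w]
    rw [norm_mul, hζ1, mul_one, Complex.norm_real, Real.norm_of_nonneg (by positivity)]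
  have hge : ∀ m, Real.pi * ρ * ζ.re ≤ (w m).re := by
    intro m
    rw [hw]
    have h1 : (1 : ℝ) ≤ ((m : ℝ) + 1) ^ 2 := by
      have : (0 : ℝ) ≤ m := Nat.cast_nonneg _
      nlinarith
    have h2 : 0 < Real.pi * ρ * ζ.re := by positivity
    nlinarith
  let F : ℕ → ℝ → ℂ := fun m u => (u : ℂ) ^ (I * x - 1) * Complex.exp (-(w m * (u : ℂ) ^ 2))
  have hcpn : ∀ u : ℝ, 1 ≤ u → ‖(u : ℂ) ^ (I * x - 1)‖ ≤ u := by
    intro u hu
    rw [Complex.norm_cpow_eq_rpow_re_of_pos (by linarith)]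
    have h : (I * x - 1).re ≤ 1 := by
      have := abs_le.mp hx2
      simp only [Complex.sub_re, Complex.one_re, Complex.mul_re, Complex.I_re, Complex.I_im,
        zero_mul, one_mul, zero_sub]
      linarith
    calc u ^ (I * x - 1).re ≤ u ^ (1 : ℝ) := Real.rpow_le_rpow_of_exponent_le hu h
      _ = u := Real.rpow_one u
  have hFb : ∀ m, ∀ u : ℝ, 1 ≤ u → ‖F m u‖ ≤ u * Real.exp (-((w m).re * u ^ 2)) := by
    intro m u hu
    simp only [F]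
    rw [norm_mul, dbl_exp]
    exact mul_le_mul_of_nonneg_right (hcpn u hu) (Real.exp_nonneg _)
  have hcp : ContinuousOn (fun u : ℝ => (u : ℂ) ^ (I * x - 1)) (Set.Ioi 1) := by
    intro u hu
    have hu' : (1 : ℝ) < u := hu
    refine ContinuousAt.continuousWithinAt ?_
    refine ContinuousAt.cpow Complex.continuous_ofReal.continuousAt continuousAt_const ?_
    exact Or.inl (by simp; linarith)
  have hFi : ∀ m, Integrable (F m) (volume.restrict (Set.Ioi 1)) := by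
    intro m
    refine Integrable.mono' (dbl_int (hw0 m)).1 ?_ ?_
    · exact ContinuousOn.aestronglyMeasurable (hcp.mul (by fun_prop)) measurableSet_Ioi
    · exact (ae_restrict_mem measurableSet_Ioi).mono (fun u hu => hFb m u (le_of_lt hu))
  have hFs : Summable fun m => ∫ u in Set.Ioi (1 : ℝ), ‖F m u‖ := by
    refine Summable.of_nonneg_of_le (fun p => integral_nonneg (fun _ => norm_nonneg _))
      (g := fun m : ℕ => ∫ u in Set.Ioi (1 : ℝ), ‖F m u‖)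
      (f := fun m : ℕ => Real.exp (-(Real.pi * ((m : ℝ) + 1) ^ 2 * (ρ * ζ.re))) /
        (2 * (Real.pi * ρ * ζ.re)))
      (fun m => ?_) (Summable.div_const (om_summable_norm (by positivity)) _)
    calc ∫ u in Set.Ioi (1 : ℝ), ‖F m u‖ ≤
        ∫ u in Set.Ioi (1 : ℝ), u * Real.exp (-((w m).re * u ^ 2)) := by
          refine setIntegral_mono_on (hFi m).norm (dbl_int (hw0 m)).1 measurableSet_Ioi ?_
          exact fun u hu => hFb m u (le_of_lt hu)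
      _ = Real.exp (-(w m).re) / (2 * (w m).re) := (dbl_int (hw0 m)).2
      _ ≤ Real.exp (-(w m).re) / (2 * (Real.pi * ρ * ζ.re)) := by
          refine div_le_div_of_nonneg_left (Real.exp_nonneg _) (by positivity) ?_
          linarith [hge m]
      _ = _ := by
          rw [hw]
          congr 3
          ring
  have hpt : ∀ u : ℝ, 1 ≤ u → ∑' m, F m u = (u : ℂ) ^ (I * x - 1) * om ((ρ * u ^ 2 : ℝ) * ζ) := by
    intro u _
    unfold om
    rw [← tsum_mul_left]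
    refine tsum_congr (fun m => ?_)
    simp only [F, w]
    congr 2
    push_cast
    ring
  have key := hasSum_integral_of_summable_integral_norm hFi hFs
  rw [setIntegral_congr_fun measurableSet_Ioi (fun u hu => hpt u (le_of_lt hu))] at key
  have hsq : Summable fun m : ℕ => 1 / ((m : ℝ) + 1) ^ 2 := by
    have h := (summable_nat_add_iff 1).mpr (Real.summable_one_div_nat_pow.mpr (by norm_num : 1 < 2))
    refine h.congr (fun m => ?_)
    push_cast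
    rfl
  have hterm : ∀ m, ‖∫ u in Set.Ioi (1 : ℝ), F m u‖ ≤ C0 / ρ * (1 / ((m : ℝ) + 1) ^ 2) := by
    intro m
    have h3 := (hosc 1 x (w m) le_rfl hx hx2 (hw0 m)).2
    simp only [Nat.cast_one] at h3
    refine h3.trans ?_
    rw [hwn]
    have h4 : Real.exp (-(w m).re) ≤ 1 := Real.exp_le_one_iff.mpr (by linarith [hw0 m])
    have h5 : ((m : ℝ) + 1) ^ 2 * ρ ≤ Real.pi * ((m : ℝ) + 1) ^ 2 * ρ := by
      have : 0 < ((m : ℝ) + 1) ^ 2 * ρ := by positivity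
      nlinarith [Real.pi_gt_three]
    calc C0 * Real.exp (-(w m).re) / (Real.pi * ((m : ℝ) + 1) ^ 2 * ρ) ≤
        C0 * 1 / (((m : ℝ) + 1) ^ 2 * ρ) :=
          div_le_div₀ (by positivity) (mul_le_mul_of_nonneg_left h4 hC0.le) (by positivity) h5
      _ = _ := by field_simp
  constructor
  · have hom : ContinuousOn (fun u : ℝ => om ((ρ * u ^ 2 : ℝ) * ζ)) (Set.Ioi 1) := by
      refine om_diff.continuousOn.comp (by fun_prop) ?_
      intro u hu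
      have hu' : (1 : ℝ) < u := hu
      show 0 < (((ρ * u ^ 2 : ℝ) : ℂ) * ζ).re
      rw [Complex.re_ofReal_mul]
      positivity
    have hbd : ∀ u : ℝ, 1 ≤ u → ‖om ((ρ * u ^ 2 : ℝ) * ζ)‖ ≤
        (1 + 1 / Real.sqrt (ρ * ζ.re)) * Real.exp (-(Real.pi * (ρ * ζ.re) * u ^ 2)) := by
      intro u hu
      have hu2 : 1 ≤ u ^ 2 := by nlinarith
      have r1 : (((ρ * u ^ 2 : ℝ) : ℂ) * ζ).re = ρ * ζ.re * u ^ 2 := by
        rw [Complex.re_ofReal_mul]; ring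
      have h3 := om_norm_le (z := ((ρ * u ^ 2 : ℝ) : ℂ) * ζ) (by rw [r1]; positivity)
      rw [r1] at h3
      have h4 : Real.sqrt (ρ * ζ.re) ≤ Real.sqrt (ρ * ζ.re * u ^ 2) :=
        Real.sqrt_le_sqrt (le_mul_of_one_le_right (by positivity) hu2)
      have h5 : 0 < Real.sqrt (ρ * ζ.re) := Real.sqrt_pos.mpr (by positivity)
      have h6 : 1 / Real.sqrt (ρ * ζ.re * u ^ 2) ≤ 1 / Real.sqrt (ρ * ζ.re) :=
        one_div_le_one_div_of_le h5 h4
      calc _ ≤ Real.exp (-(Real.pi * (ρ * ζ.re * u ^ 2))) *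
            (1 + 1 / Real.sqrt (ρ * ζ.re * u ^ 2)) := h3
        _ ≤ Real.exp (-(Real.pi * (ρ * ζ.re * u ^ 2))) * (1 + 1 / Real.sqrt (ρ * ζ.re)) :=
          mul_le_mul_of_nonneg_left (by linarith) (Real.exp_nonneg _)
        _ = _ := by rw [mul_comm]; congr 2; ring
    have ha0 : 0 < Real.pi * (ρ * ζ.re) := by positivity
    refine Integrable.mono' ((dbl_int ha0).1.const_mul (1 + 1 / Real.sqrt (ρ * ζ.re))) ?_ ?_
    · exact ContinuousOn.aestronglyMeasurable (hcp.mul hom) measurableSet_Ioi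
    · refine (ae_restrict_mem measurableSet_Ioi).mono (fun u hu => ?_)
      have hu' : (1 : ℝ) ≤ u := le_of_lt hu
      rw [norm_mul]
      calc ‖(u : ℂ) ^ (I * x - 1)‖ * ‖om ((ρ * u ^ 2 : ℝ) * ζ)‖ ≤
          u * ((1 + 1 / Real.sqrt (ρ * ζ.re)) * Real.exp (-(Real.pi * (ρ * ζ.re) * u ^ 2))) :=
            mul_le_mul (hcpn u hu') (hbd u hu') (norm_nonneg _) (by linarith)
        _ = _ := by ring
  · have h7 := key.norm_le_of_bounded (hsq.hasSum.mul_left (C0 / ρ)) hterm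
    refine h7.trans ?_
    rw [add_div]
    have : 0 < 1 / ρ := by positivity
    calc C0 / ρ * ∑' m : ℕ, 1 / ((m : ℝ) + 1) ^ 2 = C0 * (∑' m : ℕ, 1 / ((m : ℝ) + 1) ^ 2) / ρ := by ring
      _ ≤ _ := by linarith

theorem cross : ∃ C : ℝ, 0 < C ∧ ∀ (d ρ : ℝ) (x : ℂ), 0 < d → d ≤ 1 / 2 → 0 < ρ → ‖x‖ ≤ 2 → |x.im| ≤ 1 / 4 →
    IntegrableOn (fun u : ℝ => (u : ℂ) ^ (I * x - 1) * om ((ρ * u ^ 2 : ℝ) * z0 d)) (Set.Ioi 1) ∧
    ‖∫ u in Set.Ioi (1 : ℝ), (u : ℂ) ^ (I * x - 1) * om ((ρ * u ^ 2 : ℝ) * z0 d)‖ ≤ C / ρ ∧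
    IntegrableOn (fun u : ℝ => (u : ℂ) ^ (I * x - 1) * (starRingEnd ℂ) (om ((ρ * u ^ 2 : ℝ) * z0 d)))
      (Set.Ioi 1) ∧
    ‖∫ u in Set.Ioi (1 : ℝ), (u : ℂ) ^ (I * x - 1) * (starRingEnd ℂ) (om ((ρ * u ^ 2 : ℝ) * z0 d))‖ ≤
      C / ρ := by
  obtain ⟨C, hC, h⟩ := cross_gen
  refine ⟨C, hC, ?_⟩
  intro d ρ x h0 h1 hρ hx hx2
  have hσ : 0 < Real.sin d := Real.sin_pos_of_pos_of_lt_pi h0 (by linarith [Real.pi_gt_three])
  obtain ⟨a1, a2⟩ := h ρ x (z0 d) hρ (by rw [z0_re]; exact hσ) (z0_norm d) hx hx2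
  obtain ⟨b1, b2⟩ := h ρ x ((starRingEnd ℂ) (z0 d)) hρ (by rw [Complex.conj_re, z0_re]; exact hσ)
    (by rw [RCLike.norm_conj]; exact z0_norm d) hx hx2
  have e : ∀ u : ℝ, (starRingEnd ℂ) (om ((ρ * u ^ 2 : ℝ) * z0 d)) =
      om ((ρ * u ^ 2 : ℝ) * (starRingEnd ℂ) (z0 d)) := by
    intro u
    rw [← om_conj, map_mul, Complex.conj_ofReal]
  simp only [e]
  exact ⟨a1, a2, b1, b2⟩

end Pool.Agent.H28.ZT
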