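import Pool.Agent.H28.ZT.OmFE

/-!
# GDEC (chapter A): symmetry, continuity and decay of `gg`

`‖z0 d‖ = 1`, `Re (z0 d) = sin d > 0`, `conj (z0 d) = 1 / z0 d`.
Symmetry: with `Z = exp (2y) / z0 d` (`Re Z > 0`): `om (exp (-2y) z0) = om (1/Z) = Z^(1/2) (om Z + 1/2) - 1/2`,
`Z^(1/2) = exp y · exp (-i(π/4 - d/2))` (principal branch, `|arg| < π`).  Hence
`gg d (-y) = 2 e^(i(π/8-d/4)) e^(-y/2) (e^y e^(-i(π/4-d/2)) om (e^(2y) conj z0) - 1/2)
 = 2 e^(-i(π/8-d/4)) e^(y/2) (om (e^(2y) conj z0) - e^(-y) e^(i(π/4-d/2))/2) = conj (gg d y)`.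
Decay: for `y ≥ 0`, `‖gg d y‖ ≤ 2 e^(y/2) (e^(-π e^(2y) sin d)(1 + 1/√(sin d)) + e^(-y)/2)`; `e^(-π σ u²) u ≤ C_σ` with
`u = e^y`.
-/

set_option autoImplicit false

namespace Pool.Agent.H28.ZT

open Complex

theorem z0_eq (d : ℝ) : z0 d = Complex.exp (((Real.pi / 2 - d : ℝ) : ℂ) * I) := by
  unfold z0
  rw [mul_comm]

theorem z0_re (d : ℝ) : (z0 d).re = Real.sin d := by
  rw [z0_eq, Complex.exp_ofReal_mul_I_re, Real.cos_pi_div_two_sub]

theorem z0_im (d : ℝ) : (z0 d).im = Real.cos d := by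
  rw [z0_eq, Complex.exp_ofReal_mul_I_im, Real.sin_pi_div_two_sub]

theorem z0_norm (d : ℝ) : ‖z0 d‖ = 1 := by
  rw [z0_eq, Complex.norm_exp_ofReal_mul_I]

theorem sin_pos_d {d : ℝ} (h0 : 0 < d) (h1 : d ≤ 1 / 2) : 0 < Real.sin d :=
  Real.sin_pos_of_pos_of_lt_pi h0 (by linarith [Real.pi_gt_three])

theorem gg_symm {d : ℝ} (h0 : 0 < d) (h1 : d ≤ 1 / 2) (y : ℝ) : gg d (-y) = (starRingEnd ℂ) (gg d y) := by
  have hpi := Real.pi_gt_three
  have hpi4 := Real.pi_lt_four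
  set al : ℝ := Real.pi / 8 - d / 4 with hal
  have hbe : Real.pi / 4 - d / 2 = 2 * al := by rw [hal]; ring
  -- the point `Z`
  set Z : ℂ := Complex.exp (((2 * y : ℝ) : ℂ) - ((4 * al : ℝ) : ℂ) * I) with hZ
  have hZlog : Complex.log Z = ((2 * y : ℝ) : ℂ) - ((4 * al : ℝ) : ℂ) * I := by
    rw [hZ]
    apply Complex.log_exp
    · simp
      rw [hal]
      linarith
    · simp
      rw [hal]
      linarith
  have hZ0 : Z ≠ 0 := Complex.exp_ne_zero _
  have hZh : Z ^ (1 / 2 : ℂ) = ((Real.exp y : ℝ) : ℂ) * Complex.exp (-(I * ((2 * al : ℝ) : ℂ))) := by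
    rw [Complex.cpow_def_of_ne_zero hZ0, hZlog, Complex.ofReal_exp, ← Complex.exp_add]
    congr 1
    push_cast
    ring
  have hconjz : (starRingEnd ℂ) (((Real.exp (2 * y) : ℝ) : ℂ) * z0 d) = Z := by
    rw [map_mul, Complex.conj_ofReal, z0_eq, ← Complex.exp_conj, hZ, Complex.ofReal_exp, ← Complex.exp_add]
    congr 1
    simp only [map_mul, Complex.conj_ofReal, Complex.conj_I]
    rw [hal]
    push_cast
    ring
  have hZre : 0 < Z.re := by
    rw [← hconjz, Complex.conj_re, Complex.re_ofReal_mul, z0_re]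
    have := sin_pos_d h0 h1
    positivity
  have hinv : ((Real.exp (2 * (-y)) : ℝ) : ℂ) * z0 d = 1 / Z := by
    rw [one_div, hZ, ← Complex.exp_neg, z0_eq, Complex.ofReal_exp, ← Complex.exp_add]
    congr 1
    rw [hal]
    push_cast
    ring
  have hfe := om_fe hZre
  have hom : om (((Real.exp (2 * (-y)) : ℝ) : ℂ) * z0 d) = Z ^ (1 / 2 : ℂ) * (om Z + 1 / 2) - 1 / 2 := by
    rw [hinv]
    linear_combination hfe
  have homc : (starRingEnd ℂ) (om (((Real.exp (2 * y) : ℝ) : ℂ) * z0 d)) = om Z := by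
    rw [← om_conj, hconjz]
  unfold gg
  rw [hbe, ← hal, hom, hZh]
  simp only [map_mul, map_sub, homc, Complex.conj_ofReal, ← Complex.exp_conj, map_neg, Complex.conj_I,
    map_ofNat, map_div₀, map_one]
  -- now everything is in terms of exponentials
  set E1 : ℂ := Complex.exp (I * ((al : ℝ) : ℂ)) with hE1
  set F1 : ℂ := Complex.exp (-I * ((al : ℝ) : ℂ)) with hF1
  have hEF : E1 * F1 = 1 := by
    rw [hE1, hF1, ← Complex.exp_add]
    rw [show I * ((al : ℝ) : ℂ) + -I * ((al : ℝ) : ℂ) = 0 by ring, Complex.exp_zero]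
  have hF2 : Complex.exp (-(I * ((2 * al : ℝ) : ℂ))) = F1 * F1 := by
    rw [hF1, ← Complex.exp_add]
    congr 1
    push_cast
    ring
  have hE2 : Complex.exp (-(-I * ((2 * al : ℝ) : ℂ))) = E1 * E1 := by
    rw [hE1, ← Complex.exp_add]
    congr 1
    push_cast
    ring
  set g : ℂ := ((Real.exp (y / 2) : ℝ) : ℂ) with hg
  set h : ℂ := ((Real.exp (-y / 2) : ℝ) : ℂ) with hh
  have hgh : g * h = 1 := by
    rw [hg, hh, ← Complex.ofReal_mul, ← Real.exp_add]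
    rw [show y / 2 + -y / 2 = 0 by ring, Real.exp_zero, Complex.ofReal_one]
  have hg2 : ((Real.exp y : ℝ) : ℂ) = g * g := by
    rw [hg, ← Complex.ofReal_mul, ← Real.exp_add]
    congr 2
    ring
  have hh2 : ((Real.exp (-y) : ℝ) : ℂ) = h * h := by
    rw [hh, ← Complex.ofReal_mul, ← Real.exp_add]
    congr 2
    ring
  have hg3 : ((Real.exp (-(-y)) : ℝ) : ℂ) = g * g := by
    rw [neg_neg, hg2]
  rw [hF2, hE2, hg3, hg2, hh2]
  have hprod : E1 * F1 * (g * h) = 1 := by rw [hEF, hgh, mul_one]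
  linear_combination (2 * F1 * g * om Z + h * E1) * hprod

theorem gg_cont {d : ℝ} (h0 : 0 < d) (h1 : d ≤ 1 / 2) : Continuous (gg d) := by
  have hs := sin_pos_d h0 h1
  have hom : Continuous fun y : ℝ => om (((Real.exp (2 * y) : ℝ) : ℂ) * z0 d) := by
    rw [continuous_iff_continuousAt]
    intro y
    have h2 : 0 < (((Real.exp (2 * y) : ℝ) : ℂ) * z0 d).re := by
      rw [Complex.re_ofReal_mul, z0_re]
      positivity
    have hopen : IsOpen {w : ℂ | 0 < w.re} := isOpen_lt continuous_const continuous_re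
    have h3 : ContinuousAt om (((Real.exp (2 * y) : ℝ) : ℂ) * z0 d) :=
      (om_diff.differentiableAt (hopen.mem_nhds h2)).continuousAt
    exact ContinuousAt.comp (f := fun y : ℝ => ((Real.exp (2 * y) : ℝ) : ℂ) * z0 d) h3
      (by fun_prop)
  unfold gg
  fun_prop

theorem gg_decay_pos {d : ℝ} (h0 : 0 < d) (h1 : d ≤ 1 / 2) {y : ℝ} (hy : 0 ≤ y) :
    ‖gg d y‖ ≤ (2 * (1 + 1 / Real.sqrt (Real.sin d)) / (Real.pi * Real.sin d) + 1) * Real.exp (-(y / 2)) := by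
  have hs := sin_pos_d h0 h1
  set s := Real.sin d with hsd
  have hss : 0 < Real.sqrt s := Real.sqrt_pos.2 hs
  have hre : (((Real.exp (2 * y) : ℝ) : ℂ) * z0 d).re = Real.exp (2 * y) * s := by
    rw [Complex.re_ofReal_mul, z0_re]
  have hu : 1 ≤ Real.exp (2 * y) := Real.one_le_exp (by linarith)
  have h2 := om_norm_le (z := ((Real.exp (2 * y) : ℝ) : ℂ) * z0 d) (by rw [hre]; positivity)
  rw [hre] at h2
  have h3 : Real.sqrt s ≤ Real.sqrt (Real.exp (2 * y) * s) := by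
    apply Real.sqrt_le_sqrt
    nlinarith
  have h4 : 1 / Real.sqrt (Real.exp (2 * y) * s) ≤ 1 / Real.sqrt s :=
    one_div_le_one_div_of_le hss h3
  have h5 : Real.exp (-(Real.pi * (Real.exp (2 * y) * s))) * Real.exp (2 * y) ≤ 1 / (Real.pi * s) := by
    have h6 : Real.pi * (Real.exp (2 * y) * s) ≤ Real.exp (Real.pi * (Real.exp (2 * y) * s)) := by
      have := Real.add_one_le_exp (Real.pi * (Real.exp (2 * y) * s))
      linarith
    rw [le_div_iff₀ (by positivity), Real.exp_neg]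
    rw [inv_mul_eq_div, div_mul_eq_mul_div, div_le_one (Real.exp_pos _)]
    calc Real.exp (2 * y) * (Real.pi * s) = Real.pi * (Real.exp (2 * y) * s) := by ring
      _ ≤ _ := h6
  have h7 : ‖om (((Real.exp (2 * y) : ℝ) : ℂ) * z0 d)‖ ≤
      (1 + 1 / Real.sqrt s) / (Real.pi * s) * Real.exp (-(2 * y)) := by
    refine h2.trans ?_
    have h8 : Real.exp (-(Real.pi * (Real.exp (2 * y) * s))) ≤ 1 / (Real.pi * s) * Real.exp (-(2 * y)) := by
      rw [Real.exp_neg (2 * y), ← div_eq_mul_inv, le_div_iff₀ (Real.exp_pos _)]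
      exact h5
    calc Real.exp (-(Real.pi * (Real.exp (2 * y) * s))) * (1 + 1 / Real.sqrt (Real.exp (2 * y) * s))
        ≤ (1 / (Real.pi * s) * Real.exp (-(2 * y))) * (1 + 1 / Real.sqrt s) := by
          apply mul_le_mul h8 (by linarith) (by positivity) (by positivity)
      _ = (1 + 1 / Real.sqrt s) / (Real.pi * s) * Real.exp (-(2 * y)) := by ring
  have e1 : ‖Complex.exp (I * ((Real.pi / 8 - d / 4 : ℝ) : ℂ))‖ = 1 := by
    rw [mul_comm, Complex.norm_exp_ofReal_mul_I]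
  have e2 : ‖Complex.exp (-(I * ((Real.pi / 4 - d / 2 : ℝ) : ℂ)))‖ = 1 := by
    rw [show -(I * ((Real.pi / 4 - d / 2 : ℝ) : ℂ)) = ((-(Real.pi / 4 - d / 2) : ℝ) : ℂ) * I by push_cast; ring,
      Complex.norm_exp_ofReal_mul_I]
  have h9 : ‖om (((Real.exp (2 * y) : ℝ) : ℂ) * z0 d) -
      (1 / 2 : ℂ) * ((Real.exp (-y) : ℝ) : ℂ) * Complex.exp (-(I * ((Real.pi / 4 - d / 2 : ℝ) : ℂ)))‖ ≤
      (1 + 1 / Real.sqrt s) / (Real.pi * s) * Real.exp (-(2 * y)) + 1 / 2 * Real.exp (-y) := by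
    refine (norm_sub_le _ _).trans (add_le_add h7 (le_of_eq ?_))
    rw [norm_mul, norm_mul, e2, Complex.norm_real, Real.norm_of_nonneg (Real.exp_pos _).le]
    norm_num
  unfold gg
  rw [norm_mul, norm_mul, norm_mul, e1, Complex.norm_real, Real.norm_of_nonneg (Real.exp_pos _).le]
  have h10 : ‖(2 : ℂ)‖ = 2 := by simp
  rw [h10]
  have h11 : Real.exp (y / 2) * Real.exp (-y) = Real.exp (-(y / 2)) := by
    rw [← Real.exp_add]
    congr 1
    ring
  have h12 : Real.exp (y / 2) * Real.exp (-(2 * y)) ≤ Real.exp (-(y / 2)) := by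
    rw [← Real.exp_add]
    apply Real.exp_le_exp.2
    linarith
  have hK : 0 ≤ (1 + 1 / Real.sqrt s) / (Real.pi * s) := by positivity
  calc 2 * 1 * Real.exp (y / 2) * ‖om (((Real.exp (2 * y) : ℝ) : ℂ) * z0 d) -
      (1 / 2 : ℂ) * ((Real.exp (-y) : ℝ) : ℂ) * Complex.exp (-(I * ((Real.pi / 4 - d / 2 : ℝ) : ℂ)))‖
      ≤ 2 * 1 * Real.exp (y / 2) *
        ((1 + 1 / Real.sqrt s) / (Real.pi * s) * Real.exp (-(2 * y)) + 1 / 2 * Real.exp (-y)) :=
        mul_le_mul_of_nonneg_left h9 (by positivity)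
    _ = 2 * ((1 + 1 / Real.sqrt s) / (Real.pi * s)) * (Real.exp (y / 2) * Real.exp (-(2 * y))) +
        Real.exp (y / 2) * Real.exp (-y) := by ring
    _ ≤ 2 * ((1 + 1 / Real.sqrt s) / (Real.pi * s)) * Real.exp (-(y / 2)) + Real.exp (-(y / 2)) := by
        rw [h11]
        have := mul_le_mul_of_nonneg_left h12 (show 0 ≤ 2 * ((1 + 1 / Real.sqrt s) / (Real.pi * s)) by linarith)
        linarith
    _ = (2 * (1 + 1 / Real.sqrt s) / (Real.pi * s) + 1) * Real.exp (-(y / 2)) := by ring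

theorem gg_decay {d : ℝ} (h0 : 0 < d) (h1 : d ≤ 1 / 2) :
    ∃ C : ℝ, 0 < C ∧ ∀ y : ℝ, ‖gg d y‖ ≤ C * Real.exp (-(|y| / 2)) := by
  have hs := sin_pos_d h0 h1
  refine ⟨2 * (1 + 1 / Real.sqrt (Real.sin d)) / (Real.pi * Real.sin d) + 1, by positivity, ?_⟩
  intro y
  rcases le_total 0 y with hy | hy
  · rw [abs_of_nonneg hy]
    exact gg_decay_pos h0 h1 hy
  · have h2 := gg_symm h0 h1 (-y)
    rw [neg_neg] at h2
    rw [abs_of_nonpos hy, h2, Complex.norm_conj]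
    exact gg_decay_pos h0 h1 (by linarith)

end Pool.Agent.H28.ZT
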