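import Mathlib

/-!
# OSC (chapter D): one integration by parts

`Re w > 0`, `|Im x| ≤ 1/4`, `‖x‖ ≤ 2`, `k ∈ {0, 1}`.  With `A = i x - k`:
`∫_1^∞ u^A e^(-w u²) du = (1/2w) e^(-w) + ((A-1)/2w) ∫_1^∞ u^(A-2) e^(-w u²) du`
(derivative of `u^(A-1) e^(-w u²)` is `(A-1) u^(A-2) e^(-w u²) - 2w u^A e^(-w u²)`), and
`‖u^(A-2)‖ ≤ u^(1/4-2)`, `‖e^(-w u²)‖ ≤ e^(-Re w)` for `u ≥ 1`.
-/

set_option autoImplicit false

namespace Pool.Agent.H28.ZT

open Complex MeasureTheory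

private theorem osc_norm (A w : ℂ) {u : ℝ} (hu : 1 ≤ u) :
    ‖(u : ℂ) ^ A * Complex.exp (-(w * (u : ℂ) ^ 2))‖ = u ^ A.re * Real.exp (-w.re * u ^ 2) := by
  rw [norm_mul, Complex.norm_cpow_eq_rpow_re_of_pos (by linarith), Complex.norm_exp]
  congr 2
  rw [← Complex.ofReal_pow, Complex.neg_re, Complex.mul_re, Complex.ofReal_im, Complex.ofReal_re]
  ring

private theorem osc_cont (A w : ℂ) :
    ContinuousOn (fun u : ℝ => (u : ℂ) ^ A * Complex.exp (-(w * (u : ℂ) ^ 2))) (Set.Ioi 1) := by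
  apply ContinuousOn.mul
  · intro u hu
    have hu' : (1 : ℝ) < u := hu
    refine (ContinuousAt.cpow Complex.continuous_ofReal.continuousAt continuousAt_const ?_
      ).continuousWithinAt
    exact Complex.ofReal_mem_slitPlane.2 (by linarith)
  · exact (by fun_prop : Continuous fun u : ℝ => Complex.exp (-(w * (u : ℂ) ^ 2))).continuousOn

private theorem osc_int (A w : ℂ) (hA : A.re ≤ 1 / 4) (hw : 0 < w.re) :
    IntegrableOn (fun u : ℝ => (u : ℂ) ^ A * Complex.exp (-(w * (u : ℂ) ^ 2))) (Set.Ioi 1) := by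
  have h1 : IntegrableOn (fun u : ℝ => u ^ (1 / 4 : ℝ) * Real.exp (-w.re * u ^ 2)) (Set.Ioi 1) :=
    (integrableOn_rpow_mul_exp_neg_mul_sq hw (by norm_num)).mono_set
      (Set.Ioi_subset_Ioi zero_le_one)
  refine Integrable.mono' h1 ((osc_cont A w).aestronglyMeasurable measurableSet_Ioi) ?_
  filter_upwards [ae_restrict_mem measurableSet_Ioi] with u hu
  have hu' : (1 : ℝ) < u := hu
  rw [osc_norm A w hu'.le]
  apply mul_le_mul_of_nonneg_right _ (Real.exp_pos _).le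
  exact Real.rpow_le_rpow_of_exponent_le hu'.le hA

private theorem osc_deriv (A w : ℂ) {u : ℝ} (hu : 1 ≤ u) :
    HasDerivAt (fun u : ℝ => (u : ℂ) ^ (A - 1) * Complex.exp (-(w * (u : ℂ) ^ 2)))
      ((A - 1) * ((u : ℂ) ^ (A - 2) * Complex.exp (-(w * (u : ℂ) ^ 2))) -
        2 * w * ((u : ℂ) ^ A * Complex.exp (-(w * (u : ℂ) ^ 2)))) u := by
  have hu0 : (u : ℂ) ≠ 0 := by
    rw [Ne, Complex.ofReal_eq_zero]
    linarith
  have h1 : HasDerivAt (fun z : ℂ => z ^ (A - 1)) ((A - 1) * (u : ℂ) ^ (A - 1 - 1)) (u : ℂ) := by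
    have := (hasDerivAt_id (u : ℂ)).cpow_const (c := A - 1)
      (Complex.ofReal_mem_slitPlane.2 (by linarith : 0 < u))
    simpa using this
  have h2 : HasDerivAt (fun z : ℂ => Complex.exp (-(w * z ^ 2)))
      (Complex.exp (-(w * (u : ℂ) ^ 2)) * (-(w * (2 * (u : ℂ))))) (u : ℂ) := by
    have h3 : HasDerivAt (fun z : ℂ => -(w * z ^ 2)) (-(w * (2 * (u : ℂ)))) (u : ℂ) := by
      have h0 := ((hasDerivAt_pow 2 (u : ℂ)).const_mul w).fun_neg
      refine h0.congr_deriv ?_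
      simp
    exact h3.cexp
  have h4 := (h1.mul h2).comp_ofReal
  refine h4.congr_deriv ?_
  have h5 : (u : ℂ) ^ A = (u : ℂ) ^ (A - 1) * u := by
    have h7 := Complex.cpow_add (A - 1) 1 hu0
    rw [Complex.cpow_one, sub_add_cancel] at h7
    exact h7
  have h6 : A - 1 - 1 = A - 2 := by ring
  rw [h6, h5]
  ring

private theorem osc_tend (A w : ℂ) (hA : A.re ≤ 1 / 4) (hw : 0 < w.re) :
    Filter.Tendsto (fun u : ℝ => (u : ℂ) ^ (A - 1) * Complex.exp (-(w * (u : ℂ) ^ 2)))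
      Filter.atTop (nhds 0) := by
  have h1 : Filter.Tendsto (fun u : ℝ => u ^ (-(3 / 4 : ℝ))) Filter.atTop (nhds 0) :=
    tendsto_rpow_neg_atTop (by norm_num)
  refine squeeze_zero_norm' ?_ h1
  filter_upwards [Filter.eventually_ge_atTop 1] with u hu
  rw [osc_norm (A - 1) w hu]
  have h2 : u ^ (A - 1).re ≤ u ^ (-(3 / 4 : ℝ)) := by
    apply Real.rpow_le_rpow_of_exponent_le hu
    rw [Complex.sub_re, Complex.one_re]
    linarith
  have h3 : Real.exp (-w.re * u ^ 2) ≤ 1 := by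
    rw [Real.exp_le_one_iff]
    have : 0 ≤ w.re * u ^ 2 := by positivity
    linarith
  calc u ^ (A - 1).re * Real.exp (-w.re * u ^ 2) ≤ u ^ (-(3 / 4 : ℝ)) * 1 :=
        mul_le_mul h2 h3 (Real.exp_pos _).le (Real.rpow_nonneg (by linarith) _)
    _ = _ := mul_one _

private theorem osc_bd (A w : ℂ) (hA : A.re ≤ 1 / 4) (hw : 0 < w.re) :
    ‖∫ u in Set.Ioi (1 : ℝ), (u : ℂ) ^ (A - 2) * Complex.exp (-(w * (u : ℂ) ^ 2))‖ ≤
      4 / 3 * Real.exp (-w.re) := by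
  have h1 : IntegrableOn (fun u : ℝ => u ^ (-(7 / 4) : ℝ)) (Set.Ioi 1) :=
    integrableOn_Ioi_rpow_of_lt (by norm_num) zero_lt_one
  have h2 : ‖∫ u in Set.Ioi (1 : ℝ), (u : ℂ) ^ (A - 2) * Complex.exp (-(w * (u : ℂ) ^ 2))‖ ≤
      ∫ u in Set.Ioi (1 : ℝ), u ^ (-(7 / 4) : ℝ) * Real.exp (-w.re) := by
    refine norm_integral_le_of_norm_le (h1.mul_const _) ?_
    filter_upwards [ae_restrict_mem measurableSet_Ioi] with u hu
    have hu' : (1 : ℝ) < u := hu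
    rw [osc_norm (A - 2) w hu'.le]
    apply mul_le_mul _ _ (Real.exp_pos _).le (Real.rpow_nonneg (by linarith) _)
    · apply Real.rpow_le_rpow_of_exponent_le hu'.le
      rw [Complex.sub_re]
      norm_num
      linarith
    · apply Real.exp_le_exp.2
      have h5 : 1 ≤ u ^ 2 := by nlinarith
      have h6 := mul_le_mul_of_nonneg_left h5 hw.le
      linarith
  refine h2.trans (le_of_eq ?_)
  rw [integral_mul_const, integral_Ioi_rpow_of_lt (by norm_num) zero_lt_one, Real.one_rpow]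
  norm_num

theorem osc : ∃ C : ℝ, 0 < C ∧ ∀ (k : ℕ) (x w : ℂ), k ≤ 1 → ‖x‖ ≤ 2 → |x.im| ≤ 1 / 4 → 0 < w.re →
    IntegrableOn (fun u : ℝ => (u : ℂ) ^ (I * x - (k : ℂ)) * Complex.exp (-(w * (u : ℂ) ^ 2))) (Set.Ioi 1) ∧
    ‖∫ u in Set.Ioi (1 : ℝ), (u : ℂ) ^ (I * x - (k : ℂ)) * Complex.exp (-(w * (u : ℂ) ^ 2))‖ ≤
      C * Real.exp (-w.re) / ‖w‖ := by
  refine ⟨4, by norm_num, ?_⟩
  intro k x w hk hx hxi hw
  have hA : (I * x - (k : ℂ)).re ≤ 1 / 4 := by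
    have h1 : (I * x - (k : ℂ)).re = - x.im - k := by
      simp
    rw [h1]
    have h2 := (abs_le.1 hxi).1
    have h3 : (0 : ℝ) ≤ k := Nat.cast_nonneg k
    linarith
  have hA1 : ‖(I * x - (k : ℂ)) - 1‖ ≤ 4 := by
    have h1 : ‖(I * x - (k : ℂ)) - 1‖ ≤ ‖I * x‖ + ‖(k : ℂ)‖ + ‖(1 : ℂ)‖ :=
      (norm_sub_le _ _).trans (add_le_add (norm_sub_le _ _) le_rfl)
    rw [norm_mul, Complex.norm_I, one_mul, Complex.norm_natCast, norm_one] at h1
    have h2 : (k : ℝ) ≤ 1 := by exact_mod_cast hk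
    linarith
  generalize hAdef : I * x - (k : ℂ) = A at *
  have hint := osc_int A w hA hw
  refine ⟨hint, ?_⟩
  have hint2 := osc_int (A - 2) w (by rw [Complex.sub_re]; norm_num; linarith) hw
  have key := integral_Ioi_of_hasDerivAt_of_tendsto'
    (f := fun u : ℝ => (u : ℂ) ^ (A - 1) * Complex.exp (-(w * (u : ℂ) ^ 2)))
    (f' := fun u : ℝ => (A - 1) * ((u : ℂ) ^ (A - 2) * Complex.exp (-(w * (u : ℂ) ^ 2))) -
        2 * w * ((u : ℂ) ^ A * Complex.exp (-(w * (u : ℂ) ^ 2)))) (a := 1)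
    (fun u hu => osc_deriv A w hu) ((hint2.const_mul (A - 1)).sub (hint.const_mul (2 * w)))
    (osc_tend A w hA hw)
  rw [integral_sub (hint2.const_mul (A - 1)) (hint.const_mul (2 * w)),
    integral_const_mul, integral_const_mul] at key
  simp only [Complex.ofReal_one, Complex.one_cpow, one_pow, mul_one, one_mul, zero_sub] at key
  have hw0 : w ≠ 0 := by
    rintro rfl
    simp at hw
  have hwn : 0 < ‖w‖ := norm_pos_iff.2 hw0
  have h1 : 2 * w * (∫ u in Set.Ioi (1 : ℝ), (u : ℂ) ^ A * Complex.exp (-(w * (u : ℂ) ^ 2))) =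
      (A - 1) * (∫ u in Set.Ioi (1 : ℝ), (u : ℂ) ^ (A - 2) * Complex.exp (-(w * (u : ℂ) ^ 2))) +
        Complex.exp (-w) := by
    linear_combination -key
  have h2 := congrArg norm h1
  rw [norm_mul, norm_mul, Complex.norm_ofNat] at h2
  have h3 : ‖(A - 1) * (∫ u in Set.Ioi (1 : ℝ), (u : ℂ) ^ (A - 2) *
      Complex.exp (-(w * (u : ℂ) ^ 2))) + Complex.exp (-w)‖ ≤
      4 * (4 / 3 * Real.exp (-w.re)) + Real.exp (-w.re) := by
    refine (norm_add_le _ _).trans ?_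
    rw [norm_mul, Complex.norm_exp, Complex.neg_re]
    have h4 := mul_le_mul hA1 (osc_bd A w hA hw) (norm_nonneg _) (by norm_num)
    linarith
  rw [← h2] at h3
  rw [le_div_iff₀ hwn]
  have h5 := (Real.exp_pos (-w.re)).le
  nlinarith

end Pool.Agent.H28.ZT
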