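import Pool.Agent.H28.ZT.Om
import Pool.Agent.H28.ZT.GDec
import Pool.Agent.H28.ZT.Osc

/-!
# DBL (chapter D): the product of two rotated theta functions as a double series

`om (α u² z0) conj (om (β u² z0)) = ∑_{m,n ≥ 1} exp (-π u² (m² α z0 + n² β conj z0))` (`z0 = z0 d`; absolutely convergent, terms of
absolute value `exp (-π u² sin d (m² α + n² β))`).  Integrated over `u > 1` with the factor `u^(ix)`, `‖u^(ix)‖ ≤ u^(1/4)`:
`hasSum_integral_of_summable_integral_norm`; `∑ ∫_1^∞ u^(1/4) exp (-π u² sin d (m² α + n² β)) du < ∞`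
(`u^(1/4) ≤ u` and `∫_1^∞ u e^(-κu²) du = e^(-κ)/(2κ)`).
-/

set_option autoImplicit false

namespace Pool.Agent.H28.ZT

open Complex MeasureTheory Filter Topology

/-- the exponent, `p = (m-1, n-1)` -/
noncomputable def wd (d α β : ℝ) (p : ℕ × ℕ) : ℂ :=
  (Real.pi : ℂ) * ((((p.1 : ℝ) + 1) ^ 2 * α : ℝ) * z0 d + (((p.2 : ℝ) + 1) ^ 2 * β : ℝ) * (starRingEnd ℂ) (z0 d))

theorem wd_re (d α β : ℝ) (p : ℕ × ℕ) :
    (wd d α β p).re = Real.pi * (((p.1 : ℝ) + 1) ^ 2 * α + ((p.2 : ℝ) + 1) ^ 2 * β) * Real.sin d := by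
  unfold wd
  rw [Complex.re_ofReal_mul, Complex.add_re, Complex.re_ofReal_mul, Complex.re_ofReal_mul,
    Complex.conj_re, z0_re]
  ring

theorem wd_im (d α β : ℝ) (p : ℕ × ℕ) :
    (wd d α β p).im = Real.pi * (((p.1 : ℝ) + 1) ^ 2 * α - ((p.2 : ℝ) + 1) ^ 2 * β) * Real.cos d := by
  unfold wd
  rw [Complex.im_ofReal_mul, Complex.add_im, Complex.im_ofReal_mul, Complex.im_ofReal_mul,
    Complex.conj_im, z0_im]
  ring

theorem dbl_int {a : ℝ} (ha : 0 < a) :
    IntegrableOn (fun u : ℝ => u * Real.exp (-(a * u ^ 2))) (Set.Ioi 1) ∧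
    ∫ u in Set.Ioi (1 : ℝ), u * Real.exp (-(a * u ^ 2)) = Real.exp (-a) / (2 * a) := by
  have hint : IntegrableOn (fun u : ℝ => u * Real.exp (-(a * u ^ 2))) (Set.Ioi 1) := by
    have h := (integrable_mul_exp_neg_mul_sq ha).integrableOn (s := Set.Ioi (1 : ℝ))
    simpa [neg_mul] using h
  refine ⟨hint, ?_⟩
  have hd : ∀ u ∈ Set.Ici (1 : ℝ), HasDerivAt (fun u => -(Real.exp (-(a * u ^ 2)) / (2 * a)))
      (u * Real.exp (-(a * u ^ 2))) u := by
    intro u _
    have h1 : HasDerivAt (fun u : ℝ => -(a * u ^ 2)) (-(a * (2 * u))) u := by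
      have := ((hasDerivAt_pow 2 u).const_mul a).neg
      norm_num at this
      exact this
    refine ((h1.exp.div_const (2 * a)).neg).congr_deriv ?_
    field_simp
  have ht : Tendsto (fun u : ℝ => -(Real.exp (-(a * u ^ 2)) / (2 * a))) atTop (𝓝 0) := by
    have h3 : Tendsto (fun u : ℝ => a * u ^ 2) atTop atTop :=
      (tendsto_pow_atTop (by norm_num)).const_mul_atTop ha
    have h4 := (Real.tendsto_exp_neg_atTop_nhds_zero.comp h3).div_const (2 * a)
    simpa [Function.comp_def] using h4.neg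
  rw [integral_Ioi_of_hasDerivAt_of_tendsto' hd hint ht]
  simp

theorem dbl_cpow {u : ℝ} (hu : 1 ≤ u) {x : ℂ} (hx2 : |x.im| ≤ 1 / 4) :
    ‖(u : ℂ) ^ (I * x)‖ ≤ u := by
  rw [Complex.norm_cpow_eq_rpow_re_of_pos (by linarith)]
  have h : (I * x).re ≤ 1 := by
    have := abs_le.mp hx2
    simp only [Complex.mul_re, Complex.I_re, Complex.I_im, zero_mul, one_mul, zero_sub]
    linarith
  calc u ^ (I * x).re ≤ u ^ (1 : ℝ) := Real.rpow_le_rpow_of_exponent_le hu h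
    _ = u := Real.rpow_one u

theorem dbl_exp (w : ℂ) (u : ℝ) :
    ‖Complex.exp (-(w * (u : ℂ) ^ 2))‖ = Real.exp (-(w.re * u ^ 2)) := by
  rw [Complex.norm_exp]
  congr 1
  rw [Complex.neg_re]
  have : ((u : ℂ) ^ 2) = ((u ^ 2 : ℝ) : ℂ) := by push_cast; ring
  rw [this, Complex.re_mul_ofReal]

theorem dbl {d α β : ℝ} {x : ℂ} (h0 : 0 < d) (h1 : d ≤ 1 / 2) (hα : 0 < α) (hβ : 0 < β)
    (hx : ‖x‖ ≤ 2) (hx2 : |x.im| ≤ 1 / 4) :
    IntegrableOn (fun u : ℝ => (u : ℂ) ^ (I * x) * om ((α * u ^ 2 : ℝ) * z0 d) *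
      (starRingEnd ℂ) (om ((β * u ^ 2 : ℝ) * z0 d))) (Set.Ioi 1) ∧
    HasSum (fun p : ℕ × ℕ => ∫ u in Set.Ioi (1 : ℝ), (u : ℂ) ^ (I * x) * Complex.exp (-(wd d α β p * (u : ℂ) ^ 2)))
      (∫ u in Set.Ioi (1 : ℝ), (u : ℂ) ^ (I * x) * om ((α * u ^ 2 : ℝ) * z0 d) *
        (starRingEnd ℂ) (om ((β * u ^ 2 : ℝ) * z0 d))) := by
  have hπ := Real.pi_pos
  have hσ : 0 < Real.sin d := Real.sin_pos_of_pos_of_lt_pi h0 (by linarith [Real.pi_gt_three])
  set σ := Real.sin d with hσd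
  -- positivity of the real parts
  have hre : ∀ p : ℕ × ℕ, Real.pi * σ * (α + β) ≤ (wd d α β p).re := by
    intro p
    rw [wd_re]
    have h2 : (1 : ℝ) ≤ ((p.1 : ℝ) + 1) ^ 2 := by
      have : (0 : ℝ) ≤ p.1 := Nat.cast_nonneg _
      nlinarith
    have h3 : (1 : ℝ) ≤ ((p.2 : ℝ) + 1) ^ 2 := by
      have : (0 : ℝ) ≤ p.2 := Nat.cast_nonneg _
      nlinarith
    have h4 : α + β ≤ ((p.1 : ℝ) + 1) ^ 2 * α + ((p.2 : ℝ) + 1) ^ 2 * β := by nlinarith
    calc Real.pi * σ * (α + β) ≤ Real.pi * σ * (((p.1 : ℝ) + 1) ^ 2 * α + ((p.2 : ℝ) + 1) ^ 2 * β) :=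
          mul_le_mul_of_nonneg_left h4 (by positivity)
      _ = _ := by ring
  have ha0 : 0 < Real.pi * σ * (α + β) := by positivity
  have hre0 : ∀ p, 0 < (wd d α β p).re := fun p => ha0.trans_le (hre p)
  let F : ℕ × ℕ → ℝ → ℂ := fun p u => (u : ℂ) ^ (I * x) * Complex.exp (-(wd d α β p * (u : ℂ) ^ 2))
  have hFb : ∀ p, ∀ u : ℝ, 1 ≤ u → ‖F p u‖ ≤ u * Real.exp (-((wd d α β p).re * u ^ 2)) := by
    intro p u hu
    simp only [F]
    rw [norm_mul, dbl_exp]
    exact mul_le_mul_of_nonneg_right (dbl_cpow hu hx2) (Real.exp_nonneg _)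
  have hcp : ContinuousOn (fun u : ℝ => (u : ℂ) ^ (I * x)) (Set.Ioi 1) := by
    intro u hu
    have hu' : (1 : ℝ) < u := hu
    refine ContinuousAt.continuousWithinAt ?_
    refine ContinuousAt.cpow Complex.continuous_ofReal.continuousAt continuousAt_const ?_
    exact Or.inl (by simp; linarith)
  have hFm : ∀ p, AEStronglyMeasurable (F p) (volume.restrict (Set.Ioi 1)) := by
    intro p
    refine ContinuousOn.aestronglyMeasurable ?_ measurableSet_Ioi
    exact hcp.mul (by fun_prop)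
  have hFi : ∀ p, Integrable (F p) (volume.restrict (Set.Ioi 1)) := by
    intro p
    refine Integrable.mono' (dbl_int (hre0 p)).1 (hFm p) ?_
    exact (ae_restrict_mem measurableSet_Ioi).mono (fun u hu => hFb p u (le_of_lt hu))
  have hFn : ∀ p, ∫ u in Set.Ioi (1 : ℝ), ‖F p u‖ ≤
      Real.exp (-(wd d α β p).re) / (2 * (Real.pi * σ * (α + β))) := by
    intro p
    calc ∫ u in Set.Ioi (1 : ℝ), ‖F p u‖ ≤
        ∫ u in Set.Ioi (1 : ℝ), u * Real.exp (-((wd d α β p).re * u ^ 2)) := by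
          refine setIntegral_mono_on (hFi p).norm (dbl_int (hre0 p)).1 measurableSet_Ioi ?_
          exact fun u hu => hFb p u (le_of_lt hu)
      _ = Real.exp (-(wd d α β p).re) / (2 * (wd d α β p).re) := (dbl_int (hre0 p)).2
      _ ≤ _ := by
          refine div_le_div_of_nonneg_left (Real.exp_nonneg _) (by positivity) ?_
          linarith [hre p]
  have hFs : Summable fun p => ∫ u in Set.Ioi (1 : ℝ), ‖F p u‖ := by
    have h2 := (om_summable_norm (x := α * σ) (by positivity)).mul_of_nonneg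
      (om_summable_norm (x := β * σ) (by positivity)) (fun _ => (Real.exp_nonneg _))
      (fun _ => (Real.exp_nonneg _))
    refine Summable.of_nonneg_of_le (fun p => integral_nonneg (fun _ => norm_nonneg _)) hFn ?_
    refine Summable.div_const ?_ _
    refine h2.congr (fun p => ?_)
    rw [← Real.exp_add, wd_re]
    congr 1
    ring
  -- the pointwise sum
  have hpt : ∀ u : ℝ, 1 ≤ u → ∑' p, F p u = (u : ℂ) ^ (I * x) * om ((α * u ^ 2 : ℝ) * z0 d) *
      (starRingEnd ℂ) (om ((β * u ^ 2 : ℝ) * z0 d)) := by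
    intro u hu
    have hu2 : 0 < u ^ 2 := by positivity
    have r1 : 0 < (((α * u ^ 2 : ℝ) : ℂ) * z0 d).re := by
      rw [Complex.re_ofReal_mul, z0_re]; positivity
    have r2 : 0 < ((starRingEnd ℂ) (((β * u ^ 2 : ℝ) : ℂ) * z0 d)).re := by
      rw [Complex.conj_re, Complex.re_ofReal_mul, z0_re]; positivity
    rw [← om_conj, mul_assoc]
    unfold om
    rw [tsum_mul_tsum_of_summable_norm (om_summable r1).norm (om_summable r2).norm, ← tsum_mul_left]
    refine tsum_congr (fun p => ?_)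
    simp only [F]
    rw [← Complex.exp_add]
    congr 2
    unfold wd
    rw [map_mul, Complex.conj_ofReal]
    push_cast
    ring
  have key := hasSum_integral_of_summable_integral_norm hFi hFs
  have hpt' : ∫ u in Set.Ioi (1 : ℝ), ∑' p, F p u = ∫ u in Set.Ioi (1 : ℝ),
      (u : ℂ) ^ (I * x) * om ((α * u ^ 2 : ℝ) * z0 d) *
      (starRingEnd ℂ) (om ((β * u ^ 2 : ℝ) * z0 d)) :=
    setIntegral_congr_fun measurableSet_Ioi (fun u hu => hpt u (le_of_lt hu))
  rw [hpt'] at key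
  refine ⟨?_, key⟩
  -- integrability
  have hom : ∀ γ : ℝ, 0 < γ → ContinuousOn (fun u : ℝ => om ((γ * u ^ 2 : ℝ) * z0 d)) (Set.Ioi 1) := by
    intro γ hγ
    refine om_diff.continuousOn.comp (by fun_prop) ?_
    intro u hu
    have hu' : (1 : ℝ) < u := hu
    show 0 < (((γ * u ^ 2 : ℝ) : ℂ) * z0 d).re
    rw [Complex.re_ofReal_mul, z0_re]
    positivity
  have hbd : ∀ γ : ℝ, 0 < γ → ∀ u : ℝ, 1 ≤ u → ‖om ((γ * u ^ 2 : ℝ) * z0 d)‖ ≤
      (1 + 1 / Real.sqrt (γ * σ)) * Real.exp (-(Real.pi * (γ * σ) * u ^ 2)) := by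
    intro γ hγ u hu
    have hu2 : 1 ≤ u ^ 2 := by nlinarith
    have r1 : (((γ * u ^ 2 : ℝ) : ℂ) * z0 d).re = γ * σ * u ^ 2 := by
      rw [Complex.re_ofReal_mul, z0_re]; ring
    have h3 := om_norm_le (z := ((γ * u ^ 2 : ℝ) : ℂ) * z0 d) (by rw [r1]; positivity)
    rw [r1] at h3
    have h4 : Real.sqrt (γ * σ) ≤ Real.sqrt (γ * σ * u ^ 2) :=
      Real.sqrt_le_sqrt (le_mul_of_one_le_right (by positivity) hu2)
    have h5 : 0 < Real.sqrt (γ * σ) := Real.sqrt_pos.mpr (by positivity)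
    have h6 : 1 / Real.sqrt (γ * σ * u ^ 2) ≤ 1 / Real.sqrt (γ * σ) :=
      one_div_le_one_div_of_le h5 h4
    calc _ ≤ Real.exp (-(Real.pi * (γ * σ * u ^ 2))) * (1 + 1 / Real.sqrt (γ * σ * u ^ 2)) := h3
      _ ≤ Real.exp (-(Real.pi * (γ * σ * u ^ 2))) * (1 + 1 / Real.sqrt (γ * σ)) :=
        mul_le_mul_of_nonneg_left (by linarith) (Real.exp_nonneg _)
      _ = _ := by rw [mul_comm]; congr 2; ring
  refine Integrable.mono' ((dbl_int ha0).1.const_mul ((1 + 1 / Real.sqrt (α * σ)) *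
    (1 + 1 / Real.sqrt (β * σ)))) ?_ ?_
  · refine ContinuousOn.aestronglyMeasurable ?_ measurableSet_Ioi
    exact (hcp.mul (hom α hα)).mul (Complex.continuous_conj.comp_continuousOn (hom β hβ))
  · refine (ae_restrict_mem measurableSet_Ioi).mono (fun u hu => ?_)
    have hu' : (1 : ℝ) ≤ u := le_of_lt hu
    rw [norm_mul, norm_mul, RCLike.norm_conj]
    have b1 := hbd α hα u hu'
    have b2 := hbd β hβ u hu'
    have b3 := dbl_cpow hu' hx2
    have c1 : 0 ≤ (1 + 1 / Real.sqrt (α * σ)) * Real.exp (-(Real.pi * (α * σ) * u ^ 2)) := by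
      positivity
    calc ‖(u : ℂ) ^ (I * x)‖ * ‖om ((α * u ^ 2 : ℝ) * z0 d)‖ * ‖om ((β * u ^ 2 : ℝ) * z0 d)‖ ≤
        u * ((1 + 1 / Real.sqrt (α * σ)) * Real.exp (-(Real.pi * (α * σ) * u ^ 2))) *
          ((1 + 1 / Real.sqrt (β * σ)) * Real.exp (-(Real.pi * (β * σ) * u ^ 2))) := by
          refine mul_le_mul (mul_le_mul b3 b1 (norm_nonneg _) (by linarith)) b2 (norm_nonneg _) ?_
          exact mul_nonneg (by linarith) c1
      _ = (1 + 1 / Real.sqrt (α * σ)) * (1 + 1 / Real.sqrt (β * σ)) *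
          (u * Real.exp (-(Real.pi * σ * (α + β) * u ^ 2))) := by
          have e1 : Real.exp (-(Real.pi * σ * (α + β) * u ^ 2)) =
              Real.exp (-(Real.pi * (α * σ) * u ^ 2)) * Real.exp (-(Real.pi * (β * σ) * u ^ 2)) := by
            rw [← Real.exp_add]
            congr 1
            ring
          rw [e1]
          ring

end Pool.Agent.H28.ZT
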