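import Mathlib

/-!
# ZT: definitions for the unconditional lower bound `L(T) ≥ c (log T)^(1/4)` (MP_925da8_nt)

Text: proofs, id 365.  `T` large, `d = 1/T`, `L = log T`.
* `om z = ∑_{m ≥ 1} exp (-π m² z)`, `z0 d = exp (i (π/2 - d))`;
* `FF d w = exp ((π/4 - d/2) w) Λ(1/2 + i w)` (`Λ` = `completedRiemannZeta`), real for real `w`;
* `gg d` with `FF d w = ∫ gg d y exp (i y w) dy` (module FRep);
* `np n w = n^w` (as `exp (w log n)`), `DD s a c t = ∑_{i ∈ s} a_i c_i^(-1/2 - i t)`;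
* `KK d w w' s a c = ∫ FF d (t+w) conj (FF d (t+w')) |DD s a c t|² dt`;
* `GW`: the Fourier side of `FF d (t+w) DD(t)`;
* `Ei s ξ = ∫_1^∞ x^(iξ) ∑_{g ≥ 1} exp (-g² s² x²) dx`;
* `AA J P V`: the admissible finite sets `S` of primes (`S ⊆ ⋃ P j`, at most `V j` elements in the block `P j`),
  `pr S = ∏ p ∈ S, p`, `BB A t = ∑_{S ∈ A} (-1/2)^|S| (pr S)^(-1/2 - i t)`, `EE A = ∑_{S ∈ A} (1/4)^|S| / pr S`;
* `s3, a3, c3`: the Dirichlet polynomial `BB A (t+v 0) BB A (t+v 1) BB A (t+v 2)` as a `DD`;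
* `SA, SC`: the two arithmetic sums; `Blk`: the properties of the blocks.
-/

set_option autoImplicit false

namespace Pool.Agent.H28.ZT

open Complex

noncomputable def om (z : ℂ) : ℂ := ∑' m : ℕ, Complex.exp (-((Real.pi : ℂ) * ((m : ℂ) + 1) ^ 2 * z))

noncomputable def z0 (d : ℝ) : ℂ := Complex.exp (I * ((Real.pi / 2 - d : ℝ) : ℂ))

noncomputable def FF (d : ℝ) (w : ℂ) : ℂ :=
  Complex.exp (((Real.pi / 4 - d / 2 : ℝ) : ℂ) * w) * completedRiemannZeta (1 / 2 + I * w)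

noncomputable def gg (d : ℝ) (y : ℝ) : ℂ :=
  2 * Complex.exp (I * ((Real.pi / 8 - d / 4 : ℝ) : ℂ)) * ((Real.exp (y / 2) : ℝ) : ℂ) *
    (om (((Real.exp (2 * y) : ℝ) : ℂ) * z0 d) -
      (1 / 2 : ℂ) * ((Real.exp (-y) : ℝ) : ℂ) * Complex.exp (-(I * ((Real.pi / 4 - d / 2 : ℝ) : ℂ))))

noncomputable def np (n : ℕ) (w : ℂ) : ℂ := Complex.exp (w * ((Real.log (n : ℝ) : ℝ) : ℂ))

noncomputable def DD {ι : Type} (s : Finset ι) (a : ι → ℂ) (c : ι → ℕ) (t : ℝ) : ℂ :=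
  ∑ i ∈ s, a i * np (c i) (-(1 / 2) - I * (t : ℂ))

noncomputable def KK {ι : Type} (d : ℝ) (w w' : ℂ) (s : Finset ι) (a : ι → ℂ) (c : ι → ℕ) : ℂ :=
  ∫ t : ℝ, FF d ((t : ℂ) + w) * (starRingEnd ℂ) (FF d ((t : ℂ) + w')) * ((‖DD s a c t‖ ^ 2 : ℝ) : ℂ)

noncomputable def GW {ι : Type} (d : ℝ) (w : ℂ) (s : Finset ι) (a : ι → ℂ) (c : ι → ℕ) (y : ℝ) : ℂ :=
  ∑ i ∈ s, a i * np (c i) (-(1 / 2)) * gg d (y + Real.log (c i : ℝ)) *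
    Complex.exp (I * ((y + Real.log (c i : ℝ) : ℝ) : ℂ) * w)

noncomputable def Ei (s : ℝ) (x : ℂ) : ℂ :=
  ∫ u in Set.Ioi (1 : ℝ), (u : ℂ) ^ (I * x) *
    ((∑' g : ℕ, Real.exp (-(((g : ℝ) + 1) ^ 2 * s ^ 2 * u ^ 2)) : ℝ) : ℂ)

/-- `τ = √(2π sin d)` -/
noncomputable def tau (d : ℝ) : ℝ := Real.sqrt (2 * Real.pi * Real.sin d)

/-- first arithmetic sum -/
noncomputable def SA {ι : Type} (w w' : ℂ) (s : Finset ι) (a : ι → ℂ) (c : ι → ℕ) (y : ℂ) : ℂ :=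
  ∑ i ∈ s, ∑ j ∈ s, a i * (starRingEnd ℂ) (a j) * np (c i) (I * w) * np (c j) (-(I * (starRingEnd ℂ) w')) *
    np (Nat.lcm (c i) (c j)) (-1 - I * y)

/-- second arithmetic sum -/
noncomputable def SC {ι : Type} (w w' : ℂ) (s : Finset ι) (a : ι → ℂ) (c : ι → ℕ) (y : ℂ) : ℂ :=
  ∑ i ∈ s, ∑ j ∈ s, a i * (starRingEnd ℂ) (a j) * np (c i) (I * w) * np (c j) (-(I * (starRingEnd ℂ) w')) *
    (np (Nat.lcm (c i) (c j)) (-1) * np (Nat.gcd (c i) (c j)) (-(I * y)))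

def AA (J : ℕ) (P : ℕ → Finset ℕ) (V : ℕ → ℕ) : Finset (Finset ℕ) :=
  (((Finset.range J).biUnion P).powerset).filter (fun S => ∀ j ∈ Finset.range J, (S ∩ P j).card ≤ V j)

def pr (S : Finset ℕ) : ℕ := ∏ p ∈ S, p

noncomputable def BB (A : Finset (Finset ℕ)) (t : ℝ) : ℂ :=
  ∑ S ∈ A, (-(1 / 2 : ℂ)) ^ S.card * np (pr S) (-(1 / 2) - I * (t : ℂ))

noncomputable def EE (A : Finset (Finset ℕ)) : ℝ := ∑ S ∈ A, (1 / 4 : ℝ) ^ S.card / (pr S : ℝ)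

/-- index set of the product of three copies of `BB` -/
def s3 (A : Finset (Finset ℕ)) : Finset (Fin 3 → Finset ℕ) := Fintype.piFinset (fun _ : Fin 3 => A)

noncomputable def a3 (v : Fin 3 → ℝ) (f : Fin 3 → Finset ℕ) : ℂ :=
  ∏ k : Fin 3, (-(1 / 2 : ℂ)) ^ (f k).card * np (pr (f k)) (-(I * ((v k : ℝ) : ℂ)))

def c3 (f : Fin 3 → Finset ℕ) : ℕ := ∏ k : Fin 3, pr (f k)

/-- The properties of the blocks `P j` (`j < J`) of primes `≤ T^kap` and of the numbers `V j`. -/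
structure Blk (K kap T : ℝ) (J : ℕ) (P : ℕ → Finset ℕ) (V : ℕ → ℕ) : Prop where
  disj : ∀ i < J, ∀ j < J, i ≠ j → Disjoint (P i) (P j)
  un : (Finset.range J).biUnion P =
    (Finset.Icc 1 ⌊Real.exp (kap * Real.log T)⌋₊).filter Nat.Prime
  eps : ∃ e : ℕ → ℝ, (∀ j < J, Real.exp (-((V j : ℝ) + 1)) *
      Real.exp (K * ∑ p ∈ P j, 1 / (p : ℝ)) ≤ e j) ∧ ∑ j ∈ Finset.range J, e j ≤ 1 / 4
  len : ∀ S ∈ AA J P V, (pr S : ℝ) ≤ T ^ (1 / 1000 : ℝ)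

end Pool.Agent.H28.ZT
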