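import Pool.Agent.H28.ZT.Full

/-!
# TRUNC (chapter E): Rankin's truncation

`SS_full` - (truncated sum) is the sum over the families with some `|f k| ≥ V + 1`; for these
`∑_{p ∈ Q} |u p| = ∑_k |f k| ≥ V + 1` (`u p = {k : p ∈ f k}`, double counting), so the absolute value of the term is
`≤ e^(-(V+1)) ∏_p e^|u p| ‖φ p (u p)‖`; extend the sum to all families and use `SS_full` for the function `e^|u| ‖φ p u‖`
(as a complex function; real nonnegative values).
-/

set_option autoImplicit false

namespace Pool.Agent.H28.ZT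

open Complex

theorem SS_trunc {κ : Type} [Fintype κ] [DecidableEq κ] (Q : Finset ℕ) (V : ℕ) (φ : ℕ → Finset κ → ℂ) :
    ‖SS (Q.powerset.filter (fun S => S.card ≤ V)) Q φ - ∏ p ∈ Q, ∑ u : Finset κ, φ p u‖ ≤
      Real.exp (-((V : ℝ) + 1)) * ∏ p ∈ Q, ∑ u : Finset κ, Real.exp (u.card : ℝ) * ‖φ p u‖ := by
  rw [← SS_full]
  have hfull := SS_full Q (fun p (u : Finset κ) => ((Real.exp (u.card : ℝ) * ‖φ p u‖ : ℝ) : ℂ))
  have hreal : ∏ p ∈ Q, ∑ u : Finset κ, Real.exp (u.card : ℝ) * ‖φ p u‖ =
      ∑ f ∈ Fintype.piFinset (fun _ : κ => Q.powerset), ∏ p ∈ Q,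
        (Real.exp (((Finset.univ.filter (fun k => p ∈ f k)).card : ℕ) : ℝ) *
          ‖φ p (Finset.univ.filter (fun k => p ∈ f k))‖) := by
    unfold SS at hfull
    apply Complex.ofReal_injective
    rw [Complex.ofReal_prod, Complex.ofReal_sum]
    simp_rw [Complex.ofReal_prod, Complex.ofReal_sum]
    exact hfull.symm
  rw [hreal]
  unfold SS
  have hsub : Fintype.piFinset (fun _ : κ => Q.powerset.filter (fun S => S.card ≤ V)) ⊆
      Fintype.piFinset (fun _ : κ => Q.powerset) := by
    intro f hf
    rw [Fintype.mem_piFinset] at hf ⊢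
    intro k
    exact (Finset.mem_filter.1 (hf k)).1
  rw [← Finset.sum_sdiff hsub, sub_add_eq_sub_sub_swap, sub_self, zero_sub, norm_neg]
  refine (norm_sum_le _ _).trans ?_
  rw [Finset.mul_sum]
  calc ∑ f ∈ Fintype.piFinset (fun _ : κ => Q.powerset) \
        Fintype.piFinset (fun _ : κ => Q.powerset.filter (fun S => S.card ≤ V)),
        ‖∏ p ∈ Q, φ p (Finset.univ.filter (fun k => p ∈ f k))‖
      ≤ ∑ f ∈ Fintype.piFinset (fun _ : κ => Q.powerset) \
        Fintype.piFinset (fun _ : κ => Q.powerset.filter (fun S => S.card ≤ V)),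
        Real.exp (-((V : ℝ) + 1)) * ∏ p ∈ Q,
        (Real.exp (((Finset.univ.filter (fun k => p ∈ f k)).card : ℕ) : ℝ) *
          ‖φ p (Finset.univ.filter (fun k => p ∈ f k))‖) := by
        refine Finset.sum_le_sum fun f hf => ?_
        rw [Finset.mem_sdiff, Fintype.mem_piFinset, Fintype.mem_piFinset] at hf
        obtain ⟨h1, h2⟩ := hf
        push Not at h2
        obtain ⟨k0, hk0⟩ := h2
        have h3 : V + 1 ≤ (f k0).card := by
          rw [Finset.mem_filter] at hk0
          by_contra hlt
          exact hk0 ⟨h1 k0, by omega⟩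
        have h4 : ∑ p ∈ Q, (Finset.univ.filter (fun k => p ∈ f k)).card = ∑ k, (f k).card := by
          have e1 : ∀ p ∈ Q, (Finset.univ.filter (fun k => p ∈ f k)).card =
              ∑ k, if p ∈ f k then 1 else 0 := by
            intro p _
            rw [Finset.card_filter]
          rw [Finset.sum_congr rfl e1, Finset.sum_comm]
          refine Finset.sum_congr rfl fun k _ => ?_
          rw [← Finset.card_filter]
          congr 1
          ext p
          rw [Finset.mem_filter]
          constructor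
          · exact fun h => h.2
          · exact fun h => ⟨Finset.mem_powerset.1 (h1 k) h, h⟩
        have h5 : (f k0).card ≤ ∑ k, (f k).card :=
          Finset.single_le_sum (f := fun k => (f k).card) (fun k _ => Nat.zero_le _) (Finset.mem_univ k0)
        have h6 : (V : ℝ) + 1 ≤ ∑ p ∈ Q, (((Finset.univ.filter (fun k => p ∈ f k)).card : ℕ) : ℝ) := by
          rw [← h4] at h5
          exact_mod_cast h3.trans h5
        rw [norm_prod, Finset.prod_mul_distrib, ← Real.exp_sum, ← mul_assoc, ← Real.exp_add]
        have h7 : 1 ≤ Real.exp (-((V : ℝ) + 1) +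
            ∑ p ∈ Q, (((Finset.univ.filter (fun k => p ∈ f k)).card : ℕ) : ℝ)) := by
          rw [Real.one_le_exp_iff]
          linarith
        exact le_mul_of_one_le_left (Finset.prod_nonneg fun p _ => norm_nonneg _) h7
    _ ≤ _ := by
        refine Finset.sum_le_sum_of_subset_of_nonneg Finset.sdiff_subset fun f _ _ => ?_
        refine mul_nonneg (Real.exp_pos _).le (Finset.prod_nonneg fun p _ => ?_)
        exact mul_nonneg (Real.exp_pos _).le (norm_nonneg _)

end Pool.Agent.H28.ZT
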