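import Pool.Agent.H28.ZT.Blkf
import Pool.Agent.H28.ZT.Trunc
import Pool.Agent.H75.AP.MertensB

/-!
# EEB (chapter E): `EE ≍ (log T)^(1/4)`

`EE (AA J P V) = SS (AA J P V) U φ` with `κ = Unit`, `φ p ∅ = 1`, `φ p {()} = 1/(4p)` (the elements of `U` are primes, `Blk.un`).
Upper bound: all terms nonnegative, `≤ ∏_{p ∈ PZ} (1 + 1/(4p)) ≤ exp ((1/4) ∑ 1/p) ≤ C (log z)^(1/4)`
(`H75.AP.mertens_upper`, `PI 0 z` is the set of the primes `≤ z`, `log z = kap log T`).
Lower bound: each block is `≥ F_j - e^(-(V_j+1)) ∏_{p ∈ P j} (1 + e/(4p)) ≥ F_j (1 - e_j)` with `F_j = ∏ (1 + 1/(4p)) ≥ 1`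
(FULL; `K = 1`: `∏ (1 + e/(4p)) ≤ exp (∑ 1/p)`), `∏ (1 - e_j) ≥ 1 - ∑ e_j ≥ 3/4` (`0 ≤ e_j ≤ 1/4`), and
`∏_{p ∈ PZ} (1 + 1/(4p)) ≥ exp (∑ (1/(4p) - 1/(32p²)))`, `H75.AP.mertens_low`.
-/

set_option autoImplicit false

namespace Pool.Agent.H28.ZT

open Complex
open Pool.Agent.H75.AP (PI mertens_upper mertens_low)
open Pool.Agent.H75.AP.MertB (mem_PI)

private noncomputable def ph (p : ℕ) (u : Finset Unit) : ℂ := if u = ∅ then 1 else ((1 / (4 * (p : ℝ)) : ℝ) : ℂ)

private noncomputable def ee (Q : Finset (Finset ℕ)) : ℝ := ∑ S ∈ Q, ∏ p ∈ S, 1 / (4 * (p : ℝ))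

private theorem sum_unit (F : Finset Unit → ℂ) : ∑ u, F u = F ∅ + F {()} := by
  have h : (Finset.univ : Finset (Finset Unit)) = {∅, {()}} := by decide
  rw [h, Finset.sum_pair (by decide)]

private theorem ss_ee (A : Finset (Finset ℕ)) (U : Finset ℕ) (hA : ∀ S ∈ A, S ⊆ U) :
    SS A U ph = ((ee A : ℝ) : ℂ) := by
  unfold SS ee
  rw [Complex.ofReal_sum]
  refine Finset.sum_nbij' (fun f => f ()) (fun S => fun _ => S) ?_ ?_ ?_ ?_ ?_
  · intro f hf
    rw [Fintype.mem_piFinset] at hf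
    exact hf ()
  · intro S hS
    rw [Fintype.mem_piFinset]
    exact fun _ => hS
  · intro f _
    rfl
  · intro S _
    rfl
  · intro f hf
    rw [Fintype.mem_piFinset] at hf
    rw [Complex.ofReal_prod]
    have h1 : ∀ p ∈ U, ph p (Finset.univ.filter (fun k : Unit => p ∈ f k)) =
        if p ∈ f () then ((1 / (4 * (p : ℝ)) : ℝ) : ℂ) else 1 := by
      intro p _
      unfold ph
      by_cases h : p ∈ f ()
      · rw [if_pos h, if_neg]
        intro h0
        have : (() : Unit) ∈ (Finset.univ.filter (fun k : Unit => p ∈ f k)) := by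
          rw [Finset.mem_filter]
          exact ⟨Finset.mem_univ _, h⟩
        rw [h0] at this
        exact absurd this (Finset.notMem_empty _)
      · rw [if_neg h, if_pos]
        rw [Finset.filter_eq_empty_iff]
        intro k _
        exact h
    rw [Finset.prod_congr rfl h1, Finset.prod_ite_mem, Finset.inter_eq_right.2 (hA _ (hf ()))]

private theorem ee_full (Q : Finset ℕ) : ee Q.powerset = ∏ p ∈ Q, (1 + 1 / (4 * (p : ℝ))) := by
  unfold ee
  rw [Finset.prod_one_add]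

private theorem ee_le (Q : Finset ℕ) (A : Finset (Finset ℕ)) (h : ∀ S ∈ A, S ⊆ Q) :
    ee A ≤ ∏ p ∈ Q, (1 + 1 / (4 * (p : ℝ))) := by
  rw [← ee_full]
  unfold ee
  refine Finset.sum_le_sum_of_subset_of_nonneg ?_ fun S _ _ => Finset.prod_nonneg fun p _ => by positivity
  intro S hS
  exact Finset.mem_powerset.2 (h S hS)

private theorem ee_trunc (Q : Finset ℕ) (hQ : ∀ p ∈ Q, p.Prime) (V : ℕ) :
    ∏ p ∈ Q, (1 + 1 / (4 * (p : ℝ))) - Real.exp (-((V : ℝ) + 1)) * Real.exp (1 * ∑ p ∈ Q, 1 / (p : ℝ)) ≤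
      ee (Q.powerset.filter (fun S => S.card ≤ V)) := by
  have h1 := SS_trunc Q V ph
  rw [ss_ee _ Q (fun S hS => Finset.mem_powerset.1 (Finset.mem_filter.1 hS).1)] at h1
  have h2 : ∏ p ∈ Q, ∑ u : Finset Unit, ph p u = ((∏ p ∈ Q, (1 + 1 / (4 * (p : ℝ))) : ℝ) : ℂ) := by
    rw [Complex.ofReal_prod]
    refine Finset.prod_congr rfl fun p _ => ?_
    rw [sum_unit]
    unfold ph
    rw [if_pos rfl, if_neg (Finset.singleton_ne_empty _)]
    push_cast
    rfl
  rw [h2, ← Complex.ofReal_sub, Complex.norm_real, Real.norm_eq_abs] at h1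
  have h3 : ∏ p ∈ Q, ∑ u : Finset Unit, Real.exp (u.card : ℝ) * ‖ph p u‖ ≤
      Real.exp (1 * ∑ p ∈ Q, 1 / (p : ℝ)) := by
    rw [one_mul, Real.exp_sum]
    refine Finset.prod_le_prod (fun p _ => Finset.sum_nonneg fun u _ => by positivity) fun p hp => ?_
    have hp0 : (0 : ℝ) < p := by exact_mod_cast (hQ p hp).pos
    have h : (Finset.univ : Finset (Finset Unit)) = {∅, {()}} := by decide
    rw [h, Finset.sum_pair (by decide)]
    unfold ph
    rw [if_pos rfl, if_neg (Finset.singleton_ne_empty _), Finset.card_empty, Finset.card_singleton,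
      Nat.cast_zero, Real.exp_zero, norm_one, Nat.cast_one, Complex.norm_real, Real.norm_eq_abs,
      abs_of_pos (by positivity)]
    have h4 : Real.exp 1 * (1 / (4 * (p : ℝ))) ≤ 1 / (p : ℝ) := by
      have h5 : Real.exp 1 ≤ 4 := by linarith [Real.exp_one_lt_d9]
      calc Real.exp 1 * (1 / (4 * (p : ℝ))) ≤ 4 * (1 / (4 * (p : ℝ))) := by gcongr
        _ = 1 / (p : ℝ) := by field_simp
    have h5 := Real.add_one_le_exp (1 / (p : ℝ))
    linarith
  have h4 := (abs_le.1 h1).1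
  have h5 : Real.exp (-((V : ℝ) + 1)) * ∏ p ∈ Q, ∑ u : Finset Unit, Real.exp (u.card : ℝ) * ‖ph p u‖ ≤
      Real.exp (-((V : ℝ) + 1)) * Real.exp (1 * ∑ p ∈ Q, 1 / (p : ℝ)) :=
    mul_le_mul_of_nonneg_left h3 (Real.exp_pos _).le
  linarith

private theorem prod_sub (n : ℕ) (e : ℕ → ℝ) (h0 : ∀ j < n, 0 ≤ e j) (h1 : ∀ j < n, e j ≤ 1) :
    1 - ∑ j ∈ Finset.range n, e j ≤ ∏ j ∈ Finset.range n, (1 - e j) := by
  induction n with
  | zero => simp
  | succ n ih =>
    rw [Finset.sum_range_succ, Finset.prod_range_succ]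
    have ih' := ih (fun j hj => h0 j (by omega)) (fun j hj => h1 j (by omega))
    have a0 := h0 n (by omega)
    have a1 := h1 n (by omega)
    have hp : ∏ j ∈ Finset.range n, (1 - e j) ≤ 1 := by
      refine Finset.prod_le_one (fun j hj => ?_) fun j hj => ?_
      · have := h1 j (by have := Finset.mem_range.1 hj; omega)
        linarith
      · have := h0 j (by have := Finset.mem_range.1 hj; omega)
        linarith
    nlinarith

private theorem sq_sum (Q : Finset ℕ) : ∑ p ∈ Q, 1 / (p : ℝ) ^ 2 ≤ 2 := by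
  have h1 : Summable (fun n : ℕ => 1 / (n : ℝ) ^ 2) :=
    Real.summable_one_div_nat_pow.2 (by norm_num)
  have h2 := h1.sum_le_tsum Q (fun n _ => by positivity)
  have h3 : ∑' n : ℕ, 1 / (n : ℝ) ^ 2 = Real.pi ^ 2 / 6 := hasSum_zeta_two.tsum_eq
  rw [h3] at h2
  have hpi := Real.pi_lt_d2
  have hpi0 := Real.pi_pos
  have : Real.pi ^ 2 / 6 ≤ 2 := by nlinarith
  linarith

private theorem low_exp (y : ℝ) (hy : 0 ≤ y) : Real.exp (y - y ^ 2) ≤ 1 + y := by
  have h1 := Real.one_sub_le_exp_neg (y / (1 + y))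
  have h2 : 1 - y / (1 + y) = 1 / (1 + y) := by
    field_simp
    ring
  rw [h2, Real.exp_neg, ← one_div, one_div_le_one_div (by positivity) (Real.exp_pos _)] at h1
  refine le_trans (Real.exp_le_exp.2 ?_) h1
  rw [le_div_iff₀ (by positivity)]
  nlinarith [pow_nonneg hy 3]

theorem EE_bounds (kap : ℝ) (h0 : 0 < kap) (h1 : kap ≤ 1) : ∃ c C T0 : ℝ, 0 < c ∧ 0 < C ∧ 1 < T0 ∧
    ∀ (T : ℝ) (J : ℕ) (P : ℕ → Finset ℕ) (V : ℕ → ℕ), T0 ≤ T → Blk 1 kap T J P V →
      c * (Real.log T) ^ (1 / 4 : ℝ) ≤ EE (AA J P V) ∧ EE (AA J P V) ≤ C * (Real.log T) ^ (1 / 4 : ℝ) := by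
  obtain ⟨C1, hC1, hup⟩ := mertens_upper
  obtain ⟨C2, hC2, hlow⟩ := mertens_low
  refine ⟨3 / 4 * (Real.exp (-(1 / 4 * C2) - 1 / 8) * kap ^ (1 / 4 : ℝ)), Real.exp (1 / 4 * C1),
    Real.exp (2 / kap), by positivity, by positivity, Real.one_lt_exp_iff.2 (by positivity),
    fun T J P V hT hB => ?_⟩
  have hT0 : 0 < T := lt_of_lt_of_le (Real.exp_pos _) hT
  have hL : 2 / kap ≤ Real.log T := by
    rw [Real.le_log_iff_exp_le hT0]
    exact hT
  have hkL : 2 ≤ kap * Real.log T := by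
    rw [div_le_iff₀ h0] at hL
    linarith
  have hL0 : 0 < Real.log T := lt_of_lt_of_le (by positivity) hL
  set z : ℝ := Real.exp (kap * Real.log T) with hz
  have hz3 : 3 ≤ z := by
    have e1 : Real.exp 2 ≤ z := Real.exp_le_exp.2 hkL
    have e2 := Real.add_one_le_exp (2 : ℝ)
    linarith
  have hlogz : Real.log z = kap * Real.log T := Real.log_exp _
  have hU : (Finset.range J).biUnion P = PI 0 z := by
    rw [hB.un]
    ext p
    rw [Finset.mem_filter, Finset.mem_Icc, mem_PI (le_refl 0), Nat.le_floor_iff (by linarith)]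
    constructor
    · rintro ⟨⟨_, h2⟩, h3⟩
      exact ⟨h3, by exact_mod_cast h3.pos, h2⟩
    · rintro ⟨h1, _, h3⟩
      exact ⟨⟨h1.pos, h3⟩, h1⟩
  have hprime : ∀ p ∈ (Finset.range J).biUnion P, p.Prime := by
    intro p hp
    rw [hB.un, Finset.mem_filter] at hp
    exact hp.2
  have hsub : ∀ S ∈ AA J P V, S ⊆ (Finset.range J).biUnion P := by
    intro S hS
    unfold AA at hS
    exact Finset.mem_powerset.1 (Finset.mem_filter.1 hS).1
  have hEE : EE (AA J P V) = ee (AA J P V) := by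
    unfold EE ee
    refine Finset.sum_congr rfl fun S hS => ?_
    unfold pr
    rw [Nat.cast_prod, ← Finset.prod_const, ← Finset.prod_div_distrib]
    refine Finset.prod_congr rfl fun p hp => ?_
    have hp0 : (0 : ℝ) < p := by exact_mod_cast (hprime p (hsub S hS hp)).pos
    field_simp
  have hblk : ee (AA J P V) = ∏ j ∈ Finset.range J,
      ee ((P j).powerset.filter (fun S => S.card ≤ V j)) := by
    have h2 := SS_blk J P V hB.disj ph
    rw [ss_ee _ _ hsub] at h2
    have h3 : ∀ j ∈ Finset.range J, SS ((P j).powerset.filter (fun S => S.card ≤ V j)) (P j) ph =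
        ((ee ((P j).powerset.filter (fun S => S.card ≤ V j)) : ℝ) : ℂ) := fun j _ =>
      ss_ee _ _ (fun S hS => Finset.mem_powerset.1 (Finset.mem_filter.1 hS).1)
    rw [Finset.prod_congr rfl h3, ← Complex.ofReal_prod] at h2
    exact_mod_cast h2
  set F : ℝ := ∏ p ∈ (Finset.range J).biUnion P, (1 + 1 / (4 * (p : ℝ))) with hF
  have hupE : ee (AA J P V) ≤ F := ee_le _ _ hsub
  have hlowE : 3 / 4 * F ≤ ee (AA J P V) := by
    obtain ⟨e, he1, he2⟩ := hB.eps
    have he0 : ∀ j < J, 0 ≤ e j := fun j hj => le_trans (by positivity) (he1 j hj)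
    have he3 : ∀ j < J, e j ≤ 1 := by
      intro j hj
      have := Finset.single_le_sum (f := e) (fun i hi => he0 i (Finset.mem_range.1 hi))
        (Finset.mem_range.2 hj)
      linarith
    have hF1 : F = ∏ j ∈ Finset.range J, ∏ p ∈ P j, (1 + 1 / (4 * (p : ℝ))) := by
      rw [hF, Finset.prod_biUnion]
      intro i hi j hj hij
      exact hB.disj i (Finset.mem_range.1 hi) j (Finset.mem_range.1 hj) hij
    have hF0 : ∀ j ∈ Finset.range J, 1 ≤ ∏ p ∈ P j, (1 + 1 / (4 * (p : ℝ))) := by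
      intro j _
      have h1 := Finset.prod_le_prod (s := P j) (f := fun _ => (1 : ℝ))
        (g := fun p : ℕ => 1 + 1 / (4 * (p : ℝ))) (fun _ _ => by norm_num) (fun p _ => by
          have : (0 : ℝ) ≤ 1 / (4 * (p : ℝ)) := by positivity
          linarith)
      simpa using h1
    rw [hblk]
    calc 3 / 4 * F ≤ (∏ j ∈ Finset.range J, (1 - e j)) * F := by
          have h2 := prod_sub J e he0 he3
          have h3 : 0 ≤ F := Finset.prod_nonneg fun p _ => by positivity
          nlinarith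
      _ = ∏ j ∈ Finset.range J, ((1 - e j) * ∏ p ∈ P j, (1 + 1 / (4 * (p : ℝ)))) := by
          rw [hF1, Finset.prod_mul_distrib]
      _ ≤ ∏ j ∈ Finset.range J, ee ((P j).powerset.filter (fun S => S.card ≤ V j)) := by
          refine Finset.prod_le_prod (fun j hj => ?_) fun j hj => ?_
          · have a1 := he3 j (Finset.mem_range.1 hj)
            have a2 := hF0 j hj
            exact mul_nonneg (by linarith) (by linarith)
          · have h2 := ee_trunc (P j) (fun p hp => hprime p (Finset.mem_biUnion.2 ⟨j, hj, hp⟩)) (V j)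
            have h3 := he1 j (Finset.mem_range.1 hj)
            have a1 := hF0 j hj
            have a2 := he0 j (Finset.mem_range.1 hj)
            nlinarith
  have hlogpos : 0 < Real.log z := by
    rw [hlogz]
    linarith
  have hpow : Real.exp (1 / 4 * Real.log (Real.log z)) = (kap * Real.log T) ^ (1 / 4 : ℝ) := by
    rw [mul_comm, Real.exp_mul, Real.exp_log hlogpos, hlogz]
  rw [hEE]
  constructor
  · refine le_trans ?_ hlowE
    have h2 := hlow z hz3
    have h3 : Real.exp (-(1 / 4 * C2) - 1 / 8) * (kap * Real.log T) ^ (1 / 4 : ℝ) ≤ F := by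
      rw [← hpow, ← Real.exp_add]
      have h4 : Real.exp (∑ p ∈ (Finset.range J).biUnion P, (1 / (4 * (p : ℝ)) - (1 / (4 * (p : ℝ))) ^ 2)) ≤ F := by
        rw [hF, Real.exp_sum]
        refine Finset.prod_le_prod (fun p _ => (Real.exp_pos _).le) fun p _ => ?_
        exact low_exp _ (by positivity)
      refine le_trans (Real.exp_le_exp.2 ?_) h4
      have h5 : ∑ p ∈ (Finset.range J).biUnion P, (1 / (4 * (p : ℝ)) - (1 / (4 * (p : ℝ))) ^ 2) =
          1 / 4 * ∑ p ∈ (Finset.range J).biUnion P, 1 / (p : ℝ) -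
            1 / 16 * ∑ p ∈ (Finset.range J).biUnion P, 1 / (p : ℝ) ^ 2 := by
        rw [Finset.mul_sum, Finset.mul_sum, ← Finset.sum_sub_distrib]
        refine Finset.sum_congr rfl fun p _ => ?_
        ring
      rw [h5, hU]
      have h6 := sq_sum (PI 0 z)
      linarith
    rw [Real.mul_rpow h0.le hL0.le] at h3
    calc 3 / 4 * (Real.exp (-(1 / 4 * C2) - 1 / 8) * kap ^ (1 / 4 : ℝ)) * (Real.log T) ^ (1 / 4 : ℝ) =
          3 / 4 * (Real.exp (-(1 / 4 * C2) - 1 / 8) * (kap ^ (1 / 4 : ℝ) * (Real.log T) ^ (1 / 4 : ℝ))) := by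
          ring
      _ ≤ 3 / 4 * F := mul_le_mul_of_nonneg_left h3 (by norm_num)
  · refine hupE.trans ?_
    have h2 := hup z hz3
    have h3 : F ≤ Real.exp (1 / 4 * ∑ p ∈ (Finset.range J).biUnion P, 1 / (p : ℝ)) := by
      rw [hF, Finset.mul_sum, Real.exp_sum]
      refine Finset.prod_le_prod (fun p _ => by positivity) fun p _ => ?_
      have h4 := Real.add_one_le_exp (1 / 4 * (1 / (p : ℝ)))
      have h5 : 1 / (4 * (p : ℝ)) = 1 / 4 * (1 / (p : ℝ)) := by ring
      rw [h5]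
      linarith
    refine h3.trans ?_
    rw [hU]
    calc Real.exp (1 / 4 * ∑ p ∈ PI 0 z, 1 / (p : ℝ))
        ≤ Real.exp (1 / 4 * C1 + 1 / 4 * Real.log (Real.log z)) := Real.exp_le_exp.2 (by linarith)
      _ = Real.exp (1 / 4 * C1) * (kap * Real.log T) ^ (1 / 4 : ℝ) := by
          rw [Real.exp_add, hpow]
      _ ≤ Real.exp (1 / 4 * C1) * (Real.log T) ^ (1 / 4 : ℝ) := by
          refine mul_le_mul_of_nonneg_left ?_ (Real.exp_pos _).le
          refine Real.rpow_le_rpow (by positivity) ?_ (by norm_num)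
          nlinarith

end Pool.Agent.H28.ZT
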