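import Mathlib

/-!
# KAP (chapter D): `κ(u) = (2u/√π) ∑_{g ≥ 1} e^(-g²u²)`

`u > 0`: the function `x -> e^(-x²u²)` decreases, so `∫_0^∞ - 1 ≤ ∑_{g≥1} e^(-g²u²) ≤ ∫_0^∞ = √π/(2u)`: `|κ(u) - 1| ≤ (2/√π) u ≤ 2u`.
`u ≥ 1`: `e^(-g²u²) ≤ e^(-u²) e^(-(g²-1)) ≤ e^(-u²) 2^(-(g-1))`: `κ(u) ≤ 4 u e^(-u²)`.  Continuous on `u > 0`.
-/

set_option autoImplicit false

namespace Pool.Agent.H28.ZT

noncomputable def kap0 (u : ℝ) : ℝ :=
  2 * u / Real.sqrt Real.pi * ∑' g : ℕ, Real.exp (-(((g : ℝ) + 1) ^ 2 * u ^ 2))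

theorem kap_geo {c : ℝ} (hc : 0 < c) : Summable fun g : ℕ => Real.exp (-(((g : ℝ) + 1) ^ 2 * c)) := by
  have h1 : Summable fun m : ℕ => Real.exp (-c) ^ m :=
    summable_geometric_of_lt_one (Real.exp_pos _).le (by rw [Real.exp_lt_one_iff]; linarith)
  refine Summable.of_nonneg_of_le (fun m => (Real.exp_pos _).le) (fun m => ?_) h1
  rw [← Real.exp_nat_mul]
  apply Real.exp_le_exp.2
  have hm : (0 : ℝ) ≤ m := Nat.cast_nonneg m
  nlinarith [mul_nonneg hm hc.le, mul_nonneg (mul_nonneg hm hm) hc.le]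

theorem kap_summable {u : ℝ} (hu : 0 < u) : Summable fun g : ℕ => Real.exp (-(((g : ℝ) + 1) ^ 2 * u ^ 2)) :=
  kap_geo (by positivity)

theorem kap_nonneg {u : ℝ} (hu : 0 < u) : 0 ≤ kap0 u := by
  unfold kap0
  have : 0 ≤ ∑' g : ℕ, Real.exp (-(((g : ℝ) + 1) ^ 2 * u ^ 2)) := tsum_nonneg fun g => (Real.exp_pos _).le
  positivity

theorem kap_anti {u : ℝ} (hu : 0 < u) (s : Set ℝ) (hs : s ⊆ Set.Ici 0) :
    AntitoneOn (fun x : ℝ => Real.exp (-(u ^ 2) * x ^ 2)) s := by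
  intro x hx y hy hxy
  apply Real.exp_le_exp.2
  have h1 : x ^ 2 ≤ y ^ 2 := pow_le_pow_left₀ (hs hx) hxy 2
  nlinarith [sq_nonneg u]

theorem kap_gauss {u : ℝ} (hu : 0 < u) :
    ∫ x in Set.Ioi (0 : ℝ), Real.exp (-(u ^ 2) * x ^ 2) = Real.sqrt Real.pi / (2 * u) := by
  rw [integral_gaussian_Ioi, Real.sqrt_div' _ (sq_nonneg u), Real.sqrt_sq hu.le]
  field_simp

theorem kap_up {u : ℝ} (hu : 0 < u) :
    ∑' g : ℕ, Real.exp (-(((g : ℝ) + 1) ^ 2 * u ^ 2)) ≤ Real.sqrt Real.pi / (2 * u) := by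
  apply Summable.tsum_le_of_sum_range_le (kap_summable hu)
  intro N
  have h1 := (kap_anti hu (Set.Icc (0 : ℝ) (0 + (N : ℝ))) (fun x hx => hx.1)).sum_le_integral
  have h2 : ∫ x in (0 : ℝ)..(0 + (N : ℝ)), Real.exp (-(u ^ 2) * x ^ 2) ≤
      ∫ x in Set.Ioi (0 : ℝ), Real.exp (-(u ^ 2) * x ^ 2) := by
    rw [intervalIntegral.integral_of_le (by simp)]
    apply MeasureTheory.setIntegral_mono_set
    · exact (integrable_exp_neg_mul_sq (by positivity)).integrableOn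
    · exact Filter.Eventually.of_forall fun x => (Real.exp_pos _).le
    · exact Filter.Eventually.of_forall (fun x hx => hx.1)
  rw [kap_gauss hu] at h2
  refine le_trans (le_of_eq ?_) (h1.trans h2)
  apply Finset.sum_congr rfl
  intro m _
  congr 1
  push_cast
  ring

theorem kap_low {u : ℝ} (hu : 0 < u) :
    Real.sqrt Real.pi / (2 * u) - 1 ≤ ∑' g : ℕ, Real.exp (-(((g : ℝ) + 1) ^ 2 * u ^ 2)) := by
  have hi : MeasureTheory.IntegrableOn (fun x : ℝ => Real.exp (-(u ^ 2) * x ^ 2)) (Set.Ioi 0) :=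
    (integrable_exp_neg_mul_sq (by positivity)).integrableOn
  have ht : Filter.Tendsto (fun N : ℕ => ∫ x in (0 : ℝ)..(N : ℝ), Real.exp (-(u ^ 2) * x ^ 2)) Filter.atTop
      (nhds (∫ x in Set.Ioi (0 : ℝ), Real.exp (-(u ^ 2) * x ^ 2))) :=
    MeasureTheory.intervalIntegral_tendsto_integral_Ioi 0 hi tendsto_natCast_atTop_atTop
  rw [kap_gauss hu] at ht
  have h1 : ∀ N : ℕ, ∫ x in (0 : ℝ)..(N : ℝ), Real.exp (-(u ^ 2) * x ^ 2) ≤
      1 + ∑' g : ℕ, Real.exp (-(((g : ℝ) + 1) ^ 2 * u ^ 2)) := by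
    intro N
    have h2 := (kap_anti hu (Set.Icc (0 : ℝ) (0 + (N : ℝ))) (fun x hx => hx.1)).integral_le_sum
    have h3 : ∑ i ∈ Finset.range N, Real.exp (-(u ^ 2) * (0 + (i : ℝ)) ^ 2) ≤
        1 + ∑' g : ℕ, Real.exp (-(((g : ℝ) + 1) ^ 2 * u ^ 2)) := by
      have h4 : ∑ i ∈ Finset.range N, Real.exp (-(u ^ 2) * (0 + (i : ℝ)) ^ 2) ≤
          ∑ i ∈ Finset.range (N + 1), Real.exp (-(u ^ 2) * (0 + (i : ℝ)) ^ 2) := by
        rw [Finset.sum_range_succ]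
        linarith [Real.exp_pos (-(u ^ 2) * (0 + (N : ℝ)) ^ 2)]
      rw [Finset.sum_range_succ'] at h4
      have h5 : ∑ i ∈ Finset.range N, Real.exp (-(u ^ 2) * (0 + ((i + 1 : ℕ) : ℝ)) ^ 2) ≤
          ∑' g : ℕ, Real.exp (-(((g : ℝ) + 1) ^ 2 * u ^ 2)) := by
        refine le_trans (le_of_eq ?_) ((kap_summable hu).sum_le_tsum (Finset.range N)
          (fun g _ => (Real.exp_pos _).le))
        apply Finset.sum_congr rfl
        intro m _
        congr 1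
        push_cast
        ring
      have h6 : Real.exp (-(u ^ 2) * (0 + ((0 : ℕ) : ℝ)) ^ 2) = 1 := by simp
      rw [h6] at h4
      linarith
    refine le_trans (le_trans (le_of_eq ?_) h2) h3
    rw [zero_add]
  have := le_of_tendsto' ht h1
  linarith

theorem sqrt_pi_gt : (1 : ℝ) < Real.sqrt Real.pi := by
  rw [Real.lt_sqrt (by norm_num)]
  linarith [Real.pi_gt_three]

theorem kap_near {u : ℝ} (hu : 0 < u) : |kap0 u - 1| ≤ 2 * u := by
  have h1 := kap_up hu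
  have h2 := kap_low hu
  have hs := sqrt_pi_gt
  have hs0 : 0 < Real.sqrt Real.pi := by linarith
  have hc : 0 < 2 * u / Real.sqrt Real.pi := by positivity
  have e1 : 2 * u / Real.sqrt Real.pi * (Real.sqrt Real.pi / (2 * u)) = 1 := by field_simp
  have h3 := mul_le_mul_of_nonneg_left h1 hc.le
  have h4 := mul_le_mul_of_nonneg_left h2 hc.le
  rw [mul_sub, e1] at h4
  rw [e1] at h3
  have h5 : 2 * u / Real.sqrt Real.pi ≤ 2 * u := by
    rw [div_le_iff₀ hs0]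
    nlinarith
  have h6 : kap0 u = 2 * u / Real.sqrt Real.pi * ∑' g : ℕ, Real.exp (-(((g : ℝ) + 1) ^ 2 * u ^ 2)) := rfl
  rw [abs_le]
  constructor
  · rw [h6]; linarith
  · rw [h6]; linarith

theorem kap_far {u : ℝ} (hu : 1 ≤ u) : kap0 u ≤ 4 * u * Real.exp (-u ^ 2) := by
  have hu0 : 0 < u := by linarith
  have h1 : ∀ g : ℕ, Real.exp (-(((g : ℝ) + 1) ^ 2 * u ^ 2)) ≤ Real.exp (-u ^ 2) * (1 / 2) ^ g := by
    intro g
    have h2 : ((1 : ℝ) / 2) ^ g ≥ Real.exp (-(g : ℝ)) := by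
      rw [Real.exp_neg, one_div, inv_pow]
      apply inv_anti₀ (by positivity)
      have h3 : (2 : ℝ) ≤ Real.exp 1 := by
        have := Real.add_one_le_exp (1 : ℝ)
        linarith
      calc (2 : ℝ) ^ g ≤ (Real.exp 1) ^ g := pow_le_pow_left₀ (by norm_num) h3 g
        _ = Real.exp (g : ℝ) := by rw [← Real.exp_nat_mul, mul_one]
    refine le_trans ?_ (mul_le_mul_of_nonneg_left h2 (Real.exp_pos _).le)
    rw [← Real.exp_add]
    apply Real.exp_le_exp.2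
    have hg : (0 : ℝ) ≤ g := Nat.cast_nonneg g
    have hu2 : 1 ≤ u ^ 2 := by nlinarith
    nlinarith [mul_nonneg hg (sub_nonneg.2 hu2), mul_nonneg hg hg, mul_nonneg (mul_nonneg hg hg) (sub_nonneg.2 hu2)]
  have hsum : Summable fun g : ℕ => Real.exp (-u ^ 2) * ((1 : ℝ) / 2) ^ g :=
    (summable_geometric_of_lt_one (by norm_num) (by norm_num)).mul_left _
  have h2 : ∑' g : ℕ, Real.exp (-(((g : ℝ) + 1) ^ 2 * u ^ 2)) ≤ Real.exp (-u ^ 2) * 2 := by
    refine ((kap_summable hu0).tsum_le_tsum h1 hsum).trans (le_of_eq ?_)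
    rw [tsum_mul_left, tsum_geometric_of_lt_one (by norm_num) (by norm_num)]
    norm_num
  have hs := sqrt_pi_gt
  have hs0 : 0 < Real.sqrt Real.pi := by linarith
  unfold kap0
  calc 2 * u / Real.sqrt Real.pi * ∑' g : ℕ, Real.exp (-(((g : ℝ) + 1) ^ 2 * u ^ 2))
      ≤ 2 * u / Real.sqrt Real.pi * (Real.exp (-u ^ 2) * 2) := by
        apply mul_le_mul_of_nonneg_left h2
        positivity
    _ ≤ 2 * u * (Real.exp (-u ^ 2) * 2) := by
        apply mul_le_mul_of_nonneg_right _ (by positivity)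
        rw [div_le_iff₀ hs0]
        nlinarith
    _ = 4 * u * Real.exp (-u ^ 2) := by ring

theorem kap_cont : ContinuousOn kap0 (Set.Ioi 0) := by
  intro v hv
  have hv' : 0 < v := hv
  apply ContinuousAt.continuousWithinAt
  have h1 : ContinuousOn (fun u : ℝ => ∑' g : ℕ, Real.exp (-(((g : ℝ) + 1) ^ 2 * u ^ 2))) (Set.Ioi (v / 2)) := by
    apply continuousOn_tsum (u := fun g : ℕ => Real.exp (-(((g : ℝ) + 1) ^ 2 * (v / 2) ^ 2)))
    · intro g
      fun_prop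
    · exact kap_geo (by positivity)
    · intro g u hu
      have hu' : v / 2 < u := hu
      rw [Real.norm_of_nonneg (Real.exp_pos _).le]
      apply Real.exp_le_exp.2
      have h2 : (v / 2) ^ 2 ≤ u ^ 2 := pow_le_pow_left₀ (by linarith) hu'.le 2
      have h3 : 0 ≤ ((g : ℝ) + 1) ^ 2 := sq_nonneg _
      nlinarith
  have h2 : ContinuousAt (fun u : ℝ => ∑' g : ℕ, Real.exp (-(((g : ℝ) + 1) ^ 2 * u ^ 2))) v :=
    h1.continuousAt (Ioi_mem_nhds (by linarith))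
  unfold kap0
  exact ContinuousAt.mul (by fun_prop) h2

end Pool.Agent.H28.ZT
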