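import Pool.Agent.H28.ZT.Defs
import Pool.Agent.H28.ZT.Kap

/-!
# EIL (chapter D): LEMMA D

`Ei s x = (√π/2s) ∫_1^∞ u^(ix-1) κ(su) du`.  `R(x) = ∫_0^1 v^(ix-1)(κ(v)-1) dv + ∫_1^∞ v^(ix-1) κ(v) dv` converges for
`|Im x| ≤ 1/4` (KAP), `‖R‖ ≤ C`.  For `0 < s ≤ 1`, substitution `v = su`:
`∫_1^∞ u^(ix-1) κ(su) du = ∫_1^(1/s) u^(ix-1) du + s^(-ix) (R(x) - ∫_0^s v^(ix-1)(κ(v)-1) dv)`; the last term has absolute
value `≤ s^(Im x) ∫_0^s 2 v^(-Im x) dv ≤ 4 s`.  Multiply by `√π/2s`: error `≤ 2√π`.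
-/

set_option autoImplicit false

namespace Pool.Agent.H28.ZT

open Complex MeasureTheory

private theorem ei_re (x : ℂ) : (I * x - 1).re = -x.im - 1 := by simp

private theorem ei_norm {v : ℝ} (hv : 0 < v) (x : ℂ) : ‖(v : ℂ) ^ (I * x - 1)‖ = v ^ (-x.im - 1) := by
  rw [Complex.norm_cpow_eq_rpow_re_of_pos hv, ei_re]

/-- the integrand near zero -/
private noncomputable def eiK (x : ℂ) (v : ℝ) : ℂ := (v : ℂ) ^ (I * x - 1) * ((kap0 v - 1 : ℝ) : ℂ)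

/-- the integrand -/
private noncomputable def eiF (x : ℂ) (v : ℝ) : ℂ := (v : ℂ) ^ (I * x - 1) * ((kap0 v : ℝ) : ℂ)

private theorem ei_pc (x : ℂ) : ContinuousOn (fun v : ℝ => (v : ℂ) ^ (I * x - 1)) (Set.Ioi 0) := by
  intro v hv
  exact (Complex.continuousAt_ofReal_cpow_const v _ (Or.inr (ne_of_gt hv))).continuousWithinAt

private theorem ei_Kc (x : ℂ) : ContinuousOn (eiK x) (Set.Ioi 0) := by
  unfold eiK
  exact (ei_pc x).mul (Complex.continuous_ofReal.comp_continuousOn (kap_cont.sub continuousOn_const))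

private theorem ei_Fc (x : ℂ) : ContinuousOn (eiF x) (Set.Ioi 0) := by
  unfold eiF
  exact (ei_pc x).mul (Complex.continuous_ofReal.comp_continuousOn kap_cont)

private theorem ei_Kb {x : ℂ} {v : ℝ} (hv : 0 < v) : ‖eiK x v‖ ≤ 2 * v ^ (-x.im) := by
  unfold eiK
  rw [norm_mul, ei_norm hv, Complex.norm_real, Real.norm_eq_abs]
  have h1 := kap_near hv
  have h2 : v ^ (-x.im) = v ^ (-x.im - 1) * v := by
    nth_rewrite 3 [← Real.rpow_one v]
    rw [← Real.rpow_add hv]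
    congr 1
    ring
  calc v ^ (-x.im - 1) * |kap0 v - 1| ≤ v ^ (-x.im - 1) * (2 * v) :=
        mul_le_mul_of_nonneg_left h1 (Real.rpow_nonneg hv.le _)
    _ = _ := by rw [h2]; ring

private theorem ei_Fb {x : ℂ} (hx : |x.im| ≤ 1 / 4) {v : ℝ} (hv : 1 ≤ v) :
    ‖eiF x v‖ ≤ 8 * Real.exp (-(1 / 2) * v) := by
  have hv0 : 0 < v := by linarith
  unfold eiF
  rw [norm_mul, ei_norm hv0, Complex.norm_real, Real.norm_eq_abs, abs_of_nonneg (kap_nonneg hv0)]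
  have h1 := kap_far hv
  have h2 : v ^ (-x.im - 1) ≤ 1 := by
    apply Real.rpow_le_one_of_one_le_of_nonpos hv
    have := (abs_le.1 hx).1
    linarith
  have h3 : Real.exp (-v ^ 2) ≤ Real.exp (-v) := Real.exp_le_exp.2 (by nlinarith)
  have h4 : v ≤ 2 * Real.exp (v / 2) := by
    have := Real.add_one_le_exp (v / 2)
    linarith
  calc v ^ (-x.im - 1) * kap0 v ≤ 1 * (4 * v * Real.exp (-v ^ 2)) :=
        mul_le_mul h2 h1 (kap_nonneg hv0) zero_le_one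
    _ ≤ 4 * (2 * Real.exp (v / 2)) * Real.exp (-v) := by
        rw [one_mul]
        exact mul_le_mul (by linarith) h3 (Real.exp_pos _).le (by positivity)
    _ = 8 * (Real.exp (v / 2) * Real.exp (-v)) := by ring
    _ = 8 * Real.exp (-(1 / 2) * v) := by
        rw [← Real.exp_add]
        congr 2
        ring

private theorem ei_rpow_int {a b : ℝ} (ha : 0 ≤ a) (hb : a ≤ b) {x : ℂ} (hx : |x.im| ≤ 1 / 4) :
    IntegrableOn (fun v : ℝ => 2 * v ^ (-x.im)) (Set.Ioc a b) := by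
  apply Integrable.const_mul
  have h := intervalIntegral.intervalIntegrable_rpow' (a := a) (b := b) (r := -x.im) (by
    have := (abs_le.1 hx).2
    linarith)
  rwa [intervalIntegrable_iff_integrableOn_Ioc_of_le hb] at h

private theorem ei_Ki {a b : ℝ} (ha : 0 ≤ a) (hb : a ≤ b) {x : ℂ} (hx : |x.im| ≤ 1 / 4) :
    IntegrableOn (eiK x) (Set.Ioc a b) := by
  refine Integrable.mono' (ei_rpow_int ha hb hx) ?_ ?_
  · exact ((ei_Kc x).mono fun v hv => lt_of_le_of_lt ha hv.1).aestronglyMeasurable measurableSet_Ioc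
  · filter_upwards [ae_restrict_mem measurableSet_Ioc] with v hv
    exact ei_Kb (lt_of_le_of_lt ha hv.1)

private theorem ei_Fi {x : ℂ} (hx : |x.im| ≤ 1 / 4) : IntegrableOn (eiF x) (Set.Ioi 1) := by
  have h := (exp_neg_integrableOn_Ioi 1 (b := 1 / 2) (by norm_num)).const_mul 8
  refine Integrable.mono' h ?_ ?_
  · exact ((ei_Fc x).mono fun v (hv : (1 : ℝ) < v) =>
      show (0 : ℝ) < v from zero_lt_one.trans hv).aestronglyMeasurable measurableSet_Ioi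
  · filter_upwards [ae_restrict_mem measurableSet_Ioi] with v hv
    exact ei_Fb hx (le_of_lt hv)

private theorem ei_rpow_val {s : ℝ} (hs : 0 ≤ s) {x : ℂ} (hx : |x.im| ≤ 1 / 4) :
    ∫ v in Set.Ioc 0 s, 2 * v ^ (-x.im) = 2 * (s ^ (-x.im + 1) / (-x.im + 1)) := by
  have h2 := (abs_le.1 hx).2
  rw [integral_const_mul, ← intervalIntegral.integral_of_le hs, integral_rpow (Or.inl (by linarith)),
    Real.zero_rpow (by linarith), sub_zero]

private theorem ei_K0 {s : ℝ} (hs : 0 < s) {x : ℂ} (hx : |x.im| ≤ 1 / 4) :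
    ‖∫ v in Set.Ioc 0 s, eiK x v‖ ≤ 8 / 3 * s ^ (-x.im + 1) := by
  have h2 := (abs_le.1 hx).2
  have h1 : ‖∫ v in Set.Ioc 0 s, eiK x v‖ ≤ ∫ v in Set.Ioc 0 s, 2 * v ^ (-x.im) := by
    apply norm_integral_le_of_norm_le (ei_rpow_int le_rfl hs.le hx)
    filter_upwards [ae_restrict_mem measurableSet_Ioc] with v hv
    exact ei_Kb hv.1
  refine h1.trans ?_
  rw [ei_rpow_val hs.le hx]
  have h3 : (0 : ℝ) < -x.im + 1 := by linarith
  have h4 : s ^ (-x.im + 1) / (-x.im + 1) ≤ s ^ (-x.im + 1) * (4 / 3) := by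
    rw [div_le_iff₀ h3, mul_assoc]
    have h5 : (1 : ℝ) ≤ 4 / 3 * (-x.im + 1) := by linarith
    have h6 := Real.rpow_nonneg hs.le (-x.im + 1)
    nlinarith
  linarith

private theorem ei_sub {s : ℝ} (hs : 0 < s) (hs1 : s ≤ 1) {x : ℂ} (hx : |x.im| ≤ 1 / 4) :
    ∫ v in Set.Ioi s, eiF x v = (∫ v in (s : ℝ)..1, (v : ℂ) ^ (I * x - 1)) +
      (((∫ v in Set.Ioc (0 : ℝ) 1, eiK x v) + ∫ v in Set.Ioi (1 : ℝ), eiF x v) -
        ∫ v in Set.Ioc 0 s, eiK x v) := by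
  have hp : IntegrableOn (fun v : ℝ => (v : ℂ) ^ (I * x - 1)) (Set.Ioc s 1) := by
    have h1 : ContinuousOn (fun v : ℝ => (v : ℂ) ^ (I * x - 1)) (Set.Icc s 1) :=
      (ei_pc x).mono fun v hv => lt_of_lt_of_le hs hv.1
    exact (h1.integrableOn_Icc).mono_set Set.Ioc_subset_Icc_self
  have hFs : IntegrableOn (eiF x) (Set.Ioc s 1) := by
    refine (hp.add (ei_Ki hs.le hs1 hx)).congr_fun (fun v _ => ?_) measurableSet_Ioc
    unfold eiF eiK
    push_cast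
    simp only [Pi.add_apply]
    ring
  rw [← Set.Ioc_union_Ioi_eq_Ioi hs1, setIntegral_union (Set.Ioc_disjoint_Ioi le_rfl) measurableSet_Ioi hFs
    (ei_Fi hx)]
  have e1 : ∫ v in Set.Ioc s 1, eiF x v = (∫ v in Set.Ioc s 1, (v : ℂ) ^ (I * x - 1)) +
      ∫ v in Set.Ioc s 1, eiK x v := by
    rw [← integral_add hp (ei_Ki hs.le hs1 hx)]
    apply setIntegral_congr_fun measurableSet_Ioc
    intro v _
    unfold eiF eiK
    push_cast
    ring
  have e2 : ∫ v in Set.Ioc (0 : ℝ) 1, eiK x v = (∫ v in Set.Ioc 0 s, eiK x v) +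
      ∫ v in Set.Ioc s 1, eiK x v := by
    rw [← Set.Ioc_union_Ioc_eq_Ioc hs.le hs1]
    exact setIntegral_union (Set.Ioc_disjoint_Ioc_of_le le_rfl) measurableSet_Ioc
      (ei_Ki le_rfl hs.le hx) (ei_Ki hs.le hs1 hx)
  rw [e1, e2, intervalIntegral.integral_of_le hs1]
  ring

private theorem ei_cpow {s u : ℝ} (hs : 0 < s) (hu : 0 < u) (z : ℂ) :
    (((s * u : ℝ)) : ℂ) ^ z = (s : ℂ) ^ z * (u : ℂ) ^ z := by
  push_cast
  exact Complex.mul_cpow_ofReal_nonneg hs.le hu.le _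

private theorem ei_one {s : ℝ} (hs : 0 < s) (x : ℂ) :
    (s : ℂ) ^ (I * x - 1) * ((s : ℂ) ^ (-(I * x)) * (s : ℂ)) = 1 := by
  have hsc : (s : ℂ) ≠ 0 := by exact_mod_cast hs.ne'
  nth_rewrite 3 [← Complex.cpow_one (s : ℂ)]
  rw [← Complex.cpow_add _ _ hsc, ← Complex.cpow_add _ _ hsc]
  have : I * x - 1 + (-(I * x) + 1) = 0 := by ring
  rw [this, Complex.cpow_zero]

private theorem ei_p {s : ℝ} (hs : 0 < s) (hs1 : s ≤ 1) (x : ℂ) :
    ∫ u in (1 : ℝ)..(1 / s), (u : ℂ) ^ (I * x - 1) =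
      (s : ℂ) ^ (-(I * x)) * ∫ v in (s : ℝ)..1, (v : ℂ) ^ (I * x - 1) := by
  have hsc : (s : ℂ) ≠ 0 := by exact_mod_cast hs.ne'
  have h := intervalIntegral.integral_comp_mul_left (a := 1) (b := 1 / s)
    (fun v : ℝ => (v : ℂ) ^ (I * x - 1)) hs.ne'
  have hle : (1 : ℝ) ≤ 1 / s := by rw [le_div_iff₀ hs]; linarith
  rw [mul_one, mul_one_div_cancel hs.ne'] at h
  have h2 : ∫ u in (1 : ℝ)..(1 / s), (((s * u : ℝ)) : ℂ) ^ (I * x - 1) =
      (s : ℂ) ^ (I * x - 1) * ∫ u in (1 : ℝ)..(1 / s), (u : ℂ) ^ (I * x - 1) := by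
    rw [← intervalIntegral.integral_const_mul]
    apply intervalIntegral.integral_congr
    intro u hu
    rw [Set.uIcc_of_le hle] at hu
    exact ei_cpow hs (by linarith [hu.1]) _
  rw [h2, Complex.real_smul, Complex.ofReal_inv] at h
  have h3 := ei_one hs x
  calc ∫ u in (1 : ℝ)..(1 / s), (u : ℂ) ^ (I * x - 1)
      = ((s : ℂ) ^ (I * x - 1) * ((s : ℂ) ^ (-(I * x)) * (s : ℂ))) *
        ∫ u in (1 : ℝ)..(1 / s), (u : ℂ) ^ (I * x - 1) := by rw [h3, one_mul]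
    _ = ((s : ℂ) ^ (-(I * x)) * (s : ℂ)) * ((s : ℂ) ^ (I * x - 1) *
        ∫ u in (1 : ℝ)..(1 / s), (u : ℂ) ^ (I * x - 1)) := by ring
    _ = _ := by
        rw [h]
        field_simp

private theorem ei_F {s : ℝ} (hs : 0 < s) (x : ℂ) :
    Ei s x = ((Real.sqrt Real.pi / (2 * s) : ℝ) : ℂ) * ((s : ℂ) ^ (-(I * x)) * ∫ v in Set.Ioi s, eiF x v) := by
  have hsc : (s : ℂ) ≠ 0 := by exact_mod_cast hs.ne'
  have hpi : 0 < Real.sqrt Real.pi := Real.sqrt_pos.2 Real.pi_pos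
  have h := integral_comp_mul_left_Ioi (eiF x) 1 hs
  rw [mul_one] at h
  have h1 : ∫ u in Set.Ioi (1 : ℝ), eiF x (s * u) = (s : ℂ) ^ (I * x - 1) *
      ∫ u in Set.Ioi (1 : ℝ), (u : ℂ) ^ (I * x - 1) * ((kap0 (s * u) : ℝ) : ℂ) := by
    rw [← integral_const_mul]
    apply setIntegral_congr_fun measurableSet_Ioi
    intro u hu
    have hu0 : (0 : ℝ) < u := zero_lt_one.trans hu
    unfold eiF
    beta_reduce
    rw [ei_cpow hs hu0]
    ring
  rw [h1, Complex.real_smul, Complex.ofReal_inv] at h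
  have h2 : Ei s x = ((Real.sqrt Real.pi / (2 * s) : ℝ) : ℂ) *
      ∫ u in Set.Ioi (1 : ℝ), (u : ℂ) ^ (I * x - 1) * ((kap0 (s * u) : ℝ) : ℂ) := by
    unfold Ei
    rw [← integral_const_mul]
    apply setIntegral_congr_fun measurableSet_Ioi
    intro u hu
    have hu0 : (0 : ℝ) < u := zero_lt_one.trans hu
    have huc : (u : ℂ) ≠ 0 := by exact_mod_cast hu0.ne'
    beta_reduce
    have e1 : (∑' g : ℕ, Real.exp (-(((g : ℝ) + 1) ^ 2 * s ^ 2 * u ^ 2))) =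
        Real.sqrt Real.pi / (2 * s) * (u⁻¹ * kap0 (s * u)) := by
      unfold kap0
      have e2 : (fun g : ℕ => Real.exp (-(((g : ℝ) + 1) ^ 2 * (s * u) ^ 2))) =
          fun g : ℕ => Real.exp (-(((g : ℝ) + 1) ^ 2 * s ^ 2 * u ^ 2)) := by
        funext g
        congr 1
        ring
      rw [e2]
      generalize (∑' g : ℕ, Real.exp (-(((g : ℝ) + 1) ^ 2 * s ^ 2 * u ^ 2))) = S
      field_simp
    have e3 : (u : ℂ) ^ (I * x - 1) = (u : ℂ) ^ (I * x) * (u : ℂ)⁻¹ := by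
      rw [Complex.cpow_sub _ _ huc, Complex.cpow_one]
      rfl
    rw [e1, e3]
    push_cast
    ring
  have h3 := ei_one hs x
  rw [h2]
  congr 1
  calc ∫ u in Set.Ioi (1 : ℝ), (u : ℂ) ^ (I * x - 1) * ((kap0 (s * u) : ℝ) : ℂ)
      = ((s : ℂ) ^ (I * x - 1) * ((s : ℂ) ^ (-(I * x)) * (s : ℂ))) *
        ∫ u in Set.Ioi (1 : ℝ), (u : ℂ) ^ (I * x - 1) * ((kap0 (s * u) : ℝ) : ℂ) := by rw [h3, one_mul]
    _ = ((s : ℂ) ^ (-(I * x)) * (s : ℂ)) * ((s : ℂ) ^ (I * x - 1) *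
        ∫ u in Set.Ioi (1 : ℝ), (u : ℂ) ^ (I * x - 1) * ((kap0 (s * u) : ℝ) : ℂ)) := by ring
    _ = _ := by
        rw [h]
        field_simp

theorem Ei_asym : ∃ (C : ℝ) (R : ℂ → ℂ), 0 < C ∧ (∀ x : ℂ, ‖x‖ ≤ 2 → |x.im| ≤ 1 / 4 → ‖R x‖ ≤ C) ∧
    ∀ x : ℂ, ‖x‖ ≤ 2 → |x.im| ≤ 1 / 4 → ∀ s : ℝ, 0 < s → s ≤ 1 →
      ‖Ei s x - ((Real.sqrt Real.pi / (2 * s) : ℝ) : ℂ) *
        ((∫ u in (1 : ℝ)..(1 / s), (u : ℂ) ^ (I * x - 1)) + (s : ℂ) ^ (-(I * x)) * R x)‖ ≤ C := by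
  obtain ⟨C1, hC1⟩ : ∃ C1 : ℝ, C1 = ∫ v in Set.Ioi (1 : ℝ), 8 * Real.exp (-(1 / 2) * v) := ⟨_, rfl⟩
  have hC1' : 0 ≤ C1 := by
    rw [hC1]
    exact integral_nonneg fun v => by positivity
  refine ⟨8 / 3 + C1 + 2 * Real.sqrt Real.pi,
    fun x => (∫ v in Set.Ioc (0 : ℝ) 1, eiK x v) + ∫ v in Set.Ioi (1 : ℝ), eiF x v, by positivity, ?_, ?_⟩
  · intro x _ hx
    have h1 := ei_K0 one_pos hx
    rw [Real.one_rpow, mul_one] at h1
    have h2 : ‖∫ v in Set.Ioi (1 : ℝ), eiF x v‖ ≤ C1 := by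
      rw [hC1]
      apply norm_integral_le_of_norm_le ((exp_neg_integrableOn_Ioi 1 (b := 1 / 2) (by norm_num)).const_mul 8)
      filter_upwards [ae_restrict_mem measurableSet_Ioi] with v hv
      exact ei_Fb hx (le_of_lt hv)
    have h3 := Real.sqrt_nonneg Real.pi
    calc _ ≤ _ := norm_add_le _ _
      _ ≤ 8 / 3 + C1 + 2 * Real.sqrt Real.pi := by linarith
  · intro x _ hx s hs hs1
    rw [ei_F hs x, ei_sub hs hs1 hx, ei_p hs hs1 x]
    beta_reduce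
    have e : ((Real.sqrt Real.pi / (2 * s) : ℝ) : ℂ) * ((s : ℂ) ^ (-(I * x)) *
        ((∫ v in (s : ℝ)..1, (v : ℂ) ^ (I * x - 1)) +
          (((∫ v in Set.Ioc (0 : ℝ) 1, eiK x v) + ∫ v in Set.Ioi (1 : ℝ), eiF x v) -
            ∫ v in Set.Ioc 0 s, eiK x v))) -
        ((Real.sqrt Real.pi / (2 * s) : ℝ) : ℂ) *
        ((s : ℂ) ^ (-(I * x)) * (∫ v in (s : ℝ)..1, (v : ℂ) ^ (I * x - 1)) +
          (s : ℂ) ^ (-(I * x)) * ((∫ v in Set.Ioc (0 : ℝ) 1, eiK x v) + ∫ v in Set.Ioi (1 : ℝ), eiF x v)) =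
        -(((Real.sqrt Real.pi / (2 * s) : ℝ) : ℂ) * ((s : ℂ) ^ (-(I * x)) * ∫ v in Set.Ioc 0 s, eiK x v)) := by
      ring
    rw [e, norm_neg, norm_mul, norm_mul, Complex.norm_real, Real.norm_eq_abs,
      abs_of_nonneg (by positivity), Complex.norm_cpow_eq_rpow_re_of_pos hs]
    have hre : (-(I * x)).re = x.im := by simp
    rw [hre]
    have h1 := ei_K0 hs hx
    have h2 : s ^ x.im * s ^ (-x.im + 1) = s := by
      rw [← Real.rpow_add hs]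
      have : x.im + (-x.im + 1) = 1 := by ring
      rw [this, Real.rpow_one]
    have h3 := Real.sqrt_nonneg Real.pi
    calc Real.sqrt Real.pi / (2 * s) * (s ^ x.im * ‖∫ v in Set.Ioc 0 s, eiK x v‖)
        ≤ Real.sqrt Real.pi / (2 * s) * (s ^ x.im * (8 / 3 * s ^ (-x.im + 1))) := by
          apply mul_le_mul_of_nonneg_left _ (by positivity)
          exact mul_le_mul_of_nonneg_left h1 (Real.rpow_nonneg hs.le _)
      _ = Real.sqrt Real.pi / (2 * s) * (8 / 3 * (s ^ x.im * s ^ (-x.im + 1))) := by ring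
      _ = 4 / 3 * Real.sqrt Real.pi := by
          rw [h2]
          field_simp
          norm_num
      _ ≤ _ := by linarith

end Pool.Agent.H28.ZT
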