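import Pool.Agent.H28.ZT.FDec

/-!
# FCAU (chapter A): Cauchy's estimate for the derivatives of `F` on the real line

`fr d t = (FF d t).re` (`= FF d t`, FREP `F_real`).  For `0 < r ≤ 1/4`:
`deriv (fr d) t = Re (FF d)'(t)`, `(FF d)'(t) = (1/2πr) ∫_0^{2π} FF d (t + r e^(iθ)) e^(-iθ) dθ`, so by Cauchy-Schwarz
`(fr d)'(t)² ≤ (1/(2π r²)) ∫_0^{2π} ‖FF d (t + r e^(iθ))‖² dθ`; the second derivative has the factor `2!/r²`:
`(fr d)''(t)² ≤ (4/(2π r⁴)) ∫ ...`.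
-/

set_option autoImplicit false

namespace Pool.Agent.H28.ZT

open Complex MeasureTheory

noncomputable def fr (d : ℝ) (t : ℝ) : ℝ := (FF d (t : ℂ)).re

private theorem fc_cs {h : ℝ → ℝ} (hc : Continuous h) :
    (∫ θ in (0 : ℝ)..(2 * Real.pi), h θ) ^ 2 ≤
      2 * Real.pi * ∫ θ in (0 : ℝ)..(2 * Real.pi), h θ ^ 2 := by
  have hpi := Real.pi_pos
  obtain ⟨m, hm⟩ : ∃ m : ℝ, m = (∫ θ in (0 : ℝ)..(2 * Real.pi), h θ) / (2 * Real.pi) := ⟨_, rfl⟩
  have hm' : (∫ θ in (0 : ℝ)..(2 * Real.pi), h θ) = 2 * Real.pi * m := by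
    rw [hm]; field_simp
  have h0 : 0 ≤ ∫ θ in (0 : ℝ)..(2 * Real.pi), (h θ - m) ^ 2 :=
    intervalIntegral.integral_nonneg (by positivity) fun θ _ => sq_nonneg _
  have h1 : (∫ θ in (0 : ℝ)..(2 * Real.pi), (h θ - m) ^ 2) =
      (∫ θ in (0 : ℝ)..(2 * Real.pi), h θ ^ 2) - 2 * m * (2 * Real.pi * m) +
        2 * Real.pi * m ^ 2 := by
    have e : ∀ θ, (h θ - m) ^ 2 = h θ ^ 2 - 2 * m * h θ + m ^ 2 := fun θ => by ring
    simp only [e]
    rw [intervalIntegral.integral_add, intervalIntegral.integral_sub,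
      intervalIntegral.integral_const_mul, hm', intervalIntegral.integral_const, smul_eq_mul,
      sub_zero]
    · exact (hc.pow 2).intervalIntegrable _ _
    · exact (continuous_const.mul hc).intervalIntegrable _ _
    · exact ((hc.pow 2).sub (continuous_const.mul hc)).intervalIntegrable _ _
    · exact continuous_const.intervalIntegrable _ _
  rw [h1] at h0
  rw [hm']
  nlinarith

private theorem fc_sq {f : ℂ → ℂ} {c : ℂ} {r : ℝ} (hr : 0 < r) (n : ℕ)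
    (hf : DifferentiableOn ℂ f (Metric.closedBall c r)) :
    ‖iteratedDeriv n f c‖ ^ 2 ≤ (n.factorial : ℝ) ^ 2 / (2 * Real.pi * r ^ (2 * n)) *
      ∫ θ in (0 : ℝ)..(2 * Real.pi), ‖f (c + (r : ℂ) * Complex.exp (I * (θ : ℂ)))‖ ^ 2 := by
  have hpi := Real.pi_pos
  obtain ⟨h, hh⟩ : ∃ h : ℝ → ℝ, h = fun θ : ℝ => ‖f (c + (r : ℂ) * Complex.exp (I * (θ : ℂ)))‖ :=
    ⟨_, rfl⟩
  have hcm : ∀ θ : ℝ, circleMap c r θ = c + (r : ℂ) * Complex.exp (I * (θ : ℂ)) := fun θ => by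
    rw [circleMap, mul_comm (θ : ℂ) I]
  have hcont : Continuous h := by
    rw [hh]
    have h1 : Continuous fun θ : ℝ => c + (r : ℂ) * Complex.exp (I * (θ : ℂ)) := by fun_prop
    exact (hf.continuousOn.comp_continuous h1 fun θ => by
      rw [← hcm]; exact circleMap_mem_closedBall c hr.le θ).norm
  have h1 := hf.circleIntegral_one_div_sub_center_pow_smul hr n
  have h2 : ‖∮ z in C(c, r), (1 / (z - c) ^ (n + 1)) • f z‖ ≤
      (1 / r ^ n) * ∫ θ in (0 : ℝ)..(2 * Real.pi), h θ := by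
    rw [circleIntegral, ← intervalIntegral.integral_const_mul]
    refine (intervalIntegral.norm_integral_le_integral_norm (by positivity)).trans (le_of_eq ?_)
    refine intervalIntegral.integral_congr fun θ _ => ?_
    beta_reduce
    rw [norm_smul, norm_smul, deriv_circleMap, norm_mul, Complex.norm_I, mul_one,
      norm_circleMap_zero, abs_of_pos hr, norm_div, norm_one, norm_pow, circleMap_sub_center,
      norm_circleMap_zero, abs_of_pos hr, hcm, hh]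
    field_simp
    ring
  have hn0 : (0 : ℝ) < n.factorial := by exact_mod_cast n.factorial_pos
  have h3 : ‖∮ z in C(c, r), (1 / (z - c) ^ (n + 1)) • f z‖ =
      2 * Real.pi / n.factorial * ‖iteratedDeriv n f c‖ := by
    rw [h1, norm_smul, norm_div, norm_mul, norm_mul, Complex.norm_I, mul_one, Complex.norm_natCast,
      Complex.norm_real, Real.norm_of_nonneg hpi.le, Complex.norm_two]
  rw [h3] at h2
  have h4 : ‖iteratedDeriv n f c‖ ≤
      n.factorial / (2 * Real.pi * r ^ n) * ∫ θ in (0 : ℝ)..(2 * Real.pi), h θ := by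
    calc ‖iteratedDeriv n f c‖ = n.factorial / (2 * Real.pi) *
          (2 * Real.pi / n.factorial * ‖iteratedDeriv n f c‖) := by field_simp
      _ ≤ n.factorial / (2 * Real.pi) * ((1 / r ^ n) * ∫ θ in (0 : ℝ)..(2 * Real.pi), h θ) :=
          mul_le_mul_of_nonneg_left h2 (by positivity)
      _ = _ := by field_simp
  have h5 := fc_cs hcont
  have h6 : ∫ θ in (0 : ℝ)..(2 * Real.pi), ‖f (c + (r : ℂ) * Complex.exp (I * (θ : ℂ)))‖ ^ 2 =
      ∫ θ in (0 : ℝ)..(2 * Real.pi), h θ ^ 2 := by rw [hh]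
  rw [h6]
  calc ‖iteratedDeriv n f c‖ ^ 2 ≤
        (n.factorial / (2 * Real.pi * r ^ n) * ∫ θ in (0 : ℝ)..(2 * Real.pi), h θ) ^ 2 :=
        pow_le_pow_left₀ (norm_nonneg _) h4 2
    _ = (n.factorial / (2 * Real.pi * r ^ n)) ^ 2 *
        (∫ θ in (0 : ℝ)..(2 * Real.pi), h θ) ^ 2 := mul_pow _ _ _
    _ ≤ (n.factorial / (2 * Real.pi * r ^ n)) ^ 2 *
        (2 * Real.pi * ∫ θ in (0 : ℝ)..(2 * Real.pi), h θ ^ 2) :=
        mul_le_mul_of_nonneg_left h5 (sq_nonneg _)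
    _ = _ := by
        rw [pow_mul, ← pow_mul, mul_comm 2 n, pow_mul]
        field_simp

private theorem fc_open : IsOpen {w : ℂ | |w.im| < 1 / 2} :=
  isOpen_lt (continuous_abs.comp Complex.continuous_im) continuous_const

private theorem fc_ball {r : ℝ} (hr1 : r ≤ 1 / 4) (t : ℝ) :
    Metric.closedBall (t : ℂ) r ⊆ {w : ℂ | |w.im| < 1 / 2} := by
  intro w hw
  rw [Metric.mem_closedBall, dist_eq_norm] at hw
  have h1 := Complex.abs_im_le_norm (w - (t : ℂ))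
  rw [Complex.sub_im, Complex.ofReal_im, sub_zero] at h1
  show |w.im| < 1 / 2
  linarith

private theorem fc_mem (t : ℝ) : (t : ℂ) ∈ {w : ℂ | |w.im| < 1 / 2} := by
  show |(t : ℂ).im| < 1 / 2
  rw [Complex.ofReal_im, abs_zero]
  norm_num

private theorem fc_deriv1 (d t : ℝ) : deriv (fr d) t = (deriv (FF d) (t : ℂ)).re := by
  have h1 : HasDerivAt (FF d) (deriv (FF d) (t : ℂ)) (t : ℂ) :=
    ((F_diff d).differentiableAt (fc_open.mem_nhds (fc_mem t))).hasDerivAt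
  exact h1.real_of_complex.deriv

private theorem fc_deriv2 (d t : ℝ) :
    deriv (deriv (fr d)) t = (deriv (deriv (FF d)) (t : ℂ)).re := by
  have h0 : deriv (fr d) = fun t : ℝ => (deriv (FF d) (t : ℂ)).re := by
    funext t
    exact fc_deriv1 d t
  have h1 : HasDerivAt (deriv (FF d)) (deriv (deriv (FF d)) (t : ℂ)) (t : ℂ) :=
    (((F_diff d).deriv fc_open).differentiableAt (fc_open.mem_nhds (fc_mem t))).hasDerivAt
  rw [h0]
  exact h1.real_of_complex.deriv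

private theorem fc_resq (z : ℂ) : z.re ^ 2 ≤ ‖z‖ ^ 2 := by
  have h1 := Complex.abs_re_le_norm z
  calc z.re ^ 2 = |z.re| ^ 2 := (sq_abs _).symm
    _ ≤ ‖z‖ ^ 2 := pow_le_pow_left₀ (abs_nonneg _) h1 2

theorem fr_eq {d : ℝ} (h0 : 0 < d) (h1 : d ≤ 1 / 2) (t : ℝ) : ((fr d t : ℝ) : ℂ) = FF d (t : ℂ) := by
  apply Complex.ext
  · rw [Complex.ofReal_re]
    rfl
  · rw [Complex.ofReal_im, F_real h0 h1]

theorem fr_smooth {d : ℝ} (h0 : 0 < d) (h1 : d ≤ 1 / 2) : ContDiff ℝ 3 (fr d) := by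
  have h1 : ContDiffOn ℂ 3 (FF d) {w : ℂ | |w.im| < 1 / 2} := (F_diff d).contDiffOn fc_open
  have h2 : ContDiffOn ℝ 3 (FF d) {w : ℂ | |w.im| < 1 / 2} := h1.restrict_scalars ℝ
  have h3 : ContDiff ℝ 3 (fun t : ℝ => (t : ℂ)) := Complex.ofRealCLM.contDiff
  have h4 : ContDiff ℝ 3 (FF d ∘ fun t : ℝ => (t : ℂ)) := h2.comp_contDiff h3 fc_mem
  exact Complex.reCLM.contDiff.comp h4

theorem fr_d1 {d : ℝ} (h0 : 0 < d) (h1 : d ≤ 1 / 2) {r : ℝ} (hr : 0 < r) (hr1 : r ≤ 1 / 4) (t : ℝ) :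
    deriv (fr d) t ^ 2 ≤ 1 / (2 * Real.pi * r ^ 2) *
      ∫ θ in (0 : ℝ)..(2 * Real.pi), ‖FF d ((t : ℂ) + (r : ℂ) * Complex.exp (I * (θ : ℂ)))‖ ^ 2 := by
  rw [fc_deriv1]
  refine (fc_resq _).trans ?_
  have h2 := fc_sq hr 1 ((F_diff d).mono (fc_ball hr1 t))
  rw [iteratedDeriv_one] at h2
  simpa using h2

theorem fr_d2 {d : ℝ} (h0 : 0 < d) (h1 : d ≤ 1 / 2) {r : ℝ} (hr : 0 < r) (hr1 : r ≤ 1 / 4) (t : ℝ) :
    deriv (deriv (fr d)) t ^ 2 ≤ 4 / (2 * Real.pi * r ^ 4) *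
      ∫ θ in (0 : ℝ)..(2 * Real.pi), ‖FF d ((t : ℂ) + (r : ℂ) * Complex.exp (I * (θ : ℂ)))‖ ^ 2 := by
  rw [fc_deriv2]
  refine (fc_resq _).trans ?_
  have h2 := fc_sq hr 2 ((F_diff d).mono (fc_ball hr1 t))
  rw [iteratedDeriv_succ, iteratedDeriv_one] at h2
  have e : ((Nat.factorial 2 : ℕ) : ℝ) ^ 2 = 4 := by norm_num [Nat.factorial]
  rw [e] at h2
  exact h2

end Pool.Agent.H28.ZT
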