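import Pool.Agent.H28.ZT.FRep

/-!
# FDEC (chapter A): exponential decay of `FF` in the strip `|Im w| ≤ 1/4`, continuity, differentiability

By definition `FF d w = exp ((d'/2 - d/2) w) FF d' w` for all `d, d'`.
For `Re w ≥ 0` take `d' = d/2`: `‖FF d w‖ = exp (-(d/4) Re w) ‖FF d' w‖` and `‖FF d' w‖ ≤ ∫ ‖gg d' y‖ exp (|y|/4) dy < ∞`
(FREP, GDEC).  For `Re w ≤ 0`: `Λ(1-s) = Λ(s)` gives `FF d w = exp ((π/2 - d) w) FF d (-w)`,
`‖exp ((π/2-d) w)‖ = exp ((π/2-d) Re w)`, `π/2 - d ≥ 1`.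
Differentiable: `differentiableAt_completedZeta` at `1/2 + i w ≠ 0, 1` (since `|Im w| < 1/2`).
-/

set_option autoImplicit false

namespace Pool.Agent.H28.ZT

open Complex MeasureTheory

/-- integrability of a two-sided decaying exponential -/
private theorem fd_expabs {k : ℝ} (hk : 0 < k) : Integrable (fun y : ℝ => Real.exp (-(k * |y|))) := by
  rw [← integrableOn_univ, ← Set.Iic_union_Ioi (a := (0 : ℝ))]
  apply IntegrableOn.union
  · have h3 : IntegrableOn (fun y : ℝ => Real.exp (k * y)) (Set.Iic 0) :=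
      integrableOn_exp_mul_Iic hk 0
    refine h3.congr_fun (fun y hy => ?_) measurableSet_Iic
    have hy' : y ≤ 0 := hy
    show Real.exp (k * y) = Real.exp (-(k * |y|))
    rw [abs_of_nonpos hy']
    congr 1
    ring
  · have h := exp_neg_integrableOn_Ioi 0 hk
    refine h.congr_fun (fun y hy => ?_) measurableSet_Ioi
    have hy' : 0 < y := hy
    show Real.exp (-k * y) = Real.exp (-(k * |y|))
    rw [abs_of_pos hy']
    congr 1
    ring

/-- uniform bound in the strip -/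
private theorem fd_bd {d : ℝ} (h0 : 0 < d) (h1 : d ≤ 1 / 2) :
    ∃ C : ℝ, 0 < C ∧ ∀ w : ℂ, |w.im| ≤ 1 / 4 → ‖FF d w‖ ≤ C := by
  obtain ⟨C, hC, hb⟩ := gg_decay h0 h1
  have hi : Integrable (fun y : ℝ => C * Real.exp (-(1 / 4 * |y|))) :=
    (fd_expabs (by norm_num : (0 : ℝ) < 1 / 4)).const_mul C
  have hnn : 0 ≤ ∫ y : ℝ, C * Real.exp (-(1 / 4 * |y|)) :=
    integral_nonneg fun y => by positivity
  refine ⟨(∫ y : ℝ, C * Real.exp (-(1 / 4 * |y|))) + 1, by linarith, fun w hw => ?_⟩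
  rw [F_rep h0 h1 (lt_of_le_of_lt hw (by norm_num))]
  refine le_trans ?_ (le_add_of_nonneg_right zero_le_one)
  refine norm_integral_le_of_norm_le hi (Filter.Eventually.of_forall fun y => ?_)
  have hne : ‖Complex.exp (I * (y : ℂ) * w)‖ = Real.exp (-(y * w.im)) := by
    rw [Complex.norm_exp]
    congr 1
    simp
  rw [norm_mul, hne]
  have h2 : Real.exp (-(y * w.im)) ≤ Real.exp (|y| * (1 / 4)) := by
    apply Real.exp_le_exp.2
    calc -(y * w.im) ≤ |y * w.im| := neg_le_abs _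
      _ = |y| * |w.im| := abs_mul _ _
      _ ≤ |y| * (1 / 4) := mul_le_mul_of_nonneg_left hw (abs_nonneg _)
  calc ‖gg d y‖ * Real.exp (-(y * w.im)) ≤ (C * Real.exp (-(|y| / 2))) * Real.exp (|y| * (1 / 4)) :=
        mul_le_mul (hb y) h2 (Real.exp_pos _).le (by positivity)
    _ = C * Real.exp (-(1 / 4 * |y|)) := by
        rw [mul_assoc, ← Real.exp_add]
        congr 2
        ring

private theorem fd_shift (d d' : ℝ) (w : ℂ) :
    FF d w = Complex.exp (((d' / 2 - d / 2 : ℝ) : ℂ) * w) * FF d' w := by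
  unfold FF
  rw [← mul_assoc, ← Complex.exp_add]
  congr 2
  push_cast
  ring

private theorem fd_neg (d : ℝ) (w : ℂ) :
    FF d w = Complex.exp (((Real.pi / 2 - d : ℝ) : ℂ) * w) * FF d (-w) := by
  unfold FF
  have h : completedRiemannZeta (1 / 2 + I * w) = completedRiemannZeta (1 / 2 + I * (-w)) := by
    rw [← completedRiemannZeta_one_sub (1 / 2 + I * w)]
    congr 1
    ring
  rw [h, ← mul_assoc, ← Complex.exp_add]
  congr 2
  push_cast
  ring

private theorem fd_nexp (c : ℝ) (w : ℂ) : ‖Complex.exp ((c : ℂ) * w)‖ = Real.exp (c * w.re) := by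
  rw [Complex.norm_exp]
  congr 1
  simp

theorem F_decay {d : ℝ} (h0 : 0 < d) (h1 : d ≤ 1 / 2) :
    ∃ C k : ℝ, 0 < C ∧ 0 < k ∧ ∀ w : ℂ, |w.im| ≤ 1 / 4 → ‖FF d w‖ ≤ C * Real.exp (-(k * |w.re|)) := by
  obtain ⟨C1, hC1, hb1⟩ := fd_bd (d := d / 2) (by linarith) (by linarith)
  obtain ⟨C2, hC2, hb2⟩ := fd_bd h0 h1
  have hpi := Real.pi_gt_three
  refine ⟨max C1 C2, d / 4, lt_max_of_lt_left hC1, by linarith, fun w hw => ?_⟩
  rcases le_total 0 w.re with hre | hre
  · rw [fd_shift d (d / 2) w, norm_mul, fd_nexp, abs_of_nonneg hre]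
    have h2 : (d / 2 / 2 - d / 2) * w.re = -(d / 4 * w.re) := by ring
    rw [h2, mul_comm]
    exact mul_le_mul_of_nonneg_right ((hb1 w hw).trans (le_max_left _ _)) (Real.exp_pos _).le
  · rw [fd_neg d w, norm_mul, fd_nexp, abs_of_nonpos hre, mul_comm]
    have h2 : Real.exp ((Real.pi / 2 - d) * w.re) ≤ Real.exp (-(d / 4 * -w.re)) := by
      apply Real.exp_le_exp.2
      nlinarith
    have h3 : ‖FF d (-w)‖ ≤ max C1 C2 := by
      refine (hb2 (-w) ?_).trans (le_max_right _ _)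
      rw [Complex.neg_im, abs_neg]
      exact hw
    exact mul_le_mul h3 h2 (Real.exp_pos _).le (le_trans hC1.le (le_max_left _ _))

theorem F_diff (d : ℝ) : DifferentiableOn ℂ (FF d) {w : ℂ | |w.im| < 1 / 2} := by
  intro w hw
  obtain ⟨hw1, hw2⟩ := abs_lt.1 (show |w.im| < 1 / 2 from hw)
  apply DifferentiableAt.differentiableWithinAt
  unfold FF
  have hre : (1 / 2 + I * w).re = 1 / 2 - w.im := by
    simp
    ring
  have hs0 : (1 / 2 + I * w) ≠ 0 := by
    intro h
    rw [h, Complex.zero_re] at hre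
    linarith
  have hs1 : (1 / 2 + I * w) ≠ 1 := by
    intro h
    rw [h, Complex.one_re] at hre
    linarith
  have h2 : DifferentiableAt ℂ (fun w : ℂ => 1 / 2 + I * w) w := by fun_prop
  have h3 : DifferentiableAt ℂ (fun w : ℂ => completedRiemannZeta (1 / 2 + I * w)) w :=
    (differentiableAt_completedZeta hs0 hs1).comp w h2
  exact DifferentiableAt.mul (by fun_prop) h3

theorem F_cont {d : ℝ} {w : ℂ} (hw : |w.im| < 1 / 2) : Continuous fun t : ℝ => FF d ((t : ℂ) + w) := by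
  have h := (F_diff d).continuousOn
  have hm : Continuous fun t : ℝ => (t : ℂ) + w := by fun_prop
  refine h.comp_continuous hm fun t => ?_
  show |((t : ℂ) + w).im| < 1 / 2
  rw [Complex.add_im, Complex.ofReal_im, zero_add]
  exact hw

theorem F_integrable {d : ℝ} (h0 : 0 < d) (h1 : d ≤ 1 / 2) {w : ℂ} (hw : |w.im| ≤ 1 / 4) :
    Integrable fun t : ℝ => FF d ((t : ℂ) + w) := by
  obtain ⟨C, k, hC, hk, hb⟩ := F_decay h0 h1
  have hi : Integrable (fun t : ℝ => C * Real.exp (-(k * |t + w.re|))) :=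
    ((fd_expabs hk).comp_add_right w.re).const_mul C
  refine Integrable.mono' hi
    (F_cont (lt_of_le_of_lt hw (by norm_num))).aestronglyMeasurable
    (Filter.Eventually.of_forall fun t => ?_)
  have h2 := hb ((t : ℂ) + w) (by rw [Complex.add_im, Complex.ofReal_im, zero_add]; exact hw)
  rwa [Complex.add_re, Complex.ofReal_re] at h2

end Pool.Agent.H28.ZT
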