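import Pool.Agent.H14.Sel.GamB

/-!
# GAM (chapter A): `|Γ(1/4 + it/2)| ≥ c t^(-1/4) e^(-πt/4)`

`Pool/Agent/H14/Sel/GamB.lean`, `gamma_le`: `‖Γ(7/4+iy)‖ ≤ C (1+|y|)^(5/4) e^(-π|y|/2)`; `Γ(7/4+iy) = (3/4+iy) Γ(3/4+iy)`
(`Complex.Gamma_add_one`), so `‖Γ(3/4+iy)‖ ≤ C (1+|y|)^(1/4) e^(-π|y|/2)`.  Reflection (`Complex.Gamma_mul_Gamma_one_sub`) at
`s = 1/4 + iy`, `1 - s = 3/4 - iy` (`gamma_le` at `-y`): `‖Γ(1/4+iy)‖ ‖Γ(3/4-iy)‖ = π/‖sin π(1/4+iy)‖ ≥ π e^(-π|y|)`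
(`‖sin(a+ib)‖ ≤ cosh b ≤ e^|b|`).  `y = t/2`, `(1 + t/2) ≤ 2t`.
-/

set_option autoImplicit false

namespace Pool.Agent.H28.ZT

open Complex in
theorem gam_sin_le (z : ℂ) : ‖Complex.sin z‖ ≤ Real.exp |z.im| := by
  have e : Complex.sin z = (Complex.exp (-z * I) - Complex.exp (z * I)) * I / 2 := rfl
  rw [e, norm_div, norm_mul, Complex.norm_I, mul_one]
  have h1 : ‖Complex.exp (-z * I)‖ ≤ Real.exp |z.im| := by
    rw [Complex.norm_exp]
    apply Real.exp_le_exp.2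
    simp
    exact le_abs_self _
  have h2 : ‖Complex.exp (z * I)‖ ≤ Real.exp |z.im| := by
    rw [Complex.norm_exp]
    apply Real.exp_le_exp.2
    simp
    exact neg_le_abs _
  have h3 := norm_sub_le (Complex.exp (-z * I)) (Complex.exp (z * I))
  have h4 : ‖(2 : ℂ)‖ = 2 := by simp
  rw [h4, div_le_iff₀ (by norm_num)]
  linarith

open Complex in
theorem gam_low : ∃ c : ℝ, 0 < c ∧ ∀ t : ℝ, 1 ≤ t →
    c * t ^ (-(1 / 4) : ℝ) * Real.exp (-(Real.pi * t / 4)) ≤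
      ‖Complex.Gamma (1 / 4 + Complex.I * ((t / 2 : ℝ) : ℂ))‖ := by
  obtain ⟨C0, hC0⟩ := Pool.Agent.H14.Sel.gamma_le
  set C : ℝ := max C0 1 with hCdef
  have hC1 : 0 < C := lt_of_lt_of_le one_pos (le_max_right _ _)
  have hC : ∀ t : ℝ, ‖Complex.Gamma (7 / 4 + t * I)‖ ≤
      C * (1 + |t|) ^ (5 / 4 : ℝ) * Real.exp (-(Real.pi / 2 * |t|)) := by
    intro t
    refine (hC0 t).trans ?_
    apply mul_le_mul_of_nonneg_right _ (Real.exp_pos _).le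
    apply mul_le_mul_of_nonneg_right (le_max_left _ _)
    positivity
  refine ⟨Real.pi / (3 * C) * 2 ^ (-(1 / 4) : ℝ), by positivity, ?_⟩
  intro t ht
  set y : ℝ := t / 2 with hy
  have hy1 : 1 / 2 ≤ y := by rw [hy]; linarith
  have hy0 : 0 < y := by linarith
  -- the upper bound for the other value
  have h1 : ‖Complex.Gamma (3 / 4 - I * (y : ℂ))‖ ≤
      3 * C * (1 + y) ^ (1 / 4 : ℝ) * Real.exp (-(Real.pi / 2 * y)) := by
    have h2 := hC (-y)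
    rw [abs_neg, abs_of_pos hy0] at h2
    have hne : (3 / 4 - I * (y : ℂ)) ≠ 0 := by
      intro h
      have := congrArg Complex.re h
      simp at this
    have h3 := Complex.Gamma_add_one (3 / 4 - I * (y : ℂ)) hne
    have e1 : (3 / 4 - I * (y : ℂ)) + 1 = 7 / 4 + ((-y : ℝ) : ℂ) * I := by
      push_cast
      ring
    rw [e1] at h3
    rw [h3, norm_mul] at h2
    have h4 : (1 + y) / 3 ≤ ‖(3 / 4 - I * (y : ℂ))‖ := by
      have h5 : |(3 / 4 - I * (y : ℂ)).im| ≤ ‖(3 / 4 - I * (y : ℂ))‖ := Complex.abs_im_le_norm _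
      have h6 : (3 / 4 - I * (y : ℂ)).im = -y := by simp
      rw [h6, abs_neg, abs_of_pos hy0] at h5
      linarith
    have h7 : (1 + y) / 3 * ‖Complex.Gamma (3 / 4 - I * (y : ℂ))‖ ≤
        C * (1 + y) ^ (5 / 4 : ℝ) * Real.exp (-(Real.pi / 2 * y)) :=
      (mul_le_mul_of_nonneg_right h4 (norm_nonneg _)).trans h2
    have h8 : (1 + y) ^ (5 / 4 : ℝ) = (1 + y) * (1 + y) ^ (1 / 4 : ℝ) := by
      rw [show (5 / 4 : ℝ) = 1 + 1 / 4 by norm_num, Real.rpow_add (by linarith), Real.rpow_one]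
    rw [h8] at h7
    have h9 : 0 < (1 + y) / 3 := by linarith
    have h10 : (1 + y) / 3 * ‖Complex.Gamma (3 / 4 - I * (y : ℂ))‖ ≤
        (1 + y) / 3 * (3 * C * (1 + y) ^ (1 / 4 : ℝ) * Real.exp (-(Real.pi / 2 * y))) := by
      refine h7.trans (le_of_eq ?_)
      ring
    exact le_of_mul_le_mul_left h10 h9
  -- reflection
  have h2 := Complex.Gamma_mul_Gamma_one_sub (1 / 4 + I * (y : ℂ))
  have e2 : (1 : ℂ) - (1 / 4 + I * (y : ℂ)) = 3 / 4 - I * (y : ℂ) := by ring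
  rw [e2] at h2
  have hsin : ‖Complex.sin ((Real.pi : ℂ) * (1 / 4 + I * (y : ℂ)))‖ ≤ Real.exp (Real.pi * y) := by
    have h3 := gam_sin_le ((Real.pi : ℂ) * (1 / 4 + I * (y : ℂ)))
    have h4 : ((Real.pi : ℂ) * (1 / 4 + I * (y : ℂ))).im = Real.pi * y := by
      rw [Complex.im_ofReal_mul]
      simp
    rw [h4, abs_of_pos (by positivity)] at h3
    exact h3
  have hsin0 : Complex.sin ((Real.pi : ℂ) * (1 / 4 + I * (y : ℂ))) ≠ 0 := by
    intro h0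
    rw [Complex.sin_eq_zero_iff] at h0
    obtain ⟨k, hk⟩ := h0
    have h3 := congrArg Complex.im hk
    rw [Complex.im_ofReal_mul] at h3
    have h4 : ((k : ℂ) * (Real.pi : ℂ)).im = 0 := by
      rw [Complex.im_mul_ofReal]
      simp
    rw [h4] at h3
    have h5 : (1 / 4 + I * (y : ℂ)).im = y := by simp
    rw [h5] at h3
    have : 0 < Real.pi * y := by positivity
    linarith
  have hprod : ‖Complex.Gamma (1 / 4 + I * (y : ℂ))‖ * ‖Complex.Gamma (3 / 4 - I * (y : ℂ))‖ =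
      Real.pi / ‖Complex.sin ((Real.pi : ℂ) * (1 / 4 + I * (y : ℂ)))‖ := by
    rw [← norm_mul, h2, norm_div, Complex.norm_real, Real.norm_of_nonneg Real.pi_pos.le]
  have hlow : Real.pi * Real.exp (-(Real.pi * y)) ≤
      ‖Complex.Gamma (1 / 4 + I * (y : ℂ))‖ * ‖Complex.Gamma (3 / 4 - I * (y : ℂ))‖ := by
    rw [hprod, Real.exp_neg, ← div_eq_mul_inv]
    exact div_le_div_of_nonneg_left Real.pi_pos.le (norm_pos_iff.2 hsin0) hsin
  have h5 : Real.pi * Real.exp (-(Real.pi * y)) ≤ ‖Complex.Gamma (1 / 4 + I * (y : ℂ))‖ *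
      (3 * C * (1 + y) ^ (1 / 4 : ℝ) * Real.exp (-(Real.pi / 2 * y))) :=
    hlow.trans (mul_le_mul_of_nonneg_left h1 (norm_nonneg _))
  have hP : 0 < 3 * C * (1 + y) ^ (1 / 4 : ℝ) * Real.exp (-(Real.pi / 2 * y)) := by
    have : 0 < (1 + y) ^ (1 / 4 : ℝ) := Real.rpow_pos_of_pos (by linarith) _
    positivity
  have h6 : Real.pi * Real.exp (-(Real.pi * y)) / (3 * C * (1 + y) ^ (1 / 4 : ℝ) * Real.exp (-(Real.pi / 2 * y))) ≤
      ‖Complex.Gamma (1 / 4 + I * (y : ℂ))‖ := by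
    rw [div_le_iff₀ hP]
    exact h5
  refine le_trans ?_ h6
  rw [le_div_iff₀ hP]
  -- the elementary inequality
  have h7 : (1 + y) ^ (1 / 4 : ℝ) ≤ (2 * t) ^ (1 / 4 : ℝ) :=
    Real.rpow_le_rpow (by linarith) (by rw [hy]; linarith) (by norm_num)
  have h8 : (2 : ℝ) ^ (-(1 / 4) : ℝ) * t ^ (-(1 / 4) : ℝ) * (2 * t) ^ (1 / 4 : ℝ) = 1 := by
    rw [← Real.mul_rpow (by norm_num) (by linarith), ← Real.rpow_add (by linarith)]
    norm_num
  have h9 : Real.exp (-(Real.pi * t / 4)) * Real.exp (-(Real.pi / 2 * y)) = Real.exp (-(Real.pi * y)) := by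
    rw [← Real.exp_add]
    congr 1
    rw [hy]
    ring
  have hpos : 0 ≤ (2 : ℝ) ^ (-(1 / 4) : ℝ) * t ^ (-(1 / 4) : ℝ) := by
    have : 0 ≤ t := by linarith
    positivity
  calc Real.pi / (3 * C) * 2 ^ (-(1 / 4) : ℝ) * t ^ (-(1 / 4) : ℝ) * Real.exp (-(Real.pi * t / 4)) *
        (3 * C * (1 + y) ^ (1 / 4 : ℝ) * Real.exp (-(Real.pi / 2 * y)))
      = Real.pi * (2 ^ (-(1 / 4) : ℝ) * t ^ (-(1 / 4) : ℝ) * (1 + y) ^ (1 / 4 : ℝ)) *
        (Real.exp (-(Real.pi * t / 4)) * Real.exp (-(Real.pi / 2 * y))) := by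
        field_simp
    _ ≤ Real.pi * (2 ^ (-(1 / 4) : ℝ) * t ^ (-(1 / 4) : ℝ) * (2 * t) ^ (1 / 4 : ℝ)) *
        (Real.exp (-(Real.pi * t / 4)) * Real.exp (-(Real.pi / 2 * y))) := by
        apply mul_le_mul_of_nonneg_right _ (by positivity)
        apply mul_le_mul_of_nonneg_left _ Real.pi_pos.le
        exact mul_le_mul_of_nonneg_left h7 hpos
    _ = Real.pi * Real.exp (-(Real.pi * y)) := by
        rw [h8, h9, mul_one]

end Pool.Agent.H28.ZT
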