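import Pool.Agent.H28.ZT.FDec
import Pool.Agent.H28.ZT.Gam

/-!
# FLOW (chapter A): `|FF(t)| = a(t) |ζ(1/2+it)|` with `a(t) ≥ c T^(-1/4)`

`completedRiemannZeta s = Gammaℝ s * riemannZeta s`, `Gammaℝ s = π^(-s/2) Γ(s/2)` (`riemannZeta_def_of_ne_zero`),
so `‖FF d t‖ = exp ((π/4-d/2) t) π^(-1/4) ‖Γ(1/4+it/2)‖ ‖ζ(1/2+it)‖`, and for `d = 1/T`, `1 ≤ t ≤ 2T`: GAM, `t^(-1/4) ≥ (2T)^(-1/4)`,
`exp (-dt/2) ≥ e^(-1)`.
-/

set_option autoImplicit false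

namespace Pool.Agent.H28.ZT

open Complex

theorem F_low : ∃ c : ℝ, 0 < c ∧ ∀ T : ℝ, 2 ≤ T → ∀ t : ℝ, 1 ≤ t → t ≤ 2 * T →
    c * T ^ (-(1 / 4) : ℝ) * ‖riemannZeta (1 / 2 + I * (t : ℂ))‖ ≤ ‖FF (1 / T) (t : ℂ)‖ := by
  obtain ⟨c, hc, hgam⟩ := gam_low
  have hpi := Real.pi_pos
  refine ⟨Real.pi ^ (-(1 / 4) : ℝ) * c * (2 : ℝ) ^ (-(1 / 4) : ℝ) * Real.exp (-1), by positivity,
    fun T hT t ht htT => ?_⟩
  have hT0 : 0 < T := by linarith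
  have ht0 : 0 < t := by linarith
  obtain ⟨s, hs⟩ : ∃ s : ℂ, s = 1 / 2 + I * (t : ℂ) := ⟨_, rfl⟩
  have hre : s.re = 1 / 2 := by
    rw [hs]
    simp
  have hs0 : s ≠ 0 := by
    intro h
    rw [h, zero_re] at hre
    norm_num at hre
  have hG : Gammaℝ s ≠ 0 := Gammaℝ_ne_zero_of_re_pos (by rw [hre]; norm_num)
  have h1 : completedRiemannZeta s = Gammaℝ s * riemannZeta s := by
    rw [riemannZeta_def_of_ne_zero hs0]
    field_simp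
  have h2 : s / 2 = 1 / 4 + I * ((t / 2 : ℝ) : ℂ) := by
    rw [hs]
    push_cast
    ring
  have h3 : ‖Gammaℝ s‖ = Real.pi ^ (-(1 / 4) : ℝ) *
      ‖Complex.Gamma (1 / 4 + I * ((t / 2 : ℝ) : ℂ))‖ := by
    rw [Gammaℝ_def, norm_mul, h2, norm_cpow_eq_rpow_re_of_pos hpi]
    congr 2
    rw [neg_div, h2]
    simp
  have h4 : ‖Complex.exp (((Real.pi / 4 - (1 / T) / 2 : ℝ) : ℂ) * (t : ℂ))‖ =
      Real.exp ((Real.pi / 4 - (1 / T) / 2) * t) := by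
    rw [← Complex.ofReal_mul, Complex.norm_exp, Complex.ofReal_re]
  unfold FF
  rw [norm_mul, h4, ← hs, h1, norm_mul, h3]
  have hg := hgam t ht
  have h5 : Real.exp ((Real.pi / 4 - (1 / T) / 2) * t) * Real.exp (-(Real.pi * t / 4)) =
      Real.exp (-(t / (2 * T))) := by
    rw [← Real.exp_add]
    congr 1
    field_simp
    ring
  have h6 : Real.exp (-1) ≤ Real.exp (-(t / (2 * T))) := by
    apply Real.exp_le_exp.2
    rw [neg_le_neg_iff, div_le_one (by positivity)]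
    exact htT
  have h7 : (2 : ℝ) ^ (-(1 / 4) : ℝ) * T ^ (-(1 / 4) : ℝ) ≤ t ^ (-(1 / 4) : ℝ) := by
    rw [← Real.mul_rpow (by norm_num) hT0.le]
    exact Real.rpow_le_rpow_of_nonpos ht0 htT (by norm_num)
  have hz := norm_nonneg (riemannZeta s)
  have hp4 : 0 < Real.pi ^ (-(1 / 4) : ℝ) := Real.rpow_pos_of_pos hpi _
  have he := Real.exp_pos ((Real.pi / 4 - (1 / T) / 2) * t)
  have h8 : Real.pi ^ (-(1 / 4) : ℝ) * c * (2 : ℝ) ^ (-(1 / 4) : ℝ) * Real.exp (-1) *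
      T ^ (-(1 / 4) : ℝ) ≤ Real.exp ((Real.pi / 4 - (1 / T) / 2) * t) *
        (Real.pi ^ (-(1 / 4) : ℝ) * ‖Complex.Gamma (1 / 4 + I * ((t / 2 : ℝ) : ℂ))‖) := by
    calc Real.pi ^ (-(1 / 4) : ℝ) * c * (2 : ℝ) ^ (-(1 / 4) : ℝ) * Real.exp (-1) *
        T ^ (-(1 / 4) : ℝ)
        = (Real.pi ^ (-(1 / 4) : ℝ) * c) * ((2 : ℝ) ^ (-(1 / 4) : ℝ) * T ^ (-(1 / 4) : ℝ)) *
            Real.exp (-1) := by ring
      _ ≤ (Real.pi ^ (-(1 / 4) : ℝ) * c) * t ^ (-(1 / 4) : ℝ) * Real.exp (-(t / (2 * T))) := by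
          have a1 : (Real.pi ^ (-(1 / 4) : ℝ) * c) *
              ((2 : ℝ) ^ (-(1 / 4) : ℝ) * T ^ (-(1 / 4) : ℝ)) ≤
              (Real.pi ^ (-(1 / 4) : ℝ) * c) * t ^ (-(1 / 4) : ℝ) :=
            mul_le_mul_of_nonneg_left h7 (by positivity)
          exact mul_le_mul a1 h6 (Real.exp_pos _).le (by positivity)
      _ = Real.exp ((Real.pi / 4 - (1 / T) / 2) * t) * (Real.pi ^ (-(1 / 4) : ℝ) *
            (c * t ^ (-(1 / 4) : ℝ) * Real.exp (-(Real.pi * t / 4)))) := by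
          rw [← h5]
          ring
      _ ≤ _ := mul_le_mul_of_nonneg_left (mul_le_mul_of_nonneg_left hg hp4.le) he.le
  calc Real.pi ^ (-(1 / 4) : ℝ) * c * (2 : ℝ) ^ (-(1 / 4) : ℝ) * Real.exp (-1) *
      T ^ (-(1 / 4) : ℝ) * ‖riemannZeta s‖
      ≤ (Real.exp ((Real.pi / 4 - (1 / T) / 2) * t) *
        (Real.pi ^ (-(1 / 4) : ℝ) * ‖Complex.Gamma (1 / 4 + I * ((t / 2 : ℝ) : ℂ))‖)) *
        ‖riemannZeta s‖ := mul_le_mul_of_nonneg_right h8 hz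
    _ = _ := by ring

end Pool.Agent.H28.ZT
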