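import Pool.Agent.H28.ZT.MelC
import Pool.Agent.H28.ZT.GDec

/-!
# FREP (chapter A): `FF` is a Fourier transform, and is real

`s = 1/2 + i w`, `Re s = 1/2 - Im w ∈ (0,1)`.  MELC with `z = z0 d`: `z^(-s/2) = exp (-i(π/2-d) s/2)` (principal),
`exp (i(π/2-d) s/2) = exp (i(π/8-d/4)) exp (-(π/4-d/2) w)`, so `FF d w = exp (i(π/8-d/4)) ∫_0^∞ (..) x^(s/2-1) dx`; substitute
`x = exp (2y)` (`dx/x = 2 dy`, `integral_comp_exp...` or `MeasureTheory.integral_image_eq_integral_abs_deriv_smul`).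
Integrability of `gg d y · exp (i y w)`: GDEC, `‖exp (i y w)‖ = exp (-y Im w) ≤ exp (|y| |Im w|)`.
Real: conjugate the integral for real `w = t` and use `gg_symm` (substitution `y -> -y`).
-/

set_option autoImplicit false

namespace Pool.Agent.H28.ZT

open Complex MeasureTheory

/-- integrability of a two-sided decaying exponential -/
private theorem fr_expabs {k : ℝ} (hk : 0 < k) : Integrable (fun y : ℝ => Real.exp (-(k * |y|))) := by
  rw [← integrableOn_univ, ← Set.Iic_union_Ioi (a := (0 : ℝ))]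
  apply IntegrableOn.union
  · have h := (integrableOn_Ici_iff_integrableOn_Ioi (μ := volume)).2 (exp_neg_integrableOn_Ioi 0 hk)
    have h2 := (integrableOn_Ici_iff_integrableOn_Ioi (μ := volume)).1 h
    have h3 : IntegrableOn (fun y : ℝ => Real.exp (k * y)) (Set.Iic 0) := by
      have := integrableOn_exp_mul_Iic hk 0
      exact this
    refine h3.congr_fun (fun y hy => ?_) measurableSet_Iic
    have hy' : y ≤ 0 := hy
    show Real.exp (k * y) = Real.exp (-(k * |y|))
    rw [abs_of_nonpos hy']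
    congr 1
    ring
  · have h := exp_neg_integrableOn_Ioi 0 hk
    refine h.congr_fun (fun y hy => ?_) measurableSet_Ioi
    have hy' : 0 < y := hy
    show Real.exp (-k * y) = Real.exp (-(k * |y|))
    rw [abs_of_pos hy']
    congr 1
    ring

private theorem fr_normexp (y : ℝ) (w : ℂ) : ‖Complex.exp (I * (y : ℂ) * w)‖ = Real.exp (-(y * w.im)) := by
  rw [Complex.norm_exp]
  congr 1
  simp

theorem F_int {d : ℝ} (h0 : 0 < d) (h1 : d ≤ 1 / 2) {w : ℂ} (hw : |w.im| < 1 / 2) :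
    Integrable (fun y : ℝ => gg d y * Complex.exp (I * (y : ℂ) * w)) := by
  obtain ⟨C, hC, hb⟩ := gg_decay h0 h1
  have hk : 0 < 1 / 2 - |w.im| := by linarith
  refine Integrable.mono' ((fr_expabs hk).const_mul C) ?_ (Filter.Eventually.of_forall fun y => ?_)
  · apply Continuous.aestronglyMeasurable
    exact (gg_cont h0 h1).mul (by fun_prop)
  · rw [norm_mul, fr_normexp]
    have h2 : Real.exp (-(y * w.im)) ≤ Real.exp (|y| * |w.im|) := by
      apply Real.exp_le_exp.2
      rw [← abs_mul]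
      exact neg_le_abs _
    calc ‖gg d y‖ * Real.exp (-(y * w.im)) ≤ (C * Real.exp (-(|y| / 2))) * Real.exp (|y| * |w.im|) :=
          mul_le_mul (hb y) h2 (Real.exp_pos _).le (by positivity)
      _ = C * Real.exp (-((1 / 2 - |w.im|) * |y|)) := by
          rw [mul_assoc, ← Real.exp_add]
          congr 2
          ring

private theorem fr_z0 (d : ℝ) (h0 : 0 < d) (h1 : d ≤ 1 / 2) (c : ℂ) :
    (z0 d) ^ c = Complex.exp (I * ((Real.pi / 2 - d : ℝ) : ℂ) * c) := by
  unfold z0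
  rw [Complex.cpow_def_of_ne_zero (Complex.exp_ne_zero _)]
  have him : (I * ((Real.pi / 2 - d : ℝ) : ℂ)).im = Real.pi / 2 - d := by simp
  rw [Complex.log_exp]
  · rw [him]
    have := Real.pi_gt_three
    linarith
  · rw [him]
    have := Real.pi_gt_three
    linarith

/-- the substitution `x = exp (2y)` -/
private theorem fr_subst (G : ℝ → ℂ) :
    ∫ x in Set.Ioi (0 : ℝ), G x = ∫ y : ℝ, ((2 * Real.exp (2 * y) : ℝ) : ℂ) * G (Real.exp (2 * y)) := by
  have himg : (fun y : ℝ => Real.exp (2 * y)) '' Set.univ = Set.Ioi 0 := by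
    ext x
    constructor
    · rintro ⟨y, -, rfl⟩
      exact Real.exp_pos _
    · intro hx
      refine ⟨Real.log x / 2, trivial, ?_⟩
      show Real.exp (2 * (Real.log x / 2)) = x
      rw [mul_div_cancel₀ _ (by norm_num : (2 : ℝ) ≠ 0), Real.exp_log hx]
  have hd : ∀ y ∈ (Set.univ : Set ℝ), HasDerivWithinAt (fun y : ℝ => Real.exp (2 * y))
      (2 * Real.exp (2 * y)) Set.univ y := by
    intro y _
    have h := ((hasDerivAt_id y).const_mul 2).exp
    simp only [id] at h
    refine (h.congr_deriv ?_).hasDerivWithinAt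
    ring
  have hinj : Set.InjOn (fun y : ℝ => Real.exp (2 * y)) Set.univ := by
    intro a _ b _ h
    have h' := Real.exp_injective h
    linarith
  have h := integral_image_eq_integral_abs_deriv_smul MeasurableSet.univ hd hinj G
  rw [himg, Measure.restrict_univ] at h
  rw [h]
  apply integral_congr_ae
  refine Filter.Eventually.of_forall fun y => ?_
  show |2 * Real.exp (2 * y)| • G (Real.exp (2 * y)) = _
  rw [abs_of_pos (by positivity), Complex.real_smul]

theorem F_rep {d : ℝ} (h0 : 0 < d) (h1 : d ≤ 1 / 2) {w : ℂ} (hw : |w.im| < 1 / 2) :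
    FF d w = ∫ y : ℝ, gg d y * Complex.exp (I * (y : ℂ) * w) := by
  have hre : 0 < (z0 d).re := by
    rw [z0_re]
    exact Real.sin_pos_of_pos_of_lt_pi h0 (by have := Real.pi_gt_three; linarith)
  obtain ⟨s, hs⟩ : ∃ s : ℂ, s = 1 / 2 + I * w := ⟨_, rfl⟩
  have hsre : s.re = 1 / 2 - w.im := by
    rw [hs]
    simp
    ring
  obtain ⟨hw1, hw2⟩ := abs_lt.1 hw
  have hm := (mel_C hre (s := s) (by rw [hsre]; linarith) (by rw [hsre]; linarith)).2
  rw [fr_subst] at hm
  have hFF : FF d w = Complex.exp (I * ((Real.pi / 8 - d / 4 : ℝ) : ℂ)) *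
      ((z0 d) ^ (-(s / 2)) * completedRiemannZeta s) := by
    unfold FF
    rw [fr_z0 d h0 h1, ← mul_assoc, ← Complex.exp_add, ← hs]
    congr 2
    rw [hs]
    push_cast
    linear_combination ((1 / 4) * (Real.pi : ℂ) * w - (1 / 2) * (d : ℂ) * w) * Complex.I_sq
  rw [hFF, ← hm, ← integral_const_mul]
  apply integral_congr_ae
  refine Filter.Eventually.of_forall fun y => ?_
  unfold gg
  beta_reduce
  have hpos : 0 < Real.exp (2 * y) := Real.exp_pos _
  have e1 : (((Real.exp (2 * y)) ^ (-(1 / 2) : ℝ) : ℝ) : ℂ) = ((Real.exp (-y) : ℝ) : ℂ) := by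
    congr 1
    rw [← Real.exp_mul]
    congr 1
    ring
  have e2 : (z0 d) ^ (-(1 / 2) : ℂ) = Complex.exp (-(I * ((Real.pi / 4 - d / 2 : ℝ) : ℂ))) := by
    rw [fr_z0 d h0 h1]
    congr 1
    push_cast
    ring
  have e3 : ((2 * Real.exp (2 * y) : ℝ) : ℂ) * (((Real.exp (2 * y) : ℝ) : ℂ) ^ (s / 2 - 1)) =
      2 * ((Real.exp (y / 2) : ℝ) : ℂ) * Complex.exp (I * (y : ℂ) * w) := by
    have hne : ((Real.exp (2 * y) : ℝ) : ℂ) ≠ 0 := by exact_mod_cast hpos.ne'
    rw [Complex.cpow_def_of_ne_zero hne, ← Complex.ofReal_log hpos.le, Real.log_exp]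
    push_cast
    rw [mul_assoc, ← Complex.exp_add, mul_assoc (2 : ℂ) (Complex.exp ((y : ℂ) / 2)), ← Complex.exp_add]
    congr 2
    rw [hs]
    ring
  rw [e1, e2]
  calc _ = Complex.exp (I * ((Real.pi / 8 - d / 4 : ℝ) : ℂ)) *
        (((2 * Real.exp (2 * y) : ℝ) : ℂ) * (((Real.exp (2 * y) : ℝ) : ℂ) ^ (s / 2 - 1))) *
        (om (((Real.exp (2 * y) : ℝ) : ℂ) * z0 d) -
          (1 / 2 : ℂ) * ((((Real.exp (-y) : ℝ) : ℂ)) * Complex.exp (-(I * ((Real.pi / 4 - d / 2 : ℝ) : ℂ))))) := by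
        ring
    _ = _ := by
        rw [e3]
        ring

theorem F_conj {d : ℝ} (h0 : 0 < d) (h1 : d ≤ 1 / 2) {w : ℂ} (hw : |w.im| < 1 / 2) :
    (starRingEnd ℂ) (FF d w) = FF d ((starRingEnd ℂ) w) := by
  have hw' : |((starRingEnd ℂ) w).im| < 1 / 2 := by
    rw [Complex.conj_im, abs_neg]
    exact hw
  rw [F_rep h0 h1 hw, F_rep h0 h1 hw', ← integral_conj,
    ← integral_neg_eq_self (fun y : ℝ => gg d y * Complex.exp (I * (y : ℂ) * ((starRingEnd ℂ) w)))]
  apply integral_congr_ae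
  refine Filter.Eventually.of_forall fun y => ?_
  beta_reduce
  rw [gg_symm h0 h1, map_mul, ← Complex.exp_conj]
  congr 2
  rw [map_mul, map_mul, Complex.conj_I, Complex.conj_ofReal]
  push_cast
  ring

theorem F_real {d : ℝ} (h0 : 0 < d) (h1 : d ≤ 1 / 2) (t : ℝ) : (FF d (t : ℂ)).im = 0 := by
  have h := F_conj h0 h1 (w := (t : ℂ)) (by simp)
  rw [Complex.conj_ofReal] at h
  exact Complex.conj_eq_iff_im.1 h

end Pool.Agent.H28.ZT
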