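import Pool.Agent.H28.ZT.Link0

/-!
# LAMF (chapter Q): the exponents, family I

(L) `np p (-(i y)) = exp (-i y log p)`; `‖e^a - e^b‖ ≤ ‖a - b‖ e^(max (Re a, Re b))`.
(I) `w = v`, `w' = v'`, `vv = (v, v', 0)`, `δ = v - v'`: `x = (0, δ, v ; δ, 0, -v')`, `∑_k p^(i x_k) = 2 + 2 p^(iδ) + p^(iv) + p^(-iv')`,
`∑_{k,m} p^(i(x_k + x_m)) = p^(iδ) |p^(iv) + p^(iv') + 1|² = p^(iδ) (3 + 2 cos δ + 2 cos v + 2 cos v')` (with `log p`); so
`lamA (y = δ) = -1/2 (2 p^(-iδ) + 2 + p^(iv') + p^(-iv)) + 1/4 (3 + 2 cos δ + 2 cos v + 2 cos v')`, real part `-1/4 - (cos δ)/2`;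
`lamC (y = δ)` = `-1/2 (2 + 2 p^(iδ) + p^(iv) + p^(-iv')) + 1/4 (..)`, the same real part.
-/

set_option autoImplicit false

namespace Pool.Agent.H28.ZT

open Complex

private theorem lf_exp (a b : ℂ) (ha : a.re ≤ 1) (hb : b.re ≤ 1) :
    ‖Complex.exp a - Complex.exp b‖ ≤ Real.exp 1 * ‖a - b‖ := by
  have hconv : Convex ℝ {z : ℂ | z.re ≤ 1} := convex_halfSpace_re_le 1
  exact hconv.norm_image_sub_le_of_norm_deriv_le (f := Complex.exp) (C := Real.exp 1)
    (fun x _ => Complex.differentiableAt_exp) (fun x hx => by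
      rw [Complex.deriv_exp, Complex.norm_exp]
      exact Real.exp_le_exp.2 hx) hb ha

private theorem lf_np (y y' : ℂ) (p : ℕ) (hp : p.Prime) (h1 : |y.im| * Real.log (p : ℝ) ≤ 1)
    (h2 : |y'.im| * Real.log (p : ℝ) ≤ 1) :
    ‖np p (-(I * y)) - np p (-(I * y'))‖ ≤ Real.exp 1 * ‖y - y'‖ * Real.log (p : ℝ) := by
  have hl : 0 ≤ Real.log (p : ℝ) := Real.log_nonneg (by exact_mod_cast hp.one_lt.le)
  unfold np
  have e : ∀ z : ℂ, (-(I * z) * ((Real.log (p : ℝ) : ℝ) : ℂ)).re = z.im * Real.log (p : ℝ) := by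
    intro z
    rw [Complex.re_mul_ofReal]
    simp
  have hre : ∀ z : ℂ, |z.im| * Real.log (p : ℝ) ≤ 1 → (-(I * z) * ((Real.log (p : ℝ) : ℝ) : ℂ)).re ≤ 1 := by
    intro z hz
    rw [e]
    exact (mul_le_mul_of_nonneg_right (le_abs_self _) hl).trans hz
  refine (lf_exp _ _ (hre y h1) (hre y' h2)).trans (le_of_eq ?_)
  have e2 : -(I * y) * ((Real.log (p : ℝ) : ℝ) : ℂ) - -(I * y') * ((Real.log (p : ℝ) : ℝ) : ℂ) =
      -I * (y - y') * ((Real.log (p : ℝ) : ℝ) : ℂ) := by ring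
  rw [e2, norm_mul, norm_mul, norm_neg, Complex.norm_I, one_mul, Complex.norm_real, Real.norm_eq_abs,
    abs_of_nonneg hl]
  ring

private theorem lf_x (z : ℂ) (p : ℕ) (hp : p.Prime) (b : ℝ) (h : |z.im| * Real.log (p : ℝ) ≤ b) :
    ‖np p (I * z)‖ ≤ Real.exp b := by
  have hl : 0 ≤ Real.log (p : ℝ) := Real.log_nonneg (by exact_mod_cast hp.one_lt.le)
  rw [np_norm]
  apply Real.exp_le_exp.2
  have e : (I * z).re = -z.im := by simp
  rw [e]
  exact (mul_le_mul_of_nonneg_right (neg_le_abs _) hl).trans h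

theorem lam_lip : ∃ C : ℝ, 0 < C ∧ ∀ (x : Fin 3 ⊕ Fin 3 → ℂ) (y y' : ℂ) (p : ℕ), p.Prime →
    (∀ k, |(x k).im| * Real.log (p : ℝ) ≤ 1) → |y.im| * Real.log (p : ℝ) ≤ 1 → |y'.im| * Real.log (p : ℝ) ≤ 1 →
    ‖lamA x y p - lamA x y' p‖ ≤ C * ‖y - y'‖ * Real.log (p : ℝ) ∧
    ‖lamC x y p - lamC x y' p‖ ≤ C * ‖y - y'‖ * Real.log (p : ℝ) := by
  have he := Real.exp_pos (1 : ℝ)
  refine ⟨Real.exp 1 * (3 * Real.exp 1 + 9 / 4 * Real.exp 2), by positivity,
    fun x y y' p hp hx hy hy' => ?_⟩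
  have hl : 0 ≤ Real.log (p : ℝ) := Real.log_nonneg (by exact_mod_cast hp.one_lt.le)
  have hd := lf_np y y' p hp hy hy'
  have h1 : ‖∑ k, np p (I * x k)‖ ≤ 6 * Real.exp 1 := by
    calc ‖∑ k, np p (I * x k)‖ ≤ ∑ k, ‖np p (I * x k)‖ := norm_sum_le _ _
      _ ≤ ∑ _k : Fin 3 ⊕ Fin 3, Real.exp 1 := Finset.sum_le_sum fun k _ => lf_x _ p hp 1 (hx k)
      _ = 6 * Real.exp 1 := by
          rw [Finset.sum_const, Finset.card_univ, Fintype.card_sum, Fintype.card_fin, nsmul_eq_mul]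
          norm_num
  have h2 : ‖∑ k : Fin 3, ∑ m : Fin 3, np p (I * (x (Sum.inl k) + x (Sum.inr m)))‖ ≤ 9 * Real.exp 2 := by
    have h3 : ∀ k m : Fin 3, ‖np p (I * (x (Sum.inl k) + x (Sum.inr m)))‖ ≤ Real.exp 2 := by
      intro k m
      refine lf_x _ p hp 2 ?_
      rw [Complex.add_im]
      calc |(x (Sum.inl k)).im + (x (Sum.inr m)).im| * Real.log (p : ℝ)
          ≤ (|(x (Sum.inl k)).im| + |(x (Sum.inr m)).im|) * Real.log (p : ℝ) :=
            mul_le_mul_of_nonneg_right (abs_add_le _ _) hl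
        _ ≤ 2 := by
            rw [add_mul]
            linarith [hx (Sum.inl k), hx (Sum.inr m)]
    calc ‖∑ k : Fin 3, ∑ m : Fin 3, np p (I * (x (Sum.inl k) + x (Sum.inr m)))‖
        ≤ ∑ k : Fin 3, ∑ m : Fin 3, ‖np p (I * (x (Sum.inl k) + x (Sum.inr m)))‖ :=
          (norm_sum_le _ _).trans (Finset.sum_le_sum fun k _ => norm_sum_le _ _)
      _ ≤ ∑ _k : Fin 3, ∑ _m : Fin 3, Real.exp 2 :=
          Finset.sum_le_sum fun k _ => Finset.sum_le_sum fun m _ => h3 k m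
      _ = 9 * Real.exp 2 := by
          simp only [Finset.sum_const, Finset.card_univ, Fintype.card_fin, nsmul_eq_mul]
          norm_num
          ring
  have hX0 : 0 ≤ Real.exp 1 * ‖y - y'‖ * Real.log (p : ℝ) := by positivity
  constructor
  · have e : lamA x y p - lamA x y' p = (np p (-(I * y)) - np p (-(I * y'))) *
        (-(1 / 2 : ℂ) * (∑ k, np p (I * x k)) +
          (1 / 4 : ℂ) * ∑ k : Fin 3, ∑ m : Fin 3, np p (I * (x (Sum.inl k) + x (Sum.inr m)))) := by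
      unfold lamA
      ring
    rw [e, norm_mul]
    have h4 : ‖-(1 / 2 : ℂ) * (∑ k, np p (I * x k)) +
          (1 / 4 : ℂ) * ∑ k : Fin 3, ∑ m : Fin 3, np p (I * (x (Sum.inl k) + x (Sum.inr m)))‖ ≤
          3 * Real.exp 1 + 9 / 4 * Real.exp 2 := by
      refine (norm_add_le _ _).trans ?_
      rw [norm_mul, norm_mul]
      have n1 : ‖-(1 / 2 : ℂ)‖ = 1 / 2 := by
        rw [norm_neg]
        norm_num
      have n2 : ‖(1 / 4 : ℂ)‖ = 1 / 4 := by norm_num
      rw [n1, n2]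
      linarith
    calc _ ≤ (Real.exp 1 * ‖y - y'‖ * Real.log (p : ℝ)) * (3 * Real.exp 1 + 9 / 4 * Real.exp 2) :=
          mul_le_mul hd h4 (norm_nonneg _) hX0
      _ = _ := by ring
  · have e : lamC x y p - lamC x y' p = (np p (-(I * y)) - np p (-(I * y'))) *
        ((1 / 4 : ℂ) * ∑ k : Fin 3, ∑ m : Fin 3, np p (I * (x (Sum.inl k) + x (Sum.inr m)))) := by
      unfold lamC
      ring
    rw [e, norm_mul]
    have h4 : ‖(1 / 4 : ℂ) * ∑ k : Fin 3, ∑ m : Fin 3, np p (I * (x (Sum.inl k) + x (Sum.inr m)))‖ ≤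
          3 * Real.exp 1 + 9 / 4 * Real.exp 2 := by
      rw [norm_mul]
      have n2 : ‖(1 / 4 : ℂ)‖ = 1 / 4 := by norm_num
      rw [n2]
      linarith
    calc _ ≤ (Real.exp 1 * ‖y - y'‖ * Real.log (p : ℝ)) * (3 * Real.exp 1 + 9 / 4 * Real.exp 2) :=
          mul_le_mul hd h4 (norm_nonneg _) hX0
      _ = _ := by ring

private theorem lf_re (z : ℝ) (p : ℕ) : (np p (I * (z : ℂ))).re = Real.cos (z * Real.log (p : ℝ)) := by
  unfold np
  have e : I * (z : ℂ) * ((Real.log (p : ℝ) : ℝ) : ℂ) = ((z * Real.log (p : ℝ) : ℝ) : ℂ) * I := by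
    push_cast
    ring
  rw [e, Complex.exp_ofReal_mul_I_re]

private theorem lf_A (X : Fin 3 ⊕ Fin 3 → ℝ) (y : ℝ) (p : ℕ) :
    (lamA (fun k => (X k : ℂ)) (y : ℂ) p).re =
      -(1 / 2) * (∑ k, Real.cos ((X k - y) * Real.log (p : ℝ))) +
      1 / 4 * ∑ k : Fin 3, ∑ m : Fin 3, Real.cos ((X (Sum.inl k) + X (Sum.inr m) - y) * Real.log (p : ℝ)) := by
  have e1 : ∀ z : ℝ, np p (-(I * (y : ℂ))) * np p (I * (z : ℂ)) = np p (I * ((z - y : ℝ) : ℂ)) := by
    intro z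
    rw [← np_add]
    congr 1
    push_cast
    ring
  have e2 : lamA (fun k => (X k : ℂ)) (y : ℂ) p = ((-(1 / 2) : ℝ) : ℂ) * (∑ k, np p (I * ((X k - y : ℝ) : ℂ))) +
      ((1 / 4 : ℝ) : ℂ) * ∑ k : Fin 3, ∑ m : Fin 3, np p (I * ((X (Sum.inl k) + X (Sum.inr m) - y : ℝ) : ℂ)) := by
    have s1 : np p (-(I * (y : ℂ))) * ∑ k, np p (I * (X k : ℂ)) = ∑ k, np p (I * ((X k - y : ℝ) : ℂ)) := by
      rw [Finset.mul_sum]
      exact Finset.sum_congr rfl fun k _ => e1 (X k)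
    have s2 : np p (-(I * (y : ℂ))) * ∑ k : Fin 3, ∑ m : Fin 3, np p (I * ((X (Sum.inl k) : ℂ) + (X (Sum.inr m) : ℂ))) =
        ∑ k : Fin 3, ∑ m : Fin 3, np p (I * ((X (Sum.inl k) + X (Sum.inr m) - y : ℝ) : ℂ)) := by
      rw [Finset.mul_sum]
      refine Finset.sum_congr rfl fun k _ => ?_
      rw [Finset.mul_sum]
      refine Finset.sum_congr rfl fun m _ => ?_
      have h := e1 (X (Sum.inl k) + X (Sum.inr m))
      push_cast at h ⊢
      exact h
    rw [← s1, ← s2]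
    unfold lamA
    push_cast
    ring
  rw [e2, Complex.add_re, Complex.re_ofReal_mul, Complex.re_ofReal_mul, Complex.re_sum, Complex.re_sum]
  simp_rw [Complex.re_sum, lf_re]

private theorem lf_C (X : Fin 3 ⊕ Fin 3 → ℝ) (y : ℝ) (p : ℕ) :
    (lamC (fun k => (X k : ℂ)) (y : ℂ) p).re =
      -(1 / 2) * (∑ k, Real.cos (X k * Real.log (p : ℝ))) +
      1 / 4 * ∑ k : Fin 3, ∑ m : Fin 3, Real.cos ((X (Sum.inl k) + X (Sum.inr m) - y) * Real.log (p : ℝ)) := by
  have e1 : ∀ z : ℝ, np p (-(I * (y : ℂ))) * np p (I * (z : ℂ)) = np p (I * ((z - y : ℝ) : ℂ)) := by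
    intro z
    rw [← np_add]
    congr 1
    push_cast
    ring
  have e2 : lamC (fun k => (X k : ℂ)) (y : ℂ) p = ((-(1 / 2) : ℝ) : ℂ) * (∑ k, np p (I * ((X k : ℝ) : ℂ))) +
      ((1 / 4 : ℝ) : ℂ) * ∑ k : Fin 3, ∑ m : Fin 3, np p (I * ((X (Sum.inl k) + X (Sum.inr m) - y : ℝ) : ℂ)) := by
    unfold lamC
    congr 1
    · congr 1
      push_cast
      ring
    · congr 1
      · push_cast
        ring
      · rw [Finset.mul_sum]
        refine Finset.sum_congr rfl fun k _ => ?_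
        rw [Finset.mul_sum]
        refine Finset.sum_congr rfl fun m _ => ?_
        have h := e1 (X (Sum.inl k) + X (Sum.inr m))
        push_cast at h ⊢
        exact h
  rw [e2, Complex.add_re, Complex.re_ofReal_mul, Complex.re_ofReal_mul, Complex.re_sum, Complex.re_sum]
  simp_rw [Complex.re_sum, lf_re]

theorem lam_I (v v' : ℝ) (p : ℕ) (hp : p.Prime) :
    (lamA (xx (v : ℂ) (v' : ℂ) ![v, v', 0]) (((v - v' : ℝ)) : ℂ) p).re =
      -(1 / 4) - Real.cos ((v - v') * Real.log (p : ℝ)) / 2 ∧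
    (lamC (xx (v : ℂ) (v' : ℂ) ![v, v', 0]) (((v - v' : ℝ)) : ℂ) p).re =
      -(1 / 4) - Real.cos ((v - v') * Real.log (p : ℝ)) / 2 := by
  set L : ℝ := Real.log (p : ℝ) with hL
  have hx : xx (v : ℂ) (v' : ℂ) ![v, v', 0] = fun k => ((Sum.elim (fun k : Fin 3 => v - ![v, v', 0] k)
      (fun k : Fin 3 => ![v, v', 0] k - v') k : ℝ) : ℂ) := by
    funext k
    rcases k with k | k
    · simp [xx]
    · simp [xx]
  have c1 : Real.cos ((v' - v) * L) = Real.cos ((v - v') * L) := by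
    rw [← Real.cos_neg]
    congr 1
    ring
  have c2 : Real.cos (-v * L) = Real.cos (v * L) := by
    rw [neg_mul, Real.cos_neg]
  have c3' : Real.cos (-v' * L) = Real.cos (v' * L) := by
    rw [neg_mul, Real.cos_neg]
  constructor
  · rw [hx, lf_A]
    simp only [Fintype.sum_sum_type, Fin.sum_univ_three, Sum.elim_inl, Sum.elim_inr, Matrix.cons_val_zero,
      Matrix.cons_val_one, Matrix.cons_val]
    have a1 : v - v - (v - v') = v' - v := by ring
    have a2 : v - v' - (v - v') = 0 := by ring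
    have a3 : v - 0 - (v - v') = v' := by ring
    have a4 : 0 - v' - (v - v') = -v := by ring
    have a5 : v' - v' - (v - v') = v' - v := by ring
    have b1 : v - v + (v - v') - (v - v') = 0 := by ring
    have b2 : v - v + (v' - v') - (v - v') = v' - v := by ring
    have b3 : v - v + (0 - v') - (v - v') = -v := by ring
    have b4 : v - v' + (v - v') - (v - v') = v - v' := by ring
    have b5 : v - v' + (v' - v') - (v - v') = 0 := by ring
    have b6 : v - v' + (0 - v') - (v - v') = -v' := by ring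
    have b7 : v - 0 + (v - v') - (v - v') = v := by ring
    have b8 : v - 0 + (v' - v') - (v - v') = v' := by ring
    have b9 : v - 0 + (0 - v') - (v - v') = 0 := by ring
    rw [a1, a2, a3, a4, a5, b1, b2, b3, b4, b5, b6, b7, b8, b9, ← hL, zero_mul, Real.cos_zero, c1, c2, c3']
    ring
  · rw [hx, lf_C]
    simp only [Fintype.sum_sum_type, Fin.sum_univ_three, Sum.elim_inl, Sum.elim_inr, Matrix.cons_val_zero,
      Matrix.cons_val_one, Matrix.cons_val]
    have b1 : v - v + (v - v') - (v - v') = 0 := by ring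
    have b2 : v - v + (v' - v') - (v - v') = v' - v := by ring
    have b3 : v - v + (0 - v') - (v - v') = -v := by ring
    have b4 : v - v' + (v - v') - (v - v') = v - v' := by ring
    have b5 : v - v' + (v' - v') - (v - v') = 0 := by ring
    have b6 : v - v' + (0 - v') - (v - v') = -v' := by ring
    have b7 : v - 0 + (v - v') - (v - v') = v := by ring
    have b8 : v - 0 + (v' - v') - (v - v') = v' := by ring
    have b9 : v - 0 + (0 - v') - (v - v') = 0 := by ring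
    rw [b1, b2, b3, b4, b5, b6, b7, b8, b9, ← hL, sub_self, sub_self, sub_zero, zero_sub, zero_mul,
      Real.cos_zero, c1, c2, c3']
    ring

end Pool.Agent.H28.ZT
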