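import Mathlib

/-!
# ZPRIM (chapter Q): `log |ζ|` and primes

Euler product (`riemannZeta_eulerProduct_exp_log` or `riemannZeta_eulerProduct_hasProd`): for `Re s > 1`,
`log ‖ζ(s)‖ = ∑_p - log ‖1 - p^(-s)‖`, and `|- log |1 - a| - Re a| ≤ 2 |a|²` for `|a| ≤ 1/2`; `∑_p 2 p^(-2) ≤ 2`.
The sum over primes converges absolutely.  `Re (p^(-s)) = cos (x log p) p^(-1-σ)` for `s = 1 + σ + i x`.
-/

set_option autoImplicit false

namespace Pool.Agent.H28.ZT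

open Complex

private theorem log_bd {a : ℂ} (ha : ‖a‖ ≤ 1 / 2) : ‖-Complex.log (1 - a) - a‖ ≤ ‖a‖ ^ 2 := by
  have h1 := Complex.norm_log_one_add_sub_self_le (z := -a) (by rw [norm_neg]; linarith)
  rw [norm_neg] at h1
  have h2 : -Complex.log (1 - a) - a = -(Complex.log (1 + -a) - -a) := by
    rw [← sub_eq_add_neg]
    ring
  rw [h2, norm_neg]
  refine h1.trans ?_
  have h3 : (1 - ‖a‖)⁻¹ ≤ 2 := by
    rw [inv_le_comm₀ (by linarith) (by norm_num)]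
    linarith
  have h4 : 0 ≤ ‖a‖ ^ 2 := by positivity
  calc ‖a‖ ^ 2 * (1 - ‖a‖)⁻¹ / 2 ≤ ‖a‖ ^ 2 * 2 / 2 := by gcongr
    _ = ‖a‖ ^ 2 := by ring

theorem z_prim : ∃ C : ℝ, 0 < C ∧ ∀ σ x : ℝ, 0 < σ →
    Summable (fun p : Nat.Primes => Real.cos (x * Real.log (p : ℝ)) * ((p : ℕ) : ℝ) ^ (-(1 + σ))) ∧
    |Real.log ‖riemannZeta (1 + (σ : ℂ) + I * (x : ℂ))‖ -
      ∑' p : Nat.Primes, Real.cos (x * Real.log (p : ℝ)) * ((p : ℕ) : ℝ) ^ (-(1 + σ))| ≤ C := by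
  have hsq : Summable (fun p : Nat.Primes => ((p : ℕ) : ℝ) ^ (-(2 : ℝ))) :=
    Nat.Primes.summable_rpow.2 (by norm_num)
  refine ⟨∑' p : Nat.Primes, ((p : ℕ) : ℝ) ^ (-(2 : ℝ)) + 1, ?_, fun σ x hσ => ?_⟩
  · have : 0 ≤ ∑' p : Nat.Primes, ((p : ℕ) : ℝ) ^ (-(2 : ℝ)) := tsum_nonneg fun p => by positivity
    linarith
  set s : ℂ := 1 + (σ : ℂ) + I * (x : ℂ) with hs
  have hre : s.re = 1 + σ := by
    rw [hs]
    simp
  have him : s.im = x := by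
    rw [hs]
    simp
  have hp2 : ∀ p : Nat.Primes, (2 : ℝ) ≤ ((p : ℕ) : ℝ) := fun p => by exact_mod_cast p.2.two_le
  have hn : ∀ p : Nat.Primes, ‖((p : ℕ) : ℂ) ^ (-s)‖ = ((p : ℕ) : ℝ) ^ (-(1 + σ)) := by
    intro p
    rw [norm_natCast_cpow_of_pos p.2.pos, neg_re, hre]
  have hsum1 : Summable (fun p : Nat.Primes => ((p : ℕ) : ℝ) ^ (-(1 + σ))) :=
    Nat.Primes.summable_rpow.2 (by linarith)
  have hcs : Summable (fun p : Nat.Primes => ((p : ℕ) : ℂ) ^ (-s)) := by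
    refine Summable.of_norm ?_
    simp_rw [hn]
    exact hsum1
  have hrep : ∀ p : Nat.Primes, (((p : ℕ) : ℂ) ^ (-s)).re =
      Real.cos (x * Real.log (p : ℝ)) * ((p : ℕ) : ℝ) ^ (-(1 + σ)) := by
    intro p
    have hp0 : ((p : ℕ) : ℂ) ≠ 0 := by exact_mod_cast p.2.ne_zero
    have hp0' : (0 : ℝ) < ((p : ℕ) : ℝ) := by linarith [hp2 p]
    rw [cpow_def_of_ne_zero hp0, ← natCast_log, Complex.exp_re]
    have e1 : (((Real.log ((p : ℕ) : ℝ) : ℝ) : ℂ) * -s).re = Real.log (p : ℕ) * -(1 + σ) := by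
      rw [Complex.re_ofReal_mul, neg_re, hre]
    have e2 : (((Real.log ((p : ℕ) : ℝ) : ℝ) : ℂ) * -s).im = -(x * Real.log (p : ℕ)) := by
      rw [Complex.im_ofReal_mul, neg_im, him]
      ring
    rw [e1, e2, Real.cos_neg, Real.rpow_def_of_pos hp0', mul_comm]
  have hsmall : ∀ p : Nat.Primes, ‖((p : ℕ) : ℂ) ^ (-s)‖ ≤ 1 / 2 := by
    intro p
    rw [hn]
    have h2 := hp2 p
    calc ((p : ℕ) : ℝ) ^ (-(1 + σ)) ≤ ((p : ℕ) : ℝ) ^ (-(1 : ℝ)) :=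
          Real.rpow_le_rpow_of_exponent_le (by linarith) (by linarith)
      _ = 1 / ((p : ℕ) : ℝ) := by rw [Real.rpow_neg_one, one_div]
      _ ≤ 1 / 2 := one_div_le_one_div_of_le (by norm_num) h2
  have hbd : ∀ p : Nat.Primes, ‖-Complex.log (1 - ((p : ℕ) : ℂ) ^ (-s)) - ((p : ℕ) : ℂ) ^ (-s)‖ ≤
      ((p : ℕ) : ℝ) ^ (-(2 : ℝ)) := by
    intro p
    refine (log_bd (hsmall p)).trans ?_
    rw [hn, ← Real.rpow_natCast, ← Real.rpow_mul (Nat.cast_nonneg _)]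
    refine Real.rpow_le_rpow_of_exponent_le (by linarith [hp2 p]) ?_
    push_cast
    linarith
  have hdiff : Summable (fun p : Nat.Primes =>
      -Complex.log (1 - ((p : ℕ) : ℂ) ^ (-s)) - ((p : ℕ) : ℂ) ^ (-s)) :=
    Summable.of_norm_bounded hsq hbd
  have hlog : Summable (fun p : Nat.Primes => -Complex.log (1 - ((p : ℕ) : ℂ) ^ (-s))) := by
    have := hdiff.add hcs
    simpa using this
  have hE := riemannZeta_eulerProduct_exp_log (s := s) (by rw [hre]; linarith)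
  have hlogn : Real.log ‖riemannZeta s‖ =
      (∑' p : Nat.Primes, -Complex.log (1 - ((p : ℕ) : ℂ) ^ (-s))).re := by
    rw [← hE, Complex.norm_exp, Real.log_exp]
  have hcos : (∑' p : Nat.Primes, ((p : ℕ) : ℂ) ^ (-s)).re =
      ∑' p : Nat.Primes, Real.cos (x * Real.log (p : ℝ)) * ((p : ℕ) : ℝ) ^ (-(1 + σ)) := by
    rw [Complex.re_tsum hcs]
    exact tsum_congr hrep
  refine ⟨?_, ?_⟩
  · have h1 := (Complex.hasSum_re hcs.hasSum).summable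
    exact h1.congr hrep
  · rw [hlogn, ← hcos, ← sub_re, ← hlog.tsum_sub hcs]
    have h1 : |(∑' p : Nat.Primes, (-Complex.log (1 - ((p : ℕ) : ℂ) ^ (-s)) - ((p : ℕ) : ℂ) ^ (-s))).re| ≤
        ∑' p : Nat.Primes, ((p : ℕ) : ℝ) ^ (-(2 : ℝ)) :=
      (Complex.abs_re_le_norm _).trans (tsum_of_norm_bounded hsq.hasSum hbd)
    linarith

end Pool.Agent.H28.ZT
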