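import Pool.Agent.H28.ZT.ZLine
import Pool.Agent.H28.ZT.ZPrim
import Pool.Agent.H75.AP.MertensB

/-!
# PSUM (chapter Q): `∑_{p ≤ z} cos (x log p)/p = log log z - log (1 + |x| log z) + O(1)`

`σ = 1/log z ≤ 1`.  `∑_{p≤z} (1 - p^(-σ))/p ≤ σ ∑_{p≤z} log p/p ≤ C` (`H75.AP.mertens_one`), `∑_{p>z} p^(-1-σ) ≤ C`: cut in the pieces
`(z^(e^k), z^(e^(k+1))]` (`mertens_ratio`: sum of `1/p` over a piece `≤ 2`, for `z ≥ u0`; for `z < u0` everything is bounded), factor
`p^(-σ) ≤ exp (-e^k)`.  Then ZPRIM and ZLINE: `- log (σ + |x|) = log log z - log (1 + |x| log z)`.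
-/

set_option autoImplicit false

namespace Pool.Agent.H28.ZT

open Complex
open Pool.Agent.H75.AP (PI mertens_one)
open Pool.Agent.H75.AP.MertB (piece mem_PI sum_split)

private theorem pi_eq (z : ℝ) (hz : 0 ≤ z) : (Finset.Icc 1 ⌊z⌋₊).filter Nat.Prime = PI 0 z := by
  ext p
  rw [Finset.mem_filter, Finset.mem_Icc, mem_PI (le_refl 0), Nat.le_floor_iff hz]
  constructor
  · rintro ⟨⟨_, h2⟩, h3⟩
    exact ⟨h3, by exact_mod_cast h3.pos, h2⟩
  · rintro ⟨h1, _, h3⟩
    exact ⟨⟨h1.pos, h3⟩, h1⟩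

theorem p_log : ∃ C : ℝ, 0 < C ∧ ∀ z : ℝ, 1 ≤ z →
    ∑ p ∈ (Finset.Icc 1 ⌊z⌋₊).filter Nat.Prime, Real.log (p : ℝ) / (p : ℝ) ≤ Real.log z + C := by
  obtain ⟨C, hC, h⟩ := mertens_one
  refine ⟨C, hC, fun z hz => ?_⟩
  rw [pi_eq z (by linarith)]
  linarith [(abs_le.1 (h z hz)).2]

private theorem tail_bd : ∃ C : ℝ, 0 < C ∧ ∀ z y : ℝ, 3 ≤ z →
    ∑ p ∈ PI z y, (p : ℝ) ^ (-(1 + 1 / Real.log z)) ≤ C := by
  obtain ⟨C, hC, hp⟩ := piece
  refine ⟨2 * (1 + C), by positivity, fun z y hz => ?_⟩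
  have hz0 : 0 < z := by linarith
  have hz1 : 1 < z := by linarith
  have hL : 1 ≤ Real.log z := by
    rw [Real.le_log_iff_exp_le hz0]
    linarith [Real.exp_one_lt_d9]
  have hL0 : 0 < Real.log z := by linarith
  have hpow : ∀ K : ℕ, (z : ℝ) ≤ z ^ (K + 1) := fun K => by
    calc z = z ^ 1 := (pow_one z).symm
      _ ≤ z ^ (K + 1) := pow_le_pow_right₀ hz1.le (by omega)
  have hind : ∀ K : ℕ, ∑ p ∈ PI z (z ^ (K + 1)), (p : ℝ) ^ (-(1 + 1 / Real.log z)) ≤
      (1 + C) * (2 - 2 * (1 / 2 : ℝ) ^ K) := by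
    intro K
    induction K with
    | zero =>
      have h0 : PI z (z ^ (0 + 1)) = ∅ := by
        rw [Finset.eq_empty_iff_forall_notMem]
        intro p hp
        rw [mem_PI hz0.le] at hp
        simp only [zero_add, pow_one] at hp
        linarith [hp.2.1, hp.2.2]
      rw [h0]
      simp
    | succ K ih =>
      rw [sum_split hz0.le (hpow K) (pow_le_pow_right₀ hz1.le (by omega : K + 1 ≤ K + 1 + 1))
        (fun p : ℕ => (p : ℝ) ^ (-(1 + 1 / Real.log z)))]
      have h1 : ∑ p ∈ PI (z ^ (K + 1)) (z ^ (K + 1 + 1)), (p : ℝ) ^ (-(1 + 1 / Real.log z)) ≤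
          (1 + C) * (1 / 2 : ℝ) ^ K := by
        have h2 := hp (z ^ (K + 1)) (z ^ (K + 1 + 1)) (lt_of_lt_of_le hz1 (hpow K))
          (pow_le_pow_right₀ hz1.le (by omega))
        rw [Real.log_pow, Real.log_pow] at h2
        have h3 : (((K + 1 + 1 : ℕ) : ℝ) * Real.log z - ((K + 1 : ℕ) : ℝ) * Real.log z + C) /
            (((K + 1 : ℕ) : ℝ) * Real.log z) ≤ 1 + C := by
          have hK : (1 : ℝ) ≤ ((K + 1 : ℕ) : ℝ) := by exact_mod_cast (by omega : 1 ≤ K + 1)
          rw [div_le_iff₀ (by positivity)]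
          have e1 : ((K + 1 + 1 : ℕ) : ℝ) * Real.log z - ((K + 1 : ℕ) : ℝ) * Real.log z + C =
              Real.log z + C := by
            push_cast
            ring
          rw [e1]
          have h4 : Real.log z ≤ ((K + 1 : ℕ) : ℝ) * Real.log z := le_mul_of_one_le_left hL0.le hK
          have h5 : (1 : ℝ) ≤ ((K + 1 : ℕ) : ℝ) * Real.log z := hL.trans h4
          nlinarith
        have h6 : ∑ p ∈ PI (z ^ (K + 1)) (z ^ (K + 1 + 1)), (p : ℝ) ^ (-(1 + 1 / Real.log z)) ≤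
            ∑ p ∈ PI (z ^ (K + 1)) (z ^ (K + 1 + 1)), 1 / (p : ℝ) * (1 / 2 : ℝ) ^ (K + 1) := by
          refine Finset.sum_le_sum fun p hpm => ?_
          rw [mem_PI (by positivity)] at hpm
          have hp0 : (0 : ℝ) < p := by exact_mod_cast hpm.1.pos
          have e1 : (p : ℝ) ^ (-(1 + 1 / Real.log z)) = 1 / (p : ℝ) * (p : ℝ) ^ (-(1 / Real.log z)) := by
            rw [neg_add, Real.rpow_add hp0, Real.rpow_neg_one, ← one_div (p : ℝ)]
          rw [e1]
          refine mul_le_mul_of_nonneg_left ?_ (by positivity)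
          have e2 : (p : ℝ) ^ (-(1 / Real.log z)) = Real.exp (-(Real.log p / Real.log z)) := by
            rw [Real.rpow_def_of_pos hp0]
            congr 1
            ring
          rw [e2]
          have h7 : ((K + 1 : ℕ) : ℝ) ≤ Real.log p / Real.log z := by
            rw [le_div_iff₀ hL0, ← Real.log_pow]
            exact Real.log_le_log (by positivity) hpm.2.1.le
          have h8 : Real.exp (-(Real.log p / Real.log z)) ≤ Real.exp (-((K + 1 : ℕ) : ℝ)) :=
            Real.exp_le_exp.2 (by linarith)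
          refine h8.trans ?_
          have h9 : Real.exp (-((K + 1 : ℕ) : ℝ)) = Real.exp (-1) ^ (K + 1) := by
            rw [← Real.exp_nat_mul]
            congr 1
            ring
          rw [h9]
          refine pow_le_pow_left₀ (Real.exp_pos _).le ?_ _
          rw [Real.exp_neg, ← one_div]
          have := Real.add_one_le_exp (1 : ℝ)
          exact one_div_le_one_div_of_le (by norm_num) (by linarith)
        refine h6.trans ?_
        rw [← Finset.sum_mul]
        calc (∑ p ∈ PI (z ^ (K + 1)) (z ^ (K + 1 + 1)), 1 / (p : ℝ)) * (1 / 2 : ℝ) ^ (K + 1)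
            ≤ (1 + C) * (1 / 2 : ℝ) ^ (K + 1) :=
              mul_le_mul_of_nonneg_right (h2.trans h3) (by positivity)
          _ ≤ (1 + C) * (1 / 2 : ℝ) ^ K := by
              refine mul_le_mul_of_nonneg_left ?_ (by positivity)
              exact pow_le_pow_of_le_one (by norm_num) (by norm_num) (by omega)
      have h10 : (2 - 2 * (1 / 2 : ℝ) ^ (K + 1)) = (2 - 2 * (1 / 2 : ℝ) ^ K) + (1 / 2 : ℝ) ^ K := by
        rw [pow_succ]
        ring
      rw [h10, mul_add]
      linarith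
  obtain ⟨K, hK⟩ := pow_unbounded_of_one_lt y hz1
  calc ∑ p ∈ PI z y, (p : ℝ) ^ (-(1 + 1 / Real.log z))
      ≤ ∑ p ∈ PI z (z ^ (K + 1)), (p : ℝ) ^ (-(1 + 1 / Real.log z)) := by
        refine Finset.sum_le_sum_of_subset_of_nonneg ?_ fun p _ _ => by positivity
        intro p hp
        rw [mem_PI hz0.le] at hp ⊢
        refine ⟨hp.1, hp.2.1, hp.2.2.trans (hK.le.trans ?_)⟩
        exact pow_le_pow_right₀ hz1.le (by omega)
    _ ≤ (1 + C) * (2 - 2 * (1 / 2 : ℝ) ^ K) := hind K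
    _ ≤ 2 * (1 + C) := by
        have : (0 : ℝ) ≤ (1 / 2 : ℝ) ^ K := by positivity
        nlinarith

theorem p_sum : ∃ C : ℝ, 0 < C ∧ ∀ z : ℝ, 3 ≤ z → ∀ x : ℝ, |x| ≤ 3 →
    |∑ p ∈ (Finset.Icc 1 ⌊z⌋₊).filter Nat.Prime, Real.cos (x * Real.log (p : ℝ)) / (p : ℝ) -
      (Real.log (Real.log z) - Real.log (1 + |x| * Real.log z))| ≤ C := by
  obtain ⟨C1, hC1, hline⟩ := z_line
  obtain ⟨C2, hC2, hprim⟩ := z_prim
  obtain ⟨C3, hC3, htail⟩ := tail_bd
  obtain ⟨C4, hC4, hlog⟩ := p_log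
  refine ⟨C1 + C2 + C3 + (1 + C4), by positivity, fun z hz x hx => ?_⟩
  have hz0 : 0 < z := by linarith
  have hL : 1 ≤ Real.log z := by
    rw [Real.le_log_iff_exp_le hz0]
    linarith [Real.exp_one_lt_d9]
  have hL0 : 0 < Real.log z := by linarith
  set σ : ℝ := 1 / Real.log z with hσ
  have hσ0 : 0 < σ := by positivity
  have hσ1 : σ ≤ 1 := by
    rw [hσ, div_le_one hL0]
    exact hL
  have h1 := hline σ x hσ0 hσ1 hx
  obtain ⟨hsum, h2⟩ := hprim σ x hσ0
  set g : ℕ → ℝ := fun n => if n.Prime then Real.cos (x * Real.log (n : ℝ)) * (n : ℝ) ^ (-(1 + σ)) else 0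
    with hg
  have hind : g = Set.indicator {n : ℕ | n.Prime}
      (fun n : ℕ => Real.cos (x * Real.log (n : ℝ)) * (n : ℝ) ^ (-(1 + σ))) := by
    funext n
    by_cases h : n.Prime
    · rw [Set.indicator_of_mem (show n ∈ {n : ℕ | n.Prime} from h)]
      simp only [hg]
      rw [if_pos h]
    · rw [Set.indicator_of_notMem (show n ∉ {n : ℕ | n.Prime} from h)]
      simp only [hg]
      rw [if_neg h]
  have hts : ∑' p : Nat.Primes, Real.cos (x * Real.log (p : ℝ)) * ((p : ℕ) : ℝ) ^ (-(1 + σ)) =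
      ∑' n : ℕ, g n := by
    rw [hind, ← tsum_subtype {n : ℕ | n.Prime}
      (fun n : ℕ => Real.cos (x * Real.log (n : ℝ)) * (n : ℝ) ^ (-(1 + σ)))]
    rfl
  have hgs : Summable g := by
    rw [hind, ← summable_subtype_iff_indicator]
    exact hsum
  set N := ⌊z⌋₊ with hN
  have hsplit := hgs.sum_add_tsum_nat_add (N + 1)
  have hfin : ∑ n ∈ Finset.range (N + 1), g n =
      ∑ p ∈ (Finset.Icc 1 N).filter Nat.Prime, Real.cos (x * Real.log (p : ℝ)) * (p : ℝ) ^ (-(1 + σ)) := by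
    simp only [hg]
    rw [← Finset.sum_filter]
    refine Finset.sum_congr ?_ fun _ _ => rfl
    ext p
    rw [Finset.mem_filter, Finset.mem_filter, Finset.mem_range, Finset.mem_Icc]
    constructor
    · rintro ⟨a, b⟩
      exact ⟨⟨b.pos, by omega⟩, b⟩
    · rintro ⟨⟨_, a⟩, b⟩
      exact ⟨by omega, b⟩
  have htl : |∑' n : ℕ, g (n + (N + 1))| ≤ C3 := by
    have habs : Summable (fun n : ℕ => |g (n + (N + 1))|) := ((summable_nat_add_iff (N + 1)).2 hgs).abs
    have h3 : |∑' n : ℕ, g (n + (N + 1))| ≤ ∑' n : ℕ, |g (n + (N + 1))| := by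
      have := norm_tsum_le_tsum_norm (f := fun n : ℕ => g (n + (N + 1))) habs
      simpa only [Real.norm_eq_abs] using this
    refine h3.trans (habs.tsum_le_of_sum_range_le fun m => ?_)
    calc ∑ n ∈ Finset.range m, |g (n + (N + 1))|
        = ∑ n ∈ Finset.Ico (N + 1) (N + 1 + m), |g n| := by
          rw [Finset.sum_Ico_eq_sum_range]
          refine Finset.sum_congr (by congr 1; omega) fun n _ => ?_
          rw [add_comm]
      _ ≤ ∑ n ∈ (Finset.Ico (N + 1) (N + 1 + m)).filter Nat.Prime, (n : ℝ) ^ (-(1 + σ)) := by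
          rw [Finset.sum_filter]
          refine Finset.sum_le_sum fun n _ => ?_
          simp only [hg]
          split_ifs
          · rw [abs_mul, abs_of_nonneg (Real.rpow_nonneg (Nat.cast_nonneg n) _)]
            exact mul_le_of_le_one_left (Real.rpow_nonneg (Nat.cast_nonneg n) _) (Real.abs_cos_le_one _)
          · simp
      _ ≤ ∑ p ∈ PI z ((N + 1 + m : ℕ) : ℝ), (p : ℝ) ^ (-(1 + σ)) := by
          refine Finset.sum_le_sum_of_subset_of_nonneg ?_ fun p _ _ => by positivity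
          intro p hp
          rw [Finset.mem_filter, Finset.mem_Ico] at hp
          rw [mem_PI hz0.le]
          refine ⟨hp.2, ?_, by exact_mod_cast hp.1.2.le⟩
          exact (Nat.floor_lt hz0.le).1 (by omega)
      _ ≤ C3 := htail z _ hz
  have hdiff : |∑ p ∈ (Finset.Icc 1 N).filter Nat.Prime, Real.cos (x * Real.log (p : ℝ)) / (p : ℝ) -
      ∑ p ∈ (Finset.Icc 1 N).filter Nat.Prime,
        Real.cos (x * Real.log (p : ℝ)) * (p : ℝ) ^ (-(1 + σ))| ≤ 1 + C4 := by
    rw [← Finset.sum_sub_distrib]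
    refine (Finset.abs_sum_le_sum_abs _ _).trans ?_
    have h3 : ∑ p ∈ (Finset.Icc 1 N).filter Nat.Prime, |Real.cos (x * Real.log (p : ℝ)) / (p : ℝ) -
        Real.cos (x * Real.log (p : ℝ)) * (p : ℝ) ^ (-(1 + σ))| ≤
        ∑ p ∈ (Finset.Icc 1 N).filter Nat.Prime, σ * (Real.log (p : ℝ) / (p : ℝ)) := by
      refine Finset.sum_le_sum fun p hp => ?_
      rw [Finset.mem_filter] at hp
      have hp0 : (0 : ℝ) < p := by exact_mod_cast hp.2.pos
      have hp1 : (1 : ℝ) ≤ p := by exact_mod_cast hp.2.pos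
      have e1 : (p : ℝ) ^ (-(1 + σ)) = 1 / (p : ℝ) * (p : ℝ) ^ (-σ) := by
        rw [neg_add, Real.rpow_add hp0, Real.rpow_neg_one, one_div]
      have e2 : Real.cos (x * Real.log (p : ℝ)) / (p : ℝ) -
          Real.cos (x * Real.log (p : ℝ)) * (1 / (p : ℝ) * (p : ℝ) ^ (-σ)) =
          Real.cos (x * Real.log (p : ℝ)) * (1 / (p : ℝ) * (1 - (p : ℝ) ^ (-σ))) := by ring
      have hlp : 0 ≤ Real.log (p : ℝ) := Real.log_nonneg hp1
      have e3 : (p : ℝ) ^ (-σ) = Real.exp (-(σ * Real.log p)) := by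
        rw [Real.rpow_def_of_pos hp0]
        congr 1
        ring
      have h4 : 1 - (p : ℝ) ^ (-σ) ≤ σ * Real.log p := by
        rw [e3]
        linarith [Real.one_sub_le_exp_neg (σ * Real.log p)]
      have h5 : 0 ≤ 1 - (p : ℝ) ^ (-σ) := by
        rw [e3]
        have : Real.exp (-(σ * Real.log p)) ≤ 1 := by
          rw [Real.exp_le_one_iff]
          have : 0 ≤ σ * Real.log p := by positivity
          linarith
        linarith
      rw [e1, e2, abs_mul]
      have h6 : 0 ≤ 1 / (p : ℝ) * (1 - (p : ℝ) ^ (-σ)) := mul_nonneg (by positivity) h5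
      rw [abs_of_nonneg h6]
      calc |Real.cos (x * Real.log (p : ℝ))| * (1 / (p : ℝ) * (1 - (p : ℝ) ^ (-σ)))
          ≤ 1 * (1 / (p : ℝ) * (σ * Real.log p)) := by
            refine mul_le_mul (Real.abs_cos_le_one _) ?_ h6 zero_le_one
            exact mul_le_mul_of_nonneg_left h4 (by positivity)
        _ = σ * (Real.log (p : ℝ) / (p : ℝ)) := by ring
    refine h3.trans ?_
    rw [← Finset.mul_sum]
    have h4 := hlog z (by linarith)
    calc σ * ∑ p ∈ (Finset.Icc 1 N).filter Nat.Prime, Real.log (p : ℝ) / (p : ℝ)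
        ≤ σ * (Real.log z + C4) := mul_le_mul_of_nonneg_left h4 hσ0.le
      _ = σ * Real.log z + σ * C4 := by ring
      _ ≤ 1 + C4 := by
          have e1 : σ * Real.log z = 1 := by
            rw [hσ]
            field_simp
          rw [e1]
          have : σ * C4 ≤ 1 * C4 := mul_le_mul_of_nonneg_right hσ1 hC4.le
          linarith
  have hmain : Real.log (Real.log z) - Real.log (1 + |x| * Real.log z) = -Real.log (σ + |x|) := by
    have e1 : σ + |x| = (1 + |x| * Real.log z) / Real.log z := by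
      rw [hσ]
      field_simp
    rw [e1, Real.log_div (by positivity) hL0.ne']
    ring
  rw [hmain]
  rw [hts, ← hsplit, hfin] at h2
  have a1 := abs_le.1 h1
  have a2 := abs_le.1 h2
  have a3 := abs_le.1 htl
  have a4 := abs_le.1 hdiff
  rw [abs_le]
  constructor
  · linarith [a1.1, a1.2, a2.1, a2.2, a3.1, a3.2, a4.1, a4.2]
  · linarith [a1.1, a1.2, a2.1, a2.2, a3.1, a3.2, a4.1, a4.2]

end Pool.Agent.H28.ZT
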