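import Pool.Agent.H28.ZT.SBd
import Pool.Agent.H28.ZT.LamF
import Pool.Agent.H28.ZT.PSum

/-!
# FAMI (chapter Q): the arithmetic sums in family I

`z = exp (kap log T)`, `log z = kap log T ≥ 3` for `T ≥ T0`, `PZ kap T` = primes `≤ z`; SBD, LAMF, PSUM.
`y = v - v' = δ`: `∑ Re lam/p = -1/4 log log z - 1/2 (log log z - log (1 + |δ| log z)) + O(1)`.
`|δ| ≤ 1/L`, `‖y‖ ≤ 8/L`: `lam_lip` changes the sum by `≤ C (‖y‖ + |δ|) ∑ log p/p ≤ C (9/L)(log z + C) ≤ C` (`log p ≤ L/8`).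
`log z = kap log T ≤ log T`; powers of `kap` go into `C`.
-/

set_option autoImplicit false

namespace Pool.Agent.H28.ZT

open Complex

private theorem fi_exp (S a b l x E : ℝ) (hl : 0 < l) (hx : 0 ≤ x)
    (h : S ≤ a * Real.log l + b * Real.log (1 + x * l) + E) :
    Real.exp S ≤ Real.exp E * l ^ a * (1 + x * l) ^ b := by
  have h1 : 0 < 1 + x * l := by positivity
  calc Real.exp S ≤ Real.exp (a * Real.log l + b * Real.log (1 + x * l) + E) := Real.exp_le_exp.2 h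
    _ = Real.exp E * l ^ a * (1 + x * l) ^ b := by
        rw [Real.exp_add, Real.exp_add, Real.rpow_def_of_pos hl, Real.rpow_def_of_pos h1]
        rw [mul_comm a, mul_comm b]
        ring

private theorem fi_im (v v' : ℝ) (vv : Fin 3 → ℝ) (k : Fin 3 ⊕ Fin 3) :
    (xx (v : ℂ) (v' : ℂ) vv k).im = 0 := by
  rcases k with k | k
  · simp [xx]
  · simp [xx]

theorem fam_I : ∃ K : ℝ, 0 < K ∧ ∀ kap : ℝ, 0 < kap → kap ≤ 1 / 8 → ∃ C T0 : ℝ, 0 < C ∧ Real.exp 40 ≤ T0 ∧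
    ∀ (T : ℝ) (J : ℕ) (P : ℕ → Finset ℕ) (V : ℕ → ℕ), T0 ≤ T → Blk K kap T J P V →
    ∀ v v' : ℝ, 0 ≤ v → v ≤ 1 → 0 ≤ v' → v' ≤ 1 → ∀ y : ℂ,
      (y = ((v - v' : ℝ) : ℂ) ∨ (|v - v'| ≤ 1 / Real.log T ∧ ‖y‖ ≤ 8 / Real.log T)) →
      ‖SA (v : ℂ) (v' : ℂ) (s3 (AA J P V)) (a3 ![v, v', 0]) c3 y‖ ≤
        C * (Real.log T) ^ (-(3 / 4) : ℝ) * (1 + |v - v'| * Real.log T) ^ (1 / 2 : ℝ) ∧
      ‖SC (v : ℂ) (v' : ℂ) (s3 (AA J P V)) (a3 ![v, v', 0]) c3 y‖ ≤
        C * (Real.log T) ^ (-(3 / 4) : ℝ) * (1 + |v - v'| * Real.log T) ^ (1 / 2 : ℝ) := by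
  obtain ⟨K, C1, hK, hC1, hb⟩ := S_bound
  obtain ⟨Cl, hCl, hlam⟩ := lam_lip
  obtain ⟨Cp, hCp, hps⟩ := p_sum
  obtain ⟨Cq, hCq, hpl⟩ := p_log
  refine ⟨K, hK, fun kap h0 h8 => ?_⟩
  set E0 : ℝ := 1 / 4 * Cp + 1 / 2 * Cp + 9 * Cl * (1 + Cq) with hE0
  refine ⟨C1 * (Real.exp E0 * kap ^ (-(3 / 4) : ℝ)), max (Real.exp 40) (Real.exp (2 / kap)), by positivity,
    le_max_left _ _, fun T J P V hT hB v v' hv0 hv1 hv0' hv1' y hy => ?_⟩
  have hT40 : Real.exp 40 ≤ T := (le_max_left _ _).trans hT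
  have hTk : Real.exp (2 / kap) ≤ T := (le_max_right _ _).trans hT
  have hTpos : 0 < T := (Real.exp_pos _).trans_le hT40
  have hL40 : 40 ≤ Real.log T := by
    rw [Real.le_log_iff_exp_le hTpos]
    exact hT40
  have hLk : 2 / kap ≤ Real.log T := by
    rw [Real.le_log_iff_exp_le hTpos]
    exact hTk
  have hLpos : 0 < Real.log T := by linarith
  have hz0 : |((v : ℂ)).im| ≤ 1 / Real.log T := by
    rw [Complex.ofReal_im, abs_zero]
    positivity
  have hz0' : |((v' : ℂ)).im| ≤ 1 / Real.log T := by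
    rw [Complex.ofReal_im, abs_zero]
    positivity
  have hyim : |y.im| ≤ 8 / Real.log T := by
    rcases hy with hy | hy
    · rw [hy, Complex.ofReal_im, abs_zero]
      positivity
    · exact (Complex.abs_im_le_norm y).trans hy.2
  have hS := hb kap T J P V h0 h8 hT40 hB (v : ℂ) (v' : ℂ) y ![v, v', 0] hz0 hz0' hyim
  have hl2 : 2 ≤ kap * Real.log T := by
    rw [div_le_iff₀ h0] at hLk
    linarith
  have hz3 : 3 ≤ Real.exp (kap * Real.log T) := by
    have := Real.add_one_le_exp (kap * Real.log T)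
    linarith
  have hz1 : 1 ≤ Real.exp (kap * Real.log T) := by linarith
  have hlL : kap * Real.log T ≤ Real.log T := by nlinarith
  have hlpos : 0 < kap * Real.log T := by linarith
  have hδ : |v - v'| ≤ 1 := by
    rw [abs_le]
    constructor <;> linarith
  have hp0 := hps (Real.exp (kap * Real.log T)) hz3 0 (by simp)
  have hpv := hps (Real.exp (kap * Real.log T)) hz3 (v - v') (hδ.trans (by norm_num))
  have hpl' := hpl (Real.exp (kap * Real.log T)) hz1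
  rw [Real.log_exp] at hp0 hpv hpl'
  have hPZ : (Finset.Icc 1 ⌊Real.exp (kap * Real.log T)⌋₊).filter Nat.Prime = PZ kap T := rfl
  rw [hPZ] at hp0 hpv hpl'
  have hmem : ∀ p ∈ PZ kap T, p.Prime ∧ Real.log (p : ℝ) ≤ kap * Real.log T := by
    intro p hp
    have h1 := Finset.mem_filter.1 hp
    refine ⟨h1.2, ?_⟩
    have h2 := (Finset.mem_Icc.1 h1.1).2
    have h3 : (p : ℝ) ≤ Real.exp (kap * Real.log T) := (Nat.le_floor_iff (Real.exp_pos _).le).1 h2
    have h4 : (0 : ℝ) < p := by exact_mod_cast h1.2.pos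
    exact (Real.log_le_iff_le_exp h4).2 h3
  have hlogp : ∀ p ∈ PZ kap T, 0 ≤ Real.log (p : ℝ) ∧ Real.log (p : ℝ) ≤ Real.log T / 8 := by
    intro p hp
    obtain ⟨h1, h2⟩ := hmem p hp
    have h3 : 0 ≤ Real.log (p : ℝ) := Real.log_nonneg (by exact_mod_cast h1.one_lt.le)
    exact ⟨h3, by nlinarith⟩
  have hcondy : ∀ p ∈ PZ kap T, |y.im| * Real.log (p : ℝ) ≤ 1 := by
    intro p hp
    obtain ⟨h3, h4⟩ := hlogp p hp
    calc |y.im| * Real.log (p : ℝ) ≤ (8 / Real.log T) * (Real.log T / 8) :=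
          mul_le_mul hyim h4 h3 (by positivity)
      _ = 1 := by field_simp
  have hlogsum : 0 ≤ ∑ p ∈ PZ kap T, Real.log (p : ℝ) / (p : ℝ) := by
    refine Finset.sum_nonneg fun p hp => ?_
    have h3 := (hlogp p hp).1
    positivity
  have hdist : ‖y - ((v - v' : ℝ) : ℂ)‖ ≤ 9 / Real.log T := by
    rcases hy with hy | hy
    · rw [hy, sub_self, norm_zero]
      positivity
    · calc ‖y - ((v - v' : ℝ) : ℂ)‖ ≤ ‖y‖ + ‖((v - v' : ℝ) : ℂ)‖ := norm_sub_le _ _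
        _ ≤ 8 / Real.log T + 1 / Real.log T := by
            apply add_le_add hy.2
            rw [Complex.norm_real, Real.norm_eq_abs]
            exact hy.1
        _ = 9 / Real.log T := by ring
  have hbig : ∀ g : ℕ → ℝ, (∀ p ∈ PZ kap T, g p ≤ (-(1 / 4) - Real.cos ((v - v') * Real.log (p : ℝ)) / 2) +
      Cl * (9 / Real.log T) * Real.log (p : ℝ)) →
      ∑ p ∈ PZ kap T, g p / (p : ℝ) ≤ -(3 / 4) * Real.log (kap * Real.log T) +
        1 / 2 * Real.log (1 + |v - v'| * (kap * Real.log T)) + E0 := by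
    intro g hg
    have h1 : ∑ p ∈ PZ kap T, g p / (p : ℝ) ≤ ∑ p ∈ PZ kap T,
        (-(1 / 4) * (Real.cos (0 * Real.log (p : ℝ)) / (p : ℝ)) -
          1 / 2 * (Real.cos ((v - v') * Real.log (p : ℝ)) / (p : ℝ)) +
          Cl * (9 / Real.log T) * (Real.log (p : ℝ) / (p : ℝ))) := by
      refine Finset.sum_le_sum fun p hp => ?_
      have hpp : (0 : ℝ) < p := by exact_mod_cast (hmem p hp).1.pos
      have h2 := hg p hp
      rw [zero_mul, Real.cos_zero]
      have e : -(1 / 4) * (1 / (p : ℝ)) - 1 / 2 * (Real.cos ((v - v') * Real.log (p : ℝ)) / (p : ℝ)) +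
          Cl * (9 / Real.log T) * (Real.log (p : ℝ) / (p : ℝ)) =
          ((-(1 / 4) - Real.cos ((v - v') * Real.log (p : ℝ)) / 2) +
            Cl * (9 / Real.log T) * Real.log (p : ℝ)) / (p : ℝ) := by
        ring
      rw [e]
      exact div_le_div_of_nonneg_right h2 hpp.le
    rw [Finset.sum_add_distrib, Finset.sum_sub_distrib, ← Finset.mul_sum, ← Finset.mul_sum, ← Finset.mul_sum] at h1
    have h3 := (abs_le.1 hp0).1
    have h4 := (abs_le.1 hpv).1
    rw [abs_zero, zero_mul, add_zero, Real.log_one, sub_zero] at h3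
    have h5 : Cl * (9 / Real.log T) * ∑ p ∈ PZ kap T, Real.log (p : ℝ) / (p : ℝ) ≤ 9 * Cl * (1 + Cq) := by
      calc Cl * (9 / Real.log T) * ∑ p ∈ PZ kap T, Real.log (p : ℝ) / (p : ℝ)
          ≤ Cl * (9 / Real.log T) * (Real.log T + Cq * Real.log T) := by
            apply mul_le_mul_of_nonneg_left _ (by positivity)
            nlinarith
        _ = 9 * Cl * (1 + Cq) := by field_simp
    rw [hE0]
    linarith
  have hend : ∀ S : ℝ, S ≤ -(3 / 4) * Real.log (kap * Real.log T) +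
        1 / 2 * Real.log (1 + |v - v'| * (kap * Real.log T)) + E0 →
      C1 * Real.exp S ≤ C1 * (Real.exp E0 * kap ^ (-(3 / 4) : ℝ)) * (Real.log T) ^ (-(3 / 4) : ℝ) *
        (1 + |v - v'| * Real.log T) ^ (1 / 2 : ℝ) := by
    intro S hS
    have h1 := fi_exp S (-(3 / 4)) (1 / 2) (kap * Real.log T) |v - v'| E0 hlpos (abs_nonneg _) hS
    have h2 : (kap * Real.log T) ^ (-(3 / 4) : ℝ) = kap ^ (-(3 / 4) : ℝ) * (Real.log T) ^ (-(3 / 4) : ℝ) :=
      Real.mul_rpow h0.le hLpos.le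
    have h3 : (1 + |v - v'| * (kap * Real.log T)) ^ (1 / 2 : ℝ) ≤ (1 + |v - v'| * Real.log T) ^ (1 / 2 : ℝ) := by
      apply Real.rpow_le_rpow (by positivity) _ (by norm_num)
      nlinarith [abs_nonneg (v - v')]
    calc C1 * Real.exp S ≤ C1 * (Real.exp E0 * (kap * Real.log T) ^ (-(3 / 4) : ℝ) *
          (1 + |v - v'| * (kap * Real.log T)) ^ (1 / 2 : ℝ)) := mul_le_mul_of_nonneg_left h1 hC1.le
      _ ≤ C1 * (Real.exp E0 * (kap * Real.log T) ^ (-(3 / 4) : ℝ) *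
          (1 + |v - v'| * Real.log T) ^ (1 / 2 : ℝ)) := by
          apply mul_le_mul_of_nonneg_left _ hC1.le
          apply mul_le_mul_of_nonneg_left h3
          positivity
      _ = _ := by
          rw [h2]
          ring
  have hlipp : ∀ p ∈ PZ kap T,
      (lamA (xx (v : ℂ) (v' : ℂ) ![v, v', 0]) y p).re ≤
        (-(1 / 4) - Real.cos ((v - v') * Real.log (p : ℝ)) / 2) + Cl * (9 / Real.log T) * Real.log (p : ℝ) ∧
      (lamC (xx (v : ℂ) (v' : ℂ) ![v, v', 0]) y p).re ≤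
        (-(1 / 4) - Real.cos ((v - v') * Real.log (p : ℝ)) / 2) + Cl * (9 / Real.log T) * Real.log (p : ℝ) := by
    intro p hp
    obtain ⟨h3, h4⟩ := hlogp p hp
    have hpp := (hmem p hp).1
    have hl := hlam (xx (v : ℂ) (v' : ℂ) ![v, v', 0]) y ((v - v' : ℝ) : ℂ) p hpp
      (fun k => by rw [fi_im, abs_zero, zero_mul]; norm_num) (hcondy p hp)
      (by rw [Complex.ofReal_im, abs_zero, zero_mul]; norm_num)
    have hI := lam_I v v' p hpp
    have hb1 : Cl * ‖y - ((v - v' : ℝ) : ℂ)‖ * Real.log (p : ℝ) ≤ Cl * (9 / Real.log T) * Real.log (p : ℝ) :=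
      mul_le_mul_of_nonneg_right (mul_le_mul_of_nonneg_left hdist hCl.le) h3
    constructor
    · have h5 := (Complex.re_le_norm _).trans hl.1
      rw [Complex.sub_re, hI.1] at h5
      linarith
    · have h5 := (Complex.re_le_norm _).trans hl.2
      rw [Complex.sub_re, hI.2] at h5
      linarith
  exact ⟨hS.1.trans (hend _ (hbig _ fun p hp => (hlipp p hp).1)),
    hS.2.trans (hend _ (hbig _ fun p hp => (hlipp p hp).2))⟩

end Pool.Agent.H28.ZT
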