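import Pool.Agent.H28.ZT.Link0

/-!
# LAMG (chapter Q): the exponents, family II

`w = w' = v + iη`, `vv = 0`: `x_k = v + iη` (left), `-v + iη` (right: `-conj w`), `∑_k p^(i x_k) = 6 p^(-η) cos (v log p)`,
`∑ p^(i(x_k+x_m)) = 9 p^(-2η)`, so `lamA = p^(-iy) (-3 p^(-η) cos (v log p) + (9/4) p^(-2η))`,
`lamC = -3 p^(-η) cos (v log p) + (9/4) p^(-iy) p^(-2η)`, and `|p^(-iy) - 1| ≤ e ‖y‖ log p`, `|p^(-η) - 1| ≤ e |η| log p` etc.
-/

set_option autoImplicit false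

namespace Pool.Agent.H28.ZT

open Complex

private theorem lg_exp (a b : ℂ) (ha : a.re ≤ 1) (hb : b.re ≤ 1) :
    ‖Complex.exp a - Complex.exp b‖ ≤ Real.exp 1 * ‖a - b‖ := by
  have hconv : Convex ℝ {z : ℂ | z.re ≤ 1} := convex_halfSpace_re_le 1
  exact hconv.norm_image_sub_le_of_norm_deriv_le (f := Complex.exp) (C := Real.exp 1)
    (fun x _ => Complex.differentiableAt_exp) (fun x hx => by
      rw [Complex.deriv_exp, Complex.norm_exp]
      exact Real.exp_le_exp.2 hx) hb ha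

/-- the sums over the six exponents -/
private theorem lg_sum (v η : ℝ) (p : ℕ) :
    (∑ k, np p (I * xx ((v : ℂ) + I * (η : ℂ)) ((v : ℂ) + I * (η : ℂ)) (fun _ => 0) k)) =
      ((6 * Real.exp (-(η * Real.log (p : ℝ))) * Real.cos (v * Real.log (p : ℝ)) : ℝ) : ℂ) ∧
    (∑ k : Fin 3, ∑ m : Fin 3, np p (I * (xx ((v : ℂ) + I * (η : ℂ)) ((v : ℂ) + I * (η : ℂ)) (fun _ => 0) (Sum.inl k) +
      xx ((v : ℂ) + I * (η : ℂ)) ((v : ℂ) + I * (η : ℂ)) (fun _ => 0) (Sum.inr m)))) =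
      ((9 * Real.exp (-(η * Real.log (p : ℝ))) ^ 2 : ℝ) : ℂ) := by
  set L : ℝ := Real.log (p : ℝ) with hL
  have el : ∀ k : Fin 3, xx ((v : ℂ) + I * (η : ℂ)) ((v : ℂ) + I * (η : ℂ)) (fun _ => 0) (Sum.inl k) =
      (v : ℂ) + I * (η : ℂ) := by
    intro k
    simp [xx]
  have er : ∀ k : Fin 3, xx ((v : ℂ) + I * (η : ℂ)) ((v : ℂ) + I * (η : ℂ)) (fun _ => 0) (Sum.inr k) =
      -(v : ℂ) + I * (η : ℂ) := by
    intro k
    simp only [xx, Sum.elim_inr, map_add, map_mul, Complex.conj_ofReal, Complex.conj_I, Complex.ofReal_zero]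
    ring
  have n1 : np p (I * ((v : ℂ) + I * (η : ℂ))) =
      ((Real.exp (-(η * L)) : ℝ) : ℂ) * Complex.exp (((v * L : ℝ) : ℂ) * I) := by
    unfold np
    rw [← hL, Complex.ofReal_exp, ← Complex.exp_add]
    congr 1
    push_cast
    ring_nf
    rw [Complex.I_sq]
    ring
  have n2 : np p (I * (-(v : ℂ) + I * (η : ℂ))) =
      ((Real.exp (-(η * L)) : ℝ) : ℂ) * Complex.exp (-(((v * L : ℝ) : ℂ)) * I) := by
    unfold np
    rw [← hL, Complex.ofReal_exp, ← Complex.exp_add]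
    congr 1
    push_cast
    ring_nf
    rw [Complex.I_sq]
    ring
  have n3 : np p (I * ((v : ℂ) + I * (η : ℂ) + (-(v : ℂ) + I * (η : ℂ)))) =
      ((Real.exp (-(η * L)) ^ 2 : ℝ) : ℂ) := by
    have e : Real.exp (-(η * L)) ^ 2 = Real.exp (-(2 * (η * L))) := by
      rw [← Real.exp_nat_mul]
      congr 1
      push_cast
      ring
    rw [e]
    unfold np
    rw [← hL, Complex.ofReal_exp]
    congr 1
    push_cast
    ring_nf
    rw [Complex.I_sq]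
    ring
  constructor
  · rw [Fintype.sum_sum_type]
    simp_rw [el, er]
    rw [n1, n2, Finset.sum_const, Finset.sum_const, Finset.card_univ, Fintype.card_fin]
    have hc : ((Real.cos (v * L) : ℝ) : ℂ) =
        (Complex.exp (((v * L : ℝ) : ℂ) * I) + Complex.exp (-(((v * L : ℝ) : ℂ)) * I)) / 2 := by
      rw [Complex.ofReal_cos]
      rfl
    rw [nsmul_eq_mul, nsmul_eq_mul, Complex.ofReal_mul, Complex.ofReal_mul, hc]
    push_cast
    ring
  · simp_rw [el, er]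
    rw [n3]
    simp only [Finset.sum_const, Finset.card_univ, Fintype.card_fin, nsmul_eq_mul]
    push_cast
    ring

private theorem lg_core (A : ℂ) (r c Y H : ℝ) (hA : ‖A - 1‖ ≤ Real.exp 1 * Y) (hr0 : 0 ≤ r)
    (hr : r ≤ Real.exp 1) (hr1 : |r - 1| ≤ Real.exp 1 * H) (hc : |c| ≤ 1) (hY : 0 ≤ Y) (hH : 0 ≤ H) :
    |(A * ((-3 * (r * c) + 9 / 4 * r ^ 2 : ℝ) : ℂ)).re - (9 / 4 - 3 * c)| ≤
      (Real.exp 1 * (3 * Real.exp 1 + 9 / 4 * Real.exp 1 ^ 2) + 3 * Real.exp 1 +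
        9 / 4 * (Real.exp 1 + 1) * Real.exp 1) * (Y + H) ∧
    |(((-3 * (r * c) : ℝ) : ℂ) + A * ((9 / 4 * r ^ 2 : ℝ) : ℂ)).re - (9 / 4 - 3 * c)| ≤
      (Real.exp 1 * (3 * Real.exp 1 + 9 / 4 * Real.exp 1 ^ 2) + 3 * Real.exp 1 +
        9 / 4 * (Real.exp 1 + 1) * Real.exp 1) * (Y + H) := by
  have he := Real.exp_pos (1 : ℝ)
  set e := Real.exp (1 : ℝ) with hedef
  have h1 : |(-3 * c) * (r - 1) + 9 / 4 * (r ^ 2 - 1)| ≤ (3 * e + 9 / 4 * (e + 1) * e) * H := by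
    have a1 : |(-3 * c) * (r - 1)| ≤ 3 * (e * H) := by
      rw [abs_mul, abs_mul]
      have : |(-3 : ℝ)| = 3 := by norm_num
      rw [this]
      calc 3 * |c| * |r - 1| ≤ 3 * 1 * (e * H) := by gcongr
        _ = _ := by ring
    have a2 : |9 / 4 * (r ^ 2 - 1)| ≤ 9 / 4 * ((e + 1) * (e * H)) := by
      have e3 : r ^ 2 - 1 = (r + 1) * (r - 1) := by ring
      rw [abs_mul, e3, abs_mul]
      have a3 : |r + 1| ≤ e + 1 := by
        rw [abs_of_nonneg (by linarith)]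
        linarith
      have : |(9 / 4 : ℝ)| = 9 / 4 := by norm_num
      rw [this]
      gcongr
    calc _ ≤ |(-3 * c) * (r - 1)| + |9 / 4 * (r ^ 2 - 1)| := abs_add_le _ _
      _ ≤ 3 * (e * H) + 9 / 4 * ((e + 1) * (e * H)) := add_le_add a1 a2
      _ = _ := by ring
  have hre : |(A - 1).re| ≤ e * Y := (Complex.abs_re_le_norm _).trans hA
  have hbig : 0 ≤ e * (3 * e + 9 / 4 * e ^ 2) := by positivity
  constructor
  · have e1 : (A * ((-3 * (r * c) + 9 / 4 * r ^ 2 : ℝ) : ℂ)).re - (9 / 4 - 3 * c) =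
        (A - 1).re * (-3 * (r * c) + 9 / 4 * r ^ 2) + ((-3 * c) * (r - 1) + 9 / 4 * (r ^ 2 - 1)) := by
      rw [Complex.re_mul_ofReal, Complex.sub_re, Complex.one_re]
      ring
    rw [e1]
    have a4 : |-3 * (r * c) + 9 / 4 * r ^ 2| ≤ 3 * e + 9 / 4 * e ^ 2 := by
      calc |-3 * (r * c) + 9 / 4 * r ^ 2| ≤ |-3 * (r * c)| + |9 / 4 * r ^ 2| := abs_add_le _ _
        _ = 3 * (r * |c|) + 9 / 4 * r ^ 2 := by
            rw [abs_mul, abs_mul, abs_of_nonneg hr0, abs_of_nonneg (by positivity : 0 ≤ 9 / 4 * r ^ 2)]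
            norm_num
        _ ≤ 3 * (e * 1) + 9 / 4 * e ^ 2 := by gcongr
        _ = _ := by ring
    calc _ ≤ |(A - 1).re * (-3 * (r * c) + 9 / 4 * r ^ 2)| +
          |(-3 * c) * (r - 1) + 9 / 4 * (r ^ 2 - 1)| := abs_add_le _ _
      _ ≤ (e * Y) * (3 * e + 9 / 4 * e ^ 2) + (3 * e + 9 / 4 * (e + 1) * e) * H := by
          rw [abs_mul]
          exact add_le_add (mul_le_mul hre a4 (abs_nonneg _) (by positivity)) h1
      _ ≤ _ := by
          have b1 : 0 ≤ (3 * e + 9 / 4 * (e + 1) * e) * Y := by positivity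
          have b2 : 0 ≤ (e * (3 * e + 9 / 4 * e ^ 2)) * H := by positivity
          nlinarith
  · have e1 : (((-3 * (r * c) : ℝ) : ℂ) + A * ((9 / 4 * r ^ 2 : ℝ) : ℂ)).re - (9 / 4 - 3 * c) =
        (A - 1).re * (9 / 4 * r ^ 2) + ((-3 * c) * (r - 1) + 9 / 4 * (r ^ 2 - 1)) := by
      rw [Complex.add_re, Complex.ofReal_re, Complex.re_mul_ofReal, Complex.sub_re, Complex.one_re]
      ring
    rw [e1]
    have a4 : |9 / 4 * r ^ 2| ≤ 3 * e + 9 / 4 * e ^ 2 := by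
      rw [abs_of_nonneg (by positivity)]
      have : 9 / 4 * r ^ 2 ≤ 9 / 4 * e ^ 2 := by gcongr
      linarith
    calc _ ≤ |(A - 1).re * (9 / 4 * r ^ 2)| +
          |(-3 * c) * (r - 1) + 9 / 4 * (r ^ 2 - 1)| := abs_add_le _ _
      _ ≤ (e * Y) * (3 * e + 9 / 4 * e ^ 2) + (3 * e + 9 / 4 * (e + 1) * e) * H := by
          rw [abs_mul]
          exact add_le_add (mul_le_mul hre a4 (abs_nonneg _) (by positivity)) h1
      _ ≤ _ := by
          have b1 : 0 ≤ (3 * e + 9 / 4 * (e + 1) * e) * Y := by positivity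
          have b2 : 0 ≤ (e * (3 * e + 9 / 4 * e ^ 2)) * H := by positivity
          nlinarith

theorem lam_II : ∃ C : ℝ, 0 < C ∧ ∀ (v η : ℝ) (y : ℂ) (p : ℕ), p.Prime →
    |η| * Real.log (p : ℝ) ≤ 1 → ‖y‖ * Real.log (p : ℝ) ≤ 1 →
    |(lamA (xx ((v : ℂ) + I * (η : ℂ)) ((v : ℂ) + I * (η : ℂ)) (fun _ => 0)) y p).re -
      (9 / 4 - 3 * Real.cos (v * Real.log (p : ℝ)))| ≤ C * (‖y‖ + |η|) * Real.log (p : ℝ) ∧
    |(lamC (xx ((v : ℂ) + I * (η : ℂ)) ((v : ℂ) + I * (η : ℂ)) (fun _ => 0)) y p).re -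
      (9 / 4 - 3 * Real.cos (v * Real.log (p : ℝ)))| ≤ C * (‖y‖ + |η|) * Real.log (p : ℝ) := by
  have he := Real.exp_pos (1 : ℝ)
  refine ⟨Real.exp 1 * (3 * Real.exp 1 + 9 / 4 * Real.exp 1 ^ 2) + 3 * Real.exp 1 +
        9 / 4 * (Real.exp 1 + 1) * Real.exp 1, by positivity, fun v η y p hp hη hy => ?_⟩
  have hl : 0 ≤ Real.log (p : ℝ) := Real.log_nonneg (by exact_mod_cast hp.one_lt.le)
  obtain ⟨s1, s2⟩ := lg_sum v η p
  set L : ℝ := Real.log (p : ℝ) with hL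
  set r : ℝ := Real.exp (-(η * L)) with hr
  have hηL : |η * L| ≤ 1 := by
    rw [abs_mul, abs_of_nonneg hl]
    exact hη
  have hr1 : r ≤ Real.exp 1 := Real.exp_le_exp.2 (by linarith [(abs_le.1 hηL).1])
  have hr2 : |r - 1| ≤ Real.exp 1 * (|η| * L) := by
    have h := lg_exp ((-(η * L) : ℝ) : ℂ) 0 (by
      rw [Complex.ofReal_re]
      linarith [(abs_le.1 hηL).1]) (by simp)
    rw [Complex.exp_zero, sub_zero, Complex.norm_real, Real.norm_eq_abs, abs_neg, abs_mul,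
      abs_of_nonneg hl, ← Complex.ofReal_exp] at h
    have e : ((r : ℝ) : ℂ) - 1 = ((r - 1 : ℝ) : ℂ) := by push_cast; ring
    rw [← hr, e, Complex.norm_real, Real.norm_eq_abs] at h
    exact h
  have hA : ‖np p (-(I * y)) - 1‖ ≤ Real.exp 1 * (‖y‖ * L) := by
    have hre : (-(I * y) * ((L : ℝ) : ℂ)).re ≤ 1 := by
      rw [Complex.re_mul_ofReal]
      have e : (-(I * y)).re = y.im := by simp
      rw [e]
      exact (mul_le_mul_of_nonneg_right ((le_abs_self _).trans (Complex.abs_im_le_norm y)) hl).trans hy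
    have h := lg_exp (-(I * y) * ((L : ℝ) : ℂ)) 0 hre (by simp)
    rw [Complex.exp_zero, sub_zero, norm_mul, norm_neg, norm_mul, Complex.norm_I, one_mul,
      Complex.norm_real, Real.norm_eq_abs, abs_of_nonneg hl] at h
    exact h
  obtain ⟨k1, k2⟩ := lg_core (np p (-(I * y))) r (Real.cos (v * L)) (‖y‖ * L) (|η| * L) hA (Real.exp_pos _).le
    hr1 hr2 (Real.abs_cos_le_one _) (by positivity) (by positivity)
  have eY : ‖y‖ * L + |η| * L = (‖y‖ + |η|) * L := by ring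
  rw [eY] at k1 k2
  constructor
  · have e : lamA (xx ((v : ℂ) + I * (η : ℂ)) ((v : ℂ) + I * (η : ℂ)) (fun _ => 0)) y p =
        np p (-(I * y)) * ((-3 * (r * Real.cos (v * L)) + 9 / 4 * r ^ 2 : ℝ) : ℂ) := by
      unfold lamA
      rw [s1, s2]
      push_cast
      ring
    rw [e]
    exact k1.trans (le_of_eq (by ring))
  · have e : lamC (xx ((v : ℂ) + I * (η : ℂ)) ((v : ℂ) + I * (η : ℂ)) (fun _ => 0)) y p =
        ((-3 * (r * Real.cos (v * L)) : ℝ) : ℂ) + np p (-(I * y)) * ((9 / 4 * r ^ 2 : ℝ) : ℂ) := by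
      unfold lamC
      rw [s1, s2]
      push_cast
      ring
    rw [e]
    exact k2.trans (le_of_eq (by ring))

end Pool.Agent.H28.ZT
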