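import Pool.Agent.H28.ZT.SBd
import Pool.Agent.H28.ZT.LamG
import Pool.Agent.H28.ZT.PSum

/-!
# FAMJ (chapter Q): the arithmetic sums in family II

`z = exp (kap log T)`, `log z = kap log T ≥ 3` for `T ≥ T0`, `PZ kap T` = primes `≤ z`; SBD, LAMG, PSUM:
`∑ Re lam/p = 9/4 log log z - 3 (log log z - log (1 + |v| log z)) + O(1)`; the error of `lam_II` sums to
`C (9/L) ∑ log p/p ≤ C (9/L)(log z + C) ≤ C`.  `log z ≤ log T`; powers of `kap` go into `C`.
-/

set_option autoImplicit false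

namespace Pool.Agent.H28.ZT

open Complex

private theorem fj_exp (S a b l x E : ℝ) (hl : 0 < l) (hx : 0 ≤ x)
    (h : S ≤ a * Real.log l + b * Real.log (1 + x * l) + E) :
    Real.exp S ≤ Real.exp E * l ^ a * (1 + x * l) ^ b := by
  have h1 : 0 < 1 + x * l := by positivity
  calc Real.exp S ≤ Real.exp (a * Real.log l + b * Real.log (1 + x * l) + E) := Real.exp_le_exp.2 h
    _ = Real.exp E * l ^ a * (1 + x * l) ^ b := by
        rw [Real.exp_add, Real.exp_add, Real.rpow_def_of_pos hl, Real.rpow_def_of_pos h1]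
        rw [mul_comm a, mul_comm b]
        ring

theorem fam_II : ∃ K : ℝ, 0 < K ∧ ∀ kap : ℝ, 0 < kap → kap ≤ 1 / 8 → ∃ C T0 : ℝ, 0 < C ∧ Real.exp 40 ≤ T0 ∧
    ∀ (T : ℝ) (J : ℕ) (P : ℕ → Finset ℕ) (V : ℕ → ℕ), T0 ≤ T → Blk K kap T J P V →
    ∀ v η : ℝ, |v| ≤ 1 → |η| ≤ 1 / Real.log T → ∀ y : ℂ, ‖y‖ ≤ 8 / Real.log T →
      ‖SA ((v : ℂ) + I * (η : ℂ)) ((v : ℂ) + I * (η : ℂ)) (s3 (AA J P V)) (a3 (fun _ => 0)) c3 y‖ ≤
        C * (Real.log T) ^ (-(3 / 4) : ℝ) * (1 + |v| * Real.log T) ^ 3 ∧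
      ‖SC ((v : ℂ) + I * (η : ℂ)) ((v : ℂ) + I * (η : ℂ)) (s3 (AA J P V)) (a3 (fun _ => 0)) c3 y‖ ≤
        C * (Real.log T) ^ (-(3 / 4) : ℝ) * (1 + |v| * Real.log T) ^ 3 := by
  obtain ⟨K, C1, hK, hC1, hb⟩ := S_bound
  obtain ⟨Cl, hCl, hlam⟩ := lam_II
  obtain ⟨Cp, hCp, hps⟩ := p_sum
  obtain ⟨Cq, hCq, hpl⟩ := p_log
  refine ⟨K, hK, fun kap h0 h8 => ?_⟩
  set E0 : ℝ := 9 / 4 * Cp + 3 * Cp + 9 * Cl * (1 + Cq) with hE0
  refine ⟨C1 * (Real.exp E0 * kap ^ (-(3 / 4) : ℝ)), max (Real.exp 40) (Real.exp (2 / kap)), by positivity,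
    le_max_left _ _, fun T J P V hT hB v η hv hη y hy => ?_⟩
  have hT40 : Real.exp 40 ≤ T := (le_max_left _ _).trans hT
  have hTk : Real.exp (2 / kap) ≤ T := (le_max_right _ _).trans hT
  have hTpos : 0 < T := (Real.exp_pos _).trans_le hT40
  have hL40 : 40 ≤ Real.log T := by
    rw [Real.le_log_iff_exp_le hTpos]
    exact hT40
  have hLk : 2 / kap ≤ Real.log T := by
    rw [Real.le_log_iff_exp_le hTpos]
    exact hTk
  have hLpos : 0 < Real.log T := by linarith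
  set w : ℂ := (v : ℂ) + I * (η : ℂ) with hw
  have hwim : w.im = η := by simp [hw]
  have hyim : |y.im| ≤ 8 / Real.log T := (Complex.abs_im_le_norm y).trans hy
  have hS := hb kap T J P V h0 h8 hT40 hB w w y (fun _ => 0) (by rw [hwim]; exact hη) (by rw [hwim]; exact hη) hyim
  have hl2 : 2 ≤ kap * Real.log T := by
    rw [div_le_iff₀ h0] at hLk
    linarith
  have hz3 : 3 ≤ Real.exp (kap * Real.log T) := by
    have := Real.add_one_le_exp (kap * Real.log T)
    linarith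
  have hz1 : 1 ≤ Real.exp (kap * Real.log T) := by linarith
  have hlL : kap * Real.log T ≤ Real.log T := by nlinarith
  have hlpos : 0 < kap * Real.log T := by linarith
  have hp0 := hps (Real.exp (kap * Real.log T)) hz3 0 (by simp)
  have hpv := hps (Real.exp (kap * Real.log T)) hz3 v (hv.trans (by norm_num))
  have hpl' := hpl (Real.exp (kap * Real.log T)) hz1
  rw [Real.log_exp] at hp0 hpv hpl'
  have hPZ : (Finset.Icc 1 ⌊Real.exp (kap * Real.log T)⌋₊).filter Nat.Prime = PZ kap T := rfl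
  rw [hPZ] at hp0 hpv hpl'
  have hmem : ∀ p ∈ PZ kap T, p.Prime ∧ Real.log (p : ℝ) ≤ kap * Real.log T := by
    intro p hp
    have h1 := Finset.mem_filter.1 hp
    refine ⟨h1.2, ?_⟩
    have h2 := (Finset.mem_Icc.1 h1.1).2
    have h3 : (p : ℝ) ≤ Real.exp (kap * Real.log T) := (Nat.le_floor_iff (Real.exp_pos _).le).1 h2
    have h4 : (0 : ℝ) < p := by exact_mod_cast h1.2.pos
    exact (Real.log_le_iff_le_exp h4).2 h3
  have hcond : ∀ p ∈ PZ kap T, |η| * Real.log (p : ℝ) ≤ 1 ∧ ‖y‖ * Real.log (p : ℝ) ≤ 1 := by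
    intro p hp
    obtain ⟨h1, h2⟩ := hmem p hp
    have h3 : 0 ≤ Real.log (p : ℝ) := Real.log_nonneg (by exact_mod_cast h1.one_lt.le)
    have h4 : Real.log (p : ℝ) ≤ Real.log T / 8 := by nlinarith
    constructor
    · calc |η| * Real.log (p : ℝ) ≤ (1 / Real.log T) * (Real.log T / 8) :=
            mul_le_mul hη h4 h3 (by positivity)
        _ ≤ 1 := by
            rw [one_div_mul_eq_div, div_right_comm, div_self hLpos.ne']
            norm_num
    · calc ‖y‖ * Real.log (p : ℝ) ≤ (8 / Real.log T) * (Real.log T / 8) :=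
            mul_le_mul hy h4 h3 (by positivity)
        _ = 1 := by field_simp
  have hyη : ‖y‖ + |η| ≤ 9 / Real.log T := by
    have : 9 / Real.log T = 8 / Real.log T + 1 / Real.log T := by ring
    rw [this]
    exact add_le_add hy hη
  have hlogsum : 0 ≤ ∑ p ∈ PZ kap T, Real.log (p : ℝ) / (p : ℝ) := by
    refine Finset.sum_nonneg fun p hp => ?_
    have h3 : 0 ≤ Real.log (p : ℝ) := Real.log_nonneg (by exact_mod_cast (hmem p hp).1.one_lt.le)
    positivity
  have hbig : ∀ g : ℕ → ℝ, (∀ p ∈ PZ kap T, |g p - (9 / 4 - 3 * Real.cos (v * Real.log (p : ℝ)))| ≤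
      Cl * (‖y‖ + |η|) * Real.log (p : ℝ)) →
      ∑ p ∈ PZ kap T, g p / (p : ℝ) ≤ -(3 / 4) * Real.log (kap * Real.log T) +
        3 * Real.log (1 + |v| * (kap * Real.log T)) + E0 := by
    intro g hg
    have h1 : ∑ p ∈ PZ kap T, g p / (p : ℝ) ≤ ∑ p ∈ PZ kap T,
        (9 / 4 * (Real.cos (0 * Real.log (p : ℝ)) / (p : ℝ)) - 3 * (Real.cos (v * Real.log (p : ℝ)) / (p : ℝ)) +
          Cl * (‖y‖ + |η|) * (Real.log (p : ℝ) / (p : ℝ))) := by
      refine Finset.sum_le_sum fun p hp => ?_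
      have hpp : (0 : ℝ) < p := by exact_mod_cast (hmem p hp).1.pos
      have h2 := (abs_le.1 (hg p hp)).2
      rw [zero_mul, Real.cos_zero]
      have e : 9 / 4 * (1 / (p : ℝ)) - 3 * (Real.cos (v * Real.log (p : ℝ)) / (p : ℝ)) +
          Cl * (‖y‖ + |η|) * (Real.log (p : ℝ) / (p : ℝ)) =
          (9 / 4 - 3 * Real.cos (v * Real.log (p : ℝ)) + Cl * (‖y‖ + |η|) * Real.log (p : ℝ)) / (p : ℝ) := by
        ring
      rw [e]
      exact div_le_div_of_nonneg_right (by linarith) hpp.le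
    rw [Finset.sum_add_distrib, Finset.sum_sub_distrib, ← Finset.mul_sum, ← Finset.mul_sum, ← Finset.mul_sum] at h1
    have h3 := (abs_le.1 hp0).2
    have h4 := (abs_le.1 hpv).1
    rw [abs_zero, zero_mul, add_zero, Real.log_one, sub_zero] at h3
    have h5 : Cl * (‖y‖ + |η|) * ∑ p ∈ PZ kap T, Real.log (p : ℝ) / (p : ℝ) ≤ 9 * Cl * (1 + Cq) := by
      calc Cl * (‖y‖ + |η|) * ∑ p ∈ PZ kap T, Real.log (p : ℝ) / (p : ℝ)
          ≤ Cl * (9 / Real.log T) * (Real.log T + Cq * Real.log T) := by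
            apply mul_le_mul _ _ hlogsum (by positivity)
            · exact mul_le_mul_of_nonneg_left hyη hCl.le
            · nlinarith
        _ = 9 * Cl * (1 + Cq) := by field_simp
    rw [hE0]
    linarith
  have hend : ∀ S : ℝ, S ≤ -(3 / 4) * Real.log (kap * Real.log T) +
        3 * Real.log (1 + |v| * (kap * Real.log T)) + E0 →
      C1 * Real.exp S ≤ C1 * (Real.exp E0 * kap ^ (-(3 / 4) : ℝ)) * (Real.log T) ^ (-(3 / 4) : ℝ) *
        (1 + |v| * Real.log T) ^ 3 := by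
    intro S hS
    have h1 := fj_exp S (-(3 / 4)) 3 (kap * Real.log T) |v| E0 hlpos (abs_nonneg v) hS
    have h2 : (kap * Real.log T) ^ (-(3 / 4) : ℝ) = kap ^ (-(3 / 4) : ℝ) * (Real.log T) ^ (-(3 / 4) : ℝ) :=
      Real.mul_rpow h0.le hLpos.le
    have h3 : (1 + |v| * (kap * Real.log T)) ^ (3 : ℝ) ≤ (1 + |v| * Real.log T) ^ 3 := by
      have e : (1 + |v| * Real.log T) ^ 3 = (1 + |v| * Real.log T) ^ (3 : ℝ) := by
        rw [← Real.rpow_natCast]
        norm_num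
      rw [e]
      apply Real.rpow_le_rpow (by positivity) _ (by norm_num)
      nlinarith [abs_nonneg v]
    calc C1 * Real.exp S ≤ C1 * (Real.exp E0 * (kap * Real.log T) ^ (-(3 / 4) : ℝ) *
          (1 + |v| * (kap * Real.log T)) ^ (3 : ℝ)) := mul_le_mul_of_nonneg_left h1 hC1.le
      _ ≤ C1 * (Real.exp E0 * (kap * Real.log T) ^ (-(3 / 4) : ℝ) * (1 + |v| * Real.log T) ^ 3) := by
          apply mul_le_mul_of_nonneg_left _ hC1.le
          apply mul_le_mul_of_nonneg_left h3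
          positivity
      _ = _ := by
          rw [h2]
          ring
  exact ⟨hS.1.trans (hend _ (hbig _ fun p hp => (hlam v η y p (hmem p hp).1 (hcond p hp).1 (hcond p hp).2).1)),
    hS.2.trans (hend _ (hbig _ fun p hp => (hlam v η y p (hmem p hp).1 (hcond p hp).1 (hcond p hp).2).2))⟩

end Pool.Agent.H28.ZT
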