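import Pool.Agent.H28.ZT.LEx1

/-!
# LEX2 (existence of `L(T)`)

Property of an interval `[a, b]`: the limit of `volume {t ∈ [a,b] : ‖f t‖ < ε}/ε` exists in `[0, ∞]`.  It holds for all short
enough intervals containing a given point (LEX1), and if it holds for `[a, b]` and `[b, c]` it holds for `[a, c]` (the measure is
additive, limits add in `ENNReal`).  Compactness (`unitInterval`/Lebesgue number, or
`IsCompact.induction_on`-style: cut `[0, T]` into pieces of length `<` Lebesgue number of the cover by the intervals of LEX1; each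
piece `[α, β]` lies in `(t0 - δ, t0 + δ)`; if `t0` is not in `[α, β]` enlarge: apply LEX1 at a point of `[α, β]` instead, i.e. choose the
Lebesgue number for the cover by the balls `B(t0, δ(t0)/2)` and use the centre...).  Simplest: `sSup` argument: the set of `x ∈ [0, T]` such
that the property holds for `[0, x]` is closed and open by LEX1 (apply LEX1 at `x` with `α` slightly smaller or equal to `x`).
`f t = ζ(1/2 + i t)` is analytic (`differentiableOn` away from 1), not locally zero (otherwise zeta would vanish identically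
on `ℂ \ {1}`, identity theorem; it does not vanish at 2).
-/

set_option autoImplicit false

namespace Pool.Agent.H28.ZT

open MeasureTheory Filter Topology Complex

private theorem lex_add {f : ℝ → ℂ} (hf : Continuous f) {a b c : ℝ} (hab : a ≤ b) (hbc : b ≤ c)
    (h1 : ∃ l : ENNReal, Tendsto (fun ε : ℝ => volume {t : ℝ | a ≤ t ∧ t ≤ b ∧ ‖f t‖ < ε} /
      ENNReal.ofReal ε) (𝓝[>] 0) (𝓝 l))
    (h2 : ∃ l : ENNReal, Tendsto (fun ε : ℝ => volume {t : ℝ | b ≤ t ∧ t ≤ c ∧ ‖f t‖ < ε} /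
      ENNReal.ofReal ε) (𝓝[>] 0) (𝓝 l)) :
    ∃ l : ENNReal, Tendsto (fun ε : ℝ => volume {t : ℝ | a ≤ t ∧ t ≤ c ∧ ‖f t‖ < ε} /
      ENNReal.ofReal ε) (𝓝[>] 0) (𝓝 l) := by
  obtain ⟨l1, hl1⟩ := h1
  obtain ⟨l2, hl2⟩ := h2
  refine ⟨l1 + l2, ?_⟩
  refine (hl1.add hl2).congr fun ε => ?_
  rw [← ENNReal.add_div]
  congr 1
  have hmeas : ∀ a b : ℝ, MeasurableSet {t : ℝ | a ≤ t ∧ t ≤ b ∧ ‖f t‖ < ε} := by
    intro a b
    have h3 : {t : ℝ | a ≤ t ∧ t ≤ b ∧ ‖f t‖ < ε} = Set.Icc a b ∩ {t | ‖f t‖ < ε} := by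
      ext t
      constructor
      · rintro ⟨h4, h5, h6⟩
        exact ⟨⟨h4, h5⟩, h6⟩
      · rintro ⟨⟨h4, h5⟩, h6⟩
        exact ⟨h4, h5, h6⟩
    rw [h3]
    exact measurableSet_Icc.inter (isOpen_lt hf.norm continuous_const).measurableSet
  have hU : {t : ℝ | a ≤ t ∧ t ≤ c ∧ ‖f t‖ < ε} = {t : ℝ | a ≤ t ∧ t ≤ b ∧ ‖f t‖ < ε} ∪
      {t : ℝ | b ≤ t ∧ t ≤ c ∧ ‖f t‖ < ε} := by
    ext t
    constructor
    · rintro ⟨h4, h5, h6⟩
      rcases le_total t b with h7 | h7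
      · exact Or.inl ⟨h4, h7, h6⟩
      · exact Or.inr ⟨h7, h5, h6⟩
    · rintro (⟨h4, h5, h6⟩ | ⟨h4, h5, h6⟩)
      · exact ⟨h4, h5.trans hbc, h6⟩
      · exact ⟨hab.trans h4, h5, h6⟩
  rw [hU, measure_union₀ (hmeas b c).nullMeasurableSet]
  refine measure_mono_null (t := {b}) ?_ (measure_singleton _)
  rintro t ⟨⟨-, h4, -⟩, ⟨h5, -, -⟩⟩
  exact le_antisymm h4 h5

theorem lex_interval (f : ℝ → ℂ) (hf : Continuous f) (h1 : ∀ t : ℝ, AnalyticAt ℝ f t)
    (h2 : ∀ t0 : ℝ, ¬ ∀ᶠ t in 𝓝 t0, f t = 0) (T : ℝ) (hT : 0 ≤ T) :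
    ∃ l : ENNReal, Tendsto (fun ε : ℝ => volume {t : ℝ | 0 ≤ t ∧ t ≤ T ∧ ‖f t‖ < ε} / ENNReal.ofReal ε)
      (𝓝[>] 0) (𝓝 l) := by
  obtain ⟨S, hS⟩ : ∃ S : Set ℝ, S = {x | 0 ≤ x ∧ x ≤ T ∧ ∃ l : ENNReal,
      Tendsto (fun ε : ℝ => volume {t : ℝ | 0 ≤ t ∧ t ≤ x ∧ ‖f t‖ < ε} / ENNReal.ofReal ε)
      (𝓝[>] 0) (𝓝 l)} := ⟨_, rfl⟩
  have h0 : (0 : ℝ) ∈ S := by
    obtain ⟨δ, hδ, h3⟩ := lex_one f hf 0 (h1 0) (h2 0)
    rw [hS]
    exact ⟨le_refl _, hT, h3 0 0 (by linarith) (by linarith) le_rfl le_rfl⟩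
  have hbdd : BddAbove S := ⟨T, fun x hx => by
    rw [hS] at hx
    exact hx.2.1⟩
  have hle : sSup S ≤ T := csSup_le ⟨0, h0⟩ fun x hx => by
    rw [hS] at hx
    exact hx.2.1
  have hge : 0 ≤ sSup S := le_csSup hbdd h0
  obtain ⟨δ, hδ, h3⟩ := lex_one f hf (sSup S) (h1 _) (h2 _)
  obtain ⟨x, hx, hx'⟩ := exists_lt_of_lt_csSup ⟨0, h0⟩ (show sSup S - δ < sSup S by linarith)
  have hxc : x ≤ sSup S := le_csSup hbdd hx
  rw [hS] at hx
  obtain ⟨hx0, hxT, hxP⟩ := hx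
  have hβ1 : sSup S ≤ min T (sSup S + δ / 2) := le_min hle (by linarith)
  have hβ2 : min T (sSup S + δ / 2) < sSup S + δ := (min_le_right _ _).trans_lt (by linarith)
  have h4 := lex_add hf hx0 (hxc.trans hβ1) hxP (h3 x _ hx' hβ2 hxc hβ1)
  have h5 : min T (sSup S + δ / 2) ∈ S := by
    have h8 : 0 ≤ min T (sSup S + δ / 2) := hge.trans hβ1
    have h9 : min T (sSup S + δ / 2) ≤ T := min_le_left _ _
    generalize min T (sSup S + δ / 2) = z at h4 h8 h9 ⊢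
    rw [hS]
    exact ⟨h8, h9, h4⟩
  have h6 : min T (sSup S + δ / 2) ≤ sSup S := le_csSup hbdd h5
  have h7 : min T (sSup S + δ / 2) = T := by
    rcases min_choice T (sSup S + δ / 2) with h | h
    · exact h
    · rw [h] at h6
      linarith
  rw [h7] at h4
  exact h4

theorem lex_zeta (T : ℝ) (hT : 0 ≤ T) :
    ∃ l : ENNReal, Tendsto (fun ε : ℝ => volume {t : ℝ | 0 ≤ t ∧ t ≤ T ∧
      ‖riemannZeta (1 / 2 + I * (t : ℂ))‖ < ε} / ENNReal.ofReal ε) (𝓝[>] 0) (𝓝 l) := by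
  have hne : ∀ t : ℝ, (1 / 2 + I * (t : ℂ)) ≠ 1 := by
    intro t h
    have h3 := congrArg Complex.re h
    simp at h3
  have han : AnalyticOnNhd ℂ riemannZeta {1}ᶜ := by
    refine DifferentiableOn.analyticOnNhd (fun s hs => ?_) isOpen_compl_singleton
    exact (differentiableAt_riemannZeta hs).differentiableWithinAt
  have hline : ∀ t : ℝ, AnalyticAt ℝ (fun t : ℝ => (1 / 2 + I * (t : ℂ))) t := by
    intro t
    have h3 : AnalyticAt ℝ (fun t : ℝ => (t : ℂ)) t := Complex.ofRealCLM.analyticAt t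
    exact analyticAt_const.add (analyticAt_const.mul h3)
  have hcl : Continuous (fun t : ℝ => (1 / 2 + I * (t : ℂ))) := by fun_prop
  have h1 : ∀ t : ℝ, AnalyticAt ℝ (fun t : ℝ => riemannZeta (1 / 2 + I * (t : ℂ))) t := by
    intro t
    have h3 : AnalyticAt ℝ riemannZeta (1 / 2 + I * (t : ℂ)) :=
      (han _ (hne t)).restrictScalars
    exact AnalyticAt.comp (g := riemannZeta) (f := fun t : ℝ => (1 / 2 + I * (t : ℂ))) h3 (hline t)
  have hc : Continuous (fun t : ℝ => riemannZeta (1 / 2 + I * (t : ℂ))) :=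
    continuous_iff_continuousAt.2 fun t => (h1 t).continuousAt
  refine lex_interval _ hc h1 (fun t0 h3 => ?_) T hT
  have htend : Tendsto (fun t : ℝ => (1 / 2 + I * (t : ℂ))) (𝓝[≠] t0)
      (𝓝[≠] (1 / 2 + I * (t0 : ℂ))) := by
    refine tendsto_nhdsWithin_of_tendsto_nhds_of_eventually_within _
      (hcl.continuousAt.mono_left nhdsWithin_le_nhds) ?_
    filter_upwards [self_mem_nhdsWithin] with t ht h4
    have h4 : (1 / 2 + I * (t : ℂ)) = 1 / 2 + I * (t0 : ℂ) := h4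
    have h5 := mul_left_cancel₀ I_ne_zero (add_left_cancel h4)
    exact ht (Complex.ofReal_injective h5)
  have hfr : ∃ᶠ z in 𝓝[≠] (1 / 2 + I * (t0 : ℂ)), riemannZeta z = 0 := by
    refine htend.frequently ?_
    exact (h3.filter_mono nhdsWithin_le_nhds).frequently
  have hpre : IsPreconnected ({1}ᶜ : Set ℂ) := by
    refine (isConnected_compl_singleton_of_one_lt_rank ?_ 1).isPreconnected
    rw [Complex.rank_real_complex]
    exact Cardinal.one_lt_two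
  have h6 := han.eqOn_zero_of_preconnected_of_frequently_eq_zero hpre (hne t0) hfr
  have h7 : riemannZeta 2 = 0 := h6 (show (2 : ℂ) ∈ ({1}ᶜ : Set ℂ) by
    rw [Set.mem_compl_iff, Set.mem_singleton_iff]
    norm_num)
  exact riemannZeta_ne_zero_of_one_lt_re (s := 2) (by norm_num) h7

end Pool.Agent.H28.ZT
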