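import Pool.Agent.H28.ZT.Z7
import Pool.Agent.H28.ZT.LEx2

/-!
# FIN: the theorem

`PT T x = (1/T) meas {t ∈ [0,T] : ζ(1/2+it) = 0 or log |ζ(1/2+it)| < -x}` as in the problem file.  The set is
`{t : 0 ≤ t ≤ T, ‖ζ‖ < e^(-x)}`, `ε = e^(-x) → 0+` as `x → ∞`, `e^x P = (1/T) volume(..)/ε` (finite measure); Z7 and LEX2.
-/

set_option autoImplicit false

namespace Pool.Agent.H28.ZT

open MeasureTheory Filter Topology Complex

noncomputable def PT (T x : ℝ) : ℝ :=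
  1 / T * (volume {t : ℝ | 0 ≤ t ∧ t ≤ T ∧ (riemannZeta (1 / 2 + I * (t : ℂ)) = 0 ∨
    Real.log ‖riemannZeta (1 / 2 + I * (t : ℂ))‖ < -x)}).toReal

theorem PT_set (T x : ℝ) : {t : ℝ | 0 ≤ t ∧ t ≤ T ∧ (riemannZeta (1 / 2 + I * (t : ℂ)) = 0 ∨
    Real.log ‖riemannZeta (1 / 2 + I * (t : ℂ))‖ < -x)} =
    {t : ℝ | 0 ≤ t ∧ t ≤ T ∧ ‖riemannZeta (1 / 2 + I * (t : ℂ))‖ < Real.exp (-x)} := by
  ext t
  simp only [Set.mem_ofPred_eq]
  constructor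
  · rintro ⟨h1, h2, h3⟩
    refine ⟨h1, h2, ?_⟩
    by_cases h0 : riemannZeta (1 / 2 + I * (t : ℂ)) = 0
    · rw [h0, norm_zero]
      exact Real.exp_pos _
    · have h4 := h3.resolve_left h0
      rwa [← Real.log_lt_iff_lt_exp (norm_pos_iff.2 h0)]
  · rintro ⟨h1, h2, h3⟩
    refine ⟨h1, h2, ?_⟩
    by_cases h0 : riemannZeta (1 / 2 + I * (t : ℂ)) = 0
    · exact Or.inl h0
    · exact Or.inr ((Real.log_lt_iff_lt_exp (norm_pos_iff.2 h0)).2 h3)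

theorem PT_fin (T ε : ℝ) : volume {t : ℝ | 0 ≤ t ∧ t ≤ T ∧ ‖riemannZeta (1 / 2 + I * (t : ℂ))‖ < ε} ≠ ⊤ := by
  have h1 : {t : ℝ | 0 ≤ t ∧ t ≤ T ∧ ‖riemannZeta (1 / 2 + I * (t : ℂ))‖ < ε} ⊆ Set.Icc 0 T :=
    fun t ht => ⟨ht.1, ht.2.1⟩
  exact ne_top_of_le_ne_top (by rw [Real.volume_Icc]; exact ENNReal.ofReal_ne_top) (measure_mono h1)

theorem fin_lower : ∃ c T0 : ℝ, 0 < c ∧ 0 < T0 ∧ ∀ T : ℝ, T0 ≤ T → ∀ᶠ x in atTop,
    c * (Real.log T) ^ (1 / 4 : ℝ) ≤ Real.exp x * PT T x := by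
  obtain ⟨c, T0, hc, hT0, h7⟩ := Z7
  refine ⟨c, T0, hc, by linarith, fun T hT => ?_⟩
  have hTpos : 0 < T := by linarith
  obtain ⟨ε0, hε0, h⟩ := h7 T hT
  have hev : ∀ᶠ x : ℝ in atTop, Real.exp (-x) ≤ ε0 := by
    have h1 : Tendsto (fun x : ℝ => Real.exp (-x)) atTop (𝓝 0) :=
      Real.tendsto_exp_neg_atTop_nhds_zero
    exact (h1.eventually (gt_mem_nhds hε0)).mono fun x hx => hx.le
  filter_upwards [hev] with x hx
  have h1 := h (Real.exp (-x)) (Real.exp_pos _) hx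
  rw [PT, PT_set]
  have h2 := (ENNReal.ofReal_le_iff_le_toReal (PT_fin T (Real.exp (-x)))).1 h1
  have h3 : Real.exp x * Real.exp (-x) = 1 := by
    rw [← Real.exp_add]
    simp
  have h4 : 0 ≤ Real.exp x * (1 / T) := by positivity
  calc c * (Real.log T) ^ (1 / 4 : ℝ)
      = (Real.exp x * Real.exp (-x)) * (1 / T * T) * (c * (Real.log T) ^ (1 / 4 : ℝ)) := by
        rw [h3, one_div_mul_cancel hTpos.ne']
        ring
    _ = Real.exp x * (1 / T) * (c * Real.exp (-x) * T * (Real.log T) ^ (1 / 4 : ℝ)) := by ring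
    _ ≤ Real.exp x * (1 / T) * (volume {t : ℝ | 0 ≤ t ∧ t ≤ T ∧
          ‖riemannZeta (1 / 2 + I * (t : ℂ))‖ < Real.exp (-x)}).toReal :=
        mul_le_mul_of_nonneg_left h2 h4
    _ = _ := by ring

theorem fin_limit (T : ℝ) (hT : 0 < T) :
    ∃ l : ENNReal, Tendsto (fun x : ℝ => ENNReal.ofReal (Real.exp x * PT T x)) atTop (𝓝 l) := by
  obtain ⟨l, hl⟩ := lex_zeta T hT.le
  refine ⟨ENNReal.ofReal (1 / T) * l, ?_⟩
  have h1 : Tendsto (fun x : ℝ => Real.exp (-x)) atTop (𝓝[>] 0) := by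
    rw [tendsto_nhdsWithin_iff]
    exact ⟨Real.tendsto_exp_neg_atTop_nhds_zero, Eventually.of_forall fun x => Real.exp_pos _⟩
  have h2 := ENNReal.Tendsto.const_mul (a := ENNReal.ofReal (1 / T)) (hl.comp h1)
    (Or.inr ENNReal.ofReal_ne_top)
  refine h2.congr fun x => ?_
  simp only [Function.comp]
  rw [PT, PT_set]
  set M := volume {t : ℝ | 0 ≤ t ∧ t ≤ T ∧ ‖riemannZeta (1 / 2 + I * (t : ℂ))‖ < Real.exp (-x)} with hM
  have hMf : M ≠ ⊤ := PT_fin T (Real.exp (-x))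
  have e1 : M = ENNReal.ofReal M.toReal := (ENNReal.ofReal_toReal hMf).symm
  have e2 : (ENNReal.ofReal (Real.exp (-x)))⁻¹ = ENNReal.ofReal (Real.exp x) := by
    rw [← ENNReal.ofReal_inv_of_pos (Real.exp_pos _), Real.exp_neg, inv_inv]
  rw [ENNReal.div_eq_inv_mul, e2]
  nth_rewrite 1 [e1]
  rw [← ENNReal.ofReal_mul (Real.exp_pos x).le, ← ENNReal.ofReal_mul (by positivity)]
  congr 1
  ring

end Pool.Agent.H28.ZT
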