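import Pool.Agent.H28.ZT.Loc

/-!
# FULL (chapter E): full sum over one block

Families `f : κ → Finset ℕ` with `f k ⊆ Q` correspond to functions `u : Q → Finset κ`, `u p = {k : p ∈ f k}`
(`Finset.prod_sum` / `Finset.prod_univ_sum`, `Fintype.piFinset`; or induction on `Q`: adding a prime).
-/

set_option autoImplicit false

namespace Pool.Agent.H28.ZT

open Complex

theorem SS_full {κ : Type} [Fintype κ] [DecidableEq κ] (Q : Finset ℕ) (φ : ℕ → Finset κ → ℂ) :
    SS Q.powerset Q φ = ∏ p ∈ Q, ∑ u : Finset κ, φ p u := by
  unfold SS
  induction Q using Finset.induction_on with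
  | empty =>
    have h1 : Fintype.piFinset (fun _ : κ => (∅ : Finset ℕ).powerset) = {fun _ => ∅} := by
      ext f
      rw [Fintype.mem_piFinset, Finset.mem_singleton]
      constructor
      · intro h
        funext k
        have := h k
        rw [Finset.mem_powerset] at this
        exact Finset.subset_empty.1 this
      · rintro rfl k
        rw [Finset.mem_powerset]
    rw [h1]
    simp
  | insert q Q hq ih =>
    rw [Finset.prod_insert hq, ← ih, Finset.sum_mul_sum, ← Finset.sum_product']
    refine Finset.sum_nbij' (fun f => (Finset.univ.filter (fun k => q ∈ f k), fun k => (f k).erase q))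
      (fun g => fun k => if k ∈ g.1 then insert q (g.2 k) else g.2 k) ?_ ?_ ?_ ?_ ?_
    · intro f hf
      rw [Fintype.mem_piFinset] at hf
      rw [Finset.mem_product, Fintype.mem_piFinset]
      refine ⟨Finset.mem_univ _, fun k => ?_⟩
      have h1 := hf k
      rw [Finset.mem_powerset] at h1 ⊢
      intro p hp
      rw [Finset.mem_erase] at hp
      have h2 := h1 hp.2
      rw [Finset.mem_insert] at h2
      exact h2.resolve_left hp.1
    · intro g hg
      rw [Finset.mem_product, Fintype.mem_piFinset] at hg
      rw [Fintype.mem_piFinset]
      intro k
      have h1 := hg.2 k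
      rw [Finset.mem_powerset] at h1 ⊢
      split_ifs
      · exact Finset.insert_subset_insert q h1
      · exact h1.trans (Finset.subset_insert q Q)
    · intro f hf
      funext k
      by_cases h : q ∈ f k
      · rw [if_pos (by simpa using h)]
        exact Finset.insert_erase h
      · rw [if_neg (by simpa using h)]
        exact Finset.erase_eq_of_notMem h
    · intro g hg
      rw [Finset.mem_product, Fintype.mem_piFinset] at hg
      have hnot : ∀ k, q ∉ g.2 k := fun k h => hq (Finset.mem_powerset.1 (hg.2 k) h)
      refine Prod.ext ?_ (funext fun k => ?_)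
      · ext k
        simp only [Finset.mem_filter, Finset.mem_univ, true_and]
        by_cases h : k ∈ g.1
        · simp [h]
        · simp [h, hnot k]
      · by_cases h : k ∈ g.1
        · simp [h, Finset.erase_insert (hnot k)]
        · simp [h, Finset.erase_eq_of_notMem (hnot k)]
    · intro f _
      rw [Finset.prod_insert hq]
      congr 1
      refine Finset.prod_congr rfl fun p hp => ?_
      congr 1
      ext k
      have hne : p ≠ q := fun h => hq (h ▸ hp)
      simp [hne]

end Pool.Agent.H28.ZT
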