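import Mathlib

/-!
# OFF (chapter D): the off-diagonal double sum

`k ≠ l` positive integers: `1/|k² - l²| = 1/(|k-l|(k+l))`.  By symmetry twice the sum over `l < k`:
`∑_k e^(-πk²σ) (1/k) ∑_{l<k} 1/(k-l) ≤ ∑_k e^(-πk²σ) (1 + log k)/k ≤ C (1 + log(1/σ))²`
(`k ≤ σ^(-1/2)`: `∑ (1+log k)/k ≤ (1 + log K)²`; larger `k`: dyadic blocks, `e^(-π4^j) (1 + log K + j)`).
Index set `ℕ × ℕ`, `k = p.1 + 1`, `l = p.2 + 1`.
-/

set_option autoImplicit false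

namespace Pool.Agent.H28.ZT

noncomputable def offT (σ : ℝ) (p : ℕ × ℕ) : ℝ :=
  if p.1 = p.2 then 0 else
    Real.exp (-(Real.pi * (((p.1 : ℝ) + 1) ^ 2 + ((p.2 : ℝ) + 1) ^ 2) * σ)) /
      |((p.1 : ℝ) + 1) ^ 2 - ((p.2 : ℝ) + 1) ^ 2|

private noncomputable def offH (σ : ℝ) (n : ℕ) : ℝ :=
  Real.exp (-(σ * ((n : ℝ) + 1) ^ 2)) / ((n : ℝ) + 1)

private theorem offH_nonneg (σ : ℝ) (n : ℕ) : 0 ≤ offH σ n := by
  unfold offH
  positivity

private theorem offH_sum_sq : Summable (fun n : ℕ => 1 / ((n : ℝ) + 1) ^ 2) := by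
  have h := (summable_nat_add_iff (f := fun n : ℕ => 1 / (n : ℝ) ^ 2) 1).2
    (Real.summable_one_div_nat_pow.2 (by norm_num))
  refine h.congr fun n => ?_
  push_cast
  rfl

private theorem offH_le {σ : ℝ} (h0 : 0 < σ) (n : ℕ) :
    offH σ n ≤ (if n ∈ Finset.range ⌈1 / σ⌉₊ then 1 / ((n : ℝ) + 1) else 0) +
      1 / ((n : ℝ) + 1) ^ 2 := by
  have hn : (0 : ℝ) < (n : ℝ) + 1 := by positivity
  have he : Real.exp (-(σ * ((n : ℝ) + 1) ^ 2)) ≤ 1 := Real.exp_le_one_iff.2 (by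
    have : 0 ≤ σ * ((n : ℝ) + 1) ^ 2 := by positivity
    linarith)
  unfold offH
  split_ifs with h
  · have h1 : Real.exp (-(σ * ((n : ℝ) + 1) ^ 2)) / ((n : ℝ) + 1) ≤ 1 / ((n : ℝ) + 1) :=
      div_le_div_of_nonneg_right he hn.le
    have h2 : (0 : ℝ) ≤ 1 / ((n : ℝ) + 1) ^ 2 := by positivity
    linarith
  · rw [zero_add]
    have hK : 1 / σ ≤ (n : ℝ) + 1 := by
      have h1 : ⌈1 / σ⌉₊ ≤ n := not_lt.1 fun h2 => h (Finset.mem_range.2 h2)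
      have h2 : 1 / σ ≤ (⌈1 / σ⌉₊ : ℝ) := Nat.le_ceil _
      have h3 : (⌈1 / σ⌉₊ : ℝ) ≤ n := by exact_mod_cast h1
      linarith
    have h1 : 1 ≤ σ * ((n : ℝ) + 1) := by
      rw [div_le_iff₀ h0] at hK
      linarith
    have h2 : (n : ℝ) + 1 ≤ Real.exp (σ * ((n : ℝ) + 1) ^ 2) := by
      have h3 := Real.add_one_le_exp (σ * ((n : ℝ) + 1) ^ 2)
      nlinarith
    rw [Real.exp_neg, div_le_div_iff₀ hn (by positivity), one_mul]
    rw [inv_mul_le_iff₀ (Real.exp_pos _)]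
    nlinarith

private theorem offH_summable {σ : ℝ} (h0 : 0 < σ) : Summable (offH σ) := by
  refine Summable.of_nonneg_of_le (offH_nonneg σ) (offH_le h0) ?_
  refine Summable.add ?_ offH_sum_sq
  refine summable_of_ne_finset_zero (s := Finset.range ⌈1 / σ⌉₊) fun n hn => if_neg hn

private theorem offH_tsum {σ : ℝ} (h0 : 0 < σ) (h1 : σ ≤ 1) :
    ∑' n, offH σ n ≤ (2 + ∑' n : ℕ, 1 / ((n : ℝ) + 1) ^ 2) * (1 + Real.log (1 / σ)) := by
  have hs : Summable (fun n : ℕ => if n ∈ Finset.range ⌈1 / σ⌉₊ then 1 / ((n : ℝ) + 1) else 0) :=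
    summable_of_ne_finset_zero (s := Finset.range ⌈1 / σ⌉₊) fun n hn => if_neg hn
  have hL : 0 ≤ Real.log (1 / σ) := Real.log_nonneg (by rw [le_div_iff₀ h0]; linarith)
  have hZ : 0 ≤ ∑' n : ℕ, 1 / ((n : ℝ) + 1) ^ 2 := tsum_nonneg fun n => by positivity
  have h2 : ∑' n, offH σ n ≤
      ∑' n : ℕ, ((if n ∈ Finset.range ⌈1 / σ⌉₊ then 1 / ((n : ℝ) + 1) else 0) +
        1 / ((n : ℝ) + 1) ^ 2) :=
    (offH_summable h0).tsum_le_tsum (offH_le h0) (hs.add offH_sum_sq)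
  rw [hs.tsum_add offH_sum_sq] at h2
  have h3 : ∑' n : ℕ, (if n ∈ Finset.range ⌈1 / σ⌉₊ then 1 / ((n : ℝ) + 1) else 0) =
      ∑ n ∈ Finset.range ⌈1 / σ⌉₊, 1 / ((n : ℝ) + 1) := by
    rw [tsum_eq_sum (s := Finset.range ⌈1 / σ⌉₊) fun n hn => if_neg hn]
    exact Finset.sum_congr rfl fun n hn => if_pos hn
  have h4 : ∑ n ∈ Finset.range ⌈1 / σ⌉₊, 1 / ((n : ℝ) + 1) ≤ 1 + Real.log (⌈1 / σ⌉₊ : ℝ) := by
    have h5 := harmonic_le_one_add_log ⌈1 / σ⌉₊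
    refine le_trans (le_of_eq ?_) h5
    unfold harmonic
    push_cast
    exact Finset.sum_congr rfl fun n _ => by rw [one_div]
  have h5 : Real.log (⌈1 / σ⌉₊ : ℝ) ≤ 1 + Real.log (1 / σ) := by
    have hs1 : 1 ≤ 1 / σ := by rw [le_div_iff₀ h0]; linarith
    have h6 : (⌈1 / σ⌉₊ : ℝ) ≤ Real.exp 1 * (1 / σ) := by
      have h7 : (⌈1 / σ⌉₊ : ℝ) < 1 / σ + 1 := Nat.ceil_lt_add_one (by positivity)
      have h8 : (2 : ℝ) ≤ Real.exp 1 := by
        have := Real.add_one_le_exp (1 : ℝ)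
        linarith
      nlinarith
    have h9 : (0 : ℝ) < (⌈1 / σ⌉₊ : ℝ) := by
      have : 0 < ⌈1 / σ⌉₊ := Nat.ceil_pos.2 (by positivity)
      exact_mod_cast this
    have h10 := Real.log_le_log h9 h6
    rw [Real.log_mul (Real.exp_pos 1).ne' (by positivity), Real.log_exp] at h10
    exact h10
  nlinarith

private theorem off_pt {σ : ℝ} (h0 : 0 < σ) {a b : ℕ} (h : b < a) :
    Real.exp (-(Real.pi * (((a : ℝ) + 1) ^ 2 + ((b : ℝ) + 1) ^ 2) * σ)) /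
      |((a : ℝ) + 1) ^ 2 - ((b : ℝ) + 1) ^ 2| ≤ offH σ (a - b - 1) * offH σ b := by
  obtain ⟨n, rfl⟩ : ∃ n, a = b + n + 1 := ⟨a - b - 1, by omega⟩
  have hn : b + n + 1 - b - 1 = n := by omega
  rw [hn]
  unfold offH
  push_cast
  have hb0 : (0 : ℝ) ≤ b := Nat.cast_nonneg b
  have hn0 : (0 : ℝ) ≤ n := Nat.cast_nonneg n
  have hd : |((b : ℝ) + n + 1 + 1) ^ 2 - ((b : ℝ) + 1) ^ 2| =
      ((n : ℝ) + 1) * (2 * b + n + 3) := by
    rw [abs_of_nonneg (by nlinarith)]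
    ring
  rw [hd, div_mul_div_comm, ← Real.exp_add]
  apply div_le_div₀ (Real.exp_pos _).le _ (by positivity) _
  · apply Real.exp_le_exp.2
    have hpi : (1 : ℝ) ≤ Real.pi := by
      have := Real.pi_gt_three
      linarith
    have h1 : σ * ((n : ℝ) + 1) ^ 2 ≤ Real.pi * ((b : ℝ) + n + 1 + 1) ^ 2 * σ := by
      have h2 : ((n : ℝ) + 1) ^ 2 ≤ Real.pi * ((b : ℝ) + n + 1 + 1) ^ 2 := by
        have h3 : ((n : ℝ) + 1) ^ 2 ≤ ((b : ℝ) + n + 1 + 1) ^ 2 :=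
          pow_le_pow_left₀ (by positivity) (by linarith) 2
        have h4 : (0 : ℝ) ≤ ((b : ℝ) + n + 1 + 1) ^ 2 := by positivity
        nlinarith
      calc σ * ((n : ℝ) + 1) ^ 2 ≤ σ * (Real.pi * ((b : ℝ) + n + 1 + 1) ^ 2) :=
            mul_le_mul_of_nonneg_left h2 h0.le
        _ = _ := by ring
    have h5 : σ * ((b : ℝ) + 1) ^ 2 ≤ Real.pi * ((b : ℝ) + 1) ^ 2 * σ := by
      have h6 : (0 : ℝ) ≤ ((b : ℝ) + 1) ^ 2 * σ := by positivity
      nlinarith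
    have h7 : -(Real.pi * (((b : ℝ) + n + 1 + 1) ^ 2 + ((b : ℝ) + 1) ^ 2) * σ) =
        -(Real.pi * ((b : ℝ) + n + 1 + 1) ^ 2 * σ) + -(Real.pi * ((b : ℝ) + 1) ^ 2 * σ) := by ring
    rw [h7]
    linarith
  · apply mul_le_mul_of_nonneg_left _ (by positivity)
    linarith

private theorem off_le {σ : ℝ} (h0 : 0 < σ) (p : ℕ × ℕ) :
    offT σ p ≤ (if p.2 < p.1 then offH σ (p.1 - p.2 - 1) * offH σ p.2 else 0) +
      (if p.1 < p.2 then offH σ (p.2 - p.1 - 1) * offH σ p.1 else 0) := by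
  unfold offT
  rcases lt_trichotomy p.1 p.2 with h | h | h
  · rw [if_neg h.ne, if_neg h.not_gt, if_pos h, zero_add]
    refine le_trans (le_of_eq ?_) (off_pt h0 h)
    rw [abs_sub_comm, add_comm (((p.1 : ℝ) + 1) ^ 2)]
  · rw [if_pos h, if_neg h.not_gt, if_neg h.not_lt, add_zero]
  · rw [if_neg h.ne', if_pos h, if_neg h.not_gt, add_zero]
    exact off_pt h0 h

private theorem off_half {σ : ℝ} (h0 : 0 < σ) (s : Finset (ℕ × ℕ)) :
    ∑ p ∈ s, (if p.2 < p.1 then offH σ (p.1 - p.2 - 1) * offH σ p.2 else 0) ≤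
      (∑' n, offH σ n) * ∑' n, offH σ n := by
  classical
  rw [← Finset.sum_filter]
  have hprod : Summable fun q : ℕ × ℕ => offH σ q.1 * offH σ q.2 :=
    (offH_summable h0).mul_of_nonneg (offH_summable h0) (offH_nonneg σ) (offH_nonneg σ)
  rw [(offH_summable h0).tsum_mul_tsum (offH_summable h0) hprod]
  have hinj : Set.InjOn (fun p : ℕ × ℕ => (p.1 - p.2 - 1, p.2))
      ((s.filter fun p => p.2 < p.1 : Finset (ℕ × ℕ)) : Set (ℕ × ℕ)) := by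
    intro p hp p' hp' h
    have h1 := (Finset.mem_filter.1 (Finset.mem_coe.1 hp)).2
    have h2 := (Finset.mem_filter.1 (Finset.mem_coe.1 hp')).2
    simp only [Prod.mk.injEq] at h
    exact Prod.ext (by omega) h.2
  rw [← Finset.sum_image (f := fun q : ℕ × ℕ => offH σ q.1 * offH σ q.2) hinj]
  exact hprod.sum_le_tsum _ fun q _ => mul_nonneg (offH_nonneg σ _) (offH_nonneg σ _)

private theorem off_half' {σ : ℝ} (h0 : 0 < σ) (s : Finset (ℕ × ℕ)) :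
    ∑ p ∈ s, (if p.1 < p.2 then offH σ (p.2 - p.1 - 1) * offH σ p.1 else 0) ≤
      (∑' n, offH σ n) * ∑' n, offH σ n := by
  classical
  refine le_trans (le_of_eq ?_) (off_half h0 (s.image Prod.swap))
  rw [Finset.sum_image Prod.swap_injective.injOn]
  rfl

private theorem offT_nonneg (σ : ℝ) (p : ℕ × ℕ) : 0 ≤ offT σ p := by
  unfold offT
  split_ifs
  · exact le_rfl
  · positivity

theorem off : ∃ C : ℝ, 0 < C ∧ ∀ σ : ℝ, 0 < σ → σ ≤ 1 →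
    Summable (offT σ) ∧ ∑' p : ℕ × ℕ, offT σ p ≤ C * (1 + Real.log (1 / σ)) ^ 2 := by
  set Z : ℝ := ∑' n : ℕ, 1 / ((n : ℝ) + 1) ^ 2 with hZ
  have hZ0 : 0 ≤ Z := tsum_nonneg fun n => by positivity
  refine ⟨2 * (2 + Z) ^ 2, by positivity, ?_⟩
  intro σ h0 h1
  have hL : 0 ≤ Real.log (1 / σ) := Real.log_nonneg (by rw [le_div_iff₀ h0]; linarith)
  have hS := offH_tsum h0 h1
  have hS0 : 0 ≤ ∑' n, offH σ n := tsum_nonneg (offH_nonneg σ)
  have hfin : ∀ s : Finset (ℕ × ℕ), ∑ p ∈ s, offT σ p ≤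
      2 * (2 + Z) ^ 2 * (1 + Real.log (1 / σ)) ^ 2 := by
    intro s
    have h2 := Finset.sum_le_sum (s := s) fun p _ => off_le h0 p
    rw [Finset.sum_add_distrib] at h2
    have h3 := off_half h0 s
    have h4 := off_half' h0 s
    have h5 : (∑' n, offH σ n) * ∑' n, offH σ n ≤
        ((2 + Z) * (1 + Real.log (1 / σ))) * ((2 + Z) * (1 + Real.log (1 / σ))) :=
      mul_le_mul hS hS hS0 (by positivity)
    calc ∑ p ∈ s, offT σ p ≤ _ := h2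
      _ ≤ ((2 + Z) * (1 + Real.log (1 / σ))) * ((2 + Z) * (1 + Real.log (1 / σ))) +
          ((2 + Z) * (1 + Real.log (1 / σ))) * ((2 + Z) * (1 + Real.log (1 / σ))) :=
        add_le_add (h3.trans h5) (h4.trans h5)
      _ = _ := by ring
  have hsum : Summable (offT σ) := summable_of_sum_le (offT_nonneg σ) hfin
  exact ⟨hsum, hsum.tsum_le_of_sum_le hfin⟩

end Pool.Agent.H28.ZT
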