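import Pool.Agent.H28.ZT.Dbl
import Pool.Agent.H28.ZT.Off

/-!
# HGEN (chapter D): common generalisation of HPLUS and HMINUS (helper91)

`λ ∈ (0, 1]`, `α = λ c²`, `β = λ c'²`: `λ = 1` is HPLUS, `λ = 1/(c c')²` is HMINUS.
-/

set_option autoImplicit false

namespace Pool.Agent.H28.ZT

open Complex MeasureTheory Filter Topology

theorem Ei_hasSum {s : ℝ} (hs : 0 < s) {x : ℂ} (hx2 : |x.im| ≤ 1 / 4) :
    HasSum (fun g : ℕ => ∫ u in Set.Ioi (1 : ℝ), (u : ℂ) ^ (I * x) *
      Complex.exp (-((((g : ℝ) + 1) ^ 2 * s ^ 2 : ℝ) * (u : ℂ) ^ 2))) (Ei s x) := by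
  let F : ℕ → ℝ → ℂ := fun g u => (u : ℂ) ^ (I * x) *
      Complex.exp (-((((g : ℝ) + 1) ^ 2 * s ^ 2 : ℝ) * (u : ℂ) ^ 2))
  have hg1 : ∀ g : ℕ, (1 : ℝ) ≤ ((g : ℝ) + 1) ^ 2 := by
    intro g
    have : (0 : ℝ) ≤ g := Nat.cast_nonneg _
    nlinarith
  have ha : ∀ g : ℕ, 0 < ((g : ℝ) + 1) ^ 2 * s ^ 2 := by
    intro g
    have := hg1 g
    positivity
  have hFb : ∀ g, ∀ u : ℝ, 1 ≤ u → ‖F g u‖ ≤ u * Real.exp (-((((g : ℝ) + 1) ^ 2 * s ^ 2) * u ^ 2)) := by
    intro g u hu
    simp only [F]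
    rw [norm_mul, dbl_exp, Complex.ofReal_re]
    exact mul_le_mul_of_nonneg_right (dbl_cpow hu hx2) (Real.exp_nonneg _)
  have hcp : ContinuousOn (fun u : ℝ => (u : ℂ) ^ (I * x)) (Set.Ioi 1) := by
    intro u hu
    have hu' : (1 : ℝ) < u := hu
    refine ContinuousAt.continuousWithinAt ?_
    refine ContinuousAt.cpow Complex.continuous_ofReal.continuousAt continuousAt_const ?_
    exact Or.inl (by simp; linarith)
  have hFi : ∀ g, Integrable (F g) (volume.restrict (Set.Ioi 1)) := by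
    intro g
    refine Integrable.mono' (dbl_int (ha g)).1 ?_ ?_
    · exact ContinuousOn.aestronglyMeasurable (hcp.mul (by fun_prop)) measurableSet_Ioi
    · exact (ae_restrict_mem measurableSet_Ioi).mono (fun u hu => hFb g u (le_of_lt hu))
  have hFs : Summable fun g => ∫ u in Set.Ioi (1 : ℝ), ‖F g u‖ := by
    refine Summable.of_nonneg_of_le (fun p => integral_nonneg (fun _ => norm_nonneg _))
      (g := fun g : ℕ => ∫ u in Set.Ioi (1 : ℝ), ‖F g u‖)
      (f := fun g : ℕ => Real.exp (-(Real.pi * ((g : ℝ) + 1) ^ 2 * (s ^ 2 / Real.pi))) / (2 * s ^ 2))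
      (fun g => ?_) (Summable.div_const (om_summable_norm (by positivity)) _)
    calc ∫ u in Set.Ioi (1 : ℝ), ‖F g u‖ ≤
        ∫ u in Set.Ioi (1 : ℝ), u * Real.exp (-((((g : ℝ) + 1) ^ 2 * s ^ 2) * u ^ 2)) := by
          refine setIntegral_mono_on (hFi g).norm (dbl_int (ha g)).1 measurableSet_Ioi ?_
          exact fun u hu => hFb g u (le_of_lt hu)
      _ = Real.exp (-(((g : ℝ) + 1) ^ 2 * s ^ 2)) / (2 * (((g : ℝ) + 1) ^ 2 * s ^ 2)) :=
          (dbl_int (ha g)).2
      _ ≤ Real.exp (-(((g : ℝ) + 1) ^ 2 * s ^ 2)) / (2 * s ^ 2) := by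
          refine div_le_div_of_nonneg_left (Real.exp_nonneg _) (by positivity) ?_
          have := hg1 g
          nlinarith [sq_nonneg s]
      _ = _ := by
          congr 2
          field_simp
  have key := hasSum_integral_of_summable_integral_norm hFi hFs
  have e : ∫ u in Set.Ioi (1 : ℝ), ∑' g, F g u = Ei s x := by
    unfold Ei
    refine setIntegral_congr_fun measurableSet_Ioi (fun u _ => ?_)
    simp only [F]
    rw [tsum_mul_left, Complex.ofReal_tsum]
    congr 1
    refine tsum_congr (fun g => ?_)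
    rw [Complex.ofReal_exp]
    congr 1
    push_cast
    ring
  rw [e] at key
  exact key

theorem H_gen : ∃ C : ℝ, 0 < C ∧ ∀ (d l : ℝ) (c c' : ℕ) (x : ℂ), 0 < d → d ≤ 1 / 2 → 0 < l → l ≤ 1 →
    1 ≤ c → 1 ≤ c' → ‖x‖ ≤ 2 → |x.im| ≤ 1 / 4 →
    IntegrableOn (fun u : ℝ => (u : ℂ) ^ (I * x) * om ((l * (c : ℝ) ^ 2 * u ^ 2 : ℝ) * z0 d) *
      (starRingEnd ℂ) (om ((l * (c' : ℝ) ^ 2 * u ^ 2 : ℝ) * z0 d))) (Set.Ioi 1) ∧
    ‖(∫ u in Set.Ioi (1 : ℝ), (u : ℂ) ^ (I * x) * om ((l * (c : ℝ) ^ 2 * u ^ 2 : ℝ) * z0 d) *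
      (starRingEnd ℂ) (om ((l * (c' : ℝ) ^ 2 * u ^ 2 : ℝ) * z0 d))) -
        Ei (Real.sqrt l * (tau d * (Nat.lcm c c' : ℝ))) x‖ ≤
      C / l * (1 + Real.log (1 / (l * Real.sin d))) ^ 2 := by
  obtain ⟨C0, hC0, hosc⟩ := osc
  obtain ⟨C1, hC1, hoff⟩ := off
  refine ⟨C0 * C1, by positivity, ?_⟩
  intro d l c c' x h0 h1 hl hl1 hc hc' hx hx2
  have hπ := Real.pi_pos
  have hπ3 := Real.pi_gt_three
  have hσ : 0 < Real.sin d := Real.sin_pos_of_pos_of_lt_pi h0 (by linarith)
  have hσ1 : Real.sin d ≤ 1 := Real.sin_le_one d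
  have hcos : 7 / 8 ≤ Real.cos d := by
    have := Real.one_sub_sq_div_two_le_cos (x := d)
    nlinarith
  have hcR : (1 : ℝ) ≤ c := by exact_mod_cast hc
  have hcR' : (1 : ℝ) ≤ c' := by exact_mod_cast hc'
  set α : ℝ := l * (c : ℝ) ^ 2 with hα
  set β : ℝ := l * (c' : ℝ) ^ 2 with hβ
  have hα0 : 0 < α := by positivity
  have hβ0 : 0 < β := by positivity
  obtain ⟨hint, hsum⟩ := dbl h0 h1 hα0 hβ0 hx hx2
  refine ⟨hint, ?_⟩
  -- the terms
  let T : ℕ × ℕ → ℂ := fun p => ∫ u in Set.Ioi (1 : ℝ), (u : ℂ) ^ (I * x) *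
    Complex.exp (-(wd d α β p * (u : ℂ) ^ 2))
  -- the diagonal
  set G := Nat.gcd c c' with hG
  have hG0 : 0 < G := Nat.gcd_pos_of_pos_left _ hc
  obtain ⟨a, ha⟩ : G ∣ c := Nat.gcd_dvd_left _ _
  obtain ⟨b, hb⟩ : G ∣ c' := Nat.gcd_dvd_right _ _
  have ha0 : 0 < a := Nat.pos_of_ne_zero (by rintro rfl; simp at ha; omega)
  have hb0 : 0 < b := Nat.pos_of_ne_zero (by rintro rfl; simp at hb; omega)
  have hab : Nat.Coprime a b := by
    have h := Nat.coprime_div_gcd_div_gcd (m := c) (n := c') hG0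
    rw [← hG] at h
    rwa [show c / G = a by rw [ha]; exact Nat.mul_div_cancel_left _ hG0,
      show c' / G = b by rw [hb]; exact Nat.mul_div_cancel_left _ hG0] at h
  have hlcm : Nat.lcm c c' = G * a * b := by
    have h := Nat.gcd_mul_lcm c c'
    rw [← hG] at h
    have h2 : G * Nat.lcm c c' = G * (G * a * b) := by
      rw [h, show c * c' = (G * a) * (G * b) by rw [← ha, ← hb]]
      ring
    exact Nat.eq_of_mul_eq_mul_left hG0 h2
  let e : ℕ → ℕ × ℕ := fun g => ((g + 1) * b - 1, (g + 1) * a - 1)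
  have he1 : ∀ g, (e g).1 + 1 = (g + 1) * b := by
    intro g
    have : 0 < (g + 1) * b := by positivity
    simp only [e]
    omega
  have he2 : ∀ g, (e g).2 + 1 = (g + 1) * a := by
    intro g
    have : 0 < (g + 1) * a := by positivity
    simp only [e]
    omega
  have hinj : Function.Injective e := by
    intro g g' h
    have h1 := he1 g
    rw [h, he1 g'] at h1
    have := Nat.eq_of_mul_eq_mul_right hb0 h1
    omega
  let D : ℕ × ℕ → Prop := fun p => (p.1 + 1) * c = (p.2 + 1) * c'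
  have hDe : ∀ p, D p ↔ p ∈ Set.range e := by
    intro p
    constructor
    · intro h
      have h2 : (p.1 + 1) * a = (p.2 + 1) * b := by
        have h3 : G * ((p.1 + 1) * a) = G * ((p.2 + 1) * b) := by
          have h4 : (p.1 + 1) * (G * a) = (p.2 + 1) * (G * b) := by rw [← ha, ← hb]; exact h
          calc G * ((p.1 + 1) * a) = (p.1 + 1) * (G * a) := by ring
            _ = (p.2 + 1) * (G * b) := h4
            _ = _ := by ring
        exact Nat.eq_of_mul_eq_mul_left hG0 h3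
      have h3 : b ∣ (p.1 + 1) := by
        have : b ∣ (p.1 + 1) * a := ⟨p.2 + 1, by rw [h2]; ring⟩
        exact (Nat.Coprime.symm hab).dvd_of_dvd_mul_right this
      obtain ⟨g, hg⟩ := h3
      have hg0 : 0 < g := Nat.pos_of_ne_zero (by rintro rfl; simp at hg)
      have h4 : p.2 + 1 = g * a := by
        have h5 : b * (p.2 + 1) = b * (g * a) := by
          calc b * (p.2 + 1) = (p.2 + 1) * b := by ring
            _ = (p.1 + 1) * a := h2.symm
            _ = b * (g * a) := by rw [hg]; ring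
        exact Nat.eq_of_mul_eq_mul_left hb0 h5
      refine ⟨g - 1, ?_⟩
      have hgg : g - 1 + 1 = g := by omega
      refine Prod.ext ?_ ?_
      · have h6 := he1 (g - 1)
        rw [hgg] at h6
        rw [mul_comm] at hg
        omega
      · have h6 := he2 (g - 1)
        rw [hgg] at h6
        omega
    · rintro ⟨g, rfl⟩
      show ((e g).1 + 1) * c = ((e g).2 + 1) * c'
      rw [he1, he2, ha, hb]
      ring
  classical
  have hs0 : 0 < Real.sqrt l * (tau d * (Nat.lcm c c' : ℝ)) := by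
    have h1 : 0 < tau d := Real.sqrt_pos.mpr (by positivity)
    have h2 : (0 : ℝ) < Nat.lcm c c' := by exact_mod_cast Nat.lcm_pos hc hc'
    positivity
  have hs2 : (Real.sqrt l * (tau d * (Nat.lcm c c' : ℝ))) ^ 2 =
      l * (2 * Real.pi * Real.sin d) * ((G : ℝ) * a * b) ^ 2 := by
    have h2 : (Nat.lcm c c' : ℝ) = (G : ℝ) * a * b := by rw [hlcm]; push_cast; ring
    rw [mul_pow, mul_pow, Real.sq_sqrt hl.le, tau, Real.sq_sqrt (by positivity), h2]
    ring
  have hdiag : HasSum (fun p => if D p then T p else 0)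
      (Ei (Real.sqrt l * (tau d * (Nat.lcm c c' : ℝ))) x) := by
    rw [← hinj.hasSum_iff]
    · have h := Ei_hasSum hs0 hx2
      convert h using 1
      funext g
      simp only [Function.comp]
      rw [if_pos ((hDe _).mpr ⟨g, rfl⟩)]
      have hwd : wd d α β (e g) = ((((g : ℝ) + 1) ^ 2 *
          (Real.sqrt l * (tau d * (Nat.lcm c c' : ℝ))) ^ 2 : ℝ) : ℂ) := by
        have q1 : (((e g).1 : ℝ) + 1) = ((g : ℝ) + 1) * b := by exact_mod_cast he1 g
        have q2 : (((e g).2 : ℝ) + 1) = ((g : ℝ) + 1) * a := by exact_mod_cast he2 g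
        have q3 : (c : ℝ) = G * a := by exact_mod_cast ha
        have q4 : (c' : ℝ) = G * b := by exact_mod_cast hb
        apply Complex.ext
        · rw [wd_re, Complex.ofReal_re, q1, q2, hs2, hα, hβ, q3, q4]
          ring
        · rw [wd_im, Complex.ofReal_im, q1, q2, hα, hβ, q3, q4]
          ring
      simp only [T, hwd]
    · intro p hp
      rw [← hDe] at hp
      simp [hp]
  -- the other terms
  let j : ℕ × ℕ → ℕ × ℕ := fun p => ((p.1 + 1) * c - 1, (p.2 + 1) * c' - 1)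
  have hj1 : ∀ p, (j p).1 + 1 = (p.1 + 1) * c := by
    intro p
    have : 0 < (p.1 + 1) * c := by positivity
    simp only [j]
    omega
  have hj2 : ∀ p, (j p).2 + 1 = (p.2 + 1) * c' := by
    intro p
    have : 0 < (p.2 + 1) * c' := by positivity
    simp only [j]
    omega
  have hjinj : Function.Injective j := by
    intro p q h
    have r1 := hj1 p
    rw [h, hj1 q] at r1
    have r2 := hj2 p
    rw [h, hj2 q] at r2
    have r3 := Nat.eq_of_mul_eq_mul_right (by omega) r1
    have r4 := Nat.eq_of_mul_eq_mul_right (by omega) r2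
    exact Prod.ext (by omega) (by omega)
  have hlσ : 0 < l * Real.sin d := by positivity
  have hlσ1 : l * Real.sin d ≤ 1 := by nlinarith
  obtain ⟨hos, hob⟩ := hoff (l * Real.sin d) hlσ hlσ1
  have hoff0 : ∀ p, 0 ≤ offT (l * Real.sin d) p := by
    intro p
    unfold offT
    split_ifs
    · exact le_rfl
    · positivity
  have hterm : ∀ p, ‖T p - (if D p then T p else 0)‖ ≤ C0 / l * offT (l * Real.sin d) (j p) := by
    intro p
    by_cases hp : D p
    · rw [if_pos hp, sub_self, norm_zero]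
      exact mul_nonneg (by positivity) (hoff0 _)
    · rw [if_neg hp, sub_zero]
      have hne : (j p).1 ≠ (j p).2 := by
        intro h
        apply hp
        show (p.1 + 1) * c = (p.2 + 1) * c'
        rw [← hj1, ← hj2, h]
      have q1 : (((j p).1 : ℝ) + 1) = ((p.1 : ℝ) + 1) * c := by exact_mod_cast hj1 p
      have q2 : (((j p).2 : ℝ) + 1) = ((p.2 : ℝ) + 1) * c' := by exact_mod_cast hj2 p
      unfold offT
      rw [if_neg hne, q1, q2]
      set k : ℝ := ((p.1 : ℝ) + 1) * c with hk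
      set m : ℝ := ((p.2 : ℝ) + 1) * c' with hm
      have hkm : k ^ 2 - m ^ 2 ≠ 0 := by
        have k0 : 0 < k := by positivity
        have m0 : 0 < m := by positivity
        intro h
        have h2 : (k - m) * (k + m) = 0 := by linarith [h, show (k - m) * (k + m) = k ^ 2 - m ^ 2 by ring]
        rcases mul_eq_zero.mp h2 with h3 | h3
        · apply hne
          have : ((j p).1 : ℝ) = (j p).2 := by linarith
          exact_mod_cast this
        · linarith
      have hre : (wd d α β p).re = Real.pi * (k ^ 2 + m ^ 2) * (l * Real.sin d) := by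
        rw [wd_re, hα, hβ, hk, hm]; ring
      have him : (wd d α β p).im = Real.pi * l * (k ^ 2 - m ^ 2) * Real.cos d := by
        rw [wd_im, hα, hβ, hk, hm]; ring
      have hre0 : 0 < (wd d α β p).re := by
        rw [hre]
        have k0 : 0 < k := by positivity
        positivity
      have h3 := (hosc 0 x (wd d α β p) (by norm_num) hx hx2 hre0).2
      simp only [Nat.cast_zero, sub_zero] at h3
      have hn : l * |k ^ 2 - m ^ 2| ≤ ‖wd d α β p‖ := by
        refine le_trans ?_ (Complex.abs_im_le_norm _)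
        rw [him, abs_mul, abs_mul, abs_mul, abs_of_pos hπ, abs_of_pos hl,
          abs_of_pos (by linarith : (0 : ℝ) < Real.cos d)]
        have h4 : 1 ≤ Real.pi * Real.cos d := by nlinarith
        have h5 : 0 ≤ l * |k ^ 2 - m ^ 2| := by positivity
        calc l * |k ^ 2 - m ^ 2| = l * |k ^ 2 - m ^ 2| * 1 := by ring
          _ ≤ l * |k ^ 2 - m ^ 2| * (Real.pi * Real.cos d) := mul_le_mul_of_nonneg_left h4 h5
          _ = _ := by ring
      have hpos : 0 < l * |k ^ 2 - m ^ 2| := by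
        have := abs_pos.mpr hkm
        positivity
      calc ‖T p‖ ≤ C0 * Real.exp (-(wd d α β p).re) / ‖wd d α β p‖ := h3
        _ ≤ C0 * Real.exp (-(wd d α β p).re) / (l * |k ^ 2 - m ^ 2|) :=
            div_le_div_of_nonneg_left (by positivity) hpos hn
        _ = _ := by
            rw [hre]
            field_simp
  have hfin := (hsum.sub hdiag).norm_le_of_bounded
    (((hos.comp_injective hjinj).hasSum).mul_left (C0 / l)) hterm
  refine hfin.trans ?_
  have h6 : ∑' p, (offT (l * Real.sin d) ∘ j) p ≤ C1 * (1 + Real.log (1 / (l * Real.sin d))) ^ 2 :=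
    (tsum_comp_le_tsum_of_inj hos hoff0 hjinj).trans hob
  calc C0 / l * ∑' p, (offT (l * Real.sin d) ∘ j) p ≤
      C0 / l * (C1 * (1 + Real.log (1 / (l * Real.sin d))) ^ 2) :=
        mul_le_mul_of_nonneg_left h6 (by positivity)
    _ = _ := by ring

theorem hgen_sin {d : ℝ} (h0 : 0 < d) (h1 : d ≤ 1 / 2) : d / 2 ≤ Real.sin d := by
  have h := Real.sin_gt_sub_cube h0
  have h2 : d ^ 3 ≤ d * (1 / 4) := by nlinarith [mul_pos h0 h0]
  linarith

end Pool.Agent.H28.ZT
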