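import Pool.Agent.H28.ZT.HGen

/-!
# HMINUS (chapter D): the same with arguments `u²/c²`, `u²/c'²`

DBL with `α = 1/c'²`, `β = 1/c²` (the factor without conjugation has `c'`): sum over `n, m ≥ 1` of
`∫_1^∞ u^(ix) exp (-w u²) du`, `w = π[(n²/c'²+m²/c²) sin d + i (n²/c'²-m²/c²) cos d]`.
`k = m c'`, `l = n c`: `m²/c² - n²/c'² = (k²-l²)/(cc')²`; terms with `k ≠ l`: OSC gives
`≤ C (cc')² ∑ offT (sin d/(cc')²) ≤ C (cc')² (1 + log((cc')²/sin d))²`.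
Terms with `k = l`: `m = g c/gcd`, `m/c = g/gcd`: `Ei (τ/gcd) x`.
-/

set_option autoImplicit false

namespace Pool.Agent.H28.ZT

open Complex MeasureTheory

theorem H_minus : ∃ C : ℝ, 0 < C ∧ ∀ (d : ℝ) (c c' : ℕ) (x : ℂ), 0 < d → d ≤ 1 / 2 → 1 ≤ c → 1 ≤ c' →
    ‖x‖ ≤ 2 → |x.im| ≤ 1 / 4 →
    IntegrableOn (fun u : ℝ => (u : ℂ) ^ (I * x) * (starRingEnd ℂ) (om ((u ^ 2 / (c : ℝ) ^ 2 : ℝ) * z0 d)) *
      om ((u ^ 2 / (c' : ℝ) ^ 2 : ℝ) * z0 d)) (Set.Ioi 1) ∧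
    ‖(∫ u in Set.Ioi (1 : ℝ), (u : ℂ) ^ (I * x) * (starRingEnd ℂ) (om ((u ^ 2 / (c : ℝ) ^ 2 : ℝ) * z0 d)) *
      om ((u ^ 2 / (c' : ℝ) ^ 2 : ℝ) * z0 d)) - Ei (tau d / (Nat.gcd c c' : ℝ)) x‖ ≤
      C * ((c : ℝ) * c') ^ 2 * (1 + Real.log ((c : ℝ) * c' / d)) ^ 2 := by
  obtain ⟨C, hC, h⟩ := H_gen
  refine ⟨4 * C, by positivity, ?_⟩
  intro d c c' x h0 h1 hc hc' hx hx2
  have hcR : (1 : ℝ) ≤ c := by exact_mod_cast hc
  have hcR' : (1 : ℝ) ≤ c' := by exact_mod_cast hc'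
  have hcc : (1 : ℝ) ≤ (c : ℝ) * c' := by nlinarith
  set l : ℝ := 1 / ((c : ℝ) * c') ^ 2 with hl
  have hl0 : 0 < l := by positivity
  have hl1 : l ≤ 1 := by
    rw [hl, div_le_one (by positivity)]
    nlinarith
  obtain ⟨hi, hb⟩ := h d l c c' x h0 h1 hl0 hl1 hc hc' hx hx2
  have e1 : ∀ u : ℝ, l * (c : ℝ) ^ 2 * u ^ 2 = u ^ 2 / (c' : ℝ) ^ 2 := by
    intro u
    rw [hl]
    field_simp
  have e2 : ∀ u : ℝ, l * (c' : ℝ) ^ 2 * u ^ 2 = u ^ 2 / (c : ℝ) ^ 2 := by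
    intro u
    rw [hl]
    field_simp
  have e3 : Real.sqrt l * (tau d * (Nat.lcm c c' : ℝ)) = tau d / (Nat.gcd c c' : ℝ) := by
    have h2 : Real.sqrt l = 1 / ((c : ℝ) * c') := by
      rw [hl, Real.sqrt_div zero_le_one, Real.sqrt_one, Real.sqrt_sq (by positivity)]
    have h3 : (0 : ℝ) < Nat.gcd c c' := by exact_mod_cast Nat.gcd_pos_of_pos_left _ hc
    have h4 : (Nat.gcd c c' : ℝ) * (Nat.lcm c c' : ℝ) = (c : ℝ) * c' := by
      exact_mod_cast Nat.gcd_mul_lcm c c'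
    rw [h2, ← h4]
    have h5 : (0 : ℝ) < Nat.lcm c c' := by exact_mod_cast Nat.lcm_pos hc hc'
    field_simp
  simp only [e1, e2, e3] at hi hb
  have e4 : ∀ u : ℝ, (u : ℂ) ^ (I * x) * (starRingEnd ℂ) (om ((u ^ 2 / (c : ℝ) ^ 2 : ℝ) * z0 d)) *
      om ((u ^ 2 / (c' : ℝ) ^ 2 : ℝ) * z0 d) = (u : ℂ) ^ (I * x) *
      om ((u ^ 2 / (c' : ℝ) ^ 2 : ℝ) * z0 d) *
      (starRingEnd ℂ) (om ((u ^ 2 / (c : ℝ) ^ 2 : ℝ) * z0 d)) := by
    intro u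
    ring
  simp only [e4]
  refine ⟨hi, hb.trans ?_⟩
  have hs := hgen_sin h0 h1
  have hσ : 0 < Real.sin d := by linarith
  have h2 : Real.log (1 / (l * Real.sin d)) ≤ Real.log 2 + 2 * Real.log ((c : ℝ) * c' / d) := by
    have h3 : 2 * Real.log ((c : ℝ) * c' / d) = Real.log (((c : ℝ) * c' / d) ^ 2) := by
      rw [Real.log_pow]; norm_num
    rw [h3, ← Real.log_mul (by norm_num) (by positivity)]
    apply Real.log_le_log (by positivity)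
    rw [hl, one_div_mul_eq_div, one_div_div, div_pow, ← mul_div_assoc,
      div_le_div_iff₀ hσ (by positivity)]
    have h4 : d ^ 2 ≤ 2 * Real.sin d := by nlinarith
    nlinarith [sq_nonneg ((c : ℝ) * c'), mul_le_mul_of_nonneg_left h4 (sq_nonneg ((c : ℝ) * c'))]
  have h3 : 0 ≤ Real.log ((c : ℝ) * c' / d) := Real.log_nonneg (by rw [le_div_iff₀ h0]; nlinarith)
  have h4 : 0 ≤ Real.log (1 / (l * Real.sin d)) := by
    refine Real.log_nonneg ?_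
    rw [le_div_iff₀ (by positivity)]
    nlinarith [Real.sin_le_one d]
  have h5 : Real.log 2 ≤ 1 := by linarith [Real.log_two_lt_d9]
  have h6 : (1 + Real.log (1 / (l * Real.sin d))) ^ 2 ≤
      (2 * (1 + Real.log ((c : ℝ) * c' / d))) ^ 2 :=
    pow_le_pow_left₀ (by linarith) (by linarith) 2
  calc C / l * (1 + Real.log (1 / (l * Real.sin d))) ^ 2 ≤
      C / l * (2 * (1 + Real.log ((c : ℝ) * c' / d))) ^ 2 :=
        mul_le_mul_of_nonneg_left h6 (by positivity)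
    _ = _ := by
        rw [hl]
        field_simp
        ring

end Pool.Agent.H28.ZT
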