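import Pool.Agent.H28.ZT.HGen

/-!
# HPLUS (chapter D): product of two rotated theta functions, arguments `c² u²`, `c'² u²`

DBL with `α = c²`, `β = c'²`: a sum over `m, n ≥ 1` of `∫_1^∞ u^(ix) exp (-w u²) du`,
`w = π[(m²c²+n²c'²) sin d + i (m²c²-n²c'²) cos d]`.
Terms with `m c ≠ n c'`: OSC (`k = 0`) with `w = π[(..) sin d + i (..) cos d]`, `‖w‖ ≥ π |k²-l²| cos d`, `cos d ≥ 1/2`,
`k = m c`, `l = n c'` different pairs `(k,l)`: `≤ C ∑ offT (sin d) ≤ C (1 + log(1/sin d))²` (OFF), `sin d ≥ d/2`.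
Terms with `m c = n c'`: `m = g c'/gcd`, `n = g c/gcd`, `m c = g lcm`: sum over `g ≥ 1` of
`∫_1^∞ u^(ix) exp (-2π g² lcm² sin d u²) du = Ei (τ lcm) x`, `τ² = 2π sin d`.
-/

set_option autoImplicit false

namespace Pool.Agent.H28.ZT

open Complex MeasureTheory

theorem H_plus : ∃ C : ℝ, 0 < C ∧ ∀ (d : ℝ) (c c' : ℕ) (x : ℂ), 0 < d → d ≤ 1 / 2 → 1 ≤ c → 1 ≤ c' →
    ‖x‖ ≤ 2 → |x.im| ≤ 1 / 4 →
    IntegrableOn (fun u : ℝ => (u : ℂ) ^ (I * x) * om (((c : ℝ) ^ 2 * u ^ 2 : ℝ) * z0 d) *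
      (starRingEnd ℂ) (om (((c' : ℝ) ^ 2 * u ^ 2 : ℝ) * z0 d))) (Set.Ioi 1) ∧
    ‖(∫ u in Set.Ioi (1 : ℝ), (u : ℂ) ^ (I * x) * om (((c : ℝ) ^ 2 * u ^ 2 : ℝ) * z0 d) *
      (starRingEnd ℂ) (om (((c' : ℝ) ^ 2 * u ^ 2 : ℝ) * z0 d))) - Ei (tau d * (Nat.lcm c c' : ℝ)) x‖ ≤
      C * (1 + Real.log (1 / d)) ^ 2 := by
  obtain ⟨C, hC, h⟩ := H_gen
  refine ⟨4 * C, by positivity, ?_⟩
  intro d c c' x h0 h1 hc hc' hx hx2
  obtain ⟨hi, hb⟩ := h d 1 c c' x h0 h1 one_pos le_rfl hc hc' hx hx2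
  simp only [one_mul, Real.sqrt_one, div_one] at hi hb
  refine ⟨hi, hb.trans ?_⟩
  have hs := hgen_sin h0 h1
  have hσ : 0 < Real.sin d := by linarith
  have h2 : Real.log (1 / Real.sin d) ≤ Real.log 2 + Real.log (1 / d) := by
    rw [← Real.log_mul (by norm_num) (by positivity)]
    apply Real.log_le_log (by positivity)
    rw [mul_one_div, div_le_div_iff₀ hσ h0]
    linarith
  have h3 : 0 ≤ Real.log (1 / d) := Real.log_nonneg (by rw [le_div_iff₀ h0]; linarith)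
  have h4 : 0 ≤ Real.log (1 / Real.sin d) :=
    Real.log_nonneg (by rw [le_div_iff₀ hσ]; linarith [Real.sin_le_one d])
  have h5 : Real.log 2 ≤ 1 := by linarith [Real.log_two_lt_d9]
  have h6 : (1 + Real.log (1 / Real.sin d)) ^ 2 ≤ (2 * (1 + Real.log (1 / d))) ^ 2 :=
    pow_le_pow_left₀ (by linarith) (by linarith) 2
  calc C * (1 + Real.log (1 / Real.sin d)) ^ 2 ≤ C * (2 * (1 + Real.log (1 / d))) ^ 2 :=
        mul_le_mul_of_nonneg_left h6 hC.le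
    _ = _ := by ring

end Pool.Agent.H28.ZT
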