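import Mathlib

/-!
# HOLD (chapter Z): two inequalities

`hold_one`: `(∫ b²)² ≤ (β-α) ∫ b⁴` (Cauchy-Schwarz) and `s b⁴ ≤ (μ s² b^6 + μ^(-1) b²)/2` pointwise (`μ s² b^6 · μ^(-1) b² = (s b⁴)²`).
`hold_sum`: Cauchy-Schwarz with `W = (1/√s)(√s W)`.
-/

set_option autoImplicit false

namespace Pool.Agent.H28.ZT

theorem hold_one (b : ℝ → ℝ) (hb : Continuous b) (α β s μ : ℝ) (h : α ≤ β) (hs : 0 ≤ s) (hμ : 0 < μ) :
    s * (∫ t in α..β, b t ^ 2) ^ 2 ≤
      (β - α) / 2 * (μ * (s ^ 2 * ∫ t in α..β, b t ^ 6) + 1 / μ * ∫ t in α..β, b t ^ 2) := by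
  have i2 : IntervalIntegrable (fun t => b t ^ 2) MeasureTheory.volume α β := (hb.pow 2).intervalIntegrable _ _
  have i4 : IntervalIntegrable (fun t => b t ^ 4) MeasureTheory.volume α β := (hb.pow 4).intervalIntegrable _ _
  have i6 : IntervalIntegrable (fun t => b t ^ 6) MeasureTheory.volume α β := (hb.pow 6).intervalIntegrable _ _
  have hba : 0 ≤ β - α := by linarith
  -- Cauchy-Schwarz
  have hcs : (∫ t in α..β, b t ^ 2) ^ 2 ≤ (β - α) * ∫ t in α..β, b t ^ 4 := by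
    rcases h.eq_or_lt with he | hlt
    · rw [he]
      simp
    set m : ℝ := (∫ t in α..β, b t ^ 2) / (β - α) with hm
    have hpos : 0 < β - α := by linarith
    have h1 : 0 ≤ ∫ t in α..β, (b t ^ 2 - m) ^ 2 :=
      intervalIntegral.integral_nonneg h fun t _ => sq_nonneg _
    have h2 : ∫ t in α..β, (b t ^ 2 - m) ^ 2 = (∫ t in α..β, b t ^ 4) - 2 * m * (∫ t in α..β, b t ^ 2) +
        m ^ 2 * (β - α) := by
      have e : ∀ t, (b t ^ 2 - m) ^ 2 = b t ^ 4 - 2 * m * b t ^ 2 + m ^ 2 := fun t => by ring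
      simp_rw [e]
      rw [intervalIntegral.integral_add (i4.sub (i2.const_mul _)) intervalIntegrable_const,
        intervalIntegral.integral_sub i4 (i2.const_mul _), intervalIntegral.integral_const_mul,
        intervalIntegral.integral_const, smul_eq_mul]
      ring
    rw [h2] at h1
    have h3 : m * (β - α) = ∫ t in α..β, b t ^ 2 := by
      rw [hm]
      field_simp
    rw [← h3] at h1 ⊢
    nlinarith
  have hpt : ∀ t, s * b t ^ 4 ≤ 1 / 2 * (μ * (s ^ 2 * b t ^ 6) + 1 / μ * b t ^ 2) := by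
    intro t
    have h1 : 0 ≤ (μ * s * b t ^ 3 - b t) ^ 2 / μ := by positivity
    have h2 : (μ * s * b t ^ 3 - b t) ^ 2 / μ = μ * (s ^ 2 * b t ^ 6) + 1 / μ * b t ^ 2 - 2 * (s * b t ^ 4) := by
      field_simp
      ring
    rw [h2] at h1
    linarith
  have h4 : s * ∫ t in α..β, b t ^ 4 ≤
      1 / 2 * (μ * (s ^ 2 * ∫ t in α..β, b t ^ 6) + 1 / μ * ∫ t in α..β, b t ^ 2) := by
    have h5 := intervalIntegral.integral_mono_on h (i4.const_mul s)
      (((i6.const_mul (s ^ 2)).const_mul μ |>.add (i2.const_mul (1 / μ))).const_mul (1 / 2)) (fun t _ => hpt t)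
    rw [intervalIntegral.integral_const_mul, intervalIntegral.integral_const_mul,
      intervalIntegral.integral_add ((i6.const_mul _).const_mul _) (i2.const_mul _),
      intervalIntegral.integral_const_mul, intervalIntegral.integral_const_mul,
      intervalIntegral.integral_const_mul] at h5
    exact h5
  calc s * (∫ t in α..β, b t ^ 2) ^ 2 ≤ s * ((β - α) * ∫ t in α..β, b t ^ 4) := mul_le_mul_of_nonneg_left hcs hs
    _ = (β - α) * (s * ∫ t in α..β, b t ^ 4) := by ring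
    _ ≤ (β - α) * (1 / 2 * (μ * (s ^ 2 * ∫ t in α..β, b t ^ 6) + 1 / μ * ∫ t in α..β, b t ^ 2)) :=
        mul_le_mul_of_nonneg_left h4 hba
    _ = _ := by ring

theorem hold_sum (R : Finset ℕ) (W s : ℕ → ℝ) (hs : ∀ k ∈ R, 0 < s k) :
    (∑ k ∈ R, W k) ^ 2 ≤ (∑ k ∈ R, 1 / s k) * ∑ k ∈ R, s k * W k ^ 2 := by
  have h1 := Finset.sum_mul_sq_le_sq_mul_sq R (fun k => 1 / Real.sqrt (s k)) (fun k => Real.sqrt (s k) * W k)
  have e1 : ∑ k ∈ R, 1 / Real.sqrt (s k) * (Real.sqrt (s k) * W k) = ∑ k ∈ R, W k := by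
    refine Finset.sum_congr rfl fun k hk => ?_
    have := Real.sqrt_pos.2 (hs k hk)
    field_simp
  have e2 : ∑ k ∈ R, (1 / Real.sqrt (s k)) ^ 2 = ∑ k ∈ R, 1 / s k := by
    refine Finset.sum_congr rfl fun k hk => ?_
    rw [div_pow, Real.sq_sqrt (hs k hk).le, one_pow]
  have e3 : ∑ k ∈ R, (Real.sqrt (s k) * W k) ^ 2 = ∑ k ∈ R, s k * W k ^ 2 := by
    refine Finset.sum_congr rfl fun k hk => ?_
    rw [mul_pow, Real.sq_sqrt (hs k hk).le]
  rw [e1, e2, e3] at h1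
  exact h1

end Pool.Agent.H28.ZT
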