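import Pool.Agent.H28.ZT.CBR
import Pool.Agent.H28.ZT.CBS
import Pool.Agent.H28.ZT.FamI
import Pool.Agent.H28.ZT.Card

/-!
# KFAMI (chapter Q): the twisted second moment, family I

`δ = v - v'`.  `|δ| ≥ 1/L`: CBR and FAMI with `y = δ`; `1/|δ| ≤ 2L/(1 + |δ| L)`.  `|δ| ≤ 1/L`: CBS with
`M = C L^(-3/4) (1 + |δ|L)^(1/2)`.  The error `C (T^(3/1000))² T^(1/10)` is smaller than `√T L^(1/4) (1 + L)^(-1/2)` for large `T`
(`(1 + |δ| L) ≤ 1 + L`).  CARD for `c3_le`, `a3_sum`.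
-/

set_option autoImplicit false

namespace Pool.Agent.H28.ZT

open Complex

theorem K_I : ∃ K : ℝ, 0 < K ∧ ∀ kap : ℝ, 0 < kap → kap ≤ 1 / 8 → ∃ C T0 : ℝ, 0 < C ∧ Real.exp 40 ≤ T0 ∧
    ∀ (T : ℝ) (J : ℕ) (P : ℕ → Finset ℕ) (V : ℕ → ℕ), T0 ≤ T → Blk K kap T J P V →
    ∀ v v' : ℝ, 0 ≤ v → v ≤ 1 → 0 ≤ v' → v' ≤ 1 →
      ‖KK (1 / T) (v : ℂ) (v' : ℂ) (s3 (AA J P V)) (a3 ![v, v', 0]) c3‖ ≤
        C * Real.sqrt T * (Real.log T) ^ (1 / 4 : ℝ) * (1 + |v - v'| * Real.log T) ^ (-(1 / 2) : ℝ) := by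
  obtain ⟨K, hK, hf⟩ := fam_I
  obtain ⟨Cs, hCs, hcs⟩ := cb_S
  obtain ⟨Cr, hCr, hcr⟩ := cb_R
  refine ⟨K, hK, fun kap h0 h8 => ?_⟩
  obtain ⟨C, T1, hC, hT1, hfam⟩ := hf kap h0 h8
  refine ⟨4 * Cr * C + 2 * Cs * C + 4 * Cs + 4 * Cr, T1, by positivity, hT1,
    fun T J P V hT hB v v' hv0 hv1 hv0' hv1' => ?_⟩
  have hexp : (40 : ℝ) + 1 ≤ Real.exp 40 := Real.add_one_le_exp 40
  have hT40 : Real.exp 40 ≤ T := hT1.trans hT
  have hT1' : (1 : ℝ) ≤ T := by linarith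
  have hTpos : 0 < T := by linarith
  have hL40 : 40 ≤ Real.log T := by
    rw [Real.le_log_iff_exp_le hTpos]
    exact hT40
  have hLpos : 0 < Real.log T := by linarith
  set L : ℝ := Real.log T with hL
  have hq1 : 1 ≤ L ^ (1 / 4 : ℝ) := Real.one_le_rpow (by linarith) (by norm_num)
  have hsq : 0 ≤ Real.sqrt T := Real.sqrt_nonneg T
  have hnv : ‖(v : ℂ)‖ ≤ 1 := by
    rw [Complex.norm_real, Real.norm_eq_abs, abs_of_nonneg hv0]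
    exact hv1
  have hnv' : ‖(v' : ℂ)‖ ≤ 1 := by
    rw [Complex.norm_real, Real.norm_eq_abs, abs_of_nonneg hv0']
    exact hv1'
  have him : |((v : ℂ)).im| ≤ 1 / L := by
    rw [Complex.ofReal_im, abs_zero]
    positivity
  have him' : |((v' : ℂ)).im| ≤ 1 / L := by
    rw [Complex.ofReal_im, abs_zero]
    positivity
  have hΔ : (v : ℂ) - (starRingEnd ℂ) (v' : ℂ) = ((v - v' : ℝ) : ℂ) := by
    rw [Complex.conj_ofReal]
    push_cast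
    ring
  have hΔn : ‖(v : ℂ) - (starRingEnd ℂ) (v' : ℂ)‖ = |v - v'| := by
    rw [hΔ, Complex.norm_real, Real.norm_eq_abs]
  set D : ℝ := 1 + |v - v'| * L with hD
  have hD1 : 1 ≤ D := by
    rw [hD]
    nlinarith [abs_nonneg (v - v')]
  have hDpos : 0 < D := by linarith
  have hDL : D ≤ 1 + L := by
    have : |v - v'| ≤ 1 := by
      rw [abs_le]
      constructor <;> linarith
    rw [hD]
    nlinarith
  have hDm : 0 < D ^ (-(1 / 2) : ℝ) := Real.rpow_pos_of_pos hDpos _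
  have hDp : D ^ (1 / 2 : ℝ) = D * D ^ (-(1 / 2) : ℝ) := by
    nth_rewrite 2 [← Real.rpow_one D]
    rw [← Real.rpow_add hDpos]
    norm_num
  have hpow : L * L ^ (-(3 / 4) : ℝ) = L ^ (1 / 4 : ℝ) := by
    nth_rewrite 1 [← Real.rpow_one L]
    rw [← Real.rpow_add hLpos]
    norm_num
  have ha := a3_sum hT1' hB ![v, v', 0]
  have ha0 : 0 ≤ ∑ f ∈ s3 (AA J P V), ‖a3 ![v, v', 0] f‖ := Finset.sum_nonneg fun _ _ => norm_nonneg _
  have hD4 : T ^ (-(1 / 20) : ℝ) ≤ 4 * D ^ (-(1 / 2) : ℝ) := by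
    have h1 : 1 + L ≤ 10 * T ^ (1 / 10 : ℝ) := by
      have h2 : L / 10 + 1 ≤ Real.exp (L / 10) := Real.add_one_le_exp _
      have h3 : Real.exp (L / 10) = T ^ (1 / 10 : ℝ) := by
        rw [Real.rpow_def_of_pos hTpos]
        congr 1
        rw [← hL]
        ring
      rw [h3] at h2
      linarith
    have hTp : 0 < T ^ (1 / 10 : ℝ) := Real.rpow_pos_of_pos hTpos _
    have h4 : D ^ (1 / 2 : ℝ) ≤ 4 * T ^ (1 / 20 : ℝ) := by
      calc D ^ (1 / 2 : ℝ) ≤ (16 * T ^ (1 / 10 : ℝ)) ^ (1 / 2 : ℝ) :=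
            Real.rpow_le_rpow hDpos.le (by linarith) (by norm_num)
        _ = (16 : ℝ) ^ (1 / 2 : ℝ) * (T ^ (1 / 10 : ℝ)) ^ (1 / 2 : ℝ) :=
            Real.mul_rpow (by norm_num) hTp.le
        _ = 4 * T ^ (1 / 20 : ℝ) := by
            rw [← Real.rpow_mul hTpos.le]
            congr 1
            · rw [show (16 : ℝ) = 4 ^ (2 : ℝ) by norm_num, ← Real.rpow_mul (by norm_num)]
              norm_num
            · norm_num
    have h5 : 0 < T ^ (1 / 20 : ℝ) := Real.rpow_pos_of_pos hTpos _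
    rw [Real.rpow_neg hTpos.le, Real.rpow_neg hDpos.le]
    have h6 : 0 < D ^ (1 / 2 : ℝ) := Real.rpow_pos_of_pos hDpos _
    rw [inv_eq_one_div, inv_eq_one_div, mul_one_div, div_le_div_iff₀ h5 h6]
    linarith
  have herr : (∑ f ∈ s3 (AA J P V), ‖a3 ![v, v', 0] f‖) ^ 2 * T ^ (1 / 10 : ℝ) ≤
      4 * Real.sqrt T * L ^ (1 / 4 : ℝ) * D ^ (-(1 / 2) : ℝ) := by
    calc (∑ f ∈ s3 (AA J P V), ‖a3 ![v, v', 0] f‖) ^ 2 * T ^ (1 / 10 : ℝ)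
        ≤ (T ^ (3 / 1000 : ℝ)) ^ 2 * T ^ (1 / 10 : ℝ) :=
          mul_le_mul_of_nonneg_right (pow_le_pow_left₀ ha0 ha 2) (Real.rpow_nonneg hTpos.le _)
      _ = T ^ (106 / 1000 : ℝ) := by
          rw [← Real.rpow_natCast, ← Real.rpow_mul hTpos.le, ← Real.rpow_add hTpos]
          norm_num
      _ ≤ T ^ (1 / 2 + -(1 / 20) : ℝ) := Real.rpow_le_rpow_of_exponent_le hT1' (by norm_num)
      _ = Real.sqrt T * 1 * T ^ (-(1 / 20) : ℝ) := by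
          rw [Real.rpow_add hTpos, ← Real.sqrt_eq_rpow, mul_one]
      _ ≤ Real.sqrt T * L ^ (1 / 4 : ℝ) * (4 * D ^ (-(1 / 2) : ℝ)) := by gcongr
      _ = _ := by ring
  have hX : 0 ≤ Real.sqrt T * L ^ (1 / 4 : ℝ) * D ^ (-(1 / 2) : ℝ) := by positivity
  rcases le_total (1 / L) |v - v'| with hcase | hcase
  · have hne : 0 < |v - v'| := lt_of_lt_of_le (by positivity) hcase
    have h1 := hcr (Fin 3 → Finset ℕ) T (v : ℂ) (v' : ℂ) (s3 (AA J P V)) (a3 ![v, v', 0]) c3 hT40 hnv hnv' him him'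
      (c3_le hT1' hB) (by rw [hΔ]; exact Complex.ofReal_im _) (by rw [hΔn]; exact hcase)
    have h2 := hfam T J P V hT hB v v' hv0 hv1 hv0' hv1' _ (Or.inl hΔ)
    rw [hΔn] at h1
    refine h1.trans ?_
    have h3 : 1 / |v - v'| ≤ 2 * L / D := by
      rw [div_le_div_iff₀ hne hDpos, hD]
      have : 1 ≤ |v - v'| * L := by
        rwa [div_le_iff₀ hLpos] at hcase
      linarith
    have h4 : Cr * Real.sqrt T * (‖SA (v : ℂ) (v' : ℂ) (s3 (AA J P V)) (a3 ![v, v', 0]) c3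
        ((v : ℂ) - (starRingEnd ℂ) (v' : ℂ))‖ + ‖SC (v : ℂ) (v' : ℂ) (s3 (AA J P V)) (a3 ![v, v', 0]) c3
        ((v : ℂ) - (starRingEnd ℂ) (v' : ℂ))‖) / |v - v'| ≤
        4 * Cr * C * (Real.sqrt T * L ^ (1 / 4 : ℝ) * D ^ (-(1 / 2) : ℝ)) := by
      calc _ = Cr * Real.sqrt T * (‖SA (v : ℂ) (v' : ℂ) (s3 (AA J P V)) (a3 ![v, v', 0]) c3
            ((v : ℂ) - (starRingEnd ℂ) (v' : ℂ))‖ + ‖SC (v : ℂ) (v' : ℂ) (s3 (AA J P V)) (a3 ![v, v', 0]) c3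
            ((v : ℂ) - (starRingEnd ℂ) (v' : ℂ))‖) * (1 / |v - v'|) := by ring
        _ ≤ Cr * Real.sqrt T * (C * L ^ (-(3 / 4) : ℝ) * D ^ (1 / 2 : ℝ) + C * L ^ (-(3 / 4) : ℝ) * D ^ (1 / 2 : ℝ)) *
            (2 * L / D) := by
            apply mul_le_mul _ h3 (by positivity) (by positivity)
            exact mul_le_mul_of_nonneg_left (add_le_add h2.1 h2.2) (by positivity)
        _ = 4 * Cr * C * (Real.sqrt T * L ^ (1 / 4 : ℝ) * D ^ (-(1 / 2) : ℝ)) := by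
            rw [hDp, ← hpow]
            field_simp
            ring
    have h5 : Cr * (∑ f ∈ s3 (AA J P V), ‖a3 ![v, v', 0] f‖) ^ 2 * T ^ (1 / 10 : ℝ) ≤
        Cr * (4 * Real.sqrt T * L ^ (1 / 4 : ℝ) * D ^ (-(1 / 2) : ℝ)) := by
      rw [mul_assoc]
      exact mul_le_mul_of_nonneg_left herr hCr.le
    calc _ ≤ 4 * Cr * C * (Real.sqrt T * L ^ (1 / 4 : ℝ) * D ^ (-(1 / 2) : ℝ)) +
          Cr * (4 * Real.sqrt T * L ^ (1 / 4 : ℝ) * D ^ (-(1 / 2) : ℝ)) := add_le_add h4 h5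
      _ = (4 * Cr * C + 4 * Cr) * (Real.sqrt T * L ^ (1 / 4 : ℝ) * D ^ (-(1 / 2) : ℝ)) := by ring
      _ ≤ (4 * Cr * C + 2 * Cs * C + 4 * Cs + 4 * Cr) * (Real.sqrt T * L ^ (1 / 4 : ℝ) * D ^ (-(1 / 2) : ℝ)) := by
          apply mul_le_mul_of_nonneg_right _ hX
          have : 0 < Cs * C := by positivity
          nlinarith
      _ = _ := by ring
  · have hΔ4 : ‖(v : ℂ) - (starRingEnd ℂ) (v' : ℂ)‖ ≤ 4 / L := by
      rw [hΔn]
      refine hcase.trans ?_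
      gcongr
      norm_num
    have h1 := hcs (Fin 3 → Finset ℕ) T (v : ℂ) (v' : ℂ) (s3 (AA J P V)) (a3 ![v, v', 0]) c3
      (C * L ^ (-(3 / 4) : ℝ) * D ^ (1 / 2 : ℝ)) hT40 hnv hnv' him him' (c3_le hT1' hB) hΔ4
      (fun y hy => hfam T J P V hT hB v v' hv0 hv1 hv0' hv1' y (Or.inr ⟨hcase, hy⟩))
    refine h1.trans ?_
    have hD2 : D ≤ 2 := by
      rw [hD]
      have : |v - v'| * L ≤ 1 := by
        rwa [le_div_iff₀ hLpos] at hcase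
      linarith
    have h4 : Cs * Real.sqrt T * L * (C * L ^ (-(3 / 4) : ℝ) * D ^ (1 / 2 : ℝ)) ≤
        2 * Cs * C * (Real.sqrt T * L ^ (1 / 4 : ℝ) * D ^ (-(1 / 2) : ℝ)) := by
      calc Cs * Real.sqrt T * L * (C * L ^ (-(3 / 4) : ℝ) * D ^ (1 / 2 : ℝ))
          = D * (Cs * C * (Real.sqrt T * L ^ (1 / 4 : ℝ) * D ^ (-(1 / 2) : ℝ))) := by
            rw [hDp, ← hpow]
            ring
        _ ≤ 2 * (Cs * C * (Real.sqrt T * L ^ (1 / 4 : ℝ) * D ^ (-(1 / 2) : ℝ))) :=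
            mul_le_mul_of_nonneg_right hD2 (by positivity)
        _ = _ := by ring
    have h5 : Cs * (∑ f ∈ s3 (AA J P V), ‖a3 ![v, v', 0] f‖) ^ 2 * T ^ (1 / 10 : ℝ) ≤
        Cs * (4 * Real.sqrt T * L ^ (1 / 4 : ℝ) * D ^ (-(1 / 2) : ℝ)) := by
      rw [mul_assoc]
      exact mul_le_mul_of_nonneg_left herr hCs.le
    calc _ ≤ 2 * Cs * C * (Real.sqrt T * L ^ (1 / 4 : ℝ) * D ^ (-(1 / 2) : ℝ)) +
          Cs * (4 * Real.sqrt T * L ^ (1 / 4 : ℝ) * D ^ (-(1 / 2) : ℝ)) := add_le_add h4 h5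
      _ = (2 * Cs * C + 4 * Cs) * (Real.sqrt T * L ^ (1 / 4 : ℝ) * D ^ (-(1 / 2) : ℝ)) := by ring
      _ ≤ (4 * Cr * C + 2 * Cs * C + 4 * Cs + 4 * Cr) * (Real.sqrt T * L ^ (1 / 4 : ℝ) * D ^ (-(1 / 2) : ℝ)) := by
          apply mul_le_mul_of_nonneg_right _ hX
          have : 0 < Cr * C := by positivity
          nlinarith
      _ = _ := by ring

end Pool.Agent.H28.ZT
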