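import Pool.Agent.H28.ZT.CBS
import Pool.Agent.H28.ZT.FamJ
import Pool.Agent.H28.ZT.Card

/-!
# KFAMJ (chapter Q): the twisted second moment, family II

`w = w' = v + iη`, `Δ = w - conj w = 2iη`, `‖Δ‖ ≤ 2/L`: CBS with `M` from FAMJ.  `‖w‖ ≤ 1` since `|v| ≤ 1/2`.  Error
`C (T^(3/1000))² T^(1/10) ≤ √T L^(1/4)` for large `T`.  CARD for `c3_le`, `a3_sum`.
-/

set_option autoImplicit false

namespace Pool.Agent.H28.ZT

open Complex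

theorem K_II : ∃ K : ℝ, 0 < K ∧ ∀ kap : ℝ, 0 < kap → kap ≤ 1 / 8 → ∃ C T0 : ℝ, 0 < C ∧ Real.exp 40 ≤ T0 ∧
    ∀ (T : ℝ) (J : ℕ) (P : ℕ → Finset ℕ) (V : ℕ → ℕ), T0 ≤ T → Blk K kap T J P V →
    ∀ v η : ℝ, |v| ≤ 1 / 2 → |η| ≤ 1 / Real.log T →
      ‖KK (1 / T) ((v : ℂ) + I * (η : ℂ)) ((v : ℂ) + I * (η : ℂ)) (s3 (AA J P V)) (a3 (fun _ => 0)) c3‖ ≤
        C * Real.sqrt T * (Real.log T) ^ (1 / 4 : ℝ) * (1 + |v| * Real.log T) ^ 3 := by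
  obtain ⟨K, hK, hf⟩ := fam_II
  obtain ⟨Cs, hCs, hcs⟩ := cb_S
  refine ⟨K, hK, fun kap h0 h8 => ?_⟩
  obtain ⟨C, T1, hC, hT1, hfam⟩ := hf kap h0 h8
  refine ⟨Cs * C + Cs, T1, by positivity, hT1, fun T J P V hT hB v η hv hη => ?_⟩
  have hexp : (40 : ℝ) + 1 ≤ Real.exp 40 := Real.add_one_le_exp 40
  have hT40 : Real.exp 40 ≤ T := hT1.trans hT
  have hT1' : (1 : ℝ) ≤ T := by linarith
  have hTpos : 0 < T := by linarith
  have hL40 : 40 ≤ Real.log T := by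
    rw [Real.le_log_iff_exp_le hTpos]
    exact hT40
  have hLpos : 0 < Real.log T := by linarith
  set L : ℝ := Real.log T with hL
  have hη1 : |η| ≤ 1 / 40 := hη.trans (one_div_le_one_div_of_le (by norm_num) hL40)
  set w : ℂ := (v : ℂ) + I * (η : ℂ) with hw
  have hwim : w.im = η := by simp [hw]
  have hwn : ‖w‖ ≤ 1 := by
    calc ‖w‖ ≤ ‖(v : ℂ)‖ + ‖I * (η : ℂ)‖ := norm_add_le _ _
      _ = |v| + |η| := by
          rw [norm_mul, Complex.norm_I, one_mul, Complex.norm_real, Complex.norm_real,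
            Real.norm_eq_abs, Real.norm_eq_abs]
      _ ≤ 1 := by linarith
  have hΔ : ‖w - (starRingEnd ℂ) w‖ ≤ 4 / L := by
    have e : w - (starRingEnd ℂ) w = ((2 * η : ℝ) : ℂ) * I := by
      rw [Complex.sub_conj, hwim]
    rw [e, norm_mul, Complex.norm_I, mul_one, Complex.norm_real, Real.norm_eq_abs, abs_mul]
    have h1 : |(2 : ℝ)| * |η| ≤ 2 * (1 / L) := by
      rw [abs_of_pos (by norm_num : (0 : ℝ) < 2)]
      linarith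
    refine h1.trans ?_
    rw [show (4 : ℝ) / L = 4 * (1 / L) by ring]
    have : 0 < 1 / L := by positivity
    linarith
  have hM := hcs (Fin 3 → Finset ℕ) T w w (s3 (AA J P V)) (a3 (fun _ => 0)) c3
    (C * L ^ (-(3 / 4) : ℝ) * (1 + |v| * L) ^ 3) hT40 hwn hwn (by rw [hwim]; exact hη) (by rw [hwim]; exact hη)
    (c3_le hT1' hB) hΔ (fun y hy => hfam T J P V hT hB v η (hv.trans (by norm_num)) hη y hy)
  refine hM.trans ?_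
  have hpow : L * L ^ (-(3 / 4) : ℝ) = L ^ (1 / 4 : ℝ) := by
    nth_rewrite 1 [← Real.rpow_one L]
    rw [← Real.rpow_add hLpos]
    norm_num
  have ha := a3_sum hT1' hB (fun _ => 0)
  have ha0 : 0 ≤ ∑ f ∈ s3 (AA J P V), ‖a3 (fun _ => 0) f‖ := Finset.sum_nonneg fun _ _ => norm_nonneg _
  have herr : (∑ f ∈ s3 (AA J P V), ‖a3 (fun _ => 0) f‖) ^ 2 * T ^ (1 / 10 : ℝ) ≤ Real.sqrt T := by
    calc (∑ f ∈ s3 (AA J P V), ‖a3 (fun _ => 0) f‖) ^ 2 * T ^ (1 / 10 : ℝ)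
        ≤ (T ^ (3 / 1000 : ℝ)) ^ 2 * T ^ (1 / 10 : ℝ) :=
          mul_le_mul_of_nonneg_right (pow_le_pow_left₀ ha0 ha 2) (Real.rpow_nonneg hTpos.le _)
      _ = T ^ (106 / 1000 : ℝ) := by
          rw [← Real.rpow_natCast, ← Real.rpow_mul hTpos.le, ← Real.rpow_add hTpos]
          norm_num
      _ ≤ T ^ (1 / 2 : ℝ) := Real.rpow_le_rpow_of_exponent_le hT1' (by norm_num)
      _ = Real.sqrt T := (Real.sqrt_eq_rpow T).symm
  have hq1 : 1 ≤ L ^ (1 / 4 : ℝ) := Real.one_le_rpow (by linarith) (by norm_num)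
  have hv3 : 1 ≤ (1 + |v| * L) ^ 3 := one_le_pow₀ (by nlinarith [abs_nonneg v])
  have hsq : 0 ≤ Real.sqrt T := Real.sqrt_nonneg T
  have h1 : Cs * Real.sqrt T * L * (C * L ^ (-(3 / 4) : ℝ) * (1 + |v| * L) ^ 3) =
      Cs * C * Real.sqrt T * L ^ (1 / 4 : ℝ) * (1 + |v| * L) ^ 3 := by
    rw [← hpow]
    ring
  have h2 : Cs * (∑ f ∈ s3 (AA J P V), ‖a3 (fun _ => 0) f‖) ^ 2 * T ^ (1 / 10 : ℝ) ≤
      Cs * Real.sqrt T * L ^ (1 / 4 : ℝ) * (1 + |v| * L) ^ 3 := by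
    calc Cs * (∑ f ∈ s3 (AA J P V), ‖a3 (fun _ => 0) f‖) ^ 2 * T ^ (1 / 10 : ℝ)
        = Cs * ((∑ f ∈ s3 (AA J P V), ‖a3 (fun _ => 0) f‖) ^ 2 * T ^ (1 / 10 : ℝ)) := by ring
      _ ≤ Cs * Real.sqrt T := mul_le_mul_of_nonneg_left herr hCs.le
      _ = Cs * Real.sqrt T * 1 * 1 := by ring
      _ ≤ Cs * Real.sqrt T * L ^ (1 / 4 : ℝ) * (1 + |v| * L) ^ 3 := by gcongr
  rw [h1]
  calc _ ≤ Cs * C * Real.sqrt T * L ^ (1 / 4 : ℝ) * (1 + |v| * L) ^ 3 +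
        Cs * Real.sqrt T * L ^ (1 / 4 : ℝ) * (1 + |v| * L) ^ 3 := add_le_add le_rfl h2
    _ = _ := by ring

end Pool.Agent.H28.ZT
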