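import Pool.Agent.H28.ZT.Pars
import Pool.Agent.H28.ZT.FCau
import Pool.Agent.H28.ZT.BBf

/-!
# KINT (chapter M): the moments as integrals over the real line

`F_real`, `fr_eq`, `DD_s3`, `z conj z = ‖z‖²`; integrability from `KK_int`.
-/

set_option autoImplicit false

namespace Pool.Agent.H28.ZT

open Complex MeasureTheory

theorem kI {T : ℝ} (hT : 2 ≤ T) (A : Finset (Finset ℕ)) (hA : ∀ S ∈ A, ∀ p ∈ S, p.Prime) (v v' : ℝ) :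
    Integrable (fun t : ℝ => fr (1 / T) (t + v) * fr (1 / T) (t + v') * ‖BB A (t + v)‖ ^ 2 *
      ‖BB A (t + v')‖ ^ 2 * ‖BB A t‖ ^ 2) ∧
    KK (1 / T) (v : ℂ) (v' : ℂ) (s3 A) (a3 ![v, v', 0]) c3 =
      ((∫ t : ℝ, fr (1 / T) (t + v) * fr (1 / T) (t + v') * ‖BB A (t + v)‖ ^ 2 *
        ‖BB A (t + v')‖ ^ 2 * ‖BB A t‖ ^ 2 : ℝ) : ℂ) := by
  have hTpos : 0 < T := by linarith
  have hd0 : 0 < 1 / T := by positivity
  have hd1 : 1 / T ≤ 1 / 2 := one_div_le_one_div_of_le (by norm_num) hT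
  have hpt : ∀ t : ℝ, FF (1 / T) ((t : ℂ) + (v : ℂ)) * (starRingEnd ℂ) (FF (1 / T) ((t : ℂ) + (v' : ℂ))) *
      ((‖DD (s3 A) (a3 ![v, v', 0]) c3 t‖ ^ 2 : ℝ) : ℂ) =
      ((fr (1 / T) (t + v) * fr (1 / T) (t + v') * ‖BB A (t + v)‖ ^ 2 *
        ‖BB A (t + v')‖ ^ 2 * ‖BB A t‖ ^ 2 : ℝ) : ℂ) := by
    intro t
    have e1 : (t : ℂ) + (v : ℂ) = ((t + v : ℝ) : ℂ) := by push_cast; ring
    have e2 : (t : ℂ) + (v' : ℂ) = ((t + v' : ℝ) : ℂ) := by push_cast; ring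
    rw [DD_s3 A hA, Fin.prod_univ_three, e1, e2, ← fr_eq hd0 hd1, ← fr_eq hd0 hd1, Complex.conj_ofReal]
    have e3 : ‖BB A (t + ![v, v', 0] 0) * BB A (t + ![v, v', 0] 1) * BB A (t + ![v, v', 0] 2)‖ ^ 2 =
        ‖BB A (t + v)‖ ^ 2 * ‖BB A (t + v')‖ ^ 2 * ‖BB A t‖ ^ 2 := by
      simp only [Matrix.cons_val_zero, Matrix.cons_val_one, Matrix.cons_val, norm_mul, add_zero]
      ring
    rw [e3]
    push_cast
    ring
  have hint := KK_int hd0 hd1 (w := (v : ℂ)) (w' := (v' : ℂ)) (by simp) (by simp) (s3 A) (a3 ![v, v', 0]) c3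
  simp_rw [hpt] at hint
  constructor
  · exact hint.re.congr (Filter.Eventually.of_forall fun t => Complex.ofReal_re _)
  · unfold KK
    simp_rw [hpt]
    exact integral_ofReal

theorem kII {T : ℝ} (hT : 2 ≤ T) (A : Finset (Finset ℕ)) (hA : ∀ S ∈ A, ∀ p ∈ S, p.Prime) (w : ℂ)
    (hw : |w.im| ≤ 1 / 4) :
    Integrable (fun t : ℝ => ‖FF (1 / T) ((t : ℂ) + w)‖ ^ 2 * ‖BB A t‖ ^ 6) ∧
    KK (1 / T) w w (s3 A) (a3 (fun _ => 0)) c3 =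
      ((∫ t : ℝ, ‖FF (1 / T) ((t : ℂ) + w)‖ ^ 2 * ‖BB A t‖ ^ 6 : ℝ) : ℂ) := by
  have hTpos : 0 < T := by linarith
  have hd0 : 0 < 1 / T := by positivity
  have hd1 : 1 / T ≤ 1 / 2 := one_div_le_one_div_of_le (by norm_num) hT
  have hpt : ∀ t : ℝ, FF (1 / T) ((t : ℂ) + w) * (starRingEnd ℂ) (FF (1 / T) ((t : ℂ) + w)) *
      ((‖DD (s3 A) (a3 (fun _ => 0)) c3 t‖ ^ 2 : ℝ) : ℂ) =
      ((‖FF (1 / T) ((t : ℂ) + w)‖ ^ 2 * ‖BB A t‖ ^ 6 : ℝ) : ℂ) := by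
    intro t
    rw [DD_s3 A hA, Fin.prod_univ_three, Complex.mul_conj, Complex.normSq_eq_norm_sq]
    have e3 : ‖BB A (t + 0) * BB A (t + 0) * BB A (t + 0)‖ ^ 2 = ‖BB A t‖ ^ 6 := by
      simp only [norm_mul, add_zero]
      ring
    rw [e3]
    push_cast
    ring
  have hint := KK_int hd0 hd1 hw hw (s3 A) (a3 (fun _ => 0)) c3
  simp_rw [hpt] at hint
  constructor
  · exact hint.re.congr (Filter.Eventually.of_forall fun t => Complex.ofReal_re _)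
  · unfold KK
    simp_rw [hpt]
    exact integral_ofReal

end Pool.Agent.H28.ZT
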