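import Mathlib

/-!
# LEX1 (existence of `L(T)`): one zero

`f` analytic at the real point `t0`, not locally zero: `f t = (t - t0)^m g t` near `t0`, `g` continuous at `t0`, `g t0 ≠ 0`
(`AnalyticAt.exists_eventuallyEq_pow_smul_nonzero_iff`).  On a small interval `|g|` lies between `(1 ∓ δ)|g t0|`.  So for an
interval `[α, β]` containing `t0` in the neighbourhood, `{t ∈ [α,β] : |f t| < ε}` lies between
`{t ∈ [α,β] : |t - t0| < (ε/((1±δ)|g t0|))^(1/m)}`, of measure `q (ε/((1±δ)|g t0|))^(1/m)` for small `ε` (`q = 2` if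
`α < t0 < β`, `q = 1` if `t0` is one end point, `α < β`).  Divided by `ε` the limit is `∞` for `m ≥ 2` and `q/|g t0|` for `m = 1` (`δ → 0`:
the interval depends on `δ`, but the part of the set outside of a smaller interval around `t0` is empty for small `ε`,
because `f ≠ 0` on `[α, β]` except at `t0`).  `m = 0`: the limit is 0.
-/

set_option autoImplicit false

namespace Pool.Agent.H28.ZT

open MeasureTheory Filter Topology

private theorem side {F G : ℝ → ℝ} {m : ℕ} {c δ b : ℝ} (hc : 0 < c) (hb : 0 ≤ b) (hbδ : b < δ)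
    (hF : ∀ s, 0 ≤ s → s < δ → F s = s ^ m * G s) (hG1 : ∀ s, 0 ≤ s → s < δ → c / 2 < G s)
    (hG2 : ∀ s, 0 ≤ s → s < δ → G s < 3 * c / 2) (hG : Tendsto G (𝓝[≥] 0) (𝓝 c)) :
    ∃ l : ENNReal, Tendsto (fun ε : ℝ => volume {s : ℝ | 0 ≤ s ∧ s ≤ b ∧ F s < ε} /
      ENNReal.ofReal ε) (𝓝[>] 0) (𝓝 l) := by
  have hev : ∀ x : ℝ, 0 < x → ∀ᶠ ε : ℝ in 𝓝[>] 0, 0 < ε ∧ ε < x := by
    intro x hx
    exact Ioo_mem_nhdsGT hx
  rcases hb.eq_or_lt with hb0 | hb0
  · refine ⟨0, ?_⟩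
    have h1 : ∀ ε : ℝ, volume {s : ℝ | 0 ≤ s ∧ s ≤ b ∧ F s < ε} / ENNReal.ofReal ε = 0 := by
      intro ε
      have h2 : volume {s : ℝ | 0 ≤ s ∧ s ≤ b ∧ F s < ε} = 0 := by
        refine measure_mono_null (t := {(0 : ℝ)}) ?_ (measure_singleton _)
        rintro s ⟨hs1, hs2, -⟩
        rw [Set.mem_singleton_iff]
        linarith
      rw [h2, ENNReal.zero_div]
    simp only [h1]
    exact tendsto_const_nhds
  rcases Nat.lt_or_ge m 1 with hm | hm
  · have hm0 : m = 0 := by omega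
    subst hm0
    refine ⟨0, ?_⟩
    refine (tendsto_const_nhds (x := (0 : ENNReal))).congr' ?_
    filter_upwards [hev (c / 2) (by positivity)] with ε hε
    have h2 : {s : ℝ | 0 ≤ s ∧ s ≤ b ∧ F s < ε} = ∅ := by
      rw [Set.eq_empty_iff_forall_notMem]
      rintro s ⟨hs1, hs2, hs3⟩
      rw [hF s hs1 (by linarith), pow_zero, one_mul] at hs3
      have := hG1 s hs1 (by linarith)
      linarith
    rw [h2, measure_empty, ENNReal.zero_div]
  rcases Nat.lt_or_ge m 2 with hm2 | hm2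
  · have hm1 : m = 1 := by omega
    subst hm1
    refine ⟨ENNReal.ofReal (1 / c), ?_⟩
    have hcont : Tendsto (fun x : ℝ => ENNReal.ofReal (1 / x)) (𝓝 c) (𝓝 (ENNReal.ofReal (1 / c))) := by
      refine ENNReal.tendsto_ofReal ?_
      exact tendsto_const_nhds.div tendsto_id hc.ne'
    rw [tendsto_order]
    refine ⟨fun a ha => ?_, fun a ha => ?_⟩
    · have h1 : ∀ᶠ x : ℝ in 𝓝[>] c, a < ENNReal.ofReal (1 / x) :=
        (hcont.mono_left nhdsWithin_le_nhds).eventually (lt_mem_nhds ha)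
      obtain ⟨c1, hc1, hc1'⟩ := (h1.and self_mem_nhdsWithin).exists
      have hc1' : c < c1 := hc1'
      have hc1p : 0 < c1 := hc.trans hc1'
      have h2 : ∀ᶠ s in 𝓝[≥] (0 : ℝ), G s < c1 := hG.eventually (gt_mem_nhds hc1')
      obtain ⟨d, hd, hd'⟩ := mem_nhdsGE_iff_exists_Ico_subset.1 h2
      have hd : 0 < d := hd
      filter_upwards [hev (min b d * c1) (by positivity)] with ε hε
      have hεm : ε / c1 < min b d := by
        rw [div_lt_iff₀ hc1p]
        exact hε.2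
      have hsub : Set.Ico 0 (ε / c1) ⊆ {s : ℝ | 0 ≤ s ∧ s ≤ b ∧ F s < ε} := by
        rintro s ⟨hs1, hs2⟩
        have hsb : s < b := hs2.trans (hεm.trans_le (min_le_left _ _))
        have hsd : s < d := hs2.trans (hεm.trans_le (min_le_right _ _))
        refine ⟨hs1, hsb.le, ?_⟩
        rw [hF s hs1 (hsb.trans hbδ), pow_one]
        have hg : G s < c1 := hd' ⟨hs1, hsd⟩
        calc s * G s ≤ s * c1 := mul_le_mul_of_nonneg_left hg.le hs1
          _ < ε := by rwa [lt_div_iff₀ hc1p] at hs2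
      have h3 : ENNReal.ofReal (ε / c1) ≤ volume {s : ℝ | 0 ≤ s ∧ s ≤ b ∧ F s < ε} := by
        refine le_trans (le_of_eq ?_) (measure_mono hsub)
        rw [Real.volume_Ico, sub_zero]
      refine hc1.trans_le ?_
      refine le_trans (le_of_eq ?_) (ENNReal.div_le_div_right h3 _)
      rw [← ENNReal.ofReal_div_of_pos hε.1]
      congr 1
      have := hε.1.ne'
      field_simp
    · have h1 : ∀ᶠ x : ℝ in 𝓝[<] c, ENNReal.ofReal (1 / x) < a :=
        (hcont.mono_left nhdsWithin_le_nhds).eventually (gt_mem_nhds ha)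
      obtain ⟨c2, hc2, hc2'⟩ := (h1.and (Ioo_mem_nhdsLT hc)).exists
      obtain ⟨hc2p, hc2c⟩ := hc2'
      have h2 : ∀ᶠ s in 𝓝[≥] (0 : ℝ), c2 < G s := hG.eventually (lt_mem_nhds hc2c)
      obtain ⟨d, hd, hd'⟩ := mem_nhdsGE_iff_exists_Ico_subset.1 h2
      have hd : 0 < d := hd
      filter_upwards [hev (d * (c / 2)) (by positivity)] with ε hε
      have hsub : {s : ℝ | 0 ≤ s ∧ s ≤ b ∧ F s < ε} ⊆ Set.Icc 0 (ε / c2) := by
        rintro s ⟨hs1, hs2, hs3⟩
        rw [hF s hs1 (by linarith), pow_one] at hs3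
        have hg1 := hG1 s hs1 (by linarith)
        have hsd : s < d := by
          by_contra hcon
          rw [not_lt] at hcon
          have : d * (c / 2) ≤ s * G s := mul_le_mul hcon hg1.le (by positivity) hs1
          linarith [hε.2]
        have hg : c2 < G s := hd' ⟨hs1, hsd⟩
        refine ⟨hs1, ?_⟩
        rw [le_div_iff₀ hc2p]
        exact (mul_le_mul_of_nonneg_left hg.le hs1).trans hs3.le
      have h3 : volume {s : ℝ | 0 ≤ s ∧ s ≤ b ∧ F s < ε} ≤ ENNReal.ofReal (ε / c2) := by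
        refine (measure_mono hsub).trans (le_of_eq ?_)
        rw [Real.volume_Icc, sub_zero]
      refine lt_of_le_of_lt ((ENNReal.div_le_div_right h3 _).trans (le_of_eq ?_)) hc2
      rw [← ENNReal.ofReal_div_of_pos hε.1]
      congr 1
      have := hε.1.ne'
      field_simp
  · refine ⟨⊤, ?_⟩
    rw [ENNReal.tendsto_nhds_top_iff_nnreal]
    intro x
    obtain ⟨M, hM⟩ : ∃ M : ℝ, M = (x : ℝ) + 1 := ⟨_, rfl⟩
    have hMp : 0 < M := by
      rw [hM]
      positivity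
    filter_upwards [hev (min (min b 1 / M) (1 / (M ^ 2 * (3 * c / 2)))) (by positivity)] with ε hε
    have hε1 : M * ε < min b 1 := by
      have h1 := hε.2.trans_le (min_le_left _ _)
      rwa [lt_div_iff₀ hMp, mul_comm] at h1
    have hε2 : ε * (M ^ 2 * (3 * c / 2)) < 1 := by
      have h1 := hε.2.trans_le (min_le_right _ _)
      rwa [lt_div_iff₀ (by positivity)] at h1
    have hsub : Set.Ico 0 (M * ε) ⊆ {s : ℝ | 0 ≤ s ∧ s ≤ b ∧ F s < ε} := by
      rintro s ⟨hs1, hs2⟩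
      have hsb : s < b := hs2.trans (hε1.trans_le (min_le_left _ _))
      have hsd : s < 1 := hs2.trans (hε1.trans_le (min_le_right _ _))
      refine ⟨hs1, hsb.le, ?_⟩
      rw [hF s hs1 (hsb.trans hbδ)]
      have hg := hG2 s hs1 (hsb.trans hbδ)
      have hg1 := hG1 s hs1 (hsb.trans hbδ)
      calc s ^ m * G s ≤ s ^ 2 * (3 * c / 2) :=
            mul_le_mul (pow_le_pow_of_le_one hs1 hsd.le hm2) hg.le (by linarith) (by positivity)
        _ ≤ (M * ε) ^ 2 * (3 * c / 2) := by gcongr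
        _ = ε * (ε * (M ^ 2 * (3 * c / 2))) := by ring
        _ < ε := by nlinarith [hε.1]
    have h3 : ENNReal.ofReal (M * ε) ≤ volume {s : ℝ | 0 ≤ s ∧ s ≤ b ∧ F s < ε} := by
      refine le_trans (le_of_eq ?_) (measure_mono hsub)
      rw [Real.volume_Ico, sub_zero]
    have h4 : (x : ENNReal) < ENNReal.ofReal M := by
      rw [← ENNReal.ofReal_coe_nnreal, ENNReal.ofReal_lt_ofReal_iff hMp, hM]
      linarith
    refine h4.trans_le ?_
    refine le_trans (le_of_eq ?_) (ENNReal.div_le_div_right h3 _)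
    rw [← ENNReal.ofReal_div_of_pos hε.1, mul_div_assoc, div_self hε.1.ne', mul_one]

theorem lex_one (f : ℝ → ℂ) (hf : Continuous f) (t0 : ℝ) (h1 : AnalyticAt ℝ f t0)
    (h2 : ¬ ∀ᶠ t in 𝓝 t0, f t = 0) :
    ∃ δ : ℝ, 0 < δ ∧ ∀ α β : ℝ, t0 - δ < α → β < t0 + δ → α ≤ t0 → t0 ≤ β →
      ∃ l : ENNReal, Tendsto (fun ε : ℝ => volume {t : ℝ | α ≤ t ∧ t ≤ β ∧ ‖f t‖ < ε} / ENNReal.ofReal ε)
        (𝓝[>] 0) (𝓝 l) := by
  obtain ⟨m, g, hg, hg0, hfg⟩ := h1.exists_eventuallyEq_pow_smul_nonzero_iff.2 h2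
  obtain ⟨c, hc⟩ : ∃ c : ℝ, c = ‖g t0‖ := ⟨_, rfl⟩
  have hcp : 0 < c := by
    rw [hc]
    exact norm_pos_iff.2 hg0
  have hgc : Tendsto (fun t => ‖g t‖) (𝓝 t0) (𝓝 c) := by
    rw [hc]
    exact hg.continuousAt.norm
  have hev : ∀ᶠ t in 𝓝 t0, f t = (t - t0) ^ m • g t ∧ c / 2 < ‖g t‖ ∧ ‖g t‖ < 3 * c / 2 := by
    filter_upwards [hfg, hgc.eventually (lt_mem_nhds (show c / 2 < c by linarith)),
      hgc.eventually (gt_mem_nhds (show c < 3 * c / 2 by linarith))] with t h3 h4 h5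
    exact ⟨h3, h4, h5⟩
  obtain ⟨δ, hδ, hball⟩ := Metric.eventually_nhds_iff.1 hev
  refine ⟨δ, hδ, fun α β hα hβ hα0 hβ0 => ?_⟩
  have hR : ∃ l : ENNReal, Tendsto (fun ε : ℝ => volume {s : ℝ | 0 ≤ s ∧ s ≤ β - t0 ∧
      ‖f (t0 + s)‖ < ε} / ENNReal.ofReal ε) (𝓝[>] 0) (𝓝 l) := by
    have hb : ∀ s, 0 ≤ s → s < δ → dist (t0 + s) t0 < δ := by
      intro s hs1 hs2
      rw [Real.dist_eq, add_sub_cancel_left, abs_of_nonneg hs1]
      exact hs2
    refine side (F := fun s => ‖f (t0 + s)‖) (G := fun s => ‖g (t0 + s)‖) (m := m) hcp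
      (by linarith) (show β - t0 < δ by linarith) ?_ ?_ ?_ ?_
    · intro s hs1 hs2
      show ‖f (t0 + s)‖ = s ^ m * ‖g (t0 + s)‖
      rw [(hball (hb s hs1 hs2)).1, norm_smul, norm_pow, add_sub_cancel_left, Real.norm_eq_abs,
        abs_of_nonneg hs1]
    · intro s hs1 hs2
      exact (hball (hb s hs1 hs2)).2.1
    · intro s hs1 hs2
      exact (hball (hb s hs1 hs2)).2.2
    · refine hgc.comp ?_
      have h3 : Tendsto (fun s : ℝ => t0 + s) (𝓝 0) (𝓝 (t0 + 0)) :=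
        (continuous_const.add continuous_id).tendsto 0
      rw [add_zero] at h3
      exact h3.mono_left nhdsWithin_le_nhds
  have hL : ∃ l : ENNReal, Tendsto (fun ε : ℝ => volume {s : ℝ | 0 ≤ s ∧ s ≤ t0 - α ∧
      ‖f (t0 - s)‖ < ε} / ENNReal.ofReal ε) (𝓝[>] 0) (𝓝 l) := by
    have hb : ∀ s, 0 ≤ s → s < δ → dist (t0 - s) t0 < δ := by
      intro s hs1 hs2
      rw [Real.dist_eq, show t0 - s - t0 = -s by ring, abs_neg, abs_of_nonneg hs1]
      exact hs2
    refine side (F := fun s => ‖f (t0 - s)‖) (G := fun s => ‖g (t0 - s)‖) (m := m) hcp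
      (by linarith) (show t0 - α < δ by linarith) ?_ ?_ ?_ ?_
    · intro s hs1 hs2
      show ‖f (t0 - s)‖ = s ^ m * ‖g (t0 - s)‖
      rw [(hball (hb s hs1 hs2)).1, norm_smul, norm_pow, show t0 - s - t0 = -s by ring,
        Real.norm_eq_abs, abs_neg, abs_of_nonneg hs1]
    · intro s hs1 hs2
      exact (hball (hb s hs1 hs2)).2.1
    · intro s hs1 hs2
      exact (hball (hb s hs1 hs2)).2.2
    · refine hgc.comp ?_
      have h3 : Tendsto (fun s : ℝ => t0 - s) (𝓝 0) (𝓝 (t0 - 0)) :=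
        (continuous_const.sub continuous_id).tendsto 0
      rw [sub_zero] at h3
      exact h3.mono_left nhdsWithin_le_nhds
  obtain ⟨l1, hl1⟩ := hR
  obtain ⟨l2, hl2⟩ := hL
  refine ⟨l1 + l2, ?_⟩
  refine (hl1.add hl2).congr fun ε => ?_
  rw [← ENNReal.add_div]
  congr 1
  have hmeas : ∀ a b : ℝ, MeasurableSet {t : ℝ | a ≤ t ∧ t ≤ b ∧ ‖f t‖ < ε} := by
    intro a b
    have h3 : {t : ℝ | a ≤ t ∧ t ≤ b ∧ ‖f t‖ < ε} = Set.Icc a b ∩ {t | ‖f t‖ < ε} := by
      ext t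
      constructor
      · rintro ⟨h4, h5, h6⟩
        exact ⟨⟨h4, h5⟩, h6⟩
      · rintro ⟨⟨h4, h5⟩, h6⟩
        exact ⟨h4, h5, h6⟩
    rw [h3]
    exact measurableSet_Icc.inter (isOpen_lt hf.norm continuous_const).measurableSet
  have e1 : volume {s : ℝ | 0 ≤ s ∧ s ≤ β - t0 ∧ ‖f (t0 + s)‖ < ε} =
      volume {t : ℝ | t0 ≤ t ∧ t ≤ β ∧ ‖f t‖ < ε} := by
    rw [← (measurePreserving_add_left volume t0).measure_preimage (hmeas t0 β).nullMeasurableSet]
    congr 1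
    ext s
    constructor
    · rintro ⟨h4, h5, h6⟩
      exact ⟨by show t0 ≤ t0 + s; linarith, by show t0 + s ≤ β; linarith, h6⟩
    · rintro ⟨h4, h5, h6⟩
      have h4 : t0 ≤ t0 + s := h4
      have h5 : t0 + s ≤ β := h5
      exact ⟨by linarith, by linarith, h6⟩
  have e2 : volume {s : ℝ | 0 ≤ s ∧ s ≤ t0 - α ∧ ‖f (t0 - s)‖ < ε} =
      volume {t : ℝ | α ≤ t ∧ t ≤ t0 ∧ ‖f t‖ < ε} := by
    rw [← (Measure.measurePreserving_sub_left volume t0).measure_preimage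
      (hmeas α t0).nullMeasurableSet]
    congr 1
    ext s
    constructor
    · rintro ⟨h4, h5, h6⟩
      exact ⟨by show α ≤ t0 - s; linarith, by show t0 - s ≤ t0; linarith, h6⟩
    · rintro ⟨h4, h5, h6⟩
      have h4 : α ≤ t0 - s := h4
      have h5 : t0 - s ≤ t0 := h5
      exact ⟨by linarith, by linarith, h6⟩
  rw [e1, e2]
  have hU : {t : ℝ | α ≤ t ∧ t ≤ β ∧ ‖f t‖ < ε} = {t : ℝ | t0 ≤ t ∧ t ≤ β ∧ ‖f t‖ < ε} ∪
      {t : ℝ | α ≤ t ∧ t ≤ t0 ∧ ‖f t‖ < ε} := by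
    ext t
    constructor
    · rintro ⟨h4, h5, h6⟩
      rcases le_total t0 t with h7 | h7
      · exact Or.inl ⟨h7, h5, h6⟩
      · exact Or.inr ⟨h4, h7, h6⟩
    · rintro (⟨h4, h5, h6⟩ | ⟨h4, h5, h6⟩)
      · exact ⟨by linarith, h5, h6⟩
      · exact ⟨h4, by linarith, h6⟩
  rw [hU, measure_union₀ (hmeas α t0).nullMeasurableSet]
  refine measure_mono_null (t := {t0}) ?_ (measure_singleton _)
  rintro t ⟨⟨h4, -, -⟩, ⟨-, h5, -⟩⟩
  exact le_antisymm h5 h4

end Pool.Agent.H28.ZT
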