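import Pool.Agent.H28.ZT.Link0

/-!
# LINK (chapter E): `SA`, `SC` for the product of three copies of `BB` are sums `SS`

`f : Fin 3 ⊕ Fin 3 → Finset ℕ` corresponds to the pair `(f ∘ inl, f ∘ inr)` in `s3 A × s3 A` (`Equiv.sumArrowEquivProdArrow`).
`a3 v f₁ · np (c3 f₁) (i w) = ∏_k (-1/2)^|f₁ k| np (pr (f₁ k)) (i (w - v k)) = ∏_{p ∈ U} ∏_{k : p ∈ f₁ k} (-1/2) np p (i (w - v k))`,
`conj (a3 v f₂) · np (c3 f₂) (-i conj w')` has the exponents `i (v k - conj w')`.  `c3 f₁ = ∏_{p ∈ U} p^(nL u(p))`,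
`c3 f₂ = ∏ p^(nR u(p))`, `u(p) = {k : p ∈ f k}`; lcm and gcd by LINK0.
-/

set_option autoImplicit false

namespace Pool.Agent.H28.ZT

open Complex

private theorem pos_pr {S : Finset ℕ} (hS : ∀ p ∈ S, p.Prime) : 1 ≤ pr S :=
  Finset.prod_pos fun p hp => (hS p hp).pos

private theorem np_c3 (g : Fin 3 → Finset ℕ) (hg : ∀ k, ∀ p ∈ g k, p.Prime) (w : ℂ) :
    np (c3 g) w = ∏ k : Fin 3, np (pr (g k)) w := by
  have hpos : ∀ k, 1 ≤ pr (g k) := fun k => pos_pr (hg k)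
  unfold c3
  rw [Fin.prod_univ_three, Fin.prod_univ_three,
    np_mul (Nat.mul_pos (hpos 0) (hpos 1)) (hpos 2), np_mul (hpos 0) (hpos 1)]

private theorem half_conj : (starRingEnd ℂ) (-(1 / 2 : ℂ)) = -(1 / 2 : ℂ) := by
  have : (-(1 / 2 : ℂ)) = ((-(1 / 2) : ℝ) : ℂ) := by
    push_cast
    rfl
  rw [this, conj_ofReal]

/-- the six powers -/
private theorem six (f : Fin 3 ⊕ Fin 3 → Finset ℕ) (hf : ∀ k, ∀ p ∈ f k, p.Prime) (w w' : ℂ)
    (v : Fin 3 → ℝ) :
    a3 v (fun k => f (Sum.inl k)) * (starRingEnd ℂ) (a3 v (fun k => f (Sum.inr k))) *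
      np (c3 (fun k => f (Sum.inl k))) (I * w) *
      np (c3 (fun k => f (Sum.inr k))) (-(I * (starRingEnd ℂ) w')) =
    ∏ k, (-(1 / 2 : ℂ)) ^ (f k).card * np (pr (f k)) (I * xx w w' v k) := by
  rw [np_c3 _ (fun k => hf (Sum.inl k)), np_c3 _ (fun k => hf (Sum.inr k)), Fintype.prod_sum_type]
  have e1 : a3 v (fun k => f (Sum.inl k)) * ∏ k : Fin 3, np (pr (f (Sum.inl k))) (I * w) =
      ∏ k : Fin 3, (-(1 / 2 : ℂ)) ^ (f (Sum.inl k)).card *
        np (pr (f (Sum.inl k))) (I * xx w w' v (Sum.inl k)) := by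
    unfold a3
    rw [← Finset.prod_mul_distrib]
    refine Finset.prod_congr rfl fun k _ => ?_
    have h2 : I * xx w w' v (Sum.inl k) = -(I * ((v k : ℝ) : ℂ)) + I * w := by
      show I * (w - ((v k : ℝ) : ℂ)) = _
      ring
    rw [h2, np_add, mul_assoc]
  have e2 : (starRingEnd ℂ) (a3 v (fun k => f (Sum.inr k))) *
      ∏ k : Fin 3, np (pr (f (Sum.inr k))) (-(I * (starRingEnd ℂ) w')) =
      ∏ k : Fin 3, (-(1 / 2 : ℂ)) ^ (f (Sum.inr k)).card *
        np (pr (f (Sum.inr k))) (I * xx w w' v (Sum.inr k)) := by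
    unfold a3
    rw [map_prod, ← Finset.prod_mul_distrib]
    refine Finset.prod_congr rfl fun k _ => ?_
    have h2 : I * xx w w' v (Sum.inr k) = I * ((v k : ℝ) : ℂ) + -(I * (starRingEnd ℂ) w') := by
      show I * (((v k : ℝ) : ℂ) - (starRingEnd ℂ) w') = _
      ring
    rw [h2, np_add, map_mul, map_pow, half_conj, np_conj, map_neg, map_mul, conj_I, conj_ofReal,
      mul_assoc]
    congr 3
    ring
  rw [← e1, ← e2]
  ring

private theorem six_prime (U : Finset ℕ) (hU : ∀ p ∈ U, p.Prime) (f : Fin 3 ⊕ Fin 3 → Finset ℕ)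
    (hf : ∀ k, f k ⊆ U) (x : Fin 3 ⊕ Fin 3 → ℂ) :
    ∏ k, (-(1 / 2 : ℂ)) ^ (f k).card * np (pr (f k)) (I * x k) =
      ∏ p ∈ U, (-(1 / 2 : ℂ)) ^ (Finset.univ.filter (fun k => p ∈ f k)).card *
        ∏ k ∈ Finset.univ.filter (fun k => p ∈ f k), np p (I * x k) := by
  have h1 : ∀ k, (-(1 / 2 : ℂ)) ^ (f k).card * np (pr (f k)) (I * x k) =
      ∏ p ∈ U, if p ∈ f k then -(1 / 2 : ℂ) * np p (I * x k) else 1 := by
    intro k
    rw [Finset.prod_ite_mem, Finset.inter_eq_right.2 (hf k), Finset.prod_mul_distrib,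
      Finset.prod_const]
    congr 1
    rw [pr_eq (hf k), np_prod_pow U hU]
    have h2 : ∀ p ∈ U, np p (((if p ∈ f k then 1 else 0 : ℕ) : ℂ) * (I * x k)) =
        if p ∈ f k then np p (I * x k) else 1 := by
      intro p _
      split_ifs
      · simp
      · unfold np
        simp
    rw [Finset.prod_congr rfl h2, Finset.prod_ite_mem, Finset.inter_eq_right.2 (hf k)]
  rw [Finset.prod_congr rfl (fun k _ => h1 k), Finset.prod_comm]
  refine Finset.prod_congr rfl fun p _ => ?_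
  rw [← Finset.prod_filter, Finset.prod_mul_distrib, Finset.prod_const]

private theorem cntL (f : Fin 3 ⊕ Fin 3 → Finset ℕ) (p : ℕ) :
    ∑ k : Fin 3, (if p ∈ f (Sum.inl k) then 1 else 0) = nL (Finset.univ.filter (fun k => p ∈ f k)) := by
  unfold nL
  rw [Finset.filter_filter, Finset.card_filter, Fintype.sum_sum_type]
  simp

private theorem cntR (f : Fin 3 ⊕ Fin 3 → Finset ℕ) (p : ℕ) :
    ∑ k : Fin 3, (if p ∈ f (Sum.inr k) then 1 else 0) = nR (Finset.univ.filter (fun k => p ∈ f k)) := by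
  unfold nR
  rw [Finset.filter_filter, Finset.card_filter, Fintype.sum_sum_type]
  simp

private theorem c3_eq (U : Finset ℕ) (g : Fin 3 → Finset ℕ) (hg : ∀ k, g k ⊆ U) :
    c3 g = ∏ p ∈ U, p ^ ∑ k : Fin 3, (if p ∈ g k then 1 else 0) := by
  unfold c3
  rw [Finset.prod_congr rfl (fun k _ => pr_eq (hg k)), Finset.prod_comm]
  refine Finset.prod_congr rfl fun p _ => ?_
  rw [Finset.prod_pow_eq_pow_sum]

private theorem c3L (U : Finset ℕ) (f : Fin 3 ⊕ Fin 3 → Finset ℕ) (hf : ∀ k, f k ⊆ U) :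
    c3 (fun k => f (Sum.inl k)) = ∏ p ∈ U, p ^ nL (Finset.univ.filter (fun k => p ∈ f k)) := by
  rw [c3_eq U _ (fun k => hf (Sum.inl k))]
  refine Finset.prod_congr rfl fun p _ => ?_
  rw [cntL]

private theorem c3R (U : Finset ℕ) (f : Fin 3 ⊕ Fin 3 → Finset ℕ) (hf : ∀ k, f k ⊆ U) :
    c3 (fun k => f (Sum.inr k)) = ∏ p ∈ U, p ^ nR (Finset.univ.filter (fun k => p ∈ f k)) := by
  rw [c3_eq U _ (fun k => hf (Sum.inr k))]
  refine Finset.prod_congr rfl fun p _ => ?_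
  rw [cntR]

/-- regrouping of the double sum -/
private theorem regroup (A : Finset (Finset ℕ)) (F : (Fin 3 → Finset ℕ) → (Fin 3 → Finset ℕ) → ℂ) :
    ∑ i ∈ s3 A, ∑ j ∈ s3 A, F i j = ∑ f ∈ Fintype.piFinset (fun _ : Fin 3 ⊕ Fin 3 => A),
      F (fun k => f (Sum.inl k)) (fun k => f (Sum.inr k)) := by
  rw [← Finset.sum_product']
  refine Finset.sum_nbij' (fun g => Sum.elim g.1 g.2)
    (fun f => (fun k => f (Sum.inl k), fun k => f (Sum.inr k))) ?_ ?_ ?_ ?_ ?_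
  · intro g hg
    unfold s3 at hg
    rw [Finset.mem_product, Fintype.mem_piFinset, Fintype.mem_piFinset] at hg
    rw [Fintype.mem_piFinset]
    rintro (k | k)
    · exact hg.1 k
    · exact hg.2 k
  · intro f hf
    unfold s3
    rw [Fintype.mem_piFinset] at hf
    rw [Finset.mem_product, Fintype.mem_piFinset, Fintype.mem_piFinset]
    exact ⟨fun k => hf _, fun k => hf _⟩
  · intro g _
    rfl
  · intro f _
    funext k
    rcases k with k | k <;> rfl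
  · intro g _
    rfl

theorem SA_eq (A : Finset (Finset ℕ)) (U : Finset ℕ) (hA : ∀ S ∈ A, S ⊆ U) (hU : ∀ p ∈ U, p.Prime)
    (w w' : ℂ) (v : Fin 3 → ℝ) (y : ℂ) :
    SA w w' (s3 A) (a3 v) c3 y = SS A U (locA (xx w w' v) y) := by
  unfold SA SS
  rw [regroup A (fun i j => a3 v i * (starRingEnd ℂ) (a3 v j) * np (c3 i) (I * w) *
    np (c3 j) (-(I * (starRingEnd ℂ) w')) * np (Nat.lcm (c3 i) (c3 j)) (-1 - I * y))]
  refine Finset.sum_congr rfl fun f hf => ?_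
  rw [Fintype.mem_piFinset] at hf
  have hfU : ∀ k, f k ⊆ U := fun k => hA _ (hf k)
  rw [six f (fun k p hp => hU p (hfU k hp)), six_prime U hU f hfU, c3L U f hfU, c3R U f hfU,
    lcm_prod_pow U hU, np_prod_pow U hU, ← Finset.prod_mul_distrib]
  refine Finset.prod_congr rfl fun p _ => ?_
  unfold locA
  congr 2
  ring

theorem SC_eq (A : Finset (Finset ℕ)) (U : Finset ℕ) (hA : ∀ S ∈ A, S ⊆ U) (hU : ∀ p ∈ U, p.Prime)
    (w w' : ℂ) (v : Fin 3 → ℝ) (y : ℂ) :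
    SC w w' (s3 A) (a3 v) c3 y = SS A U (locC (xx w w' v) y) := by
  unfold SC SS
  rw [regroup A (fun i j => a3 v i * (starRingEnd ℂ) (a3 v j) * np (c3 i) (I * w) *
    np (c3 j) (-(I * (starRingEnd ℂ) w')) *
      (np (Nat.lcm (c3 i) (c3 j)) (-1) * np (Nat.gcd (c3 i) (c3 j)) (-(I * y))))]
  refine Finset.sum_congr rfl fun f hf => ?_
  rw [Fintype.mem_piFinset] at hf
  have hfU : ∀ k, f k ⊆ U := fun k => hA _ (hf k)
  rw [six f (fun k p hp => hU p (hfU k hp)), six_prime U hU f hfU, c3L U f hfU, c3R U f hfU,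
    lcm_prod_pow U hU, gcd_prod_pow U hU, np_prod_pow U hU, np_prod_pow U hU,
    ← Finset.prod_mul_distrib, ← Finset.prod_mul_distrib]
  refine Finset.prod_congr rfl fun p _ => ?_
  unfold locC
  rw [← np_add]
  congr 2
  ring

end Pool.Agent.H28.ZT
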