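import Pool.Agent.H28.ZT.Defs

/-!
# LOC (chapter E): definitions for the Euler products (no proofs)

`f k` (`k : Fin 3 ⊕ Fin 3`) are the six sets of primes; a prime `p` has the pattern `u = {k : p ∈ f k}`.
-/

set_option autoImplicit false

namespace Pool.Agent.H28.ZT

open Complex

noncomputable def xx (w w' : ℂ) (v : Fin 3 → ℝ) : Fin 3 ⊕ Fin 3 → ℂ :=
  Sum.elim (fun k => w - ((v k : ℝ) : ℂ)) (fun k => ((v k : ℝ) : ℂ) - (starRingEnd ℂ) w')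

def nL (u : Finset (Fin 3 ⊕ Fin 3)) : ℕ := (u.filter (fun k => k.isLeft = true)).card

def nR (u : Finset (Fin 3 ⊕ Fin 3)) : ℕ := (u.filter (fun k => k.isRight = true)).card

noncomputable def locA (x : Fin 3 ⊕ Fin 3 → ℂ) (y : ℂ) (p : ℕ) (u : Finset (Fin 3 ⊕ Fin 3)) : ℂ :=
  (-(1 / 2 : ℂ)) ^ u.card * (∏ k ∈ u, np p (I * x k)) * np p (-((max (nL u) (nR u) : ℕ) : ℂ) * (1 + I * y))

noncomputable def locC (x : Fin 3 ⊕ Fin 3 → ℂ) (y : ℂ) (p : ℕ) (u : Finset (Fin 3 ⊕ Fin 3)) : ℂ :=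
  (-(1 / 2 : ℂ)) ^ u.card * (∏ k ∈ u, np p (I * x k)) *
    np p (-((max (nL u) (nR u) : ℕ) : ℂ) - I * y * ((min (nL u) (nR u) : ℕ) : ℂ))

noncomputable def lamA (x : Fin 3 ⊕ Fin 3 → ℂ) (y : ℂ) (p : ℕ) : ℂ :=
  np p (-(I * y)) * (-(1 / 2 : ℂ) * (∑ k, np p (I * x k)) +
    (1 / 4 : ℂ) * ∑ k : Fin 3, ∑ m : Fin 3, np p (I * (x (Sum.inl k) + x (Sum.inr m))))

noncomputable def lamC (x : Fin 3 ⊕ Fin 3 → ℂ) (y : ℂ) (p : ℕ) : ℂ :=
  -(1 / 2 : ℂ) * (∑ k, np p (I * x k)) +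
    (1 / 4 : ℂ) * (np p (-(I * y)) * ∑ k : Fin 3, ∑ m : Fin 3, np p (I * (x (Sum.inl k) + x (Sum.inr m))))

/-- sum over all families `(f k)_k` of elements of `A` of the product over `p ∈ U` of the local factors -/
noncomputable def SS {κ : Type} [Fintype κ] [DecidableEq κ] (A : Finset (Finset ℕ)) (U : Finset ℕ)
    (φ : ℕ → Finset κ → ℂ) : ℂ :=
  ∑ f ∈ Fintype.piFinset (fun _ : κ => A), ∏ p ∈ U, φ p (Finset.univ.filter (fun k => p ∈ f k))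

/-- primes `≤ z = T^kap` -/
noncomputable def PZ (kap T : ℝ) : Finset ℕ :=
  (Finset.Icc 1 ⌊Real.exp (kap * Real.log T)⌋₊).filter Nat.Prime

end Pool.Agent.H28.ZT
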