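import Pool.Agent.H28.ZT.Link0

/-!
# LOCA (chapter E): the local factors `locA`

`‖np p w‖ = exp (Re w log p)`.  `‖np p (i x_k)‖ = exp (-Im x_k log p) ≤ e`; `‖np p (-m (1 + i y))‖ = p^(-m) exp (m Im y log p)
≤ e^3 p^(-m)` (`m ≤ 3`), `m = max (nL u) (nR u) ≥ 1` for `u ≠ ∅`.  The patterns with `m = 1` are the 6 sets `{k}` and the 9
sets `{inl k, inr l}`: their sum is exactly `lam/p` (`np p (-(1 + i y)) = (1/p) np p (-i y)`).  All the others (at most 48) have `m ≥ 2`: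
absolute value `≤ e^(6+3) e^3 /p²`.
-/

set_option autoImplicit false

namespace Pool.Agent.H28.ZT

open Complex

theorem pat_one : (Finset.univ.filter (fun u : Finset (Fin 3 ⊕ Fin 3) => max (nL u) (nR u) = 1)) =
    (Finset.univ.image (fun k : Fin 3 ⊕ Fin 3 => ({k} : Finset (Fin 3 ⊕ Fin 3)))) ∪
      (Finset.univ.image (fun q : Fin 3 × Fin 3 =>
        ({Sum.inl q.1, Sum.inr q.2} : Finset (Fin 3 ⊕ Fin 3)))) := by
  decide +kernel

theorem pat_disj : Disjoint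
    (Finset.univ.image (fun k : Fin 3 ⊕ Fin 3 => ({k} : Finset (Fin 3 ⊕ Fin 3))))
      (Finset.univ.image (fun q : Fin 3 × Fin 3 =>
        ({Sum.inl q.1, Sum.inr q.2} : Finset (Fin 3 ⊕ Fin 3)))) := by
  decide +kernel

theorem pat_inj : Function.Injective (fun q : Fin 3 × Fin 3 =>
    ({Sum.inl q.1, Sum.inr q.2} : Finset (Fin 3 ⊕ Fin 3))) := by
  decide +kernel

theorem pat_zero : ∀ u : Finset (Fin 3 ⊕ Fin 3), max (nL u) (nR u) = 0 ↔ u = ∅ := by
  decide +kernel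

theorem pat_single : ∀ k : Fin 3 ⊕ Fin 3, max (nL {k}) (nR {k}) = 1 ∧ min (nL {k}) (nR {k}) = 0 := by
  decide +kernel

theorem pat_pair : ∀ q : Fin 3 × Fin 3, max (nL {Sum.inl q.1, Sum.inr q.2}) (nR {Sum.inl q.1, Sum.inr q.2}) = 1 ∧
    min (nL {Sum.inl q.1, Sum.inr q.2}) (nR {Sum.inl q.1, Sum.inr q.2}) = 1 := by
  decide +kernel

theorem pat_le : ∀ u : Finset (Fin 3 ⊕ Fin 3), max (nL u) (nR u) ≤ 3 ∧ u.card ≤ 6 ∧
    min (nL u) (nR u) ≤ 3 := by
  decide +kernel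

theorem sum64 (F : Finset (Fin 3 ⊕ Fin 3) → ℂ) :
    ∑ u, F u = F ∅ + (∑ k, F {k} + ∑ k : Fin 3, ∑ m : Fin 3, F {Sum.inl k, Sum.inr m}) +
      ∑ u ∈ Finset.univ.filter (fun u : Finset (Fin 3 ⊕ Fin 3) => 2 ≤ max (nL u) (nR u)), F u := by
  have h1 : ∑ u, F u = ∑ u ∈ Finset.univ.filter (fun u : Finset (Fin 3 ⊕ Fin 3) =>
      max (nL u) (nR u) = 0), F u + ∑ u ∈ Finset.univ.filter (fun u : Finset (Fin 3 ⊕ Fin 3) =>
      ¬ max (nL u) (nR u) = 0), F u :=
    (Finset.sum_filter_add_sum_filter_not Finset.univ _ F).symm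
  have h2 : Finset.univ.filter (fun u : Finset (Fin 3 ⊕ Fin 3) => max (nL u) (nR u) = 0) = {∅} := by
    ext u
    rw [Finset.mem_filter, Finset.mem_singleton, pat_zero u]
    exact ⟨fun h => h.2, fun h => ⟨Finset.mem_univ _, h⟩⟩
  have h3 : ∑ u ∈ Finset.univ.filter (fun u : Finset (Fin 3 ⊕ Fin 3) =>
      ¬ max (nL u) (nR u) = 0), F u = ∑ u ∈ Finset.univ.filter (fun u : Finset (Fin 3 ⊕ Fin 3) =>
      max (nL u) (nR u) = 1), F u + ∑ u ∈ Finset.univ.filter (fun u : Finset (Fin 3 ⊕ Fin 3) =>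
      2 ≤ max (nL u) (nR u)), F u := by
    rw [← Finset.sum_filter_add_sum_filter_not (Finset.univ.filter (fun u : Finset (Fin 3 ⊕ Fin 3) =>
      ¬ max (nL u) (nR u) = 0)) (fun u => max (nL u) (nR u) = 1) F, Finset.filter_filter,
      Finset.filter_filter]
    refine congrArg₂ (· + ·) (Finset.sum_congr ?_ fun _ _ => rfl) (Finset.sum_congr ?_ fun _ _ => rfl)
    · ext u
      simp only [Finset.mem_filter, Finset.mem_univ, true_and]
      omega
    · ext u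
      simp only [Finset.mem_filter, Finset.mem_univ, true_and]
      omega
  rw [h1, h2, h3, Finset.sum_singleton, pat_one, Finset.sum_union pat_disj, Finset.sum_image
    (fun a _ b _ h => Finset.singleton_injective h), Finset.sum_image (fun a _ b _ h => pat_inj h),
    Fintype.sum_prod_type]
  ring

theorem np_Ix (x : ℂ) (p : ℕ) (h : |x.im| * Real.log (p : ℝ) ≤ 1) : ‖np p (I * x)‖ ≤ Real.exp 1 := by
  rw [np_norm, Real.exp_le_exp]
  have e1 : (I * x).re = -x.im := by simp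
  rw [e1]
  have h2 : (0 : ℝ) ≤ Real.log (p : ℝ) := Real.log_natCast_nonneg _
  have h3 : -x.im ≤ |x.im| := neg_le_abs _
  nlinarith

theorem np_Iy (y : ℂ) (p : ℕ) (h : |y.im| * Real.log (p : ℝ) ≤ 1) : ‖np p (-(I * y))‖ ≤ Real.exp 1 := by
  rw [np_norm, Real.exp_le_exp]
  have e1 : (-(I * y)).re = y.im := by simp
  rw [e1]
  have h2 : (0 : ℝ) ≤ Real.log (p : ℝ) := Real.log_natCast_nonneg _
  have h3 : y.im ≤ |y.im| := le_abs_self _
  nlinarith

theorem half_norm (n : ℕ) : ‖(-(1 / 2 : ℂ)) ^ n‖ ≤ 1 := by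
  rw [norm_pow]
  apply pow_le_one₀ (norm_nonneg _)
  rw [norm_neg, norm_div, norm_one]
  norm_num

theorem np_zero_right (p : ℕ) : np p 0 = 1 := by
  unfold np
  simp

theorem np_neg_one {p : ℕ} (hp : p ≠ 0) : np p (-1) = 1 / (p : ℂ) := by
  unfold np
  have h : (0 : ℝ) < (p : ℝ) := by exact_mod_cast Nat.pos_of_ne_zero hp
  have e1 : (-1 : ℂ) * ((Real.log (p : ℝ) : ℝ) : ℂ) = ((-Real.log (p : ℝ) : ℝ) : ℂ) := by
    push_cast
    ring
  rw [e1, ← Complex.ofReal_exp, Real.exp_neg, Real.exp_log h]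
  push_cast
  rw [one_div]

/-- norm of a product of powers -/
theorem prod_norm (x : Fin 3 ⊕ Fin 3 → ℂ) (p : ℕ) (hx : ∀ k, |(x k).im| * Real.log (p : ℝ) ≤ 1)
    (u : Finset (Fin 3 ⊕ Fin 3)) : ‖∏ k ∈ u, np p (I * x k)‖ ≤ Real.exp 1 ^ 6 := by
  rw [norm_prod]
  have he : (1 : ℝ) ≤ Real.exp 1 := Real.one_le_exp (by norm_num)
  calc ∏ k ∈ u, ‖np p (I * x k)‖ ≤ ∏ _k ∈ u, Real.exp 1 :=
        Finset.prod_le_prod (fun k _ => norm_nonneg _) fun k _ => np_Ix _ p (hx k)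
    _ = Real.exp 1 ^ u.card := Finset.prod_const _
    _ ≤ Real.exp 1 ^ 6 := pow_le_pow_right₀ he (pat_le u).2.1

/-- the bound of `lam` -/
theorem lam_bound (x : Fin 3 ⊕ Fin 3 → ℂ) (p : ℕ) (hx : ∀ k, |(x k).im| * Real.log (p : ℝ) ≤ 1) :
    ‖∑ k, np p (I * x k)‖ ≤ 6 * Real.exp 1 ∧
    ‖∑ k : Fin 3, ∑ m : Fin 3, np p (I * (x (Sum.inl k) + x (Sum.inr m)))‖ ≤ 9 * Real.exp 1 ^ 2 := by
  constructor
  · refine (norm_sum_le _ _).trans ((Finset.sum_le_sum fun k _ => np_Ix _ p (hx k)).trans ?_)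
    rw [Finset.sum_const, Finset.card_univ]
    simp
  · refine (norm_sum_le _ _).trans ((Finset.sum_le_sum fun k _ => (norm_sum_le _ _).trans
      (Finset.sum_le_sum fun m _ => (?_ : ‖np p (I * (x (Sum.inl k) + x (Sum.inr m)))‖ ≤
        Real.exp 1 ^ 2))).trans ?_)
    · rw [mul_add, np_add, norm_mul, sq]
      exact mul_le_mul (np_Ix _ p (hx _)) (np_Ix _ p (hx _)) (norm_nonneg _) (Real.exp_pos _).le
    · rw [Finset.sum_const, Finset.sum_const, Finset.card_univ, Fintype.card_fin]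
      simp only [nsmul_eq_mul]
      push_cast
      linarith [sq_nonneg (Real.exp 1)]

theorem loc_A : ∃ K0 : ℝ, 0 < K0 ∧ ∀ (x : Fin 3 ⊕ Fin 3 → ℂ) (y : ℂ) (p : ℕ), p.Prime →
    (∀ k, |(x k).im| * Real.log (p : ℝ) ≤ 1) → |y.im| * Real.log (p : ℝ) ≤ 1 →
    locA x y p ∅ = 1 ∧ (∀ u, u ≠ ∅ → ‖locA x y p u‖ ≤ K0 / (p : ℝ)) ∧ ‖lamA x y p‖ ≤ K0 ∧
      ‖(∑ u, locA x y p u) - 1 - lamA x y p / (p : ℂ)‖ ≤ K0 / (p : ℝ) ^ 2 := by
  have he : (1 : ℝ) ≤ Real.exp 1 := Real.one_le_exp (by norm_num)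
  refine ⟨64 * Real.exp 1 ^ 9, by positivity, fun x y p hp hx hy => ?_⟩
  have hp0 : (0 : ℝ) < p := by exact_mod_cast hp.pos
  have hp1 : (1 : ℝ) ≤ p := by exact_mod_cast hp.pos
  have hlp : (0 : ℝ) ≤ Real.log (p : ℝ) := Real.log_natCast_nonneg _
  -- the norm of the local term
  have hterm : ∀ u : Finset (Fin 3 ⊕ Fin 3), ‖locA x y p u‖ ≤
      Real.exp 1 ^ 9 / (p : ℝ) ^ (max (nL u) (nR u)) := by
    intro u
    obtain ⟨h1, h2, h3⟩ := pat_le u
    set m := max (nL u) (nR u) with hm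
    unfold locA
    rw [← hm, norm_mul, norm_mul]
    have h4 : ‖np p (-((m : ℕ) : ℂ) * (1 + I * y))‖ ≤ Real.exp 1 ^ 3 / (p : ℝ) ^ m := by
      rw [np_norm]
      have e1 : (-((m : ℕ) : ℂ) * (1 + I * y)).re = -(m : ℝ) + m * y.im := by
        simp
        ring
      rw [e1, add_mul, Real.exp_add]
      have e2 : Real.exp (-(m : ℝ) * Real.log (p : ℝ)) = 1 / (p : ℝ) ^ m := by
        rw [neg_mul, Real.exp_neg, ← Real.log_pow, Real.exp_log (by positivity), one_div]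
      have e3 : Real.exp ((m : ℝ) * y.im * Real.log (p : ℝ)) ≤ Real.exp 1 ^ 3 := by
        rw [← Real.exp_nat_mul, Real.exp_le_exp]
        have h5 : (m : ℝ) ≤ 3 := by exact_mod_cast h1
        have h6 : y.im * Real.log (p : ℝ) ≤ 1 := le_trans
          (mul_le_mul_of_nonneg_right (le_abs_self _) hlp) hy
        have h7 : (0 : ℝ) ≤ m := Nat.cast_nonneg _
        push_cast
        calc (m : ℝ) * y.im * Real.log (p : ℝ) = m * (y.im * Real.log (p : ℝ)) := by ring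
          _ ≤ m * 1 := mul_le_mul_of_nonneg_left h6 h7
          _ ≤ 3 * 1 := by linarith
      rw [e2]
      calc 1 / (p : ℝ) ^ m * Real.exp ((m : ℝ) * y.im * Real.log (p : ℝ))
          ≤ 1 / (p : ℝ) ^ m * Real.exp 1 ^ 3 := mul_le_mul_of_nonneg_left e3 (by positivity)
        _ = Real.exp 1 ^ 3 / (p : ℝ) ^ m := by ring
    calc ‖(-(1 / 2 : ℂ)) ^ u.card‖ * ‖∏ k ∈ u, np p (I * x k)‖ *
          ‖np p (-((m : ℕ) : ℂ) * (1 + I * y))‖
        ≤ 1 * Real.exp 1 ^ 6 * (Real.exp 1 ^ 3 / (p : ℝ) ^ m) := by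
          refine mul_le_mul (mul_le_mul (half_norm _) (prod_norm x p hx u) (norm_nonneg _)
            zero_le_one) h4 (norm_nonneg _) (by positivity)
      _ = Real.exp 1 ^ 9 / (p : ℝ) ^ m := by ring
  have hempty : locA x y p ∅ = 1 := by
    have h0 : max (nL ∅) (nR ∅) = 0 := (pat_zero ∅).2 rfl
    unfold locA
    rw [h0]
    simp [np_zero_right]
  refine ⟨hempty, fun u hu => ?_, ?_, ?_⟩
  · refine (hterm u).trans ?_
    have h1 : 1 ≤ max (nL u) (nR u) := by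
      rcases Nat.eq_zero_or_pos (max (nL u) (nR u)) with h | h
      · exact absurd ((pat_zero u).1 h) hu
      · exact h
    have h2 : (p : ℝ) ≤ (p : ℝ) ^ max (nL u) (nR u) := by
      calc (p : ℝ) = (p : ℝ) ^ 1 := (pow_one _).symm
        _ ≤ _ := pow_le_pow_right₀ hp1 h1
    calc Real.exp 1 ^ 9 / (p : ℝ) ^ max (nL u) (nR u) ≤ Real.exp 1 ^ 9 / (p : ℝ) := by gcongr
      _ ≤ 64 * Real.exp 1 ^ 9 / (p : ℝ) := by
          gcongr
          nlinarith [pow_pos (Real.exp_pos 1) 9]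
  · obtain ⟨b1, b2⟩ := lam_bound x p hx
    unfold lamA
    rw [norm_mul]
    have h1 := np_Iy y p hy
    have h2 : ‖-(1 / 2 : ℂ) * (∑ k, np p (I * x k)) +
        (1 / 4 : ℂ) * ∑ k : Fin 3, ∑ m : Fin 3, np p (I * (x (Sum.inl k) + x (Sum.inr m)))‖ ≤
        6 * Real.exp 1 + 9 * Real.exp 1 ^ 2 := by
      refine (norm_add_le _ _).trans (add_le_add ?_ ?_)
      · rw [norm_mul]
        have : ‖-(1 / 2 : ℂ)‖ ≤ 1 := by
          have := half_norm 1
          rwa [pow_one] at this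
        calc _ ≤ 1 * (6 * Real.exp 1) := mul_le_mul this b1 (norm_nonneg _) zero_le_one
          _ = _ := one_mul _
      · rw [norm_mul]
        have : ‖(1 / 4 : ℂ)‖ ≤ 1 := by
          rw [norm_div, norm_one]
          norm_num
        calc _ ≤ 1 * (9 * Real.exp 1 ^ 2) := mul_le_mul this b2 (norm_nonneg _) zero_le_one
          _ = _ := one_mul _
    calc _ ≤ Real.exp 1 * (6 * Real.exp 1 + 9 * Real.exp 1 ^ 2) :=
          mul_le_mul h1 h2 (norm_nonneg _) (Real.exp_pos _).le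
      _ = 6 * Real.exp 1 ^ 2 + 9 * Real.exp 1 ^ 3 := by ring
      _ ≤ 6 * Real.exp 1 ^ 9 + 9 * Real.exp 1 ^ 9 := by
          have a1 : Real.exp 1 ^ 2 ≤ Real.exp 1 ^ 9 := pow_le_pow_right₀ he (by norm_num)
          have a2 : Real.exp 1 ^ 3 ≤ Real.exp 1 ^ 9 := pow_le_pow_right₀ he (by norm_num)
          linarith
      _ ≤ 64 * Real.exp 1 ^ 9 := by
          have : 0 < Real.exp 1 ^ 9 := by positivity
          linarith
  · have hnp1 : np p (-(1 + I * y)) = 1 / (p : ℂ) * np p (-(I * y)) := by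
      rw [neg_add, np_add, np_neg_one hp.ne_zero]
    have hone : (∑ k, locA x y p {k} + ∑ k : Fin 3, ∑ m : Fin 3, locA x y p {Sum.inl k, Sum.inr m}) =
        lamA x y p / (p : ℂ) := by
      have e1 : ∀ k, locA x y p {k} = -(1 / 2 : ℂ) * np p (I * x k) * np p (-(1 + I * y)) := by
        intro k
        unfold locA
        rw [(pat_single k).1, Finset.card_singleton, Finset.prod_singleton, pow_one]
        congr 2
        push_cast
        ring
      have e2 : ∀ k m : Fin 3, locA x y p {Sum.inl k, Sum.inr m} =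
          (1 / 4 : ℂ) * np p (I * (x (Sum.inl k) + x (Sum.inr m))) * np p (-(1 + I * y)) := by
        intro k m
        unfold locA
        have e3 : -((1 : ℕ) : ℂ) * (1 + I * y) = -(1 + I * y) := by
          push_cast
          ring
        rw [(pat_pair (k, m)).1, Finset.card_pair Sum.inl_ne_inr, Finset.prod_pair Sum.inl_ne_inr,
          e3, mul_add I, np_add p (I * x (Sum.inl k))]
        ring
      rw [Finset.sum_congr rfl (fun k _ => e1 k), Finset.sum_congr rfl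
        (fun k _ => Finset.sum_congr rfl (fun m _ => e2 k m))]
      unfold lamA
      rw [hnp1, ← Finset.sum_mul, ← Finset.mul_sum]
      simp_rw [← Finset.sum_mul, ← Finset.mul_sum]
      ring
    have h1 := sum64 (locA x y p)
    rw [h1, hempty, hone]
    have h2 : (1 + lamA x y p / (p : ℂ) + ∑ u ∈ Finset.univ.filter
        (fun u : Finset (Fin 3 ⊕ Fin 3) => 2 ≤ max (nL u) (nR u)), locA x y p u) - 1 -
        lamA x y p / (p : ℂ) = ∑ u ∈ Finset.univ.filter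
        (fun u : Finset (Fin 3 ⊕ Fin 3) => 2 ≤ max (nL u) (nR u)), locA x y p u := by ring
    rw [h2]
    refine (norm_sum_le _ _).trans ?_
    calc ∑ u ∈ Finset.univ.filter (fun u : Finset (Fin 3 ⊕ Fin 3) => 2 ≤ max (nL u) (nR u)),
          ‖locA x y p u‖
        ≤ ∑ u ∈ Finset.univ.filter (fun u : Finset (Fin 3 ⊕ Fin 3) => 2 ≤ max (nL u) (nR u)),
          Real.exp 1 ^ 9 / (p : ℝ) ^ 2 := by
          refine Finset.sum_le_sum fun u hu => (hterm u).trans ?_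
          rw [Finset.mem_filter] at hu
          have : (p : ℝ) ^ 2 ≤ (p : ℝ) ^ max (nL u) (nR u) := pow_le_pow_right₀ hp1 hu.2
          gcongr
      _ ≤ ∑ u : Finset (Fin 3 ⊕ Fin 3), Real.exp 1 ^ 9 / (p : ℝ) ^ 2 :=
          Finset.sum_le_sum_of_subset_of_nonneg (Finset.filter_subset _ _) fun u _ _ => by positivity
      _ = 64 * Real.exp 1 ^ 9 / (p : ℝ) ^ 2 := by
          rw [Finset.sum_const, Finset.card_univ, Fintype.card_finset, Fintype.card_sum,
            Fintype.card_fin, nsmul_eq_mul]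
          push_cast
          ring

end Pool.Agent.H28.ZT
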