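import Pool.Agent.H28.ZT.LocA

/-!
# LOCC (chapter E): the local factors `locC` (the same as LOCA)

`‖np p w‖ = exp (Re w log p)`.  `‖np p (i x_k)‖ = exp (-Im x_k log p) ≤ e`; `‖np p (-m - i y m')‖ = p^(-m) exp (m' Im y log p)
≤ e^3 p^(-m)` (`m' = min (nL u) (nR u) ≤ 3`), `m = max (nL u) (nR u) ≥ 1` for `u ≠ ∅`.  The patterns with `m = 1` are the 6 sets `{k}` and the 9
sets `{inl k, inr l}`: their sum is exactly `lam/p` (`m' = 0` for `{k}`, `m' = 1` for `{inl k, inr l}`; `np p (-1 - i y) = (1/p) np p (-i y)`).  All the others (at most 48) have `m ≥ 2`: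
absolute value `≤ e^(6+3) e^3 /p²`.
-/

set_option autoImplicit false

namespace Pool.Agent.H28.ZT

open Complex

theorem loc_C : ∃ K0 : ℝ, 0 < K0 ∧ ∀ (x : Fin 3 ⊕ Fin 3 → ℂ) (y : ℂ) (p : ℕ), p.Prime →
    (∀ k, |(x k).im| * Real.log (p : ℝ) ≤ 1) → |y.im| * Real.log (p : ℝ) ≤ 1 →
    locC x y p ∅ = 1 ∧ (∀ u, u ≠ ∅ → ‖locC x y p u‖ ≤ K0 / (p : ℝ)) ∧ ‖lamC x y p‖ ≤ K0 ∧
      ‖(∑ u, locC x y p u) - 1 - lamC x y p / (p : ℂ)‖ ≤ K0 / (p : ℝ) ^ 2 := by
  have he : (1 : ℝ) ≤ Real.exp 1 := Real.one_le_exp (by norm_num)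
  refine ⟨64 * Real.exp 1 ^ 9, by positivity, fun x y p hp hx hy => ?_⟩
  have hp0 : (0 : ℝ) < p := by exact_mod_cast hp.pos
  have hp1 : (1 : ℝ) ≤ p := by exact_mod_cast hp.pos
  have hlp : (0 : ℝ) ≤ Real.log (p : ℝ) := Real.log_natCast_nonneg _
  -- the norm of the local term
  have hterm : ∀ u : Finset (Fin 3 ⊕ Fin 3), ‖locC x y p u‖ ≤
      Real.exp 1 ^ 9 / (p : ℝ) ^ (max (nL u) (nR u)) := by
    intro u
    obtain ⟨h1, h2, h3⟩ := pat_le u
    set m := max (nL u) (nR u) with hm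
    set m' := min (nL u) (nR u) with hm'
    unfold locC
    rw [← hm, ← hm', norm_mul, norm_mul]
    have h4 : ‖np p (-((m : ℕ) : ℂ) - I * y * ((m' : ℕ) : ℂ))‖ ≤ Real.exp 1 ^ 3 / (p : ℝ) ^ m := by
      rw [np_norm]
      have e1 : (-((m : ℕ) : ℂ) - I * y * ((m' : ℕ) : ℂ)).re = -(m : ℝ) + m' * y.im := by
        simp
        ring
      rw [e1, add_mul, Real.exp_add]
      have e2 : Real.exp (-(m : ℝ) * Real.log (p : ℝ)) = 1 / (p : ℝ) ^ m := by
        rw [neg_mul, Real.exp_neg, ← Real.log_pow, Real.exp_log (by positivity), one_div]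
      have e3 : Real.exp ((m' : ℝ) * y.im * Real.log (p : ℝ)) ≤ Real.exp 1 ^ 3 := by
        rw [← Real.exp_nat_mul, Real.exp_le_exp]
        have h5 : (m' : ℝ) ≤ 3 := by exact_mod_cast h3
        have h6 : y.im * Real.log (p : ℝ) ≤ 1 := le_trans
          (mul_le_mul_of_nonneg_right (le_abs_self _) hlp) hy
        have h7 : (0 : ℝ) ≤ m' := Nat.cast_nonneg _
        push_cast
        calc (m' : ℝ) * y.im * Real.log (p : ℝ) = m' * (y.im * Real.log (p : ℝ)) := by ring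
          _ ≤ m' * 1 := mul_le_mul_of_nonneg_left h6 h7
          _ ≤ 3 * 1 := by linarith
      rw [e2]
      calc 1 / (p : ℝ) ^ m * Real.exp ((m' : ℝ) * y.im * Real.log (p : ℝ))
          ≤ 1 / (p : ℝ) ^ m * Real.exp 1 ^ 3 := mul_le_mul_of_nonneg_left e3 (by positivity)
        _ = Real.exp 1 ^ 3 / (p : ℝ) ^ m := by ring
    calc ‖(-(1 / 2 : ℂ)) ^ u.card‖ * ‖∏ k ∈ u, np p (I * x k)‖ *
          ‖np p (-((m : ℕ) : ℂ) - I * y * ((m' : ℕ) : ℂ))‖
        ≤ 1 * Real.exp 1 ^ 6 * (Real.exp 1 ^ 3 / (p : ℝ) ^ m) := by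
          refine mul_le_mul (mul_le_mul (half_norm _) (prod_norm x p hx u) (norm_nonneg _)
            zero_le_one) h4 (norm_nonneg _) (by positivity)
      _ = Real.exp 1 ^ 9 / (p : ℝ) ^ m := by ring
  have hempty : locC x y p ∅ = 1 := by
    have h0 : max (nL ∅) (nR ∅) = 0 := (pat_zero ∅).2 rfl
    have h0' : min (nL ∅) (nR ∅) = 0 := Nat.le_zero.1 (min_le_max.trans h0.le)
    unfold locC
    rw [h0, h0']
    simp [np_zero_right]
  refine ⟨hempty, fun u hu => ?_, ?_, ?_⟩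
  · refine (hterm u).trans ?_
    have h1 : 1 ≤ max (nL u) (nR u) := by
      rcases Nat.eq_zero_or_pos (max (nL u) (nR u)) with h | h
      · exact absurd ((pat_zero u).1 h) hu
      · exact h
    have h2 : (p : ℝ) ≤ (p : ℝ) ^ max (nL u) (nR u) := by
      calc (p : ℝ) = (p : ℝ) ^ 1 := (pow_one _).symm
        _ ≤ _ := pow_le_pow_right₀ hp1 h1
    calc Real.exp 1 ^ 9 / (p : ℝ) ^ max (nL u) (nR u) ≤ Real.exp 1 ^ 9 / (p : ℝ) := by gcongr
      _ ≤ 64 * Real.exp 1 ^ 9 / (p : ℝ) := by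
          gcongr
          nlinarith [pow_pos (Real.exp_pos 1) 9]
  · obtain ⟨b1, b2⟩ := lam_bound x p hx
    unfold lamC
    have h1 := np_Iy y p hy
    have h2 : ‖-(1 / 2 : ℂ) * (∑ k, np p (I * x k))‖ ≤ 6 * Real.exp 1 := by
      rw [norm_mul]
      have : ‖-(1 / 2 : ℂ)‖ ≤ 1 := by
        have := half_norm 1
        rwa [pow_one] at this
      calc _ ≤ 1 * (6 * Real.exp 1) := mul_le_mul this b1 (norm_nonneg _) zero_le_one
        _ = _ := one_mul _
    have h3 : ‖(1 / 4 : ℂ) * (np p (-(I * y)) * ∑ k : Fin 3, ∑ m : Fin 3,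
        np p (I * (x (Sum.inl k) + x (Sum.inr m))))‖ ≤ 9 * Real.exp 1 ^ 3 := by
      rw [norm_mul, norm_mul]
      have : ‖(1 / 4 : ℂ)‖ ≤ 1 := by
        rw [norm_div, norm_one]
        norm_num
      calc _ ≤ 1 * (Real.exp 1 * (9 * Real.exp 1 ^ 2)) :=
            mul_le_mul this (mul_le_mul h1 b2 (norm_nonneg _) (Real.exp_pos _).le)
              (by positivity) zero_le_one
        _ = _ := by ring
    calc _ ≤ 6 * Real.exp 1 + 9 * Real.exp 1 ^ 3 := (norm_add_le _ _).trans (add_le_add h2 h3)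
      _ ≤ 6 * Real.exp 1 ^ 9 + 9 * Real.exp 1 ^ 9 := by
          have a1 : Real.exp 1 ≤ Real.exp 1 ^ 9 := by
            calc Real.exp 1 = Real.exp 1 ^ 1 := (pow_one _).symm
              _ ≤ _ := pow_le_pow_right₀ he (by norm_num)
          have a2 : Real.exp 1 ^ 3 ≤ Real.exp 1 ^ 9 := pow_le_pow_right₀ he (by norm_num)
          linarith
      _ ≤ 64 * Real.exp 1 ^ 9 := by
          have : 0 < Real.exp 1 ^ 9 := by positivity
          linarith
  · have hone : (∑ k, locC x y p {k} + ∑ k : Fin 3, ∑ m : Fin 3, locC x y p {Sum.inl k, Sum.inr m}) =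
        lamC x y p / (p : ℂ) := by
      have e1 : ∀ k, locC x y p {k} = -(1 / 2 : ℂ) * np p (I * x k) * (1 / (p : ℂ)) := by
        intro k
        unfold locC
        have e3 : -((1 : ℕ) : ℂ) - I * y * ((0 : ℕ) : ℂ) = -1 := by
          push_cast
          ring
        rw [(pat_single k).1, (pat_single k).2, Finset.card_singleton, Finset.prod_singleton, pow_one,
          e3, np_neg_one hp.ne_zero]
      have e2 : ∀ k m : Fin 3, locC x y p {Sum.inl k, Sum.inr m} =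
          (1 / 4 : ℂ) * np p (I * (x (Sum.inl k) + x (Sum.inr m))) * (1 / (p : ℂ) * np p (-(I * y))) := by
        intro k m
        unfold locC
        have e3 : -((1 : ℕ) : ℂ) - I * y * ((1 : ℕ) : ℂ) = -1 + -(I * y) := by
          push_cast
          ring
        rw [(pat_pair (k, m)).1, (pat_pair (k, m)).2, Finset.card_pair Sum.inl_ne_inr,
          Finset.prod_pair Sum.inl_ne_inr, e3, np_add p (-1), np_neg_one hp.ne_zero, mul_add I,
          np_add p (I * x (Sum.inl k))]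
        ring
      rw [Finset.sum_congr rfl (fun k _ => e1 k), Finset.sum_congr rfl
        (fun k _ => Finset.sum_congr rfl (fun m _ => e2 k m))]
      unfold lamC
      rw [← Finset.sum_mul, ← Finset.mul_sum]
      simp_rw [← Finset.sum_mul, ← Finset.mul_sum]
      ring
    have h1 := sum64 (locC x y p)
    rw [h1, hempty, hone]
    have h2 : (1 + lamC x y p / (p : ℂ) + ∑ u ∈ Finset.univ.filter
        (fun u : Finset (Fin 3 ⊕ Fin 3) => 2 ≤ max (nL u) (nR u)), locC x y p u) - 1 -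
        lamC x y p / (p : ℂ) = ∑ u ∈ Finset.univ.filter
        (fun u : Finset (Fin 3 ⊕ Fin 3) => 2 ≤ max (nL u) (nR u)), locC x y p u := by ring
    rw [h2]
    refine (norm_sum_le _ _).trans ?_
    calc ∑ u ∈ Finset.univ.filter (fun u : Finset (Fin 3 ⊕ Fin 3) => 2 ≤ max (nL u) (nR u)),
          ‖locC x y p u‖
        ≤ ∑ u ∈ Finset.univ.filter (fun u : Finset (Fin 3 ⊕ Fin 3) => 2 ≤ max (nL u) (nR u)),
          Real.exp 1 ^ 9 / (p : ℝ) ^ 2 := by
          refine Finset.sum_le_sum fun u hu => (hterm u).trans ?_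
          rw [Finset.mem_filter] at hu
          have : (p : ℝ) ^ 2 ≤ (p : ℝ) ^ max (nL u) (nR u) := pow_le_pow_right₀ hp1 hu.2
          gcongr
      _ ≤ ∑ u : Finset (Fin 3 ⊕ Fin 3), Real.exp 1 ^ 9 / (p : ℝ) ^ 2 :=
          Finset.sum_le_sum_of_subset_of_nonneg (Finset.filter_subset _ _) fun u _ _ => by positivity
      _ = 64 * Real.exp 1 ^ 9 / (p : ℝ) ^ 2 := by
          rw [Finset.sum_const, Finset.card_univ, Fintype.card_finset, Fintype.card_sum,
            Fintype.card_fin, nsmul_eq_mul]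
          push_cast
          ring

end Pool.Agent.H28.ZT
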