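import Pool.Agent.H28.ZT.M1

/-!
# M0 (chapter M): `∫ ‖B‖²`

From `H49.ZM.m_zero` with `N = A.image pr`, `Y = ⌊T^(1/1000)⌋` (bridge: module BRG).
-/

set_option autoImplicit false

namespace Pool.Agent.H28.ZT

open Complex

theorem M0 : ∃ C : ℝ, 0 < C ∧ ∀ (T : ℝ) (A : Finset (Finset ℕ)), 4 ≤ T → AOK T A →
    |(∫ t in (T / 2)..T, ‖BB A t‖ ^ 2) - T / 2 * EE A| ≤ C * T ^ (9 / 10 : ℝ) := by
  refine ⟨4, by norm_num, fun T A hT hA => ?_⟩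
  have hcl := brg_cl hA
  have h1 := Pool.Agent.H49.ZM.m_zero (A.image pr) _ hcl (T / 2) T
  have h2 : (∫ t in (T / 2)..T, ‖Pool.Agent.H49.ZM.BB (A.image pr) (1 / 2 + I * t)‖ ^ 2) =
      ∫ t in (T / 2)..T, ‖BB A t‖ ^ 2 := by
    refine intervalIntegral.integral_congr fun t _ => ?_
    rw [← brg_Bs hA, Bs_half]
  have h3 : (T - T / 2) = T / 2 := by ring
  rw [h2, h3, brg_EE hA] at h1
  refine h1.trans ?_
  have hT1 : (1 : ℝ) ≤ T := by linarith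
  have h4 := brg_pow hT1 3 (by norm_num)
  have h5 : (1 : ℝ) ≤ T ^ (1 / 2 : ℝ) := Real.one_le_rpow hT1 (by norm_num)
  have h6 : (0 : ℝ) ≤ (⌊T ^ (1 / 1000 : ℝ)⌋₊ : ℝ) ^ 3 := by positivity
  nlinarith

end Pool.Agent.H28.ZT
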