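import Pool.Agent.H28.ZT.Brg

/-!
# M1 (chapter M): the twisted first moment

The integrand is `GM A v (1/2 + it)` (`Bs_half`, `Bs_conj`, `B conj B = ‖B‖²`). From `H49.ZM.m_one` with
`N = A.image pr`, `Y = ⌊T^(1/1000)⌋` (bridge: module BRG).
-/

set_option autoImplicit false

namespace Pool.Agent.H28.ZT

open Complex

theorem brg_pow {T : ℝ} (hT : 1 ≤ T) (n : ℕ) (h : (n : ℝ) / 1000 + 1 / 2 ≤ 9 / 10) :
    T ^ (1 / 2 : ℝ) * (⌊T ^ (1 / 1000 : ℝ)⌋₊ : ℝ) ^ n ≤ T ^ (9 / 10 : ℝ) := by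
  have hT0 : 0 < T := by linarith
  have h1 : (⌊T ^ (1 / 1000 : ℝ)⌋₊ : ℝ) ≤ T ^ (1 / 1000 : ℝ) :=
    Nat.floor_le (Real.rpow_nonneg hT0.le _)
  calc T ^ (1 / 2 : ℝ) * (⌊T ^ (1 / 1000 : ℝ)⌋₊ : ℝ) ^ n
      ≤ T ^ (1 / 2 : ℝ) * (T ^ (1 / 1000 : ℝ)) ^ n := by gcongr
    _ = T ^ (1 / 2 + 1 / 1000 * n : ℝ) := by
        rw [← Real.rpow_natCast, ← Real.rpow_mul hT0.le, ← Real.rpow_add hT0]
    _ ≤ T ^ (9 / 10 : ℝ) := Real.rpow_le_rpow_of_exponent_le hT (by linarith)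

theorem M1 : ∃ C : ℝ, 0 < C ∧ ∀ (T : ℝ) (A : Finset (Finset ℕ)), 4 ≤ T → AOK T A →
    ∀ v : ℝ, 0 ≤ v → v ≤ 1 →
      ‖(∫ t in (T / 2)..T, riemannZeta (1 / 2 + I * ((t + v : ℝ) : ℂ)) * BB A (t + v) ^ 2 *
        ((‖BB A t‖ ^ 2 : ℝ) : ℂ)) - ((T / 2 * EE A : ℝ) : ℂ)‖ ≤ C * T ^ (9 / 10 : ℝ) := by
  obtain ⟨C, hC, h⟩ := Pool.Agent.H49.ZM.m_one
  refine ⟨C, hC, fun T A hT hA v hv0 hv1 => ?_⟩
  have hcl := brg_cl hA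
  have hN0 : ∀ b ∈ A.image pr, b ≠ 0 := fun b hb => (hcl.1 b hb).1.ne_zero
  have h1 := h (A.image pr) _ hcl v (T / 2) T hv0 hv1 (by linarith) (by linarith)
  have h2 : (∫ t in (T / 2)..T, Pool.Agent.H49.ZM.ff (A.image pr) v (1 / 2 + I * t)) =
      ∫ t in (T / 2)..T, riemannZeta (1 / 2 + I * ((t + v : ℝ) : ℂ)) * BB A (t + v) ^ 2 *
        ((‖BB A t‖ ^ 2 : ℝ) : ℂ) := by
    refine intervalIntegral.integral_congr fun t _ => ?_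
    rw [Pool.Agent.H49.ZM.ff_eq hN0 v t, ← brg_Bs hA, ← brg_Bs hA, Bs_half]
    have e : (1 / 2 + I * ((t : ℂ) + v) : ℂ) = 1 / 2 + I * ((t + v : ℝ) : ℂ) := by
      push_cast
      ring
    rw [e, Bs_half]
  have h3 : (T - T / 2) = T / 2 := by ring
  rw [h2, h3, brg_EE hA] at h1
  refine h1.trans ?_
  rw [mul_assoc]
  exact mul_le_mul_of_nonneg_left (brg_pow (by linarith) 5 (by norm_num)) hC.le

end Pool.Agent.H28.ZT
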