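import Pool.Agent.H28.ZT.KFamI
import Pool.Agent.H28.ZT.KInt
import Pool.Agent.H28.ZT.FLow

/-!
# M2 (chapter M): second moment of the window integral of `|ζ||B|²`

Cauchy-Schwarz `(∫_0^h g)² ≤ h ∫_0^h g²`, Fubini, `‖ζ(1/2+i(t+v))‖² ≤ C √T fr(t+v)²` (FLOW, `fr_eq`; `1 ≤ t+v ≤ 2T`), extend the
integral over `t` to the line, KINT (`kI` with `v = v'`), `K_I`: `≤ C h · h · √T · √T L^(1/4)`.  `AA_prime` (CARD).
-/

set_option autoImplicit false

namespace Pool.Agent.H28.ZT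

open Complex MeasureTheory

private theorem zeta_cont : Continuous (fun y : ℝ => riemannZeta (1 / 2 + I * (y : ℂ))) := by
  rw [continuous_iff_continuousAt]
  intro y
  have h1 : (1 / 2 + I * (y : ℂ)) ≠ 1 := by
    intro h
    have := congrArg Complex.re h
    simp at this
  have h2 : ContinuousAt riemannZeta (1 / 2 + I * (y : ℂ)) :=
    (differentiableAt_riemannZeta h1).continuousAt
  have h3 : ContinuousAt (fun y : ℝ => (1 / 2 : ℂ) + I * (y : ℂ)) y := by
    fun_prop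
  exact ContinuousAt.comp (f := fun y : ℝ => (1 / 2 : ℂ) + I * (y : ℂ)) (g := riemannZeta) h2 h3

/-- Cauchy-Schwarz on an interval -/
private theorem cs_int {h : ℝ} (hh : 0 < h) {g : ℝ → ℝ} (hg : Continuous g) :
    (∫ v in (0 : ℝ)..h, g v) ^ 2 ≤ h * ∫ v in (0 : ℝ)..h, g v ^ 2 := by
  set m : ℝ := ∫ v in (0 : ℝ)..h, g v with hm
  have h0 : 0 ≤ ∫ v in (0 : ℝ)..h, (g v - m / h) ^ 2 :=
    intervalIntegral.integral_nonneg hh.le fun v _ => sq_nonneg _
  have i1 : IntervalIntegrable (fun v => g v ^ 2) volume 0 h := (hg.pow 2).intervalIntegrable _ _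
  have i2 : IntervalIntegrable (fun v => 2 * (m / h) * g v) volume 0 h :=
    (continuous_const.mul hg).intervalIntegrable _ _
  have i3 : IntervalIntegrable (fun _ : ℝ => (m / h) ^ 2) volume 0 h :=
    continuous_const.intervalIntegrable _ _
  have h1 : ∫ v in (0 : ℝ)..h, (g v - m / h) ^ 2 =
      (∫ v in (0 : ℝ)..h, g v ^ 2) - 2 * (m / h) * m + h * (m / h) ^ 2 := by
    have e1 : ∀ v, (g v - m / h) ^ 2 = (g v ^ 2 - 2 * (m / h) * g v) + (m / h) ^ 2 := by
      intro v; ring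
    simp_rw [e1]
    rw [intervalIntegral.integral_add (i1.sub i2) i3, intervalIntegral.integral_sub i1 i2,
      intervalIntegral.integral_const_mul, ← hm, intervalIntegral.integral_const, sub_zero,
      smul_eq_mul]
  rw [h1] at h0
  have h2 : h * ((∫ v in (0 : ℝ)..h, g v ^ 2) - 2 * (m / h) * m + h * (m / h) ^ 2) =
      h * (∫ v in (0 : ℝ)..h, g v ^ 2) - m ^ 2 := by
    field_simp
    ring
  have h3 := mul_nonneg hh.le h0
  rw [h2] at h3
  linarith

private theorem m2_alg (k f b b' : ℝ) :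
    k * f ^ 2 * (b ^ 4 * b' ^ 2) = k * (f * f * b ^ 2 * b ^ 2 * b' ^ 2) := by ring

private theorem m2_alg' (z b b' : ℝ) : (z * b ^ 2) ^ 2 * b' ^ 2 = z ^ 2 * (b ^ 4 * b' ^ 2) := by
  ring

theorem M2 : ∃ K : ℝ, 0 < K ∧ ∀ kap : ℝ, 0 < kap → kap ≤ 1 / 8 → ∃ C T0 : ℝ, 0 < C ∧ Real.exp 40 ≤ T0 ∧
    ∀ (T : ℝ) (J : ℕ) (P : ℕ → Finset ℕ) (V : ℕ → ℕ), T0 ≤ T → Blk K kap T J P V →
    ∀ h : ℝ, 0 < h → h ≤ 1 →
      ∫ t in (T / 2)..T, (∫ v in (0 : ℝ)..h, ‖riemannZeta (1 / 2 + I * ((t + v : ℝ) : ℂ))‖ *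
        ‖BB (AA J P V) (t + v)‖ ^ 2) ^ 2 * ‖BB (AA J P V) t‖ ^ 2 ≤
        C * h ^ 2 * T * (Real.log T) ^ (1 / 4 : ℝ) := by
  obtain ⟨K, hK, hKI⟩ := K_I
  obtain ⟨c, hc, hF⟩ := F_low
  refine ⟨K, hK, ?_⟩
  intro kap hk0 hk1
  obtain ⟨C, T0, hC, hT0, hmain⟩ := hKI kap hk0 hk1
  refine ⟨(c⁻¹) ^ 2 * C, T0, by positivity, hT0, ?_⟩
  intro T J P V hT hB h hh0 hh1
  have hT2 : 2 ≤ T := by
    have h1 : (40 : ℝ) + 1 ≤ Real.exp 40 := Real.add_one_le_exp 40
    linarith
  have hTpos : 0 < T := by linarith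
  have hprime : ∀ S ∈ AA J P V, ∀ p ∈ S, p.Prime := fun S hS => AA_prime hB hS
  set A := AA J P V with hA
  have hd0 : 0 < 1 / T := by positivity
  have hd1 : 1 / T ≤ 1 / 2 := one_div_le_one_div_of_le (by norm_num) hT2
  have hBc := BB_cont A
  have hzc := zeta_cont
  -- the integrand after Cauchy-Schwarz
  set H : ℝ → ℝ → ℝ := fun t v => (‖riemannZeta (1 / 2 + I * ((t + v : ℝ) : ℂ))‖ *
    ‖BB A (t + v)‖ ^ 2) ^ 2 * ‖BB A t‖ ^ 2 with hH
  have hHc : Continuous (Function.uncurry H) := by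
    have e1 : Continuous (fun z : ℝ × ℝ => riemannZeta (1 / 2 + I * ((z.1 + z.2 : ℝ) : ℂ))) :=
      hzc.comp (continuous_fst.add continuous_snd)
    have e2 : Continuous (fun z : ℝ × ℝ => BB A (z.1 + z.2)) :=
      hBc.comp (continuous_fst.add continuous_snd)
    have e3 : Continuous (fun z : ℝ × ℝ => BB A z.1) := hBc.comp continuous_fst
    exact ((e1.norm.mul (e2.norm.pow 2)).pow 2).mul (e3.norm.pow 2)
  have hTh : T / 2 ≤ T := by linarith
  have hstep1 : ∫ t in (T / 2)..T, (∫ v in (0 : ℝ)..h, ‖riemannZeta (1 / 2 + I * ((t + v : ℝ) : ℂ))‖ *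
        ‖BB A (t + v)‖ ^ 2) ^ 2 * ‖BB A t‖ ^ 2 ≤
      ∫ t in (T / 2)..T, h * ∫ v in (0 : ℝ)..h, H t v := by
    have hg : ∀ t, Continuous (fun v : ℝ => ‖riemannZeta (1 / 2 + I * ((t + v : ℝ) : ℂ))‖ *
        ‖BB A (t + v)‖ ^ 2) := by
      intro t
      have e1 : Continuous (fun v : ℝ => riemannZeta (1 / 2 + I * ((t + v : ℝ) : ℂ))) :=
        hzc.comp (continuous_const.add continuous_id)
      have e2 : Continuous (fun v : ℝ => BB A (t + v)) :=
        hBc.comp (continuous_const.add continuous_id)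
      exact e1.norm.mul (e2.norm.pow 2)
    have hc1 : Continuous (fun t : ℝ => ∫ v in (0 : ℝ)..h,
        ‖riemannZeta (1 / 2 + I * ((t + v : ℝ) : ℂ))‖ * ‖BB A (t + v)‖ ^ 2) := by
      refine intervalIntegral.continuous_parametric_intervalIntegral_of_continuous' ?_ _ _
      have e1 : Continuous (fun z : ℝ × ℝ => riemannZeta (1 / 2 + I * ((z.1 + z.2 : ℝ) : ℂ))) :=
        hzc.comp (continuous_fst.add continuous_snd)
      have e2 : Continuous (fun z : ℝ × ℝ => BB A (z.1 + z.2)) :=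
        hBc.comp (continuous_fst.add continuous_snd)
      exact e1.norm.mul (e2.norm.pow 2)
    have hc2 : Continuous (fun t : ℝ => ∫ v in (0 : ℝ)..h, H t v) :=
      intervalIntegral.continuous_parametric_intervalIntegral_of_continuous' hHc _ _
    refine intervalIntegral.integral_mono_on hTh ?_ ?_ ?_
    · exact ((hc1.pow 2).mul (hBc.norm.pow 2)).intervalIntegrable _ _
    · exact (continuous_const.mul hc2).intervalIntegrable _ _
    · intro t _
      have h1 := cs_int hh0 (hg t)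
      have h2 : ∫ v in (0 : ℝ)..h, H t v = (∫ v in (0 : ℝ)..h,
          (‖riemannZeta (1 / 2 + I * ((t + v : ℝ) : ℂ))‖ * ‖BB A (t + v)‖ ^ 2) ^ 2) *
          ‖BB A t‖ ^ 2 := by
        rw [← intervalIntegral.integral_mul_const]
      rw [h2, ← mul_assoc]
      exact mul_le_mul_of_nonneg_right h1 (by positivity)
  have hswap : ∫ t in (T / 2)..T, ∫ v in (0 : ℝ)..h, H t v =
      ∫ v in (0 : ℝ)..h, ∫ t in (T / 2)..T, H t v := by
    refine intervalIntegral_intervalIntegral_swap ?_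
    have : IsCompact (Set.uIcc (T / 2) T ×ˢ Set.uIcc 0 h) := isCompact_uIcc.prod isCompact_uIcc
    exact (hHc.continuousOn.integrableOn_compact this).mono_set
      (Set.prod_mono Set.uIoc_subset_uIcc Set.uIoc_subset_uIcc)
  set M : ℝ := (c⁻¹) ^ 2 * C * T * (Real.log T) ^ (1 / 4 : ℝ) with hM
  have hinner : ∀ v ∈ Set.Icc (0 : ℝ) h, ∫ t in (T / 2)..T, H t v ≤ M := by
    intro v hv
    obtain ⟨hint, hKK⟩ := kI hT2 A hprime v v
    have hbd := hmain T J P V hT hB v v hv.1 (hv.2.trans hh1) hv.1 (hv.2.trans hh1)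
    rw [← hA, hKK, sub_self, abs_zero, zero_mul, add_zero, Real.one_rpow, mul_one,
      Complex.norm_real] at hbd
    obtain ⟨G, hG⟩ : ∃ G : ℝ → ℝ, G = fun t => fr (1 / T) (t + v) * fr (1 / T) (t + v) *
      ‖BB A (t + v)‖ ^ 2 * ‖BB A (t + v)‖ ^ 2 * ‖BB A t‖ ^ 2 := ⟨_, rfl⟩
    have hGt : ∀ t, G t = fr (1 / T) (t + v) * fr (1 / T) (t + v) *
      ‖BB A (t + v)‖ ^ 2 * ‖BB A (t + v)‖ ^ 2 * ‖BB A t‖ ^ 2 := fun t => by rw [hG]
    rw [← hG] at hint hbd
    have hG0 : ∀ t, 0 ≤ G t := by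
      intro t
      rw [hGt]
      have : 0 ≤ fr (1 / T) (t + v) * fr (1 / T) (t + v) := mul_self_nonneg _
      positivity
    have hbd' : ∫ t, G t ≤ C * Real.sqrt T * (Real.log T) ^ (1 / 4 : ℝ) :=
      (le_abs_self _).trans hbd
    have hle : ∀ t ∈ Set.Icc (T / 2) T, H t v ≤ (c⁻¹) ^ 2 * Real.sqrt T * G t := by
      intro t ht
      have ht1 : 1 ≤ t + v := by
        have := ht.1
        have := hv.1
        linarith
      have ht2 : t + v ≤ 2 * T := by
        have := ht.2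
        have := hv.2
        linarith
      have h1 := hF T hT2 (t + v) ht1 ht2
      rw [← fr_eq hd0 hd1, Complex.norm_real, Real.norm_eq_abs] at h1
      set z : ℝ := ‖riemannZeta (1 / 2 + I * ((t + v : ℝ) : ℂ))‖ with hz
      have hz0 : 0 ≤ z := norm_nonneg _
      have hTr : (0 : ℝ) < T ^ (-(1 / 4) : ℝ) := Real.rpow_pos_of_pos hTpos _
      have h2 : (c * T ^ (-(1 / 4) : ℝ) * z) ^ 2 ≤ fr (1 / T) (t + v) ^ 2 := by
        rw [← sq_abs (fr (1 / T) (t + v))]
        exact pow_le_pow_left₀ (by positivity) h1 2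
      have h3 : (T ^ (-(1 / 4) : ℝ)) ^ 2 * Real.sqrt T = 1 := by
        rw [Real.sqrt_eq_rpow, ← Real.rpow_natCast, ← Real.rpow_mul hTpos.le,
          ← Real.rpow_add hTpos]
        norm_num
      have h4 : z ^ 2 ≤ (c⁻¹) ^ 2 * Real.sqrt T * fr (1 / T) (t + v) ^ 2 := by
        have e1 : z ^ 2 = (c⁻¹) ^ 2 * Real.sqrt T * (c * T ^ (-(1 / 4) : ℝ) * z) ^ 2 := by
          have : (c⁻¹) ^ 2 * Real.sqrt T * (c * T ^ (-(1 / 4) : ℝ) * z) ^ 2 =
              (c⁻¹ * c) ^ 2 * ((T ^ (-(1 / 4) : ℝ)) ^ 2 * Real.sqrt T) * z ^ 2 := by ring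
          rw [this, h3, inv_mul_cancel₀ hc.ne']
          ring
        rw [e1]
        exact mul_le_mul_of_nonneg_left h2 (by positivity)
      calc H t v = z ^ 2 * (‖BB A (t + v)‖ ^ 4 * ‖BB A t‖ ^ 2) := m2_alg' _ _ _
        _ ≤ ((c⁻¹) ^ 2 * Real.sqrt T * fr (1 / T) (t + v) ^ 2) *
              (‖BB A (t + v)‖ ^ 4 * ‖BB A t‖ ^ 2) :=
            mul_le_mul_of_nonneg_right h4 (by positivity)
        _ = (c⁻¹) ^ 2 * Real.sqrt T * G t := by
            rw [hGt]
            exact m2_alg _ _ _ _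
    have hHt : Continuous (fun t : ℝ => H t v) :=
      Continuous.comp (g := Function.uncurry H) (f := fun t : ℝ => (t, v)) hHc
        (Continuous.prodMk continuous_id continuous_const)
    calc ∫ t in (T / 2)..T, H t v
        ≤ ∫ t in (T / 2)..T, (c⁻¹) ^ 2 * Real.sqrt T * G t := by
          refine intervalIntegral.integral_mono_on hTh (hHt.intervalIntegrable _ _) ?_ hle
          exact (hint.const_mul _).intervalIntegrable
      _ = (c⁻¹) ^ 2 * Real.sqrt T * ∫ t in (T / 2)..T, G t := by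
          rw [intervalIntegral.integral_const_mul]
      _ ≤ (c⁻¹) ^ 2 * Real.sqrt T * ∫ t, G t := by
          refine mul_le_mul_of_nonneg_left ?_ (by positivity)
          rw [intervalIntegral.integral_of_le hTh]
          exact setIntegral_le_integral hint (Filter.Eventually.of_forall hG0)
      _ ≤ (c⁻¹) ^ 2 * Real.sqrt T * (C * Real.sqrt T * (Real.log T) ^ (1 / 4 : ℝ)) :=
          mul_le_mul_of_nonneg_left hbd' (by positivity)
      _ = (c⁻¹) ^ 2 * C * (Real.sqrt T * Real.sqrt T) * (Real.log T) ^ (1 / 4 : ℝ) := by ring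
      _ = M := by rw [Real.mul_self_sqrt hTpos.le]
  have hcv : Continuous (fun v : ℝ => ∫ t in (T / 2)..T, H t v) := by
    refine intervalIntegral.continuous_parametric_intervalIntegral_of_continuous' ?_ _ _
    exact Continuous.comp (g := Function.uncurry H) (f := fun z : ℝ × ℝ => (z.2, z.1)) hHc
      (Continuous.prodMk continuous_snd continuous_fst)
  have hfin : ∫ v in (0 : ℝ)..h, ∫ t in (T / 2)..T, H t v ≤ h * M := by
    calc ∫ v in (0 : ℝ)..h, ∫ t in (T / 2)..T, H t v ≤ ∫ _v in (0 : ℝ)..h, M :=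
          intervalIntegral.integral_mono_on hh0.le (hcv.intervalIntegrable _ _)
            (continuous_const.intervalIntegrable _ _) hinner
      _ = h * M := by rw [intervalIntegral.integral_const, sub_zero, smul_eq_mul]
  calc _ ≤ ∫ t in (T / 2)..T, h * ∫ v in (0 : ℝ)..h, H t v := hstep1
    _ = h * ∫ v in (0 : ℝ)..h, ∫ t in (T / 2)..T, H t v := by
        rw [intervalIntegral.integral_const_mul, hswap]
    _ ≤ h * (h * M) := mul_le_mul_of_nonneg_left hfin hh0.le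
    _ = (c⁻¹) ^ 2 * C * h ^ 2 * T * (Real.log T) ^ (1 / 4 : ℝ) := by rw [hM]; ring

end Pool.Agent.H28.ZT
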