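import Pool.Agent.H28.ZT.KFamI
import Pool.Agent.H28.ZT.KInt

/-!
# M3 (chapter M): second moment of the window integral of `F |B|²`

The square of `∫_0^h fr(t+v) ‖B(t+v)‖² dv` is a double integral over `v, v'`; Fubini (continuous integrand, bounded by
`C e^(-k|t|)`: FDEC, `BB_le`), KINT `kI`, `K_I`, `∫_0^h ∫_0^h (1 + |v-v'| L)^(-1/2) ≤ 2h ∫_0^h (1 + δL)^(-1/2) dδ
≤ (4h/L) √(1 + hL)`.
-/

set_option autoImplicit false

namespace Pool.Agent.H28.ZT

open Complex MeasureTheory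

private theorem m3_alg (a a' b b' c : ℝ) :
    a * a' * b ^ 2 * b' ^ 2 * c ^ 2 = (a * b ^ 2) * (a' * b' ^ 2) * c ^ 2 := by ring

/-- the one dimensional integral of the kernel -/
private theorem ker_one {L h v : ℝ} (hL : 0 < L) (h0 : 0 ≤ v) (h1 : v ≤ h) :
    ∫ u in (0 : ℝ)..h, (1 + |v - u| * L) ^ (-(1 / 2) : ℝ) ≤ 4 / L * Real.sqrt (1 + h * L) := by
  have hc : Continuous (fun u : ℝ => (1 + |v - u| * L) ^ (-(1 / 2) : ℝ)) := by
    refine Continuous.rpow_const (by fun_prop) fun u => Or.inl ?_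
    have : 0 ≤ |v - u| * L := by positivity
    linarith
  rw [← intervalIntegral.integral_add_adjacent_intervals (hc.intervalIntegrable 0 v)
    (hc.intervalIntegrable v h)]
  have e1 : ∫ u in (0 : ℝ)..v, (1 + |v - u| * L) ^ (-(1 / 2) : ℝ) =
      ∫ u in (0 : ℝ)..v, (1 + (v - u) * L) ^ (-(1 / 2) : ℝ) := by
    refine intervalIntegral.integral_congr fun u hu => ?_
    rw [Set.uIcc_of_le h0] at hu
    show (1 + |v - u| * L) ^ (-(1 / 2) : ℝ) = (1 + (v - u) * L) ^ (-(1 / 2) : ℝ)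
    rw [abs_of_nonneg (by linarith [hu.2])]
  have e2 : ∫ u in v..h, (1 + |v - u| * L) ^ (-(1 / 2) : ℝ) =
      ∫ u in v..h, (1 + (u - v) * L) ^ (-(1 / 2) : ℝ) := by
    refine intervalIntegral.integral_congr fun u hu => ?_
    rw [Set.uIcc_of_le h1] at hu
    show (1 + |v - u| * L) ^ (-(1 / 2) : ℝ) = (1 + (u - v) * L) ^ (-(1 / 2) : ℝ)
    rw [abs_of_nonpos (by linarith [hu.1]), neg_sub]
  have i1 : ∫ u in (0 : ℝ)..v, (1 + (v - u) * L) ^ (-(1 / 2) : ℝ) =
      -(2 / L * (1 + (v - v) * L) ^ (1 / 2 : ℝ)) - -(2 / L * (1 + (v - 0) * L) ^ (1 / 2 : ℝ)) := by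
    refine intervalIntegral.integral_eq_sub_of_hasDerivAt
      (f := fun u => -(2 / L * (1 + (v - u) * L) ^ (1 / 2 : ℝ))) ?_ ?_
    · intro u hu
      rw [Set.uIcc_of_le h0] at hu
      have hpos : 0 < 1 + (v - u) * L := by
        have : 0 ≤ (v - u) * L := mul_nonneg (by linarith [hu.2]) hL.le
        linarith
      have hd : HasDerivAt (fun u : ℝ => 1 + (v - u) * L) (-1 * L) u := by
        have := (((hasDerivAt_id u).const_sub v).mul_const L).const_add 1
        simpa using this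
      have hd2 := ((hd.rpow_const (p := (1 / 2 : ℝ)) (Or.inl hpos.ne')).const_mul (2 / L)).neg
      refine hd2.congr_deriv ?_
      rw [show (1 / 2 : ℝ) - 1 = -(1 / 2) by norm_num]
      field_simp
    · refine ContinuousOn.intervalIntegrable ?_
      refine ContinuousOn.rpow_const (by fun_prop) fun u hu => Or.inl ?_
      rw [Set.uIcc_of_le h0] at hu
      have : 0 ≤ (v - u) * L := mul_nonneg (by linarith [hu.2]) hL.le
      linarith
  have i2 : ∫ u in v..h, (1 + (u - v) * L) ^ (-(1 / 2) : ℝ) =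
      (2 / L * (1 + (h - v) * L) ^ (1 / 2 : ℝ)) - (2 / L * (1 + (v - v) * L) ^ (1 / 2 : ℝ)) := by
    refine intervalIntegral.integral_eq_sub_of_hasDerivAt
      (f := fun u => (2 / L * (1 + (u - v) * L) ^ (1 / 2 : ℝ))) ?_ ?_
    · intro u hu
      rw [Set.uIcc_of_le h1] at hu
      have hpos : 0 < 1 + (u - v) * L := by
        have : 0 ≤ (u - v) * L := mul_nonneg (by linarith [hu.1]) hL.le
        linarith
      have hd : HasDerivAt (fun u : ℝ => 1 + (u - v) * L) (1 * L) u := by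
        have := (((hasDerivAt_id u).sub_const v).mul_const L).const_add 1
        simpa using this
      have hd2 := ((hd.rpow_const (p := (1 / 2 : ℝ)) (Or.inl hpos.ne')).const_mul (2 / L))
      refine hd2.congr_deriv ?_
      rw [show (1 / 2 : ℝ) - 1 = -(1 / 2) by norm_num]
      field_simp
    · refine ContinuousOn.intervalIntegrable ?_
      refine ContinuousOn.rpow_const (by fun_prop) fun u hu => Or.inl ?_
      rw [Set.uIcc_of_le h1] at hu
      have : 0 ≤ (u - v) * L := mul_nonneg (by linarith [hu.1]) hL.le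
      linarith
  rw [e1, e2, i1, i2, Real.sqrt_eq_rpow]
  have m1 : (1 + (v - 0) * L) ^ (1 / 2 : ℝ) ≤ (1 + h * L) ^ (1 / 2 : ℝ) := by
    refine Real.rpow_le_rpow ?_ ?_ (by norm_num)
    · have : 0 ≤ (v - 0) * L := mul_nonneg (by linarith) hL.le
      linarith
    · have : (v - 0) * L ≤ h * L := mul_le_mul_of_nonneg_right (by linarith) hL.le
      linarith
  have m2 : (1 + (h - v) * L) ^ (1 / 2 : ℝ) ≤ (1 + h * L) ^ (1 / 2 : ℝ) := by
    refine Real.rpow_le_rpow ?_ ?_ (by norm_num)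
    · have : 0 ≤ (h - v) * L := mul_nonneg (by linarith) hL.le
      linarith
    · have : (h - v) * L ≤ h * L := mul_le_mul_of_nonneg_right (by linarith) hL.le
      linarith
  have m3 : 0 ≤ (1 + (v - v) * L) ^ (1 / 2 : ℝ) := by
    rw [sub_self, zero_mul, add_zero, Real.one_rpow]
    norm_num
  have hL2 : 0 < 2 / L := by positivity
  have n1 := mul_le_mul_of_nonneg_left m1 hL2.le
  have n2 := mul_le_mul_of_nonneg_left m2 hL2.le
  have n3 := mul_nonneg hL2.le m3
  have n4 : 4 / L * (1 + h * L) ^ (1 / 2 : ℝ) = 2 / L * (1 + h * L) ^ (1 / 2 : ℝ) +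
      2 / L * (1 + h * L) ^ (1 / 2 : ℝ) := by ring
  rw [n4]
  linarith

/-- The abstract form of the argument. -/
private theorem m3_abs {g b : ℝ → ℝ} (hg : Continuous g) (hb : Continuous b) {C1 k D : ℝ}
    (hk : 0 < k) (hC1 : 0 ≤ C1) (hgb : ∀ u, |g u| ≤ C1 * Real.exp (-(k * |u|)))
    (hD : ∀ t, |b t| ≤ D) {h L Q : ℝ} (hh : 0 < h) (hh1 : h ≤ 1) (hL : 0 < L) (hQ : 0 ≤ Q)
    (hI : ∀ v v' : ℝ, 0 ≤ v → v ≤ 1 → 0 ≤ v' → v' ≤ 1 →
      ∫ t, g (t + v) * g (t + v') * b t ≤ Q * (1 + |v - v'| * L) ^ (-(1 / 2) : ℝ)) :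
    Integrable (fun t : ℝ => (∫ v in (0 : ℝ)..h, g (t + v)) ^ 2 * b t) ∧
    ∫ t : ℝ, (∫ v in (0 : ℝ)..h, g (t + v)) ^ 2 * b t ≤ Q * (h * (4 / L * Real.sqrt (1 + h * L))) := by
  set μ : Measure ℝ := volume.restrict (Set.Ioc 0 h) with hμ
  have : IsFiniteMeasure μ := ⟨by
    rw [hμ, Measure.restrict_apply_univ, Real.volume_Ioc]
    exact ENNReal.ofReal_lt_top⟩
  set F : ℝ → ℝ × ℝ → ℝ := fun t z => g (t + z.1) * g (t + z.2) * b t with hF
  have hFc : Continuous (Function.uncurry F) := by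
    have c1 : Continuous (fun x : ℝ × (ℝ × ℝ) => g (x.1 + x.2.1)) := by fun_prop
    have c2 : Continuous (fun x : ℝ × (ℝ × ℝ) => g (x.1 + x.2.2)) := by fun_prop
    have c3 : Continuous (fun x : ℝ × (ℝ × ℝ) => b x.1) := by fun_prop
    exact (c1.mul c2).mul c3
  have hsq : ∀ t, (∫ v in (0 : ℝ)..h, g (t + v)) ^ 2 * b t = ∫ z, F t z ∂(μ.prod μ) := by
    intro t
    rw [intervalIntegral.integral_of_le hh.le, sq,
      ← integral_prod_mul (μ := μ) (ν := μ) (fun v => g (t + v)) (fun v => g (t + v)),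
      ← integral_mul_const]
  have hD0 : 0 ≤ D := (abs_nonneg _).trans (hD 0)
  -- almost everywhere membership
  have hae : ∀ᵐ z ∂(μ.prod μ), z.1 ∈ Set.Ioc 0 h ∧ z.2 ∈ Set.Ioc 0 h := by
    rw [hμ, Measure.prod_restrict]
    have := ae_restrict_mem (μ := (volume : Measure ℝ).prod (volume : Measure ℝ))
      (measurableSet_Ioc.prod measurableSet_Ioc : MeasurableSet (Set.Ioc 0 h ×ˢ Set.Ioc 0 h))
    exact this
  have hexp : Integrable (fun t : ℝ => Real.exp (-(k * |t|))) := by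
    rw [← integrableOn_univ, ← Set.Iic_union_Ioi (a := (0 : ℝ)), integrableOn_union]
    constructor
    · have h1 := integrableOn_exp_mul_Iic hk 0
      refine h1.congr_fun (fun t ht => ?_) measurableSet_Iic
      have ht0 : t ≤ 0 := ht
      show Real.exp (k * t) = Real.exp (-(k * |t|))
      rw [abs_of_nonpos ht0]
      congr 1
      ring
    · have h1 := exp_neg_integrableOn_Ioi 0 hk
      refine h1.congr_fun (fun t ht => ?_) measurableSet_Ioi
      have ht0 : 0 < t := ht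
      show Real.exp (-k * t) = Real.exp (-(k * |t|))
      rw [abs_of_pos ht0]
      congr 1
      ring
  have hint : Integrable (Function.uncurry F) ((volume : Measure ℝ).prod (μ.prod μ)) := by
    have hmaj : Integrable (fun x : ℝ × (ℝ × ℝ) =>
        (C1 ^ 2 * Real.exp k * D * Real.exp (-(k * |x.1|))) * 1)
        ((volume : Measure ℝ).prod (μ.prod μ)) :=
      Integrable.mul_prod (hexp.const_mul _) (integrable_const (1 : ℝ))
    refine hmaj.mono' hFc.aestronglyMeasurable ?_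
    have hae2 : ∀ᵐ x ∂((volume : Measure ℝ).prod (μ.prod μ)), x.2.1 ∈ Set.Ioc 0 h ∧
        x.2.2 ∈ Set.Ioc 0 h := by
      exact Measure.quasiMeasurePreserving_snd.ae hae
    filter_upwards [hae2] with x hx
    obtain ⟨t, v, v'⟩ := x
    simp only at hx
    obtain ⟨hv, hv'⟩ := hx
    show ‖g (t + v) * g (t + v') * b t‖ ≤ _
    rw [norm_mul, norm_mul, Real.norm_eq_abs, Real.norm_eq_abs, Real.norm_eq_abs]
    have b1 : |g (t + v)| ≤ C1 * (Real.exp k * Real.exp (-(k * |t|))) := by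
      refine (hgb _).trans (mul_le_mul_of_nonneg_left ?_ hC1)
      rw [← Real.exp_add]
      refine Real.exp_le_exp.mpr ?_
      have h1 : |t| ≤ |t + v| + 1 := by
        calc |t| = |(t + v) - v| := by congr 1; ring
          _ ≤ |t + v| + |v| := abs_sub _ _
          _ ≤ |t + v| + 1 := by
              have : |v| ≤ 1 := by
                rw [abs_of_pos hv.1]
                linarith [hv.2]
              linarith
      nlinarith
    have b2 : |g (t + v')| ≤ C1 := by
      refine (hgb _).trans ?_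
      have : Real.exp (-(k * |t + v'|)) ≤ 1 := by
        rw [Real.exp_le_one_iff]
        have : 0 ≤ k * |t + v'| := by positivity
        linarith
      calc C1 * Real.exp (-(k * |t + v'|)) ≤ C1 * 1 := mul_le_mul_of_nonneg_left this hC1
        _ = C1 := mul_one _
    calc |g (t + v)| * |g (t + v')| * |b t|
        ≤ (C1 * (Real.exp k * Real.exp (-(k * |t|)))) * C1 * D := by
          have := hD t
          gcongr
      _ = C1 ^ 2 * Real.exp k * D * Real.exp (-(k * |t|)) * 1 := by ring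
  constructor
  · have h1 := hint.integral_prod_left
    refine h1.congr (Filter.Eventually.of_forall fun t => ?_)
    simp only
    rw [hsq t]
    rfl
  · have h1 : ∫ t : ℝ, (∫ v in (0 : ℝ)..h, g (t + v)) ^ 2 * b t =
        ∫ z, (∫ t, F t z) ∂(μ.prod μ) := by
      rw [← integral_integral_swap hint]
      exact integral_congr_ae (Filter.Eventually.of_forall fun t => hsq t)
    rw [h1]
    have hφc : Continuous (fun z : ℝ × ℝ => (1 + |z.1 - z.2| * L) ^ (-(1 / 2) : ℝ)) := by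
      refine Continuous.rpow_const (by fun_prop) fun z => Or.inl ?_
      have : 0 ≤ |z.1 - z.2| * L := by positivity
      linarith
    have hφi : Integrable (fun z : ℝ × ℝ => (1 + |z.1 - z.2| * L) ^ (-(1 / 2) : ℝ)) (μ.prod μ) := by
      refine (integrable_const (1 : ℝ)).mono' hφc.aestronglyMeasurable
        (Filter.Eventually.of_forall fun z => ?_)
      have h2 : 1 ≤ 1 + |z.1 - z.2| * L := by
        have : 0 ≤ |z.1 - z.2| * L := by positivity
        linarith
      rw [Real.norm_of_nonneg (Real.rpow_nonneg (by linarith) _)]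
      exact Real.rpow_le_one_of_one_le_of_nonpos h2 (by norm_num)
    calc ∫ z, (∫ t, F t z) ∂(μ.prod μ)
        ≤ ∫ z, Q * (1 + |z.1 - z.2| * L) ^ (-(1 / 2) : ℝ) ∂(μ.prod μ) := by
          refine integral_mono_ae hint.integral_prod_right (hφi.const_mul Q) ?_
          filter_upwards [hae] with z hz
          exact hI z.1 z.2 hz.1.1.le (hz.1.2.trans hh1) hz.2.1.le (hz.2.2.trans hh1)
      _ = Q * ∫ z, (1 + |z.1 - z.2| * L) ^ (-(1 / 2) : ℝ) ∂(μ.prod μ) := integral_const_mul _ _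
      _ ≤ Q * (h * (4 / L * Real.sqrt (1 + h * L))) := by
          refine mul_le_mul_of_nonneg_left ?_ hQ
          rw [integral_prod _ hφi]
          calc ∫ v, ∫ u, (1 + |v - u| * L) ^ (-(1 / 2) : ℝ) ∂μ ∂μ
              ≤ ∫ _v, 4 / L * Real.sqrt (1 + h * L) ∂μ := by
                refine integral_mono_ae hφi.integral_prod_left (integrable_const _) ?_
                rw [hμ]
                filter_upwards [ae_restrict_mem measurableSet_Ioc] with v hv
                rw [← intervalIntegral.integral_of_le hh.le]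
                exact ker_one hL hv.1.le hv.2
            _ = h * (4 / L * Real.sqrt (1 + h * L)) := by
                rw [integral_const, smul_eq_mul, hμ, Measure.real, Measure.restrict_apply_univ,
                  Real.volume_Ioc, sub_zero, ENNReal.toReal_ofReal hh.le]

theorem M3 : ∃ K : ℝ, 0 < K ∧ ∀ kap : ℝ, 0 < kap → kap ≤ 1 / 8 → ∃ C T0 : ℝ, 0 < C ∧ Real.exp 40 ≤ T0 ∧
    ∀ (T : ℝ) (J : ℕ) (P : ℕ → Finset ℕ) (V : ℕ → ℕ), T0 ≤ T → Blk K kap T J P V →
    ∀ h : ℝ, 0 < h → h ≤ 1 →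
      Integrable (fun t : ℝ => (∫ v in (0 : ℝ)..h, fr (1 / T) (t + v) * ‖BB (AA J P V) (t + v)‖ ^ 2) ^ 2 *
        ‖BB (AA J P V) t‖ ^ 2) ∧
      ∫ t : ℝ, (∫ v in (0 : ℝ)..h, fr (1 / T) (t + v) * ‖BB (AA J P V) (t + v)‖ ^ 2) ^ 2 *
        ‖BB (AA J P V) t‖ ^ 2 ≤
        C * (h / Real.log T) * Real.sqrt T * (Real.log T) ^ (1 / 4 : ℝ) * Real.sqrt (1 + h * Real.log T) := by
  obtain ⟨K, hK, hKI⟩ := K_I
  refine ⟨K, hK, ?_⟩
  intro kap hk0 hk1
  obtain ⟨C, T0, hC, hT0, hmain⟩ := hKI kap hk0 hk1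
  refine ⟨4 * C, T0, by positivity, hT0, ?_⟩
  intro T J P V hT hB h hh0 hh1
  have hT41 : (41 : ℝ) ≤ T := by
    have h1 : (40 : ℝ) + 1 ≤ Real.exp 40 := Real.add_one_le_exp 40
    linarith
  have hT2 : 2 ≤ T := by linarith
  have hTpos : 0 < T := by linarith
  have hprime : ∀ S ∈ AA J P V, ∀ p ∈ S, p.Prime := fun S hS => AA_prime hB hS
  have hmain' := hmain T J P V hT hB
  generalize AA J P V = A at hprime hmain' ⊢
  have hd0 : 0 < 1 / T := by positivity
  have hd1 : 1 / T ≤ 1 / 2 := one_div_le_one_div_of_le (by norm_num) hT2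
  have hBc := BB_cont A
  have hL : 0 < Real.log T := Real.log_pos (by linarith)
  have hfc : Continuous (fr (1 / T)) := (fr_smooth hd0 hd1).continuous
  obtain ⟨C0, k, hC0, hk, hdec⟩ := F_decay hd0 hd1
  have hBle := BB_le A hprime
  obtain ⟨g, hgd⟩ : ∃ g : ℝ → ℝ, ∀ u, g u = fr (1 / T) u * ‖BB A u‖ ^ 2 := ⟨_, fun _ => rfl⟩
  obtain ⟨b, hbd⟩ : ∃ b : ℝ → ℝ, ∀ u, b u = ‖BB A u‖ ^ 2 := ⟨_, fun _ => rfl⟩
  have hgc : Continuous g := by
    have : g = fun u => fr (1 / T) u * ‖BB A u‖ ^ 2 := funext hgd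
    rw [this]
    exact hfc.mul (hBc.norm.pow 2)
  have hbc : Continuous b := by
    have : b = fun u => ‖BB A u‖ ^ 2 := funext hbd
    rw [this]
    exact hBc.norm.pow 2
  have hB2 : ∀ u, ‖BB A u‖ ^ 2 ≤ (A.card : ℝ) ^ 2 := fun u =>
    pow_le_pow_left₀ (norm_nonneg _) (hBle u) 2
  have hgb : ∀ u, |g u| ≤ (C0 * (A.card : ℝ) ^ 2) * Real.exp (-(k * |u|)) := by
    intro u
    rw [hgd, abs_mul, abs_of_nonneg (by positivity : (0 : ℝ) ≤ ‖BB A u‖ ^ 2)]
    have h1 : |fr (1 / T) u| ≤ C0 * Real.exp (-(k * |u|)) := by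
      have h2 := hdec (u : ℂ) (by rw [Complex.ofReal_im, abs_zero]; norm_num)
      rw [← fr_eq hd0 hd1, Complex.norm_real, Complex.ofReal_re] at h2
      exact h2
    calc |fr (1 / T) u| * ‖BB A u‖ ^ 2 ≤ (C0 * Real.exp (-(k * |u|))) * (A.card : ℝ) ^ 2 :=
          mul_le_mul h1 (hB2 u) (by positivity) (by positivity)
      _ = _ := by ring
  have hbD : ∀ t, |b t| ≤ (A.card : ℝ) ^ 2 := by
    intro t
    rw [hbd, abs_of_nonneg (by positivity)]
    exact hB2 t
  have hI : ∀ v v' : ℝ, 0 ≤ v → v ≤ 1 → 0 ≤ v' → v' ≤ 1 →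
      ∫ t, g (t + v) * g (t + v') * b t ≤
        (C * Real.sqrt T * (Real.log T) ^ (1 / 4 : ℝ)) * (1 + |v - v'| * Real.log T) ^ (-(1 / 2) : ℝ) := by
    intro v v' h1 h2 h3 h4
    have h5 := hmain' v v' h1 h2 h3 h4
    rw [(kI hT2 A hprime v v').2, Complex.norm_real] at h5
    have h6 : ∫ t, g (t + v) * g (t + v') * b t = ∫ t : ℝ, fr (1 / T) (t + v) * fr (1 / T) (t + v') *
        ‖BB A (t + v)‖ ^ 2 * ‖BB A (t + v')‖ ^ 2 * ‖BB A t‖ ^ 2 := by
      refine integral_congr_ae (Filter.Eventually.of_forall fun t => ?_)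
      simp only
      rw [hgd, hgd, hbd]
      exact (m3_alg _ _ _ _ _).symm
    rw [h6]
    exact (le_abs_self _).trans h5
  have hres := m3_abs hgc hbc hk (by positivity) hgb hbD hh0 hh1 hL (by positivity) hI
  have hge : ∀ t, (∫ v in (0 : ℝ)..h, fr (1 / T) (t + v) * ‖BB A (t + v)‖ ^ 2) ^ 2 * ‖BB A t‖ ^ 2 =
      (∫ v in (0 : ℝ)..h, g (t + v)) ^ 2 * b t := by
    intro t
    rw [hbd]
    congr 2
    exact intervalIntegral.integral_congr fun v _ => (hgd (t + v)).symm
  constructor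
  · exact hres.1.congr (Filter.Eventually.of_forall fun t => (hge t).symm)
  · rw [integral_congr_ae (Filter.Eventually.of_forall hge)]
    refine hres.2.trans (le_of_eq ?_)
    ring

end Pool.Agent.H28.ZT
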