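import Pool.Agent.H28.ZT.KFamJ
import Pool.Agent.H28.ZT.KInt

/-!
# M4 (chapter M): the moments of the derivatives, family II

`A = AA J P V`, `w = v + iη`: `KK (1/T) w w (s3 A) (a3 0) c3 = ∫ ‖FF (t + w)‖² ‖B t‖^6 dt` (KINT, `kII`).
FCAU with `r = 1/L` (`≤ 1/40`), Tonelli over `θ`, `v + r e^(iθ) = (v + r cos θ) + i r sin θ`, `|v + r cos θ| ≤ 1/2`, `K_II`:
`(1 + |v + r cos θ| L)³ ≤ (2 + |v| L)³`; first derivative: factor `1/r² = L²`; second: `4/r⁴ = 4 L⁴`.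
-/

set_option autoImplicit false

namespace Pool.Agent.H28.ZT

open Complex MeasureTheory

private theorem m4_core {T : ℝ} (hT : 2 ≤ T) (A : Finset (Finset ℕ)) (hA : ∀ S ∈ A, ∀ p ∈ S, p.Prime)
    (v r M c : ℝ) (hr : 0 < r) (hr4 : r ≤ 1 / 4) (hc : 0 ≤ c) (φ : ℝ → ℝ) (hφ : Continuous φ)
    (hb : ∀ t : ℝ, φ t ^ 2 ≤ c *
      ∫ θ in (0 : ℝ)..(2 * Real.pi), ‖FF (1 / T) ((t : ℂ) + (r : ℂ) * Complex.exp (I * (θ : ℂ)))‖ ^ 2)
    (hM : ∀ θ : ℝ, ∫ t : ℝ, ‖FF (1 / T) ((t : ℂ) + ((v : ℂ) + (r : ℂ) * Complex.exp (I * (θ : ℂ))))‖ ^ 2 *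
      ‖BB A t‖ ^ 6 ≤ M) :
    Integrable (fun t : ℝ => φ (t + v) ^ 2 * ‖BB A t‖ ^ 6) ∧
      ∫ t : ℝ, φ (t + v) ^ 2 * ‖BB A t‖ ^ 6 ≤ c * (2 * Real.pi * M) := by
  have hTpos : 0 < T := by linarith
  have hd0 : 0 < 1 / T := by positivity
  have hd1 : 1 / T ≤ 1 / 2 := one_div_le_one_div_of_le (by norm_num) hT
  set d : ℝ := 1 / T with hd
  set g : ℝ → ℝ → ℝ := fun t θ => ‖FF d ((t : ℂ) + ((v : ℂ) + (r : ℂ) * Complex.exp (I * (θ : ℂ))))‖ ^ 2 *
    ‖BB A t‖ ^ 6 with hg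
  have him : ∀ t θ : ℝ, |((t : ℂ) + ((v : ℂ) + (r : ℂ) * Complex.exp (I * (θ : ℂ)))).im| ≤ 1 / 4 := by
    intro t θ
    have e : ((t : ℂ) + ((v : ℂ) + (r : ℂ) * Complex.exp (I * (θ : ℂ)))).im = r * Real.sin θ := by
      rw [mul_comm I, Complex.exp_mul_I, ← Complex.ofReal_cos, ← Complex.ofReal_sin]
      simp only [Complex.add_im, Complex.mul_im, Complex.ofReal_im, Complex.ofReal_re, Complex.I_re,
        Complex.I_im, Complex.add_re, Complex.mul_re]
      ring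
    rw [e, abs_mul, abs_of_pos hr]
    have := Real.abs_sin_le_one θ
    nlinarith
  have hre : ∀ t θ : ℝ, ((t : ℂ) + ((v : ℂ) + (r : ℂ) * Complex.exp (I * (θ : ℂ)))).re =
      t + (v + r * Real.cos θ) := by
    intro t θ
    rw [mul_comm I, Complex.exp_mul_I, ← Complex.ofReal_cos, ← Complex.ofReal_sin]
    simp only [Complex.add_im, Complex.mul_im, Complex.ofReal_im, Complex.ofReal_re, Complex.I_re,
      Complex.I_im, Complex.add_re, Complex.mul_re]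
    ring
  have hcont : Continuous (Function.uncurry g) := by
    have h1 : Continuous fun q : ℝ × ℝ => FF d ((q.1 : ℂ) + ((v : ℂ) + (r : ℂ) * Complex.exp (I * (q.2 : ℂ)))) := by
      have h2 : Continuous fun q : ℝ × ℝ => (q.1 : ℂ) + ((v : ℂ) + (r : ℂ) * Complex.exp (I * (q.2 : ℂ))) := by
        fun_prop
      refine (F_diff d).continuousOn.comp_continuous h2 fun q => ?_
      have h3 := him q.1 q.2
      have h4 : |((q.1 : ℂ) + ((v : ℂ) + (r : ℂ) * Complex.exp (I * (q.2 : ℂ)))).im| < 1 / 2 := by linarith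
      exact h4
    exact (h1.norm.pow 2).mul (((BB_cont A).comp continuous_fst).norm.pow 6)
  obtain ⟨C, k, hC, hk, hdec⟩ := F_decay hd0 hd1
  set B : ℝ := (A.card : ℝ) with hB
  have hB0 : 0 ≤ B := Nat.cast_nonneg _
  have hbound : ∀ t θ : ℝ, ‖g t θ‖ ≤ (C ^ 2 * Real.exp (2 * k * (|v| + r)) * B ^ 6) * Real.exp (-(2 * k) * |t|) := by
    intro t θ
    have h1 := hdec _ (him t θ)
    rw [hre] at h1
    have h2 : |t| - (|v| + r) ≤ |t + (v + r * Real.cos θ)| := by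
      have h3 : |v + r * Real.cos θ| ≤ |v| + r := by
        calc |v + r * Real.cos θ| ≤ |v| + |r * Real.cos θ| := abs_add_le _ _
          _ ≤ |v| + r := by
              rw [abs_mul, abs_of_pos hr]
              have := Real.abs_cos_le_one θ
              nlinarith
      have h4 : |t| ≤ |t + (v + r * Real.cos θ)| + |v + r * Real.cos θ| := by
        calc |t| = |(t + (v + r * Real.cos θ)) - (v + r * Real.cos θ)| := by congr 1; ring
          _ ≤ _ := abs_sub _ _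
      linarith
    have h5 : Real.exp (-(k * |t + (v + r * Real.cos θ)|)) ≤ Real.exp (-(k * (|t| - (|v| + r)))) := by
      apply Real.exp_le_exp.2
      nlinarith
    have h6 : ‖FF d ((t : ℂ) + ((v : ℂ) + (r : ℂ) * Complex.exp (I * (θ : ℂ))))‖ ≤
        C * Real.exp (-(k * (|t| - (|v| + r)))) := h1.trans (mul_le_mul_of_nonneg_left h5 hC.le)
    have h7 : ‖BB A t‖ ≤ B := BB_le A hA t
    rw [hg, Real.norm_eq_abs, abs_of_nonneg (by positivity)]
    calc ‖FF d ((t : ℂ) + ((v : ℂ) + (r : ℂ) * Complex.exp (I * (θ : ℂ))))‖ ^ 2 * ‖BB A t‖ ^ 6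
        ≤ (C * Real.exp (-(k * (|t| - (|v| + r))))) ^ 2 * B ^ 6 := by gcongr
      _ = (C ^ 2 * Real.exp (2 * k * (|v| + r)) * B ^ 6) * Real.exp (-(2 * k) * |t|) := by
          rw [mul_pow, ← Real.exp_nat_mul]
          have e : ((2 : ℕ) : ℝ) * -(k * (|t| - (|v| + r))) = 2 * k * (|v| + r) + -(2 * k) * |t| := by
            push_cast
            ring
          rw [e, Real.exp_add]
          ring
  have hexpint : Integrable fun t : ℝ => Real.exp (-(2 * k) * |t|) := by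
    have hk2 : 0 < 2 * k := by positivity
    have h1 : IntegrableOn (fun t : ℝ => Real.exp (-(2 * k) * |t|)) (Set.Ioi 0) := by
      refine (exp_neg_integrableOn_Ioi 0 hk2).congr_fun (fun t ht => ?_) measurableSet_Ioi
      rw [abs_of_pos ht]
    have h2 : IntegrableOn (fun t : ℝ => Real.exp (-(2 * k) * |t|)) (Set.Iic 0) := by
      refine (integrableOn_exp_mul_Iic hk2 0).congr_fun (fun t ht => ?_) measurableSet_Iic
      have ht0 : t ≤ 0 := ht
      show Real.exp (2 * k * t) = Real.exp (-(2 * k) * |t|)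
      rw [abs_of_nonpos ht0]
      congr 1
      ring
    rw [← integrableOn_univ, ← Set.Iic_union_Ioi (a := (0 : ℝ))]
    exact h2.union h1
  have hmaj : Integrable fun t : ℝ => (C ^ 2 * Real.exp (2 * k * (|v| + r)) * B ^ 6) * Real.exp (-(2 * k) * |t|) :=
    hexpint.const_mul _
  set ν : Measure ℝ := volume.restrict (Set.Ioc 0 (2 * Real.pi)) with hν
  have hprod : Integrable (Function.uncurry g) (volume.prod ν) := by
    refine Integrable.mono' (hmaj.comp_fst ν) hcont.aestronglyMeasurable (Filter.Eventually.of_forall fun q => ?_)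
    exact hbound q.1 q.2
  have hinner : Integrable fun t : ℝ => ∫ θ, g t θ ∂ν := hprod.integral_prod_left
  have hpi : 0 ≤ 2 * Real.pi := by positivity
  have hint_eq : ∀ t : ℝ, ∫ θ, g t θ ∂ν = (∫ θ in (0 : ℝ)..(2 * Real.pi),
      ‖FF d (((t + v : ℝ) : ℂ) + (r : ℂ) * Complex.exp (I * (θ : ℂ)))‖ ^ 2) * ‖BB A t‖ ^ 6 := by
    intro t
    rw [hν, ← intervalIntegral.integral_of_le hpi, ← intervalIntegral.integral_mul_const]
    refine intervalIntegral.integral_congr fun θ _ => ?_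
    show ‖FF d ((t : ℂ) + ((v : ℂ) + (r : ℂ) * Complex.exp (I * (θ : ℂ))))‖ ^ 2 * ‖BB A t‖ ^ 6 =
      ‖FF d (((t + v : ℝ) : ℂ) + (r : ℂ) * Complex.exp (I * (θ : ℂ)))‖ ^ 2 * ‖BB A t‖ ^ 6
    have e : (t : ℂ) + ((v : ℂ) + (r : ℂ) * Complex.exp (I * (θ : ℂ))) =
        ((t + v : ℝ) : ℂ) + (r : ℂ) * Complex.exp (I * (θ : ℂ)) := by
      push_cast
      ring
    rw [e]
  have hle : ∀ t : ℝ, φ (t + v) ^ 2 * ‖BB A t‖ ^ 6 ≤ c * ∫ θ, g t θ ∂ν := by
    intro t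
    rw [hint_eq, ← mul_assoc]
    exact mul_le_mul_of_nonneg_right (hb (t + v)) (by positivity)
  have hI : Integrable fun t : ℝ => φ (t + v) ^ 2 * ‖BB A t‖ ^ 6 := by
    refine Integrable.mono' (hinner.const_mul c) ?_ (Filter.Eventually.of_forall fun t => ?_)
    · exact (((hφ.comp (continuous_id.add continuous_const)).pow 2).mul
        ((BB_cont A).norm.pow 6)).aestronglyMeasurable
    · rw [Real.norm_eq_abs, abs_of_nonneg (by positivity)]
      exact hle t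
  refine ⟨hI, ?_⟩
  calc ∫ t : ℝ, φ (t + v) ^ 2 * ‖BB A t‖ ^ 6 ≤ ∫ t : ℝ, c * ∫ θ, g t θ ∂ν :=
        integral_mono hI (hinner.const_mul c) hle
    _ = c * ∫ t : ℝ, (∫ θ, g t θ ∂ν) := integral_const_mul _ _
    _ = c * ∫ θ, (∫ t : ℝ, g t θ) ∂ν := by rw [integral_integral_swap hprod]
    _ ≤ c * ∫ _ : ℝ, M ∂ν := by
        apply mul_le_mul_of_nonneg_left _ hc
        exact integral_mono hprod.integral_prod_right (integrable_const M) (fun θ => hM θ)
    _ = c * (2 * Real.pi * M) := by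
        rw [integral_const, hν]
        simp [Measure.real, Real.volume_Ioc, Real.pi_pos.le]

theorem M4 : ∃ K : ℝ, 0 < K ∧ ∀ kap : ℝ, 0 < kap → kap ≤ 1 / 8 → ∃ C T0 : ℝ, 0 < C ∧ Real.exp 40 ≤ T0 ∧
    ∀ (T : ℝ) (J : ℕ) (P : ℕ → Finset ℕ) (V : ℕ → ℕ), T0 ≤ T → Blk K kap T J P V →
    ∀ v : ℝ, |v| ≤ 1 / 4 →
      Integrable (fun t : ℝ => deriv (fr (1 / T)) (t + v) ^ 2 * ‖BB (AA J P V) t‖ ^ 6) ∧
      Integrable (fun t : ℝ => deriv (deriv (fr (1 / T))) (t + v) ^ 2 * ‖BB (AA J P V) t‖ ^ 6) ∧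
      ∫ t : ℝ, deriv (fr (1 / T)) (t + v) ^ 2 * ‖BB (AA J P V) t‖ ^ 6 ≤
        C * Real.sqrt T * (Real.log T) ^ 2 * (Real.log T) ^ (1 / 4 : ℝ) * (2 + |v| * Real.log T) ^ 3 ∧
      ∫ t : ℝ, deriv (deriv (fr (1 / T))) (t + v) ^ 2 * ‖BB (AA J P V) t‖ ^ 6 ≤
        C * Real.sqrt T * (Real.log T) ^ 4 * (Real.log T) ^ (1 / 4 : ℝ) * (2 + |v| * Real.log T) ^ 3 := by
  obtain ⟨K, hK, hk⟩ := K_II
  refine ⟨K, hK, fun kap h0 h8 => ?_⟩
  obtain ⟨C, T1, hC, hT1, hKK⟩ := hk kap h0 h8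
  refine ⟨4 * C, T1, by positivity, hT1, fun T J P V hT hB v hv => ?_⟩
  have hexp : (40 : ℝ) + 1 ≤ Real.exp 40 := Real.add_one_le_exp 40
  have hT40 : Real.exp 40 ≤ T := hT1.trans hT
  have hT2 : (2 : ℝ) ≤ T := by linarith
  have hTpos : 0 < T := by linarith
  have hL40 : 40 ≤ Real.log T := by
    rw [Real.le_log_iff_exp_le hTpos]
    exact hT40
  have hLpos : 0 < Real.log T := by linarith
  have hd0 : 0 < 1 / T := by positivity
  have hd1 : 1 / T ≤ 1 / 2 := one_div_le_one_div_of_le (by norm_num) hT2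
  set L : ℝ := Real.log T with hL
  have hr0 : 0 < 1 / L := by positivity
  have hr40 : 1 / L ≤ 1 / 40 := one_div_le_one_div_of_le (by norm_num) hL40
  have hr4 : 1 / L ≤ 1 / 4 := hr40.trans (by norm_num)
  have hA : ∀ S ∈ AA J P V, ∀ p ∈ S, p.Prime := fun S hS => AA_prime hB hS
  set M : ℝ := C * Real.sqrt T * L ^ (1 / 4 : ℝ) * (2 + |v| * L) ^ 3 with hMdef
  have hM : ∀ θ : ℝ, ∫ t : ℝ, ‖FF (1 / T) ((t : ℂ) + ((v : ℂ) + ((1 / L : ℝ) : ℂ) * Complex.exp (I * (θ : ℂ))))‖ ^ 2 *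
      ‖BB (AA J P V) t‖ ^ 6 ≤ M := by
    intro θ
    have e : (v : ℂ) + ((1 / L : ℝ) : ℂ) * Complex.exp (I * (θ : ℂ)) =
        ((v + 1 / L * Real.cos θ : ℝ) : ℂ) + I * ((1 / L * Real.sin θ : ℝ) : ℂ) := by
      rw [mul_comm I, Complex.exp_mul_I, ← Complex.ofReal_cos, ← Complex.ofReal_sin]
      push_cast
      ring
    have hcos := Real.abs_cos_le_one θ
    have hsin := Real.abs_sin_le_one θ
    have hc1 : |1 / L * Real.cos θ| ≤ 1 / L := by
      rw [abs_mul, abs_of_pos hr0]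
      nlinarith
    have hs1 : |1 / L * Real.sin θ| ≤ 1 / L := by
      rw [abs_mul, abs_of_pos hr0]
      nlinarith
    have hv2 : |v + 1 / L * Real.cos θ| ≤ |v| + 1 / L := (abs_add_le _ _).trans (add_le_add le_rfl hc1)
    have h1 := hKK T J P V hT hB (v + 1 / L * Real.cos θ) (1 / L * Real.sin θ) (by linarith) hs1
    rw [e]
    obtain ⟨h2, h3⟩ := kII hT2 (AA J P V) hA
      (((v + 1 / L * Real.cos θ : ℝ) : ℂ) + I * ((1 / L * Real.sin θ : ℝ) : ℂ)) (by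
        have e2 : (((v + 1 / L * Real.cos θ : ℝ) : ℂ) + I * ((1 / L * Real.sin θ : ℝ) : ℂ)).im =
            1 / L * Real.sin θ := by
          simp only [Complex.add_im, Complex.ofReal_im, Complex.mul_im, Complex.I_re, Complex.I_im,
            Complex.ofReal_re]
          ring
        rw [e2]
        exact hs1.trans hr4)
    rw [h3, Complex.norm_real, Real.norm_eq_abs] at h1
    refine (le_abs_self _).trans (h1.trans ?_)
    rw [hMdef]
    have h4 : 1 + |v + 1 / L * Real.cos θ| * L ≤ 2 + |v| * L := by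
      have h5 : |v + 1 / L * Real.cos θ| * L ≤ (|v| + 1 / L) * L := mul_le_mul_of_nonneg_right hv2 hLpos.le
      have h6 : (|v| + 1 / L) * L = |v| * L + 1 := by
        field_simp
      linarith
    gcongr
  have hsm := fr_smooth hd0 hd1
  have hc1 : Continuous (deriv (fr (1 / T))) := hsm.continuous_deriv (by norm_num)
  have hc2 : Continuous (deriv (deriv (fr (1 / T)))) := by
    have h1 : ContDiff ℝ 2 (deriv (fr (1 / T))) := by
      have h2 : ContDiff ℝ (2 + 1) (fr (1 / T)) := by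
        have e : (2 + 1 : WithTop ℕ∞) = 3 := by norm_num
        rw [e]
        exact hsm
      exact (contDiff_succ_iff_deriv.1 h2).2.2
    exact h1.continuous_deriv (by norm_num)
  have hpi := Real.pi_pos
  obtain ⟨a1, a2⟩ := m4_core hT2 (AA J P V) hA v (1 / L) M (1 / (2 * Real.pi * (1 / L) ^ 2)) hr0 hr4
    (by positivity) (deriv (fr (1 / T))) hc1 (fun t => fr_d1 hd0 hd1 hr0 hr4 t) hM
  obtain ⟨b1, b2⟩ := m4_core hT2 (AA J P V) hA v (1 / L) M (4 / (2 * Real.pi * (1 / L) ^ 4)) hr0 hr4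
    (by positivity) (deriv (deriv (fr (1 / T)))) hc2 (fun t => fr_d2 hd0 hd1 hr0 hr4 t) hM
  refine ⟨a1, b1, a2.trans ?_, b2.trans ?_⟩
  · have e : 1 / (2 * Real.pi * (1 / L) ^ 2) * (2 * Real.pi * M) = L ^ 2 * M := by
      field_simp
    rw [e, hMdef]
    have hX : 0 ≤ C * Real.sqrt T * L ^ 2 * L ^ (1 / 4 : ℝ) * (2 + |v| * L) ^ 3 := by positivity
    nlinarith
  · have e : 4 / (2 * Real.pi * (1 / L) ^ 4) * (2 * Real.pi * M) = 4 * L ^ 4 * M := by
      field_simp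
    rw [e, hMdef]
    apply le_of_eq
    ring

end Pool.Agent.H28.ZT
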