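import Pool.Agent.H28.ZT.Sobo

/-!
# MZ6 (chapter Z): measure of the set where `|f| < η`

`η0 = min_{k ∈ R} min (-f u_k, f u'_k) > 0` (1 if `R` is empty).  For `η ≤ η0`, CROSSING on `J_k = [kh, (k+2)h]`:
`volume {t ∈ J_k : |f t| < η} ≥ 2η/s_k`.  The `J_k` with `k` even overlap only in end points, the same for `k` odd; one of the two
classes carries at least half of `∑ 1/s_k`: the measure of the union is `≥ η ∑_{k ∈ R} 1/s_k` (`measure_biUnion_finset` for the sets cut with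
`[kh, (k+2)h)`, the end point has measure 0).
-/

set_option autoImplicit false

namespace Pool.Agent.H28.ZT

open MeasureTheory

private theorem mz6_eta (f : ℝ → ℝ) (R : Finset ℕ) (u u' : ℕ → ℝ)
    (h : ∀ k ∈ R, f (u k) < 0 ∧ 0 < f (u' k)) :
    ∃ η0 : ℝ, 0 < η0 ∧ ∀ k ∈ R, η0 ≤ -f (u k) ∧ η0 ≤ f (u' k) := by
  classical
  induction R using Finset.induction_on with
  | empty => exact ⟨1, one_pos, fun k hk => absurd hk (Finset.notMem_empty k)⟩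
  | insert a s ha ih =>
    obtain ⟨η, hη, hη2⟩ := ih fun k hk => h k (Finset.mem_insert_of_mem hk)
    obtain ⟨h1, h2⟩ := h a (Finset.mem_insert_self a s)
    refine ⟨min η (min (-f (u a)) (f (u' a))), lt_min hη (lt_min (by linarith) h2), ?_⟩
    intro k hk
    rw [Finset.mem_insert] at hk
    rcases hk with rfl | hk
    · exact ⟨(min_le_right _ _).trans (min_le_left _ _),
        (min_le_right _ _).trans (min_le_right _ _)⟩
    · exact ⟨(min_le_left _ _).trans (hη2 k hk).1, (min_le_left _ _).trans (hη2 k hk).2⟩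

/-- the part of the set in one half open interval -/
private def mz6_A (f : ℝ → ℝ) (h η : ℝ) (k : ℕ) : Set ℝ :=
  Set.Ico ((k : ℝ) * h) (((k : ℝ) + 2) * h) ∩ {t | |f t| < η}

private theorem mz6_meas {f : ℝ → ℝ} (hfc : Continuous f) (h η : ℝ) (k : ℕ) :
    MeasurableSet (mz6_A f h η k) :=
  measurableSet_Ico.inter (measurableSet_lt hfc.abs.measurable measurable_const)

private theorem mz6_one {f : ℝ → ℝ} (h η c : ℝ) (k : ℕ)
    (hc : ENNReal.ofReal c ≤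
      volume {t : ℝ | (k : ℝ) * h ≤ t ∧ t ≤ ((k : ℝ) + 2) * h ∧ |f t| < η}) :
    ENNReal.ofReal c ≤ volume (mz6_A f h η k) := by
  have hsub : {t : ℝ | (k : ℝ) * h ≤ t ∧ t ≤ ((k : ℝ) + 2) * h ∧ |f t| < η} ⊆
      mz6_A f h η k ∪ {((k : ℝ) + 2) * h} := by
    rintro t ⟨h1, h2, h3⟩
    rcases lt_or_eq_of_le h2 with h4 | h4
    · exact Or.inl ⟨⟨h1, h4⟩, h3⟩
    · exact Or.inr h4
  calc ENNReal.ofReal c ≤ _ := hc
    _ ≤ volume (mz6_A f h η k ∪ {((k : ℝ) + 2) * h}) := measure_mono hsub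
    _ ≤ volume (mz6_A f h η k) + volume ({((k : ℝ) + 2) * h} : Set ℝ) := measure_union_le _ _
    _ = volume (mz6_A f h η k) := by rw [Real.volume_singleton, add_zero]

private theorem mz6_class {f : ℝ → ℝ} (hfc : Continuous f) (h a b : ℝ) (hh : 0 < h) (s : ℕ → ℝ)
    (η : ℝ) (hη : 0 < η) (Q : Finset ℕ)
    (hQ : ∀ k ∈ Q, ∀ k' ∈ Q, k ≠ k' → k + 2 ≤ k' ∨ k' + 2 ≤ k)
    (hs : ∀ k ∈ Q, 0 < s k ∧ a ≤ (k : ℝ) * h ∧ ((k : ℝ) + 2) * h ≤ b)
    (hm : ∀ k ∈ Q, ENNReal.ofReal (2 * η / s k) ≤ volume (mz6_A f h η k)) :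
    ENNReal.ofReal (2 * η * ∑ k ∈ Q, 1 / s k) ≤ volume {t : ℝ | a ≤ t ∧ t ≤ b ∧ |f t| < η} := by
  have hdisj : Set.PairwiseDisjoint (Q : Set ℕ) (mz6_A f h η) := by
    intro k hk k' hk' hne
    rw [Function.onFun, Set.disjoint_left]
    rintro t ⟨⟨h1, h2⟩, -⟩ ⟨⟨h3, h4⟩, -⟩
    rcases hQ k hk k' hk' hne with h5 | h5
    · have h6 : ((k : ℝ) + 2) ≤ (k' : ℝ) := by exact_mod_cast h5
      have := mul_le_mul_of_nonneg_right h6 hh.le
      linarith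
    · have h6 : ((k' : ℝ) + 2) ≤ (k : ℝ) := by exact_mod_cast h5
      have := mul_le_mul_of_nonneg_right h6 hh.le
      linarith
  have hsub : (⋃ k ∈ Q, mz6_A f h η k) ⊆ {t : ℝ | a ≤ t ∧ t ≤ b ∧ |f t| < η} := by
    intro t ht
    rw [Set.mem_iUnion₂] at ht
    obtain ⟨k, hk, ⟨h1, h2⟩, h3⟩ := ht
    obtain ⟨-, h4, h5⟩ := hs k hk
    exact ⟨h4.trans h1, h2.le.trans h5, h3⟩
  calc ENNReal.ofReal (2 * η * ∑ k ∈ Q, 1 / s k) = ENNReal.ofReal (∑ k ∈ Q, 2 * η / s k) := by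
        rw [Finset.mul_sum]
        congr 1
        exact Finset.sum_congr rfl fun k _ => by ring
    _ = ∑ k ∈ Q, ENNReal.ofReal (2 * η / s k) :=
        ENNReal.ofReal_sum_of_nonneg fun k hk => by
          have := (hs k hk).1
          positivity
    _ ≤ ∑ k ∈ Q, volume (mz6_A f h η k) := Finset.sum_le_sum hm
    _ = volume (⋃ k ∈ Q, mz6_A f h η k) :=
        (measure_biUnion_finset hdisj fun k _ => mz6_meas hfc h η k).symm
    _ ≤ _ := measure_mono hsub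

theorem mz6 (f : ℝ → ℝ) (hf : Differentiable ℝ f) (hfc : Continuous f) (h a b : ℝ) (hh : 0 < h) (s : ℕ → ℝ)
    (R : Finset ℕ) (hR : ∀ k ∈ R, 0 < s k ∧ a ≤ (k : ℝ) * h ∧ ((k : ℝ) + 2) * h ≤ b ∧
        (∀ u : ℝ, (k : ℝ) * h ≤ u → u ≤ ((k : ℝ) + 2) * h → |deriv f u| ≤ s k) ∧
        ∃ u u' : ℝ, (k : ℝ) * h ≤ u ∧ u ≤ ((k : ℝ) + 2) * h ∧ (k : ℝ) * h ≤ u' ∧ u' ≤ ((k : ℝ) + 2) * h ∧
          f u < 0 ∧ 0 < f u') :
    ∃ η0 : ℝ, 0 < η0 ∧ ∀ η : ℝ, 0 < η → η ≤ η0 →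
      ENNReal.ofReal (η * ∑ k ∈ R, 1 / s k) ≤ volume {t : ℝ | a ≤ t ∧ t ≤ b ∧ |f t| < η} := by
  classical
  have hex : ∀ k : ℕ, ∃ u u' : ℝ, k ∈ R → ((k : ℝ) * h ≤ u ∧ u ≤ ((k : ℝ) + 2) * h ∧
      (k : ℝ) * h ≤ u' ∧ u' ≤ ((k : ℝ) + 2) * h ∧ f u < 0 ∧ 0 < f u') := by
    intro k
    by_cases hk : k ∈ R
    · obtain ⟨u, u', hu⟩ := (hR k hk).2.2.2.2
      exact ⟨u, u', fun _ => hu⟩
    · exact ⟨0, 0, fun h => absurd h hk⟩
  choose u u' hu using hex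
  obtain ⟨η0, hη0, hη1⟩ := mz6_eta f R u u' fun k hk => ⟨(hu k hk).2.2.2.2.1, (hu k hk).2.2.2.2.2⟩
  refine ⟨η0, hη0, ?_⟩
  intro η hη hle
  have hm : ∀ k ∈ R, ENNReal.ofReal (2 * η / s k) ≤ volume (mz6_A f h η k) := by
    intro k hk
    obtain ⟨h1, h2, h3, h4, h5, h6⟩ := hu k hk
    obtain ⟨g1, -, -, g4, -⟩ := hR k hk
    obtain ⟨e1, e2⟩ := hη1 k hk
    exact mz6_one h η _ k (crossing f hf ((k : ℝ) * h) (((k : ℝ) + 2) * h) (s k) η (u k) (u' k) g1 hη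
      g4 ⟨h1, h2⟩ ⟨h3, h4⟩ (by linarith) (by linarith))
  have hs : ∀ k ∈ R, 0 < s k ∧ a ≤ (k : ℝ) * h ∧ ((k : ℝ) + 2) * h ≤ b := fun k hk =>
    ⟨(hR k hk).1, (hR k hk).2.1, (hR k hk).2.2.1⟩
  have hsplit : ∑ k ∈ R, 1 / s k = ∑ k ∈ R.filter (fun k => k % 2 = 0), 1 / s k +
      ∑ k ∈ R.filter (fun k => ¬ k % 2 = 0), 1 / s k :=
    (Finset.sum_filter_add_sum_filter_not R (fun k => k % 2 = 0) (fun k => 1 / s k)).symm
  have c0 := mz6_class hfc h a b hh s η hη (R.filter (fun k => k % 2 = 0))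
    (by
      intro k hk k' hk' hne
      have := (Finset.mem_filter.mp hk).2
      have := (Finset.mem_filter.mp hk').2
      omega)
    (fun k hk => hs k (Finset.mem_filter.mp hk).1) (fun k hk => hm k (Finset.mem_filter.mp hk).1)
  have c1 := mz6_class hfc h a b hh s η hη (R.filter (fun k => ¬ k % 2 = 0))
    (by
      intro k hk k' hk' hne
      have := (Finset.mem_filter.mp hk).2
      have := (Finset.mem_filter.mp hk').2
      omega)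
    (fun k hk => hs k (Finset.mem_filter.mp hk).1) (fun k hk => hm k (Finset.mem_filter.mp hk).1)
  rw [hsplit]
  rcases le_total (∑ k ∈ R.filter (fun k => k % 2 = 0), 1 / s k)
    (∑ k ∈ R.filter (fun k => ¬ k % 2 = 0), 1 / s k) with hcase | hcase
  · refine le_trans (ENNReal.ofReal_le_ofReal ?_) c1
    nlinarith
  · refine le_trans (ENNReal.ofReal_le_ofReal ?_) c0
    nlinarith

end Pool.Agent.H28.ZT
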