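import Pool.Agent.H28.ZT.Planch
import Pool.Agent.H28.ZT.FDec

/-!
# PARS (chapter P): `KK = 2π ∫ GW conj GW`

`∫ GW d w s a c y · e^(iyt) dy = FF d (t+w) · DD s a c t`: termwise substitution `u = y + log c_i` (`c_i ≥ 1`):
`∫ gg d u e^(iuw) e^(i(u - log c_i)t) du = c_i^(-it) FF d (t+w)` (FREP).  `GW` is continuous and integrable (GDEC:
`‖gg d u e^(iuw)‖ ≤ C e^(-|u|/2 + |u|/4)`), the transforms are integrable (FDEC, `DD` bounded).  PLANCH.
`‖DD‖² = DD conj DD`.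
-/

set_option autoImplicit false

namespace Pool.Agent.H28.ZT

open Complex MeasureTheory

private theorem ps_normexp (y : ℝ) (w : ℂ) : ‖Complex.exp (I * (y : ℂ) * w)‖ = Real.exp (-(y * w.im)) := by
  rw [Complex.norm_exp]
  congr 1
  simp

/-- the summand of `GW` -/
private noncomputable def psg (d : ℝ) (w : ℂ) (l y : ℝ) : ℂ :=
  gg d (y + l) * Complex.exp (I * ((y + l : ℝ) : ℂ) * w)

private theorem ps_int {d : ℝ} (h0 : 0 < d) (h1 : d ≤ 1 / 2) {w : ℂ} (hw : |w.im| < 1 / 2) (l : ℝ) :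
    Integrable (psg d w l) :=
  (F_int h0 h1 hw).comp_add_right l

private theorem ps_cont {d : ℝ} (h0 : 0 < d) (h1 : d ≤ 1 / 2) (w : ℂ) (l : ℝ) :
    Continuous (psg d w l) := by
  unfold psg
  exact ((gg_cont h0 h1).comp (by fun_prop)).mul (by fun_prop)

private theorem ps_bd {d : ℝ} (h0 : 0 < d) (h1 : d ≤ 1 / 2) {w : ℂ} (hw : |w.im| ≤ 1 / 4) :
    ∃ C : ℝ, 0 < C ∧ ∀ l y : ℝ, ‖psg d w l y‖ ≤ C := by
  obtain ⟨C, hC, hb⟩ := gg_decay h0 h1
  refine ⟨C, hC, fun l y => ?_⟩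
  unfold psg
  rw [norm_mul, ps_normexp]
  have h2 : Real.exp (-((y + l) * w.im)) ≤ Real.exp (|y + l| * |w.im|) := by
    apply Real.exp_le_exp.2
    rw [← abs_mul]
    exact neg_le_abs _
  have h3 : |y + l| * |w.im| ≤ |y + l| / 2 := by
    have := mul_le_mul_of_nonneg_left hw (abs_nonneg (y + l))
    have h4 := abs_nonneg (y + l)
    linarith
  calc ‖gg d (y + l)‖ * Real.exp (-((y + l) * w.im))
      ≤ (C * Real.exp (-(|y + l| / 2))) * Real.exp (|y + l| * |w.im|) :=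
        mul_le_mul (hb _) h2 (Real.exp_pos _).le (by positivity)
    _ = C * Real.exp (-(|y + l| / 2) + |y + l| * |w.im|) := by rw [mul_assoc, ← Real.exp_add]
    _ ≤ C * 1 := by
        apply mul_le_mul_of_nonneg_left _ hC.le
        rw [← Real.exp_zero]
        exact Real.exp_le_exp.2 (by linarith)
    _ = C := mul_one C

private theorem ps_GW {ι : Type} (d : ℝ) (w : ℂ) (s : Finset ι) (a : ι → ℂ) (c : ι → ℕ) :
    GW d w s a c = fun y => ∑ i ∈ s, a i * np (c i) (-(1 / 2)) * psg d w (Real.log (c i : ℝ)) y := by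
  funext y
  unfold GW psg
  apply Finset.sum_congr rfl
  intro i _
  ring

theorem GW_int {ι : Type} {d : ℝ} (h0 : 0 < d) (h1 : d ≤ 1 / 2) {w : ℂ} (hw : |w.im| ≤ 1 / 4)
    (s : Finset ι) (a : ι → ℂ) (c : ι → ℕ) (hc : ∀ i ∈ s, 1 ≤ c i) : Integrable (GW d w s a c) := by
  rw [ps_GW]
  apply integrable_finsetSum
  intro i _
  exact (ps_int h0 h1 (by linarith) _).const_mul _

private theorem ps_GWc {ι : Type} {d : ℝ} (h0 : 0 < d) (h1 : d ≤ 1 / 2) (w : ℂ)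
    (s : Finset ι) (a : ι → ℂ) (c : ι → ℕ) : Continuous (GW d w s a c) := by
  rw [ps_GW]
  apply continuous_finset_sum
  intro i _
  exact continuous_const.mul (ps_cont h0 h1 w _)

private theorem ps_GWb {ι : Type} {d : ℝ} (h0 : 0 < d) (h1 : d ≤ 1 / 2) {w : ℂ} (hw : |w.im| ≤ 1 / 4)
    (s : Finset ι) (a : ι → ℂ) (c : ι → ℕ) : ∃ C : ℝ, ∀ y, ‖GW d w s a c y‖ ≤ C := by
  obtain ⟨C, hC, hb⟩ := ps_bd h0 h1 hw
  refine ⟨∑ i ∈ s, ‖a i * np (c i) (-(1 / 2))‖ * C, fun y => ?_⟩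
  rw [ps_GW]
  refine (norm_sum_le _ _).trans (Finset.sum_le_sum fun i _ => ?_)
  rw [norm_mul]
  exact mul_le_mul_of_nonneg_left (hb _ _) (norm_nonneg _)

theorem GW_L2 {ι : Type} {d : ℝ} (h0 : 0 < d) (h1 : d ≤ 1 / 2) {w w' : ℂ} (hw : |w.im| ≤ 1 / 4)
    (hw' : |w'.im| ≤ 1 / 4) (s : Finset ι) (a : ι → ℂ) (c : ι → ℕ) (hc : ∀ i ∈ s, 1 ≤ c i) :
    Integrable fun y : ℝ => GW d w s a c y * (starRingEnd ℂ) (GW d w' s a c y) := by
  obtain ⟨C, hC⟩ := ps_GWb h0 h1 hw' s a c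
  refine (GW_int h0 h1 hw s a c hc).mul_bdd (c := C) ?_ (Filter.Eventually.of_forall fun y => ?_)
  · exact (Complex.continuous_conj.comp (ps_GWc h0 h1 w' s a c)).aestronglyMeasurable
  · rw [RCLike.norm_conj]
    exact hC y

private theorem ps_shift {d : ℝ} (h0 : 0 < d) (h1 : d ≤ 1 / 2) {w : ℂ} (hw : |w.im| ≤ 1 / 4) (l t : ℝ) :
    ∫ y : ℝ, psg d w l y * Complex.exp (I * (y : ℂ) * (t : ℂ)) =
      Complex.exp (-(I * (l : ℂ) * (t : ℂ))) * FF d ((t : ℂ) + w) := by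
  have hw' : |((t : ℂ) + w).im| < 1 / 2 := by
    rw [Complex.add_im, Complex.ofReal_im, zero_add]
    linarith
  rw [F_rep h0 h1 hw', ← integral_const_mul,
    ← integral_add_right_eq_self (fun u : ℝ => Complex.exp (-(I * (l : ℂ) * (t : ℂ))) *
      (gg d u * Complex.exp (I * (u : ℂ) * ((t : ℂ) + w)))) l]
  apply integral_congr_ae
  refine Filter.Eventually.of_forall fun y => ?_
  unfold psg
  beta_reduce
  have e : Complex.exp (I * ((y + l : ℝ) : ℂ) * w) * Complex.exp (I * (y : ℂ) * (t : ℂ)) =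
      Complex.exp (-(I * (l : ℂ) * (t : ℂ))) * Complex.exp (I * ((y + l : ℝ) : ℂ) * ((t : ℂ) + w)) := by
    rw [← Complex.exp_add, ← Complex.exp_add]
    congr 1
    push_cast
    ring
  rw [mul_assoc, e]
  ring

private theorem ps_np (n : ℕ) (t : ℝ) :
    np n (-(1 / 2)) * Complex.exp (-(I * ((Real.log (n : ℝ) : ℝ) : ℂ) * (t : ℂ))) =
      np n (-(1 / 2) - I * (t : ℂ)) := by
  unfold np
  rw [← Complex.exp_add]
  congr 1
  ring

private theorem ps_tr {ι : Type} {d : ℝ} (h0 : 0 < d) (h1 : d ≤ 1 / 2) {w : ℂ} (hw : |w.im| ≤ 1 / 4)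
    (s : Finset ι) (a : ι → ℂ) (c : ι → ℕ) (t : ℝ) :
    ∫ y : ℝ, GW d w s a c y * Complex.exp (I * (y : ℂ) * (t : ℂ)) = FF d ((t : ℂ) + w) * DD s a c t := by
  rw [ps_GW]
  simp_rw [Finset.sum_mul]
  rw [integral_finsetSum]
  · unfold DD
    rw [Finset.mul_sum]
    apply Finset.sum_congr rfl
    intro i _
    have e1 : ∀ y : ℝ, a i * np (c i) (-(1 / 2)) * psg d w (Real.log (c i : ℝ)) y *
        Complex.exp (I * (y : ℂ) * (t : ℂ)) = (a i * np (c i) (-(1 / 2))) *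
        (psg d w (Real.log (c i : ℝ)) y * Complex.exp (I * (y : ℂ) * (t : ℂ))) := by
      intro y
      ring
    simp_rw [e1]
    rw [integral_const_mul, ps_shift h0 h1 hw, ← ps_np]
    ring
  · intro i _
    have h2 : Integrable (fun y : ℝ => a i * np (c i) (-(1 / 2)) * psg d w (Real.log (c i : ℝ)) y) :=
      (ps_int h0 h1 (by linarith) _).const_mul _
    refine h2.mul_bdd (c := 1) ?_ (Filter.Eventually.of_forall fun y => ?_)
    · exact Continuous.aestronglyMeasurable (by fun_prop)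
    · rw [ps_normexp]
      simp

private theorem ps_DDc {ι : Type} (s : Finset ι) (a : ι → ℂ) (c : ι → ℕ) : Continuous (DD s a c) := by
  unfold DD np
  apply continuous_finset_sum
  intro i _
  fun_prop

private theorem ps_DDb {ι : Type} (s : Finset ι) (a : ι → ℂ) (c : ι → ℕ) :
    ∃ C : ℝ, 0 ≤ C ∧ ∀ t, ‖DD s a c t‖ ≤ C := by
  refine ⟨∑ i ∈ s, ‖a i‖ * Real.exp (-(1 / 2) * Real.log (c i : ℝ)), Finset.sum_nonneg fun i _ => by positivity,
    fun t => ?_⟩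
  unfold DD
  refine (norm_sum_le _ _).trans (Finset.sum_le_sum fun i _ => ?_)
  rw [norm_mul]
  apply mul_le_mul_of_nonneg_left _ (norm_nonneg _)
  unfold np
  rw [Complex.norm_exp]
  apply le_of_eq
  congr 1
  generalize Real.log (c i : ℝ) = L
  simp

private theorem ps_Fim {t : ℝ} {w : ℂ} (hw : |w.im| ≤ 1 / 4) : |((t : ℂ) + w).im| ≤ 1 / 4 := by
  rw [Complex.add_im, Complex.ofReal_im, zero_add]
  exact hw

private theorem ps_FD {ι : Type} {d : ℝ} (h0 : 0 < d) (h1 : d ≤ 1 / 2) {w : ℂ} (hw : |w.im| ≤ 1 / 4)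
    (s : Finset ι) (a : ι → ℂ) (c : ι → ℕ) :
    Integrable fun t : ℝ => FF d ((t : ℂ) + w) * DD s a c t := by
  obtain ⟨C, _, hb⟩ := ps_DDb s a c
  exact (F_integrable h0 h1 hw).mul_bdd (c := C) (ps_DDc s a c).aestronglyMeasurable
    (Filter.Eventually.of_forall hb)

theorem pars {ι : Type} {d : ℝ} (h0 : 0 < d) (h1 : d ≤ 1 / 2) {w w' : ℂ} (hw : |w.im| ≤ 1 / 4)
    (hw' : |w'.im| ≤ 1 / 4) (s : Finset ι) (a : ι → ℂ) (c : ι → ℕ) (hc : ∀ i ∈ s, 1 ≤ c i) :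
    KK d w w' s a c = 2 * (Real.pi : ℂ) * ∫ y : ℝ, GW d w s a c y * (starRingEnd ℂ) (GW d w' s a c y) := by
  rw [← planch (ps_GWc h0 h1 w s a c) (GW_int h0 h1 hw s a c hc) (ps_GWc h0 h1 w' s a c)
    (GW_int h0 h1 hw' s a c hc)]
  · unfold KK
    apply integral_congr_ae
    refine Filter.Eventually.of_forall fun t => ?_
    beta_reduce
    rw [ps_tr h0 h1 hw, ps_tr h0 h1 hw', map_mul]
    have e : ((‖DD s a c t‖ ^ 2 : ℝ) : ℂ) = DD s a c t * (starRingEnd ℂ) (DD s a c t) := by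
      rw [Complex.mul_conj, Complex.normSq_eq_norm_sq]
    rw [e]
    ring
  · simp_rw [ps_tr h0 h1 hw]
    exact ps_FD h0 h1 hw s a c
  · simp_rw [ps_tr h0 h1 hw']
    exact ps_FD h0 h1 hw' s a c

theorem KK_int {ι : Type} {d : ℝ} (h0 : 0 < d) (h1 : d ≤ 1 / 2) {w w' : ℂ} (hw : |w.im| ≤ 1 / 4)
    (hw' : |w'.im| ≤ 1 / 4) (s : Finset ι) (a : ι → ℂ) (c : ι → ℕ) :
    Integrable fun t : ℝ => FF d ((t : ℂ) + w) * (starRingEnd ℂ) (FF d ((t : ℂ) + w')) *
      ((‖DD s a c t‖ ^ 2 : ℝ) : ℂ) := by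
  obtain ⟨C, k, hC, hk, hb⟩ := F_decay h0 h1
  obtain ⟨B, hB0, hB⟩ := ps_DDb s a c
  have h2 : Integrable fun t : ℝ => FF d ((t : ℂ) + w) * (starRingEnd ℂ) (FF d ((t : ℂ) + w')) := by
    refine (F_integrable h0 h1 hw).mul_bdd (c := C) ?_ (Filter.Eventually.of_forall fun t => ?_)
    · exact (Complex.continuous_conj.comp (F_cont (d := d) (w := w') (by linarith))).aestronglyMeasurable
    · rw [RCLike.norm_conj]
      refine (hb _ (ps_Fim hw')).trans ?_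
      have h3 : Real.exp (-(k * |((t : ℂ) + w').re|)) ≤ 1 := by
        rw [← Real.exp_zero]
        apply Real.exp_le_exp.2
        have := mul_nonneg hk.le (abs_nonneg (((t : ℂ) + w').re))
        linarith
      calc C * Real.exp (-(k * |((t : ℂ) + w').re|)) ≤ C * 1 := mul_le_mul_of_nonneg_left h3 hC.le
        _ = C := mul_one C
  refine h2.mul_bdd (c := B ^ 2) ?_ (Filter.Eventually.of_forall fun t => ?_)
  · exact (Complex.continuous_ofReal.comp ((ps_DDc s a c).norm.pow 2)).aestronglyMeasurable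
  · rw [Complex.norm_real, Real.norm_eq_abs, abs_of_nonneg (by positivity)]
    exact pow_le_pow_left₀ (norm_nonneg _) (hB t) 2

end Pool.Agent.H28.ZT
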