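import Pool.Agent.H28.ZT.PairM
import Pool.Agent.H28.ZT.Pars
import Pool.Agent.H28.ZT.EiL

/-!
# MAIN0 (chapter D): the main formula for `KK`

`GW = ∑ a_i gp (c i)`, so `KK = 2π ∑_i ∑_j a_i conj(a_j) (∫_{y>0} + ∫_{y≤0}) gp_i conj gp_j` (PARS); PAIRP, PAIRM and LEMMA D
(EIL, `s = τ lcm ≤ 1` and `s = τ/gcd ≤ 1`; `(c_i c_j)^(-1) gcd = 1/lcm`):
the `(i,j)` term is `8π c_i^(iw) c_j^(-i conj w') (√π/(2τ)) lcm^(-1) {∫_1^(1/(τ lcm)) u^(iΔ-1) du + ∫_1^(gcd/τ) u^(-iΔ-1) du +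
(τ lcm)^(-iΔ) R(Δ) + (τ/gcd)^(iΔ) R(-Δ)}` + error.  `u = e^x` resp. `u = e^(-x)`: the two integrals add up to
`∫_{-Λ-log gcd}^{Λ-log lcm} e^(iΔx) dx`, `Λ = log (1/τ)`.
Errors: `T^(1/50)` powers and logarithms, all `≤ C T^(1/10)`.  `τ lcm ≤ √(2π/T) T^(1/50) ≤ 1` since `T ≥ e^40`.
`|w.im| log c_i ≤ 1/100`.
-/

set_option autoImplicit false

namespace Pool.Agent.H28.ZT

open Complex MeasureTheory

private theorem m0_cpow {s : ℝ} (hs : 0 < s) (y : ℂ) :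
    (s : ℂ) ^ y = Complex.exp (((Real.log s : ℝ) : ℂ) * y) := by
  have h : (s : ℂ) ≠ 0 := by
    exact_mod_cast hs.ne'
  rw [Complex.cpow_def_of_ne_zero h, Complex.ofReal_log hs.le]

private theorem m0_sub {b : ℝ} (hb : 0 < b) (z : ℂ) :
    ∫ u in (1 : ℝ)..b, (u : ℂ) ^ (z - 1) =
      ∫ x in (0 : ℝ)..(Real.log b), Complex.exp (z * (x : ℂ)) := by
  have h1 := intervalIntegral.integral_deriv_smul_comp' (a := (0 : ℝ)) (b := Real.log b)
    (f := Real.exp) (f' := Real.exp) (g := fun u : ℝ => (u : ℂ) ^ (z - 1))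
    (fun x _ => Real.hasDerivAt_exp x) Real.continuous_exp.continuousOn (by
      rintro _ ⟨x, -, rfl⟩
      refine ContinuousAt.continuousWithinAt ?_
      exact Complex.continuousAt_ofReal_cpow_const _ _ (Or.inr (Real.exp_pos x).ne'))
  rw [Real.exp_zero, Real.exp_log hb] at h1
  rw [← h1]
  refine intervalIntegral.integral_congr fun x _ => ?_
  show Real.exp x • ((Real.exp x : ℝ) : ℂ) ^ (z - 1) = Complex.exp (z * (x : ℂ))
  rw [m0_cpow (Real.exp_pos x), Real.log_exp, Complex.real_smul, Complex.ofReal_exp,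
    ← Complex.exp_add]
  congr 1
  ring

private theorem m0_brace {t l g : ℝ} (ht : 0 < t) (hl : 0 < l) (hg : 0 < g) (Δ r1 r2 : ℂ) :
    ((∫ u in (1 : ℝ)..(1 / (t * l)), (u : ℂ) ^ (I * Δ - 1)) +
        ((t * l : ℝ) : ℂ) ^ (-(I * Δ)) * r1) +
      ((∫ u in (1 : ℝ)..(1 / (t / g)), (u : ℂ) ^ (I * (-Δ) - 1)) +
        ((t / g : ℝ) : ℂ) ^ (-(I * (-Δ))) * r2) =
    (∫ x in (Real.log t - Real.log g)..(-Real.log t - Real.log l),
      Complex.exp (I * Δ * (x : ℂ))) +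
      Complex.exp (-(I * Δ * ((Real.log t : ℝ) : ℂ))) *
        Complex.exp (-(I * Δ) * ((Real.log l : ℝ) : ℂ)) * r1 +
      Complex.exp (I * Δ * ((Real.log t : ℝ) : ℂ)) *
        Complex.exp (-(I * Δ) * ((Real.log g : ℝ) : ℂ)) * r2 := by
  have e1 : Real.log (1 / (t * l)) = -Real.log t - Real.log l := by
    rw [one_div, Real.log_inv, Real.log_mul ht.ne' hl.ne']
    ring
  have e2 : Real.log (1 / (t / g)) = -(Real.log t - Real.log g) := by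
    rw [one_div, Real.log_inv, Real.log_div ht.ne' hg.ne']
  rw [m0_sub (by positivity) (I * Δ), m0_sub (by positivity) (I * (-Δ)), e1, e2,
    m0_cpow (by positivity), m0_cpow (by positivity), Real.log_mul ht.ne' hl.ne',
    Real.log_div ht.ne' hg.ne']
  have e3 : ∫ x in (0 : ℝ)..(-(Real.log t - Real.log g)), Complex.exp (I * (-Δ) * (x : ℂ)) =
      ∫ x in (Real.log t - Real.log g)..(0 : ℝ), Complex.exp (I * Δ * (x : ℂ)) := by
    have h := intervalIntegral.integral_comp_neg (a := (0 : ℝ))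
      (b := -(Real.log t - Real.log g)) (fun x : ℝ => Complex.exp (I * Δ * (x : ℂ)))
    rw [neg_neg, neg_zero] at h
    rw [← h]
    refine intervalIntegral.integral_congr fun x _ => ?_
    show Complex.exp (I * (-Δ) * (x : ℂ)) = Complex.exp (I * Δ * ((-x : ℝ) : ℂ))
    congr 1
    push_cast
    ring
  have hc : Continuous fun x : ℝ => Complex.exp (I * Δ * (x : ℂ)) := by fun_prop
  rw [e3, ← intervalIntegral.integral_add_adjacent_intervals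
    (hc.intervalIntegrable (Real.log t - Real.log g) 0)
    (hc.intervalIntegrable 0 (-Real.log t - Real.log l))]
  have e4 : Complex.exp (((Real.log t + Real.log l : ℝ) : ℂ) * (-(I * Δ))) =
      Complex.exp (-(I * Δ * ((Real.log t : ℝ) : ℂ))) *
        Complex.exp (-(I * Δ) * ((Real.log l : ℝ) : ℂ)) := by
    rw [← Complex.exp_add]
    congr 1
    push_cast
    ring
  have e5 : Complex.exp (((Real.log t - Real.log g : ℝ) : ℂ) * (-(I * (-Δ)))) =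
      Complex.exp (I * Δ * ((Real.log t : ℝ) : ℂ)) *
        Complex.exp (-(I * Δ) * ((Real.log g : ℝ) : ℂ)) := by
    rw [← Complex.exp_add]
    congr 1
    push_cast
    ring
  rw [e4, e5]
  ring

private theorem m0_np (c : ℕ) (z : ℂ) : ‖np c z‖ = Real.exp (z.re * Real.log (c : ℝ)) := by
  unfold np
  rw [Complex.norm_exp, Complex.re_mul_ofReal]

private theorem m0_npinv {c : ℕ} (hc : 1 ≤ c) : np c (-1) = 1 / (c : ℂ) := by
  have hc' : (0 : ℝ) < c := by exact_mod_cast hc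
  unfold np
  rw [neg_one_mul, Complex.exp_neg, ← Complex.ofReal_exp, Real.exp_log hc']
  simp

/-- one pair -/
private theorem m0_pair : ∃ (C : ℝ) (R : ℂ → ℂ), 0 < C ∧
    (∀ x : ℂ, ‖x‖ ≤ 2 → |x.im| ≤ 1 / 4 → ‖R x‖ ≤ C) ∧
    ∀ (T : ℝ) (w w' : ℂ) (c c' : ℕ), Real.exp 40 ≤ T →
    ‖w‖ ≤ 1 → ‖w'‖ ≤ 1 → |w.im| ≤ 1 / Real.log T → |w'.im| ≤ 1 / Real.log T →
    1 ≤ c → 1 ≤ c' → (c : ℝ) ≤ T ^ (1 / 100 : ℝ) → (c' : ℝ) ≤ T ^ (1 / 100 : ℝ) →
    Integrable (fun y : ℝ => gp (1 / T) c w y * (starRingEnd ℂ) (gp (1 / T) c' w' y)) ∧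
    ‖(∫ y : ℝ, gp (1 / T) c w y * (starRingEnd ℂ) (gp (1 / T) c' w' y)) -
      ((2 * Real.sqrt Real.pi / tau (1 / T) : ℝ) : ℂ) *
        (np c (I * w) * np c' (-(I * (starRingEnd ℂ) w')) * np (Nat.lcm c c') (-1) *
        ((∫ x in (Real.log (tau (1 / T)) - Real.log (Nat.gcd c c' : ℝ))..(-Real.log (tau (1 / T)) -
            Real.log (Nat.lcm c c' : ℝ)), Complex.exp (I * (w - (starRingEnd ℂ) w') * (x : ℂ))) +
          Complex.exp (-(I * (w - (starRingEnd ℂ) w') * (Real.log (tau (1 / T)) : ℂ))) *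
            np (Nat.lcm c c') (-(I * (w - (starRingEnd ℂ) w'))) * R (w - (starRingEnd ℂ) w') +
          Complex.exp (I * (w - (starRingEnd ℂ) w') * (Real.log (tau (1 / T)) : ℂ)) *
            np (Nat.gcd c c') (-(I * (w - (starRingEnd ℂ) w'))) *
              R (-(w - (starRingEnd ℂ) w'))))‖ ≤ C * T ^ (1 / 10 : ℝ) := by
  obtain ⟨C1, hC1, H1⟩ := pair_P
  obtain ⟨C2, hC2, H2⟩ := pair_M
  obtain ⟨C3, R, hC3, hR, H3⟩ := Ei_asym
  refine ⟨2601 * (C1 + C2) + 8 * Real.exp 2 * C3 + C3, R, by positivity, ?_, ?_⟩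
  · intro x hx1 hx2
    refine (hR x hx1 hx2).trans ?_
    have : 0 ≤ 2601 * (C1 + C2) + 8 * Real.exp 2 * C3 := by positivity
    linarith
  intro T w w' c c' hT hw hw' hwi hwi' hc hc' hcT hcT'
  have hT0 : 0 < T := (Real.exp_pos 40).trans_le hT
  have hT1 : 1 ≤ T := by
    have := Real.add_one_le_exp (40 : ℝ)
    linarith
  have hlog : 40 ≤ Real.log T := by
    rw [Real.le_log_iff_exp_le hT0]
    exact hT
  have hlog0 : 0 < Real.log T := by linarith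
  have hd0 : 0 < 1 / T := by positivity
  have hd1 : 1 / T ≤ 1 / 2 := by
    have := Real.add_one_le_exp (40 : ℝ)
    rw [div_le_div_iff₀ hT0 (by norm_num)]
    linarith
  have hd2 : 1 / T ≤ 1 := hd1.trans (by norm_num)
  have hcp : (0 : ℝ) < c := by exact_mod_cast hc
  have hcp' : (0 : ℝ) < c' := by exact_mod_cast hc'
  have hc1 : (1 : ℝ) ≤ c := by exact_mod_cast hc
  have hc1' : (1 : ℝ) ≤ c' := by exact_mod_cast hc'
  have h40 : 1 / Real.log T ≤ 1 / 40 := one_div_le_one_div_of_le (by norm_num) hlog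
  have hwi8 : |w.im| ≤ 1 / 8 := hwi.trans (h40.trans (by norm_num))
  have hwi8' : |w'.im| ≤ 1 / 8 := hwi'.trans (h40.trans (by norm_num))
  have hlc : ∀ x : ℕ, 1 ≤ x → (x : ℝ) ≤ T ^ (1 / 100 : ℝ) → Real.log x ≤ Real.log T / 100 := by
    intro x hx hxT
    have h1 : (0 : ℝ) < x := by exact_mod_cast hx
    have h2 := Real.log_le_log h1 hxT
    rw [Real.log_rpow hT0] at h2
    linarith
  have hil : ∀ (z : ℂ) (x : ℕ), |z.im| ≤ 1 / Real.log T → 1 ≤ x →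
      (x : ℝ) ≤ T ^ (1 / 100 : ℝ) → |z.im| * Real.log x ≤ 1 := by
    intro z x hz hx hxT
    have h1 : 0 ≤ Real.log (x : ℝ) := Real.log_nonneg (by exact_mod_cast hx)
    calc |z.im| * Real.log x ≤ 1 / Real.log T * (Real.log T / 100) :=
          mul_le_mul hz (hlc x hx hxT) h1 (by positivity)
      _ = 1 / 100 := by field_simp
      _ ≤ 1 := by norm_num
  have hl1 := hil w c hwi hc hcT
  have hl1' := hil w' c' hwi' hc' hcT'
  obtain ⟨i1, e1⟩ := H1 (1 / T) c c' w w' hd0 hd1 hc hc' hw hw' hwi8 hwi8' hl1 hl1'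
  obtain ⟨i2, e2⟩ := H2 (1 / T) c c' w w' hd0 hd1 hc hc' hw hw' hwi8 hwi8' hl1 hl1'
  obtain ⟨Δ, hΔ⟩ : ∃ Δ : ℂ, Δ = w - (starRingEnd ℂ) w' := ⟨_, rfl⟩
  rw [← hΔ] at e1 e2 ⊢
  have hΔn : ‖Δ‖ ≤ 2 := by
    rw [hΔ]
    refine (norm_sub_le _ _).trans ?_
    rw [RCLike.norm_conj]
    linarith
  have hΔi : |Δ.im| ≤ 1 / 4 := by
    rw [hΔ, Complex.sub_im, Complex.conj_im, sub_neg_eq_add]
    exact (abs_add_le _ _).trans (by linarith)
  -- gcd, lcm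
  obtain ⟨g, hg⟩ : ∃ g : ℕ, g = Nat.gcd c c' := ⟨_, rfl⟩
  obtain ⟨l, hl⟩ : ∃ l : ℕ, l = Nat.lcm c c' := ⟨_, rfl⟩
  rw [← hl] at e1
  rw [← hg] at e2
  rw [← hg, ← hl]
  have hg1 : 1 ≤ g := by
    rw [hg]
    exact Nat.gcd_pos_of_pos_left _ hc
  have hl1n : 1 ≤ l := by
    rw [hl]
    exact Nat.lcm_pos hc hc'
  have hgp : (0 : ℝ) < g := by exact_mod_cast hg1
  have hlp : (0 : ℝ) < l := by exact_mod_cast hl1n
  have hgl : (g : ℝ) * l = c * c' := by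
    have h := Nat.gcd_mul_lcm c c'
    rw [← hg, ← hl] at h
    exact_mod_cast h
  have hcc : (c : ℝ) * c' ≤ T ^ (1 / 50 : ℝ) := by
    have h1 : T ^ (1 / 50 : ℝ) = T ^ (1 / 100 : ℝ) * T ^ (1 / 100 : ℝ) := by
      rw [← Real.rpow_add hT0]
      norm_num
    rw [h1]
    exact mul_le_mul hcT hcT' hcp'.le (by positivity)
  have hcc1 : (1 : ℝ) ≤ (c : ℝ) * c' := one_le_mul_of_one_le_of_one_le hc1 hc1'
  have hlT : (l : ℝ) ≤ T ^ (1 / 50 : ℝ) := by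
    have h1 : (l : ℝ) ≤ g * l := le_mul_of_one_le_left hlp.le (by exact_mod_cast hg1)
    rw [hgl] at h1
    exact h1.trans hcc
  -- tau
  have hsin : 0 < Real.sin (1 / T) := Real.sin_pos_of_pos_of_lt_pi hd0 (by
    have := Real.pi_gt_three
    linarith)
  have hτ0 : 0 < tau (1 / T) := by
    unfold tau
    exact Real.sqrt_pos.2 (by positivity)
  have hτ1 : tau (1 / T) ≤ 3 * T ^ (-(1 / 2) : ℝ) := by
    unfold tau
    have h1 : Real.sin (1 / T) ≤ 1 / T := Real.sin_le hd0.le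
    have h2 : 2 * Real.pi * Real.sin (1 / T) ≤ 9 * (1 / T) := by
      have h3 := Real.pi_lt_four
      have h4 := Real.pi_pos
      nlinarith
    have h3 : 3 * T ^ (-(1 / 2) : ℝ) = Real.sqrt (9 * (1 / T)) := by
      rw [Real.sqrt_mul (by norm_num), show (9 : ℝ) = 3 ^ 2 by norm_num,
        Real.sqrt_sq (by norm_num), Real.sqrt_eq_rpow, one_div T, Real.inv_rpow hT0.le,
        Real.rpow_neg hT0.le]
    rw [h3]
    exact Real.sqrt_le_sqrt h2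
  have hτl : tau (1 / T) * l ≤ 1 := by
    have h1 : tau (1 / T) * l ≤ 3 * T ^ (-(1 / 2) : ℝ) * T ^ (1 / 50 : ℝ) :=
      mul_le_mul hτ1 hlT hlp.le (by positivity)
    have h2 : 3 * T ^ (-(1 / 2) : ℝ) * T ^ (1 / 50 : ℝ) = 3 * T ^ (-(12 / 25) : ℝ) := by
      rw [mul_assoc, ← Real.rpow_add hT0]
      norm_num
    have h3 : T ^ (-(12 / 25) : ℝ) ≤ 1 / 3 := by
      rw [Real.rpow_neg hT0.le, inv_eq_one_div]
      refine one_div_le_one_div_of_le (by norm_num) ?_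
      rw [Real.rpow_def_of_pos hT0]
      have h4 := Real.add_one_le_exp (Real.log T * (12 / 25))
      linarith
    linarith
  have hl1r : (1 : ℝ) ≤ l := by exact_mod_cast hl1n
  have hg1r : (1 : ℝ) ≤ g := by exact_mod_cast hg1
  have hτg : tau (1 / T) / g ≤ 1 := by
    rw [div_le_one hgp]
    have : tau (1 / T) ≤ tau (1 / T) * l := le_mul_of_one_le_right hτ0.le hl1r
    linarith
  have a1 := H3 Δ hΔn hΔi (tau (1 / T) * l) (by positivity) hτl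
  have a2 := H3 (-Δ) (by rwa [norm_neg]) (by rwa [Complex.neg_im, abs_neg])
    (tau (1 / T) / g) (by positivity) hτg
  have hbr := m0_brace hτ0 hlp hgp Δ (R Δ) (R (-Δ))
  obtain ⟨A1, hA1⟩ : ∃ A1 : ℂ, A1 = (∫ u in (1 : ℝ)..(1 / (tau (1 / T) * l)),
    (u : ℂ) ^ (I * Δ - 1)) + ((tau (1 / T) * l : ℝ) : ℂ) ^ (-(I * Δ)) * R Δ := ⟨_, rfl⟩
  obtain ⟨A2, hA2⟩ : ∃ A2 : ℂ, A2 = (∫ u in (1 : ℝ)..(1 / (tau (1 / T) / g)),
    (u : ℂ) ^ (I * (-Δ) - 1)) + ((tau (1 / T) / g : ℝ) : ℂ) ^ (-(I * (-Δ))) * R (-Δ) := ⟨_, rfl⟩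
  rw [← hA1] at a1 hbr
  rw [← hA2] at a2 hbr
  have hnl : np l (-(I * Δ)) = Complex.exp (-(I * Δ) * ((Real.log (l : ℝ) : ℝ) : ℂ)) := rfl
  have hng : np g (-(I * Δ)) = Complex.exp (-(I * Δ) * ((Real.log (g : ℝ) : ℝ) : ℂ)) := rfl
  rw [hnl, hng, ← hbr, m0_npinv hl1n]
  refine ⟨?_, ?_⟩
  · rw [← integrableOn_univ, ← Set.Iic_union_Ioi (a := (0 : ℝ))]
    exact i2.union i1
  rw [← intervalIntegral.integral_Iic_add_Ioi i2 i1]
  obtain ⟨X, hX⟩ : ∃ X : ℂ, X = np c (I * w) * np c' (-(I * (starRingEnd ℂ) w')) := ⟨_, rfl⟩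
  rw [← hX] at e1 e2 ⊢
  have hXn : ‖X‖ ≤ Real.exp 2 := by
    rw [hX, norm_mul, m0_np, m0_np, ← Real.exp_add]
    refine Real.exp_le_exp.2 ?_
    have h1 : (I * w).re = -w.im := by simp
    have h2 : (-(I * (starRingEnd ℂ) w')).re = -w'.im := by simp
    have h3 : 0 ≤ Real.log (c : ℝ) := Real.log_nonneg hc1
    have h4 : 0 ≤ Real.log (c' : ℝ) := Real.log_nonneg hc1'
    have h5 : -w.im * Real.log (c : ℝ) ≤ |w.im| * Real.log (c : ℝ) :=
      mul_le_mul_of_nonneg_right (neg_le_abs _) h3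
    have h6 : -w'.im * Real.log (c' : ℝ) ≤ |w'.im| * Real.log (c' : ℝ) :=
      mul_le_mul_of_nonneg_right (neg_le_abs _) h4
    rw [h1, h2]
    linarith
  obtain ⟨t, ht⟩ : ∃ t : ℝ, t = tau (1 / T) := ⟨_, rfl⟩
  rw [← ht] at e1 e2 hτ0 a1 a2 ⊢
  obtain ⟨I1, hI1⟩ : ∃ I1 : ℂ, I1 = ∫ y in Set.Ioi (0 : ℝ), gp (1 / T) c w y *
    (starRingEnd ℂ) (gp (1 / T) c' w' y) := ⟨_, rfl⟩
  obtain ⟨I2, hI2⟩ : ∃ I2 : ℂ, I2 = ∫ y in Set.Iic (0 : ℝ), gp (1 / T) c w y *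
    (starRingEnd ℂ) (gp (1 / T) c' w' y) := ⟨_, rfl⟩
  rw [← hI1] at e1 ⊢
  rw [← hI2] at e2 ⊢
  have hccC : ((c : ℂ) * (c' : ℂ)) = (g : ℂ) * (l : ℂ) := by
    exact_mod_cast hgl.symm
  have htC : (t : ℂ) ≠ 0 := by exact_mod_cast hτ0.ne'
  have hgC : (g : ℂ) ≠ 0 := by
    have : (g : ℝ) ≠ 0 := hgp.ne'
    exact_mod_cast this
  have hlC : (l : ℂ) ≠ 0 := by
    have : (l : ℝ) ≠ 0 := hlp.ne'
    exact_mod_cast this
  have hmain : I2 + I1 - ((2 * Real.sqrt Real.pi / t : ℝ) : ℂ) * (X * (1 / (l : ℂ)) * (A1 + A2)) =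
      (I1 - 4 * X * Ei (t * l) Δ) +
      (I2 - 4 * X * (1 / ((c : ℂ) * (c' : ℂ))) * Ei (t / g) (-Δ)) +
      4 * X * (Ei (t * l) Δ - ((Real.sqrt Real.pi / (2 * (t * l)) : ℝ) : ℂ) * A1) +
      4 * X * (1 / ((c : ℂ) * (c' : ℂ))) *
        (Ei (t / g) (-Δ) - ((Real.sqrt Real.pi / (2 * (t / g)) : ℝ) : ℂ) * A2) := by
    rw [hccC]
    push_cast
    field_simp
    ring
  rw [hmain]
  -- the errors
  have hT10 : (1 : ℝ) ≤ T ^ (1 / 10 : ℝ) := Real.one_le_rpow hT1 (by norm_num)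
  have hT25 : (1 : ℝ) ≤ T ^ (1 / 25 : ℝ) := Real.one_le_rpow hT1 (by norm_num)
  have hT50 : (1 : ℝ) ≤ T ^ (1 / 50 : ℝ) := Real.one_le_rpow hT1 (by norm_num)
  have hlogT : Real.log T ≤ 25 * T ^ (1 / 25 : ℝ) := by
    have h := Real.log_le_rpow_div hT0.le (show (0 : ℝ) < 1 / 25 by norm_num)
    have h1 : T ^ (1 / 25 : ℝ) / (1 / 25) = 25 * T ^ (1 / 25 : ℝ) := by ring
    rwa [h1] at h
  have hT225 : T ^ (2 / 25 : ℝ) = (T ^ (1 / 25 : ℝ)) ^ 2 := by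
    rw [sq, ← Real.rpow_add hT0]
    norm_num
  have hTT : T ^ (1 / 50 : ℝ) * T ^ (2 / 25 : ℝ) = T ^ (1 / 10 : ℝ) := by
    rw [← Real.rpow_add hT0]
    norm_num
  have hsq : ∀ y : ℝ, 0 ≤ y → y ≤ 2 * Real.log T → (1 + y) ^ 2 ≤ 2601 * T ^ (2 / 25 : ℝ) := by
    intro y hy1 hy2
    have h1 : 1 + y ≤ 51 * T ^ (1 / 25 : ℝ) := by linarith
    calc (1 + y) ^ 2 ≤ (51 * T ^ (1 / 25 : ℝ)) ^ 2 := by
          exact pow_le_pow_left₀ (by linarith) h1 2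
      _ = 2601 * T ^ (2 / 25 : ℝ) := by rw [hT225]; ring
  have b1 : ‖I1 - 4 * X * Ei (t * l) Δ‖ ≤ 2601 * C1 * T ^ (1 / 10 : ℝ) := by
    refine e1.trans ?_
    rw [one_div_one_div]
    have h1 := hsq (Real.log T) hlog0.le (by linarith)
    have h2 : T ^ (2 / 25 : ℝ) ≤ T ^ (1 / 10 : ℝ) := by
      rw [← hTT]
      exact le_mul_of_one_le_left (by positivity) hT50
    calc C1 * (1 + Real.log T) ^ 2 ≤ C1 * (2601 * T ^ (2 / 25 : ℝ)) :=
          mul_le_mul_of_nonneg_left h1 hC1.le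
      _ ≤ C1 * (2601 * T ^ (1 / 10 : ℝ)) := by gcongr
      _ = 2601 * C1 * T ^ (1 / 10 : ℝ) := by ring
  have b2 : ‖I2 - 4 * X * (1 / ((c : ℂ) * (c' : ℂ))) * Ei (t / g) (-Δ)‖ ≤
      2601 * C2 * T ^ (1 / 10 : ℝ) := by
    refine e2.trans ?_
    have h0 : (c : ℝ) * c' / (1 / T) = c * c' * T := by
      rw [div_div_eq_mul_div, div_one]
    rw [h0]
    have h3 : 0 ≤ Real.log ((c : ℝ) * c' * T) :=
      Real.log_nonneg (one_le_mul_of_one_le_of_one_le hcc1 hT1)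
    have h4 : Real.log ((c : ℝ) * c' * T) ≤ 2 * Real.log T := by
      rw [Real.log_mul (by positivity) hT0.ne', Real.log_mul hcp.ne' hcp'.ne']
      have h5 := hlc c hc hcT
      have h6 := hlc c' hc' hcT'
      linarith
    have h1 := hsq _ h3 h4
    calc C2 * ((c : ℝ) * c') * (1 + Real.log ((c : ℝ) * c' * T)) ^ 2
        ≤ C2 * T ^ (1 / 50 : ℝ) * (2601 * T ^ (2 / 25 : ℝ)) := by gcongr
      _ = 2601 * C2 * (T ^ (1 / 50 : ℝ) * T ^ (2 / 25 : ℝ)) := by ring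
      _ = 2601 * C2 * T ^ (1 / 10 : ℝ) := by rw [hTT]
  have h4n : ‖(4 : ℂ)‖ = 4 := by norm_num
  have b3 : ‖4 * X * (Ei (t * l) Δ - ((Real.sqrt Real.pi / (2 * (t * l)) : ℝ) : ℂ) * A1)‖ ≤
      4 * Real.exp 2 * C3 := by
    rw [norm_mul, norm_mul, h4n]
    gcongr
  have b4 : ‖4 * X * (1 / ((c : ℂ) * (c' : ℂ))) *
        (Ei (t / g) (-Δ) - ((Real.sqrt Real.pi / (2 * (t / g)) : ℝ) : ℂ) * A2)‖ ≤
      4 * Real.exp 2 * C3 := by
    rw [norm_mul, norm_mul, norm_mul, h4n]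
    have h1 : ‖1 / ((c : ℂ) * (c' : ℂ))‖ ≤ 1 := by
      rw [norm_div, norm_one, norm_mul, Complex.norm_natCast, Complex.norm_natCast]
      rw [div_le_one (by positivity)]
      exact hcc1
    calc 4 * ‖X‖ * ‖1 / ((c : ℂ) * (c' : ℂ))‖ *
          ‖Ei (t / g) (-Δ) - ((Real.sqrt Real.pi / (2 * (t / g)) : ℝ) : ℂ) * A2‖
        ≤ 4 * Real.exp 2 * 1 * C3 := by gcongr
      _ = 4 * Real.exp 2 * C3 := by ring
  refine (norm_add_le _ _).trans ?_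
  refine (add_le_add ((norm_add_le _ _).trans (add_le_add ((norm_add_le _ _).trans
    (add_le_add b1 b2)) b3)) b4).trans ?_
  have h7 : 8 * Real.exp 2 * C3 ≤ 8 * Real.exp 2 * C3 * T ^ (1 / 10 : ℝ) :=
    le_mul_of_one_le_right (by positivity) hT10
  have h8 : 0 ≤ C3 * T ^ (1 / 10 : ℝ) := by positivity
  nlinarith [h7, h8]

theorem KK_main : ∃ (C : ℝ) (R : ℂ → ℂ), 0 < C ∧ (∀ x : ℂ, ‖x‖ ≤ 2 → |x.im| ≤ 1 / 4 → ‖R x‖ ≤ C) ∧
    ∀ (ι : Type) (T : ℝ) (w w' : ℂ) (s : Finset ι) (a : ι → ℂ) (c : ι → ℕ), Real.exp 40 ≤ T →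
    ‖w‖ ≤ 1 → ‖w'‖ ≤ 1 → |w.im| ≤ 1 / Real.log T → |w'.im| ≤ 1 / Real.log T →
    (∀ i ∈ s, 1 ≤ c i ∧ (c i : ℝ) ≤ T ^ (1 / 100 : ℝ)) →
    ‖KK (1 / T) w w' s a c - ((4 * Real.pi * Real.sqrt Real.pi / tau (1 / T) : ℝ) : ℂ) *
      ∑ i ∈ s, ∑ j ∈ s, a i * (starRingEnd ℂ) (a j) * np (c i) (I * w) * np (c j) (-(I * (starRingEnd ℂ) w')) *
        np (Nat.lcm (c i) (c j)) (-1) *
        ((∫ x in (Real.log (tau (1 / T)) - Real.log (Nat.gcd (c i) (c j) : ℝ))..(-Real.log (tau (1 / T)) -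
            Real.log (Nat.lcm (c i) (c j) : ℝ)), Complex.exp (I * (w - (starRingEnd ℂ) w') * (x : ℂ))) +
          Complex.exp (-(I * (w - (starRingEnd ℂ) w') * (Real.log (tau (1 / T)) : ℂ))) *
            np (Nat.lcm (c i) (c j)) (-(I * (w - (starRingEnd ℂ) w'))) * R (w - (starRingEnd ℂ) w') +
          Complex.exp (I * (w - (starRingEnd ℂ) w') * (Real.log (tau (1 / T)) : ℂ)) *
            np (Nat.gcd (c i) (c j)) (-(I * (w - (starRingEnd ℂ) w'))) * R (-(w - (starRingEnd ℂ) w')))‖ ≤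
      C * (∑ i ∈ s, ‖a i‖) ^ 2 * T ^ (1 / 10 : ℝ) := by
  obtain ⟨C, R, hC, hR, H⟩ := m0_pair
  refine ⟨2 * Real.pi * C + C, R, by positivity, ?_, ?_⟩
  · intro x hx1 hx2
    refine (hR x hx1 hx2).trans ?_
    have : 0 ≤ 2 * Real.pi * C := by positivity
    linarith
  intro ι T w w' s a c hT hw hw' hwi hwi' hc
  have hT0 : 0 < T := (Real.exp_pos 40).trans_le hT
  have hlog : 40 ≤ Real.log T := by
    rw [Real.le_log_iff_exp_le hT0]
    exact hT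
  have hd0 : 0 < 1 / T := by positivity
  have hd1 : 1 / T ≤ 1 / 2 := by
    have := Real.add_one_le_exp (40 : ℝ)
    rw [div_le_div_iff₀ hT0 (by norm_num)]
    linarith
  have h40 : 1 / Real.log T ≤ 1 / 40 := one_div_le_one_div_of_le (by norm_num) hlog
  have hwi4 : |w.im| ≤ 1 / 4 := hwi.trans (h40.trans (by norm_num))
  have hwi4' : |w'.im| ≤ 1 / 4 := hwi'.trans (h40.trans (by norm_num))
  have hpair := fun i (hi : i ∈ s) j (hj : j ∈ s) => H T w w' (c i) (c j) hT hw hw' hwi hwi'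
    (hc i hi).1 (hc j hj).1 (hc i hi).2 (hc j hj).2
  have hGW : ∀ (w : ℂ) (y : ℝ), GW (1 / T) w s a c y = ∑ i ∈ s, a i * gp (1 / T) (c i) w y := by
    intro w y
    unfold GW gp
    exact Finset.sum_congr rfl fun i _ => by ring
  have hint : ∫ y : ℝ, GW (1 / T) w s a c y * (starRingEnd ℂ) (GW (1 / T) w' s a c y) =
      ∑ i ∈ s, ∑ j ∈ s, a i * (starRingEnd ℂ) (a j) *
        ∫ y : ℝ, gp (1 / T) (c i) w y * (starRingEnd ℂ) (gp (1 / T) (c j) w' y) := by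
    have h1 : ∀ y : ℝ, GW (1 / T) w s a c y * (starRingEnd ℂ) (GW (1 / T) w' s a c y) =
        ∑ i ∈ s, ∑ j ∈ s, a i * (starRingEnd ℂ) (a j) *
          (gp (1 / T) (c i) w y * (starRingEnd ℂ) (gp (1 / T) (c j) w' y)) := by
      intro y
      rw [hGW, hGW, map_sum, Finset.sum_mul_sum]
      refine Finset.sum_congr rfl fun i _ => Finset.sum_congr rfl fun j _ => ?_
      rw [map_mul]
      ring
    simp only [h1]
    rw [integral_finsetSum s fun i hi => integrable_finsetSum s fun j hj =>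
      (hpair i hi j hj).1.const_mul _]
    refine Finset.sum_congr rfl fun i hi => ?_
    rw [integral_finsetSum s fun j hj => (hpair i hi j hj).1.const_mul _]
    refine Finset.sum_congr rfl fun j _ => ?_
    rw [integral_const_mul]
  rw [pars hd0 hd1 hwi4 hwi4' s a c (fun i hi => (hc i hi).1), hint, Finset.mul_sum,
    Finset.mul_sum, ← Finset.sum_sub_distrib]
  have hterm : ∀ i ∈ s, ‖2 * (Real.pi : ℂ) * (∑ j ∈ s, a i * (starRingEnd ℂ) (a j) *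
        ∫ y : ℝ, gp (1 / T) (c i) w y * (starRingEnd ℂ) (gp (1 / T) (c j) w' y)) -
      ((4 * Real.pi * Real.sqrt Real.pi / tau (1 / T) : ℝ) : ℂ) *
      ∑ j ∈ s, a i * (starRingEnd ℂ) (a j) * np (c i) (I * w) * np (c j) (-(I * (starRingEnd ℂ) w')) *
        np (Nat.lcm (c i) (c j)) (-1) *
        ((∫ x in (Real.log (tau (1 / T)) - Real.log (Nat.gcd (c i) (c j) : ℝ))..(-Real.log (tau (1 / T)) -
            Real.log (Nat.lcm (c i) (c j) : ℝ)), Complex.exp (I * (w - (starRingEnd ℂ) w') * (x : ℂ))) +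
          Complex.exp (-(I * (w - (starRingEnd ℂ) w') * (Real.log (tau (1 / T)) : ℂ))) *
            np (Nat.lcm (c i) (c j)) (-(I * (w - (starRingEnd ℂ) w'))) * R (w - (starRingEnd ℂ) w') +
          Complex.exp (I * (w - (starRingEnd ℂ) w') * (Real.log (tau (1 / T)) : ℂ)) *
            np (Nat.gcd (c i) (c j)) (-(I * (w - (starRingEnd ℂ) w'))) * R (-(w - (starRingEnd ℂ) w')))‖ ≤
      ∑ j ∈ s, ‖a i‖ * ‖a j‖ * (2 * Real.pi * C * T ^ (1 / 10 : ℝ)) := by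
    intro i hi
    rw [Finset.mul_sum, Finset.mul_sum, ← Finset.sum_sub_distrib]
    refine (norm_sum_le _ _).trans (Finset.sum_le_sum fun j hj => ?_)
    have h1 := (hpair i hi j hj).2
    obtain ⟨Z, hZ⟩ : ∃ Z : ℂ, Z = ∫ y : ℝ, gp (1 / T) (c i) w y *
      (starRingEnd ℂ) (gp (1 / T) (c j) w' y) := ⟨_, rfl⟩
    obtain ⟨B, hB⟩ : ∃ B : ℂ, B = ((∫ x in (Real.log (tau (1 / T)) - Real.log (Nat.gcd (c i) (c j) : ℝ))..(-Real.log (tau (1 / T)) -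
            Real.log (Nat.lcm (c i) (c j) : ℝ)), Complex.exp (I * (w - (starRingEnd ℂ) w') * (x : ℂ))) +
          Complex.exp (-(I * (w - (starRingEnd ℂ) w') * (Real.log (tau (1 / T)) : ℂ))) *
            np (Nat.lcm (c i) (c j)) (-(I * (w - (starRingEnd ℂ) w'))) * R (w - (starRingEnd ℂ) w') +
          Complex.exp (I * (w - (starRingEnd ℂ) w') * (Real.log (tau (1 / T)) : ℂ)) *
            np (Nat.gcd (c i) (c j)) (-(I * (w - (starRingEnd ℂ) w'))) * R (-(w - (starRingEnd ℂ) w'))) :=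
      ⟨_, rfl⟩
    rw [← hZ, ← hB] at h1 ⊢
    have h2 : 2 * (Real.pi : ℂ) * (a i * (starRingEnd ℂ) (a j) * Z) -
        ((4 * Real.pi * Real.sqrt Real.pi / tau (1 / T) : ℝ) : ℂ) *
        (a i * (starRingEnd ℂ) (a j) * np (c i) (I * w) * np (c j) (-(I * (starRingEnd ℂ) w')) *
          np (Nat.lcm (c i) (c j)) (-1) * B) =
        2 * (Real.pi : ℂ) * (a i * (starRingEnd ℂ) (a j)) *
        (Z - ((2 * Real.sqrt Real.pi / tau (1 / T) : ℝ) : ℂ) *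
          (np (c i) (I * w) * np (c j) (-(I * (starRingEnd ℂ) w')) *
            np (Nat.lcm (c i) (c j)) (-1) * B)) := by
      push_cast
      ring
    rw [h2, norm_mul, norm_mul, norm_mul, norm_mul, RCLike.norm_conj]
    have h3 : ‖(2 : ℂ)‖ = 2 := by norm_num
    have h4 : ‖(Real.pi : ℂ)‖ = Real.pi := by
      rw [Complex.norm_real, Real.norm_eq_abs, abs_of_pos Real.pi_pos]
    rw [h3, h4]
    calc 2 * Real.pi * (‖a i‖ * ‖a j‖) * _ ≤ 2 * Real.pi * (‖a i‖ * ‖a j‖) *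
          (C * T ^ (1 / 10 : ℝ)) := mul_le_mul_of_nonneg_left h1 (by positivity)
      _ = ‖a i‖ * ‖a j‖ * (2 * Real.pi * C * T ^ (1 / 10 : ℝ)) := by ring
  refine (norm_sum_le _ _).trans ((Finset.sum_le_sum hterm).trans ?_)
  have h5 : ∑ i ∈ s, ∑ j ∈ s, ‖a i‖ * ‖a j‖ * (2 * Real.pi * C * T ^ (1 / 10 : ℝ)) =
      (∑ i ∈ s, ‖a i‖) ^ 2 * (2 * Real.pi * C * T ^ (1 / 10 : ℝ)) := by
    rw [sq, Finset.sum_mul_sum, Finset.sum_mul]
    exact Finset.sum_congr rfl fun i _ => by rw [Finset.sum_mul]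
  rw [h5]
  have h6 : 0 ≤ C * (∑ i ∈ s, ‖a i‖) ^ 2 * T ^ (1 / 10 : ℝ) := by positivity
  nlinarith [h6]

end Pool.Agent.H28.ZT
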