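import Pool.Agent.H28.ZT.MelR

/-!
# MELC (chapter A): rotation of the Mellin transform

For `Re z > 0`, `0 < Re s < 1`:
`∫_0^∞ (om (x z) - (x z)^(-1/2)/2) x^(s/2-1) dx = z^(-s/2) Λ(s)`.
For real `z > 0` this is the substitution `x -> x/z` in MELR.  Both sides are holomorphic in `z` on `Re z > 0`
(`hasDerivAt_integral_of_dominated_loc_of_deriv_le` or differentiability under the integral sign through
`DifferentiableOn` of the integrand and a locally uniform majorant: on a compact set of `z`,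
`‖om (x z) - (x z)^(-1/2)/2‖ ≤ C x^(-1/2)` for `x ≥ 1` (OM) and `≤ C` for `x ≤ 1`
(`om (w) - w^(-1/2)/2 = -1/2 + w^(-1/2) om (1/w)`, OMFE, `Re (1/(x z)) = Re z/(x |z|²) ≥ c/x`).  A convenient way: the
integrand is holomorphic in `z` and dominated by a fixed integrable function on every ball `closedBall z r ⊂ {Re > 0}`; use
Cauchy's bound for the derivative, or Morera.  Then the identity theorem on the right half plane
(`AnalyticOnNhd.eqOn_of_preconnected_of_frequently_eq`, accumulation point 1).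
-/

set_option autoImplicit false

namespace Pool.Agent.H28.ZT

open Complex MeasureTheory

/-- A parametric integral of holomorphic functions with a fixed majorant is complex differentiable. -/
private theorem mc_diff {F : ℂ → ℝ → ℂ} {S : Set ℝ} (hS : MeasurableSet S) {z0 : ℂ} {r : ℝ} (hr : 0 < r)
    {M : ℝ → ℝ} (hM : IntegrableOn M S)
    (hm : ∀ z ∈ Metric.ball z0 r, AEStronglyMeasurable (F z) (volume.restrict S))
    (hb : ∀ z ∈ Metric.ball z0 r, ∀ x ∈ S, ‖F z x‖ ≤ M x)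
    (hd : ∀ x ∈ S, DifferentiableOn ℂ (fun z => F z x) (Metric.ball z0 r)) :
    DifferentiableAt ℂ (fun z => ∫ x in S, F z x) z0 := by
  have hr2 : 0 < r / 2 := by linarith
  have hsub : ∀ z ∈ Metric.ball z0 (r / 2), Metric.closedBall z (r / 2) ⊆ Metric.ball z0 r := by
    intro z hz w hw
    rw [Metric.mem_ball] at hz ⊢
    rw [Metric.mem_closedBall] at hw
    have := dist_triangle w z z0
    linarith
  have hmem : ∀ z ∈ Metric.ball z0 (r / 2), z ∈ Metric.ball z0 r := by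
    intro z hz
    exact hsub z hz (Metric.mem_closedBall_self hr2.le)
  have hder : ∀ x ∈ S, ∀ z ∈ Metric.ball z0 (r / 2),
      HasDerivAt (fun z => F z x) (deriv (fun z => F z x) z) z := by
    intro x hx z hz
    exact ((hd x hx).differentiableAt (Metric.isOpen_ball.mem_nhds (hmem z hz))).hasDerivAt
  have hbd : ∀ x ∈ S, ∀ z ∈ Metric.ball z0 (r / 2), ‖deriv (fun z => F z x) z‖ ≤ M x / (r / 2) := by
    intro x hx z hz
    apply Complex.norm_deriv_le_of_forall_mem_sphere_norm_le hr2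
    · apply DifferentiableOn.diffContOnCl
      rw [closure_ball z hr2.ne']
      exact (hd x hx).mono (hsub z hz)
    · intro w hw
      exact hb w (hsub z hz (Metric.sphere_subset_closedBall hw)) x hx
  have h0 : z0 ∈ Metric.ball z0 (r / 2) := Metric.mem_ball_self hr2
  have hmd : AEStronglyMeasurable (fun x => deriv (fun z => F z x) z0) (volume.restrict S) := by
    have hh : ∀ n : ℕ, z0 + (((r / 2) / ((n : ℝ) + 2) : ℝ) : ℂ) ∈ Metric.ball z0 r := by
      intro n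
      rw [Metric.mem_ball, dist_eq_norm, add_sub_cancel_left, Complex.norm_real, Real.norm_eq_abs,
        abs_of_pos (by positivity)]
      rw [div_lt_iff₀ (by positivity)]
      have : (0 : ℝ) ≤ n := Nat.cast_nonneg n
      nlinarith
    have h1 : Filter.Tendsto (fun n : ℕ => (((r / 2) / ((n : ℝ) + 2) : ℝ) : ℂ)) Filter.atTop
        (nhdsWithin 0 {0}ᶜ) := by
      apply tendsto_nhdsWithin_iff.2
      refine ⟨?_, Filter.Eventually.of_forall fun n => ?_⟩
      · have h2 : Filter.Tendsto (fun n : ℕ => (r / 2) / ((n : ℝ) + 2)) Filter.atTop (nhds 0) := by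
          apply Filter.Tendsto.div_atTop tendsto_const_nhds
          exact Filter.tendsto_atTop_add_const_right _ _ tendsto_natCast_atTop_atTop
        have h3 := (Complex.continuous_ofReal.tendsto 0).comp h2
        rw [Complex.ofReal_zero] at h3
        exact h3
      · rw [Set.mem_compl_iff, Set.mem_singleton_iff]
        have h4 : (0 : ℝ) < (r / 2) / ((n : ℝ) + 2) := by positivity
        exact_mod_cast h4.ne'
    apply aestronglyMeasurable_of_tendsto_ae (u := Filter.atTop)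
      (f := fun (n : ℕ) x => ((((r / 2) / ((n : ℝ) + 2) : ℝ) : ℂ))⁻¹ •
        (F (z0 + (((r / 2) / ((n : ℝ) + 2) : ℝ) : ℂ)) x - F z0 x))
    · intro n
      exact AEStronglyMeasurable.const_smul ((hm _ (hh n)).sub (hm _ (hmem _ h0)))
        ((((r / 2) / ((n : ℝ) + 2) : ℝ) : ℂ))⁻¹
    · filter_upwards [ae_restrict_mem hS] with x hx
      exact ((hder x hx z0 h0).tendsto_slope_zero).comp h1
  have h := hasDerivAt_integral_of_dominated_loc_of_deriv_le (μ := volume.restrict S) (𝕜 := ℂ)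
    (F := F) (F' := fun z x => deriv (fun z => F z x) z) (x₀ := z0) (s := Metric.ball z0 (r / 2))
    (bound := fun x => M x / (r / 2)) (Metric.ball_mem_nhds z0 hr2)
    (Filter.eventually_of_mem (Metric.ball_mem_nhds z0 hr2) fun z hz => hm z (hmem z hz))
    (by
      refine Integrable.mono' hM (hm _ (hmem _ h0)) ?_
      filter_upwards [ae_restrict_mem hS] with x hx
      exact hb _ (hmem _ h0) x hx)
    hmd
    (by
      filter_upwards [ae_restrict_mem hS] with x hx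
      exact fun z hz => hbd x hx z hz)
    (hM.div_const _)
    (by
      filter_upwards [ae_restrict_mem hS] with x hx
      exact fun z hz => hder x hx z hz)
  exact h.2.differentiableAt

private theorem mc_re {x : ℝ} {z : ℂ} : ((x : ℂ) * z).re = x * z.re := by simp

/-- the integrand -/
private noncomputable def mcF (u : ℂ) (z : ℂ) (x : ℝ) : ℂ :=
  (om ((x : ℂ) * z) - (1 / 2 : ℂ) * (((x ^ (-(1 / 2) : ℝ) : ℝ) : ℂ) * z ^ (-(1 / 2) : ℂ))) * (x : ℂ) ^ (u - 1)

private theorem mc_half (z : ℂ) : ‖z ^ (-(1 / 2) : ℂ)‖ = ‖z‖ ^ (-(1 / 2) : ℝ) := by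
  have h := Complex.norm_cpow_real z (-(1 / 2))
  rw [← h]
  push_cast
  rfl

private theorem mc_xz {x : ℝ} (hx : 0 < x) (z : ℂ) :
    ((x : ℂ) * z) ^ (-(1 / 2) : ℂ) = ((x ^ (-(1 / 2) : ℝ) : ℝ) : ℂ) * z ^ (-(1 / 2) : ℂ) := by
  rw [Complex.ofReal_cpow hx.le]
  by_cases hz : z = 0
  · subst hz
    rw [mul_zero, Complex.zero_cpow (by norm_num), mul_zero]
  · have hx0 : (x : ℂ) ≠ 0 := by exact_mod_cast hx.ne'
    rw [Complex.cpow_def_of_ne_zero (mul_ne_zero hx0 hz), Complex.cpow_def_of_ne_zero hx0,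
      Complex.cpow_def_of_ne_zero hz, Complex.log_ofReal_mul hx hz, ← Complex.exp_add,
      Complex.ofReal_log hx.le]
    congr 1
    push_cast
    ring

/-- the bound for large `x` -/
private theorem mc_b1 {a : ℝ} (ha : 0 < a) : ∃ C : ℝ, 0 ≤ C ∧ ∀ z : ℂ, a ≤ z.re → ∀ x : ℝ, 1 ≤ x →
    ‖om ((x : ℂ) * z) - (1 / 2 : ℂ) * (((x ^ (-(1 / 2) : ℝ) : ℝ) : ℂ) * z ^ (-(1 / 2) : ℂ))‖ ≤
      C * x ^ (-(1 / 2) : ℝ) := by
  refine ⟨1 / (Real.pi * a) * (1 + 1 / Real.sqrt a) + 1 / 2 * a ^ (-(1 / 2) : ℝ), by positivity, ?_⟩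
  intro z hz x hx
  have hx0 : 0 < x := by linarith
  have hzre : 0 < z.re := lt_of_lt_of_le ha hz
  have hxz : 0 < ((x : ℂ) * z).re := by rw [mc_re]; positivity
  have h1 := om_norm_le hxz
  rw [mc_re] at h1
  have h2 : a * x ≤ x * z.re := by nlinarith
  have h2' : a ≤ x * z.re := by nlinarith
  have h3 : Real.exp (-(Real.pi * (x * z.re))) ≤ 1 / (Real.pi * a) * x ^ (-(1 / 2) : ℝ) := by
    have h4 : Real.exp (-(Real.pi * (x * z.re))) ≤ Real.exp (-(Real.pi * (a * x))) := by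
      apply Real.exp_le_exp.2
      have := mul_le_mul_of_nonneg_left h2 Real.pi_pos.le
      linarith
    have h5 : Real.exp (-(Real.pi * (a * x))) ≤ 1 / (Real.pi * (a * x)) := by
      rw [Real.exp_neg, ← one_div]
      apply one_div_le_one_div_of_le (by positivity)
      have := Real.add_one_le_exp (Real.pi * (a * x))
      linarith
    have h6 : 1 / (Real.pi * (a * x)) = 1 / (Real.pi * a) * x⁻¹ := by
      field_simp
    have h7 : x⁻¹ ≤ x ^ (-(1 / 2) : ℝ) := by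
      rw [← Real.rpow_neg_one]
      exact Real.rpow_le_rpow_of_exponent_le hx (by norm_num)
    calc Real.exp (-(Real.pi * (x * z.re))) ≤ 1 / (Real.pi * a) * x⁻¹ := by
          rw [← h6]; exact h4.trans h5
      _ ≤ _ := mul_le_mul_of_nonneg_left h7 (by positivity)
  have h8 : 1 + 1 / Real.sqrt (x * z.re) ≤ 1 + 1 / Real.sqrt a := by
    have := one_div_le_one_div_of_le (Real.sqrt_pos.2 ha) (Real.sqrt_le_sqrt h2')
    linarith
  have h9 : ‖om ((x : ℂ) * z)‖ ≤ 1 / (Real.pi * a) * (1 + 1 / Real.sqrt a) * x ^ (-(1 / 2) : ℝ) := by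
    refine h1.trans ?_
    calc Real.exp (-(Real.pi * (x * z.re))) * (1 + 1 / Real.sqrt (x * z.re))
        ≤ (1 / (Real.pi * a) * x ^ (-(1 / 2) : ℝ)) * (1 + 1 / Real.sqrt a) :=
          mul_le_mul h3 h8 (by positivity) (by positivity)
      _ = _ := by ring
  have h10 : ‖(1 / 2 : ℂ) * (((x ^ (-(1 / 2) : ℝ) : ℝ) : ℂ) * z ^ (-(1 / 2) : ℂ))‖ ≤
      1 / 2 * a ^ (-(1 / 2) : ℝ) * x ^ (-(1 / 2) : ℝ) := by
    rw [norm_mul, norm_mul, mc_half, Complex.norm_real, Real.norm_eq_abs,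
      abs_of_nonneg (Real.rpow_nonneg hx0.le _)]
    have h11 : ‖(1 / 2 : ℂ)‖ = 1 / 2 := by norm_num
    rw [h11]
    have h12 : ‖z‖ ^ (-(1 / 2) : ℝ) ≤ a ^ (-(1 / 2) : ℝ) := by
      apply Real.rpow_le_rpow_of_nonpos ha _ (by norm_num)
      exact hz.trans (Complex.re_le_norm z)
    have h13 := mul_le_mul_of_nonneg_left h12 (Real.rpow_nonneg hx0.le (-(1 / 2)))
    calc 1 / 2 * (x ^ (-(1 / 2) : ℝ) * ‖z‖ ^ (-(1 / 2) : ℝ))
        ≤ 1 / 2 * (x ^ (-(1 / 2) : ℝ) * a ^ (-(1 / 2) : ℝ)) :=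
          mul_le_mul_of_nonneg_left h13 (by norm_num)
      _ = _ := by ring
  calc _ ≤ _ := norm_sub_le _ _
    _ ≤ _ := add_le_add h9 h10
    _ = _ := by ring

/-- the bound for small `x` -/
private theorem mc_b0 {a R : ℝ} (ha : 0 < a) (hR : 0 < R) : ∃ C : ℝ, 0 ≤ C ∧ ∀ z : ℂ, a ≤ z.re → ‖z‖ ≤ R →
    ∀ x : ℝ, 0 < x → x ≤ 1 →
    ‖om ((x : ℂ) * z) - (1 / 2 : ℂ) * (((x ^ (-(1 / 2) : ℝ) : ℝ) : ℂ) * z ^ (-(1 / 2) : ℂ))‖ ≤ C := by
  obtain ⟨b, hb⟩ : ∃ b : ℝ, b = a / R ^ 2 := ⟨_, rfl⟩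
  have hb0 : 0 < b := by rw [hb]; positivity
  refine ⟨1 / 2 + a ^ (-(1 / 2) : ℝ) * (1 / (Real.pi * b) * (1 + 1 / Real.sqrt b)), by positivity, ?_⟩
  intro z hz hzR x hx hx1
  have hzre : 0 < z.re := lt_of_lt_of_le ha hz
  have hzn : 0 < ‖z‖ := lt_of_lt_of_le hzre (Complex.re_le_norm z)
  have hz0 : z ≠ 0 := norm_pos_iff.1 hzn
  have hxc : (x : ℂ) ≠ 0 := by exact_mod_cast hx.ne'
  have hxz : 0 < ((x : ℂ) * z).re := by rw [mc_re]; positivity
  obtain ⟨w, hw⟩ : ∃ w : ℂ, w = (x : ℂ) * z := ⟨_, rfl⟩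
  have hw0 : w ≠ 0 := by rw [hw]; exact mul_ne_zero hxc hz0
  have hwn : ‖w‖ = x * ‖z‖ := by
    rw [hw, norm_mul, Complex.norm_real, Real.norm_eq_abs, abs_of_pos hx]
  rw [← mc_xz hx, ← hw]
  rw [← hw] at hxz
  have hre : b / x ≤ (1 / w).re := by
    have h1 : (1 / w).re = w.re / ‖w‖ ^ 2 := by
      rw [one_div, Complex.inv_re, Complex.normSq_eq_norm_sq]
    rw [h1, hwn, hw, mc_re, hb]
    rw [div_div, div_le_div_iff₀ (by positivity) (by positivity)]
    have h2 : ‖z‖ ^ 2 ≤ R ^ 2 := pow_le_pow_left₀ hzn.le hzR 2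
    have h3 : a * ‖z‖ ^ 2 ≤ z.re * R ^ 2 := mul_le_mul hz h2 (by positivity) hzre.le
    have h4 := mul_le_mul_of_nonneg_left h3 (sq_nonneg x)
    nlinarith
  have hw1 : 0 < (1 / w).re := lt_of_lt_of_le (by positivity) hre
  have hfe := om_fe hxz
  have hom : om w - (1 / 2 : ℂ) * w ^ (-(1 / 2) : ℂ) = -(1 / 2) + w ^ (-(1 / 2) : ℂ) * om (1 / w) := by
    have h1 : w ^ (-(1 / 2) : ℂ) * w ^ (1 / 2 : ℂ) = 1 := by
      rw [← Complex.cpow_add _ _ hw0, neg_add_cancel, Complex.cpow_zero]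
    have h2 : w ^ (-(1 / 2) : ℂ) * (om (1 / w) + 1 / 2) = om w + 1 / 2 := by
      rw [hfe, ← mul_assoc, h1, one_mul]
    linear_combination -h2
  rw [hom]
  have h5 := om_norm_le hw1
  have h6 : Real.exp (-(Real.pi * (1 / w).re)) ≤ 1 / (Real.pi * b) * x := by
    have h7 : Real.exp (-(Real.pi * (1 / w).re)) ≤ Real.exp (-(Real.pi * (b / x))) := by
      apply Real.exp_le_exp.2
      have := mul_le_mul_of_nonneg_left hre Real.pi_pos.le
      linarith
    refine h7.trans ?_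
    rw [Real.exp_neg]
    have h8 : 1 / (Real.pi * b) * x = (Real.pi * (b / x))⁻¹ := by
      field_simp
    rw [h8]
    apply inv_anti₀ (by positivity)
    have := Real.add_one_le_exp (Real.pi * (b / x))
    linarith
  have h9 : 1 + 1 / Real.sqrt (1 / w).re ≤ 1 + 1 / Real.sqrt b := by
    have hbx : b ≤ b / x := by
      rw [le_div_iff₀ hx]
      nlinarith
    have := one_div_le_one_div_of_le (Real.sqrt_pos.2 hb0) (Real.sqrt_le_sqrt (hbx.trans hre))
    linarith
  have h10 : ‖om (1 / w)‖ ≤ x * (1 / (Real.pi * b) * (1 + 1 / Real.sqrt b)) := by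
    refine h5.trans ?_
    calc Real.exp (-(Real.pi * (1 / w).re)) * (1 + 1 / Real.sqrt (1 / w).re)
        ≤ (1 / (Real.pi * b) * x) * (1 + 1 / Real.sqrt b) :=
          mul_le_mul h6 h9 (by positivity) (by positivity)
      _ = _ := by ring
  have h11 : ‖w ^ (-(1 / 2) : ℂ)‖ ≤ a ^ (-(1 / 2) : ℝ) * x ^ (-(1 / 2) : ℝ) := by
    rw [mc_half, ← Real.mul_rpow ha.le hx.le]
    apply Real.rpow_le_rpow_of_nonpos (by positivity) _ (by norm_num)
    rw [hwn]
    have := hz.trans (Complex.re_le_norm z)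
    nlinarith
  have h12 : x ^ (-(1 / 2) : ℝ) * x ≤ 1 := by
    have h13 : x ^ (-(1 / 2) : ℝ) * x = x ^ (1 / 2 : ℝ) := by
      nth_rewrite 2 [← Real.rpow_one x]
      rw [← Real.rpow_add hx]
      norm_num
    rw [h13]
    exact Real.rpow_le_one hx.le hx1 (by norm_num)
  have h14 : ‖w ^ (-(1 / 2) : ℂ) * om (1 / w)‖ ≤
      a ^ (-(1 / 2) : ℝ) * (1 / (Real.pi * b) * (1 + 1 / Real.sqrt b)) := by
    rw [norm_mul]
    calc ‖w ^ (-(1 / 2) : ℂ)‖ * ‖om (1 / w)‖
        ≤ (a ^ (-(1 / 2) : ℝ) * x ^ (-(1 / 2) : ℝ)) * (x * (1 / (Real.pi * b) * (1 + 1 / Real.sqrt b))) :=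
          mul_le_mul h11 h10 (norm_nonneg _) (by positivity)
      _ = (x ^ (-(1 / 2) : ℝ) * x) * (a ^ (-(1 / 2) : ℝ) * (1 / (Real.pi * b) * (1 + 1 / Real.sqrt b))) := by
          ring
      _ ≤ 1 * (a ^ (-(1 / 2) : ℝ) * (1 / (Real.pi * b) * (1 + 1 / Real.sqrt b))) :=
          mul_le_mul_of_nonneg_right h12 (by positivity)
      _ = _ := one_mul _
  calc _ ≤ _ := norm_add_le _ _
    _ ≤ _ := add_le_add (by norm_num) h14

private theorem mc_cont (u : ℂ) {z : ℂ} (hz : 0 < z.re) : ContinuousOn (mcF u z) (Set.Ioi 0) := by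
  unfold mcF
  apply ContinuousOn.mul
  · apply ContinuousOn.sub
    · apply om_diff.continuousOn.comp
      · exact (Complex.continuous_ofReal.mul continuous_const).continuousOn
      · intro x hx
        have hx' : (0 : ℝ) < x := hx
        show 0 < ((x : ℂ) * z).re
        rw [mc_re]
        positivity
    · apply ContinuousOn.mul continuousOn_const
      apply ContinuousOn.mul _ continuousOn_const
      apply Complex.continuous_ofReal.comp_continuousOn
      intro x hx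
      exact (Real.continuousAt_rpow_const x _ (Or.inl (ne_of_gt hx))).continuousWithinAt
  · intro x hx
    exact (Complex.continuousAt_ofReal_cpow_const x _ (Or.inr (ne_of_gt hx))).continuousWithinAt

private theorem mc_meas (u : ℂ) {z : ℂ} (hz : 0 < z.re) :
    AEStronglyMeasurable (mcF u z) (volume.restrict (Set.Ioi 0)) :=
  (mc_cont u hz).aestronglyMeasurable measurableSet_Ioi

/-- local majorant -/
private theorem mc_maj {u : ℂ} (hu0 : 0 < u.re) (hu1 : u.re < 1 / 2) {a R : ℝ} (ha : 0 < a) (hR : 0 < R) :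
    ∃ M : ℝ → ℝ, IntegrableOn M (Set.Ioi 0) ∧ ∀ z : ℂ, a ≤ z.re → ‖z‖ ≤ R → ∀ x ∈ Set.Ioi (0 : ℝ),
      ‖mcF u z x‖ ≤ M x := by
  obtain ⟨C1, hC1, h1⟩ := mc_b1 ha
  obtain ⟨C0, hC0, h0⟩ := mc_b0 ha hR
  have hA : IntegrableOn (fun x : ℝ => C0 * x ^ (u.re - 1)) (Set.Ioc 0 1) := by
    apply Integrable.const_mul
    have h := intervalIntegral.intervalIntegrable_rpow' (a := 0) (b := 1) (r := u.re - 1) (by linarith)
    rw [intervalIntegrable_iff_integrableOn_Ioc_of_le zero_le_one] at h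
    exact h
  have hB : IntegrableOn (fun x : ℝ => C1 * x ^ (u.re - 3 / 2)) (Set.Ioi 1) := by
    apply Integrable.const_mul
    exact integrableOn_Ioi_rpow_of_lt (by linarith) one_pos
  refine ⟨fun x => (Set.Ioc 0 1).indicator (fun x : ℝ => C0 * x ^ (u.re - 1)) x +
    (Set.Ioi 1).indicator (fun x : ℝ => C1 * x ^ (u.re - 3 / 2)) x, ?_, ?_⟩
  · apply Integrable.add
    · exact ((integrable_indicator_iff measurableSet_Ioc).2 hA).integrableOn
    · exact ((integrable_indicator_iff measurableSet_Ioi).2 hB).integrableOn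
  · intro z hz hzR x hx
    have hx0 : (0 : ℝ) < x := hx
    have hn : ‖(x : ℂ) ^ (u - 1)‖ = x ^ (u.re - 1) := by
      rw [Complex.norm_cpow_eq_rpow_re_of_pos hx0]
      simp
    unfold mcF
    rw [norm_mul, hn]
    beta_reduce
    rcases le_or_gt x 1 with h | h
    · rw [Set.indicator_of_mem (show x ∈ Set.Ioc (0 : ℝ) 1 from ⟨hx0, h⟩),
        Set.indicator_of_notMem (show x ∉ Set.Ioi (1 : ℝ) from not_lt.2 h), add_zero]
      exact mul_le_mul_of_nonneg_right (h0 z hz hzR x hx0 h) (Real.rpow_nonneg hx0.le _)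
    · rw [Set.indicator_of_notMem (show x ∉ Set.Ioc (0 : ℝ) 1 from fun h' => not_lt.2 h'.2 h),
        Set.indicator_of_mem (show x ∈ Set.Ioi (1 : ℝ) from h), zero_add]
      have h2 : x ^ (u.re - 3 / 2) = x ^ (-(1 / 2) : ℝ) * x ^ (u.re - 1) := by
        rw [← Real.rpow_add hx0]
        congr 1
        ring
      rw [h2, ← mul_assoc C1]
      exact mul_le_mul_of_nonneg_right (h1 z hz x h.le) (Real.rpow_nonneg hx0.le _)

private theorem mc_holo {u : ℂ} (hu0 : 0 < u.re) (hu1 : u.re < 1 / 2) :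
    DifferentiableOn ℂ (fun z => ∫ x in Set.Ioi (0 : ℝ), mcF u z x) {z : ℂ | 0 < z.re} := by
  intro z0 hz0
  have hz0' : 0 < z0.re := hz0
  apply DifferentiableAt.differentiableWithinAt
  have hR : 0 < ‖z0‖ + z0.re / 2 := by positivity
  obtain ⟨M, hM, hMb⟩ := mc_maj hu0 hu1 (a := z0.re / 2) (R := ‖z0‖ + z0.re / 2) (by linarith) hR
  have hball : ∀ z ∈ Metric.ball z0 (z0.re / 2), z0.re / 2 ≤ z.re ∧ ‖z‖ ≤ ‖z0‖ + z0.re / 2 := by
    intro z hz
    rw [Metric.mem_ball, dist_eq_norm] at hz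
    constructor
    · have h1 := Complex.abs_re_le_norm (z - z0)
      rw [Complex.sub_re] at h1
      have h2 := neg_abs_le (z.re - z0.re)
      linarith
    · have h1 := norm_add_le (z - z0) z0
      rw [sub_add_cancel] at h1
      linarith
  apply mc_diff measurableSet_Ioi (r := z0.re / 2) (by linarith) hM
  · intro z hz
    exact mc_meas u (lt_of_lt_of_le (by linarith) (hball z hz).1)
  · intro z hz x hx
    exact hMb z (hball z hz).1 (hball z hz).2 x hx
  · intro x hx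
    have hx0 : (0 : ℝ) < x := hx
    unfold mcF
    apply DifferentiableOn.mul _ (differentiableOn_const _)
    apply DifferentiableOn.sub
    · apply om_diff.comp
      · exact (differentiable_id.const_mul _).differentiableOn
      · intro z hz
        have h1 : 0 < z.re := lt_of_lt_of_le (by linarith) (hball z hz).1
        show 0 < ((x : ℂ) * z).re
        rw [mc_re]
        positivity
    · apply DifferentiableOn.mul (differentiableOn_const _)
      apply DifferentiableOn.mul (differentiableOn_const _)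
      intro z hz
      have h1 : 0 < z.re := lt_of_lt_of_le (by linarith) (hball z hz).1
      exact (differentiableAt_id.cpow_const (Or.inl h1)).differentiableWithinAt

private theorem mc_real {s : ℂ} (h0 : 0 < s.re) (h1 : s.re < 1) {r : ℝ} (hr : 0 < r) :
    ∫ x in Set.Ioi (0 : ℝ), mcF (s / 2) (r : ℂ) x = (r : ℂ) ^ (-(s / 2)) * completedRiemannZeta s := by
  have hm := (mel_R h0 h1).2
  obtain ⟨g, hg⟩ : ∃ g : ℝ → ℂ, g = fun x : ℝ =>
    (om (x : ℂ) - (1 / 2 : ℂ) * ((x ^ (-(1 / 2) : ℝ) : ℝ) : ℂ)) * (x : ℂ) ^ (s / 2 - 1) := ⟨_, rfl⟩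
  have hm' : ∫ x in Set.Ioi (0 : ℝ), g x = completedRiemannZeta s := by rw [hg]; exact hm
  have hrc : (r : ℂ) ≠ 0 := by exact_mod_cast hr.ne'
  have hcomp : ∀ x ∈ Set.Ioi (0 : ℝ), mcF (s / 2) (r : ℂ) x = (r : ℂ) ^ (1 - s / 2) * g (r * x) := by
    intro x hx
    have hx0 : (0 : ℝ) < x := hx
    rw [hg]
    unfold mcF
    show _ = (r : ℂ) ^ (1 - s / 2) * ((om ((r * x : ℝ) : ℂ) - (1 / 2 : ℂ) * (((r * x) ^ (-(1 / 2) : ℝ) : ℝ) : ℂ)) *
      ((r * x : ℝ) : ℂ) ^ (s / 2 - 1))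
    have e1 : ((r * x : ℝ) : ℂ) = (x : ℂ) * (r : ℂ) := by push_cast; ring
    have e2 : (((r * x) ^ (-(1 / 2) : ℝ) : ℝ) : ℂ) = ((x ^ (-(1 / 2) : ℝ) : ℝ) : ℂ) * (r : ℂ) ^ (-(1 / 2) : ℂ) := by
      rw [Real.mul_rpow hr.le hx0.le]
      have e3 : (r : ℂ) ^ (-(1 / 2) : ℂ) = ((r ^ (-(1 / 2) : ℝ) : ℝ) : ℂ) := by
        rw [Complex.ofReal_cpow hr.le]
        push_cast
        rfl
      rw [e3]
      push_cast
      ring
    have e4 : ((r * x : ℝ) : ℂ) ^ (s / 2 - 1) = (r : ℂ) ^ (s / 2 - 1) * (x : ℂ) ^ (s / 2 - 1) := by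
      push_cast
      exact Complex.mul_cpow_ofReal_nonneg hr.le hx0.le _
    have e5 : (r : ℂ) ^ (1 - s / 2) * (r : ℂ) ^ (s / 2 - 1) = 1 := by
      rw [← Complex.cpow_add _ _ hrc]
      have : 1 - s / 2 + (s / 2 - 1) = 0 := by ring
      rw [this, Complex.cpow_zero]
    rw [e2, e4, e1]
    calc _ = ((r : ℂ) ^ (1 - s / 2) * (r : ℂ) ^ (s / 2 - 1)) * ((om ((x : ℂ) * (r : ℂ)) -
          (1 / 2 : ℂ) * (((x ^ (-(1 / 2) : ℝ) : ℝ) : ℂ) * (r : ℂ) ^ (-(1 / 2) : ℂ))) *
          (x : ℂ) ^ (s / 2 - 1)) := by rw [e5, one_mul]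
      _ = _ := by ring
  rw [setIntegral_congr_fun measurableSet_Ioi hcomp, integral_const_mul,
    MeasureTheory.integral_comp_mul_left_Ioi g 0 hr, mul_zero, hm', Complex.real_smul, ← mul_assoc]
  congr 1
  rw [Complex.ofReal_inv, ← Complex.cpow_neg_one, ← Complex.cpow_add _ _ hrc]
  congr 1
  ring

theorem mel_C {z s : ℂ} (hz : 0 < z.re) (h0 : 0 < s.re) (h1 : s.re < 1) :
    IntegrableOn (fun x : ℝ => (om ((x : ℂ) * z) - (1 / 2 : ℂ) * (((x ^ (-(1 / 2) : ℝ) : ℝ) : ℂ) * z ^ (-(1 / 2) : ℂ))) *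
      (x : ℂ) ^ (s / 2 - 1)) (Set.Ioi 0) ∧
    ∫ x in Set.Ioi (0 : ℝ), (om ((x : ℂ) * z) - (1 / 2 : ℂ) * (((x ^ (-(1 / 2) : ℝ) : ℝ) : ℂ) * z ^ (-(1 / 2) : ℂ))) *
      (x : ℂ) ^ (s / 2 - 1) = z ^ (-(s / 2)) * completedRiemannZeta s := by
  have hure : (s / 2).re = s.re / 2 := by simp
  have hu0 : 0 < (s / 2).re := by rw [hure]; linarith
  have hu1 : (s / 2).re < 1 / 2 := by rw [hure]; linarith
  constructor
  · have hzn : 0 < ‖z‖ := lt_of_lt_of_le hz (Complex.re_le_norm z)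
    obtain ⟨M, hM, hMb⟩ := mc_maj hu0 hu1 hz hzn
    refine Integrable.mono' hM (mc_meas (s / 2) hz) ?_
    filter_upwards [ae_restrict_mem measurableSet_Ioi] with x hx
    exact hMb z le_rfl le_rfl x hx
  · have hU : IsOpen {z : ℂ | 0 < z.re} := isOpen_lt continuous_const Complex.continuous_re
    have hUc : IsPreconnected {z : ℂ | 0 < z.re} := (convex_halfSpace_re_gt 0).isPreconnected
    have hA : AnalyticOnNhd ℂ (fun z => ∫ x in Set.Ioi (0 : ℝ), mcF (s / 2) z x) {z : ℂ | 0 < z.re} :=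
      (mc_holo hu0 hu1).analyticOnNhd hU
    have hB : AnalyticOnNhd ℂ (fun z : ℂ => z ^ (-(s / 2)) * completedRiemannZeta s) {z : ℂ | 0 < z.re} := by
      apply DifferentiableOn.analyticOnNhd _ hU
      intro z hz
      exact ((differentiableAt_id.cpow_const (Or.inl hz)).mul_const _).differentiableWithinAt
    have hfr : ∃ᶠ z in nhdsWithin (1 : ℂ) {1}ᶜ, (∫ x in Set.Ioi (0 : ℝ), mcF (s / 2) z x) =
        z ^ (-(s / 2)) * completedRiemannZeta s := by
      have ht : Filter.Tendsto (fun n : ℕ => ((1 + 1 / ((n : ℝ) + 1) : ℝ) : ℂ)) Filter.atTop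
          (nhdsWithin (1 : ℂ) {1}ᶜ) := by
        apply tendsto_nhdsWithin_iff.2
        refine ⟨?_, Filter.Eventually.of_forall fun n => ?_⟩
        · have h2 : Filter.Tendsto (fun n : ℕ => 1 + 1 / ((n : ℝ) + 1)) Filter.atTop (nhds (1 + 0)) :=
            tendsto_const_nhds.add tendsto_one_div_add_atTop_nhds_zero_nat
          have h3 := (Complex.continuous_ofReal.tendsto (1 + 0)).comp h2
          rw [add_zero, Complex.ofReal_one] at h3
          exact h3
        · rw [Set.mem_compl_iff, Set.mem_singleton_iff]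
          intro h
          have h4 : (1 + 1 / ((n : ℝ) + 1) : ℝ) = 1 := by exact_mod_cast h
          have h5 : (0 : ℝ) < 1 / ((n : ℝ) + 1) := by positivity
          linarith
      apply ht.frequently
      apply Filter.Eventually.frequently
      exact Filter.Eventually.of_forall fun n => mc_real h0 h1 (by positivity)
    exact hA.eqOn_of_preconnected_of_frequently_eq hB hUc (show (0 : ℝ) < (1 : ℂ).re by simp) hfr hz

end Pool.Agent.H28.ZT
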