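import Pool.Agent.H28.ZT.OmFE

/-!
# MELR (chapter A): the Mellin transform on the critical strip, real case

For `Re s > 1`: `Λ(s) = ∫_0^∞ om x · x^(s/2-1) dx` (termwise: `∫_0^∞ exp (-π m² x) x^(s/2-1) dx = π^(-s/2) Γ(s/2) m^(-s)`,
`completedRiemannZeta s = π^(-s/2) Γ(s/2) ζ(s)`; or Mathlib's `completedZeta_eq_tsum_of_one_lt`).  Near 0:
`om x - 1/2 x^(-1/2) = -1/2 + x^(-1/2) om (1/x)` (module OMFE).  The function
`H(s) = ∫_0^1 (om x - x^(-1/2)/2) x^(s/2-1) dx + 1/(s-1) + ∫_1^∞ om x · x^(s/2-1) dx` is analytic for `Re s > 0`, `s ≠ 1`, and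
equals `Λ(s)` for `Re s > 1` (`∫_0^1 x^((s-3)/2)/2 dx = 1/(s-1)`), so for all these `s` (identity theorem; `{Re s > 0} \ {1}` is
preconnected).  For `0 < Re s < 1`: `1/(s-1) = - ∫_1^∞ x^((s-3)/2)/2 dx`.
-/

set_option autoImplicit false

namespace Pool.Agent.H28.ZT

open Complex MeasureTheory

private theorem melR_f {x : ℝ} (hx : 0 < x) :
    (HurwitzZeta.hurwitzEvenFEPair 0).f x = 1 + 2 * om (x : ℂ) := by
  have h := HurwitzZeta.hasSum_nat_cosKernel₀ 0 hx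
  have h2 := (Complex.hasSum_ofReal.2 h).tsum_eq
  have h3 : ∀ n : ℕ, (((2 * Real.cos (2 * Real.pi * 0 * (n + 1)) *
      Real.exp (-Real.pi * (n + 1) ^ 2 * x) : ℝ)) : ℂ) =
      2 * Complex.exp (-((Real.pi : ℂ) * ((n : ℂ) + 1) ^ 2 * (x : ℂ))) := by
    intro n
    rw [mul_zero, zero_mul, Real.cos_zero]
    push_cast
    rw [mul_one]
    congr 2
    ring
  simp_rw [h3] at h2
  rw [tsum_mul_left] at h2
  have h4 : (HurwitzZeta.hurwitzEvenFEPair 0).f x = ((HurwitzZeta.cosKernel 0 x : ℝ) : ℂ) := by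
    show ((HurwitzZeta.evenKernel 0 x : ℝ) : ℂ) = _
    rw [HurwitzZeta.evenKernel_eq_cosKernel_of_zero]
  rw [h4]
  have h5 : (2 : ℂ) * om (x : ℂ) = ((HurwitzZeta.cosKernel 0 x : ℝ) : ℂ) - 1 := by
    unfold om
    rw [h2]
    push_cast
    rfl
  rw [h5]
  ring

theorem mel_R {s : ℂ} (h0 : 0 < s.re) (h1 : s.re < 1) :
    IntegrableOn (fun x : ℝ => (om (x : ℂ) - (1 / 2 : ℂ) * ((x ^ (-(1 / 2) : ℝ) : ℝ) : ℂ)) * (x : ℂ) ^ (s / 2 - 1))
      (Set.Ioi 0) ∧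
    ∫ x in Set.Ioi (0 : ℝ), (om (x : ℂ) - (1 / 2 : ℂ) * ((x ^ (-(1 / 2) : ℝ) : ℝ) : ℂ)) * (x : ℂ) ^ (s / 2 - 1)
      = completedRiemannZeta s := by
  obtain ⟨u, hu⟩ : ∃ u : ℂ, u = s / 2 := ⟨_, rfl⟩
  have hure : u.re = s.re / 2 := by
    rw [hu]
    simp
  have hu0 : 0 < u.re := by rw [hure]; linarith
  have hu1 : u.re < 1 / 2 := by rw [hure]; linarith
  rw [← hu]
  obtain ⟨P, hP⟩ : ∃ P, P = HurwitzZeta.hurwitzEvenFEPair 0 := ⟨_, rfl⟩
  have hMc : MellinConvergent P.f_modif u := (P.isStrongFEPair_toStrongFEPair.hasMellin u).1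
  have hM : IntegrableOn (fun x : ℝ => (x : ℂ) ^ (u - 1) • P.f_modif x) (Set.Ioi 0) := hMc
  have hA : IntegrableOn (fun x : ℝ => (x : ℂ) ^ (u - 1)) (Set.Ioc 0 1) := by
    rw [← intervalIntegrable_iff_integrableOn_Ioc_of_le zero_le_one]
    apply intervalIntegral.intervalIntegrable_cpow'
    rw [Complex.sub_re, Complex.one_re]
    linarith
  have hBr : (u - 3 / 2).re < -1 := by
    have : (u - 3 / 2).re = u.re - 3 / 2 := by
      rw [Complex.sub_re]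
      norm_num
    rw [this]
    linarith
  have hB : IntegrableOn (fun x : ℝ => (x : ℂ) ^ (u - 3 / 2)) (Set.Ioi 1) :=
    integrableOn_Ioi_cpow_of_lt hBr one_pos
  obtain ⟨E, hE⟩ : ∃ E : ℝ → ℂ, E = (Set.Ioc 0 1).indicator (fun x : ℝ => (x : ℂ) ^ (u - 1)) +
    (Set.Ioi 1).indicator (fun x : ℝ => (x : ℂ) ^ (u - 3 / 2)) := ⟨_, rfl⟩
  have hE1 : Integrable ((Set.Ioc 0 1).indicator (fun x : ℝ => (x : ℂ) ^ (u - 1))) :=
    (integrable_indicator_iff measurableSet_Ioc).2 hA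
  have hE2 : Integrable ((Set.Ioi 1).indicator (fun x : ℝ => (x : ℂ) ^ (u - 3 / 2))) :=
    (integrable_indicator_iff measurableSet_Ioi).2 hB
  have hEi : IntegrableOn E (Set.Ioi 0) := by
    rw [hE]
    exact (hE1.add hE2).integrableOn
  have hval : ∀ x : ℝ, 0 < x → x ≠ 1 →
      (om (x : ℂ) - (1 / 2 : ℂ) * ((x ^ (-(1 / 2) : ℝ) : ℝ) : ℂ)) * (x : ℂ) ^ (u - 1) =
      (1 / 2 : ℂ) * ((x : ℂ) ^ (u - 1) • P.f_modif x) - (1 / 2 : ℂ) * E x := by
    intro x hx hx1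
    have hf : P.f x = 1 + 2 * om (x : ℂ) := by rw [hP]; exact melR_f hx
    have hf0 : P.f₀ = 1 := by rw [hP]; simp [HurwitzZeta.hurwitzEvenFEPair]
    have hg0 : P.g₀ = 1 := by rw [hP]; simp [HurwitzZeta.hurwitzEvenFEPair]
    have hk : P.k = 1 / 2 := by rw [hP]; simp [HurwitzZeta.hurwitzEvenFEPair]
    have he : P.ε = 1 := by rw [hP]; simp [HurwitzZeta.hurwitzEvenFEPair]
    rw [hE]
    unfold WeakFEPair.f_modif
    rw [Pi.add_apply, Pi.add_apply, hf0, hg0, hk, he]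
    rcases lt_or_gt_of_ne hx1 with h | h
    · rw [Set.indicator_of_notMem (show x ∉ Set.Ioi (1 : ℝ) from fun h' => lt_asymm h h'),
        Set.indicator_of_mem (show x ∈ Set.Ioo (0 : ℝ) 1 from ⟨hx, h⟩),
        Set.indicator_of_mem (show x ∈ Set.Ioc (0 : ℝ) 1 from ⟨hx, h.le⟩),
        Set.indicator_of_notMem (show x ∉ Set.Ioi (1 : ℝ) from fun h' => lt_asymm h h'), hf]
      simp only [smul_eq_mul]
      ring
    · rw [Set.indicator_of_mem (show x ∈ Set.Ioi (1 : ℝ) from h),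
        Set.indicator_of_notMem (show x ∉ Set.Ioo (0 : ℝ) 1 from fun h' => lt_asymm h h'.2),
        Set.indicator_of_notMem (show x ∉ Set.Ioc (0 : ℝ) 1 from fun h' => not_lt.2 h'.2 h),
        Set.indicator_of_mem (show x ∈ Set.Ioi (1 : ℝ) from h), hf]
      have h5 : (x : ℂ) ^ (u - 3 / 2) = ((x ^ (-(1 / 2) : ℝ) : ℝ) : ℂ) * (x : ℂ) ^ (u - 1) := by
        rw [Complex.ofReal_cpow hx.le, ← Complex.cpow_add _ _ (by exact_mod_cast hx.ne')]
        congr 1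
        push_cast
        ring
      rw [h5]
      simp only [smul_eq_mul]
      ring
  have hae : (fun x : ℝ => (om (x : ℂ) - (1 / 2 : ℂ) * ((x ^ (-(1 / 2) : ℝ) : ℝ) : ℂ)) *
      (x : ℂ) ^ (u - 1)) =ᵐ[volume.restrict (Set.Ioi 0)]
      fun x : ℝ => (1 / 2 : ℂ) * ((x : ℂ) ^ (u - 1) • P.f_modif x) - (1 / 2 : ℂ) * E x := by
    have h2 : ∀ᵐ x : ℝ ∂(volume.restrict (Set.Ioi 0)), x ≠ 1 := by
      apply ae_restrict_of_ae
      exact Measure.ae_ne volume 1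
    filter_upwards [ae_restrict_mem measurableSet_Ioi, h2] with x hx hx1
    exact hval x hx hx1
  have hI : IntegrableOn (fun x : ℝ => (1 / 2 : ℂ) * ((x : ℂ) ^ (u - 1) • P.f_modif x) -
      (1 / 2 : ℂ) * E x) (Set.Ioi 0) := (hM.const_mul _).sub (hEi.const_mul _)
  refine ⟨hI.congr hae.symm, ?_⟩
  rw [integral_congr_ae hae, integral_sub (hM.const_mul _) (hEi.const_mul _),
    integral_const_mul, integral_const_mul]
  have hEint : ∫ x in Set.Ioi (0 : ℝ), E x = 1 / u + 1 / (1 / 2 - u) := by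
    have e1 : ∫ x in Set.Ioi (0 : ℝ), E x =
        (∫ x in Set.Ioi (0 : ℝ), (Set.Ioc 0 1).indicator (fun x : ℝ => (x : ℂ) ^ (u - 1)) x) +
        ∫ x in Set.Ioi (0 : ℝ), (Set.Ioi 1).indicator (fun x : ℝ => (x : ℂ) ^ (u - 3 / 2)) x := by
      rw [hE]
      exact integral_add hE1.integrableOn hE2.integrableOn
    rw [e1, setIntegral_indicator measurableSet_Ioc, setIntegral_indicator measurableSet_Ioi]
    have e2 : Set.Ioi (0 : ℝ) ∩ Set.Ioc 0 1 = Set.Ioc 0 1 :=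
      Set.inter_eq_right.2 fun x hx => hx.1
    have e3 : Set.Ioi (0 : ℝ) ∩ Set.Ioi 1 = Set.Ioi 1 :=
      Set.inter_eq_right.2 fun x (hx : (1 : ℝ) < x) => show (0 : ℝ) < x from zero_lt_one.trans hx
    rw [e2, e3, integral_Ioi_cpow_of_lt hBr one_pos,
      ← intervalIntegral.integral_of_le zero_le_one]
    have hu' : u ≠ 0 := by
      intro h
      rw [h] at hu0
      simp at hu0
    have hu2 : (1 / 2 : ℂ) - u ≠ 0 := by
      intro h
      have h' : u = 1 / 2 := (sub_eq_zero.1 h).symm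
      rw [h'] at hu1
      norm_num at hu1
    rw [integral_cpow (Or.inl (by rw [Complex.sub_re, Complex.one_re]; linarith))]
    have e4 : u - 1 + 1 = u := by ring
    rw [e4]
    push_cast
    rw [Complex.one_cpow, Complex.one_cpow, Complex.zero_cpow hu', sub_zero]
    have e5 : u - 3 / 2 + 1 = -(1 / 2 - u) := by ring
    rw [e5]
    congr 1
    rw [div_neg, neg_div, neg_neg]
  rw [hEint]
  have hz : completedRiemannZeta s = P.Λ u / 2 := by
    rw [hu, hP]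
    rfl
  rw [hz]
  unfold WeakFEPair.Λ WeakFEPair.Λ₀ mellin
  have hf0 : P.f₀ = 1 := by rw [hP]; simp [HurwitzZeta.hurwitzEvenFEPair]
  have hg0 : P.g₀ = 1 := by rw [hP]; simp [HurwitzZeta.hurwitzEvenFEPair]
  have hk : P.k = 1 / 2 := by rw [hP]; simp [HurwitzZeta.hurwitzEvenFEPair]
  have he : P.ε = 1 := by rw [hP]; simp [HurwitzZeta.hurwitzEvenFEPair]
  rw [hf0, hg0, hk, he]
  simp only [smul_eq_mul]
  push_cast
  ring

end Pool.Agent.H28.ZT
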