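import Pool.Agent.H28.ZT.Defs

/-!
# OM (chapter A): the function `om`

`‖exp (-π(m+1)² z)‖ = exp (-π (m+1)² Re z)`, `(m+1)² ≥ 1 + m²`, and `∑_{m ≥ 0} exp (-π m² x) ≤ 1 + ∫_0^∞ exp (-π u² x) du
= 1 + 1/(2√x)` (antitone), so `‖om z‖ ≤ exp (-π Re z) (1 + 1/√(Re z))`.  Holomorphic: `differentiableOn_tsum_of_summable_norm`
locally (on `Re z > ε` the terms are bounded by the summable `exp (-π (m+1)² ε)`).  `om (conj z) = conj (om z)`: termwise.
-/

set_option autoImplicit false

namespace Pool.Agent.H28.ZT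

open Complex

theorem om_summable_norm {x : ℝ} (hx : 0 < x) :
    Summable fun m : ℕ => Real.exp (-(Real.pi * ((m : ℝ) + 1) ^ 2 * x)) := by
  have hpx : 0 < Real.pi * x := mul_pos Real.pi_pos hx
  have h1 : Summable fun m : ℕ => Real.exp (-(Real.pi * x)) ^ m :=
    summable_geometric_of_lt_one (Real.exp_pos _).le (by rw [Real.exp_lt_one_iff]; linarith)
  refine Summable.of_nonneg_of_le (fun m => (Real.exp_pos _).le) (fun m => ?_) h1
  rw [← Real.exp_nat_mul]
  apply Real.exp_le_exp.2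
  have hm : (0 : ℝ) ≤ m := Nat.cast_nonneg m
  nlinarith [mul_nonneg hm hpx.le, mul_nonneg (mul_nonneg hm hm) hpx.le]

theorem om_term_norm (z : ℂ) (m : ℕ) :
    ‖Complex.exp (-((Real.pi : ℂ) * ((m : ℂ) + 1) ^ 2 * z))‖ =
      Real.exp (-(Real.pi * ((m : ℝ) + 1) ^ 2 * z.re)) := by
  rw [Complex.norm_exp]
  congr 1
  have : (-((Real.pi : ℂ) * ((m : ℂ) + 1) ^ 2 * z)) = ((-(Real.pi * ((m : ℝ) + 1) ^ 2) : ℝ) : ℂ) * z := by
    push_cast
    ring
  rw [this, Complex.re_ofReal_mul]
  ring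

theorem om_summable {z : ℂ} (hz : 0 < z.re) :
    Summable fun m : ℕ => Complex.exp (-((Real.pi : ℂ) * ((m : ℂ) + 1) ^ 2 * z)) := by
  apply Summable.of_norm
  simp_rw [om_term_norm]
  exact om_summable_norm hz

theorem om_gauss {x : ℝ} (hx : 0 < x) (N : ℕ) :
    ∑ m ∈ Finset.range N, Real.exp (-(Real.pi * ((m : ℝ) + 1) ^ 2 * x)) ≤ 1 / (2 * Real.sqrt x) := by
  have hpx : 0 < Real.pi * x := mul_pos Real.pi_pos hx
  have hanti : AntitoneOn (fun u : ℝ => Real.exp (-(Real.pi * x) * u ^ 2)) (Set.Icc (0 : ℝ) (0 + (N : ℝ))) := by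
    intro u hu v hv huv
    apply Real.exp_le_exp.2
    have h1 : u ^ 2 ≤ v ^ 2 := pow_le_pow_left₀ hu.1 huv 2
    nlinarith
  have h1 := hanti.sum_le_integral
  have h2 : ∫ u in (0 : ℝ)..(0 + (N : ℝ)), Real.exp (-(Real.pi * x) * u ^ 2) ≤
      ∫ u in Set.Ioi (0 : ℝ), Real.exp (-(Real.pi * x) * u ^ 2) := by
    rw [intervalIntegral.integral_of_le (by simp)]
    apply MeasureTheory.setIntegral_mono_set
    · exact (integrable_exp_neg_mul_sq hpx).integrableOn
    · exact Filter.Eventually.of_forall fun u => (Real.exp_pos _).le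
    · exact Filter.Eventually.of_forall (fun u hu => hu.1)
  rw [integral_gaussian_Ioi] at h2
  have h3 : Real.sqrt (Real.pi / (Real.pi * x)) / 2 = 1 / (2 * Real.sqrt x) := by
    rw [show Real.pi / (Real.pi * x) = 1 / x by field_simp, Real.sqrt_div' _ hx.le, Real.sqrt_one]
    field_simp
  rw [h3] at h2
  refine le_trans (le_of_eq ?_) (h1.trans h2)
  apply Finset.sum_congr rfl
  intro m _
  congr 1
  push_cast
  ring

theorem om_sum_le {x : ℝ} (hx : 0 < x) :
    ∑' m : ℕ, Real.exp (-(Real.pi * ((m : ℝ) + 1) ^ 2 * x)) ≤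
      Real.exp (-(Real.pi * x)) * (1 + 1 / Real.sqrt x) := by
  have hpx : 0 < Real.pi * x := mul_pos Real.pi_pos hx
  have hs : 0 < Real.sqrt x := Real.sqrt_pos.2 hx
  apply Summable.tsum_le_of_sum_range_le (om_summable_norm hx)
  intro N
  have h1 : ∀ m : ℕ, Real.exp (-(Real.pi * ((m : ℝ) + 1) ^ 2 * x)) ≤
      Real.exp (-(Real.pi * x)) * Real.exp (-(Real.pi * (m : ℝ) ^ 2 * x)) := by
    intro m
    rw [← Real.exp_add]
    apply Real.exp_le_exp.2
    have hm : (0 : ℝ) ≤ m := Nat.cast_nonneg m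
    nlinarith [mul_nonneg hm hpx.le]
  calc ∑ m ∈ Finset.range N, Real.exp (-(Real.pi * ((m : ℝ) + 1) ^ 2 * x))
      ≤ ∑ m ∈ Finset.range N, Real.exp (-(Real.pi * x)) * Real.exp (-(Real.pi * (m : ℝ) ^ 2 * x)) :=
        Finset.sum_le_sum fun m _ => h1 m
    _ = Real.exp (-(Real.pi * x)) * ∑ m ∈ Finset.range N, Real.exp (-(Real.pi * (m : ℝ) ^ 2 * x)) := by
        rw [Finset.mul_sum]
    _ ≤ Real.exp (-(Real.pi * x)) * (1 + 1 / Real.sqrt x) := by
        apply mul_le_mul_of_nonneg_left _ (Real.exp_pos _).le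
        have h2 : ∑ m ∈ Finset.range N, Real.exp (-(Real.pi * (m : ℝ) ^ 2 * x)) ≤
            ∑ m ∈ Finset.range (N + 1), Real.exp (-(Real.pi * (m : ℝ) ^ 2 * x)) := by
          rw [Finset.sum_range_succ]
          linarith [Real.exp_pos (-(Real.pi * (N : ℝ) ^ 2 * x))]
        rw [Finset.sum_range_succ'] at h2
        have h3 := om_gauss hx N
        have h4 : 1 / (2 * Real.sqrt x) ≤ 1 / Real.sqrt x := by
          apply one_div_le_one_div_of_le hs
          linarith
        have h5 : ∑ m ∈ Finset.range N, Real.exp (-(Real.pi * ((m + 1 : ℕ) : ℝ) ^ 2 * x)) =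
            ∑ m ∈ Finset.range N, Real.exp (-(Real.pi * ((m : ℝ) + 1) ^ 2 * x)) := by
          apply Finset.sum_congr rfl
          intro m _
          push_cast
          rfl
        rw [h5] at h2
        have h6 : Real.exp (-(Real.pi * ((0 : ℕ) : ℝ) ^ 2 * x)) = 1 := by
          simp
        rw [h6] at h2
        linarith

theorem om_norm_le {z : ℂ} (hz : 0 < z.re) :
    ‖om z‖ ≤ Real.exp (-(Real.pi * z.re)) * (1 + 1 / Real.sqrt z.re) := by
  unfold om
  have h1 := norm_tsum_le_tsum_norm (f := fun m : ℕ =>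
    Complex.exp (-((Real.pi : ℂ) * ((m : ℂ) + 1) ^ 2 * z))) (by
      simp_rw [om_term_norm]
      exact om_summable_norm hz)
  simp_rw [om_term_norm] at h1
  exact h1.trans (om_sum_le hz)

theorem om_diff : DifferentiableOn ℂ om {z : ℂ | 0 < z.re} := by
  intro z hz
  have hz' : 0 < z.re := hz
  apply DifferentiableAt.differentiableWithinAt
  have hopen : IsOpen {w : ℂ | z.re / 2 < w.re} := isOpen_lt continuous_const continuous_re
  have h1 : DifferentiableOn ℂ om {w : ℂ | z.re / 2 < w.re} := by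
    have := differentiableOn_tsum_of_summable_norm
      (u := fun m : ℕ => Real.exp (-(Real.pi * ((m : ℝ) + 1) ^ 2 * (z.re / 2))))
      (F := fun (m : ℕ) (w : ℂ) => Complex.exp (-((Real.pi : ℂ) * ((m : ℂ) + 1) ^ 2 * w)))
      (U := {w : ℂ | z.re / 2 < w.re}) (om_summable_norm (by linarith)) (by
        intro m
        apply Differentiable.differentiableOn
        fun_prop) hopen (by
        intro m w hw
        rw [om_term_norm]
        apply Real.exp_le_exp.2
        have hw' : z.re / 2 < w.re := hw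
        have : 0 ≤ Real.pi * ((m : ℝ) + 1) ^ 2 := by positivity
        nlinarith)
    exact this
  exact h1.differentiableAt (hopen.mem_nhds (by show z.re / 2 < z.re; linarith))

theorem om_conj (z : ℂ) : om ((starRingEnd ℂ) z) = (starRingEnd ℂ) (om z) := by
  unfold om
  rw [Complex.conj_tsum]
  congr 1
  funext m
  rw [← Complex.exp_conj]
  congr 1
  simp only [map_neg, map_mul, map_pow, map_add, map_one, Complex.conj_ofReal, Complex.conj_natCast]

end Pool.Agent.H28.ZT
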