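import Pool.Agent.H28.ZT.Om

/-!
# OMFE (chapter A): the functional equation of the theta function

`Complex.tsum_exp_neg_mul_int_sq` (Mathlib): for `Re a > 0`,
`∑' n : ℤ, exp (-π a n²) = 1 / a^(1/2) * ∑' n : ℤ, exp (-π/a n²)`; and `∑' n : ℤ, exp (-π a n²) = 1 + 2 om a`
(`tsum_int` / `HasSum.of_nat_of_neg_add_one`, evenness).  Take `a = z` resp. `1/z` (`Re (1/z) > 0`).
-/

set_option autoImplicit false

namespace Pool.Agent.H28.ZT

open Complex

theorem om_int {z : ℂ} (hz : 0 < z.re) :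
    ∑' n : ℤ, Complex.exp (-(Real.pi : ℂ) * z * (n : ℂ) ^ 2) = 1 + 2 * om z := by
  have h1 : Summable fun n : ℕ => Complex.exp (-(Real.pi : ℂ) * z * (((n : ℕ) + 1 : ℕ) : ℂ) ^ 2) := by
    refine (om_summable hz).congr fun n => ?_
    congr 1
    push_cast
    ring
  have h2 : Summable fun n : ℕ => Complex.exp (-(Real.pi : ℂ) * z * (n : ℂ) ^ 2) :=
    (summable_nat_add_iff 1).1 h1
  have e1 : ∑' n : ℕ, Complex.exp (-(Real.pi : ℂ) * z * (((n : ℕ) + 1 : ℕ) : ℂ) ^ 2) = om z := by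
    unfold om
    congr 1
    funext n
    congr 1
    push_cast
    ring
  have h3 : Summable fun n : ℕ => Complex.exp (-(Real.pi : ℂ) * z * (((n : ℤ) : ℤ) : ℂ) ^ 2) := by
    refine h2.congr fun n => ?_
    push_cast
    rfl
  have h4 : Summable fun n : ℕ => Complex.exp (-(Real.pi : ℂ) * z * ((-((n : ℤ) + 1) : ℤ) : ℂ) ^ 2) := by
    refine h1.congr fun n => ?_
    congr 1
    push_cast
    ring
  rw [tsum_of_nat_of_neg_add_one (f := fun n : ℤ => Complex.exp (-(Real.pi : ℂ) * z * (n : ℂ) ^ 2)) h3 h4]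
  have e2 : ∑' n : ℕ, Complex.exp (-(Real.pi : ℂ) * z * (((n : ℤ) : ℤ) : ℂ) ^ 2) = 1 + om z := by
    have : ∑' n : ℕ, Complex.exp (-(Real.pi : ℂ) * z * (((n : ℤ) : ℤ) : ℂ) ^ 2) =
        ∑' n : ℕ, Complex.exp (-(Real.pi : ℂ) * z * (n : ℂ) ^ 2) := by
      congr 1
    rw [this, h2.tsum_eq_zero_add, e1]
    simp
  have e3 : ∑' n : ℕ, Complex.exp (-(Real.pi : ℂ) * z * ((-((n : ℤ) + 1) : ℤ) : ℂ) ^ 2) = om z := by
    rw [← e1]
    congr 1
    funext n
    congr 1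
    push_cast
    ring
  rw [e2, e3]
  ring

theorem om_fe {z : ℂ} (hz : 0 < z.re) : om (1 / z) + 1 / 2 = z ^ (1 / 2 : ℂ) * (om z + 1 / 2) := by
  have hz0 : z ≠ 0 := by
    rintro rfl
    simp at hz
  have hzi : 0 < (1 / z).re := by
    rw [one_div, Complex.inv_re]
    exact div_pos hz (Complex.normSq_pos.2 hz0)
  have h1 := Complex.tsum_exp_neg_mul_int_sq hz
  have h2 : ∑' n : ℤ, Complex.exp (-(Real.pi : ℂ) / z * (n : ℂ) ^ 2) = 1 + 2 * om (1 / z) := by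
    rw [← om_int hzi]
    congr 1
    funext n
    congr 1
    field_simp
  have h3 := om_int hz
  rw [h2] at h1
  have h4 : z ^ (1 / 2 : ℂ) ≠ 0 := by
    rw [Complex.cpow_ne_zero_iff]
    exact Or.inl hz0
  have h5 : (1 : ℂ) + 2 * om z = 1 / z ^ (1 / 2 : ℂ) * (1 + 2 * om (1 / z)) := by
    rw [← h3]
    exact h1
  field_simp at h5
  linear_combination (-1 / 2 : ℂ) * h5

end Pool.Agent.H28.ZT
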