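import Mathlib

/-!
# SUB (chapter D): the substitution `u = e^y`

`MeasureTheory.integral_image_eq_integral_abs_deriv_smul` / `integrableOn_image_iff_integrableOn_abs_deriv_smul` for
`exp : Ioi 0 → Ioi 1`: `du = e^y dy`, `(e^y)^A = exp (A y)` (`Complex.ofReal_exp`, `Complex.cpow_def_of_ne_zero`, `log` of a
positive real).
-/

set_option autoImplicit false

namespace Pool.Agent.H28.ZT

open Complex MeasureTheory

private theorem sub_image : Real.exp '' (Set.Ioi (0 : ℝ)) = Set.Ioi (1 : ℝ) := by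
  ext y
  constructor
  · rintro ⟨x, hx, rfl⟩
    exact Real.one_lt_exp_iff.2 hx
  · intro hy
    have hy' : (1 : ℝ) < y := hy
    exact ⟨Real.log y, Real.log_pos hy', Real.exp_log (by linarith)⟩

private theorem sub_pt (f : ℝ → ℂ) (A : ℂ) (y : ℝ) :
    |Real.exp y| • (((Real.exp y : ℝ) : ℂ) ^ A * f (Real.exp y)) =
      Complex.exp ((A + 1) * (y : ℂ)) * f (Real.exp y) := by
  have h1 : ((Real.exp y : ℝ) : ℂ) ≠ 0 := by
    rw [Ne, Complex.ofReal_eq_zero]
    exact (Real.exp_pos y).ne'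
  rw [Complex.cpow_def_of_ne_zero h1, ← Complex.ofReal_log (Real.exp_pos y).le, Real.log_exp,
    abs_of_pos (Real.exp_pos y), Complex.real_smul, Complex.ofReal_exp, ← mul_assoc,
    ← Complex.exp_add]
  congr 2
  ring

theorem sub_exp (f : ℝ → ℂ) (A : ℂ) :
    (∫ y in Set.Ioi (0 : ℝ), Complex.exp ((A + 1) * (y : ℂ)) * f (Real.exp y)) =
      ∫ u in Set.Ioi (1 : ℝ), (u : ℂ) ^ A * f u := by
  have h := MeasureTheory.integral_image_eq_integral_abs_deriv_smul (s := Set.Ioi (0 : ℝ))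
    measurableSet_Ioi (fun x _ => (Real.hasDerivAt_exp x).hasDerivWithinAt)
    (Real.exp_injective.injOn) (fun u : ℝ => (u : ℂ) ^ A * f u)
  rw [sub_image] at h
  rw [h]
  exact integral_congr_ae (Filter.Eventually.of_forall fun y => (sub_pt f A y).symm)

theorem sub_exp_int (f : ℝ → ℂ) (A : ℂ) :
    IntegrableOn (fun y : ℝ => Complex.exp ((A + 1) * (y : ℂ)) * f (Real.exp y)) (Set.Ioi 0) ↔
      IntegrableOn (fun u : ℝ => (u : ℂ) ^ A * f u) (Set.Ioi 1) := by
  have h := MeasureTheory.integrableOn_image_iff_integrableOn_abs_deriv_smul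
    (s := Set.Ioi (0 : ℝ))
    measurableSet_Ioi (fun x _ => (Real.hasDerivAt_exp x).hasDerivWithinAt)
    (Real.exp_injective.injOn) (fun u : ℝ => (u : ℂ) ^ A * f u)
  rw [sub_image] at h
  rw [h]
  exact integrable_congr (Filter.Eventually.of_forall fun y => (sub_pt f A y).symm)

end Pool.Agent.H28.ZT
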