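import Pool.Agent.H28.ZT.HPlus
import Pool.Agent.H28.ZT.Cross
import Pool.Agent.H28.ZT.Sub

/-!
# PAIRP (chapter D): one pair, half line `y > 0`

`gp d c w y = c^(-1/2) gg (y + log c) e^(i(y+log c)w)
 = 2 e^(iη) c^(iw) e^(y/2) e^(iyw) (om (c² e^(2y) z0) - (1/2) c^(-1) e^(-y) e^(-2iη))`, `η = π/8 - d/4`.
So `gp d c w y · conj (gp d c' w' y) = 4 c^(iw) c'^(-i conj w') e^((iΔ+1)y) (om_c - b e^(-y)) (conj om_c' - conj b' e^(-y))`,
`b = e^(-2iη)/(2c)`, `b' = e^(-2iη)/(2c')`, `Δ = w - conj w'` (`|Im Δ| ≤ 1/4`, `‖Δ‖ ≤ 2`).  Expand: first product HPLUS (through SUB,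
`A = iΔ`), the two cross products CROSS (`A = iΔ - 1`, `ρ = c²`, `c'²`, `‖b‖ ≤ 1/2`), the last one
`∫_0^∞ e^((iΔ-1)y) dy`, absolute value `≤ 1/(1-1/4)`.  `‖c^(iw)‖ = exp (-Im w log c) ≤ e`, the same for `c'`.
-/

set_option autoImplicit false

namespace Pool.Agent.H28.ZT

open Complex MeasureTheory

noncomputable def gp (d : ℝ) (c : ℕ) (w : ℂ) (y : ℝ) : ℂ :=
  np c (-(1 / 2)) * gg d (y + Real.log (c : ℝ)) * Complex.exp (I * ((y + Real.log (c : ℝ) : ℝ) : ℂ) * w)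

/-- the unimodular constant `e^(iη)` -/
noncomputable def pe (d : ℝ) : ℂ := Complex.exp (I * ((Real.pi / 8 - d / 4 : ℝ) : ℂ))

/-- the constant `b = e^(-2iη)/(2c)` -/
noncomputable def pb (d : ℝ) (c : ℕ) : ℂ :=
  Complex.exp (-(I * ((Real.pi / 4 - d / 2 : ℝ) : ℂ))) / (2 * (c : ℂ))

theorem norm_exp_I (x : ℝ) : ‖Complex.exp (I * (x : ℂ))‖ = 1 := by
  rw [mul_comm]
  exact Complex.norm_exp_ofReal_mul_I x

theorem norm_exp_neg_I (x : ℝ) : ‖Complex.exp (-(I * (x : ℂ)))‖ = 1 := by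
  have h : -(I * (x : ℂ)) = I * ((-x : ℝ) : ℂ) := by push_cast; ring
  rw [h]
  exact norm_exp_I _

theorem norm_pe (d : ℝ) : ‖pe d‖ = 1 := norm_exp_I _

theorem pe_conj (d : ℝ) : pe d * (starRingEnd ℂ) (pe d) = 1 := by
  rw [Complex.mul_conj', norm_pe]
  norm_num

theorem norm_pb (d : ℝ) {c : ℕ} (hc : 1 ≤ c) : ‖pb d c‖ ≤ 1 / 2 := by
  unfold pb
  rw [norm_div, norm_exp_neg_I, norm_mul, Complex.norm_natCast]
  have hc' : (1 : ℝ) ≤ c := by exact_mod_cast hc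
  have h2 : ‖(2 : ℂ)‖ = 2 := by norm_num
  rw [h2]
  rw [div_le_div_iff₀ (by positivity) (by norm_num)]
  linarith

theorem gp_eq (d : ℝ) {c : ℕ} (hc : 1 ≤ c) (w : ℂ) (y : ℝ) :
    gp d c w y = 2 * pe d * np c (I * w) * Complex.exp ((1 / 2 + I * w) * (y : ℂ)) *
      (om ((((c : ℝ) ^ 2 * (Real.exp y) ^ 2 : ℝ) : ℂ) * z0 d) -
        pb d c * ((Real.exp (-y) : ℝ) : ℂ)) := by
  have hc' : (0 : ℝ) < c := by exact_mod_cast hc
  have hcC : (c : ℂ) ≠ 0 := by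
    have : (c : ℝ) ≠ 0 := hc'.ne'
    exact_mod_cast this
  have h1 : Real.exp (2 * (y + Real.log (c : ℝ))) = (c : ℝ) ^ 2 * (Real.exp y) ^ 2 := by
    have : 2 * (y + Real.log (c : ℝ)) = (y + y) + (Real.log c + Real.log c) := by ring
    rw [this, Real.exp_add, Real.exp_add, Real.exp_add, Real.exp_log hc']
    ring
  have h2 : Real.exp (-(y + Real.log (c : ℝ))) = Real.exp (-y) / c := by
    rw [neg_add, Real.exp_add, Real.exp_neg (Real.log c), Real.exp_log hc']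
    rfl
  have h3 : np c (-(1 / 2)) * ((Real.exp ((y + Real.log (c : ℝ)) / 2) : ℝ) : ℂ) =
      Complex.exp ((1 / 2 : ℂ) * (y : ℂ)) := by
    unfold np
    rw [Complex.ofReal_exp, ← Complex.exp_add]
    congr 1
    push_cast
    ring
  have h4 : Complex.exp (I * ((y + Real.log (c : ℝ) : ℝ) : ℂ) * w) =
      np c (I * w) * Complex.exp (I * w * (y : ℂ)) := by
    unfold np
    rw [← Complex.exp_add]
    congr 1
    push_cast
    ring
  have h5 : Complex.exp ((1 / 2 + I * w) * (y : ℂ)) =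
      Complex.exp ((1 / 2 : ℂ) * (y : ℂ)) * Complex.exp (I * w * (y : ℂ)) := by
    rw [← Complex.exp_add]
    congr 1
    ring
  unfold gp gg
  rw [h1, h2, h4, h5, ← h3]
  unfold pe pb
  push_cast
  field_simp

theorem pp_np_conj (c : ℕ) (w : ℂ) :
    (starRingEnd ℂ) (np c (I * w)) = np c (-(I * (starRingEnd ℂ) w)) := by
  unfold np
  rw [← Complex.exp_conj, map_mul, map_mul, Complex.conj_I, Complex.conj_ofReal]
  congr 1
  ring

theorem norm_np_le {c : ℕ} {w : ℂ} (h : |w.im| * Real.log (c : ℝ) ≤ 1) (hc : 1 ≤ c) :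
    ‖np c (I * w)‖ ≤ Real.exp 1 := by
  unfold np
  rw [Complex.norm_exp]
  apply Real.exp_le_exp.2
  have h1 : (I * w * ((Real.log (c : ℝ) : ℝ) : ℂ)).re = -(w.im * Real.log (c : ℝ)) := by
    generalize Real.log (c : ℝ) = l
    simp [Complex.mul_re, Complex.mul_im]
  rw [h1]
  have hl : 0 ≤ Real.log (c : ℝ) := Real.log_nonneg (by exact_mod_cast hc)
  have h2 : -(w.im * Real.log (c : ℝ)) ≤ |w.im| * Real.log (c : ℝ) := by
    rw [← neg_mul]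
    exact mul_le_mul_of_nonneg_right (neg_le_abs _) hl
  linarith

theorem norm_np_le' {c : ℕ} {w : ℂ} (h : |w.im| * Real.log (c : ℝ) ≤ 1) (hc : 1 ≤ c) :
    ‖np c (-(I * (starRingEnd ℂ) w))‖ ≤ Real.exp 1 := by
  rw [← pp_np_conj, RCLike.norm_conj]
  exact norm_np_le h hc

theorem exp_int {A : ℂ} (hA : A.re ≤ -(3 / 4)) :
    IntegrableOn (fun y : ℝ => Complex.exp (A * (y : ℂ))) (Set.Ioi 0) ∧
      ‖∫ y in Set.Ioi (0 : ℝ), Complex.exp (A * (y : ℂ))‖ ≤ 4 / 3 := by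
  have hA0 : A.re < 0 := by linarith
  refine ⟨integrableOn_exp_mul_complex_Ioi hA0 0, ?_⟩
  rw [integral_exp_mul_complex_Ioi hA0 0]
  have h1 : ‖A‖ ≥ 3 / 4 := by
    have := Complex.abs_re_le_norm A
    have h2 : |A.re| = -A.re := abs_of_neg hA0
    linarith
  rw [Complex.ofReal_zero, mul_zero, Complex.exp_zero, norm_div, norm_neg, norm_one]
  rw [div_le_div_iff₀ (by linarith) (by norm_num)]
  linarith

theorem pair_P : ∃ C : ℝ, 0 < C ∧ ∀ (d : ℝ) (c c' : ℕ) (w w' : ℂ), 0 < d → d ≤ 1 / 2 → 1 ≤ c → 1 ≤ c' →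
    ‖w‖ ≤ 1 → ‖w'‖ ≤ 1 → |w.im| ≤ 1 / 8 → |w'.im| ≤ 1 / 8 →
    |w.im| * Real.log (c : ℝ) ≤ 1 → |w'.im| * Real.log (c' : ℝ) ≤ 1 →
    IntegrableOn (fun y : ℝ => gp d c w y * (starRingEnd ℂ) (gp d c' w' y)) (Set.Ioi 0) ∧
    ‖(∫ y in Set.Ioi (0 : ℝ), gp d c w y * (starRingEnd ℂ) (gp d c' w' y)) -
      4 * (np c (I * w) * np c' (-(I * (starRingEnd ℂ) w'))) *
        Ei (tau d * (Nat.lcm c c' : ℝ)) (w - (starRingEnd ℂ) w')‖ ≤ C * (1 + Real.log (1 / d)) ^ 2 := by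
  obtain ⟨C1, hC1, H1⟩ := H_plus
  obtain ⟨C2, hC2, H2⟩ := cross
  refine ⟨4 * (Real.exp 1 * Real.exp 1) * (C1 + C2 + 1), by positivity, ?_⟩
  intro d c c' w w' hd hd2 hc hc' hw hw' hwi hwi' hl hl'
  set Δ : ℂ := w - (starRingEnd ℂ) w' with hΔ
  have hΔn : ‖Δ‖ ≤ 2 := by
    refine (norm_sub_le _ _).trans ?_
    rw [RCLike.norm_conj]
    linarith
  have hΔi : |Δ.im| ≤ 1 / 4 := by
    have : Δ.im = w.im + w'.im := by simp [hΔ]
    rw [this]
    refine (abs_add_le _ _).trans ?_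
    linarith
  have hc1 : (1 : ℝ) ≤ c := by exact_mod_cast hc
  have hc1' : (1 : ℝ) ≤ c' := by exact_mod_cast hc'
  obtain ⟨i1, e1⟩ := H1 d c c' Δ hd hd2 hc hc' hΔn hΔi
  obtain ⟨i2, e2, -, -⟩ := H2 d ((c : ℝ) ^ 2) Δ hd hd2 (by positivity) hΔn hΔi
  obtain ⟨-, -, i3, e3⟩ := H2 d ((c' : ℝ) ^ 2) Δ hd hd2 (by positivity) hΔn hΔi
  have hA4 : (I * Δ - 1).re ≤ -(3 / 4) := by
    have : (I * Δ - 1).re = -Δ.im - 1 := by simp
    rw [this]
    have := neg_abs_le Δ.im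
    linarith
  obtain ⟨i4, e4⟩ := exp_int hA4
  -- the four functions
  set f1 : ℝ → ℂ := fun u => om ((((c : ℝ) ^ 2 * u ^ 2 : ℝ) : ℂ) * z0 d) *
    (starRingEnd ℂ) (om ((((c' : ℝ) ^ 2 * u ^ 2 : ℝ) : ℂ) * z0 d)) with hf1
  set f2 : ℝ → ℂ := fun u => om ((((c : ℝ) ^ 2 * u ^ 2 : ℝ) : ℂ) * z0 d) with hf2
  set f3 : ℝ → ℂ := fun u => (starRingEnd ℂ) (om ((((c' : ℝ) ^ 2 * u ^ 2 : ℝ) : ℂ) * z0 d))
    with hf3
  have j1 : IntegrableOn (fun y : ℝ => Complex.exp ((I * Δ + 1) * (y : ℂ)) * f1 (Real.exp y))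
      (Set.Ioi 0) := by
    rw [sub_exp_int]
    refine i1.congr_fun (fun u _ => ?_) measurableSet_Ioi
    simp only [hf1]
    ring
  have j2 : IntegrableOn (fun y : ℝ => Complex.exp ((I * Δ - 1 + 1) * (y : ℂ)) * f2 (Real.exp y))
      (Set.Ioi 0) := by
    rw [sub_exp_int]
    exact i2
  have j3 : IntegrableOn (fun y : ℝ => Complex.exp ((I * Δ - 1 + 1) * (y : ℂ)) * f3 (Real.exp y))
      (Set.Ioi 0) := by
    rw [sub_exp_int]
    exact i3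
  set N : ℂ := 4 * (np c (I * w) * np c' (-(I * (starRingEnd ℂ) w'))) with hN
  set b : ℂ := pb d c with hb
  set b' : ℂ := (starRingEnd ℂ) (pb d c') with hb'
  have hpt : ∀ y : ℝ, gp d c w y * (starRingEnd ℂ) (gp d c' w' y) =
      N * (Complex.exp ((I * Δ + 1) * (y : ℂ)) * f1 (Real.exp y)) -
      N * b' * (Complex.exp ((I * Δ - 1 + 1) * (y : ℂ)) * f2 (Real.exp y)) -
      N * b * (Complex.exp ((I * Δ - 1 + 1) * (y : ℂ)) * f3 (Real.exp y)) +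
      N * b * b' * Complex.exp ((I * Δ - 1) * (y : ℂ)) := by
    intro y
    rw [gp_eq d hc, gp_eq d hc']
    simp only [map_mul, map_sub]
    rw [pp_np_conj, ← Complex.exp_conj]
    have h2 : (starRingEnd ℂ) (2 : ℂ) = 2 := Complex.conj_ofNat 2
    have hey : (starRingEnd ℂ) ((Real.exp (-y) : ℝ) : ℂ) = ((Real.exp (-y) : ℝ) : ℂ) :=
      Complex.conj_ofReal _
    have hE : Complex.exp ((1 / 2 + I * w) * (y : ℂ)) *
        Complex.exp ((starRingEnd ℂ) ((1 / 2 + I * w') * (y : ℂ))) =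
        Complex.exp ((I * Δ + 1) * (y : ℂ)) := by
      rw [← Complex.exp_add]
      congr 1
      simp only [map_mul, map_add, map_div₀, Complex.conj_I, Complex.conj_ofReal, map_one,
        h2, hΔ]
      ring
    have hE2 : Complex.exp ((I * Δ - 1 + 1) * (y : ℂ)) =
        Complex.exp ((I * Δ + 1) * (y : ℂ)) * ((Real.exp (-y) : ℝ) : ℂ) := by
      rw [Complex.ofReal_exp, ← Complex.exp_add]
      congr 1
      push_cast
      ring
    have hE3 : Complex.exp ((I * Δ - 1) * (y : ℂ)) =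
        Complex.exp ((I * Δ + 1) * (y : ℂ)) * ((Real.exp (-y) : ℝ) : ℂ) *
          ((Real.exp (-y) : ℝ) : ℂ) := by
      rw [Complex.ofReal_exp, ← Complex.exp_add, ← Complex.exp_add]
      congr 1
      push_cast
      ring
    rw [h2, hey, hE2, hE3, ← hE]
    simp only [hf1, hf2, hf3, hN, hb, hb']
    have hp := pe_conj d
    linear_combination (4 * np c (I * w) * np c' (-(I * (starRingEnd ℂ) w')) *
      Complex.exp ((1 / 2 + I * w) * (y : ℂ)) *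
      Complex.exp ((starRingEnd ℂ) ((1 / 2 + I * w') * (y : ℂ))) *
      (om ((((c : ℝ) ^ 2 * (Real.exp y) ^ 2 : ℝ) : ℂ) * z0 d) -
        pb d c * ((Real.exp (-y) : ℝ) : ℂ)) *
      ((starRingEnd ℂ) (om ((((c' : ℝ) ^ 2 * (Real.exp y) ^ 2 : ℝ) : ℂ) * z0 d)) -
        (starRingEnd ℂ) (pb d c') * ((Real.exp (-y) : ℝ) : ℂ))) * hp
  have hfun : (fun y : ℝ => gp d c w y * (starRingEnd ℂ) (gp d c' w' y)) = fun y : ℝ =>
      N * (Complex.exp ((I * Δ + 1) * (y : ℂ)) * f1 (Real.exp y)) -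
      N * b' * (Complex.exp ((I * Δ - 1 + 1) * (y : ℂ)) * f2 (Real.exp y)) -
      N * b * (Complex.exp ((I * Δ - 1 + 1) * (y : ℂ)) * f3 (Real.exp y)) +
      N * b * b' * Complex.exp ((I * Δ - 1) * (y : ℂ)) := funext hpt
  set G1 : ℝ → ℂ := fun y => N * (Complex.exp ((I * Δ + 1) * (y : ℂ)) * f1 (Real.exp y)) with hG1
  set G2 : ℝ → ℂ := fun y => N * b' * (Complex.exp ((I * Δ - 1 + 1) * (y : ℂ)) *
    f2 (Real.exp y)) with hG2
  set G3 : ℝ → ℂ := fun y => N * b * (Complex.exp ((I * Δ - 1 + 1) * (y : ℂ)) *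
    f3 (Real.exp y)) with hG3
  set G4 : ℝ → ℂ := fun y => N * b * b' * Complex.exp ((I * Δ - 1) * (y : ℂ)) with hG4
  have k1 : IntegrableOn G1 (Set.Ioi 0) := j1.const_mul N
  have k2 : IntegrableOn G2 (Set.Ioi 0) := j2.const_mul (N * b')
  have k3 : IntegrableOn G3 (Set.Ioi 0) := j3.const_mul (N * b)
  have k4 : IntegrableOn G4 (Set.Ioi 0) := i4.const_mul (N * b * b')
  have k12 : IntegrableOn (fun y => G1 y - G2 y) (Set.Ioi 0) := k1.sub k2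
  have k123 : IntegrableOn (fun y => G1 y - G2 y - G3 y) (Set.Ioi 0) := k12.sub k3
  have k : IntegrableOn (fun y => G1 y - G2 y - G3 y + G4 y) (Set.Ioi 0) := k123.add k4
  refine ⟨?_, ?_⟩
  · rw [hfun]
    exact k
  · have hint : (∫ y in Set.Ioi (0 : ℝ), gp d c w y * (starRingEnd ℂ) (gp d c' w' y)) =
        N * (∫ u in Set.Ioi (1 : ℝ), (u : ℂ) ^ (I * Δ) * f1 u) -
        N * b' * (∫ u in Set.Ioi (1 : ℝ), (u : ℂ) ^ (I * Δ - 1) * f2 u) -
        N * b * (∫ u in Set.Ioi (1 : ℝ), (u : ℂ) ^ (I * Δ - 1) * f3 u) +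
        N * b * b' * ∫ y in Set.Ioi (0 : ℝ), Complex.exp ((I * Δ - 1) * (y : ℂ)) := by
      rw [hfun, ← sub_exp, ← sub_exp, ← sub_exp]
      rw [← integral_const_mul, ← integral_const_mul, ← integral_const_mul, ← integral_const_mul]
      rw [integral_add k123 k4, integral_sub k12 k3, integral_sub k1 k2]
    have hI1 : (∫ u in Set.Ioi (1 : ℝ), (u : ℂ) ^ (I * Δ) * f1 u) =
        ∫ u in Set.Ioi (1 : ℝ), (u : ℂ) ^ (I * Δ) * om (((c : ℝ) ^ 2 * u ^ 2 : ℝ) * z0 d) *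
      (starRingEnd ℂ) (om (((c' : ℝ) ^ 2 * u ^ 2 : ℝ) * z0 d)) := by
      congr 1
      ext u
      simp only [hf1]
      ring
    rw [hint, hI1]
    set J1 := ∫ u in Set.Ioi (1 : ℝ), (u : ℂ) ^ (I * Δ) * om (((c : ℝ) ^ 2 * u ^ 2 : ℝ) * z0 d) *
      (starRingEnd ℂ) (om (((c' : ℝ) ^ 2 * u ^ 2 : ℝ) * z0 d)) with hJ1
    set J2 := ∫ u in Set.Ioi (1 : ℝ), (u : ℂ) ^ (I * Δ - 1) * f2 u with hJ2
    set J3 := ∫ u in Set.Ioi (1 : ℝ), (u : ℂ) ^ (I * Δ - 1) * f3 u with hJ3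
    set J4 := ∫ y in Set.Ioi (0 : ℝ), Complex.exp ((I * Δ - 1) * (y : ℂ)) with hJ4
    set EE1 := Ei (tau d * (Nat.lcm c c' : ℝ)) Δ with hEE1
    have hrew : N * J1 - N * b' * J2 - N * b * J3 + N * b * b' * J4 - N * EE1 =
        N * ((J1 - EE1) - b' * J2 - b * J3 + b * b' * J4) := by ring
    rw [hrew, norm_mul]
    have hNn : ‖N‖ ≤ 4 * (Real.exp 1 * Real.exp 1) := by
      rw [hN, norm_mul, norm_mul]
      have h4 : ‖(4 : ℂ)‖ = 4 := by norm_num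
      rw [h4]
      have := norm_np_le hl hc
      have := norm_np_le' hl' hc'
      gcongr
    have hbn : ‖b‖ ≤ 1 / 2 := norm_pb d hc
    have hbn' : ‖b'‖ ≤ 1 / 2 := by
      rw [hb', RCLike.norm_conj]
      exact norm_pb d hc'
    have hlog : 0 ≤ Real.log (1 / d) := by
      apply Real.log_nonneg
      rw [le_div_iff₀ hd]
      linarith
    have hL1 : 1 ≤ (1 + Real.log (1 / d)) ^ 2 := by nlinarith
    have hJ2n : ‖J2‖ ≤ C2 := e2.trans (div_le_self hC2.le (one_le_pow₀ hc1))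
    have hJ3n : ‖J3‖ ≤ C2 := e3.trans (div_le_self hC2.le (one_le_pow₀ hc1'))
    have hmain : ‖(J1 - EE1) - b' * J2 - b * J3 + b * b' * J4‖ ≤
        (C1 + C2 + 1) * (1 + Real.log (1 / d)) ^ 2 := by
      have t1 : ‖(J1 - EE1) - b' * J2 - b * J3 + b * b' * J4‖ ≤
          ‖J1 - EE1‖ + ‖b' * J2‖ + ‖b * J3‖ + ‖b * b' * J4‖ := by
        refine (norm_add_le _ _).trans ?_
        gcongr
        refine (norm_sub_le _ _).trans ?_
        gcongr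
        exact norm_sub_le _ _
      have t2 : ‖b' * J2‖ ≤ 1 / 2 * C2 := by
        rw [norm_mul]
        gcongr
      have t3 : ‖b * J3‖ ≤ 1 / 2 * C2 := by
        rw [norm_mul]
        gcongr
      have t4 : ‖b * b' * J4‖ ≤ 1 / 2 * (1 / 2) * (4 / 3) := by
        rw [norm_mul, norm_mul]
        gcongr
      nlinarith
    calc ‖N‖ * ‖(J1 - EE1) - b' * J2 - b * J3 + b * b' * J4‖ ≤
        4 * (Real.exp 1 * Real.exp 1) * ((C1 + C2 + 1) * (1 + Real.log (1 / d)) ^ 2) := by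
          gcongr
      _ = _ := by ring

end Pool.Agent.H28.ZT
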