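import Pool.Agent.H28.ZT.HMinus
import Pool.Agent.H28.ZT.Cross
import Pool.Agent.H28.ZT.PairP

/-!
# PAIRM (chapter D): one pair, half line `y < 0`

`x = -y > 0`, `gg_symm`: `gp d c w (-x) = c^(-1/2) conj (gg (x - log c)) e^(-i(x - log c)w)
 = 2 e^(-iη) c^(-1+iw) e^(x/2) e^(-ixw) (conj (om (e^(2x) c^(-2) z0)) - (1/2) c e^(-x) e^(2iη))`.
So `gp d c w (-x) · conj (gp d c' w' (-x)) = 4 (cc')^(-1) c^(iw) c'^(-i conj w') e^((-iΔ+1)x) (conj om_c - (c/2) e^(2iη) e^(-x))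
(om_c' - (c'/2) e^(-2iη) e^(-x))`, `om_c = om (e^(2x)/c² z0)`.  First product HMINUS with `x := -Δ`; cross products CROSS with
`ρ = 1/c²` resp. `1/c'²` : `4 (cc')^(-1) (c'/2) C c² ≤ 2 C c`; last one `≤ 4/3`.
-/

set_option autoImplicit false

namespace Pool.Agent.H28.ZT

open Complex MeasureTheory

/-- the constant `b = c e^(2iη)/2` -/
private noncomputable def qb (d : ℝ) (c : ℕ) : ℂ :=
  (c : ℂ) / 2 * Complex.exp (I * ((Real.pi / 4 - d / 2 : ℝ) : ℂ))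

private theorem norm_qb (d : ℝ) (c : ℕ) : ‖qb d c‖ = (c : ℝ) / 2 := by
  unfold qb
  rw [norm_mul, norm_exp_I, norm_div, Complex.norm_natCast]
  norm_num

private theorem gp_neg {d : ℝ} (h0 : 0 < d) (h1 : d ≤ 1 / 2) {c : ℕ} (hc : 1 ≤ c) (w : ℂ) (x : ℝ) :
    gp d c w (-x) = 2 / (c : ℂ) * (starRingEnd ℂ) (pe d) * np c (I * w) *
      Complex.exp ((1 / 2 - I * w) * (x : ℂ)) *
      ((starRingEnd ℂ) (om ((((Real.exp x) ^ 2 / (c : ℝ) ^ 2 : ℝ) : ℂ) * z0 d)) -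
        qb d c * ((Real.exp (-x) : ℝ) : ℂ)) := by
  have hc' : (0 : ℝ) < c := by exact_mod_cast hc
  have hcC : (c : ℂ) ≠ 0 := by
    have : (c : ℝ) ≠ 0 := hc'.ne'
    exact_mod_cast this
  have h0' : -x + Real.log (c : ℝ) = -(x - Real.log (c : ℝ)) := by ring
  have hh1 : Real.exp (2 * (x - Real.log (c : ℝ))) = (Real.exp x) ^ 2 / (c : ℝ) ^ 2 := by
    have : 2 * (x - Real.log (c : ℝ)) = (x + x) - (Real.log c + Real.log c) := by ring
    rw [this, Real.exp_sub, Real.exp_add, Real.exp_add, Real.exp_log hc']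
    ring
  have hh2 : Real.exp (-(x - Real.log (c : ℝ))) = Real.exp (-x) * c := by
    rw [neg_sub, sub_eq_neg_add, Real.exp_add, Real.exp_log hc']
  have hh3 : np c (-(1 / 2)) * ((Real.exp ((x - Real.log (c : ℝ)) / 2) : ℝ) : ℂ) =
      1 / (c : ℂ) * Complex.exp ((1 / 2 : ℂ) * (x : ℂ)) := by
    have hcl : 1 / (c : ℂ) = Complex.exp (-((Real.log (c : ℝ) : ℝ) : ℂ)) := by
      rw [Complex.exp_neg, ← Complex.ofReal_exp, Real.exp_log hc']
      simp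
    rw [hcl]
    unfold np
    rw [Complex.ofReal_exp, ← Complex.exp_add, ← Complex.exp_add]
    congr 1
    push_cast
    ring
  have hh4 : Complex.exp (I * ((-x + Real.log (c : ℝ) : ℝ) : ℂ) * w) =
      np c (I * w) * Complex.exp (-(I * w) * (x : ℂ)) := by
    unfold np
    rw [← Complex.exp_add]
    congr 1
    push_cast
    ring
  have hh5 : Complex.exp ((1 / 2 - I * w) * (x : ℂ)) =
      Complex.exp ((1 / 2 : ℂ) * (x : ℂ)) * Complex.exp (-(I * w) * (x : ℂ)) := by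
    rw [← Complex.exp_add]
    congr 1
    ring
  have hcj1 : (starRingEnd ℂ) (Complex.exp (-(I * ((Real.pi / 4 - d / 2 : ℝ) : ℂ)))) =
      Complex.exp (I * ((Real.pi / 4 - d / 2 : ℝ) : ℂ)) := by
    rw [← Complex.exp_conj, map_neg, map_mul, Complex.conj_I, Complex.conj_ofReal]
    congr 1
    ring
  have hcj2 : (starRingEnd ℂ) (2 : ℂ) = 2 := Complex.conj_ofNat 2
  unfold gp
  rw [hh4, h0', gg_symm h0 h1]
  unfold gg
  rw [hh1, hh2]
  simp only [map_mul, map_sub, map_div₀, map_one, Complex.conj_ofReal, hcj1, hcj2]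
  rw [hh5]
  have e1 : Complex.exp ((1 / 2 : ℂ) * (x : ℂ)) =
      (c : ℂ) * (np c (-(1 / 2)) * ((Real.exp ((x - Real.log (c : ℝ)) / 2) : ℝ) : ℂ)) := by
    rw [hh3]
    field_simp
  rw [e1]
  unfold pe qb
  push_cast
  field_simp

theorem pair_M : ∃ C : ℝ, 0 < C ∧ ∀ (d : ℝ) (c c' : ℕ) (w w' : ℂ), 0 < d → d ≤ 1 / 2 → 1 ≤ c → 1 ≤ c' →
    ‖w‖ ≤ 1 → ‖w'‖ ≤ 1 → |w.im| ≤ 1 / 8 → |w'.im| ≤ 1 / 8 →
    |w.im| * Real.log (c : ℝ) ≤ 1 → |w'.im| * Real.log (c' : ℝ) ≤ 1 →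
    IntegrableOn (fun y : ℝ => gp d c w y * (starRingEnd ℂ) (gp d c' w' y)) (Set.Iic 0) ∧
    ‖(∫ y in Set.Iic (0 : ℝ), gp d c w y * (starRingEnd ℂ) (gp d c' w' y)) -
      4 * (np c (I * w) * np c' (-(I * (starRingEnd ℂ) w'))) * (1 / ((c : ℂ) * (c' : ℂ))) *
        Ei (tau d / (Nat.gcd c c' : ℝ)) (-(w - (starRingEnd ℂ) w'))‖ ≤
      C * ((c : ℝ) * c') * (1 + Real.log ((c : ℝ) * c' / d)) ^ 2 := by
  obtain ⟨C1, hC1, H1⟩ := H_minus
  obtain ⟨C2, hC2, H2⟩ := cross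
  refine ⟨4 * (Real.exp 1 * Real.exp 1) * (C1 + C2 + 1), by positivity, ?_⟩
  intro d c c' w w' hd hd2 hc hc' hw hw' hwi hwi' hl hl'
  set Δ : ℂ := -(w - (starRingEnd ℂ) w') with hΔ
  have hΔn : ‖Δ‖ ≤ 2 := by
    rw [hΔ, norm_neg]
    refine (norm_sub_le _ _).trans ?_
    rw [RCLike.norm_conj]
    linarith
  have hΔi : |Δ.im| ≤ 1 / 4 := by
    have : Δ.im = -(w.im + w'.im) := by
      rw [hΔ, Complex.neg_im, Complex.sub_im, Complex.conj_im]
      ring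
    rw [this, abs_neg]
    refine (abs_add_le _ _).trans ?_
    linarith
  have hc1 : (1 : ℝ) ≤ c := by exact_mod_cast hc
  have hc1' : (1 : ℝ) ≤ c' := by exact_mod_cast hc'
  have hcC : (c : ℂ) ≠ 0 := by
    have : (c : ℝ) ≠ 0 := by linarith
    exact_mod_cast this
  have hcC' : (c' : ℂ) ≠ 0 := by
    have : (c' : ℝ) ≠ 0 := by linarith
    exact_mod_cast this
  obtain ⟨i1, e1⟩ := H1 d c c' Δ hd hd2 hc hc' hΔn hΔi
  obtain ⟨-, -, i2, e2⟩ := H2 d (1 / (c : ℝ) ^ 2) Δ hd hd2 (by positivity) hΔn hΔi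
  obtain ⟨i3, e3, -, -⟩ := H2 d (1 / (c' : ℝ) ^ 2) Δ hd hd2 (by positivity) hΔn hΔi
  have ee : ∀ (a u : ℝ), 1 / a ^ 2 * u ^ 2 = u ^ 2 / a ^ 2 := fun a u => by ring
  simp only [ee] at i2 e2 i3 e3
  have hA4 : (I * Δ - 1).re ≤ -(3 / 4) := by
    have : (I * Δ - 1).re = -Δ.im - 1 := by simp
    rw [this]
    have := neg_abs_le Δ.im
    linarith
  obtain ⟨i4, e4⟩ := exp_int hA4
  -- the four functions
  set f1 : ℝ → ℂ := fun u => (starRingEnd ℂ) (om (((u ^ 2 / (c : ℝ) ^ 2 : ℝ) : ℂ) * z0 d)) *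
    om (((u ^ 2 / (c' : ℝ) ^ 2 : ℝ) : ℂ) * z0 d) with hf1
  set f2 : ℝ → ℂ := fun u => (starRingEnd ℂ) (om (((u ^ 2 / (c : ℝ) ^ 2 : ℝ) : ℂ) * z0 d))
    with hf2
  set f3 : ℝ → ℂ := fun u => om (((u ^ 2 / (c' : ℝ) ^ 2 : ℝ) : ℂ) * z0 d) with hf3
  have j1 : IntegrableOn (fun y : ℝ => Complex.exp ((I * Δ + 1) * (y : ℂ)) * f1 (Real.exp y))
      (Set.Ioi 0) := by
    rw [sub_exp_int]
    refine i1.congr_fun (fun u _ => ?_) measurableSet_Ioi
    simp only [hf1]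
    ring
  have j2 : IntegrableOn (fun y : ℝ => Complex.exp ((I * Δ - 1 + 1) * (y : ℂ)) * f2 (Real.exp y))
      (Set.Ioi 0) := by
    rw [sub_exp_int]
    exact i2
  have j3 : IntegrableOn (fun y : ℝ => Complex.exp ((I * Δ - 1 + 1) * (y : ℂ)) * f3 (Real.exp y))
      (Set.Ioi 0) := by
    rw [sub_exp_int]
    exact i3
  set N : ℂ := 4 * (np c (I * w) * np c' (-(I * (starRingEnd ℂ) w'))) *
    (1 / ((c : ℂ) * (c' : ℂ))) with hN
  set b : ℂ := qb d c with hb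
  set b' : ℂ := (starRingEnd ℂ) (qb d c') with hb'
  have hpt : ∀ y : ℝ, gp d c w (-y) * (starRingEnd ℂ) (gp d c' w' (-y)) =
      N * (Complex.exp ((I * Δ + 1) * (y : ℂ)) * f1 (Real.exp y)) -
      N * b' * (Complex.exp ((I * Δ - 1 + 1) * (y : ℂ)) * f2 (Real.exp y)) -
      N * b * (Complex.exp ((I * Δ - 1 + 1) * (y : ℂ)) * f3 (Real.exp y)) +
      N * b * b' * Complex.exp ((I * Δ - 1) * (y : ℂ)) := by
    intro y
    rw [gp_neg hd hd2 hc, gp_neg hd hd2 hc']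
    simp only [map_mul, map_sub, map_div₀, Complex.conj_conj]
    rw [pp_np_conj, ← Complex.exp_conj]
    have h2 : (starRingEnd ℂ) (2 : ℂ) = 2 := Complex.conj_ofNat 2
    have hcc : (starRingEnd ℂ) (c' : ℂ) = (c' : ℂ) := Complex.conj_natCast c'
    have hey : (starRingEnd ℂ) ((Real.exp (-y) : ℝ) : ℂ) = ((Real.exp (-y) : ℝ) : ℂ) :=
      Complex.conj_ofReal _
    have hE : Complex.exp ((1 / 2 - I * w) * (y : ℂ)) *
        Complex.exp ((starRingEnd ℂ) ((1 / 2 - I * w') * (y : ℂ))) =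
        Complex.exp ((I * Δ + 1) * (y : ℂ)) := by
      rw [← Complex.exp_add]
      congr 1
      simp only [map_mul, map_sub, map_div₀, Complex.conj_I, Complex.conj_ofReal, map_one,
        h2, hΔ]
      ring
    have hE2 : Complex.exp ((I * Δ - 1 + 1) * (y : ℂ)) =
        Complex.exp ((I * Δ + 1) * (y : ℂ)) * ((Real.exp (-y) : ℝ) : ℂ) := by
      rw [Complex.ofReal_exp, ← Complex.exp_add]
      congr 1
      push_cast
      ring
    have hE3 : Complex.exp ((I * Δ - 1) * (y : ℂ)) =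
        Complex.exp ((I * Δ + 1) * (y : ℂ)) * ((Real.exp (-y) : ℝ) : ℂ) *
          ((Real.exp (-y) : ℝ) : ℂ) := by
      rw [Complex.ofReal_exp, ← Complex.exp_add, ← Complex.exp_add]
      congr 1
      push_cast
      ring
    rw [h2, hcc, hey, hE2, hE3, ← hE]
    simp only [hf1, hf2, hf3, hN, hb, hb']
    have hp := pe_conj d
    linear_combination (4 * (1 / ((c : ℂ) * (c' : ℂ))) * np c (I * w) *
      np c' (-(I * (starRingEnd ℂ) w')) *
      Complex.exp ((1 / 2 - I * w) * (y : ℂ)) *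
      Complex.exp ((starRingEnd ℂ) ((1 / 2 - I * w') * (y : ℂ))) *
      (((starRingEnd ℂ) (om ((((Real.exp y) ^ 2 / (c : ℝ) ^ 2 : ℝ) : ℂ) * z0 d))) -
        qb d c * ((Real.exp (-y) : ℝ) : ℂ)) *
      ((om ((((Real.exp y) ^ 2 / (c' : ℝ) ^ 2 : ℝ) : ℂ) * z0 d)) -
        (starRingEnd ℂ) (qb d c') * ((Real.exp (-y) : ℝ) : ℂ))) * hp
  have hfun : (fun y : ℝ => gp d c w (-y) * (starRingEnd ℂ) (gp d c' w' (-y))) = fun y : ℝ =>
      N * (Complex.exp ((I * Δ + 1) * (y : ℂ)) * f1 (Real.exp y)) -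
      N * b' * (Complex.exp ((I * Δ - 1 + 1) * (y : ℂ)) * f2 (Real.exp y)) -
      N * b * (Complex.exp ((I * Δ - 1 + 1) * (y : ℂ)) * f3 (Real.exp y)) +
      N * b * b' * Complex.exp ((I * Δ - 1) * (y : ℂ)) := funext hpt
  set G1 : ℝ → ℂ := fun y => N * (Complex.exp ((I * Δ + 1) * (y : ℂ)) * f1 (Real.exp y)) with hG1
  set G2 : ℝ → ℂ := fun y => N * b' * (Complex.exp ((I * Δ - 1 + 1) * (y : ℂ)) *
    f2 (Real.exp y)) with hG2
  set G3 : ℝ → ℂ := fun y => N * b * (Complex.exp ((I * Δ - 1 + 1) * (y : ℂ)) *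
    f3 (Real.exp y)) with hG3
  set G4 : ℝ → ℂ := fun y => N * b * b' * Complex.exp ((I * Δ - 1) * (y : ℂ)) with hG4
  have k1 : IntegrableOn G1 (Set.Ioi 0) := j1.const_mul N
  have k2 : IntegrableOn G2 (Set.Ioi 0) := j2.const_mul (N * b')
  have k3 : IntegrableOn G3 (Set.Ioi 0) := j3.const_mul (N * b)
  have k4 : IntegrableOn G4 (Set.Ioi 0) := i4.const_mul (N * b * b')
  have k12 : IntegrableOn (fun y => G1 y - G2 y) (Set.Ioi 0) := k1.sub k2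
  have k123 : IntegrableOn (fun y => G1 y - G2 y - G3 y) (Set.Ioi 0) := k12.sub k3
  have k : IntegrableOn (fun y => G1 y - G2 y - G3 y + G4 y) (Set.Ioi 0) := k123.add k4
  refine ⟨?_, ?_⟩
  · have k' : IntegrableOn (fun y : ℝ => gp d c w (-y) * (starRingEnd ℂ) (gp d c' w' (-y)))
        (Set.Ioi (-0)) := by
      rw [hfun, neg_zero]
      exact k
    have := k'.comp_neg_Iio
    simp only [neg_neg] at this
    exact Iff.mpr integrableOn_Iic_iff_integrableOn_Iio this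
  · have hneg : (∫ y in Set.Iic (0 : ℝ), gp d c w y * (starRingEnd ℂ) (gp d c' w' y)) =
        ∫ y in Set.Ioi (0 : ℝ), gp d c w (-y) * (starRingEnd ℂ) (gp d c' w' (-y)) := by
      have := integral_comp_neg_Ioi 0
        (fun y : ℝ => gp d c w y * (starRingEnd ℂ) (gp d c' w' y))
      rw [neg_zero] at this
      exact this.symm
    have hint : (∫ y in Set.Ioi (0 : ℝ), gp d c w (-y) * (starRingEnd ℂ) (gp d c' w' (-y))) =
        N * (∫ u in Set.Ioi (1 : ℝ), (u : ℂ) ^ (I * Δ) * f1 u) -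
        N * b' * (∫ u in Set.Ioi (1 : ℝ), (u : ℂ) ^ (I * Δ - 1) * f2 u) -
        N * b * (∫ u in Set.Ioi (1 : ℝ), (u : ℂ) ^ (I * Δ - 1) * f3 u) +
        N * b * b' * ∫ y in Set.Ioi (0 : ℝ), Complex.exp ((I * Δ - 1) * (y : ℂ)) := by
      rw [hfun, ← sub_exp, ← sub_exp, ← sub_exp]
      rw [← integral_const_mul, ← integral_const_mul, ← integral_const_mul, ← integral_const_mul]
      rw [integral_add k123 k4, integral_sub k12 k3, integral_sub k1 k2]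
    have hI1 : (∫ u in Set.Ioi (1 : ℝ), (u : ℂ) ^ (I * Δ) * f1 u) =
        ∫ u in Set.Ioi (1 : ℝ), (u : ℂ) ^ (I * Δ) *
          (starRingEnd ℂ) (om ((u ^ 2 / (c : ℝ) ^ 2 : ℝ) * z0 d)) *
      om ((u ^ 2 / (c' : ℝ) ^ 2 : ℝ) * z0 d) := by
      congr 1
      ext u
      simp only [hf1]
      ring
    rw [hneg, hint, hI1]
    set J1 := ∫ u in Set.Ioi (1 : ℝ), (u : ℂ) ^ (I * Δ) *
          (starRingEnd ℂ) (om ((u ^ 2 / (c : ℝ) ^ 2 : ℝ) * z0 d)) *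
      om ((u ^ 2 / (c' : ℝ) ^ 2 : ℝ) * z0 d) with hJ1
    set J2 := ∫ u in Set.Ioi (1 : ℝ), (u : ℂ) ^ (I * Δ - 1) * f2 u with hJ2
    set J3 := ∫ u in Set.Ioi (1 : ℝ), (u : ℂ) ^ (I * Δ - 1) * f3 u with hJ3
    set J4 := ∫ y in Set.Ioi (0 : ℝ), Complex.exp ((I * Δ - 1) * (y : ℂ)) with hJ4
    set EE1 := Ei (tau d / (Nat.gcd c c' : ℝ)) Δ with hEE1
    have hrew : N * J1 - N * b' * J2 - N * b * J3 + N * b * b' * J4 - N * EE1 =
        N * ((J1 - EE1) - b' * J2 - b * J3 + b * b' * J4) := by ring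
    rw [hrew, norm_mul]
    have hNn : ‖N‖ ≤ 4 * (Real.exp 1 * Real.exp 1) * (1 / ((c : ℝ) * c')) := by
      rw [hN, norm_mul, norm_mul, norm_mul]
      have h4 : ‖(4 : ℂ)‖ = 4 := by norm_num
      have h5 : ‖1 / ((c : ℂ) * (c' : ℂ))‖ = 1 / ((c : ℝ) * c') := by
        rw [norm_div, norm_mul, Complex.norm_natCast, Complex.norm_natCast, norm_one]
      rw [h4, h5]
      have := norm_np_le hl hc
      have := norm_np_le' hl' hc'
      gcongr
    have hbn : ‖b‖ = (c : ℝ) / 2 := norm_qb d c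
    have hbn' : ‖b'‖ = (c' : ℝ) / 2 := by
      rw [hb', RCLike.norm_conj]
      exact norm_qb d c'
    have hcc1 : (1 : ℝ) ≤ (c : ℝ) * c' := by nlinarith
    have hlog : 0 ≤ Real.log ((c : ℝ) * c' / d) := by
      apply Real.log_nonneg
      rw [le_div_iff₀ hd]
      linarith
    set L : ℝ := (1 + Real.log ((c : ℝ) * c' / d)) ^ 2 with hL
    have hL1 : 1 ≤ L := by rw [hL]; nlinarith
    have hJ2n : ‖J2‖ ≤ C2 * (c : ℝ) ^ 2 := by
      refine e2.trans (le_of_eq ?_)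
      field_simp
    have hJ3n : ‖J3‖ ≤ C2 * (c' : ℝ) ^ 2 := by
      refine e3.trans (le_of_eq ?_)
      field_simp
    have hmain : ‖(J1 - EE1) - b' * J2 - b * J3 + b * b' * J4‖ ≤
        (C1 + C2 + 1) * ((c : ℝ) * c') ^ 2 * L := by
      have t1 : ‖(J1 - EE1) - b' * J2 - b * J3 + b * b' * J4‖ ≤
          ‖J1 - EE1‖ + ‖b' * J2‖ + ‖b * J3‖ + ‖b * b' * J4‖ := by
        refine (norm_add_le _ _).trans ?_
        gcongr
        refine (norm_sub_le _ _).trans ?_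
        gcongr
        exact norm_sub_le _ _
      have hcsq : (1 : ℝ) ≤ c ^ 2 := one_le_pow₀ hc1
      have hcsq' : (1 : ℝ) ≤ c' ^ 2 := one_le_pow₀ hc1'
      have t2 : ‖b' * J2‖ ≤ 1 / 2 * C2 * ((c : ℝ) * c') ^ 2 := by
        rw [norm_mul, hbn']
        calc (c' : ℝ) / 2 * ‖J2‖ ≤ (c' : ℝ) / 2 * (C2 * (c : ℝ) ^ 2) := by gcongr
          _ ≤ (c' : ℝ) ^ 2 / 2 * (C2 * (c : ℝ) ^ 2) := by
              gcongr
              nlinarith
          _ = _ := by ring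
      have t3 : ‖b * J3‖ ≤ 1 / 2 * C2 * ((c : ℝ) * c') ^ 2 := by
        rw [norm_mul, hbn]
        calc (c : ℝ) / 2 * ‖J3‖ ≤ (c : ℝ) / 2 * (C2 * (c' : ℝ) ^ 2) := by gcongr
          _ ≤ (c : ℝ) ^ 2 / 2 * (C2 * (c' : ℝ) ^ 2) := by
              gcongr
              nlinarith
          _ = _ := by ring
      have t4 : ‖b * b' * J4‖ ≤ 1 * ((c : ℝ) * c') ^ 2 := by
        rw [norm_mul, norm_mul, hbn, hbn']
        calc (c : ℝ) / 2 * ((c' : ℝ) / 2) * ‖J4‖ ≤ (c : ℝ) / 2 * ((c' : ℝ) / 2) * (4 / 3) := by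
              gcongr
          _ ≤ 1 * ((c : ℝ) * c') ^ 2 := by nlinarith
      have t5 : (C2 + 1) * ((c : ℝ) * c') ^ 2 * 1 ≤ (C2 + 1) * ((c : ℝ) * c') ^ 2 * L := by
        gcongr
      linarith
    calc ‖N‖ * ‖(J1 - EE1) - b' * J2 - b * J3 + b * b' * J4‖ ≤
        4 * (Real.exp 1 * Real.exp 1) * (1 / ((c : ℝ) * c')) *
          ((C1 + C2 + 1) * ((c : ℝ) * c') ^ 2 * L) := by
          gcongr
      _ = _ := by
          field_simp

end Pool.Agent.H28.ZT
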