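import Mathlib

/-!
# PLANCH (chapter P): Parseval's formula in the form we need

`f, h` continuous and integrable, their transforms `f^(t) = ∫ f(y) e^(iyt) dy`, `h^` integrable.  Then
`∫ f^(t) conj(h^(t)) dt = 2π ∫ f conj h`.  Proof: Fourier inversion (`MeasureTheory.Integrable.fourierInv_fourier_eq` /
`Continuous.fourierInv_fourier_eq`, normalisation `e^(-2πi)`): `f(y) = (1/2π) ∫ f^(t) e^(-iyt) dt`, insert it in `∫ f conj h`
and use Fubini (`f^ (t) conj(h (y))` is integrable on the product).  Or use Mathlib's Plancherel theorem if it is available.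
-/

set_option autoImplicit false

namespace Pool.Agent.H28.ZT

open Complex MeasureTheory
open scoped FourierTransform

/-- the transform of Mathlib is the transform of the text at `-2πw` -/
private theorem planch_key (g : ℝ → ℂ) (w : ℝ) :
    𝓕 g w = ∫ y : ℝ, g y * Complex.exp (I * (y : ℂ) * (((-(2 * Real.pi)) * w : ℝ) : ℂ)) := by
  rw [Real.fourier_real_eq_integral_exp_smul]
  refine integral_congr_ae (Filter.Eventually.of_forall fun y => ?_)
  simp only [smul_eq_mul]
  rw [mul_comm]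
  congr 2
  push_cast
  ring

/-- Fubini: `∫ (𝓕 f) g = ∫ f (𝓕 g)` -/
private theorem planch_flip {f g : ℝ → ℂ} (hf : Integrable f) (hg : Integrable g) :
    ∫ w : ℝ, 𝓕 f w * g w = ∫ y : ℝ, f y * 𝓕 g y := by
  have h := VectorFourier.integral_fourierIntegral_smul_eq_flip (L := innerₗ ℝ)
      (μ := (volume : Measure ℝ)) (ν := (volume : Measure ℝ))
      Real.continuous_fourierChar continuous_inner hf hg
  simp only [smul_eq_mul, flip_innerₗ] at h
  exact h

theorem planch {f h : ℝ → ℂ} (hf : Continuous f) (hfi : Integrable f) (hh : Continuous h) (hhi : Integrable h)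
    (hF : Integrable fun t : ℝ => ∫ y : ℝ, f y * Complex.exp (I * (y : ℂ) * (t : ℂ)))
    (hH : Integrable fun t : ℝ => ∫ y : ℝ, h y * Complex.exp (I * (y : ℂ) * (t : ℂ))) :
    ∫ t : ℝ, (∫ y : ℝ, f y * Complex.exp (I * (y : ℂ) * (t : ℂ))) *
      (starRingEnd ℂ) (∫ y : ℝ, h y * Complex.exp (I * (y : ℂ) * (t : ℂ))) =
      2 * (Real.pi : ℂ) * ∫ y : ℝ, f y * (starRingEnd ℂ) (h y) := by
  have hpi : (0 : ℝ) < 2 * Real.pi := by positivity
  have hHF : Integrable (𝓕 h) := by
    have h1 := hH.comp_mul_left' (R := -(2 * Real.pi)) (by linarith [hpi] : -(2 * Real.pi) ≠ 0)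
    refine h1.congr (Filter.Eventually.of_forall fun w => ?_)
    exact (planch_key h w).symm
  have hinv : 𝓕⁻ (𝓕 h) = h := hh.fourierInv_fourier_eq hhi hHF
  have hcF : Integrable (fun w : ℝ => (starRingEnd ℂ) (𝓕 h w)) := by
    have h2 := Complex.conjCLE.toContinuousLinearMap.integrable_comp hHF
    simpa using h2
  have hconj : ∀ y : ℝ, 𝓕 (fun w : ℝ => (starRingEnd ℂ) (𝓕 h w)) y = (starRingEnd ℂ) (h y) := by
    intro y
    conv_rhs => rw [← hinv]
    rw [Real.fourier_real_eq_integral_exp_smul, Real.fourierInv_eq', ← integral_conj]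
    refine integral_congr_ae (Filter.Eventually.of_forall fun w => ?_)
    simp only [smul_eq_mul, map_mul]
    congr 1
    rw [← Complex.exp_conj]
    congr 1
    rw [map_mul, Complex.conj_I, Complex.conj_ofReal]
    simp only [RCLike.inner_apply, conj_trivial]
    push_cast
    ring
  have hcv := MeasureTheory.Measure.integral_comp_mul_left
    (fun t : ℝ => (∫ y : ℝ, f y * Complex.exp (I * (y : ℂ) * (t : ℂ))) *
      (starRingEnd ℂ) (∫ y : ℝ, h y * Complex.exp (I * (y : ℂ) * (t : ℂ)))) (-(2 * Real.pi))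
  have hl : ∫ w : ℝ, (∫ y : ℝ, f y * Complex.exp (I * (y : ℂ) * (((-(2 * Real.pi)) * w : ℝ) : ℂ))) *
      (starRingEnd ℂ) (∫ y : ℝ, h y * Complex.exp (I * (y : ℂ) * (((-(2 * Real.pi)) * w : ℝ) : ℂ))) =
      ∫ y : ℝ, f y * (starRingEnd ℂ) (h y) := by
    simp_rw [← planch_key]
    rw [planch_flip hfi hcF]
    simp_rw [hconj]
  rw [hl] at hcv
  rw [hcv, abs_inv, abs_neg, abs_of_pos hpi, Complex.real_smul]
  push_cast
  have hne : (Real.pi : ℂ) ≠ 0 := by exact_mod_cast Real.pi_ne_zero
  field_simp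

end Pool.Agent.H28.ZT
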