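import Pool.Agent.H28.ZT.SSB
import Pool.Agent.H28.ZT.LocA
import Pool.Agent.H28.ZT.LocC
import Pool.Agent.H28.ZT.Link

/-!
# SBD (chapter E): conclusion

LINK, SSB with `κ = Fin 3 ⊕ Fin 3`, LOCA, LOCC (take the larger constant `K0`, `K`, `C`; `Blk.mono`).  `(Finset.range J).biUnion P = PZ kap T` (`Blk.un`), so `log p ≤ kap log T ≤ (log T)/8`
for all its elements; `|Im x_k| ≤ 1/log T`.
-/

set_option autoImplicit false

namespace Pool.Agent.H28.ZT

open Complex

theorem S_bound : ∃ K C : ℝ, 0 < K ∧ 0 < C ∧ ∀ (kap T : ℝ) (J : ℕ) (P : ℕ → Finset ℕ) (V : ℕ → ℕ),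
    0 < kap → kap ≤ 1 / 8 → Real.exp 40 ≤ T → Blk K kap T J P V →
    ∀ (w w' y : ℂ) (v : Fin 3 → ℝ), |w.im| ≤ 1 / Real.log T → |w'.im| ≤ 1 / Real.log T →
      |y.im| ≤ 8 / Real.log T →
      ‖SA w w' (s3 (AA J P V)) (a3 v) c3 y‖ ≤
        C * Real.exp (∑ p ∈ PZ kap T, (lamA (xx w w' v) y p).re / (p : ℝ)) ∧
      ‖SC w w' (s3 (AA J P V)) (a3 v) c3 y‖ ≤
        C * Real.exp (∑ p ∈ PZ kap T, (lamC (xx w w' v) y p).re / (p : ℝ)) := by
  obtain ⟨KA, hKA, hA⟩ := loc_A
  obtain ⟨KC, hKC, hC⟩ := loc_C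
  have eA : KA ≤ max KA KC := le_max_left _ _
  have eC : KC ≤ max KA KC := le_max_right _ _
  set K0 : ℝ := max KA KC with hK0
  obtain ⟨K, C, hK, hC0, hs⟩ := ss_bound (Fin 3 ⊕ Fin 3) K0 (by linarith)
  refine ⟨K, C, hK, hC0, fun kap T J P V h0 h8 hT hB w w' y v hw hw' hy => ?_⟩
  have hTpos : 0 < T := (Real.exp_pos _).trans_le hT
  have hL40 : 40 ≤ Real.log T := by
    rw [Real.le_log_iff_exp_le hTpos]
    exact hT
  have hLpos : 0 < Real.log T := by linarith
  have hUP : (Finset.range J).biUnion P = PZ kap T := hB.un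
  have hmem : ∀ p ∈ (Finset.range J).biUnion P, p.Prime ∧ Real.log (p : ℝ) ≤ Real.log T / 8 := by
    intro p hp
    rw [hB.un] at hp
    have h1 := Finset.mem_filter.1 hp
    refine ⟨h1.2, ?_⟩
    have h2 := (Finset.mem_Icc.1 h1.1).2
    have h3 : (p : ℝ) ≤ Real.exp (kap * Real.log T) := (Nat.le_floor_iff (Real.exp_pos _).le).1 h2
    have h4 : (0 : ℝ) < p := by exact_mod_cast h1.2.pos
    have h5 := (Real.log_le_iff_le_exp h4).2 h3
    nlinarith
  have hAU : ∀ S ∈ AA J P V, S ⊆ (Finset.range J).biUnion P := by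
    intro S hS
    exact Finset.mem_powerset.1 (Finset.mem_filter.1 hS).1
  have hcond : ∀ p ∈ (Finset.range J).biUnion P, (∀ k, |(xx w w' v k).im| * Real.log (p : ℝ) ≤ 1) ∧
      |y.im| * Real.log (p : ℝ) ≤ 1 := by
    intro p hp
    obtain ⟨h1, h4⟩ := hmem p hp
    have h3 : 0 ≤ Real.log (p : ℝ) := Real.log_nonneg (by exact_mod_cast h1.one_lt.le)
    have h6 : ∀ x : ℝ, |x| ≤ 1 / Real.log T → |x| * Real.log (p : ℝ) ≤ 1 := by
      intro x hx
      calc |x| * Real.log (p : ℝ) ≤ (1 / Real.log T) * (Real.log T / 8) :=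
            mul_le_mul hx h4 h3 (by positivity)
        _ ≤ 1 := by
            rw [one_div_mul_eq_div, div_right_comm, div_self hLpos.ne']
            norm_num
    constructor
    · intro k
      rcases k with k | k
      · have e : (xx w w' v (Sum.inl k)).im = w.im := by simp [xx]
        rw [e]
        exact h6 _ hw
      · have e : (xx w w' v (Sum.inr k)).im = w'.im := by simp [xx]
        rw [e]
        exact h6 _ hw'
    · calc |y.im| * Real.log (p : ℝ) ≤ (8 / Real.log T) * (Real.log T / 8) :=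
            mul_le_mul hy h4 h3 (by positivity)
        _ = 1 := by field_simp
  constructor
  · rw [SA_eq (AA J P V) _ hAU (fun p hp => (hmem p hp).1)]
    have h := hs kap T J P V hB (locA (xx w w' v) y) (lamA (xx w w' v) y) (fun p hp => by
      obtain ⟨h1, h2⟩ := hcond p hp
      have hpp := (hmem p hp).1
      have hp0 : (0 : ℝ) < p := by exact_mod_cast hpp.pos
      obtain ⟨q1, q2, q3, q4⟩ := hA (xx w w' v) y p hpp h1 h2
      refine ⟨q1, fun u hu => (q2 u hu).trans ?_, q3.trans eA, q4.trans ?_⟩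
      · exact div_le_div_of_nonneg_right eA hp0.le
      · exact div_le_div_of_nonneg_right eA (by positivity))
    rw [hUP] at h ⊢
    exact h
  · rw [SC_eq (AA J P V) _ hAU (fun p hp => (hmem p hp).1)]
    have h := hs kap T J P V hB (locC (xx w w' v) y) (lamC (xx w w' v) y) (fun p hp => by
      obtain ⟨h1, h2⟩ := hcond p hp
      have hpp := (hmem p hp).1
      have hp0 : (0 : ℝ) < p := by exact_mod_cast hpp.pos
      obtain ⟨q1, q2, q3, q4⟩ := hC (xx w w' v) y p hpp h1 h2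
      refine ⟨q1, fun u hu => (q2 u hu).trans ?_, q3.trans eC, q4.trans ?_⟩
      · exact div_le_div_of_nonneg_right eC hp0.le
      · exact div_le_div_of_nonneg_right eC (by positivity))
    rw [hUP] at h ⊢
    exact h

end Pool.Agent.H28.ZT
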