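import Pool.Agent.H28.ZT.Blkf
import Pool.Agent.H28.ZT.Trunc

/-!
# SSB (chapter E): bound for the truncated Euler product

`m = |Finset κ| = 2^|κ|`.  For one block `Q = P j`: `F = ∏_{p ∈ Q} (1 + ∑_{u ≠ ∅} φ p u)`; `‖1 + a‖ ≤ exp (Re a + ‖a‖²/2)`
(`|1+a|² = 1 + 2 Re a + |a|² ≤ exp (2 Re a + |a|²)`), `a = lam p/p + O(K0/p²)`, `‖a‖ ≤ m K0/p`:
`‖F‖ ≤ exp (∑_{p ∈ Q} (Re (lam p)/p + C₁/p²))`.  Error of truncation (FULL):
`E ≤ e^(-(V+1)) ∏ (1 + ∑_{u≠∅} e^|u| ‖φ p u‖) ≤ e^(-(V+1)) exp (K₁ ∑_{p ∈ Q} 1/p)`, and since `‖lam p‖ ≤ K0`,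
`E ≤ e^(-(V+1)) exp ((K₁ + K0) ∑ 1/p) exp (∑ Re (lam p)/p) ≤ e j · exp (∑ Re (lam p)/p)` with `K = K₁ + K0`.
So `‖SS (block j)‖ ≤ (1 + e j) exp (∑_{p ∈ P j} (Re (lam p)/p + C₁/p²))`; multiply over `j` (BLKF), `∏ (1 + e j) ≤ exp (∑ e j)`,
`∑_p 1/p² ≤ 2` (the elements of the blocks are distinct primes, `Blk.un`, `Blk.disj`).
-/

set_option autoImplicit false

namespace Pool.Agent.H28.ZT

open Complex

private theorem ssb_norm (a : ℂ) : ‖1 + a‖ ≤ Real.exp (a.re + ‖a‖ ^ 2 / 2) := by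
  have h1 : ‖1 + a‖ ^ 2 = 1 + 2 * a.re + ‖a‖ ^ 2 := by
    rw [← normSq_eq_norm_sq, ← normSq_eq_norm_sq, normSq_apply, normSq_apply, add_re, add_im,
      one_re, one_im]
    ring
  have h2 : ‖1 + a‖ ^ 2 ≤ Real.exp (a.re + ‖a‖ ^ 2 / 2) ^ 2 := by
    rw [h1, ← Real.exp_nat_mul]
    have := Real.add_one_le_exp (((2 : ℕ) : ℝ) * (a.re + ‖a‖ ^ 2 / 2))
    push_cast at this ⊢
    linarith
  exact (pow_le_pow_iff_left₀ (norm_nonneg _) (Real.exp_pos _).le (by norm_num)).1 h2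

private theorem ssb_sq (Q : Finset ℕ) (hQ : ∀ p ∈ Q, p.Prime) : ∑ p ∈ Q, 1 / (p : ℝ) ^ 2 ≤ 2 := by
  have h1 : Summable (fun n : ℕ => 1 / (n : ℝ) ^ 2) :=
    Real.summable_one_div_nat_pow.2 (by norm_num)
  have h2 := h1.sum_le_tsum Q (fun n _ => by positivity)
  have h3 : ∑' n : ℕ, 1 / (n : ℝ) ^ 2 = Real.pi ^ 2 / 6 := hasSum_zeta_two.tsum_eq
  rw [h3] at h2
  have hpi := Real.pi_lt_d2
  have hpi0 := Real.pi_pos
  have : Real.pi ^ 2 / 6 ≤ 2 := by nlinarith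
  linarith

/-- one block -/
private theorem ssb_one (κ : Type) [Fintype κ] [DecidableEq κ] (K0 : ℝ) (hK0 : 0 ≤ K0) (M : ℝ)
    (hM : (Fintype.card (Finset κ) : ℝ) ≤ M) (hM1 : 1 ≤ M) (Q : Finset ℕ) (hQ : ∀ p ∈ Q, p.Prime) (V : ℕ)
    (φ : ℕ → Finset κ → ℂ) (lam : ℕ → ℂ) (h : ∀ p ∈ Q, φ p ∅ = 1 ∧
        (∀ u : Finset κ, u ≠ ∅ → ‖φ p u‖ ≤ K0 / (p : ℝ)) ∧ ‖lam p‖ ≤ K0 ∧
        ‖(∑ u : Finset κ, φ p u) - 1 - lam p / (p : ℂ)‖ ≤ K0 / (p : ℝ) ^ 2) (e : ℝ)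
    (he : Real.exp (-((V : ℝ) + 1)) * Real.exp (((M * Real.exp M + 1) * K0 + 1) *
      ∑ p ∈ Q, 1 / (p : ℝ)) ≤ e) :
    ‖SS (Q.powerset.filter (fun S => S.card ≤ V)) Q φ‖ ≤
      (1 + e) * Real.exp (∑ p ∈ Q, ((lam p).re / (p : ℝ) + (K0 + M ^ 2 * K0 ^ 2) / (p : ℝ) ^ 2)) := by
  have hM0 : 0 ≤ M := by linarith
  have ht := SS_trunc Q V φ
  -- the full product
  have hF : ‖∏ p ∈ Q, ∑ u : Finset κ, φ p u‖ ≤
      Real.exp (∑ p ∈ Q, ((lam p).re / (p : ℝ) + (K0 + M ^ 2 * K0 ^ 2) / (p : ℝ) ^ 2)) := by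
    rw [norm_prod, Real.exp_sum]
    refine Finset.prod_le_prod (fun p _ => norm_nonneg _) fun p hp => ?_
    obtain ⟨h1, h2, h3, h4⟩ := h p hp
    have hp0 : (0 : ℝ) < p := by exact_mod_cast (hQ p hp).pos
    have hsum : (∑ u : Finset κ, φ p u) = 1 + ∑ u ∈ Finset.univ.erase (∅ : Finset κ), φ p u := by
      rw [← Finset.add_sum_erase Finset.univ _ (Finset.mem_univ (∅ : Finset κ)), h1]
    have ha : ‖∑ u ∈ Finset.univ.erase (∅ : Finset κ), φ p u‖ ≤ M * (K0 / p) := by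
      refine (norm_sum_le _ _).trans ?_
      calc ∑ u ∈ Finset.univ.erase (∅ : Finset κ), ‖φ p u‖
          ≤ ∑ u ∈ Finset.univ.erase (∅ : Finset κ), K0 / (p : ℝ) :=
            Finset.sum_le_sum fun u hu => h2 u (Finset.ne_of_mem_erase hu)
        _ = ((Finset.univ.erase (∅ : Finset κ)).card : ℝ) * (K0 / p) := by
            rw [Finset.sum_const, nsmul_eq_mul]
        _ ≤ M * (K0 / p) := by
            have : ((Finset.univ.erase (∅ : Finset κ)).card : ℝ) ≤ Fintype.card (Finset κ) := by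
              exact_mod_cast (Finset.card_erase_le).trans (le_of_eq Finset.card_univ)
            have h5 : 0 ≤ K0 / (p : ℝ) := by positivity
            exact mul_le_mul_of_nonneg_right (this.trans hM) h5
    obtain ⟨a, hadef⟩ : ∃ a : ℂ, a = ∑ u ∈ Finset.univ.erase (∅ : Finset κ), φ p u := ⟨_, rfl⟩
    rw [← hadef] at hsum ha
    rw [hsum] at h4 ⊢
    refine (ssb_norm a).trans ?_
    rw [Real.exp_le_exp]
    have h5 : (1 + a - 1 - lam p / (p : ℂ)) = a - lam p / (p : ℂ) := by ring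
    rw [h5] at h4
    have h6 : a.re - (lam p).re / p ≤ K0 / (p : ℝ) ^ 2 := by
      have h7 := (Complex.re_le_norm (a - lam p / (p : ℂ))).trans h4
      have h8 : (a - lam p / (p : ℂ)).re = a.re - (lam p).re / p := by
        rw [sub_re]
        congr 1
        have : ((p : ℕ) : ℂ) = (((p : ℕ) : ℝ) : ℂ) := by simp
        rw [this, div_ofReal_re]
      rw [h8] at h7
      exact h7
    have h7 : ‖a‖ ^ 2 ≤ (M * (K0 / p)) ^ 2 := pow_le_pow_left₀ (norm_nonneg _) ha 2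
    have h8 : (M * (K0 / p)) ^ 2 = M ^ 2 * K0 ^ 2 / (p : ℝ) ^ 2 := by
      field_simp
    have h9 : (0 : ℝ) ≤ M ^ 2 * K0 ^ 2 / (p : ℝ) ^ 2 := by positivity
    rw [h8] at h7
    have h10 : (K0 + M ^ 2 * K0 ^ 2) / (p : ℝ) ^ 2 = K0 / (p : ℝ) ^ 2 + M ^ 2 * K0 ^ 2 / (p : ℝ) ^ 2 := by
      rw [add_div]
    rw [h10]
    linarith
  -- the error
  have hE : Real.exp (-((V : ℝ) + 1)) * ∏ p ∈ Q, ∑ u : Finset κ, Real.exp (u.card : ℝ) * ‖φ p u‖ ≤
      e * Real.exp (∑ p ∈ Q, ((lam p).re / (p : ℝ) + (K0 + M ^ 2 * K0 ^ 2) / (p : ℝ) ^ 2)) := by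
    have h1 : ∏ p ∈ Q, ∑ u : Finset κ, Real.exp (u.card : ℝ) * ‖φ p u‖ ≤
        Real.exp (M * Real.exp M * K0 * ∑ p ∈ Q, 1 / (p : ℝ)) := by
      rw [Finset.mul_sum, Real.exp_sum]
      refine Finset.prod_le_prod (fun p _ => Finset.sum_nonneg fun u _ => by positivity) fun p hp => ?_
      obtain ⟨h1, h2, h3, h4⟩ := h p hp
      have hp0 : (0 : ℝ) < p := by exact_mod_cast (hQ p hp).pos
      rw [← Finset.add_sum_erase Finset.univ _ (Finset.mem_univ (∅ : Finset κ)), h1]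
      have h5 : ∑ u ∈ Finset.univ.erase (∅ : Finset κ), Real.exp (u.card : ℝ) * ‖φ p u‖ ≤
          M * (Real.exp M * (K0 / p)) := by
        calc ∑ u ∈ Finset.univ.erase (∅ : Finset κ), Real.exp (u.card : ℝ) * ‖φ p u‖
            ≤ ∑ u ∈ Finset.univ.erase (∅ : Finset κ), Real.exp M * (K0 / (p : ℝ)) := by
              refine Finset.sum_le_sum fun u hu => ?_
              have h6 : (u.card : ℝ) ≤ M := by
                have h7 : u.card ≤ Fintype.card κ := Finset.card_le_univ u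
                have h8 : Fintype.card κ ≤ Fintype.card (Finset κ) := by
                  rw [Fintype.card_finset]
                  exact (Nat.lt_two_pow_self).le
                exact le_trans (by exact_mod_cast h7.trans h8) hM
              exact mul_le_mul (Real.exp_le_exp.2 h6) (h2 u (Finset.ne_of_mem_erase hu))
                (norm_nonneg _) (Real.exp_pos _).le
          _ = ((Finset.univ.erase (∅ : Finset κ)).card : ℝ) * (Real.exp M * (K0 / p)) := by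
              rw [Finset.sum_const, nsmul_eq_mul]
          _ ≤ M * (Real.exp M * (K0 / p)) := by
              have : ((Finset.univ.erase (∅ : Finset κ)).card : ℝ) ≤ Fintype.card (Finset κ) := by
                exact_mod_cast (Finset.card_erase_le).trans (le_of_eq Finset.card_univ)
              have h5 : 0 ≤ Real.exp M * (K0 / (p : ℝ)) := by positivity
              exact mul_le_mul_of_nonneg_right (this.trans hM) h5
      have h6 := Real.add_one_le_exp (M * Real.exp M * K0 * (1 / (p : ℝ)))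
      have h7 : M * (Real.exp M * (K0 / p)) = M * Real.exp M * K0 * (1 / (p : ℝ)) := by ring
      rw [h7] at h5
      simp only [Finset.card_empty, Nat.cast_zero, Real.exp_zero, norm_one, mul_one]
      linarith
    have h2 : Real.exp (-(K0 * ∑ p ∈ Q, 1 / (p : ℝ))) ≤
        Real.exp (∑ p ∈ Q, ((lam p).re / (p : ℝ) + (K0 + M ^ 2 * K0 ^ 2) / (p : ℝ) ^ 2)) := by
      rw [Real.exp_le_exp, Finset.mul_sum, ← Finset.sum_neg_distrib]
      refine Finset.sum_le_sum fun p hp => ?_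
      obtain ⟨h1, h2, h3, h4⟩ := h p hp
      have hp0 : (0 : ℝ) < p := by exact_mod_cast (hQ p hp).pos
      have h5 : -K0 ≤ (lam p).re := by
        have := (abs_le.1 ((Complex.abs_re_le_norm (lam p)).trans h3)).1
        exact this
      have h6 : -(K0 * (1 / (p : ℝ))) ≤ (lam p).re / p := by
        rw [mul_one_div, ← neg_div]
        gcongr
      have h7 : (0 : ℝ) ≤ (K0 + M ^ 2 * K0 ^ 2) / (p : ℝ) ^ 2 := by positivity
      linarith
    have h3 : (0 : ℝ) ≤ ∑ p ∈ Q, 1 / (p : ℝ) := Finset.sum_nonneg fun p _ => by positivity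
    have h4 : Real.exp (M * Real.exp M * K0 * ∑ p ∈ Q, 1 / (p : ℝ)) ≤
        Real.exp (((M * Real.exp M + 1) * K0 + 1) * ∑ p ∈ Q, 1 / (p : ℝ)) *
        Real.exp (-(K0 * ∑ p ∈ Q, 1 / (p : ℝ))) := by
      rw [← Real.exp_add, Real.exp_le_exp]
      nlinarith
    have he0 : 0 ≤ e := le_trans (by positivity) he
    calc Real.exp (-((V : ℝ) + 1)) * ∏ p ∈ Q, ∑ u : Finset κ, Real.exp (u.card : ℝ) * ‖φ p u‖
        ≤ Real.exp (-((V : ℝ) + 1)) *
          (Real.exp (((M * Real.exp M + 1) * K0 + 1) * ∑ p ∈ Q, 1 / (p : ℝ)) *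
          Real.exp (-(K0 * ∑ p ∈ Q, 1 / (p : ℝ)))) :=
          mul_le_mul_of_nonneg_left (h1.trans h4) (Real.exp_pos _).le
      _ = (Real.exp (-((V : ℝ) + 1)) * Real.exp (((M * Real.exp M + 1) * K0 + 1) *
          ∑ p ∈ Q, 1 / (p : ℝ))) * Real.exp (-(K0 * ∑ p ∈ Q, 1 / (p : ℝ))) := by ring
      _ ≤ _ := mul_le_mul he h2 (Real.exp_pos _).le he0
  have h5 : SS (Q.powerset.filter (fun S => S.card ≤ V)) Q φ =
      (SS (Q.powerset.filter (fun S => S.card ≤ V)) Q φ - ∏ p ∈ Q, ∑ u : Finset κ, φ p u) +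
        ∏ p ∈ Q, ∑ u : Finset κ, φ p u := by ring
  rw [h5]
  refine (norm_add_le _ _).trans ?_
  calc _ ≤ e * Real.exp (∑ p ∈ Q, ((lam p).re / (p : ℝ) + (K0 + M ^ 2 * K0 ^ 2) / (p : ℝ) ^ 2)) +
        Real.exp (∑ p ∈ Q, ((lam p).re / (p : ℝ) + (K0 + M ^ 2 * K0 ^ 2) / (p : ℝ) ^ 2)) :=
        add_le_add (ht.trans hE) hF
    _ = _ := by ring

theorem ss_bound (κ : Type) [Fintype κ] [DecidableEq κ] (K0 : ℝ) (hK0 : 0 ≤ K0) :
    ∃ K C : ℝ, 0 < K ∧ 0 < C ∧ ∀ (kap T : ℝ) (J : ℕ) (P : ℕ → Finset ℕ) (V : ℕ → ℕ), Blk K kap T J P V →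
      ∀ (φ : ℕ → Finset κ → ℂ) (lam : ℕ → ℂ), (∀ p ∈ (Finset.range J).biUnion P, φ p ∅ = 1 ∧
        (∀ u : Finset κ, u ≠ ∅ → ‖φ p u‖ ≤ K0 / (p : ℝ)) ∧ ‖lam p‖ ≤ K0 ∧
        ‖(∑ u : Finset κ, φ p u) - 1 - lam p / (p : ℂ)‖ ≤ K0 / (p : ℝ) ^ 2) →
      ‖SS (AA J P V) ((Finset.range J).biUnion P) φ‖ ≤
        C * Real.exp (∑ p ∈ (Finset.range J).biUnion P, (lam p).re / (p : ℝ)) := by
  set M : ℝ := (Fintype.card (Finset κ) : ℝ) + 1 with hM
  have hM1 : 1 ≤ M := by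
    have : (0 : ℝ) ≤ (Fintype.card (Finset κ) : ℝ) := Nat.cast_nonneg _
    linarith
  set C1 : ℝ := K0 + M ^ 2 * K0 ^ 2 with hC1
  have hC10 : 0 ≤ C1 := by positivity
  refine ⟨(M * Real.exp M + 1) * K0 + 1, Real.exp (1 / 4 + C1 * 2), by positivity,
    Real.exp_pos _, fun kap T J P V hB φ lam h => ?_⟩
  obtain ⟨e, he1, he2⟩ := hB.eps
  have hprime : ∀ p ∈ (Finset.range J).biUnion P, p.Prime := by
    intro p hp
    rw [hB.un, Finset.mem_filter] at hp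
    exact hp.2
  have hmem : ∀ j ∈ Finset.range J, ∀ p ∈ P j, p ∈ (Finset.range J).biUnion P := fun j hj p hp =>
    Finset.mem_biUnion.2 ⟨j, hj, hp⟩
  rw [SS_blk J P V hB.disj, norm_prod]
  have he0 : ∀ j ∈ Finset.range J, 0 ≤ e j := fun j hj =>
    le_trans (by positivity) (he1 j (Finset.mem_range.1 hj))
  calc ∏ j ∈ Finset.range J, ‖SS ((P j).powerset.filter (fun S => S.card ≤ V j)) (P j) φ‖
      ≤ ∏ j ∈ Finset.range J, (1 + e j) *
          Real.exp (∑ p ∈ P j, ((lam p).re / (p : ℝ) + C1 / (p : ℝ) ^ 2)) := by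
        refine Finset.prod_le_prod (fun j _ => norm_nonneg _) fun j hj => ?_
        exact ssb_one κ K0 hK0 M (by linarith) hM1 (P j) (fun p hp => hprime p (hmem j hj p hp)) (V j)
          φ lam (fun p hp => h p (hmem j hj p hp)) (e j) (he1 j (Finset.mem_range.1 hj))
    _ ≤ ∏ j ∈ Finset.range J, Real.exp (e j) *
          Real.exp (∑ p ∈ P j, ((lam p).re / (p : ℝ) + C1 / (p : ℝ) ^ 2)) := by
        refine Finset.prod_le_prod (fun j hj => ?_) fun j hj => ?_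
        · have := he0 j hj
          positivity
        · have := Real.add_one_le_exp (e j)
          gcongr
          linarith
    _ = Real.exp (∑ j ∈ Finset.range J, e j) *
          Real.exp (∑ p ∈ (Finset.range J).biUnion P, ((lam p).re / (p : ℝ) + C1 / (p : ℝ) ^ 2)) := by
        rw [Finset.prod_mul_distrib, ← Real.exp_sum, ← Real.exp_sum, Finset.sum_biUnion]
        intro i hi j hj hij
        exact hB.disj i (Finset.mem_range.1 hi) j (Finset.mem_range.1 hj) hij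
    _ ≤ Real.exp (1 / 4 + C1 * 2) *
          Real.exp (∑ p ∈ (Finset.range J).biUnion P, (lam p).re / (p : ℝ)) := by
        rw [← Real.exp_add, ← Real.exp_add, Real.exp_le_exp, Finset.sum_add_distrib]
        have h1 := ssb_sq _ hprime
        have h2 : ∑ p ∈ (Finset.range J).biUnion P, C1 / (p : ℝ) ^ 2 ≤ C1 * 2 := by
          calc ∑ p ∈ (Finset.range J).biUnion P, C1 / (p : ℝ) ^ 2 =
                C1 * ∑ p ∈ (Finset.range J).biUnion P, 1 / (p : ℝ) ^ 2 := by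
                rw [Finset.mul_sum]
                refine Finset.sum_congr rfl fun p _ => ?_
                ring
            _ ≤ C1 * 2 := mul_le_mul_of_nonneg_left h1 hC10
        linarith

theorem Blk.mono {K K' kap T : ℝ} {J : ℕ} {P : ℕ → Finset ℕ} {V : ℕ → ℕ} (h : K ≤ K')
    (hB : Blk K' kap T J P V) : Blk K kap T J P V := by
  refine ⟨hB.disj, hB.un, ?_, hB.len⟩
  obtain ⟨e, h1, h2⟩ := hB.eps
  refine ⟨e, fun j hj => le_trans ?_ (h1 j hj), h2⟩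
  have h3 : 0 ≤ ∑ p ∈ P j, 1 / (p : ℝ) := Finset.sum_nonneg fun p _ => by positivity
  gcongr

end Pool.Agent.H28.ZT
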