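import Mathlib

/-!
# SOBO (chapter Z): two elementary lemmas

`sobo`: `g(x)² = g(y)² + ∫_y^x 2 g g' ≤ g(y)² + ∫_a^b (L g² + g'²/L)`; average over `y ∈ [a, b]`, `1/(b-a) ≤ L`.
`crossing`: suppose `u < u'` (else reflect `t -> -t`, or exchange the roles with `-f`).  `p` = last point of `[u, u']` with
`f ≤ -η`, `q` = first point of `[p, u']` with `f ≥ η`; on `(p, q)` `|f| < η`, `f p = -η`, `f q = η` and
`2η = f q - f p ≤ s (q - p)` (mean value inequality).
-/

set_option autoImplicit false

namespace Pool.Agent.H28.ZT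

open MeasureTheory

theorem sobo (g : ℝ → ℝ) (hg : ContDiff ℝ 1 g) (a b L : ℝ) (hL : 0 < L) (hab : 1 / L ≤ b - a) (x : ℝ)
    (h1 : a ≤ x) (h2 : x ≤ b) :
    g x ^ 2 ≤ 2 * L * (∫ y in a..b, g y ^ 2) + 1 / L * ∫ y in a..b, deriv g y ^ 2 := by
  have hd : Differentiable ℝ g := hg.differentiable (by norm_num)
  have hc : Continuous g := hg.continuous
  have hc' : Continuous (deriv g) := hg.continuous_deriv (by norm_num)
  have hba : 0 < b - a := lt_of_lt_of_le (by positivity) hab
  have hle : a ≤ b := by linarith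
  set φ : ℝ → ℝ := fun y => L * g y ^ 2 + 1 / L * deriv g y ^ 2 with hφ
  have hφc : Continuous φ := ((hc.pow 2).const_mul L).add ((hc'.pow 2).const_mul _)
  have hφ0 : ∀ y, 0 ≤ φ y := fun y => by
    show 0 ≤ L * g y ^ 2 + 1 / L * deriv g y ^ 2
    positivity
  have hpt : ∀ y : ℝ, |2 * g y * deriv g y| ≤ φ y := by
    intro y
    show |2 * g y * deriv g y| ≤ L * g y ^ 2 + 1 / L * deriv g y ^ 2
    have e1 : 0 ≤ (L * g y - deriv g y) ^ 2 / L := by positivity
    have e2 : 0 ≤ (L * g y + deriv g y) ^ 2 / L := by positivity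
    have e3 : (L * g y - deriv g y) ^ 2 / L = L * g y ^ 2 + 1 / L * deriv g y ^ 2 - 2 * g y * deriv g y := by
      field_simp
      ring
    have e4 : (L * g y + deriv g y) ^ 2 / L = L * g y ^ 2 + 1 / L * deriv g y ^ 2 + 2 * g y * deriv g y := by
      field_simp
      ring
    rw [abs_le]
    constructor <;> linarith
  have hK : ∀ y ∈ Set.Icc a b, g x ^ 2 ≤ g y ^ 2 + ∫ z in a..b, φ z := by
    intro y hy
    have e1 : ∫ z in y..x, 2 * g z * deriv g z = g x ^ 2 - g y ^ 2 := by
      have := intervalIntegral.integral_eq_sub_of_hasDerivAt (a := y) (b := x) (f := fun z => g z ^ 2)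
        (f' := fun z => 2 * g z * deriv g z) (fun z _ => by
          have h3 : HasDerivAt (fun z => g z ^ 2) (2 * g z * deriv g z) z := by
            have h4 := ((hd z).hasDerivAt).fun_pow 2
            simpa using h4
          exact h3)
        (((hc.const_mul 2).mul hc').intervalIntegrable _ _)
      exact this
    have e2 : |∫ z in y..x, 2 * g z * deriv g z| ≤ |∫ z in y..x, φ z| := by
      have h3 := intervalIntegral.norm_integral_le_abs_integral_norm (μ := volume) (a := y) (b := x)
        (f := fun z => 2 * g z * deriv g z)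
      rw [Real.norm_eq_abs] at h3
      refine h3.trans ?_
      rcases le_total y x with hyx | hyx
      · rw [abs_of_nonneg (intervalIntegral.integral_nonneg hyx fun z _ => norm_nonneg _),
          abs_of_nonneg (intervalIntegral.integral_nonneg hyx fun z _ => hφ0 z)]
        exact intervalIntegral.integral_mono_on hyx
          (((hc.const_mul 2).mul hc').norm.intervalIntegrable _ _) (hφc.intervalIntegrable _ _)
          (fun z _ => hpt z)
      · rw [intervalIntegral.integral_symm x y, intervalIntegral.integral_symm x y, abs_neg, abs_neg,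
          abs_of_nonneg (intervalIntegral.integral_nonneg hyx fun z _ => norm_nonneg _),
          abs_of_nonneg (intervalIntegral.integral_nonneg hyx fun z _ => hφ0 z)]
        exact intervalIntegral.integral_mono_on hyx
          (((hc.const_mul 2).mul hc').norm.intervalIntegrable _ _) (hφc.intervalIntegrable _ _)
          (fun z _ => hpt z)
    have e3 : |∫ z in y..x, φ z| ≤ |∫ z in a..b, φ z| := by
      apply intervalIntegral.abs_integral_mono_interval
      · rw [Set.uIoc_of_le hle]
        rcases le_total y x with hyx | hyx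
        · rw [Set.uIoc_of_le hyx]
          exact Set.Ioc_subset_Ioc hy.1 h2
        · rw [Set.uIoc_of_ge hyx]
          exact Set.Ioc_subset_Ioc h1 hy.2
      · exact Filter.Eventually.of_forall fun z => hφ0 z
      · exact hφc.intervalIntegrable _ _
    rw [abs_of_nonneg (intervalIntegral.integral_nonneg hle fun z _ => hφ0 z)] at e3
    rw [e1] at e2
    have := le_abs_self (g x ^ 2 - g y ^ 2)
    linarith
  have hint : ∫ _y in a..b, g x ^ 2 ≤ ∫ y in a..b, (g y ^ 2 + ∫ z in a..b, φ z) :=
    intervalIntegral.integral_mono_on hle intervalIntegrable_const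
      (((hc.pow 2).add continuous_const).intervalIntegrable _ _) hK
  have i1 : IntervalIntegrable (fun y => g y ^ 2) volume a b := (hc.pow 2).intervalIntegrable _ _
  have i2 : IntervalIntegrable (fun y => deriv g y ^ 2) volume a b := (hc'.pow 2).intervalIntegrable _ _
  rw [intervalIntegral.integral_const, intervalIntegral.integral_add i1
    intervalIntegrable_const, intervalIntegral.integral_const, smul_eq_mul, smul_eq_mul] at hint
  have hφi : ∫ z in a..b, φ z = L * (∫ y in a..b, g y ^ 2) + 1 / L * ∫ y in a..b, deriv g y ^ 2 := by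
    rw [hφ, intervalIntegral.integral_add (i1.const_mul L) (i2.const_mul _), intervalIntegral.integral_const_mul,
      intervalIntegral.integral_const_mul]
  rw [hφi] at hint
  set A : ℝ := ∫ y in a..b, g y ^ 2 with hA
  set B : ℝ := ∫ y in a..b, deriv g y ^ 2 with hB
  have hA0 : 0 ≤ A := intervalIntegral.integral_nonneg hle fun y _ => sq_nonneg _
  have hAL : A ≤ (b - a) * (L * A) := by
    have h3 : 1 ≤ (b - a) * L := by
      rw [div_le_iff₀ hL] at hab
      exact hab
    nlinarith
  have h5 : (b - a) * g x ^ 2 ≤ (b - a) * (2 * L * A + 1 / L * B) := by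
    calc (b - a) * g x ^ 2 ≤ A + (b - a) * (L * A + 1 / L * B) := hint
      _ ≤ (b - a) * (L * A) + (b - a) * (L * A + 1 / L * B) := by linarith
      _ = _ := by ring
  exact le_of_mul_le_mul_left h5 hba

private theorem crossing_lt (f : ℝ → ℝ) (hf : Differentiable ℝ f) (a b s η u u' : ℝ) (hs : 0 < s) (hη : 0 < η)
    (hd : ∀ t : ℝ, a ≤ t → t ≤ b → |deriv f t| ≤ s) (hu : a ≤ u) (hu' : u' ≤ b) (huu : u < u')
    (h1 : f u ≤ -η) (h2 : η ≤ f u') :
    ENNReal.ofReal (2 * η / s) ≤ volume {t : ℝ | a ≤ t ∧ t ≤ b ∧ |f t| < η} := by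
  have hc : Continuous f := hf.continuous
  have hS1 : IsCompact {t : ℝ | t ∈ Set.Icc u u' ∧ f t ≤ -η} := by
    have : {t : ℝ | t ∈ Set.Icc u u' ∧ f t ≤ -η} = Set.Icc u u' ∩ {t | f t ≤ -η} := rfl
    rw [this]
    exact isCompact_Icc.inter_right (isClosed_le hc continuous_const)
  obtain ⟨p, hp, hpmax⟩ := hS1.exists_isGreatest ⟨u, ⟨le_rfl, huu.le⟩, h1⟩
  have hpu' : p < u' := by
    rcases hp.1.2.lt_or_eq with h | h
    · exact h
    · exfalso
      have := hp.2
      rw [h] at this
      linarith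
  have hS2 : IsCompact {t : ℝ | t ∈ Set.Icc p u' ∧ η ≤ f t} := by
    have : {t : ℝ | t ∈ Set.Icc p u' ∧ η ≤ f t} = Set.Icc p u' ∩ {t | η ≤ f t} := rfl
    rw [this]
    exact isCompact_Icc.inter_right (isClosed_le continuous_const hc)
  obtain ⟨q, hq, hqmin⟩ := hS2.exists_isLeast ⟨u', ⟨hpu'.le, le_rfl⟩, h2⟩
  have hpq : p ≤ q := hq.1.1
  have hsub : Set.Ioo p q ⊆ {t : ℝ | a ≤ t ∧ t ≤ b ∧ |f t| < η} := by
    intro t ht
    have t1 : u ≤ t := hp.1.1.trans ht.1.le
    have t2 : t ≤ u' := ht.2.le.trans hq.1.2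
    refine ⟨hu.trans t1, t2.trans hu', ?_⟩
    rw [abs_lt]
    constructor
    · by_contra hcon
      push Not at hcon
      have := hpmax ⟨⟨t1, t2⟩, hcon⟩
      linarith [ht.1]
    · by_contra hcon
      push Not at hcon
      have := hqmin ⟨⟨ht.1.le, t2⟩, hcon⟩
      linarith [ht.2]
  have hmv : f q - f p ≤ s * (q - p) := by
    have hcv := Convex.norm_image_sub_le_of_norm_deriv_le (f := f) (C := s) (s := Set.Icc a b) (x := p) (y := q)
      (fun x _ => hf x) (fun x hx => by rw [Real.norm_eq_abs]; exact hd x hx.1 hx.2) (convex_Icc a b)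
      ⟨hu.trans hp.1.1, hpu'.le.trans hu'⟩ ⟨(hu.trans hp.1.1).trans hpq, hq.1.2.trans hu'⟩
    rw [Real.norm_eq_abs, Real.norm_eq_abs, abs_of_nonneg (by linarith : 0 ≤ q - p)] at hcv
    exact (le_abs_self _).trans hcv
  have hlen : 2 * η / s ≤ q - p := by
    rw [div_le_iff₀ hs]
    have e1 := hp.2
    have e2 := hq.2
    linarith
  calc ENNReal.ofReal (2 * η / s) ≤ ENNReal.ofReal (q - p) := ENNReal.ofReal_le_ofReal hlen
    _ = volume (Set.Ioo p q) := (Real.volume_Ioo).symm
    _ ≤ _ := measure_mono hsub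

theorem crossing (f : ℝ → ℝ) (hf : Differentiable ℝ f) (a b s η u u' : ℝ) (hs : 0 < s) (hη : 0 < η)
    (hd : ∀ t : ℝ, a ≤ t → t ≤ b → |deriv f t| ≤ s) (hu : a ≤ u ∧ u ≤ b) (hu' : a ≤ u' ∧ u' ≤ b)
    (h1 : f u ≤ -η) (h2 : η ≤ f u') :
    ENNReal.ofReal (2 * η / s) ≤ volume {t : ℝ | a ≤ t ∧ t ≤ b ∧ |f t| < η} := by
  rcases lt_trichotomy u u' with h | h | h
  · exact crossing_lt f hf a b s η u u' hs hη hd hu.1 hu'.2 h h1 h2
  · exfalso
    rw [h] at h1
    linarith
  · have h3 := crossing_lt (fun t => -f t) hf.neg a b s η u' u hs hη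
      (fun t ht1 ht2 => by
        have e : deriv (fun t => -f t) t = -deriv f t := deriv.fun_neg
        rw [e, abs_neg]
        exact hd t ht1 ht2) hu'.1 hu.2 h (by linarith) (by linarith)
    simpa [abs_neg] using h3

end Pool.Agent.H28.ZT
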