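import Pool.Agent.H28.ZT.M0
import Pool.Agent.H28.ZT.M1
import Pool.Agent.H28.ZT.M2
import Pool.Agent.H28.ZT.M3
import Pool.Agent.H28.ZT.M4
import Pool.Agent.H28.ZT.EEb
import Pool.Agent.H28.ZT.BlkE

/-!
# WORLD (chapter M): everything about the mollifier, in one structure

Take `K` = maximum of the constants of M2, M3, M4 and 1, `kap = min kap0 (1/8)` from BLKE for this `K` (and `Blk.mono`), `T0` = maximum.
`C0` = maximum of all constants.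
-/

set_option autoImplicit false

namespace Pool.Agent.H28.ZT

open Complex MeasureTheory

structure Wd (C0 T : ℝ) (A : Finset (Finset ℕ)) : Prop where
  cont : Continuous (BB A)
  bd : ∀ t : ℝ, ‖BB A t‖ ≤ T ^ (1 / 1000 : ℝ)
  ee1 : (Real.log T) ^ (1 / 4 : ℝ) ≤ C0 * EE A
  ee2 : EE A ≤ C0 * (Real.log T) ^ (1 / 4 : ℝ)
  m0 : |(∫ t in (T / 2)..T, ‖BB A t‖ ^ 2) - T / 2 * EE A| ≤ C0 * T ^ (9 / 10 : ℝ)
  m1 : ∀ v : ℝ, 0 ≤ v → v ≤ 1 →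
    ‖(∫ t in (T / 2)..T, riemannZeta (1 / 2 + I * ((t + v : ℝ) : ℂ)) * BB A (t + v) ^ 2 *
      ((‖BB A t‖ ^ 2 : ℝ) : ℂ)) - ((T / 2 * EE A : ℝ) : ℂ)‖ ≤ C0 * T ^ (9 / 10 : ℝ)
  m2 : ∀ h : ℝ, 0 < h → h ≤ 1 →
    ∫ t in (T / 2)..T, (∫ v in (0 : ℝ)..h, ‖riemannZeta (1 / 2 + I * ((t + v : ℝ) : ℂ))‖ *
      ‖BB A (t + v)‖ ^ 2) ^ 2 * ‖BB A t‖ ^ 2 ≤ C0 * h ^ 2 * T * (Real.log T) ^ (1 / 4 : ℝ)
  m3i : ∀ h : ℝ, 0 < h → h ≤ 1 →
    Integrable (fun t : ℝ => (∫ v in (0 : ℝ)..h, fr (1 / T) (t + v) * ‖BB A (t + v)‖ ^ 2) ^ 2 * ‖BB A t‖ ^ 2)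
  m3 : ∀ h : ℝ, 0 < h → h ≤ 1 →
    ∫ t : ℝ, (∫ v in (0 : ℝ)..h, fr (1 / T) (t + v) * ‖BB A (t + v)‖ ^ 2) ^ 2 * ‖BB A t‖ ^ 2 ≤
      C0 * (h / Real.log T) * Real.sqrt T * (Real.log T) ^ (1 / 4 : ℝ) * Real.sqrt (1 + h * Real.log T)
  m4i : ∀ v : ℝ, |v| ≤ 1 / 4 →
    Integrable (fun t : ℝ => deriv (fr (1 / T)) (t + v) ^ 2 * ‖BB A t‖ ^ 6) ∧
    Integrable (fun t : ℝ => deriv (deriv (fr (1 / T))) (t + v) ^ 2 * ‖BB A t‖ ^ 6)
  m4a : ∀ v : ℝ, |v| ≤ 1 / 4 →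
    ∫ t : ℝ, deriv (fr (1 / T)) (t + v) ^ 2 * ‖BB A t‖ ^ 6 ≤
      C0 * Real.sqrt T * (Real.log T) ^ 2 * (Real.log T) ^ (1 / 4 : ℝ) * (2 + |v| * Real.log T) ^ 3
  m4b : ∀ v : ℝ, |v| ≤ 1 / 4 →
    ∫ t : ℝ, deriv (deriv (fr (1 / T))) (t + v) ^ 2 * ‖BB A t‖ ^ 6 ≤
      C0 * Real.sqrt T * (Real.log T) ^ 4 * (Real.log T) ^ (1 / 4 : ℝ) * (2 + |v| * Real.log T) ^ 3

theorem world : ∃ C0 T0 : ℝ, 1 ≤ C0 ∧ Real.exp 40 ≤ T0 ∧
    ∀ T : ℝ, T0 ≤ T → ∃ A : Finset (Finset ℕ), Wd C0 T A := by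
  obtain ⟨K2, hK2, h2⟩ := M2
  obtain ⟨K3, hK3, h3⟩ := M3
  obtain ⟨K4, hK4, h4⟩ := M4
  obtain ⟨C5, hC5, h5⟩ := M1
  obtain ⟨C6, hC6, h6⟩ := M0
  set K : ℝ := max (max K2 K3) (max K4 1) with hK
  have e2 : K2 ≤ K := (le_max_left _ _).trans (le_max_left _ _)
  have e3 : K3 ≤ K := (le_max_right _ _).trans (le_max_left _ _)
  have e4 : K4 ≤ K := (le_max_left _ _).trans (le_max_right _ _)
  have e1 : 1 ≤ K := (le_max_right _ _).trans (le_max_right _ _)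
  have hKpos : 0 < K := lt_of_lt_of_le one_pos e1
  obtain ⟨kap0, hkap0, hblk⟩ := blk_exists K hKpos
  set kap : ℝ := min kap0 (1 / 8) with hkap
  have hk0 : 0 < kap := lt_min hkap0 (by norm_num)
  have hk8 : kap ≤ 1 / 8 := min_le_right _ _
  obtain ⟨Tb, hTb, hb⟩ := hblk kap hk0 (min_le_left _ _)
  obtain ⟨C2, T2, hC2, hT2, g2⟩ := h2 kap hk0 hk8
  obtain ⟨C3, T3, hC3, hT3, g3⟩ := h3 kap hk0 hk8
  obtain ⟨C4, T4, hC4, hT4, g4⟩ := h4 kap hk0 hk8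
  obtain ⟨c, C7, T7, hc, hC7, hT7, g7⟩ := EE_bounds kap hk0 (by linarith)
  have hci : 0 < 1 / c := by positivity
  set C0 : ℝ := 1 + (C2 + C3 + C4 + C5 + C6 + C7 + 1 / c) with hC0
  set T0 : ℝ := max (max (max Tb T2) (max T3 T4)) T7 with hT0
  have t1 : Tb ≤ T0 := ((le_max_left _ _).trans (le_max_left _ _)).trans (le_max_left _ _)
  have t2 : T2 ≤ T0 := ((le_max_right _ _).trans (le_max_left _ _)).trans (le_max_left _ _)
  have t3 : T3 ≤ T0 := ((le_max_left _ _).trans (le_max_right _ _)).trans (le_max_left _ _)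
  have t4 : T4 ≤ T0 := ((le_max_right _ _).trans (le_max_right _ _)).trans (le_max_left _ _)
  have t7 : T7 ≤ T0 := le_max_right _ _
  refine ⟨C0, T0, by rw [hC0]; linarith, hT2.trans t2, fun T hT => ?_⟩
  obtain ⟨J, P, V, hB⟩ := hb T (t1.trans hT)
  have hexp : (40 : ℝ) + 1 ≤ Real.exp 40 := Real.add_one_le_exp 40
  have hT40 : Real.exp 40 ≤ T := hT2.trans (t2.trans hT)
  have hT41 : (41 : ℝ) ≤ T := by linarith
  have hT1 : (1 : ℝ) ≤ T := by linarith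
  have hT4' : (4 : ℝ) ≤ T := by linarith
  have hTpos : 0 < T := by linarith
  have hL : 0 < Real.log T := Real.log_pos (by linarith)
  have hL4 : 0 ≤ (Real.log T) ^ (1 / 4 : ℝ) := Real.rpow_nonneg hL.le _
  have hA : AOK T (AA J P V) := Blk.aok hT1 hB
  have hEE0 : 0 ≤ EE (AA J P V) := by
    unfold EE
    exact Finset.sum_nonneg fun S _ => by positivity
  obtain ⟨q1, q2⟩ := g7 T J P V (t7.trans hT) (hB.mono e1)
  have cC2 : C2 ≤ C0 := by rw [hC0]; linarith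
  have cC3 : C3 ≤ C0 := by rw [hC0]; linarith
  have cC4 : C4 ≤ C0 := by rw [hC0]; linarith
  have cC5 : C5 ≤ C0 := by rw [hC0]; linarith
  have cC6 : C6 ≤ C0 := by rw [hC0]; linarith
  have cC7 : C7 ≤ C0 := by rw [hC0]; linarith
  have cc : 1 / c ≤ C0 := by rw [hC0]; linarith
  refine ⟨AA J P V, BB_cont _, fun t => (BB_le _ hA.prime t).trans hA.card, ?_, ?_, ?_, ?_, ?_, ?_, ?_, ?_, ?_, ?_⟩
  · have : (Real.log T) ^ (1 / 4 : ℝ) = 1 / c * (c * (Real.log T) ^ (1 / 4 : ℝ)) := by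
      field_simp
    rw [this]
    exact mul_le_mul cc q1 (by positivity) (hci.le.trans cc)
  · exact q2.trans (mul_le_mul_of_nonneg_right cC7 hL4)
  · exact (h6 T _ hT4' hA).trans (mul_le_mul_of_nonneg_right cC6 (Real.rpow_nonneg hTpos.le _))
  · intro v hv0 hv1
    exact (h5 T _ hT4' hA v hv0 hv1).trans (mul_le_mul_of_nonneg_right cC5 (Real.rpow_nonneg hTpos.le _))
  · intro h hh0 hh1
    refine (g2 T J P V (t2.trans hT) (hB.mono e2) h hh0 hh1).trans ?_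
    gcongr
  · intro h hh0 hh1
    exact (g3 T J P V (t3.trans hT) (hB.mono e3) h hh0 hh1).1
  · intro h hh0 hh1
    refine (g3 T J P V (t3.trans hT) (hB.mono e3) h hh0 hh1).2.trans ?_
    gcongr
  · intro v hv
    exact ⟨(g4 T J P V (t4.trans hT) (hB.mono e4) v hv).1, (g4 T J P V (t4.trans hT) (hB.mono e4) v hv).2.1⟩
  · intro v hv
    refine (g4 T J P V (t4.trans hT) (hB.mono e4) v hv).2.2.1.trans ?_
    gcongr
  · intro v hv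
    refine (g4 T J P V (t4.trans hT) (hB.mono e4) v hv).2.2.2.trans ?_
    gcongr

end Pool.Agent.H28.ZT
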