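import Pool.Agent.H28.ZT.ZDef

/-!
# Z1 (chapter Z): the windows where the mollified zeta function is not small

`∫_{T/2}^T XX ‖B‖² ≥ ‖∫_{T/2}^T ∫_0^h ζ(1/2+i(t+v)) B(t+v)² ‖B t‖² dv dt‖ ≥ h (T/2 EE - C0 T^(9/10))` (Fubini, `Wd.m1`:
subtract `h T/2 EE`).  On the complement of `S = {XX ≥ h/6}` the integral is `≤ (h/6) ∫ ‖B‖² ≤ (h/6)(T/2 EE + C0 T^(9/10))`.
So `∫_S XX ‖B‖² ≥ h (5/12 T EE - 2 C0 T^(9/10)) ≥ (h/3) T EE ≥ h T L^(1/4)/(3 C0)` for `T ≥ T0(C0)`, and by Cauchy-Schwarz and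
`Wd.m2`: `(h T L^(1/4)/(3 C0))² ≤ C0 h² T L^(1/4) ∫_S ‖B‖²`.
-/

set_option autoImplicit false

namespace Pool.Agent.H28.ZT

open Complex MeasureTheory

/-- Fubini -/
theorem z1_fub {F : ℝ → ℝ → ℂ} (hF : Continuous (Function.uncurry F)) (a b c d : ℝ) :
    ∫ v in a..b, (∫ t in c..d, F v t) = ∫ t in c..d, (∫ v in a..b, F v t) := by
  apply MeasureTheory.intervalIntegral_intervalIntegral_swap
  have h1 : IntegrableOn (Function.uncurry F) (Set.uIcc a b ×ˢ Set.uIcc c d) :=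
    hF.continuousOn.integrableOn_compact (isCompact_uIcc.prod isCompact_uIcc)
  exact h1.mono_set (Set.prod_mono Set.uIoc_subset_uIcc Set.uIoc_subset_uIcc)

/-- Cauchy-Schwarz in the form needed -/
theorem z1_cs {S : Set ℝ} {X B : ℝ → ℝ} (h0 : IntegrableOn (fun t => B t) S) (h1 : IntegrableOn (fun t => X t * B t) S)
    (h2 : IntegrableOn (fun t => X t ^ 2 * B t) S) (hB : ∀ t, 0 ≤ B t) {M : ℝ} (hM : 0 < M)
    (hle : ∫ t in S, X t ^ 2 * B t ≤ M) : (∫ t in S, X t * B t) ^ 2 / M ≤ ∫ t in S, B t := by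
  set P := ∫ t in S, X t * B t with hP
  set l := P / M with hl
  have h3 : 0 ≤ ∫ t in S, (l * X t - 1) ^ 2 * B t :=
    integral_nonneg fun t => mul_nonneg (sq_nonneg _) (hB t)
  have h4 : ∫ t in S, (l * X t - 1) ^ 2 * B t =
      l ^ 2 * (∫ t in S, X t ^ 2 * B t) - 2 * l * P + ∫ t in S, B t := by
    have e1 : (fun t => (l * X t - 1) ^ 2 * B t) =
        fun t => (l ^ 2 * (X t ^ 2 * B t) - 2 * l * (X t * B t)) + B t := by
      funext t
      ring
    have e2 : IntegrableOn (fun t => l ^ 2 * (X t ^ 2 * B t) - 2 * l * (X t * B t)) S :=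
      (h2.const_mul (l ^ 2)).sub (h1.const_mul (2 * l))
    rw [e1, integral_add e2 h0, integral_sub (h2.const_mul (l ^ 2)) (h1.const_mul (2 * l)), integral_const_mul,
      integral_const_mul]
  rw [h4] at h3
  have h5 : l ^ 2 * (∫ t in S, X t ^ 2 * B t) ≤ l ^ 2 * M := mul_le_mul_of_nonneg_left hle (sq_nonneg _)
  have h6 : l ^ 2 * M = P ^ 2 / M := by
    rw [hl]
    field_simp
  have h7 : 2 * l * P = 2 * (P ^ 2 / M) := by
    rw [hl]
    field_simp
  linarith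

/-- the lower bound by Fubini -/
theorem z1_low {F : ℝ → ℝ → ℂ} (hFc : Continuous (Function.uncurry F)) {h c R a b : ℝ} (hh : 0 < h) (hab : a ≤ b)
    (hc : 0 ≤ c) (hR : ∀ v, 0 ≤ v → v ≤ h → ‖(∫ t in a..b, F v t) - ((c : ℝ) : ℂ)‖ ≤ R) {G : ℝ → ℝ} (hG : Continuous G)
    (hFG : ∀ t, ∫ v in (0 : ℝ)..h, ‖F v t‖ ≤ G t) : h * (c - R) ≤ ∫ t in a..b, G t := by
  have h1 : ‖(∫ v in (0 : ℝ)..h, ((∫ t in a..b, F v t) - ((c : ℝ) : ℂ)))‖ ≤ R * |h - 0| := by
    apply intervalIntegral.norm_integral_le_of_norm_le_const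
    intro v hv
    rw [Set.uIoc_of_le hh.le] at hv
    exact hR v hv.1.le hv.2
  have hGc : Continuous fun v => ∫ t in a..b, F v t :=
    intervalIntegral.continuous_parametric_intervalIntegral_of_continuous' hFc _ _
  rw [intervalIntegral.integral_sub (hGc.intervalIntegrable _ _) intervalIntegrable_const, z1_fub hFc,
    intervalIntegral.integral_const, sub_zero, abs_of_pos hh] at h1
  have h2 : ‖∫ t in a..b, ∫ v in (0 : ℝ)..h, F v t‖ ≤ ∫ t in a..b, G t := by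
    apply intervalIntegral.norm_integral_le_of_norm_le hab
    · refine MeasureTheory.ae_of_all _ fun t _ => ?_
      have h3 : ‖∫ v in (0 : ℝ)..h, F v t‖ ≤ ∫ v in (0 : ℝ)..h, ‖F v t‖ :=
        intervalIntegral.norm_integral_le_integral_norm hh.le
      exact h3.trans (hFG t)
    · exact hG.intervalIntegrable _ _
  have h3 : ‖h • ((c : ℝ) : ℂ)‖ = h * c := by
    rw [norm_smul, Complex.norm_real, Real.norm_eq_abs, Real.norm_eq_abs, abs_of_pos hh, abs_of_nonneg hc]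
  have h4 := norm_sub_norm_le (h • ((c : ℝ) : ℂ)) (∫ t in a..b, ∫ v in (0 : ℝ)..h, F v t)
  rw [h3, norm_sub_rev] at h4
  have h5 := h4.trans h1
  linarith

theorem Z1 (C0 : ℝ) (hC0 : 1 ≤ C0) : ∃ c T0 : ℝ, 0 < c ∧ Real.exp 40 ≤ T0 ∧
    ∀ (T : ℝ) (A : Finset (Finset ℕ)), T0 ≤ T → Wd C0 T A → ∀ h : ℝ, 0 < h → h ≤ 1 →
      c * T * (Real.log T) ^ (1 / 4 : ℝ) ≤
        ∫ t in {t : ℝ | T / 2 ≤ t ∧ t ≤ T ∧ h / 6 ≤ XX A h t}, ‖BB A t‖ ^ 2 := by
  refine ⟨1 / (9 * C0 ^ 3), max (Real.exp 40) ((14 * C0 ^ 2) ^ (10 : ℕ)), by positivity, le_max_left _ _, ?_⟩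
  intro T A hT hW h hh0 hh1
  have hC0p : 0 < C0 := by linarith
  have hT1 : Real.exp 40 ≤ T := (le_max_left _ _).trans hT
  have hT2 : (14 * C0 ^ 2) ^ (10 : ℕ) ≤ T := (le_max_right _ _).trans hT
  have hTp : 0 < T := (Real.exp_pos _).trans_le hT1
  have hL40 : 40 ≤ Real.log T := by
    rw [Real.le_log_iff_exp_le hTp]
    exact hT1
  have hLp : 0 < Real.log T := by linarith
  set L4 := (Real.log T) ^ (1 / 4 : ℝ) with hL4
  have hL4p : 0 < L4 := Real.rpow_pos_of_pos hLp _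
  have hL41 : 1 ≤ L4 := Real.one_le_rpow (by linarith) (by norm_num)
  set E := EE A with hE
  have hEp : L4 / C0 ≤ E := by
    rw [div_le_iff₀ hC0p]
    linarith [hW.ee1]
  have hE1 : 1 ≤ C0 * E := hL41.trans hW.ee1
  -- the error term
  set R := T ^ (9 / 10 : ℝ) with hR
  have hRp : 0 < R := Real.rpow_pos_of_pos hTp _
  have hRT : 14 * C0 ^ 2 * R ≤ T := by
    have h1 : 14 * C0 ^ 2 ≤ T ^ (1 / 10 : ℝ) := by
      have h2 : ((14 * C0 ^ 2) ^ (10 : ℕ)) ^ (1 / 10 : ℝ) ≤ T ^ (1 / 10 : ℝ) :=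
        Real.rpow_le_rpow (by positivity) hT2 (by norm_num)
      have h3 : ((14 * C0 ^ 2) ^ (10 : ℕ)) ^ (1 / 10 : ℝ) = 14 * C0 ^ 2 := by
        rw [← Real.rpow_natCast, ← Real.rpow_mul (by positivity)]
        norm_num
      rwa [h3] at h2
    calc 14 * C0 ^ 2 * R ≤ T ^ (1 / 10 : ℝ) * R := by gcongr
      _ = T := by
        rw [hR, ← Real.rpow_add hTp]
        norm_num
  have hRE : 7 / 6 * C0 * R ≤ 1 / 12 * T * E := by
    have h1 : 14 * C0 * R ≤ T * E := by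
      calc 14 * C0 * R ≤ 14 * C0 * R * (C0 * E) := le_mul_of_one_le_right (by positivity) hE1
        _ = 14 * C0 ^ 2 * R * E := by ring
        _ ≤ T * E := by
          apply mul_le_mul_of_nonneg_right hRT
          exact (div_pos hL4p hC0p).le.trans hEp
    linarith
  have hEpos : 0 < E := (div_pos hL4p hC0p).trans_le hEp
  -- the set
  set S : Set ℝ := {t : ℝ | T / 2 ≤ t ∧ t ≤ T ∧ h / 6 ≤ XX A h t} with hS
  have hXc : Continuous (XX A h) := XX_cont A hW.cont h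
  have hBc : Continuous fun t => ‖BB A t‖ ^ 2 := hW.cont.norm.pow 2
  have hTT : T / 2 ≤ T := by linarith
  have hSm : MeasurableSet {t : ℝ | h / 6 ≤ XX A h t} := (isClosed_le continuous_const hXc).measurableSet
  have hSeq : S = Set.Icc (T / 2) T ∩ {t : ℝ | h / 6 ≤ XX A h t} := by
    ext t
    simp only [hS, Set.mem_ofPred_eq, Set.mem_inter_iff, Set.mem_Icc, and_assoc]
  have hint : ∀ f : ℝ → ℝ, Continuous f → IntegrableOn f (Set.Icc (T / 2) T) := fun f hf =>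
    hf.continuousOn.integrableOn_compact isCompact_Icc
  have hSsub : S ⊆ Set.Icc (T / 2) T := by
    rw [hSeq]
    exact Set.inter_subset_left
  -- lower bound for the integral over the interval
  have hlow : h * (T / 2 * E - C0 * R) ≤ ∫ t in (T / 2)..T, XX A h t * ‖BB A t‖ ^ 2 := by
    have hFc : Continuous (Function.uncurry fun v t : ℝ => riemannZeta (1 / 2 + I * ((t + v : ℝ) : ℂ)) *
        BB A (t + v) ^ 2 * ((‖BB A t‖ ^ 2 : ℝ) : ℂ)) := by
      have e1 : Continuous fun p : ℝ × ℝ => riemannZeta (1 / 2 + I * ((p.2 + p.1 : ℝ) : ℂ)) :=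
        zeta_line_cont.comp (continuous_snd.add continuous_fst)
      have e2 : Continuous fun p : ℝ × ℝ => BB A (p.2 + p.1) ^ 2 :=
        (hW.cont.comp (continuous_snd.add continuous_fst)).pow 2
      have e3 : Continuous fun p : ℝ × ℝ => ((‖BB A p.2‖ ^ 2 : ℝ) : ℂ) :=
        Complex.continuous_ofReal.comp (hBc.comp continuous_snd)
      exact (e1.mul e2).mul e3
    refine z1_low hFc hh0 hTT (by positivity) (fun v hv0 hv1 => hW.m1 v hv0 (hv1.trans hh1)) (hXc.mul hBc) ?_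
    intro t
    refine le_of_eq ?_
    unfold XX
    rw [← intervalIntegral.integral_mul_const]
    congr 1
    funext v
    rw [norm_mul, norm_mul, norm_pow, Complex.norm_real, Real.norm_eq_abs, abs_of_nonneg (sq_nonneg _)]
  rw [intervalIntegral.integral_of_le hTT, ← integral_Icc_eq_integral_Ioc] at hlow
  have hm0 := (abs_le.1 hW.m0).2
  rw [intervalIntegral.integral_of_le hTT, ← integral_Icc_eq_integral_Ioc] at hm0
  have hXB : Continuous fun t => XX A h t * ‖BB A t‖ ^ 2 := hXc.mul hBc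
  have hXXB : Continuous fun t => XX A h t ^ 2 * ‖BB A t‖ ^ 2 := (hXc.pow 2).mul hBc
  have hcB : Continuous fun t => h / 6 * ‖BB A t‖ ^ 2 := continuous_const.mul hBc
  have hsplit := MeasureTheory.integral_inter_add_sdiff (μ := volume) hSm (hint _ hXB)
  rw [← hSeq] at hsplit
  have hcomp : ∫ t in Set.Icc (T / 2) T \ {t : ℝ | h / 6 ≤ XX A h t}, XX A h t * ‖BB A t‖ ^ 2 ≤
      h / 6 * ∫ t in Set.Icc (T / 2) T, ‖BB A t‖ ^ 2 := by
    have h1 : ∫ t in Set.Icc (T / 2) T \ {t : ℝ | h / 6 ≤ XX A h t}, XX A h t * ‖BB A t‖ ^ 2 ≤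
        ∫ t in Set.Icc (T / 2) T \ {t : ℝ | h / 6 ≤ XX A h t}, h / 6 * ‖BB A t‖ ^ 2 := by
      apply setIntegral_mono_on ((hint _ hXB).mono_set Set.sdiff_subset)
        ((hint _ hcB).mono_set Set.sdiff_subset) (measurableSet_Icc.diff hSm)
      intro t ht
      have h2 : XX A h t < h / 6 := not_le.1 ht.2
      exact mul_le_mul_of_nonneg_right h2.le (sq_nonneg _)
    refine h1.trans ?_
    rw [← integral_const_mul]
    apply setIntegral_mono_set (hint _ hcB)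
    · refine MeasureTheory.ae_of_all _ fun t => ?_
      change (0 : ℝ) ≤ h / 6 * ‖BB A t‖ ^ 2
      positivity
    · exact (Set.sdiff_subset).eventuallyLE
  have hP : h / 3 * (T * E) ≤ ∫ t in S, XX A h t * ‖BB A t‖ ^ 2 := by
    have h1 : h / 6 * ∫ t in Set.Icc (T / 2) T, ‖BB A t‖ ^ 2 ≤ h / 6 * (T / 2 * E + C0 * R) := by
      apply mul_le_mul_of_nonneg_left _ (by positivity)
      linarith
    have h2 : h * (5 / 12 * T * E - 7 / 6 * C0 * R) ≤ ∫ t in S, XX A h t * ‖BB A t‖ ^ 2 := by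
      have h3 : h * (5 / 12 * T * E - 7 / 6 * C0 * R) = h * (T / 2 * E - C0 * R) - h / 6 * (T / 2 * E + C0 * R) := by
        ring
      rw [h3]
      linarith
    refine le_trans ?_ h2
    have h3 : h / 3 * (T * E) = h * (1 / 3 * T * E) := by ring
    rw [h3]
    apply mul_le_mul_of_nonneg_left _ hh0.le
    linarith
  -- Cauchy-Schwarz
  have hM : 0 < C0 * h ^ 2 * T * L4 := by positivity
  have hle : ∫ t in S, XX A h t ^ 2 * ‖BB A t‖ ^ 2 ≤ C0 * h ^ 2 * T * L4 := by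
    have h1 := hW.m2 h hh0 hh1
    rw [intervalIntegral.integral_of_le hTT, ← integral_Icc_eq_integral_Ioc] at h1
    refine le_trans ?_ h1
    apply setIntegral_mono_set (hint _ hXXB)
    · refine MeasureTheory.ae_of_all _ fun t => ?_
      change (0 : ℝ) ≤ XX A h t ^ 2 * ‖BB A t‖ ^ 2
      positivity
    · exact hSsub.eventuallyLE
  have hcs := z1_cs (S := S) (X := XX A h) (B := fun t => ‖BB A t‖ ^ 2) ((hint _ hBc).mono_set hSsub)
    ((hint _ hXB).mono_set hSsub) ((hint _ hXXB).mono_set hSsub)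
    (fun t => sq_nonneg _) hM hle
  refine le_trans ?_ hcs
  rw [le_div_iff₀ hM]
  have hPp : 0 ≤ h / 3 * (T * E) := by positivity
  have hsq : (h / 3 * (T * E)) ^ 2 ≤ (∫ t in S, XX A h t * ‖BB A t‖ ^ 2) ^ 2 := pow_le_pow_left₀ hPp hP 2
  refine le_trans ?_ hsq
  have hE2 : (L4 / C0) ^ 2 ≤ E ^ 2 := pow_le_pow_left₀ (by positivity) hEp 2
  calc 1 / (9 * C0 ^ 3) * T * L4 * (C0 * h ^ 2 * T * L4) = h ^ 2 * T ^ 2 / 9 * (L4 / C0) ^ 2 := by
        field_simp
    _ ≤ h ^ 2 * T ^ 2 / 9 * E ^ 2 := by gcongr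
    _ = (h / 3 * (T * E)) ^ 2 := by ring

end Pool.Agent.H28.ZT
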