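import Pool.Agent.H28.ZT.Z1
import Pool.Agent.H28.ZT.FLow

/-!
# Z2 (chapter Z): the windows with a sign change

`h = a0/L`.  `S = {XX ≥ h/6}` (Z1), `G = {|II| < YY}`.  On `S \ G`: `|II| ≥ YY ≥ c₁ T^(-1/4) XX ≥ c₁ T^(-1/4) h/6` (FLOW: `1 ≤ t+v ≤ 2T`).
`Wd.m3` (restricted to `S \ G`): `∫_{S\G} ‖B‖² ≤ (36 √T/(c₁² h²)) C0 (h/L) √T L^(1/4) √(1 + a0)
= (36 C0/c₁²) T L^(1/4) √(1 + a0)/a0 ≤ (c/2) T L^(1/4)` for `a0` large (`c` from Z1).  So `∫_G ‖B‖² ≥ ∫_{S ∩ G} ≥ (c/2) T L^(1/4)`.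
`T0` so large that `a0/log T0 ≤ 1/8`.
-/

set_option autoImplicit false

namespace Pool.Agent.H28.ZT

open Complex MeasureTheory

theorem Z2 (C0 : ℝ) (hC0 : 1 ≤ C0) : ∃ c a0 T0 : ℝ, 0 < c ∧ 1 ≤ a0 ∧ Real.exp 40 ≤ T0 ∧
    ∀ (T : ℝ) (A : Finset (Finset ℕ)), T0 ≤ T → Wd C0 T A →
      a0 / Real.log T ≤ 1 / 8 ∧
      c * T * (Real.log T) ^ (1 / 4 : ℝ) ≤
        ∫ t in {t : ℝ | T / 2 ≤ t ∧ t ≤ T ∧ |II T A (a0 / Real.log T) t| < YY T A (a0 / Real.log T) t},
          ‖BB A t‖ ^ 2 := by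
  obtain ⟨c, T1, hc, hT1, h1⟩ := Z1 C0 hC0
  obtain ⟨c1, hc1, hlow⟩ := F_low
  -- choice of a0
  set D : ℝ := 36 * C0 / c1 ^ 2 with hD
  have hD0 : 0 < D := by positivity
  set a0 : ℝ := 1 + 8 * (D / c) ^ 2 with ha0
  have hDc : 0 < D / c := by positivity
  have ha1 : 1 ≤ a0 := by
    rw [ha0]
    nlinarith [sq_nonneg (D / c)]
  have ha0p : 0 < a0 := by linarith
  have hsq : D * Real.sqrt (1 + a0) / a0 ≤ c / 2 := by
    have h2 : Real.sqrt (1 + a0) ≤ Real.sqrt (2 * a0) := Real.sqrt_le_sqrt (by linarith)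
    have h3 : Real.sqrt (1 + a0) ^ 2 = 1 + a0 := Real.sq_sqrt (by linarith)
    have h4 : 0 ≤ Real.sqrt (1 + a0) := Real.sqrt_nonneg _
    rw [div_le_iff₀ ha0p]
    have h5 : (D * Real.sqrt (1 + a0)) ^ 2 ≤ (c / 2 * a0) ^ 2 := by
      have h6 : D ^ 2 = c ^ 2 * (D / c) ^ 2 := by
        field_simp
      have h7 : 8 * (D / c) ^ 2 = a0 - 1 := by rw [ha0]; ring
      calc (D * Real.sqrt (1 + a0)) ^ 2 = D ^ 2 * (1 + a0) := by
            rw [mul_pow, h3]
        _ = c ^ 2 * ((a0 - 1) / 8) * (1 + a0) := by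
            rw [h6, ← h7]
            ring
        _ ≤ c ^ 2 * (a0 / 8) * (2 * a0) := by
            have hc2 : 0 < c ^ 2 := by positivity
            have : (a0 - 1) / 8 * (1 + a0) ≤ a0 / 8 * (2 * a0) := by nlinarith
            nlinarith
        _ = (c / 2 * a0) ^ 2 := by ring
    exact le_of_sq_le_sq h5 (by positivity)
  refine ⟨c / 2, a0, max T1 (Real.exp (8 * a0)), by positivity, ha1, hT1.trans (le_max_left _ _),
    fun T A hT hW => ?_⟩
  have hTT1 : T1 ≤ T := (le_max_left _ _).trans hT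
  have hTa : Real.exp (8 * a0) ≤ T := (le_max_right _ _).trans hT
  have hexp : (40 : ℝ) + 1 ≤ Real.exp 40 := Real.add_one_le_exp 40
  have hT41 : (41 : ℝ) ≤ T := by linarith
  have hTpos : 0 < T := by linarith
  have hL8 : 8 * a0 ≤ Real.log T := by
    rw [Real.le_log_iff_exp_le hTpos]
    exact hTa
  have hLpos : 0 < Real.log T := by linarith
  set L : ℝ := Real.log T with hL
  set h : ℝ := a0 / L with hh
  have hh0 : 0 < h := by positivity
  have hh8 : h ≤ 1 / 8 := by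
    rw [hh, div_le_div_iff₀ hLpos (by norm_num)]
    linarith
  have hhL : h * L = a0 := by
    rw [hh]
    field_simp
  refine ⟨hh8, ?_⟩
  have hT2 : (2 : ℝ) ≤ T := by linarith
  have hd0 : 0 < 1 / T := by positivity
  have hd1 : 1 / T ≤ 1 / 2 := one_div_le_one_div_of_le (by norm_num) hT2
  have hX := XX_cont A hW.cont h
  have hI := II_cont hT2 A hW.cont h
  have hY := YY_cont hT2 A hW.cont h
  have hfc := (fr_smooth hd0 hd1).continuous
  set S : Set ℝ := {t : ℝ | T / 2 ≤ t ∧ t ≤ T ∧ h / 6 ≤ XX A h t} with hS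
  set G : Set ℝ := {t : ℝ | T / 2 ≤ t ∧ t ≤ T ∧ |II T A h t| < YY T A h t} with hG
  have hmI : MeasurableSet (Set.Icc (T / 2) T) := measurableSet_Icc
  have hSm : MeasurableSet S := by
    have e : S = Set.Icc (T / 2) T ∩ {t : ℝ | h / 6 ≤ XX A h t} := by
      ext t
      simp only [hS, Set.mem_inter_iff, Set.mem_Icc, Set.mem_ofPred_eq]
      tauto
    rw [e]
    exact hmI.inter (measurableSet_le measurable_const hX.measurable)
  have hGm : MeasurableSet G := by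
    have e : G = Set.Icc (T / 2) T ∩ {t : ℝ | |II T A h t| < YY T A h t} := by
      ext t
      simp only [hG, Set.mem_inter_iff, Set.mem_Icc, Set.mem_ofPred_eq]
      tauto
    rw [e]
    exact hmI.inter (measurableSet_lt hI.abs.measurable hY.measurable)
  have hsubS : S ⊆ Set.Icc (T / 2) T := fun t ht => ⟨ht.1, ht.2.1⟩
  have hsubG : G ⊆ Set.Icc (T / 2) T := fun t ht => ⟨ht.1, ht.2.1⟩
  have hbc : Continuous fun t : ℝ => ‖BB A t‖ ^ 2 := hW.cont.norm.pow 2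
  have hbI : IntegrableOn (fun t : ℝ => ‖BB A t‖ ^ 2) (Set.Icc (T / 2) T) :=
    hbc.continuousOn.integrableOn_compact isCompact_Icc
  have hbS : IntegrableOn (fun t : ℝ => ‖BB A t‖ ^ 2) S := hbI.mono_set hsubS
  have hbG : IntegrableOn (fun t : ℝ => ‖BB A t‖ ^ 2) G := hbI.mono_set hsubG
  have hb0 : ∀ t : ℝ, 0 ≤ ‖BB A t‖ ^ 2 := fun t => by positivity
  -- the integral over S minus G
  have key : ∫ t in S \ G, ‖BB A t‖ ^ 2 ≤ c / 2 * T * L ^ (1 / 4 : ℝ) := by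
    have hq : 0 < c1 * T ^ (-(1 / 4) : ℝ) := by positivity
    have hlb : ∀ t ∈ S \ G, (c1 * T ^ (-(1 / 4) : ℝ) * (h / 6)) ^ 2 ≤ II T A h t ^ 2 := by
      intro t ht
      have h2 : YY T A h t ≤ |II T A h t| := by
        by_contra hcon
        push Not at hcon
        exact ht.2 ⟨ht.1.1, ht.1.2.1, hcon⟩
      have h3 : c1 * T ^ (-(1 / 4) : ℝ) * XX A h t ≤ YY T A h t := by
        unfold XX YY
        rw [← intervalIntegral.integral_const_mul]
        have hcz : Continuous fun v : ℝ => ‖riemannZeta (1 / 2 + I * ((t + v : ℝ) : ℂ))‖ * ‖BB A (t + v)‖ ^ 2 := by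
          have e1 : Continuous fun v : ℝ => riemannZeta (1 / 2 + I * ((t + v : ℝ) : ℂ)) :=
            zeta_line_cont.comp (continuous_const.add continuous_id)
          exact e1.norm.mul ((hW.cont.comp (continuous_const.add continuous_id)).norm.pow 2)
        have hcy : Continuous fun v : ℝ => |fr (1 / T) (t + v)| * ‖BB A (t + v)‖ ^ 2 :=
          (hfc.comp (continuous_const.add continuous_id)).abs.mul
            ((hW.cont.comp (continuous_const.add continuous_id)).norm.pow 2)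
        refine intervalIntegral.integral_mono_on hh0.le ((hcz.const_mul _).intervalIntegrable _ _)
          (hcy.intervalIntegrable _ _) (fun v hv => ?_)
        have hv1 := hv.1
        have hv2 := hv.2
        have ht1 := ht.1.1
        have ht2 := ht.1.2.1
        have h4 := hlow T hT2 (t + v) (by linarith) (by linarith)
        have h5 : ‖FF (1 / T) ((t + v : ℝ) : ℂ)‖ = |fr (1 / T) (t + v)| := by
          rw [← fr_eq hd0 hd1 (t + v), Complex.norm_real, Real.norm_eq_abs]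
        rw [h5] at h4
        calc c1 * T ^ (-(1 / 4) : ℝ) * (‖riemannZeta (1 / 2 + I * ((t + v : ℝ) : ℂ))‖ * ‖BB A (t + v)‖ ^ 2)
            = (c1 * T ^ (-(1 / 4) : ℝ) * ‖riemannZeta (1 / 2 + I * ((t + v : ℝ) : ℂ))‖) * ‖BB A (t + v)‖ ^ 2 := by
              ring
          _ ≤ |fr (1 / T) (t + v)| * ‖BB A (t + v)‖ ^ 2 := mul_le_mul_of_nonneg_right h4 (by positivity)
      have h6 : c1 * T ^ (-(1 / 4) : ℝ) * (h / 6) ≤ |II T A h t| := by
        calc c1 * T ^ (-(1 / 4) : ℝ) * (h / 6) ≤ c1 * T ^ (-(1 / 4) : ℝ) * XX A h t :=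
              mul_le_mul_of_nonneg_left ht.1.2.2 hq.le
          _ ≤ _ := h3
          _ ≤ _ := h2
      calc (c1 * T ^ (-(1 / 4) : ℝ) * (h / 6)) ^ 2 ≤ |II T A h t| ^ 2 :=
            pow_le_pow_left₀ (by positivity) h6 2
        _ = _ := sq_abs _
    have hm3 := hW.m3 h hh0 (by linarith)
    have hm3i := hW.m3i h hh0 (by linarith)
    have hSG : MeasurableSet (S \ G) := hSm.diff hGm
    have h7 : (c1 * T ^ (-(1 / 4) : ℝ) * (h / 6)) ^ 2 * ∫ t in S \ G, ‖BB A t‖ ^ 2 ≤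
        C0 * (h / L) * Real.sqrt T * L ^ (1 / 4 : ℝ) * Real.sqrt (1 + h * L) := by
      rw [← integral_const_mul]
      refine le_trans ?_ hm3
      calc ∫ t in S \ G, (c1 * T ^ (-(1 / 4) : ℝ) * (h / 6)) ^ 2 * ‖BB A t‖ ^ 2
          ≤ ∫ t in S \ G, II T A h t ^ 2 * ‖BB A t‖ ^ 2 := by
            refine setIntegral_mono_on ((hbS.mono_set Set.sdiff_subset).const_mul _) hm3i.integrableOn hSG
              (fun t ht => mul_le_mul_of_nonneg_right (hlb t ht) (hb0 t))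
        _ ≤ ∫ t : ℝ, II T A h t ^ 2 * ‖BB A t‖ ^ 2 :=
            setIntegral_le_integral hm3i (Filter.Eventually.of_forall fun t => by positivity)
    have hTm : (T ^ (-(1 / 4) : ℝ)) ^ 2 * Real.sqrt T = 1 := by
      rw [Real.sqrt_eq_rpow, ← Real.rpow_natCast, ← Real.rpow_mul hTpos.le, ← Real.rpow_add hTpos]
      norm_num
    have hs : Real.sqrt T * Real.sqrt T = T := Real.mul_self_sqrt hTpos.le
    set X : ℝ := ∫ t in S \ G, ‖BB A t‖ ^ 2 with hXdef
    set w : ℝ := T ^ (-(1 / 4) : ℝ) with hw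
    have hwne : w ≠ 0 := by positivity
    have hq0 : 0 ≤ L ^ (1 / 4 : ℝ) := Real.rpow_nonneg hLpos.le _
    calc X = (w ^ 2 * Real.sqrt T) * X := by rw [hTm, one_mul]
      _ = ((c1 * w * (h / 6)) ^ 2 * X) * (36 * Real.sqrt T / (c1 ^ 2 * h ^ 2)) := by
          field_simp
          ring
      _ ≤ (C0 * (h / L) * Real.sqrt T * L ^ (1 / 4 : ℝ) * Real.sqrt (1 + h * L)) *
          (36 * Real.sqrt T / (c1 ^ 2 * h ^ 2)) := mul_le_mul_of_nonneg_right h7 (by positivity)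
      _ = (36 * C0 / c1 ^ 2) * Real.sqrt (1 + h * L) / (h * L) * (Real.sqrt T * Real.sqrt T) *
          L ^ (1 / 4 : ℝ) := by
          field_simp
      _ = D * Real.sqrt (1 + a0) / a0 * T * L ^ (1 / 4 : ℝ) := by rw [hhL, hs]
      _ ≤ c / 2 * T * L ^ (1 / 4 : ℝ) := by gcongr
  have h8 := h1 T A hTT1 hW h hh0 (by linarith)
  have h9 : ∫ t in S, ‖BB A t‖ ^ 2 ≤ (∫ t in G, ‖BB A t‖ ^ 2) + ∫ t in S \ G, ‖BB A t‖ ^ 2 := by
    have hsub : S ⊆ G ∪ (S \ G) := by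
      intro t ht
      by_cases hg : t ∈ G
      · exact Or.inl hg
      · exact Or.inr ⟨ht, hg⟩
    calc ∫ t in S, ‖BB A t‖ ^ 2 ≤ ∫ t in G ∪ (S \ G), ‖BB A t‖ ^ 2 :=
          setIntegral_mono_set (hbG.union (hbS.mono_set Set.sdiff_subset))
            (Filter.Eventually.of_forall fun t => hb0 t) (Filter.Eventually.of_forall hsub)
      _ = _ := setIntegral_union Set.disjoint_sdiff_right (hSm.diff hGm) hbG (hbS.mono_set Set.sdiff_subset)
  have h10 : c * T * L ^ (1 / 4 : ℝ) = c / 2 * T * L ^ (1 / 4 : ℝ) + c / 2 * T * L ^ (1 / 4 : ℝ) := by ring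
  linarith

end Pool.Agent.H28.ZT
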