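import Pool.Agent.H28.ZT.ZDef
import Pool.Agent.H28.ZT.Sobo

/-!
# Z4 (chapter Z): the maxima `s_k` of `|F'|`

`h = a0/L`, `T` so large that `h ≤ 1/8`.  `s k = max |F'|` over `J_k = [kh, (k+2)h]`.  For `t ∈ I_k = [kh, (k+1)h]`, `J_k ⊆ [t-h, t+2h]`, so by
SOBO (`3h ≥ 1/L`) `(s k)² ≤ Φ(t) = 2L ∫_{-h}^{2h} F'(t+v)² dv + (1/L) ∫_{-h}^{2h} F''(t+v)² dv`.  The `I_k` do not overlap:
`∑_{k ∈ R} (s k)² ∫_{I_k} ‖B‖^6 ≤ ∫_ℝ Φ ‖B‖^6 = ∫_{-h}^{2h} (2L ∫ F'(t+v)² ‖B‖^6 dt + (1/L) ∫ F''(t+v)² ‖B‖^6 dt) dv` (Tonelli)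
`≤ 3h (2L · L² + (1/L) L⁴) C0 √T L^(1/4) (2 + 2a0)³` by `Wd.m4a`, `Wd.m4b` (`|v| ≤ 2h ≤ 1/4`), and `h L = a0`.
-/

set_option autoImplicit false

namespace Pool.Agent.H28.ZT

open Complex MeasureTheory

/-- the abstract form: sums of maxima of `|g|` against a continuous weight -/
private theorem z4_aux (g w : ℝ → ℝ) (hg : ContDiff ℝ 1 g) (hw : Continuous w) (hw0 : ∀ t, 0 ≤ w t)
    (L h D1 D2 : ℝ) (hL : 0 < L) (hh : 0 < h) (hhL : 1 / L ≤ 3 * h)
    (hi1 : ∀ v : ℝ, |v| ≤ 2 * h → Integrable (fun t : ℝ => g (t + v) ^ 2 * w t))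
    (hi2 : ∀ v : ℝ, |v| ≤ 2 * h → Integrable (fun t : ℝ => deriv g (t + v) ^ 2 * w t))
    (hb1 : ∀ v : ℝ, |v| ≤ 2 * h → ∫ t : ℝ, g (t + v) ^ 2 * w t ≤ D1)
    (hb2 : ∀ v : ℝ, |v| ≤ 2 * h → ∫ t : ℝ, deriv g (t + v) ^ 2 * w t ≤ D2)
    (s x : ℕ → ℝ) (hx : ∀ k : ℕ, (k : ℝ) * h ≤ x k ∧ x k ≤ ((k : ℝ) + 2) * h) (hs : ∀ k, s k = |g (x k)|)
    (R : Finset ℕ) :
    ∑ k ∈ R, s k ^ 2 * (∫ t in ((k : ℝ) * h)..(((k : ℝ) + 1) * h), w t) ≤
      3 * h * (2 * L * D1 + 1 / L * D2) := by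
  have hgc : Continuous g := hg.continuous
  have hdc : Continuous (deriv g) := hg.continuous_deriv (le_refl _)
  set μ : Measure ℝ := volume.restrict (Set.Ioc (-h) (2 * h)) with hμ
  haveI : IsFiniteMeasure μ := by
    rw [hμ]
    infer_instance
  let f : ℝ × ℝ → ℝ := fun p => (2 * L * g (p.2 + p.1) ^ 2 + 1 / L * deriv g (p.2 + p.1) ^ 2) * w p.2
  have hfc : Continuous f := by
    have h1 : Continuous fun p : ℝ × ℝ => g (p.2 + p.1) :=
      hgc.comp (continuous_snd.add continuous_fst)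
    have h2 : Continuous fun p : ℝ × ℝ => deriv g (p.2 + p.1) :=
      hdc.comp (continuous_snd.add continuous_fst)
    exact (((continuous_const.mul (h1.pow 2)).add (continuous_const.mul (h2.pow 2)))).mul
      (hw.comp continuous_snd)
  have hf0 : ∀ p, 0 ≤ f p := fun p => mul_nonneg (by positivity) (hw0 _)
  have hD1 : 0 ≤ D1 := le_trans (integral_nonneg fun t => mul_nonneg (sq_nonneg _) (hw0 t))
    (hb1 0 (by rw [abs_zero]; positivity))
  have hD2 : 0 ≤ D2 := le_trans (integral_nonneg fun t => mul_nonneg (sq_nonneg _) (hw0 t))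
    (hb2 0 (by rw [abs_zero]; positivity))
  -- the inner integral over `t`
  have hin : ∀ v : ℝ, |v| ≤ 2 * h → Integrable (fun t : ℝ => f (v, t)) := by
    intro v hv
    have h1 := ((hi1 v hv).const_mul (2 * L)).add ((hi2 v hv).const_mul (1 / L))
    refine h1.congr (Filter.Eventually.of_forall fun t => ?_)
    simp only [f, Pi.add_apply]
    ring
  have hle : ∀ v : ℝ, |v| ≤ 2 * h → ∫ t : ℝ, f (v, t) ≤ 2 * L * D1 + 1 / L * D2 := by
    intro v hv
    have h1 : ∫ t : ℝ, f (v, t) = 2 * L * (∫ t : ℝ, g (t + v) ^ 2 * w t) +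
        1 / L * ∫ t : ℝ, deriv g (t + v) ^ 2 * w t := by
      rw [← integral_const_mul, ← integral_const_mul, ← integral_add
        ((hi1 v hv).const_mul (2 * L)) ((hi2 v hv).const_mul (1 / L))]
      refine integral_congr_ae (Filter.Eventually.of_forall fun t => ?_)
      simp only [f]
      ring
    rw [h1]
    have h2 := hb1 v hv
    have h3 := hb2 v hv
    gcongr
  have habs : ∀ v ∈ Set.Ioc (-h) (2 * h), |v| ≤ 2 * h := by
    intro v hv
    rw [abs_le]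
    exact ⟨by linarith [hv.1], hv.2⟩
  -- integrability on the product
  have hprod : Integrable f (μ.prod volume) := by
    rw [integrable_prod_iff hfc.aestronglyMeasurable]
    constructor
    · rw [hμ]
      refine (ae_restrict_iff' measurableSet_Ioc).2 (Filter.Eventually.of_forall fun v hv => ?_)
      exact hin v (habs v hv)
    · have hm : AEStronglyMeasurable (fun v : ℝ => ∫ t : ℝ, ‖f (v, t)‖) μ :=
        hfc.norm.stronglyMeasurable.integral_prod_right'.aestronglyMeasurable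
      refine Integrable.mono' (integrable_const (2 * L * D1 + 1 / L * D2)) hm ?_
      rw [hμ]
      refine (ae_restrict_iff' measurableSet_Ioc).2 (Filter.Eventually.of_forall fun v hv => ?_)
      have h1 : (fun t : ℝ => ‖f (v, t)‖) = fun t => f (v, t) := by
        funext t
        exact Real.norm_of_nonneg (hf0 _)
      rw [h1, Real.norm_of_nonneg (integral_nonneg fun t => hf0 _)]
      exact hle v (habs v hv)
  -- `Φ`
  let Φ : ℝ → ℝ := fun t => 2 * L * (∫ v in (-h)..(2 * h), g (t + v) ^ 2) +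
    1 / L * ∫ v in (-h)..(2 * h), deriv g (t + v) ^ 2
  have hΦ : ∀ t, Φ t * w t = ∫ v, f (v, t) ∂μ := by
    intro t
    have hc1 : IntervalIntegrable (fun v => g (t + v) ^ 2) volume (-h) (2 * h) :=
      ((hgc.comp (continuous_const.add continuous_id)).pow 2).intervalIntegrable _ _
    have hc2 : IntervalIntegrable (fun v => deriv g (t + v) ^ 2) volume (-h) (2 * h) :=
      ((hdc.comp (continuous_const.add continuous_id)).pow 2).intervalIntegrable _ _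
    have h1 : ∫ v, f (v, t) ∂μ = ∫ v in (-h)..(2 * h), f (v, t) := by
      rw [intervalIntegral.integral_of_le (by linarith), hμ]
    rw [h1]
    simp only [f, Φ]
    rw [intervalIntegral.integral_mul_const, intervalIntegral.integral_add
      (hc1.const_mul _) (hc2.const_mul _), intervalIntegral.integral_const_mul,
      intervalIntegral.integral_const_mul]
  have hΦi : Integrable (fun t => Φ t * w t) := by
    have h1 : (fun t => Φ t * w t) = fun t => ∫ v, f (v, t) ∂μ := funext hΦ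
    rw [h1]
    exact hprod.integral_prod_right
  have hΦint : ∫ t, Φ t * w t ≤ 3 * h * (2 * L * D1 + 1 / L * D2) := by
    have h1 : ∫ t, Φ t * w t = ∫ v, (∫ t : ℝ, f (v, t)) ∂μ := by
      rw [integral_integral_swap (f := fun v t => f (v, t)) hprod]
      exact integral_congr_ae (Filter.Eventually.of_forall hΦ)
    rw [h1]
    have h2 : ∫ v, (∫ t : ℝ, f (v, t)) ∂μ ≤ ∫ _v, (2 * L * D1 + 1 / L * D2) ∂μ := by
      refine integral_mono_ae hprod.integral_prod_left (integrable_const _) ?_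
      rw [hμ]
      refine (ae_restrict_iff' measurableSet_Ioc).2 (Filter.Eventually.of_forall fun v hv => ?_)
      exact hle v (habs v hv)
    refine h2.trans (le_of_eq ?_)
    rw [integral_const, hμ]
    simp only [measureReal_restrict_apply_univ, smul_eq_mul]
    rw [Real.volume_real_Ioc_of_le (by linarith)]
    ring
  have hΦ0 : ∀ t, 0 ≤ Φ t * w t := by
    intro t
    rw [hΦ]
    exact integral_nonneg fun v => hf0 _
  -- pointwise
  have hpt : ∀ k : ℕ, ∀ t : ℝ, (k : ℝ) * h ≤ t → t ≤ ((k : ℝ) + 1) * h → s k ^ 2 ≤ Φ t := by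
    intro k t ht1 ht2
    obtain ⟨hx1, hx2⟩ := hx k
    have h1 := sobo g hg (t - h) (t + 2 * h) L hL (by linarith) (x k) (by nlinarith) (by nlinarith)
    have e1 : (∫ y in (t - h)..(t + 2 * h), g y ^ 2) = ∫ v in (-h)..(2 * h), g (t + v) ^ 2 := by
      have := intervalIntegral.integral_comp_add_left (a := -h) (b := 2 * h) (fun y => g y ^ 2) t
      rw [this]
      congr 1
    have e2 : (∫ y in (t - h)..(t + 2 * h), deriv g y ^ 2) =
        ∫ v in (-h)..(2 * h), deriv g (t + v) ^ 2 := by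
      have := intervalIntegral.integral_comp_add_left (a := -h) (b := 2 * h)
        (fun y => deriv g y ^ 2) t
      rw [this]
      congr 1
    rw [e1, e2] at h1
    rw [hs, sq_abs]
    exact h1
  -- each block
  have hblk : ∀ k : ℕ, s k ^ 2 * (∫ t in ((k : ℝ) * h)..(((k : ℝ) + 1) * h), w t) ≤
      ∫ t in Set.Ioc ((k : ℝ) * h) (((k : ℝ) + 1) * h), Φ t * w t := by
    intro k
    have hkh : (k : ℝ) * h ≤ ((k : ℝ) + 1) * h := by nlinarith
    rw [← intervalIntegral.integral_const_mul, intervalIntegral.integral_of_le hkh]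
    refine setIntegral_mono_on ?_ hΦi.integrableOn measurableSet_Ioc fun t ht => ?_
    · exact ((continuous_const.mul hw).integrableOn_Icc).mono_set Set.Ioc_subset_Icc_self
    · exact mul_le_mul_of_nonneg_right (hpt k t ht.1.le ht.2) (hw0 t)
  have hdisj : Set.PairwiseDisjoint (↑R) (fun k : ℕ => Set.Ioc ((k : ℝ) * h) (((k : ℝ) + 1) * h)) := by
    intro i _ j _ hij
    rw [Function.onFun, Set.disjoint_left]
    rintro t ⟨hi1, hi2⟩ ⟨hj1, hj2⟩
    rcases lt_or_gt_of_ne hij with hlt | hlt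
    · have h1 : (i : ℝ) + 1 ≤ j := by exact_mod_cast hlt
      have h2 : ((i : ℝ) + 1) * h ≤ (j : ℝ) * h := by nlinarith
      linarith
    · have h1 : (j : ℝ) + 1 ≤ i := by exact_mod_cast hlt
      have h2 : ((j : ℝ) + 1) * h ≤ (i : ℝ) * h := by nlinarith
      linarith
  calc ∑ k ∈ R, s k ^ 2 * (∫ t in ((k : ℝ) * h)..(((k : ℝ) + 1) * h), w t)
      ≤ ∑ k ∈ R, ∫ t in Set.Ioc ((k : ℝ) * h) (((k : ℝ) + 1) * h), Φ t * w t :=
        Finset.sum_le_sum fun k _ => hblk k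
    _ = ∫ t in ⋃ k ∈ R, Set.Ioc ((k : ℝ) * h) (((k : ℝ) + 1) * h), Φ t * w t := by
        rw [integral_biUnion_finset R (fun k _ => measurableSet_Ioc) hdisj
          (fun k _ => hΦi.integrableOn)]
    _ ≤ ∫ t, Φ t * w t := setIntegral_le_integral hΦi (Filter.Eventually.of_forall hΦ0)
    _ ≤ _ := hΦint

theorem Z4 (C0 a0 : ℝ) (hC0 : 1 ≤ C0) (ha0 : 1 ≤ a0) : ∃ C T0 : ℝ, 0 < C ∧ Real.exp 40 ≤ T0 ∧
    ∀ (T : ℝ) (A : Finset (Finset ℕ)), T0 ≤ T → Wd C0 T A → ∃ s : ℕ → ℝ, (∀ k, 0 ≤ s k) ∧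
      (∀ k : ℕ, ∀ u : ℝ, (k : ℝ) * (a0 / Real.log T) ≤ u → u ≤ ((k : ℝ) + 2) * (a0 / Real.log T) →
        |deriv (fr (1 / T)) u| ≤ s k) ∧
      ∀ R : Finset ℕ, ∑ k ∈ R, s k ^ 2 *
        (∫ t in ((k : ℝ) * (a0 / Real.log T))..(((k : ℝ) + 1) * (a0 / Real.log T)), ‖BB A t‖ ^ 6) ≤
        C * (Real.log T) ^ 2 * Real.sqrt T * (Real.log T) ^ (1 / 4 : ℝ) := by
  refine ⟨9 * a0 * (2 + 2 * a0) ^ 3 * C0, max (Real.exp 40) (Real.exp (8 * a0)), by positivity,
    le_max_left _ _, fun T A hT hW => ?_⟩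
  have hexp : (40 : ℝ) + 1 ≤ Real.exp 40 := Real.add_one_le_exp 40
  have hT40 : Real.exp 40 ≤ T := (le_max_left _ _).trans hT
  have hTpos : 0 < T := by linarith
  have hT8 : 8 * a0 ≤ Real.log T := by
    rw [Real.le_log_iff_exp_le hTpos]
    exact (le_max_right _ _).trans hT
  set L : ℝ := Real.log T with hL
  have hLpos : 0 < L := by linarith
  set h : ℝ := a0 / L with hh
  have hhpos : 0 < h := by positivity
  have hhL : h * L = a0 := by
    rw [hh]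
    field_simp
  have hh8 : h ≤ 1 / 8 := by
    rw [hh, div_le_iff₀ hLpos]
    linarith
  have hd0 : (0 : ℝ) < 1 / T := by positivity
  have hd1 : (1 : ℝ) / T ≤ 1 / 2 := by
    rw [div_le_div_iff₀ hTpos (by norm_num)]
    linarith
  have hsm : ContDiff ℝ 3 (fr (1 / T)) := fr_smooth hd0 hd1
  have hg : ContDiff ℝ 1 (deriv (fr (1 / T))) := by
    have h3 : ContDiff ℝ ((1 + 1 : ℕ)) (fr (1 / T)) := hsm.of_le (by norm_num)
    exact ContDiff.iterate_deriv' 1 1 h3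
  have hgc : Continuous (deriv (fr (1 / T))) := hg.continuous
  have hmax : ∀ k : ℕ, ∃ x : ℝ, ((k : ℝ) * h ≤ x ∧ x ≤ ((k : ℝ) + 2) * h) ∧
      ∀ u : ℝ, (k : ℝ) * h ≤ u → u ≤ ((k : ℝ) + 2) * h →
        |deriv (fr (1 / T)) u| ≤ |deriv (fr (1 / T)) x| := by
    intro k
    have hne : (Set.Icc ((k : ℝ) * h) (((k : ℝ) + 2) * h)).Nonempty :=
      ⟨(k : ℝ) * h, le_refl _, by nlinarith⟩
    obtain ⟨x, hx, hm⟩ := isCompact_Icc.exists_isMaxOn hne (hgc.abs.continuousOn)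
    exact ⟨x, hx, fun u h1 h2 => hm ⟨h1, h2⟩⟩
  choose x hx hxm using hmax
  refine ⟨fun k => |deriv (fr (1 / T)) (x k)|, fun k => abs_nonneg _, fun k u h1 h2 => hxm k u h1 h2,
    fun R => ?_⟩
  have hLq : 0 ≤ L ^ (1 / 4 : ℝ) := Real.rpow_nonneg hLpos.le _
  have hC0' : 0 ≤ C0 := by linarith
  have hsq : 0 ≤ Real.sqrt T := Real.sqrt_nonneg _
  have hvL : ∀ v : ℝ, |v| ≤ 2 * h → (2 + |v| * L) ^ 3 ≤ (2 + 2 * a0) ^ 3 := by
    intro v hv
    have h1 : |v| * L ≤ 2 * a0 := by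
      have := mul_le_mul_of_nonneg_right hv hLpos.le
      nlinarith
    have h2 : 0 ≤ |v| * L := by positivity
    gcongr
  have hv4 : ∀ v : ℝ, |v| ≤ 2 * h → |v| ≤ 1 / 4 := fun v hv => by linarith
  have key := z4_aux (deriv (fr (1 / T))) (fun t => ‖BB A t‖ ^ 6) hg (hW.cont.norm.pow 6)
    (fun t => by positivity) L h
    (C0 * Real.sqrt T * L ^ 2 * L ^ (1 / 4 : ℝ) * (2 + 2 * a0) ^ 3)
    (C0 * Real.sqrt T * L ^ 4 * L ^ (1 / 4 : ℝ) * (2 + 2 * a0) ^ 3) hLpos hhpos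
    (by
      rw [div_le_iff₀ hLpos]
      nlinarith)
    (fun v hv => (hW.m4i v (hv4 v hv)).1) (fun v hv => (hW.m4i v (hv4 v hv)).2)
    (fun v hv => (hW.m4a v (hv4 v hv)).trans (mul_le_mul_of_nonneg_left (hvL v hv) (by positivity)))
    (fun v hv => (hW.m4b v (hv4 v hv)).trans (mul_le_mul_of_nonneg_left (hvL v hv) (by positivity)))
    (fun k => |deriv (fr (1 / T)) (x k)|) x hx (fun k => rfl) R
  refine key.trans (le_of_eq ?_)
  have e1 : 1 / L * (C0 * Real.sqrt T * L ^ 4 * L ^ (1 / 4 : ℝ) * (2 + 2 * a0) ^ 3) =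
      C0 * Real.sqrt T * L ^ 3 * L ^ (1 / 4 : ℝ) * (2 + 2 * a0) ^ 3 := by
    field_simp
  rw [e1]
  calc 3 * h * (2 * L * (C0 * Real.sqrt T * L ^ 2 * L ^ (1 / 4 : ℝ) * (2 + 2 * a0) ^ 3) +
        C0 * Real.sqrt T * L ^ 3 * L ^ (1 / 4 : ℝ) * (2 + 2 * a0) ^ 3)
      = 9 * (h * L) * L ^ 2 * C0 * Real.sqrt T * L ^ (1 / 4 : ℝ) * (2 + 2 * a0) ^ 3 := by ring
    _ = 9 * a0 * (2 + 2 * a0) ^ 3 * C0 * L ^ 2 * Real.sqrt T * L ^ (1 / 4 : ℝ) := by
        rw [hhL]
        ring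

end Pool.Agent.H28.ZT
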