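import Pool.Agent.H28.ZT.Z2
import Pool.Agent.H28.ZT.Z4
import Pool.Agent.H28.ZT.Hold
import Pool.Agent.H28.ZT.Cover

/-!
# Z5 (chapter Z): the sum of `1/s_k` over the good `k`

`c₂, a0` from Z2, `h = a0/L ≤ 1/8`, `s` from Z4, `G = {T/2 ≤ t ≤ T, |II| < YY}` (measurable: `II_cont`, `YY_cont`), `R` from COVER
with `b = ‖BB A ·‖`.  `W_k = ∫_{I_k} ‖B‖²`, `∑_{k ∈ R} W_k ≥ ∫_G ‖B‖² ≥ c₂ T L^(1/4)`.
`sign_change`: for `k ∈ R` there are `t ∈ G ∩ I_k` and `u, u' ∈ [t, t+h] ⊆ J_k = [kh, (k+2)h]` with `F u < 0 < F u'` (and so `s k > 0`: if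
`s k = 0`, `F` is constant on `J_k`).  `J_k ⊆ [T/2 - h, T + 2h] ⊆ [1, T+1]`.
HOLD with `μ = T^(1/4)/L`: `(∑ W_k)² ≤ (∑ 1/s_k)(∑ s_k W_k²)`, `∑ s_k W_k² ≤ (h/2)(μ C L² √T L^(1/4) + μ^(-1) ∑ W_k)`, and
`∑ W_k ≤ ∫_{T/2-1}^{T+1} ‖B‖² ≤ T/2 EE + C0 T^(9/10) + 2 T^(2/1000) ≤ C T L^(1/4)` (`Wd.m0`, `Wd.ee2`, `Wd.bd`).
So `∑ s_k W_k² ≤ C h L T^(3/4) L^(1/4) = C a0 T^(3/4) L^(1/4)` and `∑ 1/s_k ≥ c T^(5/4) L^(1/4)`.
-/

set_option autoImplicit false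

namespace Pool.Agent.H28.ZT

open Complex MeasureTheory

private theorem z5_pow (T : ℝ) (hT : 0 < T) : ∃ r : ℝ, 0 < r ∧ T = r ^ 4 ∧ Real.sqrt T = r ^ 2 ∧
    T ^ (1 / 4 : ℝ) = r ∧ T ^ (5 / 4 : ℝ) = r ^ 5 := by
  have hr : 0 < T ^ (1 / 4 : ℝ) := Real.rpow_pos_of_pos hT _
  have e4 : T = (T ^ (1 / 4 : ℝ)) ^ 4 := by
    rw [← Real.rpow_natCast, ← Real.rpow_mul hT.le]
    norm_num
  refine ⟨T ^ (1 / 4 : ℝ), hr, e4, ?_, rfl, ?_⟩
  · rw [Real.sqrt_eq_rpow, ← Real.rpow_natCast, ← Real.rpow_mul hT.le]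
    norm_num
  · rw [← Real.rpow_natCast, ← Real.rpow_mul hT.le]
    norm_num

theorem Z5 (C0 : ℝ) (hC0 : 1 ≤ C0) : ∃ c T0 : ℝ, 0 < c ∧ Real.exp 40 ≤ T0 ∧
    ∀ (T : ℝ) (A : Finset (Finset ℕ)), T0 ≤ T → Wd C0 T A → ∃ (h : ℝ) (s : ℕ → ℝ) (R : Finset ℕ), 0 < h ∧
      (∀ k ∈ R, 0 < s k ∧ 1 ≤ (k : ℝ) * h ∧ ((k : ℝ) + 2) * h ≤ T + 1 ∧
        (∀ u : ℝ, (k : ℝ) * h ≤ u → u ≤ ((k : ℝ) + 2) * h → |deriv (fr (1 / T)) u| ≤ s k) ∧
        ∃ u u' : ℝ, (k : ℝ) * h ≤ u ∧ u ≤ ((k : ℝ) + 2) * h ∧ (k : ℝ) * h ≤ u' ∧ u' ≤ ((k : ℝ) + 2) * h ∧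
          fr (1 / T) u < 0 ∧ 0 < fr (1 / T) u') ∧
      c * T ^ (5 / 4 : ℝ) * (Real.log T) ^ (1 / 4 : ℝ) ≤ ∑ k ∈ R, 1 / s k := by
  obtain ⟨c2, a0, T2, hc2, ha0, hT2, h2⟩ := Z2 C0 hC0
  obtain ⟨C4, T4, hC4, hT4, h4⟩ := Z4 C0 a0 hC0 ha0
  have ha0' : 0 < a0 := by linarith
  have hD : 0 < a0 / 2 * (C4 + 4 * C0) := by positivity
  refine ⟨c2 ^ 2 / (a0 / 2 * (C4 + 4 * C0)), max T2 T4, by positivity, hT2.trans (le_max_left _ _),
    fun T A hT hW => ?_⟩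
  have hTT2 : T2 ≤ T := (le_max_left _ _).trans hT
  have hTT4 : T4 ≤ T := (le_max_right _ _).trans hT
  have hexp : (40 : ℝ) + 1 ≤ Real.exp 40 := Real.add_one_le_exp 40
  have hT41 : (41 : ℝ) ≤ T := by linarith
  have hTpos : 0 < T := by linarith
  have hL40 : 40 ≤ Real.log T := by
    rw [Real.le_log_iff_exp_le hTpos]
    linarith
  have hLpos : 0 < Real.log T := by linarith
  obtain ⟨hh8, hG1⟩ := h2 T A hTT2 hW
  obtain ⟨s, hs0, hs1, hs2⟩ := h4 T A hTT4 hW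
  set L : ℝ := Real.log T with hLdef
  set h : ℝ := a0 / L with hhdef
  have hh : 0 < h := by positivity
  have hhL : h * L = a0 := by
    rw [hhdef]
    field_simp
  set G : Set ℝ := {t : ℝ | T / 2 ≤ t ∧ t ≤ T ∧ |II T A h t| < YY T A h t} with hGdef
  have hT2' : (2 : ℝ) ≤ T := by linarith
  have hGm : MeasurableSet G := by
    have m1 : MeasurableSet {t : ℝ | T / 2 ≤ t} := measurableSet_Ici
    have m2 : MeasurableSet {t : ℝ | t ≤ T} := measurableSet_Iic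
    have m3 : MeasurableSet {t : ℝ | |II T A h t| < YY T A h t} :=
      measurableSet_lt (II_cont hT2' A hW.cont h).abs.measurable (YY_cont hT2' A hW.cont h).measurable
    exact m1.inter (m2.inter m3)
  obtain ⟨R, hR1, hR2, hR3⟩ := cover (fun t => ‖BB A t‖) hW.cont.norm h T hh (by linarith) (by linarith) G hGm
    (fun t ht => ⟨ht.1, ht.2.1⟩)
  have hd0 : 0 < 1 / T := by positivity
  have hd1 : 1 / T ≤ 1 / 2 := by
    rw [div_le_div_iff₀ hTpos (by norm_num)]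
    linarith
  have hsm := fr_smooth hd0 hd1
  have hdiff : Differentiable ℝ (fr (1 / T)) := hsm.differentiable (by norm_num)
  have key : ∀ k ∈ R, 0 < s k ∧ 1 ≤ (k : ℝ) * h ∧ ((k : ℝ) + 2) * h ≤ T + 1 ∧
        (∀ u : ℝ, (k : ℝ) * h ≤ u → u ≤ ((k : ℝ) + 2) * h → |deriv (fr (1 / T)) u| ≤ s k) ∧
        ∃ u u' : ℝ, (k : ℝ) * h ≤ u ∧ u ≤ ((k : ℝ) + 2) * h ∧ (k : ℝ) * h ≤ u' ∧ u' ≤ ((k : ℝ) + 2) * h ∧
          fr (1 / T) u < 0 ∧ 0 < fr (1 / T) u' := by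
    intro k hk
    obtain ⟨t, ht, hk1, hk2⟩ := hR1 k hk
    obtain ⟨u, u', u1, u2, u3, u4, u5, u6⟩ := sign_change hT2' A hW.cont hh ht.2.2
    have e1 : ((k : ℝ) + 1) * h = (k : ℝ) * h + h := by ring
    have e2 : ((k : ℝ) + 2) * h = (k : ℝ) * h + 2 * h := by ring
    have ht1 := ht.1
    have ht2 := ht.2.1
    have v1 : (k : ℝ) * h ≤ u := by linarith
    have v2 : u ≤ ((k : ℝ) + 2) * h := by linarith
    have v3 : (k : ℝ) * h ≤ u' := by linarith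
    have v4 : u' ≤ ((k : ℝ) + 2) * h := by linarith
    refine ⟨?_, by linarith, by linarith, hs1 k, u, u', v1, v2, v3, v4, u5, u6⟩
    rcases (hs0 k).lt_or_eq with hp | hp
    · exact hp
    · exfalso
      have hc := Convex.norm_image_sub_le_of_norm_deriv_le (f := fr (1 / T)) (C := 0)
        (s := Set.Icc ((k : ℝ) * h) (((k : ℝ) + 2) * h)) (x := u) (y := u')
        (fun x _ => hdiff x) (fun x hx => by
          rw [Real.norm_eq_abs]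
          have := hs1 k x hx.1 hx.2
          rw [← hp] at this
          exact this) (convex_Icc _ _) ⟨v1, v2⟩ ⟨v3, v4⟩
      rw [zero_mul] at hc
      have := norm_le_zero_iff.1 hc
      linarith
  refine ⟨h, s, R, hh, key, ?_⟩
  obtain ⟨r, hr, er4, er2, er1, er5⟩ := z5_pow T hTpos
  have hq : 0 < L ^ (1 / 4 : ℝ) := Real.rpow_pos_of_pos hLpos _
  have hq1 : 1 ≤ L ^ (1 / 4 : ℝ) := Real.one_le_rpow (by linarith) (by norm_num)
  set q : ℝ := L ^ (1 / 4 : ℝ) with hqdef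
  set W : ℕ → ℝ := fun k => ∫ t in ((k : ℝ) * h)..(((k : ℝ) + 1) * h), ‖BB A t‖ ^ 2 with hWdef
  have hW1 : c2 * T * q ≤ ∑ k ∈ R, W k := hG1.trans hR2
  have hi : ∀ a b : ℝ, IntervalIntegrable (fun t => ‖BB A t‖ ^ 2) volume a b :=
    fun a b => (hW.cont.norm.pow 2).intervalIntegrable a b
  have hpt : ∀ t : ℝ, ‖BB A t‖ ^ 2 ≤ T := by
    intro t
    have h1 := hW.bd t
    calc ‖BB A t‖ ^ 2 ≤ (T ^ (1 / 1000 : ℝ)) ^ 2 := pow_le_pow_left₀ (norm_nonneg _) h1 2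
      _ = T ^ (1 / 500 : ℝ) := by
          rw [← Real.rpow_natCast, ← Real.rpow_mul hTpos.le]
          norm_num
      _ ≤ T ^ (1 : ℝ) := Real.rpow_le_rpow_of_exponent_le (by linarith) (by norm_num)
      _ = T := Real.rpow_one T
  have hunit : ∀ a : ℝ, ∫ t in a..(a + 1), ‖BB A t‖ ^ 2 ≤ T := by
    intro a
    have h1 := intervalIntegral.integral_mono_on (by linarith : a ≤ a + 1) (hi a (a + 1))
      (intervalIntegrable_const (c := T)) (fun x _ => hpt x)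
    rw [intervalIntegral.integral_const] at h1
    simpa using h1
  have hW2 : ∑ k ∈ R, W k ≤ 4 * C0 * T * q := by
    have h1 := hW.m0
    have h3 := (abs_le.1 h1).2
    have e : ∫ t in (T / 2 - 1)..(T + 1), ‖BB A t‖ ^ 2 = (∫ t in (T / 2 - 1)..(T / 2), ‖BB A t‖ ^ 2) +
        (∫ t in (T / 2)..T, ‖BB A t‖ ^ 2) + ∫ t in T..(T + 1), ‖BB A t‖ ^ 2 := by
      rw [intervalIntegral.integral_add_adjacent_intervals (hi _ _) (hi _ _),
        intervalIntegral.integral_add_adjacent_intervals (hi _ _) (hi _ _)]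
    have u1 := hunit (T / 2 - 1)
    have e' : T / 2 - 1 + 1 = T / 2 := by ring
    rw [e'] at u1
    have u2 := hunit T
    have hee := hW.ee2
    have h9 : T ^ (9 / 10 : ℝ) ≤ T := by
      calc T ^ (9 / 10 : ℝ) ≤ T ^ (1 : ℝ) := Real.rpow_le_rpow_of_exponent_le (by linarith) (by norm_num)
        _ = T := Real.rpow_one T
    have hTq : T ≤ T * q := by nlinarith
    have hC0T : C0 * T ^ (9 / 10 : ℝ) ≤ C0 * (T * q) := by
      apply mul_le_mul_of_nonneg_left _ (by linarith)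
      linarith
    have hEE : T / 2 * EE A ≤ T / 2 * (C0 * q) := mul_le_mul_of_nonneg_left hee (by linarith)
    have hTC : T * q ≤ C0 * (T * q) := by
      have : 0 < T * q := by positivity
      nlinarith
    have hsum := hR3
    simp only [hWdef]
    rw [e] at hsum
    nlinarith
  have hμ : 0 < r / L := by positivity
  have hW3 : ∑ k ∈ R, s k * W k ^ 2 ≤ a0 / 2 * (C4 + 4 * C0) * (r ^ 3 * q) := by
    have h1 : ∀ k ∈ R, s k * W k ^ 2 ≤ h / 2 * (r / L * (s k ^ 2 * ∫ t in ((k : ℝ) * h)..(((k : ℝ) + 1) * h),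
        ‖BB A t‖ ^ 6) + 1 / (r / L) * W k) := by
      intro k _
      have h3 := hold_one (fun t => ‖BB A t‖) hW.cont.norm ((k : ℝ) * h) (((k : ℝ) + 1) * h) (s k) (r / L)
        (by nlinarith) (hs0 k) hμ
      have e : (((k : ℝ) + 1) * h - (k : ℝ) * h) / 2 = h / 2 := by ring
      rw [e] at h3
      exact h3
    have h2' := Finset.sum_le_sum h1
    rw [← Finset.mul_sum, Finset.sum_add_distrib, ← Finset.mul_sum, ← Finset.mul_sum] at h2'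
    have h6 := hs2 R
    rw [er2] at h6
    refine h2'.trans ?_
    have h7 : r / L * ∑ k ∈ R, s k ^ 2 * (∫ t in ((k : ℝ) * h)..(((k : ℝ) + 1) * h), ‖BB A t‖ ^ 6) ≤
        r / L * (C4 * L ^ 2 * r ^ 2 * q) := mul_le_mul_of_nonneg_left h6 hμ.le
    have h8 : 1 / (r / L) * ∑ k ∈ R, W k ≤ 1 / (r / L) * (4 * C0 * T * q) :=
      mul_le_mul_of_nonneg_left hW2 (by positivity)
    have e7 : r / L * (C4 * L ^ 2 * r ^ 2 * q) = C4 * (L * (r ^ 3 * q)) := by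
      field_simp
    have e8 : 1 / (r / L) * (4 * C0 * T * q) = 4 * C0 * (L * (r ^ 3 * q)) := by
      rw [er4]
      field_simp
    rw [e7] at h7
    rw [e8] at h8
    calc h / 2 * (r / L * ∑ k ∈ R, s k ^ 2 * (∫ t in ((k : ℝ) * h)..(((k : ℝ) + 1) * h), ‖BB A t‖ ^ 6) +
          1 / (r / L) * ∑ k ∈ R, W k)
        ≤ h / 2 * (C4 * (L * (r ^ 3 * q)) + 4 * C0 * (L * (r ^ 3 * q))) :=
          mul_le_mul_of_nonneg_left (add_le_add h7 h8) (by positivity)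
      _ = (h * L) / 2 * (C4 + 4 * C0) * (r ^ 3 * q) := by ring
      _ = a0 / 2 * (C4 + 4 * C0) * (r ^ 3 * q) := by rw [hhL]
  have hcs := hold_sum R W s (fun k hk => (key k hk).1)
  have hS0 : 0 ≤ ∑ k ∈ R, 1 / s k := Finset.sum_nonneg fun k hk => (one_div_pos.2 (key k hk).1).le
  have h1 : (c2 * T * q) ^ 2 ≤ (∑ k ∈ R, 1 / s k) * (a0 / 2 * (C4 + 4 * C0) * (r ^ 3 * q)) := by
    calc (c2 * T * q) ^ 2 ≤ (∑ k ∈ R, W k) ^ 2 := pow_le_pow_left₀ (by positivity) hW1 2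
      _ ≤ _ := hcs
      _ ≤ _ := mul_le_mul_of_nonneg_left hW3 hS0
  rw [er5]
  have hrq : 0 < r ^ 3 * q := by positivity
  rw [div_mul_eq_mul_div, div_mul_eq_mul_div, div_le_iff₀ hD]
  have h3 : (c2 ^ 2 * r ^ 5 * q) * (r ^ 3 * q) ≤ ((∑ k ∈ R, 1 / s k) * (a0 / 2 * (C4 + 4 * C0))) * (r ^ 3 * q) := by
    calc (c2 ^ 2 * r ^ 5 * q) * (r ^ 3 * q) = (c2 * T * q) ^ 2 := by
          rw [er4]
          ring
      _ ≤ (∑ k ∈ R, 1 / s k) * (a0 / 2 * (C4 + 4 * C0) * (r ^ 3 * q)) := h1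
      _ = _ := by ring
  exact le_of_mul_le_mul_right h3 hrq

end Pool.Agent.H28.ZT
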