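import Pool.Agent.H28.ZT.Z5
import Pool.Agent.H28.ZT.MZ6

/-!
# Z6 (chapter Z): the measure of the set where `|F| < η`

Z5 and MZ6 (`a = 1`, `b = T + 1`, `f = fr (1/T)`, `fr_smooth`).
-/

set_option autoImplicit false

namespace Pool.Agent.H28.ZT

open Complex MeasureTheory

theorem Z6 (C0 : ℝ) (hC0 : 1 ≤ C0) : ∃ c T0 : ℝ, 0 < c ∧ Real.exp 40 ≤ T0 ∧
    ∀ (T : ℝ) (A : Finset (Finset ℕ)), T0 ≤ T → Wd C0 T A → ∃ η0 : ℝ, 0 < η0 ∧ ∀ η : ℝ, 0 < η → η ≤ η0 →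
      ENNReal.ofReal (c * η * T ^ (5 / 4 : ℝ) * (Real.log T) ^ (1 / 4 : ℝ)) ≤
        volume {t : ℝ | 1 ≤ t ∧ t ≤ T + 1 ∧ |fr (1 / T) t| < η} := by
  obtain ⟨c, T0, hc, hT0, h5⟩ := Z5 C0 hC0
  refine ⟨c, T0, hc, hT0, fun T A hT hW => ?_⟩
  obtain ⟨h, s, R, hh, hR, hsum⟩ := h5 T A hT hW
  have hexp : (40 : ℝ) + 1 ≤ Real.exp 40 := Real.add_one_le_exp 40
  have hT41 : (41 : ℝ) ≤ T := by linarith
  have hTpos : 0 < T := by linarith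
  have hd0 : 0 < 1 / T := by positivity
  have hd1 : 1 / T ≤ 1 / 2 := by
    rw [div_le_div_iff₀ hTpos (by norm_num)]
    linarith
  have hsm := fr_smooth hd0 hd1
  have hdiff : Differentiable ℝ (fr (1 / T)) := hsm.differentiable (by norm_num)
  obtain ⟨η0, hη0, hη⟩ := mz6 (fr (1 / T)) hdiff hsm.continuous h 1 (T + 1) hh s R hR
  refine ⟨η0, hη0, fun η h0 h1 => le_trans (ENNReal.ofReal_le_ofReal ?_) (hη η h0 h1)⟩
  calc c * η * T ^ (5 / 4 : ℝ) * (Real.log T) ^ (1 / 4 : ℝ)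
      = η * (c * T ^ (5 / 4 : ℝ) * (Real.log T) ^ (1 / 4 : ℝ)) := by ring
    _ ≤ η * ∑ k ∈ R, 1 / s k := mul_le_mul_of_nonneg_left hsum h0.le

end Pool.Agent.H28.ZT
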