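import Pool.Agent.H28.ZT.Z6
import Pool.Agent.H28.ZT.FLow

/-!
# Z7 (chapter Z): small values of zeta

WORLD and Z6 with `T - 1` in the place of `T` (`T ≥ T0 + 1`).  FLOW: for `1 ≤ t ≤ T ≤ 2 (T-1)`,
`c₁ (T-1)^(-1/4) ‖ζ(1/2+it)‖ ≤ ‖FF (1/(T-1)) t‖ = |fr (1/(T-1)) t|` (`fr_eq`), so `|fr| < η = c₁ (T-1)^(-1/4) ε` implies `‖ζ‖ < ε`.
`(T-1)^(5/4) (T-1)^(-1/4) = T - 1 ≥ T/2`, `log (T-1) ≥ (log T)/2`.
-/

set_option autoImplicit false

namespace Pool.Agent.H28.ZT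

open Complex MeasureTheory

theorem Z7 : ∃ c T0 : ℝ, 0 < c ∧ 1 < T0 ∧ ∀ T : ℝ, T0 ≤ T → ∃ ε0 : ℝ, 0 < ε0 ∧ ∀ ε : ℝ, 0 < ε → ε ≤ ε0 →
    ENNReal.ofReal (c * ε * T * (Real.log T) ^ (1 / 4 : ℝ)) ≤
      volume {t : ℝ | 0 ≤ t ∧ t ≤ T ∧ ‖riemannZeta (1 / 2 + I * (t : ℂ))‖ < ε} := by
  obtain ⟨C0, T1, hC0, hT1, hw⟩ := world
  obtain ⟨c, T2, hc, hT2, h6⟩ := Z6 C0 hC0
  obtain ⟨c1, hc1, hlow⟩ := F_low
  have hexp : (40 : ℝ) + 1 ≤ Real.exp 40 := Real.add_one_le_exp 40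
  refine ⟨c * c1 / 4, max T1 T2 + 1, by positivity, ?_, fun T' hT' => ?_⟩
  · have := le_max_left T1 T2
    linarith
  set T : ℝ := T' - 1 with hT
  have hTT1 : T1 ≤ T := by
    have := le_max_left T1 T2
    linarith
  have hTT2 : T2 ≤ T := by
    have := le_max_right T1 T2
    linarith
  have hT41 : (41 : ℝ) ≤ T := by linarith
  have hTpos : 0 < T := by linarith
  obtain ⟨A, hA⟩ := hw T hTT1
  obtain ⟨η0, hη0, hη⟩ := h6 T A hTT2 hA
  have hq : 0 < c1 * T ^ (-(1 / 4) : ℝ) := by positivity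
  refine ⟨η0 / (c1 * T ^ (-(1 / 4) : ℝ)), by positivity, fun ε hε0 hε1 => ?_⟩
  have hη1 : 0 < c1 * T ^ (-(1 / 4) : ℝ) * ε := by positivity
  have hη2 : c1 * T ^ (-(1 / 4) : ℝ) * ε ≤ η0 := by
    rw [le_div_iff₀ hq] at hε1
    linarith
  refine le_trans (ENNReal.ofReal_le_ofReal ?_) (le_trans (hη _ hη1 hη2) (measure_mono ?_))
  · have hL' : 0 < Real.log T' := Real.log_pos (by linarith)
    have hlog : Real.log T' ≤ 2 * Real.log T := by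
      have e : 2 * Real.log T = Real.log (T * T) := by
        rw [Real.log_mul hTpos.ne' hTpos.ne']
        ring
      rw [e]
      apply Real.log_le_log (by linarith)
      nlinarith
    have hL : 0 < Real.log T := Real.log_pos (by linarith)
    have h14 : (Real.log T') ^ (1 / 4 : ℝ) ≤ 2 * (Real.log T) ^ (1 / 4 : ℝ) := by
      calc (Real.log T') ^ (1 / 4 : ℝ) ≤ (2 * Real.log T) ^ (1 / 4 : ℝ) :=
            Real.rpow_le_rpow hL'.le hlog (by norm_num)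
        _ = 2 ^ (1 / 4 : ℝ) * (Real.log T) ^ (1 / 4 : ℝ) := Real.mul_rpow (by norm_num) hL.le
        _ ≤ 2 * (Real.log T) ^ (1 / 4 : ℝ) := by
            apply mul_le_mul_of_nonneg_right _ (Real.rpow_nonneg hL.le _)
            calc (2 : ℝ) ^ (1 / 4 : ℝ) ≤ (2 : ℝ) ^ (1 : ℝ) :=
                  Real.rpow_le_rpow_of_exponent_le (by norm_num) (by norm_num)
              _ = 2 := Real.rpow_one 2
    have hpow : T ^ (-(1 / 4) : ℝ) * T ^ (5 / 4 : ℝ) = T := by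
      rw [← Real.rpow_add hTpos]
      norm_num
    have hT'2 : T' ≤ 2 * T := by linarith
    have hq4 : 0 ≤ (Real.log T) ^ (1 / 4 : ℝ) := Real.rpow_nonneg hL.le _
    have hr4 : 0 ≤ (Real.log T') ^ (1 / 4 : ℝ) := Real.rpow_nonneg hL'.le _
    calc c * c1 / 4 * ε * T' * (Real.log T') ^ (1 / 4 : ℝ)
        ≤ c * c1 / 4 * ε * (2 * T) * (2 * (Real.log T) ^ (1 / 4 : ℝ)) := by gcongr
      _ = c * c1 * ε * T * (Real.log T) ^ (1 / 4 : ℝ) := by ring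
      _ = c * (c1 * T ^ (-(1 / 4) : ℝ) * ε) * T ^ (5 / 4 : ℝ) * (Real.log T) ^ (1 / 4 : ℝ) := by
          nth_rewrite 1 [← hpow]
          ring
  · rintro t ⟨ht1, ht2, ht3⟩
    refine ⟨by linarith, by linarith, ?_⟩
    have hd0 : 0 < 1 / T := by positivity
    have hd1 : 1 / T ≤ 1 / 2 := by
      rw [div_le_div_iff₀ hTpos (by norm_num)]
      linarith
    have h1 := hlow T (by linarith) t ht1 (by linarith)
    have h2 : ‖FF (1 / T) (t : ℂ)‖ = |fr (1 / T) t| := by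
      rw [← fr_eq hd0 hd1 t, Complex.norm_real, Real.norm_eq_abs]
    rw [h2] at h1
    have h3 : c1 * T ^ (-(1 / 4) : ℝ) * ‖riemannZeta (1 / 2 + I * (t : ℂ))‖ <
        c1 * T ^ (-(1 / 4) : ℝ) * ε := lt_of_le_of_lt h1 ht3
    exact lt_of_mul_lt_mul_left h3 hq.le

end Pool.Agent.H28.ZT
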