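import Pool.Agent.H28.ZT.World

/-!
# ZDEF (chapter Z): the three window integrals

Continuity in `t`: the integrands are continuous functions of `t + v` (`differentiableAt_riemannZeta` at `1/2 + i u ≠ 1`,
`fr_smooth`, `BB_cont`); write the integral as a primitive: `∫_0^h g (t+v) dv = G (t+h) - G t` with `G` a primitive of `g`.
-/

set_option autoImplicit false

namespace Pool.Agent.H28.ZT

open Complex MeasureTheory

noncomputable def XX (A : Finset (Finset ℕ)) (h t : ℝ) : ℝ :=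
  ∫ v in (0 : ℝ)..h, ‖riemannZeta (1 / 2 + I * ((t + v : ℝ) : ℂ))‖ * ‖BB A (t + v)‖ ^ 2

noncomputable def II (T : ℝ) (A : Finset (Finset ℕ)) (h t : ℝ) : ℝ :=
  ∫ v in (0 : ℝ)..h, fr (1 / T) (t + v) * ‖BB A (t + v)‖ ^ 2

noncomputable def YY (T : ℝ) (A : Finset (Finset ℕ)) (h t : ℝ) : ℝ :=
  ∫ v in (0 : ℝ)..h, |fr (1 / T) (t + v)| * ‖BB A (t + v)‖ ^ 2

theorem zeta_line_cont : Continuous fun u : ℝ => riemannZeta (1 / 2 + I * (u : ℂ)) := by
  rw [continuous_iff_continuousAt]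
  intro y
  have h1 : (1 / 2 + I * (y : ℂ)) ≠ 1 := by
    intro h
    have := congrArg Complex.re h
    simp at this
  have h2 : ContinuousAt riemannZeta (1 / 2 + I * (y : ℂ)) :=
    (differentiableAt_riemannZeta h1).continuousAt
  have h3 : ContinuousAt (fun y : ℝ => (1 / 2 : ℂ) + I * (y : ℂ)) y := by
    fun_prop
  exact ContinuousAt.comp (f := fun y : ℝ => (1 / 2 : ℂ) + I * (y : ℂ)) (g := riemannZeta) h2 h3

private theorem win_cont {g : ℝ → ℝ} (hg : Continuous g) (h : ℝ) :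
    Continuous (fun t : ℝ => ∫ v in (0 : ℝ)..h, g (t + v)) := by
  refine intervalIntegral.continuous_parametric_intervalIntegral_of_continuous' ?_ _ _
  exact Continuous.comp (g := g) (f := fun z : ℝ × ℝ => z.1 + z.2) hg
    (continuous_fst.add continuous_snd)

private theorem zdef_fr {T : ℝ} (hT : 2 ≤ T) : Continuous (fr (1 / T)) := by
  have hd0 : 0 < 1 / T := by positivity
  have hd1 : 1 / T ≤ 1 / 2 := one_div_le_one_div_of_le (by norm_num) hT
  exact (fr_smooth hd0 hd1).continuous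

theorem XX_cont (A : Finset (Finset ℕ)) (hA : Continuous (BB A)) (h : ℝ) : Continuous (XX A h) :=
  win_cont (g := fun u => ‖riemannZeta (1 / 2 + I * (u : ℂ))‖ * ‖BB A u‖ ^ 2)
    (zeta_line_cont.norm.mul (hA.norm.pow 2)) h

theorem II_cont {T : ℝ} (hT : 2 ≤ T) (A : Finset (Finset ℕ)) (hA : Continuous (BB A)) (h : ℝ) :
    Continuous (II T A h) :=
  win_cont (g := fun u => fr (1 / T) u * ‖BB A u‖ ^ 2) ((zdef_fr hT).mul (hA.norm.pow 2)) h

theorem YY_cont {T : ℝ} (hT : 2 ≤ T) (A : Finset (Finset ℕ)) (hA : Continuous (BB A)) (h : ℝ) :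
    Continuous (YY T A h) :=
  win_cont (g := fun u => |fr (1 / T) u| * ‖BB A u‖ ^ 2) ((zdef_fr hT).abs.mul (hA.norm.pow 2)) h

/-- if `|∫ F ‖B‖²| < ∫ |F| ‖B‖²` over a window then `F` takes both signs there -/
theorem sign_change {T : ℝ} (hT : 2 ≤ T) (A : Finset (Finset ℕ)) (hA : Continuous (BB A)) {h t : ℝ} (hh : 0 < h)
    (h1 : |II T A h t| < YY T A h t) :
    ∃ u u' : ℝ, t ≤ u ∧ u ≤ t + h ∧ t ≤ u' ∧ u' ≤ t + h ∧ fr (1 / T) u < 0 ∧ 0 < fr (1 / T) u' := by
  have e1 : ∃ u : ℝ, t ≤ u ∧ u ≤ t + h ∧ fr (1 / T) u < 0 := by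
    by_contra hc
    push Not at hc
    have h2 : YY T A h t = II T A h t := by
      unfold YY II
      refine intervalIntegral.integral_congr fun v hv => ?_
      rw [Set.uIcc_of_le hh.le] at hv
      show |fr (1 / T) (t + v)| * ‖BB A (t + v)‖ ^ 2 = fr (1 / T) (t + v) * ‖BB A (t + v)‖ ^ 2
      rw [abs_of_nonneg (hc (t + v) (by linarith [hv.1]) (by linarith [hv.2]))]
    rw [h2] at h1
    exact absurd (le_abs_self _) (not_le.mpr h1)
  have e2 : ∃ u : ℝ, t ≤ u ∧ u ≤ t + h ∧ 0 < fr (1 / T) u := by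
    by_contra hc
    push Not at hc
    have h2 : YY T A h t = -II T A h t := by
      unfold YY II
      rw [← intervalIntegral.integral_neg]
      refine intervalIntegral.integral_congr fun v hv => ?_
      rw [Set.uIcc_of_le hh.le] at hv
      show |fr (1 / T) (t + v)| * ‖BB A (t + v)‖ ^ 2 = -(fr (1 / T) (t + v) * ‖BB A (t + v)‖ ^ 2)
      rw [abs_of_nonpos (hc (t + v) (by linarith [hv.1]) (by linarith [hv.2])), neg_mul]
    rw [h2] at h1
    exact absurd (neg_le_abs _) (not_le.mpr h1)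
  obtain ⟨u, a1, a2, a3⟩ := e1
  obtain ⟨u', b1, b2, b3⟩ := e2
  exact ⟨u, u', a1, a2, b1, b2, a3, b3⟩

end Pool.Agent.H28.ZT
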