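import Mathlib

/-!
# ZLINE (chapter Q): `ζ` near the line `Re s = 1`

`h(s) = (s - 1) ζ(s)` (value 1 at `s = 1`: `riemannZeta_residue_one`) is continuous on `Re s ≥ 1` and nonzero there
(`riemannZeta_ne_zero_of_one_le_re`), so on the compact set `1 ≤ Re s ≤ 2, |Im s| ≤ 3` it lies between two positive
constants; `|σ + i x|` lies between `(σ + |x|)/2` and `σ + |x|`.
-/

set_option autoImplicit false

namespace Pool.Agent.H28.ZT

open Complex

theorem z_line : ∃ C : ℝ, 0 < C ∧ ∀ σ x : ℝ, 0 < σ → σ ≤ 1 → |x| ≤ 3 →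
    |Real.log ‖riemannZeta (1 + (σ : ℂ) + I * (x : ℂ))‖ + Real.log (σ + |x|)| ≤ C := by
  have hK : IsCompact (Set.Icc (1 : ℝ) 2 ×ℂ Set.Icc (-3 : ℝ) 3) := isCompact_Icc.reProdIm isCompact_Icc
  have hne : ∀ s ∈ Set.Icc (1 : ℝ) 2 ×ℂ Set.Icc (-3 : ℝ) 3, riemannZeta₁ s ≠ 0 := by
    intro s hs
    have h1 : 1 ≤ s.re := hs.1.1
    rcases eq_or_ne s 1 with rfl | h
    · rw [riemannZeta₁_one]
      exact one_ne_zero
    · intro h0
      have h2 := riemannZeta_eq_inv_sub_mul h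
      rw [h0, mul_zero] at h2
      exact riemannZeta_ne_zero_of_one_le_re h1 h2
  have hcont : ContinuousOn (fun s => Real.log ‖riemannZeta₁ s‖) (Set.Icc (1 : ℝ) 2 ×ℂ Set.Icc (-3 : ℝ) 3) := by
    refine ContinuousOn.log ?_ fun s hs => norm_ne_zero_iff.2 (hne s hs)
    exact (differentiable_riemannZeta₁.continuous.norm).continuousOn
  obtain ⟨C, hC⟩ := hK.exists_bound_of_continuousOn hcont
  refine ⟨|C| + 1, by positivity, fun σ x hσ hσ1 hx => ?_⟩
  set s : ℂ := 1 + (σ : ℂ) + I * (x : ℂ) with hs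
  have hre : s.re = 1 + σ := by
    rw [hs]
    simp
  have him : s.im = x := by
    rw [hs]
    simp
  have hsK : s ∈ Set.Icc (1 : ℝ) 2 ×ℂ Set.Icc (-3 : ℝ) 3 := by
    rw [Complex.mem_reProdIm, hre, him]
    exact ⟨⟨by linarith, by linarith⟩, abs_le.1 hx⟩
  have hs1 : s ≠ 1 := by
    intro h
    rw [h] at hre
    simp at hre
    linarith
  have h1 := hC s hsK
  rw [Real.norm_eq_abs] at h1
  have hsub : s - 1 = (σ : ℂ) + I * (x : ℂ) := by
    rw [hs]
    ring
  have hn1 : ‖s - 1‖ ≤ σ + |x| := by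
    rw [hsub]
    refine (norm_add_le _ _).trans ?_
    rw [norm_mul, norm_I, one_mul, Complex.norm_real, Complex.norm_real, Real.norm_eq_abs,
      Real.norm_eq_abs, abs_of_pos hσ]
  have hn2 : (σ + |x|) / 2 ≤ ‖s - 1‖ := by
    have e1 := Complex.abs_re_le_norm (s - 1)
    have e2 := Complex.abs_im_le_norm (s - 1)
    have e3 : (s - 1).re = σ := by
      rw [sub_re, hre, one_re]
      ring
    have e4 : (s - 1).im = x := by
      rw [sub_im, him, one_im]
      ring
    rw [e3, abs_of_pos hσ] at e1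
    rw [e4] at e2
    linarith
  have hpos : 0 < σ + |x| := by positivity
  have hn0 : 0 < ‖s - 1‖ := by linarith
  have h2 := riemannZeta_eq_inv_sub_mul hs1
  rw [h2, norm_mul, norm_inv, Real.log_mul (inv_ne_zero hn0.ne') (norm_ne_zero_iff.2 (hne s hsK)),
    Real.log_inv]
  have h3 : Real.log ‖s - 1‖ ≤ Real.log (σ + |x|) := Real.log_le_log hn0 hn1
  have h4 : Real.log (σ + |x|) - Real.log 2 ≤ Real.log ‖s - 1‖ := by
    rw [← Real.log_div hpos.ne' (by norm_num)]
    exact Real.log_le_log (by positivity) hn2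
  have h5 : Real.log 2 ≤ 1 := by
    have := Real.log_two_lt_d9
    linarith
  have h6 := abs_le.1 (h1.trans (le_abs_self C))
  rw [abs_le]
  constructor
  · linarith [h6.1]
  · linarith [h6.2]

end Pool.Agent.H28.ZT
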